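import Mathlib
import Pool.Agent.Lib.MP_d0d59f_nt.Basic

/-!
Definitions for the natural-density almost bounded orbits theorem for `T_d`.

Conventions.  A list `e = [b_n, ..., b_1]` codes the 2-adic valuations of `n` steps of the accelerated
map `N ↦ (3N+d)/2^ν`, the HEAD being the LAST step in time.
-/

namespace Pool.Agent.Lib.MP_d0d59f_nt.AA

open Finset

/-- Lists of length `n` with entries `≥ 1` and sum `l`. -/
def comps : ℕ → ℕ → Finset (List ℕ)
  | 0, l => if l = 0 then {[]} else ∅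
  | n + 1, l => (Finset.Icc 1 l).biUnion fun a => (comps n (l - a)).image (List.cons a)

/-- The offset `C(e)`: `C([]) = 0`, `C(a :: e) = 2^{|e|} + 3 C(e)`. -/
def cc : List ℕ → ℕ
  | [] => 0
  | _ :: e => 2 ^ e.sum + 3 * cc e

/-- The inverse of `2` modulo `3^K`. -/
noncomputable def i2 (K : ℕ) : ZMod (3 ^ K) := (2 : ZMod (3 ^ K))⁻¹

/-- `H_r(e) = 2^{-|e|} (3^n r + d C(e))` modulo `3^K`, `n` the length of `e`. -/
noncomputable def hz (d r : ℤ) (K : ℕ) (e : List ℕ) : ZMod (3 ^ K) :=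
  i2 K ^ e.sum * (3 ^ e.length * (r : ZMod (3 ^ K)) + (d : ZMod (3 ^ K)) * (cc e : ZMod (3 ^ K)))

/-- `nb n l`: probability that `n` geometric variables (`P(a) = 2^{-a}`, `a ≥ 1`) have sum `l`. -/
noncomputable def nb (n l : ℕ) : ℝ := (1 / 2 : ℝ) ^ l * ((comps n l).card : ℝ)

/-- `pz d r K n l Y`: probability that the sum is `l` and `H_r = Y` in `ZMod (3^K)`. -/
noncomputable def pz (d r : ℤ) (K n l : ℕ) (Y : ZMod (3 ^ K)) : ℝ :=
  (1 / 2 : ℝ) ^ l * (((comps n l).filter fun e => hz d r K e = Y).card : ℝ)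

/-- `L¹` oscillation between the levels `3^K` and `3^m` (`m ≤ K`), sum over all `l ≤ L`. -/
noncomputable def osc (d r : ℤ) (K m n L : ℕ) : ℝ :=
  ∑ l ∈ range (L + 1), ∑ x ∈ range (3 ^ K),
    |pz d r K n l (x : ZMod (3 ^ K)) - (3 : ℝ) ^ m / 3 ^ K * pz d r m n l (x : ZMod (3 ^ m))|

/-- The additive character `x ↦ exp(2πi x/3^K)`. -/
noncomputable def ps (K : ℕ) (x : ZMod (3 ^ K)) : ℂ := ZMod.stdAddChar x

/-- Characteristic function of `H_r` on lists of length `n` and sum `l`. -/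
noncomputable def bh (d r : ℤ) (K n l : ℕ) (ξ : ZMod (3 ^ K)) : ℂ :=
  (1 / 2 : ℂ) ^ l * ∑ e ∈ comps n l, ps K (ξ * hz d r K e)

/-- Normalised absolute least residue, in `[0, 1/2]`. -/
noncomputable def aa (K : ℕ) (y : ZMod (3 ^ K)) : ℝ := |(y.valMinAbs : ℝ)| / 3 ^ K

/-- `pw b = (b-1) 2^{-b}`: law of the sum of two geometric variables. -/
noncomputable def pw (b : ℕ) : ℝ := ((b - 1 : ℕ) : ℝ) * (1 / 2) ^ b

/-- The factor gained from the pairs of sum `3`. -/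
noncomputable def ff (K b : ℕ) (w : ZMod (3 ^ K)) : ℝ :=
  if b = 3 then |Real.cos (Real.pi * aa K w)| else 1

/-- The majorant `Q_J`. -/
noncomputable def qq (K L : ℕ) : ℕ → ZMod (3 ^ K) → ℝ
  | 0, _ => 1
  | J + 1, y => ∑ b ∈ range (L + 1),
      pw b * ff K b (i2 K ^ b * y) * qq K L J (9 * (i2 K ^ b * y))

/-- `κ = 1 - cos(π/2048) > 0`. -/
noncomputable def kap : ℝ := 1 - Real.cos (Real.pi / 2048)

/-- The limiting product after the exit of a deep state. -/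
noncomputable def ww (B : ℕ) : ℕ → ℕ → ℤ → ℝ
  | 0, _, _ => 1
  | j + 1, u, m => ∑ b ∈ range (B + 1),
      pw b * (if b = 3 then |Real.cos (Real.pi * (m : ℝ) / 2 ^ (u + 3))| else 1)
        * ww B j (u + b) (9 * m)

/-- `isPath d e N M`: `N` is odd, its first accelerated steps have the valuations coded by `e`
(head = last step) and lead to the odd number `M`. -/
def isPath (d : ℤ) : List ℕ → ℤ → ℤ → Prop
  | [], N, M => Odd N ∧ M = N
  | a :: e, N, M => ∃ M', isPath d e N M' ∧ 1 ≤ a ∧ 2 ^ a * M = 3 * M' + d ∧ Odd M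

/-- The orbit of `x` stays above `B` in absolute value for the first `t` steps. -/
def bad (d : ℤ) (B : ℝ) (t : ℕ) (x : ℤ) : Prop :=
  ∀ k ≤ t, B < |(((T d)^[k] x : ℤ) : ℝ)|

/-- Integers in `[α, β)`. -/
noncomputable def itv (α β : ℝ) : Finset ℤ := Finset.Ico ⌈α⌉ ⌈β⌉

/-- Number of bad odd integers `N ≡ r mod 3^m` in the window `[y, 2y)`. -/
noncomputable def cnt (d : ℤ) (B : ℝ) (t m : ℕ) (r : ℤ) (y : ℝ) : ℕ :=
  Set.ncard {N : ℤ | N ∈ itv y (2 * y) ∧ Odd N ∧ N ≡ r [ZMOD 3 ^ m] ∧ bad d B t N}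

/-- `k(y) = ⌊log₂ y / 250⌋`. -/
noncomputable def kk (y : ℝ) : ℕ := ⌊Real.logb 2 y / 250⌋₊

/-- Normalised density of bad integers at scale `y` at most `β`, in all classes modulo `3^m`,
`m² ≤ k(y)`, for every time budget `t ≥ 8 log₂ y`. -/
def dens (d : ℤ) (B β y : ℝ) : Prop :=
  ∀ (m : ℕ) (r : ℤ) (t : ℕ), m * m ≤ kk y → 8 * Real.logb 2 y ≤ t →
    (cnt d B t m r y : ℝ) ≤ β * (y / (2 * 3 ^ m))

/-- Average of `f` over the cosets of the subgroup generated by `3^K` in `ZMod (3^(K+1))`. -/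
noncomputable def pr (K : ℕ) (f : ZMod (3 ^ (K + 1)) → ℝ) (Y : ZMod (3 ^ (K + 1))) : ℝ :=
  (1 / 3) * ∑ j ∈ range 3, f (Y + (j : ZMod (3 ^ (K + 1))) * 3 ^ K)

/-- The prefix `e` (the last `e.length` steps) is the minimal prefix of sum `> L0`, and its offset
is `< 3^(K+1)`. -/
def frontOK (K L0 : ℕ) (e : List ℕ) : Prop :=
  L0 < e.sum ∧ e.dropLast.sum ≤ L0 ∧ cc e < 3 ^ (K + 1)

/-- `e` has a good front of length at most `τ` and sum at most `L0 + h`. -/
def good (K τ L0 h : ℕ) (e : List ℕ) : Prop :=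
  ∃ t ∈ Icc 1 τ, (e.take t).sum ≤ L0 + h ∧ frontOK K L0 (e.take t)

noncomputable instance (K τ L0 h : ℕ) : DecidablePred (good K τ L0 h) :=
  fun _ => Classical.dec _

noncomputable instance (K L0 : ℕ) : DecidablePred (frontOK K L0) :=
  fun _ => Classical.dec _

end Pool.Agent.Lib.MP_d0d59f_nt.AA
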