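import Mathlib
import Pool.Agent.Lib.MP_d0d59f_nt.NK.K001

section

/-! Row pd-P06: sums of a periodic function over an interval. -/

namespace Pool.Agent.Lib.MP_d0d59f_nt.PD

open Finset

theorem p06_block {P : ℕ} (h : ℤ → ℝ) (hper : ∀ z z' : ℤ, z ≡ z' [ZMOD P] → h z = h z') (a : ℤ) :
    ∑ i ∈ range P, h (a + i) = ∑ c ∈ range P, h (c : ℤ) := by
  have hstep : ∀ b : ℤ, ∑ i ∈ range P, h (b + 1 + i) = ∑ i ∈ range P, h (b + i) := by
    intro b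
    have h1 := Finset.sum_range_succ (fun i : ℕ => h (b + i)) P
    have h2 := Finset.sum_range_succ' (fun i : ℕ => h (b + i)) P
    rw [h1] at h2
    have h3 : h (b + (P : ℕ)) = h (b + ((0 : ℕ) : ℤ)) := by
      apply hper
      rw [Int.modEq_iff_dvd]
      refine ⟨-1, ?_⟩
      push_cast
      ring
    rw [h3] at h2
    have h4 := add_right_cancel h2
    rw [h4]
    refine Finset.sum_congr rfl fun i _ => ?_
    congr 1
    push_cast
    ring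
  have h0 : ∀ b : ℤ, ∑ i ∈ range P, h (b + i) = ∑ i ∈ range P, h (0 + i) := by
    intro b
    induction b using Int.induction_on with
    | zero => rfl
    | succ i ih => rw [hstep]; exact ih
    | pred i ih =>
      rw [← ih, ← hstep (-(i : ℤ) - 1)]
      refine Finset.sum_congr rfl fun i _ => ?_
      congr 1
      ring
  rw [h0 a]
  refine Finset.sum_congr rfl fun i _ => ?_
  rw [zero_add]

theorem p06_blocks {P : ℕ} (h : ℤ → ℝ) (hper : ∀ z z' : ℤ, z ≡ z' [ZMOD P] → h z = h z') (a : ℤ) (q : ℕ) :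
    ∑ i ∈ range (q * P), h (a + i) = q * ∑ c ∈ range P, h (c : ℤ) := by
  induction q with
  | zero => simp
  | succ q ih =>
    rw [Nat.succ_mul, Finset.sum_range_add, ih]
    have h1 := p06_block h hper (a + (q * P : ℕ))
    have h2 : ∑ x ∈ range P, h (a + ((q * P + x : ℕ) : ℤ)) = ∑ c ∈ range P, h (c : ℤ) := by
      rw [← h1]
      refine Finset.sum_congr rfl fun i _ => ?_
      congr 1
      push_cast
      ring
    rw [h2]
    push_cast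
    ring

/-- Every block of `P` consecutive integers gives `∑_{c<P} h c`; the interval is covered by
`⌈(B-A+1)/P⌉ ≤ (B-A+1)/P + 1` blocks. (`B ≥ A - 1`, so `B - A + 1 ≥ 0` is the number of elements.) -/
theorem sum_interval_le {P : ℕ} (hP : 0 < P) (h : ℤ → ℝ) (h0 : ∀ z, 0 ≤ h z)
    (hper : ∀ z z' : ℤ, z ≡ z' [ZMOD P] → h z = h z') (A B : ℤ) (hAB : A ≤ B + 1) :
    ∑ z ∈ Icc A B, h z ≤ (((B : ℝ) - A + 1) / P + 1) * ∑ c ∈ range P, h (c : ℤ) := by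
  obtain ⟨N, hN⟩ := Int.eq_ofNat_of_zero_le (show 0 ≤ B + 1 - A by linarith)
  have hN' : ((B : ℝ) - A + 1) = N := by
    have : ((B + 1 - A : ℤ) : ℝ) = N := by rw [hN]; simp
    push_cast at this
    linarith
  have hH : 0 ≤ ∑ c ∈ range P, h (c : ℤ) := Finset.sum_nonneg fun c _ => h0 _
  have hlt : N < (N / P + 1) * P := by
    have := Nat.lt_div_mul_add hP (a := N)
    calc N < N / P * P + P := this
      _ = (N / P + 1) * P := by ring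
  have h1 : ∑ z ∈ Icc A B, h z ≤ ∑ i ∈ range ((N / P + 1) * P), h (A + i) := by
    have hinj : Set.InjOn (fun i : ℕ => A + (i : ℤ)) (range ((N / P + 1) * P) : Set ℕ) := by
      intro i _ j _ hij
      simp only at hij
      exact_mod_cast add_left_cancel hij
    rw [← Finset.sum_image (f := fun z => h z) hinj]
    refine Finset.sum_le_sum_of_subset_of_nonneg ?_ fun z _ _ => h0 z
    intro z hz
    rw [Finset.mem_Icc] at hz
    obtain ⟨i, hi⟩ := Int.eq_ofNat_of_zero_le (show 0 ≤ z - A by linarith)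
    refine Finset.mem_image.2 ⟨i, ?_, ?_⟩
    · rw [Finset.mem_range]
      omega
    · omega
  rw [p06_blocks h hper] at h1
  refine h1.trans ?_
  refine mul_le_mul_of_nonneg_right ?_ hH
  rw [hN']
  push_cast
  have := Nat.cast_div_le (α := ℝ) (m := N) (n := P)
  linarith

end Pool.Agent.Lib.MP_d0d59f_nt.PD

end

section

/-! Row C1 (about 200 lines): Fourier analysis on `ZMod (3^K)`. -/

namespace Pool.Agent.Lib.MP_d0d59f_nt.AA

open Finset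

theorem ps_add (K : ℕ) (x y : ZMod (3 ^ K)) : ps K (x + y) = ps K x * ps K y := by
  unfold ps
  exact AddChar.map_add_eq_mul _ _ _

theorem ps_zero (K : ℕ) : ps K 0 = 1 := by
  unfold ps
  exact AddChar.map_zero_eq_one _

/-- `ps K c = exp(2πi c/3^K)` for integers `c` (`ZMod.stdAddChar_coe`). -/
theorem ps_coe (K : ℕ) (c : ℤ) :
    ps K (c : ZMod (3 ^ K)) = Complex.exp (2 * Real.pi * Complex.I * c / 3 ^ K) := by
  unfold ps
  rw [ZMod.stdAddChar_coe]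
  push_cast
  rfl

theorem norm_ps (K : ℕ) (x : ZMod (3 ^ K)) : ‖ps K x‖ = 1 := by
  have hx : ((x.valMinAbs : ℤ) : ZMod (3 ^ K)) = x := ZMod.coe_valMinAbs x
  rw [← hx, ps_coe]
  have : (2 * (Real.pi : ℂ) * Complex.I * (x.valMinAbs : ℂ) / 3 ^ K) =
      (((2 * Real.pi * (x.valMinAbs : ℝ) / 3 ^ K : ℝ)) : ℂ) * Complex.I := by
    push_cast
    ring
  rw [this]
  exact Complex.norm_exp_ofReal_mul_I _

/-- Orthogonality (`AddChar.sum_mulShift`, `ZMod.isPrimitive_stdAddChar`). -/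
theorem sum_ps_mul (K : ℕ) (a : ZMod (3 ^ K)) :
    ∑ ξ : ZMod (3 ^ K), ps K (ξ * a) = if a = 0 then ((3 : ℂ) ^ K) else 0 := by
  have h := AddChar.sum_mulShift (ψ := (ZMod.stdAddChar : AddChar (ZMod (3 ^ K)) ℂ)) a
    (ZMod.isPrimitive_stdAddChar (3 ^ K))
  unfold ps
  rw [h, ZMod.card]
  split_ifs
  · push_cast
    rfl
  · simp

theorem c1a_conj (K : ℕ) (x : ZMod (3 ^ K)) :
    (starRingEnd ℂ) (ps K x) = ps K (-x) := by
  have h1 : ps K x * ps K (-x) = 1 := by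
    rw [← ps_add, add_neg_cancel, ps_zero]
  have h2 : ps K x * (starRingEnd ℂ) (ps K x) = 1 := by
    rw [Complex.mul_conj, Complex.normSq_eq_norm_sq, norm_ps]
    simp
  have h3 : ps K x ≠ 0 := by
    intro h
    rw [h, zero_mul] at h1
    exact zero_ne_one h1
  exact mul_left_cancel₀ h3 (h2.trans h1.symm)

/-- Plancherel: expand `‖∑_Y f(Y) ps(ξY)‖² = ∑_{Y,Y'} f(Y) f(Y') ps(ξ(Y-Y'))` and sum over `ξ`. -/
theorem plancherel (K : ℕ) (f : ZMod (3 ^ K) → ℝ) :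
    ∑ ξ : ZMod (3 ^ K), ‖∑ Y : ZMod (3 ^ K), (f Y : ℂ) * ps K (ξ * Y)‖ ^ 2 =
      (3 : ℝ) ^ K * ∑ Y : ZMod (3 ^ K), f Y ^ 2 := by
  have key : ((∑ ξ : ZMod (3 ^ K), ‖∑ Y : ZMod (3 ^ K), (f Y : ℂ) * ps K (ξ * Y)‖ ^ 2 : ℝ) : ℂ) =
      (((3 : ℝ) ^ K * ∑ Y : ZMod (3 ^ K), f Y ^ 2 : ℝ) : ℂ) := by
    have h1 : ∀ ξ : ZMod (3 ^ K),
        ((‖∑ Y : ZMod (3 ^ K), (f Y : ℂ) * ps K (ξ * Y)‖ ^ 2 : ℝ) : ℂ) =
        ∑ Y : ZMod (3 ^ K), ∑ Z : ZMod (3 ^ K), ((f Y : ℂ) * (f Z : ℂ)) * ps K (ξ * (Y - Z)) := by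
      intro ξ
      rw [← Complex.normSq_eq_norm_sq, ← Complex.mul_conj, map_sum, Finset.sum_mul_sum]
      refine Finset.sum_congr rfl fun Y _ => Finset.sum_congr rfl fun Z _ => ?_
      rw [map_mul, Complex.conj_ofReal, c1a_conj, mul_sub, sub_eq_add_neg, ps_add]
      ring
    rw [Complex.ofReal_sum]
    simp_rw [h1]
    rw [Finset.sum_comm]
    have h2 : ∀ Y : ZMod (3 ^ K), ∑ ξ : ZMod (3 ^ K), ∑ Z : ZMod (3 ^ K),
        ((f Y : ℂ) * (f Z : ℂ)) * ps K (ξ * (Y - Z)) = (f Y : ℂ) ^ 2 * (3 : ℂ) ^ K := by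
      intro Y
      rw [Finset.sum_comm]
      have h3 : ∀ Z : ZMod (3 ^ K), ∑ ξ : ZMod (3 ^ K),
          ((f Y : ℂ) * (f Z : ℂ)) * ps K (ξ * (Y - Z)) =
          if Y = Z then (f Y : ℂ) * (f Z : ℂ) * (3 : ℂ) ^ K else 0 := by
        intro Z
        rw [← Finset.mul_sum, sum_ps_mul]
        by_cases h : Y = Z
        · subst h
          simp
        · have h' : Y - Z ≠ 0 := sub_ne_zero.mpr h
          simp [h, h']
      simp_rw [h3]
      rw [Finset.sum_ite_eq]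
      simp only [Finset.mem_univ, if_true]
      ring
    simp_rw [h2]
    rw [← Finset.sum_mul]
    push_cast
    ring
  exact_mod_cast key

/-- `|1 + ps w| = 2 |cos(π aa w)|`. -/
theorem norm_one_add_ps (K : ℕ) (w : ZMod (3 ^ K)) :
    ‖1 + ps K w‖ = 2 * |Real.cos (Real.pi * aa K w)| := by
  have hx : ((w.valMinAbs : ℤ) : ZMod (3 ^ K)) = w := ZMod.coe_valMinAbs w
  have h0 : ps K w = Complex.exp (2 * Real.pi * Complex.I * (w.valMinAbs : ℤ) / 3 ^ K) := by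
    rw [← ps_coe, hx]
  set t : ℝ := Real.pi * ((w.valMinAbs : ℝ) / 3 ^ K) with ht
  have h1 : (2 * (Real.pi : ℂ) * Complex.I * (w.valMinAbs : ℂ) / 3 ^ K) =
      ((t : ℂ) * Complex.I) + ((t : ℂ) * Complex.I) := by
    rw [ht]
    push_cast
    ring
  have h2 : Real.cos (Real.pi * aa K w) = Real.cos t := by
    unfold aa
    rw [ht]
    have h3 : (0 : ℝ) < 3 ^ K := by positivity
    rcases abs_choice (w.valMinAbs : ℝ) with h | h
    · rw [h]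
    · rw [h, neg_div, mul_neg, Real.cos_neg]
  have h4 : 1 + Complex.exp ((t : ℂ) * Complex.I + (t : ℂ) * Complex.I) =
      Complex.exp ((t : ℂ) * Complex.I) * (2 * Complex.cos t) := by
    rw [Complex.two_cos, mul_add, ← Complex.exp_add, ← Complex.exp_add]
    have : (t : ℂ) * Complex.I + -(t : ℂ) * Complex.I = 0 := by ring
    rw [this, Complex.exp_zero]
    ring
  rw [h0, h1, h4, norm_mul, Complex.norm_exp_ofReal_mul_I, one_mul, norm_mul, h2]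
  rw [← Complex.ofReal_cos, Complex.norm_real, Real.norm_eq_abs]
  simp

end Pool.Agent.Lib.MP_d0d59f_nt.AA

end

section

/-! Row C1 (about 200 lines): Fourier analysis on `ZMod (3^K)`. -/

namespace Pool.Agent.Lib.MP_d0d59f_nt.AA

open Finset

theorem c1b_three_pow (K : ℕ) : (3 : ZMod (3 ^ (K + 1))) ^ (K + 1) = 0 := by
  have h : ((3 ^ (K + 1) : ℕ) : ZMod (3 ^ (K + 1))) = 0 := ZMod.natCast_self _
  push_cast at h
  exact h

/-- powers of the character value -/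
theorem c1b_ps_nat (K : ℕ) (x : ZMod (3 ^ K)) (j : ℕ) : ps K ((j : ZMod (3 ^ K)) * x) = ps K x ^ j := by
  induction j with
  | zero => simp [ps_zero]
  | succ j ih => rw [Nat.cast_succ, add_mul, one_mul, ps_add, ih, pow_succ]

theorem c1b_w3 (K : ℕ) (ξ : ZMod (3 ^ (K + 1))) :
    ps (K + 1) (-((3 : ZMod (3 ^ (K + 1))) ^ K * ξ)) ^ 3 = 1 := by
  rw [← c1b_ps_nat]
  have : ((3 : ℕ) : ZMod (3 ^ (K + 1))) * (-((3 : ZMod (3 ^ (K + 1))) ^ K * ξ)) = 0 := by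
    push_cast
    have h : (3 : ZMod (3 ^ (K + 1))) ^ K * 3 = 0 :=
      (pow_succ (3 : ZMod (3 ^ (K + 1))) K).symm.trans (c1b_three_pow K)
    have e : (3 : ZMod (3 ^ (K + 1))) * (-((3 : ZMod (3 ^ (K + 1))) ^ K * ξ)) =
      -(3 ^ K * 3 * ξ) := by ring
    rw [e, h, zero_mul, neg_zero]
  rw [this, ps_zero]

theorem c1b_w_ne (K : ℕ) (ξ : ZMod (3 ^ (K + 1))) (h : (3 : ZMod (3 ^ (K + 1))) ^ K * ξ ≠ 0) :
    ps (K + 1) (-((3 : ZMod (3 ^ (K + 1))) ^ K * ξ)) ≠ 1 := by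
  intro h1
  rw [← ps_zero (K + 1)] at h1
  have h2 := ZMod.injective_stdAddChar (N := 3 ^ (K + 1)) h1
  exact h (neg_eq_zero.1 h2)

theorem c1b_sum_w (K : ℕ) (ξ : ZMod (3 ^ (K + 1))) :
    (1 / 3 : ℂ) * ∑ j ∈ range 3, ps (K + 1) (-((3 : ZMod (3 ^ (K + 1))) ^ K * ξ)) ^ j =
      if (3 : ZMod (3 ^ (K + 1))) ^ K * ξ = 0 then 1 else 0 := by
  split_ifs with h
  · rw [h, neg_zero, ps_zero]; norm_num
  · have h3 := c1b_w3 K ξ
    have hne := c1b_w_ne K ξ h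
    set w := ps (K + 1) (-((3 : ZMod (3 ^ (K + 1))) ^ K * ξ)) with hw
    have hz : (w - 1) * (1 + w + w ^ 2) = 0 := by
      have : (w - 1) * (1 + w + w ^ 2) = w ^ 3 - 1 := by ring
      rw [this, h3, sub_self]
    have hz2 : 1 + w + w ^ 2 = 0 := (mul_eq_zero.1 hz).resolve_left (sub_ne_zero.2 hne)
    rw [sum_range_succ, sum_range_succ, sum_range_one, pow_zero, pow_one, hz2, mul_zero]

/-- Fourier transform of a translate -/
theorem c1b_shift (K : ℕ) (f : ZMod (3 ^ (K + 1)) → ℝ) (ξ : ZMod (3 ^ (K + 1))) (j : ℕ) :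
    ∑ Y : ZMod (3 ^ (K + 1)), (f (Y + (j : ZMod (3 ^ (K + 1))) * 3 ^ K) : ℂ) * ps (K + 1) (ξ * Y) =
      ps (K + 1) (-((3 : ZMod (3 ^ (K + 1))) ^ K * ξ)) ^ j *
        ∑ Y : ZMod (3 ^ (K + 1)), (f Y : ℂ) * ps (K + 1) (ξ * Y) := by
  rw [← Equiv.sum_comp (Equiv.addRight ((j : ZMod (3 ^ (K + 1))) * 3 ^ K))
    (fun Y : ZMod (3 ^ (K + 1)) => (f Y : ℂ) * ps (K + 1) (ξ * Y)), mul_sum]
  refine sum_congr rfl fun Y _ => ?_
  rw [← c1b_ps_nat]
  simp only [Equiv.coe_addRight]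
  have e : ps (K + 1) (ξ * Y) =
      ps (K + 1) ((j : ZMod (3 ^ (K + 1))) * -((3 : ZMod (3 ^ (K + 1))) ^ K * ξ)) *
        ps (K + 1) (ξ * (Y + (j : ZMod (3 ^ (K + 1))) * 3 ^ K)) := by
    rw [← ps_add]
    refine congrArg _ ?_
    ring
  rw [e]; ring

/-- Fourier transform of `f - pr K f`: `f̂(ξ)` if `3^K ξ ≠ 0` and `0` otherwise. Indeed (translation)
`∑_Y f(Y + j 3^K) ps(ξ Y) = ps(-ξ j 3^K) f̂(ξ)`, and `(1/3) ∑_{j<3} ps(-j ξ 3^K)` is `1` if `ξ 3^K = 0` and otherwise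
`0`: `w = ps(-ξ 3^K) ≠ 1` (injectivity of the standard character), `w^3 = ps(-ξ 3^{K+1}) = 1`, `1 + w + w² = 0`. -/
theorem fourier_sub_pr (K : ℕ) (f : ZMod (3 ^ (K + 1)) → ℝ) (ξ : ZMod (3 ^ (K + 1))) :
    ∑ Y : ZMod (3 ^ (K + 1)), ((f Y - pr K f Y : ℝ) : ℂ) * ps (K + 1) (ξ * Y) =
      if (3 : ZMod (3 ^ (K + 1))) ^ K * ξ = 0 then 0
      else ∑ Y : ZMod (3 ^ (K + 1)), (f Y : ℂ) * ps (K + 1) (ξ * Y) := by
  have h1 : ∑ Y : ZMod (3 ^ (K + 1)), ((pr K f Y : ℝ) : ℂ) * ps (K + 1) (ξ * Y) =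
      (if (3 : ZMod (3 ^ (K + 1))) ^ K * ξ = 0 then 1 else 0) *
        ∑ Y : ZMod (3 ^ (K + 1)), (f Y : ℂ) * ps (K + 1) (ξ * Y) := by
    rw [← c1b_sum_w, mul_assoc, sum_mul]
    rw [← sum_congr rfl fun j _ => c1b_shift K f ξ j, sum_comm, mul_sum]
    refine sum_congr rfl fun Y _ => ?_
    unfold pr
    push_cast
    rw [mul_assoc, sum_mul]
  have h2 : ∑ Y : ZMod (3 ^ (K + 1)), ((f Y - pr K f Y : ℝ) : ℂ) * ps (K + 1) (ξ * Y) =
      ∑ Y : ZMod (3 ^ (K + 1)), (f Y : ℂ) * ps (K + 1) (ξ * Y) -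
      ∑ Y : ZMod (3 ^ (K + 1)), ((pr K f Y : ℝ) : ℂ) * ps (K + 1) (ξ * Y) := by
    rw [← sum_sub_distrib]
    refine sum_congr rfl fun Y _ => ?_
    push_cast
    ring
  rw [h2, h1]
  split_ifs with h
  · ring
  · ring

/-- Cauchy-Schwarz `(∑ |g|)² ≤ 3^(K+1) ∑ g²` with `g = f - pr K f`, and `plancherel`, `fourier_sub_pr`. -/
theorem l1_pr_le (K : ℕ) (f : ZMod (3 ^ (K + 1)) → ℝ) :
    ∑ Y : ZMod (3 ^ (K + 1)), |f Y - pr K f Y| ≤
      Real.sqrt (∑ ξ : ZMod (3 ^ (K + 1)), if (3 : ZMod (3 ^ (K + 1))) ^ K * ξ = 0 then (0 : ℝ)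
        else ‖∑ Y : ZMod (3 ^ (K + 1)), (f Y : ℂ) * ps (K + 1) (ξ * Y)‖ ^ 2) := by
  refine Real.le_sqrt_of_sq_le ?_
  have h1 := sq_sum_le_card_mul_sum_sq (s := (univ : Finset (ZMod (3 ^ (K + 1)))))
    (f := fun Y => |f Y - pr K f Y|)
  refine h1.trans (le_of_eq ?_)
  have h2 := plancherel (K + 1) (fun Y => f Y - pr K f Y)
  rw [card_univ, ZMod.card]
  simp only [sq_abs]
  push_cast
  rw [← h2]
  refine sum_congr rfl fun ξ _ => ?_
  rw [fourier_sub_pr]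
  split_ifs with h
  · simp
  · rfl

/-- `|f - pr f| ≤ |f| + pr |f|`, and `∑_Y pr |f| = ∑_Y |f|` (translation invariance). -/
theorem l1_pr_le_two (K : ℕ) (f : ZMod (3 ^ (K + 1)) → ℝ) :
    ∑ Y : ZMod (3 ^ (K + 1)), |f Y - pr K f Y| ≤ 2 * ∑ Y : ZMod (3 ^ (K + 1)), |f Y| := by
  have h1 : ∀ Y : ZMod (3 ^ (K + 1)), |f Y - pr K f Y| ≤
      |f Y| + (1 / 3) * ∑ j ∈ range 3, |f (Y + (j : ZMod (3 ^ (K + 1))) * 3 ^ K)| := by
    intro Y
    refine (abs_sub _ _).trans (add_le_add le_rfl ?_)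
    unfold pr
    rw [abs_mul, abs_of_pos (by norm_num : (0 : ℝ) < 1 / 3)]
    exact mul_le_mul_of_nonneg_left (abs_sum_le_sum_abs _ _) (by norm_num)
  refine (sum_le_sum fun Y _ => h1 Y).trans ?_
  rw [sum_add_distrib, ← mul_sum, sum_comm]
  have h2 : ∀ j ∈ range 3, ∑ Y : ZMod (3 ^ (K + 1)), |f (Y + (j : ZMod (3 ^ (K + 1))) * 3 ^ K)| =
      ∑ Y : ZMod (3 ^ (K + 1)), |f Y| := fun j _ =>
    Equiv.sum_comp (Equiv.addRight ((j : ZMod (3 ^ (K + 1))) * 3 ^ K)) (fun Y => |f Y|)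
  rw [sum_congr rfl h2, sum_const, card_range, nsmul_eq_mul]
  push_cast
  linarith

end Pool.Agent.Lib.MP_d0d59f_nt.AA

end

section

/-! Row pd-P14a. -/

namespace Pool.Agent.Lib.MP_d0d59f_nt.PD

open Finset

private theorem p14a_m (n : ℕ) : (n : ℝ) + 1 ≤ 60 * (((n / 60 : ℕ) : ℝ) + 1) := by
  have h : n + 1 ≤ 60 * (n / 60 + 1) := by omega
  exact_mod_cast h

/-- Elementary: there is `K` with `n (3 n + 101)/(n/60 + 1)^5 ≤ K/(n+1)^2`-type bounds: since `60 (m + 1) ≥ n + 1`. -/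
theorem poly_bound (C : ℝ) (hC : 0 ≤ C) : ∃ K : ℝ, 0 ≤ K ∧ ∀ n : ℕ,
    2 ^ 60 * ((n : ℝ) + 1) * (C * ((3 * n + 100 : ℕ) + 1) / (((n / 60 : ℕ) : ℝ) + 1) ^ 5) ≤
      K / ((n : ℝ) + 1) ^ 2 := by
  obtain ⟨T, hT, hT0⟩ : ∃ T : ℝ, 2 ^ 60 = T ∧ 0 < T := ⟨_, rfl, by positivity⟩
  rw [hT]
  refine ⟨T * C * 101 * 60 ^ 5, by positivity, fun n => ?_⟩
  have hm := p14a_m n
  set x : ℝ := (n : ℝ) + 1 with hx
  set y : ℝ := ((n / 60 : ℕ) : ℝ) + 1 with hy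
  have hx1 : 1 ≤ x := by
    have : (0 : ℝ) ≤ n := Nat.cast_nonneg n
    linarith
  have hy0 : 0 < y := by linarith
  have h1 : (((3 * n + 100 : ℕ) : ℝ) + 1) ≤ 101 * x := by
    push_cast
    have : (0 : ℝ) ≤ n := Nat.cast_nonneg n
    linarith
  have h5 : x ^ 5 ≤ 60 ^ 5 * y ^ 5 := by
    rw [← mul_pow]
    exact pow_le_pow_left₀ (by linarith) hm 5
  rw [mul_div_assoc', div_le_div_iff₀ (by positivity) (by positivity)]
  have h2 : T * x * (C * (((3 * n + 100 : ℕ) : ℝ) + 1)) * x ^ 2 ≤ T * C * 101 * x ^ 4 := by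
    have : T * x * (C * (((3 * n + 100 : ℕ) : ℝ) + 1)) * x ^ 2 ≤
        T * x * (C * (101 * x)) * x ^ 2 := by gcongr
    refine this.trans (le_of_eq ?_)
    ring
  have h3 : T * C * 101 * x ^ 4 ≤ T * C * 101 * x ^ 5 := by
    apply mul_le_mul_of_nonneg_left _ (by positivity)
    exact pow_le_pow_right₀ hx1 (by norm_num)
  have h4 : T * C * 101 * x ^ 5 ≤ T * C * 101 * (60 ^ 5 * y ^ 5) :=
    mul_le_mul_of_nonneg_left h5 (by positivity)
  linarith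

/-- Elementary: `(n+1)^3 (97/100)^(n/60)` is bounded. -/
theorem exp_bound : ∃ K : ℝ, 0 ≤ K ∧ ∀ n : ℕ,
    2 ^ 60 * ((n : ℝ) + 1) * (70 * (97 / 100) ^ (n / 60)) ≤ K / ((n : ℝ) + 1) ^ 2 := by
  have ht := tendsto_pow_const_mul_const_pow_of_abs_lt_one 3 (r := (97 / 100 : ℝ))
    (by rw [abs_of_pos (by norm_num)]; norm_num)
  obtain ⟨B, hB⟩ := ht.bddAbove_range
  have hB' : ∀ m : ℕ, ((m : ℝ) + 1) ^ 3 * (97 / 100) ^ m ≤ B * (100 / 97) := by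
    intro m
    have h1 := hB ⟨m + 1, rfl⟩
    simp only at h1
    rw [pow_succ] at h1
    push_cast at h1
    have h2 : ((m : ℝ) + 1) ^ 3 * (97 / 100) ^ m =
        ((m : ℝ) + 1) ^ 3 * ((97 / 100) ^ m * (97 / 100)) * (100 / 97) := by ring
    rw [h2]
    exact mul_le_mul_of_nonneg_right h1 (by norm_num)
  have hB0 : 0 ≤ B := by
    have h1 := hB' 0
    norm_num at h1
    linarith
  refine ⟨2 ^ 60 * 70 * 60 ^ 3 * (B * (100 / 97)), by positivity, fun n => ?_⟩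
  have hm := p14a_m n
  have h1 := hB' (n / 60)
  have hx0 : 0 < (n : ℝ) + 1 := by positivity
  rw [le_div_iff₀ (by positivity)]
  have h3 : ((n : ℝ) + 1) ^ 3 ≤ 60 ^ 3 * (((n / 60 : ℕ) : ℝ) + 1) ^ 3 := by
    rw [← mul_pow]
    exact pow_le_pow_left₀ hx0.le hm 3
  calc 2 ^ 60 * ((n : ℝ) + 1) * (70 * (97 / 100) ^ (n / 60)) * ((n : ℝ) + 1) ^ 2
      = 2 ^ 60 * 70 * (((n : ℝ) + 1) ^ 3 * (97 / 100) ^ (n / 60)) := by ring
    _ ≤ 2 ^ 60 * 70 * (60 ^ 3 * (((n / 60 : ℕ) : ℝ) + 1) ^ 3 * (97 / 100) ^ (n / 60)) := by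
        apply mul_le_mul_of_nonneg_left _ (by positivity)
        exact mul_le_mul_of_nonneg_right h3 (by positivity)
    _ = 2 ^ 60 * 70 * 60 ^ 3 * ((((n / 60 : ℕ) : ℝ) + 1) ^ 3 * (97 / 100) ^ (n / 60)) := by ring
    _ ≤ 2 ^ 60 * 70 * 60 ^ 3 * (B * (100 / 97)) := by
        apply mul_le_mul_of_nonneg_left h1 (by positivity)

end Pool.Agent.Lib.MP_d0d59f_nt.PD

end
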