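import Mathlib
import Pool.Agent.Lib.MP_d0d59f_nt.NK.K001

section

/-! Row B1 (about 200 lines): paths of the accelerated map. -/

namespace Pool.Agent.Lib.MP_d0d59f_nt.AA

open Finset

theorem isPath_odd_left {d : ℤ} {e : List ℕ} {N M : ℤ} (h : isPath d e N M) : Odd N := by
  induction e generalizing M with
  | nil => exact h.1
  | cons a e ih =>
    obtain ⟨M', h1, _⟩ := h
    exact ih h1

theorem isPath_odd_right {d : ℤ} {e : List ℕ} {N M : ℤ} (h : isPath d e N M) : Odd M := by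
  cases e with
  | nil =>
    obtain ⟨h1, h2⟩ := h
    rw [h2]
    exact h1
  | cons a e =>
    obtain ⟨M', _, _, _, h4⟩ := h
    exact h4

theorem isPath_pos {d : ℤ} {e : List ℕ} {N M : ℤ} (h : isPath d e N M) : ∀ a ∈ e, 1 ≤ a := by
  induction e generalizing M with
  | nil => simp
  | cons a e ih =>
    obtain ⟨M', h1, h2, _⟩ := h
    intro b hb
    rcases List.mem_cons.mp hb with rfl | hb
    · exact h2
    · exact ih h1 b hb

/-- Induction on `e`: `2^{a+|e|} M = 2^{|e|}(3 M' + d) = 3(3^n N + d cc e) + d 2^{|e|}`. -/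
theorem isPath_identity {d : ℤ} {e : List ℕ} {N M : ℤ} (h : isPath d e N M) :
    2 ^ e.sum * M = 3 ^ e.length * N + d * (cc e : ℤ) := by
  induction e generalizing M with
  | nil =>
    obtain ⟨_, h2⟩ := h
    simp [cc, h2]
  | cons a e ih =>
    obtain ⟨M', h1, _, h3, _⟩ := h
    have h := ih h1
    simp only [List.sum_cons, List.length_cons, cc]
    push_cast
    calc (2 : ℤ) ^ (a + e.sum) * M = 2 ^ e.sum * (2 ^ a * M) := by rw [pow_add]; ring
      _ = 3 * (2 ^ e.sum * M') + d * 2 ^ e.sum := by rw [h3]; ring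
      _ = 3 ^ (e.length + 1) * N + d * (2 ^ e.sum + 3 * (cc e : ℤ)) := by rw [h]; ring

/-- For odd `M'` with `2^a M = 3M' + d`, `a ≥ 1`: `T^a M' = M`. -/
theorem b1_step {d : ℤ} (hd : Odd d) {a : ℕ} {M M' : ℤ} (ha : 1 ≤ a) (hM' : Odd M')
    (h : 2 ^ a * M = 3 * M' + d) : (T d)^[a] M' = M := by
  have hhalf : ∀ j : ℕ, (T d)^[j] (2 ^ j * M) = M := by
    intro j
    induction j with
    | zero => simp
    | succ j ih =>
      rw [Function.iterate_succ_apply]
      have h0 : (2 : ℤ) ^ (j + 1) * M % 2 = 0 := by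
        rw [pow_succ]
        have : (2 : ℤ) ^ j * 2 * M = 2 * (2 ^ j * M) := by ring
        rw [this]
        exact Int.mul_emod_right 2 _
      have h1 := T_even (d := d) h0
      have h2 : T d (2 ^ (j + 1) * M) = 2 ^ j * M := by
        have h3 : (2 : ℤ) ^ (j + 1) * M = 2 * (2 ^ j * M) := by rw [pow_succ]; ring
        rw [h3] at h1 ⊢
        linarith
      rw [h2, ih]
  obtain ⟨b, rfl⟩ : ∃ b, a = b + 1 := ⟨a - 1, by omega⟩
  rw [Function.iterate_succ_apply]
  have h1 := T_odd hd (Int.odd_iff.mp hM')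
  have h2 : T d M' = 2 ^ b * M := by
    rw [← h, pow_succ] at h1
    have h3 : (2 : ℤ) ^ b * 2 * M = 2 * (2 ^ b * M) := by ring
    rw [h3] at h1
    linarith
  rw [h2, hhalf b]

/-- Induction on `e`. For odd `M'` with `2^a M = 3M' + d`, `a ≥ 1`: `T^a M' = M`, since
`T M' = (3M'+d)/2 = 2^{a-1} M` and then `a - 1` halvings. (`Function.iterate_add_apply`.) -/
theorem isPath_iterate {d : ℤ} (hd : Odd d) {e : List ℕ} {N M : ℤ} (h : isPath d e N M) :
    (T d)^[e.sum] N = M := by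
  induction e generalizing M with
  | nil =>
    obtain ⟨_, h2⟩ := h
    simp [h2]
  | cons a e ih =>
    obtain ⟨M', h1, h2, h3, _⟩ := h
    rw [List.sum_cons, Function.iterate_add_apply, ih h1]
    exact b1_step hd h2 (isPath_odd_right h1) h3

/-- the odd part -/
theorem b1_oddpart {x : ℤ} (hx : x ≠ 0) (he : Even x) :
    ∃ (a : ℕ) (M : ℤ), 1 ≤ a ∧ 2 ^ a * M = x ∧ Odd M := by
  have h1 : x.natAbs ≠ 0 := Int.natAbs_ne_zero.mpr hx
  obtain ⟨a, m, hm, hxm⟩ := Nat.exists_eq_two_pow_mul_odd h1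
  refine ⟨a, x.sign * m, ?_, ?_, ?_⟩
  · by_contra ha
    have ha0 : a = 0 := by omega
    rw [ha0, pow_zero, one_mul] at hxm
    have h2 : Even x.natAbs := Int.natAbs_even.mpr he
    rw [hxm] at h2
    exact (Nat.not_even_iff_odd.mpr hm) h2
  · calc (2 : ℤ) ^ a * (x.sign * m) = x.sign * ((2 ^ a * m : ℕ) : ℤ) := by push_cast; ring
      _ = x.sign * (x.natAbs : ℤ) := by rw [← hxm]
      _ = x := Int.sign_mul_natAbs x
  · have h3 : Odd x.sign := by
      rcases lt_or_gt_of_ne hx with h | h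
      · rw [Int.sign_eq_neg_one_of_neg h]; decide
      · rw [Int.sign_eq_one_of_pos h]; exact odd_one
    exact h3.mul ((Int.odd_coe_nat m).mpr hm)

/-- Induction on `n`: `3M' + d ≠ 0` as `3 ∤ d`, and it is even; write it as `2^a M` with `M` odd
(`Int.exists_eq_pow_mul_and_not_dvd` or `padicValInt`, `Nat.exists_eq_two_pow_mul_odd`). -/
theorem exists_path {d : ℤ} (hd : Odd d) (h3 : ¬ (3 : ℤ) ∣ d) {N : ℤ} (hN : Odd N) (n : ℕ) :
    ∃ (e : List ℕ) (M : ℤ), e.length = n ∧ isPath d e N M := by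
  induction n with
  | zero => exact ⟨[], N, rfl, hN, rfl⟩
  | succ n ih =>
    obtain ⟨e, M', hl, hp⟩ := ih
    have h0 : 3 * M' + d ≠ 0 := by
      intro h
      exact h3 ⟨-M', by linarith⟩
    have hev : Even (3 * M' + d) := by
      have h1 : Odd (3 * M') := (by decide : Odd (3 : ℤ)).mul (isPath_odd_right hp)
      exact h1.add_odd hd
    obtain ⟨a, M, ha, hM, hodd⟩ := b1_oddpart h0 hev
    exact ⟨a :: e, M, by simp [hl], M', hp, ha, hM, hodd⟩

theorem b1_pow_inj {a a' : ℕ} {M M' : ℤ} (hM : Odd M) (hM' : Odd M')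
    (h : (2 : ℤ) ^ a * M = 2 ^ a' * M') : a = a' ∧ M = M' := by
  have key : ∀ {a a' : ℕ} {M M' : ℤ}, Odd M → Odd M' → (2 : ℤ) ^ a * M = 2 ^ a' * M' →
      ¬ a < a' := by
    intro a a' M M' hM _ h hlt
    obtain ⟨c, rfl⟩ : ∃ c, a' = a + (c + 1) := ⟨a' - a - 1, by omega⟩
    rw [pow_add, mul_assoc] at h
    have h1 : M = 2 ^ (c + 1) * M' := mul_left_cancel₀ (pow_ne_zero a two_ne_zero) h
    rw [h1, pow_succ] at hM
    have h2 : Even ((2 : ℤ) ^ c * 2 * M') := by
      rw [show (2 : ℤ) ^ c * 2 * M' = 2 * (2 ^ c * M') by ring]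
      exact even_two_mul _
    exact (Int.not_even_iff_odd.mpr hM) h2
  have e : a = a' := by
    have h1 := key hM hM' h
    have h2 := key hM' hM h.symm
    omega
  subst e
  exact ⟨rfl, mul_left_cancel₀ (pow_ne_zero a two_ne_zero) h⟩

/-- Induction on `e`; `2^a M = 2^{a'} M'` with `M, M'` odd gives `a = a'`. -/
theorem isPath_unique {d : ℤ} {e e' : List ℕ} {N M M' : ℤ} (h : isPath d e N M)
    (h' : isPath d e' N M') (hl : e.length = e'.length) : e = e' ∧ M = M' := by
  induction e generalizing e' M M' with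
  | nil =>
    cases e' with
    | nil =>
      obtain ⟨_, h2⟩ := h
      obtain ⟨_, h2'⟩ := h'
      exact ⟨rfl, by rw [h2, h2']⟩
    | cons a e' => simp at hl
  | cons a e ih =>
    cases e' with
    | nil => simp at hl
    | cons a' e' =>
      obtain ⟨P, h1, _, h3, h4⟩ := h
      obtain ⟨P', h1', _, h3', h4'⟩ := h'
      obtain ⟨he, hP⟩ := ih h1 h1' (by simpa using hl)
      subst he
      subst hP
      obtain ⟨ha, hM⟩ := b1_pow_inj h4 h4' (h3.trans h3'.symm)
      exact ⟨by rw [ha], hM⟩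

/-- Induction on `e` generalizing `M`. `[]`: `M = N`. `a :: e`: the hypothesis is
`2^{a+|e|} M = 3^{n+1} N + d 2^{|e|} + 3 d cc e`, so `3 ∣ 2^{|e|}(2^a M - d)`, so `2^a M - d = 3 M'`, and
`2^{|e|} M' = 3^n N + d cc e`; `M'` is odd as `3M' = 2^a M - d` is odd (`a ≥ 1`). -/
theorem isPath_of_identity {d : ℤ} (hd : Odd d) {e : List ℕ} (he : ∀ a ∈ e, 1 ≤ a) {N M : ℤ}
    (hM : Odd M) (h : 2 ^ e.sum * M = 3 ^ e.length * N + d * (cc e : ℤ)) : isPath d e N M := by
  induction e generalizing M with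
  | nil =>
    simp only [List.sum_nil, pow_zero, one_mul, List.length_nil, cc, Nat.cast_zero, mul_zero,
      add_zero] at h
    subst h
    exact ⟨hM, rfl⟩
  | cons a e ih =>
    simp only [List.sum_cons, List.length_cons, cc] at h
    push_cast at h
    have ha : 1 ≤ a := he a (by simp)
    have hdvd : (3 : ℤ) ∣ 2 ^ e.sum * (2 ^ a * M - d) := by
      refine ⟨3 ^ e.length * N + d * (cc e : ℤ), ?_⟩
      have h1 : (2 : ℤ) ^ e.sum * (2 ^ a * M - d) = 2 ^ (a + e.sum) * M - d * 2 ^ e.sum := by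
        rw [pow_add]; ring
      rw [h1, h]
      ring
    have hcop : IsCoprime (3 : ℤ) (2 ^ e.sum) :=
      IsCoprime.pow_right (by norm_num : IsCoprime (3 : ℤ) 2)
    obtain ⟨M', hM'⟩ := hcop.dvd_of_dvd_mul_left hdvd
    have h3 : 2 ^ a * M = 3 * M' + d := by linarith
    have hodd : Odd M' := by
      obtain ⟨b, rfl⟩ : ∃ b, a = b + 1 := ⟨a - 1, by omega⟩
      have hev : Even ((2 : ℤ) ^ (b + 1) * M) := by
        rw [pow_succ, show (2 : ℤ) ^ b * 2 * M = 2 * (2 ^ b * M) by ring]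
        exact even_two_mul _
      rw [h3] at hev
      by_contra hne
      rw [Int.not_odd_iff_even] at hne
      have h5 : Even (3 * M') := hne.mul_left 3
      have h6 : Odd (3 * M' + d) := h5.add_odd hd
      exact (Int.not_even_iff_odd.mpr h6) hev
    refine ⟨M', ih (fun b hb => he b (by simp [hb])) hodd ?_, ha, h3, hM⟩
    have h7 : (3 : ℤ) * (2 ^ e.sum * M') = 3 * (3 ^ e.length * N + d * (cc e : ℤ)) := by
      have h8 : (2 : ℤ) ^ (a + e.sum) * M = 2 ^ e.sum * (3 * M' + d) := by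
        rw [← h3, pow_add]; ring
      rw [h8] at h
      have h9 : (2 : ℤ) ^ e.sum * (3 * M' + d) = 3 * (2 ^ e.sum * M') + d * 2 ^ e.sum := by ring
      rw [h9] at h
      have h10 : (3 : ℤ) ^ (e.length + 1) * N + d * (2 ^ e.sum + 3 * (cc e : ℤ))
          = 3 * (3 ^ e.length * N + d * (cc e : ℤ)) + d * 2 ^ e.sum := by ring
      rw [h10] at h
      linarith
    exact mul_left_cancel₀ three_ne_zero h7

end Pool.Agent.Lib.MP_d0d59f_nt.AA

end

section

/-! Row C2 (about 250 lines): `H_r(e)` in `ZMod (3^K)` and the weights `pz`. -/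

namespace Pool.Agent.Lib.MP_d0d59f_nt.AA

open Finset

/-- `2` is a unit modulo `3^K` (`ZMod.coe_mul_inv_eq_one`, `Nat.Coprime`). -/
theorem two_mul_i2 (K : ℕ) : (2 : ZMod (3 ^ K)) * i2 K = 1 := by
  have h : Nat.Coprime 2 (3 ^ K) := Nat.Coprime.pow_right K (by norm_num)
  have := ZMod.coe_mul_inv_eq_one 2 h
  simpa [i2] using this

theorem two_pow_mul_i2_pow (K n : ℕ) : (2 : ZMod (3 ^ K)) ^ n * i2 K ^ n = 1 := by
  rw [← mul_pow, two_mul_i2, one_pow]

theorem hz_nil (d r : ℤ) (K : ℕ) : hz d r K [] = (r : ZMod (3 ^ K)) := by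
  simp [hz, cc]

/-- `i2^{a+|e|}(3^{n+1} r + d(2^{|e|} + 3 cc e)) = i2^a (d + 3 i2^{|e|}(3^n r + d cc e))`. -/
theorem hz_cons (d r : ℤ) (K a : ℕ) (e : List ℕ) :
    hz d r K (a :: e) = i2 K ^ a * ((d : ZMod (3 ^ K)) + 3 * hz d r K e) := by
  have h := two_pow_mul_i2_pow K e.sum
  simp only [hz, cc, List.sum_cons, List.length_cons]
  push_cast
  have e1 : i2 K ^ (a + e.sum) * (3 ^ (e.length + 1) * (r : ZMod (3 ^ K)) +
      (d : ZMod (3 ^ K)) * (2 ^ e.sum + 3 * (cc e : ZMod (3 ^ K))))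
      = i2 K ^ a * ((d : ZMod (3 ^ K)) * (2 ^ e.sum * i2 K ^ e.sum) +
        3 * (i2 K ^ e.sum * (3 ^ e.length * (r : ZMod (3 ^ K)) + (d : ZMod (3 ^ K)) * (cc e : ZMod (3 ^ K))))) := by
    ring
  rw [e1, h, mul_one]

/-- Induction on `e1` from `hz_cons` (or `cc_append`, proved inline by induction). -/
theorem hz_append (d r : ℤ) (K : ℕ) (e1 e2 : List ℕ) :
    hz d r K (e1 ++ e2) =
      (d : ZMod (3 ^ K)) * (i2 K ^ e1.sum * (cc e1 : ZMod (3 ^ K)))
        + 3 ^ e1.length * i2 K ^ e1.sum * hz d r K e2 := by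
  induction e1 with
  | nil => simp [cc]
  | cons a e ih =>
    have h := two_pow_mul_i2_pow K e.sum
    rw [List.cons_append, hz_cons, ih]
    simp only [cc, List.sum_cons, List.length_cons]
    push_cast
    have e1 : (d : ZMod (3 ^ K)) * (i2 K ^ (a + e.sum) * (2 ^ e.sum + 3 * (cc e : ZMod (3 ^ K)))) +
        3 ^ (e.length + 1) * i2 K ^ (a + e.sum) * hz d r K e2
        = (d : ZMod (3 ^ K)) * (i2 K ^ a * ((2 ^ e.sum * i2 K ^ e.sum) + 3 * (i2 K ^ e.sum * (cc e : ZMod (3 ^ K))))) +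
        3 ^ (e.length + 1) * i2 K ^ (a + e.sum) * hz d r K e2 := by
      ring
    rw [e1, h]
    ring

/-- `(M : ZMod (3^K)) = hz d r K e` iff `2^{|e|} M ≡ 3^n r + d cc e` modulo `3^K`. -/
theorem hz_eq_iff (d r : ℤ) (K : ℕ) (e : List ℕ) (M : ℤ) :
    hz d r K e = (M : ZMod (3 ^ K)) ↔
      2 ^ e.sum * M ≡ 3 ^ e.length * r + d * (cc e : ℤ) [ZMOD 3 ^ K] := by
  have h := two_pow_mul_i2_pow K e.sum
  have key : (2 ^ e.sum * M ≡ 3 ^ e.length * r + d * (cc e : ℤ) [ZMOD 3 ^ K]) ↔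
      ((2 : ZMod (3 ^ K)) ^ e.sum * (M : ZMod (3 ^ K)) =
        3 ^ e.length * (r : ZMod (3 ^ K)) + (d : ZMod (3 ^ K)) * (cc e : ZMod (3 ^ K))) := by
    have := ZMod.intCast_eq_intCast_iff (2 ^ e.sum * M) (3 ^ e.length * r + d * (cc e : ℤ)) (3 ^ K)
    push_cast at this
    rw [this]
  rw [key]
  simp only [hz]
  constructor
  · intro h1
    rw [← h1, ← mul_assoc, h, one_mul]
  · intro h1
    rw [← h1]
    rw [← mul_assoc, mul_comm (i2 K ^ e.sum), h, one_mul]

/-- Compatibility: for `m ≤ K`, `hz d r m e` is the reduction of `hz d r K e`. Use `hz_eq_iff`: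
for an integer `M`, `hz d r K e = M → hz d r m e = M`. -/
theorem hz_cast {d r : ℤ} {K m : ℕ} (h : m ≤ K) (e : List ℕ) (M : ℤ)
    (hM : hz d r K e = (M : ZMod (3 ^ K))) : hz d r m e = (M : ZMod (3 ^ m)) := by
  rw [hz_eq_iff] at hM ⊢
  exact hM.of_dvd (pow_dvd_pow 3 h)

end Pool.Agent.Lib.MP_d0d59f_nt.AA

end

section

/-! Row pw-Q24a: orbits between odd elements are words. -/

namespace Pool.Agent.Lib.MP_d0d59f_nt.PW

open Finset

/-- If `w` is odd, `T^t w = y` odd, there is a word `α` with `isPath d α w y` and sum `t`: induction on `t`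
(strong): for `t > 0` the first step from `w` is `3 w + d = 2^a w'` with `w'` odd, `a ≤ t` (`AA.b1_step`,
`AA.b1_oddpart`, `AA.exists_path`), `T^a w = w'`; `isPath d (a' :: e)` peels off the LAST step in time, so use
`AA.exists_path` for the number of steps needed, or an append lemma. Note `3 w + d ≠ 0` (`3` does not divide `d`). -/
theorem exists_word {d : ℤ} (hd : Odd d) (h3 : ¬ (3 : ℤ) ∣ d) {w y : ℤ} {t : ℕ} (hw : Odd w) (hy : Odd y)
    (h : (T d)^[t] w = y) : ∃ α : List ℕ, AA.isPath d α w y ∧ α.sum = t := by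
  classical
  induction t using Nat.strong_induction_on generalizing y with
  | _ t ih =>
    rcases Nat.eq_zero_or_pos t with h0 | hpos
    · subst h0
      exact ⟨[], ⟨hw, by simpa using h.symm⟩, rfl⟩
    · have hne : ((Finset.range t).filter (fun s => Odd ((T d)^[s] w))).Nonempty :=
        ⟨0, by simp [hpos, hw]⟩
      obtain ⟨s, hs, hmax⟩ := Finset.exists_max_image _ id hne
      rw [Finset.mem_filter, Finset.mem_range] at hs
      obtain ⟨hst, hodd⟩ := hs
      have hmax' : ∀ j, s < j → j < t → ¬ Odd ((T d)^[j] w) := by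
        intro j hj hjt ho
        have := hmax j (by rw [Finset.mem_filter, Finset.mem_range]; exact ⟨hjt, ho⟩)
        simp only [id] at this
        omega
      obtain ⟨e, hpe, hse⟩ := ih s hst hodd rfl
      set M' := (T d)^[s] w with hM'
      have hne0 : 3 * M' + d ≠ 0 := by
        intro h0
        exact h3 ⟨-M', by linarith⟩
      have hev : Even (3 * M' + d) := by
        have h31 : Odd (3 * M') := Odd.mul (by decide) hodd
        exact h31.add_odd hd
      obtain ⟨a, M, ha, haM, hMo⟩ := AA.b1_oddpart hne0 hev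
      have hit : ∀ j, 1 ≤ j → j ≤ a → (T d)^[s + j] w = 2 ^ (a - j) * M := by
        intro j hj1 hja
        rw [add_comm, Function.iterate_add_apply, ← hM']
        apply AA.b1_step hd hj1 hodd
        rw [← mul_assoc, ← pow_add, Nat.add_sub_cancel' hja]
        exact haM
      have hta : s + a = t := by
        rcases lt_trichotomy (s + a) t with hlt | heq | hgt
        · exfalso
          have h1 := hit a ha le_rfl
          rw [Nat.sub_self, pow_zero, one_mul] at h1
          apply hmax' (s + a) (by omega) hlt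
          rw [h1]
          exact hMo
        · exact heq
        · exfalso
          have h1 := hit (t - s) (by omega) (by omega)
          rw [Nat.add_sub_cancel' hst.le, h] at h1
          have h2 : Even y := by
            rw [h1]
            apply Even.mul_right
            exact (even_two).pow_of_ne_zero (by omega)
          exact (Int.not_even_iff_odd.mpr hy) h2
      have hMy : M = y := by
        have h1 := hit a ha le_rfl
        rw [Nat.sub_self, pow_zero, one_mul, hta, h] at h1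
        exact h1.symm
      refine ⟨a :: e, ⟨M', hpe, ha, ?_, hy⟩, ?_⟩
      · rw [← hMy]
        exact haM
      · rw [List.sum_cons, hse]
        omega

/-- Prefixes of a word are paths to the same end `y`, from an element of the orbit of `w`:
`isPath d (α.take i) z y` with `T^(s) w = z`, `s = (α.drop i).sum`. Induction on `i`/`α`; `AA.isPath_iterate`. -/
theorem path_take {d : ℤ} (hd : Odd d) {α : List ℕ} {w y : ℤ} (h : AA.isPath d α w y) (i : ℕ)
    (hi : i ≤ α.length) : ∃ z : ℤ, AA.isPath d (α.take i) z y ∧ (T d)^[(α.drop i).sum] w = z := by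
  induction α generalizing y i with
  | nil =>
    have hi0 : i = 0 := by simpa using hi
    subst hi0
    exact ⟨y, ⟨AA.isPath_odd_right h, rfl⟩, by simpa using h.2.symm⟩
  | cons a e ih =>
    rcases i with _ | i
    · exact ⟨y, ⟨AA.isPath_odd_right h, rfl⟩, by simpa using AA.isPath_iterate hd h⟩
    · obtain ⟨M', h1, h2, h3, h4⟩ := h
      obtain ⟨z, hz1, hz2⟩ := ih h1 i (by simpa using hi)
      exact ⟨z, ⟨M', hz1, h2, h3, h4⟩, by simpa using hz2⟩

end Pool.Agent.Lib.MP_d0d59f_nt.PW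

end

section

/-! Row D1 (about 250 lines): least residues, the factor `ff`, first properties of `qq`. -/

namespace Pool.Agent.Lib.MP_d0d59f_nt.AA

open Finset

theorem kap_pos : 0 < kap := by
  unfold kap
  have h : Real.cos (Real.pi / 2048) < Real.cos 0 := by
    apply Real.cos_lt_cos_of_nonneg_of_le_pi le_rfl
    · linarith [Real.pi_pos]
    · linarith [Real.pi_pos]
  rw [Real.cos_zero] at h
  linarith

theorem kap_le_one : kap ≤ 1 := by
  unfold kap
  have h : 0 ≤ Real.cos (Real.pi / 2048) := by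
    apply Real.cos_nonneg_of_neg_pi_div_two_le_of_le
    · linarith [Real.pi_pos]
    · linarith [Real.pi_pos]
  linarith

theorem aa_nonneg (K : ℕ) (y : ZMod (3 ^ K)) : 0 ≤ aa K y := by
  unfold aa
  positivity

theorem aa_le_half (K : ℕ) (y : ZMod (3 ^ K)) : aa K y ≤ 1 / 2 := by
  unfold aa
  rw [div_le_iff₀ (by positivity)]
  have h := ZMod.natAbs_valMinAbs_le y
  have h2 : (y.valMinAbs.natAbs : ℝ) ≤ ((3 ^ K / 2 : ℕ) : ℝ) := by exact_mod_cast h
  have h3 : ((3 ^ K / 2 : ℕ) : ℝ) ≤ ((3 ^ K : ℕ) : ℝ) / 2 := by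
    exact_mod_cast Nat.cast_div_le
  have h4 : |(y.valMinAbs : ℝ)| = (y.valMinAbs.natAbs : ℝ) := by
    rw [Nat.cast_natAbs]
    push_cast
    rfl
  rw [h4]
  push_cast at h3
  linarith

/-- `cos` is decreasing on `[0, π/2]`. -/
theorem ff_three_le {K : ℕ} {w : ZMod (3 ^ K)} (h : 1 / 2048 ≤ aa K w) : ff K 3 w ≤ 1 - kap := by
  unfold ff kap
  rw [if_pos rfl]
  have h1 := aa_le_half K w
  have h0 := aa_nonneg K w
  have hp := Real.pi_pos
  rw [abs_of_nonneg]
  · have : Real.cos (Real.pi * aa K w) ≤ Real.cos (Real.pi / 2048) := by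
      apply Real.cos_le_cos_of_nonneg_of_le_pi (by positivity)
      · nlinarith
      · nlinarith
    linarith
  · apply Real.cos_nonneg_of_neg_pi_div_two_le_of_le
    · nlinarith
    · nlinarith

theorem ff_nonneg (K b : ℕ) (w : ZMod (3 ^ K)) : 0 ≤ ff K b w := by
  unfold ff
  split_ifs
  · exact abs_nonneg _
  · norm_num

theorem ff_le_one (K b : ℕ) (w : ZMod (3 ^ K)) : ff K b w ≤ 1 := by
  unfold ff
  split_ifs
  · exact Real.abs_cos_le_one _
  · exact le_rfl

/-- Exact halving: if `2^b ∣ c(y)`, then `c(i2^b y) = c(y)/2^b` (`ZMod.valMinAbs_spec`). -/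
theorem valMinAbs_half {K : ℕ} (y : ZMod (3 ^ K)) (b : ℕ) (c : ℤ) (hc : y.valMinAbs = 2 ^ b * c) :
    (i2 K ^ b * y).valMinAbs = c := by
  rw [ZMod.valMinAbs_spec]
  constructor
  · have h1 : y = (2 : ZMod (3 ^ K)) ^ b * (c : ZMod (3 ^ K)) := by
      conv_lhs => rw [← ZMod.coe_valMinAbs y, hc]
      push_cast
      rfl
    rw [h1]
    have := two_pow_mul_i2_pow K b
    linear_combination (c : ZMod (3 ^ K)) * this
  · have h2 := ZMod.valMinAbs_mem_Ioc y
    rw [hc] at h2
    rw [Set.mem_Ioc] at *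
    obtain ⟨h3, h4⟩ := h2
    have hb : (1 : ℤ) ≤ 2 ^ b := one_le_pow₀ (by norm_num)
    have hn : (0 : ℤ) < ((3 ^ K : ℕ) : ℤ) := by positivity
    constructor
    · rcases le_or_gt 0 c with h | h
      · nlinarith
      · nlinarith
    · rcases le_or_gt 0 c with h | h
      · nlinarith
      · nlinarith

/-- No wrap-around: if `18 |c(y)| < 3^K` then `c(9y) = 9 c(y)`. -/
theorem valMinAbs_nine {K : ℕ} (y : ZMod (3 ^ K)) (h : 18 * |y.valMinAbs| < 3 ^ K) :
    (9 * y).valMinAbs = 9 * y.valMinAbs := by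
  rw [ZMod.valMinAbs_spec]
  constructor
  · push_cast
    rfl
  · rw [Set.mem_Ioc]
    push_cast
    have h1 := le_abs_self y.valMinAbs
    have h2 := neg_abs_le y.valMinAbs
    constructor <;> linarith

/-- Parity argument. If `2^h w = G` in `ZMod (3^K)` and `2^h ∤ G`, then `2^h c(w) = G + m 3^K` with `m ≠ 0`, so
`2^h |c(w)| ≥ 3^K - |G|`. -/
theorem aa_ge {K : ℕ} (h : ℕ) (w : ZMod (3 ^ K)) (G : ℤ)
    (hw : (2 : ZMod (3 ^ K)) ^ h * w = (G : ZMod (3 ^ K))) (hG : ¬ (2 : ℤ) ^ h ∣ G) :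
    (1 - |(G : ℝ)| / 3 ^ K) / 2 ^ h ≤ aa K w := by
  have h1 : (((2 : ℤ) ^ h * w.valMinAbs - G : ℤ) : ZMod (3 ^ K)) = 0 := by
    push_cast
    rw [hw]
    ring
  rw [ZMod.intCast_zmod_eq_zero_iff_dvd] at h1
  obtain ⟨m, hm⟩ := h1
  push_cast at hm
  have hm0 : m ≠ 0 := by
    rintro rfl
    apply hG
    exact ⟨w.valMinAbs, by linarith⟩
  have h2 : (3 : ℝ) ^ K - |(G : ℝ)| ≤ 2 ^ h * |(w.valMinAbs : ℝ)| := by
    have h3 : (3 : ℝ) ^ K * |(m : ℝ)| = |(2 : ℝ) ^ h * (w.valMinAbs : ℝ) - G| := by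
      have : ((2 : ℝ) ^ h * (w.valMinAbs : ℝ) - G) = 3 ^ K * m := by exact_mod_cast hm
      rw [this, abs_mul, abs_of_pos (by positivity : (0 : ℝ) < 3 ^ K)]
    have h4 : (1 : ℝ) ≤ |(m : ℝ)| := by
      have := Int.one_le_abs hm0
      exact_mod_cast this
    have h5 : |(2 : ℝ) ^ h * (w.valMinAbs : ℝ) - G| ≤ 2 ^ h * |(w.valMinAbs : ℝ)| + |(G : ℝ)| := by
      refine (abs_sub _ _).trans ?_
      rw [abs_mul, abs_of_pos (by positivity : (0 : ℝ) < 2 ^ h)]
    have h6 : (3 : ℝ) ^ K ≤ 3 ^ K * |(m : ℝ)| := by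
      have : (0 : ℝ) < 3 ^ K := by positivity
      nlinarith
    linarith
  unfold aa
  rw [div_le_div_iff₀ (by positivity) (by positivity)]
  have h7 : (1 - |(G : ℝ)| / 3 ^ K) * 3 ^ K = 3 ^ K - |(G : ℝ)| := by
    field_simp
  rw [h7]
  linarith

end Pool.Agent.Lib.MP_d0d59f_nt.AA

end
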