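import Mathlib
import Pool.Agent.Lib.MP_d0d59f_nt.NK.K002
import Pool.Agent.Lib.MP_d0d59f_nt.NK.K003
import Pool.Agent.Lib.MP_d0d59f_nt.NK.K004

section

/-! Row A6 (about 150 lines): the offsets `C(e)`. -/

namespace Pool.Agent.Lib.MP_d0d59f_nt.AA

open Finset

/-- Induction on `e1`. -/
theorem cc_append (e1 e2 : List ℕ) :
    cc (e1 ++ e2) = 2 ^ e2.sum * cc e1 + 3 ^ e1.length * cc e2 := by
  induction e1 with
  | nil => simp [cc]
  | cons a e ih =>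
    rw [List.cons_append, cc, cc, ih, List.sum_append, List.length_cons, pow_add, pow_succ]
    ring

/-- Induction on `e`: `cc [a] = 1`; `cc (a :: e) = 2^{|e|} + 3 cc e` with `|e| ≥ 1` for `e ≠ []`. -/
theorem cc_odd {e : List ℕ} (hne : e ≠ []) (he : ∀ a ∈ e, 1 ≤ a) : Odd (cc e) := by
  induction e with
  | nil => exact absurd rfl hne
  | cons a e ih =>
    rw [cc]
    rcases e with _ | ⟨b, e⟩
    · simp [cc]
    · have h1 : Odd (cc (b :: e)) := ih (List.cons_ne_nil _ _) fun x hx =>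
        he x (List.mem_cons_of_mem _ hx)
      have h2 : 1 ≤ (b :: e).sum := by
        rw [List.sum_cons]
        have := he b (by simp)
        omega
      have h3 : Even (2 ^ (b :: e).sum) := by
        refine Nat.even_pow.2 ⟨even_two, by omega⟩
      exact h3.add_odd ((by decide : Odd 3).mul h1)

theorem a6_two {a b m n : ℕ} (hm : Odd m) (hn : Odd n) (h : 2 ^ a * m = 2 ^ b * n) : a = b := by
  have key : ∀ {a b m n : ℕ}, Odd m → Odd n → 2 ^ a * m = 2 ^ b * n → ¬ a < b := by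
    intro a b m n hm _ h hab
    obtain ⟨c, rfl⟩ : ∃ c, b = a + (c + 1) := ⟨b - a - 1, by omega⟩
    rw [pow_add, mul_assoc] at h
    have h1 := Nat.eq_of_mul_eq_mul_left (pow_pos two_pos a) h
    rw [h1, pow_succ] at hm
    have h2 : Even (2 ^ c * 2 * n) := by
      rw [mul_assoc, mul_left_comm]
      exact even_two_mul _
    exact (Nat.not_even_iff_odd.2 hm) h2
  rcases lt_trichotomy a b with h1 | h1 | h1
  · exact absurd h1 (key hm hn h)
  · exact h1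
  · exact absurd h1 (key hn hm h.symm)

/-- Induction on `t` (generalizing `s e e'`), splitting off the LAST entry: `e = e1 ++ [a]`,
`cc e = 2^a cc e1 + 3^t` with `t = e1.length`. If `t = 0` then `e = [s] = e'`. If `t ≥ 1`, from
`cc e = cc e'` we get `2^a cc e1 = 2^{a'} cc e1'` with both `cc` odd, so `a = a'` and `cc e1 = cc e1'`; the sums
of `e1, e1'` agree, so `e1 = e1'` by induction. (`List.eq_append_of_length...`, or use `e.reverse`,
`List.dropLast_append_getLast`.) -/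
theorem cc_inj {t s : ℕ} {e e' : List ℕ} (he : e ∈ comps t s) (he' : e' ∈ comps t s)
    (h : cc e = cc e') : e = e' := by
  induction t generalizing s e e' with
  | zero =>
    have h1 := (mem_comps.1 he).1
    have h2 := (mem_comps.1 he').1
    rw [List.length_eq_zero_iff] at h1 h2
    rw [h1, h2]
  | succ t ih =>
    obtain ⟨hl, hs, hp⟩ := mem_comps.1 he
    obtain ⟨hl', hs', hp'⟩ := mem_comps.1 he'
    have split : ∀ f : List ℕ, f.length = t + 1 → ∃ g : List ℕ, ∃ a, f = g ++ [a] ∧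
        g.length = t := by
      intro f hf
      have hne : f ≠ [] := by
        intro h0
        rw [h0] at hf
        simp at hf
      refine ⟨f.dropLast, f.getLast hne, (List.dropLast_append_getLast hne).symm, ?_⟩
      rw [List.length_dropLast, hf]
      rfl
    obtain ⟨g, a, rfl, hg⟩ := split e hl
    obtain ⟨g', a', rfl, hg'⟩ := split e' hl'
    rw [List.sum_append, List.sum_singleton] at hs hs'
    have hcc : ∀ (f : List ℕ) (b : ℕ), cc (f ++ [b]) = 2 ^ b * cc f + 3 ^ f.length := by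
      intro f b
      rw [cc_append]
      simp [cc]
    rw [hcc, hcc, hg, hg'] at h
    have h1 : 2 ^ a * cc g = 2 ^ a' * cc g' := Nat.add_right_cancel h
    rcases Nat.eq_zero_or_pos t with h0 | h0
    · rw [h0, List.length_eq_zero_iff] at hg hg'
      subst hg hg'
      simp only [List.sum_nil, zero_add] at hs hs'
      rw [hs, hs']
    · have hgne : g ≠ [] := by
        intro h2
        rw [h2] at hg
        simp at hg
        omega
      have hgne' : g' ≠ [] := by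
        intro h2
        rw [h2] at hg'
        simp at hg'
        omega
      have hgp : ∀ x ∈ g, 1 ≤ x := fun x hx => hp x (List.mem_append_left _ hx)
      have hgp' : ∀ x ∈ g', 1 ≤ x := fun x hx => hp' x (List.mem_append_left _ hx)
      have h2 : a = a' := a6_two (cc_odd hgne hgp) (cc_odd hgne' hgp') h1
      subst h2
      have h3 : cc g = cc g' := Nat.eq_of_mul_eq_mul_left (pow_pos two_pos a) h1
      have h4 : g.sum = g'.sum := by omega
      have h5 := ih (s := g.sum) (mem_comps.2 ⟨hg, rfl, hgp⟩)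
        (mem_comps.2 ⟨hg', h4.symm, hgp'⟩) h3
      rw [h5]

/-- Induction on `e`: `cc (a :: e) = 2^{|e|} + 3 cc e ≤ 2^{|e|}(1 + 3(3/2)^n - 3) = 2^{|e|+1}((3/2)^{n+1} - 1)
≤ 2^{|e|+a}((3/2)^{n+1} - 1)`. -/
theorem cc_le {e : List ℕ} (he : ∀ a ∈ e, 1 ≤ a) :
    (cc e : ℝ) ≤ 2 ^ e.sum * ((3 / 2 : ℝ) ^ e.length - 1) := by
  induction e with
  | nil => simp [cc]
  | cons a e ih =>
    have h1 := ih fun x hx => he x (List.mem_cons_of_mem _ hx)
    have ha : 1 ≤ a := he a (by simp)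
    rw [cc, List.sum_cons, List.length_cons]
    push_cast
    have h2 : (1 : ℝ) ≤ (3 / 2 : ℝ) ^ (e.length + 1) := one_le_pow₀ (by norm_num)
    have h3 : (2 : ℝ) ^ (1 : ℕ) ≤ 2 ^ a := pow_le_pow_right₀ (by norm_num) ha
    have h4 : (0 : ℝ) < 2 ^ e.sum := by positivity
    calc (2 : ℝ) ^ e.sum + 3 * (cc e : ℝ)
        ≤ 2 ^ e.sum + 3 * (2 ^ e.sum * ((3 / 2 : ℝ) ^ e.length - 1)) := by linarith
      _ = 2 ^ (1 : ℕ) * 2 ^ e.sum * ((3 / 2 : ℝ) ^ (e.length + 1) - 1) := by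
          rw [pow_succ (3 / 2 : ℝ) e.length]; ring
      _ ≤ 2 ^ a * 2 ^ e.sum * ((3 / 2 : ℝ) ^ (e.length + 1) - 1) := by
          refine mul_le_mul_of_nonneg_right ?_ (by linarith)
          exact mul_le_mul_of_nonneg_right h3 h4.le
      _ = _ := by rw [pow_add (2 : ℝ) a e.sum]

theorem a6_exch (L : ℕ) (F : ℕ → ℕ → ℝ) :
    ∑ l ∈ range (L + 1), ∑ a ∈ Icc 1 l, F a (l - a) =
      ∑ a ∈ Icc 1 L, ∑ m ∈ range (L - a + 1), F a m := by
  rw [Finset.sum_sigma', Finset.sum_sigma']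
  refine Finset.sum_bij' (fun p _ => ⟨p.2, p.1 - p.2⟩) (fun p _ => ⟨p.1 + p.2, p.1⟩) ?_ ?_ ?_ ?_ ?_
  · rintro ⟨l, a⟩ h
    simp only [mem_sigma, mem_range, mem_Icc] at h ⊢
    omega
  · rintro ⟨a, m⟩ h
    simp only [mem_sigma, mem_range, mem_Icc] at h ⊢
    omega
  · rintro ⟨l, a⟩ h
    simp only [mem_sigma, mem_range, mem_Icc] at h
    have : a + (l - a) = l := by omega
    simp only [this]
  · rintro ⟨a, m⟩ h
    have : a + m - a = m := by omega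
    simp only [this]
  · rintro ⟨l, a⟩ h
    rfl

theorem a6_geom (L : ℕ) : ∑ a ∈ Icc 1 L, (1 / 4 : ℝ) ^ a = (1 - (1 / 4) ^ L) / 3 := by
  induction L with
  | zero => simp
  | succ L ih =>
    rw [Finset.sum_Icc_succ_top (by omega), ih, pow_succ]
    ring

/-- First moment. Induction on `t` (generalizing `L`): by `sum_comps_succ` the left side for `t+1` is
`∑_{a=1}^L 4^{-a} ∑_{l' ≤ L-a} ∑_{e ∈ comps t l'} [2^{-l'} + 3 · 2^{-l'}·(cc e · 2^{-l'})]`
(`cc (a::e)·2^{-a-l'} = 2^{-a}(1 + 3 cc e 2^{-l'})` and `2^{-(a+l')} = 2^{-a} 2^{-l'}`), at most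
`∑_{a≥1} 4^{-a} (1 + 3·t/3) ≤ (1/3)(1+t)`. Use `sum_nb_le_one`. -/
theorem cc_moment (t L : ℕ) :
    ∑ l ∈ range (L + 1), ∑ e ∈ comps t l, (1 / 2 : ℝ) ^ l * ((cc e : ℝ) * (1 / 2) ^ l) ≤
      (t : ℝ) / 3 := by
  induction t generalizing L with
  | zero =>
    refine le_of_eq ?_
    rw [Nat.cast_zero, zero_div]
    refine Finset.sum_eq_zero fun l _ => ?_
    rw [sum_comps_zero]
    simp [cc]
  | succ t ih =>
    have h1 : ∀ l, ∑ e ∈ comps (t + 1) l, (1 / 2 : ℝ) ^ l * ((cc e : ℝ) * (1 / 2) ^ l) =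
        ∑ a ∈ Icc 1 l, (fun a m => (1 / 4 : ℝ) ^ a * (nb t m + 3 * ∑ e ∈ comps t m,
          (1 / 2 : ℝ) ^ m * ((cc e : ℝ) * (1 / 2) ^ m))) a (l - a) := by
      intro l
      rw [sum_comps_succ]
      refine Finset.sum_congr rfl fun a ha => ?_
      rw [mem_Icc] at ha
      obtain ⟨m, rfl⟩ : ∃ m, l = a + m := ⟨l - a, by omega⟩
      rw [Nat.add_sub_cancel_left]
      have h2 : nb t m = ∑ e ∈ comps t m, (1 / 2 : ℝ) ^ m := by
        rw [nb, Finset.sum_const, nsmul_eq_mul, mul_comm]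
      dsimp only
      rw [h2, Finset.mul_sum, ← Finset.sum_add_distrib, Finset.mul_sum]
      refine Finset.sum_congr rfl fun e he => ?_
      rw [cc, (mem_comps.1 he).2.1]
      push_cast
      have h3 : (1 / 4 : ℝ) ^ a = (1 / 2) ^ a * (1 / 2) ^ a := by rw [← mul_pow]; norm_num
      have h4 : (2 : ℝ) ^ m * (1 / 2) ^ m = 1 := by rw [← mul_pow]; norm_num
      rw [h3, pow_add]
      calc (1 / 2 : ℝ) ^ a * (1 / 2) ^ m * ((2 ^ m + 3 * (cc e : ℝ)) * ((1 / 2) ^ a * (1 / 2) ^ m))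
          = (1 / 2) ^ a * (1 / 2) ^ a * ((1 / 2) ^ m * (2 ^ m * (1 / 2) ^ m) +
            3 * ((1 / 2) ^ m * ((cc e : ℝ) * (1 / 2) ^ m))) := by ring
        _ = _ := by rw [h4, mul_one]
    rw [Finset.sum_congr rfl fun l _ => h1 l, a6_exch L (fun a m => (1 / 4 : ℝ) ^ a *
      (nb t m + 3 * ∑ e ∈ comps t m, (1 / 2 : ℝ) ^ m * ((cc e : ℝ) * (1 / 2) ^ m)))]
    calc _ ≤ ∑ a ∈ Icc 1 L, (1 / 4 : ℝ) ^ a * (1 + 3 * ((t : ℝ) / 3)) := by
          refine Finset.sum_le_sum fun a _ => ?_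
          rw [← Finset.mul_sum]
          refine mul_le_mul_of_nonneg_left ?_ (by positivity)
          rw [Finset.sum_add_distrib, ← Finset.mul_sum]
          have h5 := sum_nb_le_one t (L - a)
          have h6 := ih (L - a)
          linarith
      _ = (1 - (1 / 4) ^ L) / 3 * (1 + 3 * ((t : ℝ) / 3)) := by rw [← Finset.sum_mul, a6_geom]
      _ ≤ 1 / 3 * (1 + 3 * ((t : ℝ) / 3)) := by
          refine mul_le_mul_of_nonneg_right ?_ (by positivity)
          have : (0 : ℝ) ≤ (1 / 4) ^ L := by positivity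
          linarith
      _ = _ := by push_cast; ring

end Pool.Agent.Lib.MP_d0d59f_nt.AA

end

section

/-! Row C4 (about 200 lines): `L¹` bound for the words with a front in a set `Φ`. -/

namespace Pool.Agent.Lib.MP_d0d59f_nt.AA

open Finset

/-- transform of a push-forward -/
theorem c4_transform {ι : Type*} (K : ℕ) (S : Finset ι) (g : ι → ZMod (3 ^ K)) (c : ℝ)
    (ξ : ZMod (3 ^ K)) :
    ∑ Y : ZMod (3 ^ K), ((c * ((S.filter fun p => g p = Y).card : ℝ) : ℝ) : ℂ) * ps K (ξ * Y) =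
      (c : ℂ) * ∑ p ∈ S, ps K (ξ * g p) := by
  rw [← Finset.sum_fiberwise S g (fun p => ps K (ξ * g p)), Finset.mul_sum]
  apply Finset.sum_congr rfl
  intro Y _
  have h : ∑ p ∈ S with g p = Y, ps K (ξ * g p) = ∑ p ∈ S with g p = Y, ps K (ξ * Y) := by
    apply Finset.sum_congr rfl
    intro p hp
    rw [(Finset.mem_filter.1 hp).2]
  rw [h, Finset.sum_const, nsmul_eq_mul]
  push_cast
  ring

/-- the offsets of the fronts are distinct -/
theorem c4_distinct {d : ℤ} (h3 : ¬ (3 : ℤ) ∣ d) (K t s : ℕ)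
    (Φ : Finset (List ℕ)) (hΦ : ∀ e ∈ Φ, e ∈ comps t s ∧ cc e < 3 ^ (K + 1))
    (Y : ZMod (3 ^ (K + 1))) :
    (Φ.filter fun e => (d : ZMod (3 ^ (K + 1))) *
      (i2 (K + 1) ^ s * (cc e : ZMod (3 ^ (K + 1)))) = Y).card ≤ 1 := by
  rw [Finset.card_le_one]
  intro a ha b hb
  rw [Finset.mem_filter] at ha hb
  have h1 : (d : ZMod (3 ^ (K + 1))) * (i2 (K + 1) ^ s * (cc a : ZMod (3 ^ (K + 1)))) =
    (d : ZMod (3 ^ (K + 1))) * (i2 (K + 1) ^ s * (cc b : ZMod (3 ^ (K + 1)))) := ha.2.trans hb.2.symm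
  have hdu : IsUnit (d : ZMod (3 ^ (K + 1))) := by
    have h2 : IsCoprime d (3 : ℤ) := by
      have h4 : IsCoprime (3 : ℤ) d := (Int.prime_three.coprime_iff_not_dvd).2 h3
      exact h4.symm
    have h5 : IsCoprime d ((3 : ℤ) ^ (K + 1)) := h2.pow_right
    obtain ⟨u, v, huv⟩ := h5
    refine IsUnit.of_mul_eq_one (u : ZMod (3 ^ (K + 1))) ?_
    have h6 := congrArg (fun z : ℤ => (z : ZMod (3 ^ (K + 1)))) huv
    push_cast at h6
    have h7 : (3 : ZMod (3 ^ (K + 1))) ^ (K + 1) = 0 := by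
      have := ZMod.natCast_self (3 ^ (K + 1))
      push_cast at this
      exact this
    rw [h7, mul_zero, add_zero] at h6
    rw [mul_comm]
    exact h6
  have hiu : IsUnit (i2 (K + 1) ^ s) :=
    IsUnit.of_mul_eq_one _ ((mul_comm _ _).trans (two_pow_mul_i2_pow (K + 1) s))
  have h2 := hiu.mul_left_cancel (hdu.mul_left_cancel h1)
  have h3' : cc a = cc b := by
    have h4 := (ZMod.natCast_eq_natCast_iff' (cc a) (cc b) (3 ^ (K + 1))).1 h2
    rwa [Nat.mod_eq_of_lt (hΦ a ha.1).2, Nat.mod_eq_of_lt (hΦ b hb.1).2] at h4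
  exact cc_inj (hΦ a ha.1).1 (hΦ b hb.1).1 h3'

/-- Fourier transform of `F Y = 2^{-l} #{(e1,e2) ∈ Φ × comps (n-t) (l-s) : hz (e1 ++ e2) = Y}`:
by `hz_append` it is `A(ξ) · bh d r (K+1) (n-t) (l-s) (3^t i2^s ξ)`,
`A(ξ) = 2^{-s} ∑_{e1 ∈ Φ} ps(ξ d i2^s cc e1)`; so on the frequencies with `3^K ξ ≠ 0` it is at most `b |A(ξ)|`.
By `l1_pr_le` and `plancherel` (for `a Y = 2^{-s} #{e1 ∈ Φ : d i2^s cc e1 = Y}`, whose transform is `A`),
the left side is `≤ b sqrt(∑_ξ |A ξ|²) = b sqrt(3^(K+1) ∑ a²)`. Finally `a ≤ 2^{-s}` pointwise: if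
`d i2^s cc e1 = d i2^s cc e1'` then `cc e1 ≡ cc e1' mod 3^(K+1)` (`3 ∤ d`), both are `< 3^(K+1)`, so they are equal and
`e1 = e1'` (`cc_inj`); and `∑ a = 2^{-s} card Φ ≤ 2^{-s} card (comps t s) ≤ 1`. So `∑ a² ≤ 2^{-s}`. -/
theorem front_l1 {d : ℤ} (h3 : ¬ (3 : ℤ) ∣ d) (r : ℤ) (K n l t s : ℕ) (ht : t ≤ n) (hs : s ≤ l)
    (Φ : Finset (List ℕ)) (hΦ : ∀ e ∈ Φ, e ∈ comps t s ∧ cc e < 3 ^ (K + 1)) (b : ℝ)
    (hb0 : 0 ≤ b)
    (hb : ∀ ξ : ZMod (3 ^ (K + 1)), (3 : ZMod (3 ^ (K + 1))) ^ K * ξ ≠ 0 →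
      ‖bh d r (K + 1) (n - t) (l - s) (3 ^ t * i2 (K + 1) ^ s * ξ)‖ ≤ b)
    (F : ZMod (3 ^ (K + 1)) → ℝ)
    (hF : ∀ Y, F Y = (1 / 2 : ℝ) ^ l *
      (((Φ ×ˢ comps (n - t) (l - s)).filter fun p => hz d r (K + 1) (p.1 ++ p.2) = Y).card : ℝ)) :
    ∑ Y : ZMod (3 ^ (K + 1)), |F Y - pr K F Y| ≤ b * Real.sqrt (3 ^ (K + 1) / 2 ^ s) := by
  classical
  set a : ZMod (3 ^ (K + 1)) → ℝ := fun Y => (1 / 2 : ℝ) ^ s * ((Φ.filter fun e =>
    (d : ZMod (3 ^ (K + 1))) * (i2 (K + 1) ^ s * (cc e : ZMod (3 ^ (K + 1)))) = Y).card : ℝ)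
    with ha
  set A : ZMod (3 ^ (K + 1)) → ℂ := fun ξ => ∑ Y : ZMod (3 ^ (K + 1)),
    (a Y : ℂ) * ps (K + 1) (ξ * Y) with hA
  have hA' : ∀ ξ, A ξ = ((1 / 2 : ℝ) ^ s : ℝ) * ∑ e ∈ Φ, ps (K + 1) (ξ *
      ((d : ZMod (3 ^ (K + 1))) * (i2 (K + 1) ^ s * (cc e : ZMod (3 ^ (K + 1)))))) := by
    intro ξ
    exact c4_transform (K + 1) Φ (fun e =>
      (d : ZMod (3 ^ (K + 1))) * (i2 (K + 1) ^ s * (cc e : ZMod (3 ^ (K + 1))))) ((1 / 2 : ℝ) ^ s) ξ
  have hFt : ∀ ξ, ∑ Y : ZMod (3 ^ (K + 1)), (F Y : ℂ) * ps (K + 1) (ξ * Y) =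
      A ξ * bh d r (K + 1) (n - t) (l - s) (3 ^ t * i2 (K + 1) ^ s * ξ) := by
    intro ξ
    have h1 : ∑ Y : ZMod (3 ^ (K + 1)), (F Y : ℂ) * ps (K + 1) (ξ * Y) =
        (((1 / 2 : ℝ) ^ l : ℝ) : ℂ) * ∑ p ∈ Φ ×ˢ comps (n - t) (l - s),
          ps (K + 1) (ξ * hz d r (K + 1) (p.1 ++ p.2)) := by
      rw [← c4_transform (K + 1) (Φ ×ˢ comps (n - t) (l - s))
        (fun p => hz d r (K + 1) (p.1 ++ p.2)) ((1 / 2 : ℝ) ^ l) ξ]
      apply Finset.sum_congr rfl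
      intro Y _
      rw [hF Y]
    rw [h1, Finset.sum_product, hA' ξ]
    unfold bh
    have h2 : ∀ e1 ∈ Φ, ∑ e2 ∈ comps (n - t) (l - s), ps (K + 1) (ξ * hz d r (K + 1) (e1 ++ e2)) =
        ps (K + 1) (ξ * ((d : ZMod (3 ^ (K + 1))) *
          (i2 (K + 1) ^ s * (cc e1 : ZMod (3 ^ (K + 1)))))) *
        ∑ e2 ∈ comps (n - t) (l - s),
          ps (K + 1) (3 ^ t * i2 (K + 1) ^ s * ξ * hz d r (K + 1) e2) := by
      intro e1 he1
      rw [Finset.mul_sum]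
      apply Finset.sum_congr rfl
      intro e2 _
      have h3 := mem_comps.1 (hΦ e1 he1).1
      rw [hz_append, h3.1, h3.2.1, ← ps_add]
      congr 1
      ring
    rw [Finset.sum_congr rfl h2, ← Finset.sum_mul]
    have h3 : ((1 / 2 : ℝ) ^ l : ℝ) = (1 / 2 : ℝ) ^ s * (1 / 2 : ℝ) ^ (l - s) := by
      rw [← pow_add]
      congr 1
      omega
    rw [h3]
    push_cast
    ring
  -- sum of squares of a
  have ha0 : ∀ Y, 0 ≤ a Y := fun Y => by simp only [ha]; positivity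
  have ha1 : ∀ Y, a Y ≤ (1 / 2 : ℝ) ^ s := by
    intro Y
    have h1 : ((Φ.filter fun e => (d : ZMod (3 ^ (K + 1))) *
      (i2 (K + 1) ^ s * (cc e : ZMod (3 ^ (K + 1)))) = Y).card : ℝ) ≤ 1 := by
      exact_mod_cast c4_distinct h3 K t s Φ hΦ Y
    calc a Y ≤ (1 / 2 : ℝ) ^ s * 1 := mul_le_mul_of_nonneg_left h1 (by positivity)
      _ = _ := mul_one _
  have ha2 : ∑ Y, a Y ≤ 1 := by
    have h1 : ∑ Y, a Y = (1 / 2 : ℝ) ^ s * (Φ.card : ℝ) := by
      simp only [ha]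
      rw [← Finset.mul_sum]
      congr 1
      rw [← Nat.cast_sum]
      congr 1
      exact (Finset.card_eq_sum_card_fiberwise (fun e _ => Finset.mem_univ _)).symm
    have h2 : Φ.card ≤ (comps t s).card := Finset.card_le_card fun e he => (hΦ e he).1
    have h4 : (Φ.card : ℝ) ≤ 2 ^ s := by exact_mod_cast h2.trans (card_comps_le t s)
    rw [h1]
    calc (1 / 2 : ℝ) ^ s * (Φ.card : ℝ) ≤ (1 / 2 : ℝ) ^ s * 2 ^ s :=
          mul_le_mul_of_nonneg_left h4 (by positivity)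
      _ = 1 := by rw [← mul_pow]; norm_num
  have ha3 : ∑ Y, a Y ^ 2 ≤ (1 / 2 : ℝ) ^ s := by
    calc ∑ Y, a Y ^ 2 ≤ ∑ Y, (1 / 2 : ℝ) ^ s * a Y := by
          apply Finset.sum_le_sum
          intro Y _
          rw [sq]
          exact mul_le_mul_of_nonneg_right (ha1 Y) (ha0 Y)
      _ = (1 / 2 : ℝ) ^ s * ∑ Y, a Y := by rw [Finset.mul_sum]
      _ ≤ (1 / 2 : ℝ) ^ s * 1 := mul_le_mul_of_nonneg_left ha2 (by positivity)
      _ = _ := mul_one _
  have hpl := plancherel (K + 1) a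
  have h5 : (∑ ξ : ZMod (3 ^ (K + 1)), if (3 : ZMod (3 ^ (K + 1))) ^ K * ξ = 0 then (0 : ℝ)
      else ‖∑ Y : ZMod (3 ^ (K + 1)), (F Y : ℂ) * ps (K + 1) (ξ * Y)‖ ^ 2) ≤
      b ^ 2 * (3 ^ (K + 1) / 2 ^ s) := by
    calc _ ≤ ∑ ξ : ZMod (3 ^ (K + 1)), b ^ 2 * ‖A ξ‖ ^ 2 := by
          apply Finset.sum_le_sum
          intro ξ _
          split_ifs with hξ
          · positivity
          · rw [hFt ξ, norm_mul, mul_pow, mul_comm]
            apply mul_le_mul_of_nonneg_right _ (by positivity)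
            exact pow_le_pow_left₀ (norm_nonneg _) (hb ξ hξ) 2
      _ = b ^ 2 * ((3 : ℝ) ^ (K + 1) * ∑ Y, a Y ^ 2) := by
          rw [← Finset.mul_sum, ← hpl]
      _ ≤ b ^ 2 * ((3 : ℝ) ^ (K + 1) * (1 / 2 : ℝ) ^ s) := by
          apply mul_le_mul_of_nonneg_left _ (by positivity)
          exact mul_le_mul_of_nonneg_left ha3 (by positivity)
      _ = _ := by
          rw [one_div, inv_pow, ← div_eq_mul_inv]
  refine (l1_pr_le K F).trans ?_
  calc _ ≤ Real.sqrt (b ^ 2 * (3 ^ (K + 1) / 2 ^ s)) := Real.sqrt_le_sqrt h5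
    _ = b * Real.sqrt (3 ^ (K + 1) / 2 ^ s) := by
        rw [Real.sqrt_mul (by positivity), Real.sqrt_sq hb0]

end Pool.Agent.Lib.MP_d0d59f_nt.AA

end
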