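import Mathlib
import Pool.Agent.Lib.MP_d0d59f_nt.NK.K003
import Pool.Agent.Lib.MP_d0d59f_nt.NK.K004

section

/-! Row D1 (about 250 lines): least residues, the factor `ff`, first properties of `qq`. -/

namespace Pool.Agent.Lib.MP_d0d59f_nt.AA

open Finset

theorem qq_nonneg (K L J : ℕ) (y : ZMod (3 ^ K)) : 0 ≤ qq K L J y := by
  induction J generalizing y with
  | zero => simp [qq]
  | succ J ih =>
    unfold qq
    apply sum_nonneg
    intro b _
    exact mul_nonneg (mul_nonneg (pw_nonneg b) (ff_nonneg _ _ _)) (ih _)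

theorem qq_le_one (K L J : ℕ) (y : ZMod (3 ^ K)) : qq K L J y ≤ 1 := by
  induction J generalizing y with
  | zero => simp [qq]
  | succ J ih =>
    unfold qq
    refine le_trans (sum_le_sum (g := fun b => pw b) ?_) (sum_pw_le_one _)
    intro b _
    have h1 : ff K b (i2 K ^ b * y) * qq K L J (9 * (i2 K ^ b * y)) ≤ 1 :=
      mul_le_one₀ (ff_le_one _ _ _) (qq_nonneg _ _ _ _) (ih _)
    rw [mul_assoc]
    exact mul_le_of_le_one_right (pw_nonneg b) h1

/-- `qq K L (J+1) y ≤ ∑_{b ≤ L'} pw b U_b` if `L ≤ L'`, `U ≥ 0` and `ff · qq ≤ U_b` for all `b ≥ 2`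
(`pw 0 = pw 1 = 0`). -/
theorem qq_succ_le {K L J : ℕ} (y : ZMod (3 ^ K)) (L' : ℕ) (hL : L ≤ L') (U : ℕ → ℝ)
    (hU0 : ∀ b, 0 ≤ U b)
    (hU : ∀ b, 2 ≤ b → ff K b (i2 K ^ b * y) * qq K L J (9 * (i2 K ^ b * y)) ≤ U b) :
    qq K L (J + 1) y ≤ ∑ b ∈ range (L' + 1), pw b * U b := by
  unfold qq
  calc ∑ b ∈ range (L + 1), pw b * ff K b (i2 K ^ b * y) * qq K L J (9 * (i2 K ^ b * y))
      ≤ ∑ b ∈ range (L + 1), pw b * U b := by
        apply sum_le_sum
        intro b _
        rcases Nat.lt_or_ge b 2 with hb | hb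
        · have h0 : pw b = 0 := by
            unfold pw
            have : b - 1 = 0 := by omega
            rw [this]
            simp
          rw [h0]
          simp
        · rw [mul_assoc]
          exact mul_le_mul_of_nonneg_left (hU b hb) (pw_nonneg b)
    _ ≤ _ := by
        apply sum_le_sum_of_subset_of_nonneg
        · intro b hb
          rw [mem_range] at *
          omega
        · intro b _ _
          exact mul_nonneg (pw_nonneg b) (hU0 b)

/-- One step without gain. -/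
theorem qq_succ_le_const {K L J : ℕ} (y : ZMod (3 ^ K)) (V : ℝ) (hV0 : 0 ≤ V)
    (hV : ∀ b, qq K L J (9 * (i2 K ^ b * y)) ≤ V) : qq K L (J + 1) y ≤ V := by
  have h := qq_succ_le (L := L) (J := J) y L le_rfl (fun _ => V) (fun _ => hV0) (by
    intro b _
    calc ff K b (i2 K ^ b * y) * qq K L J (9 * (i2 K ^ b * y))
        ≤ 1 * qq K L J (9 * (i2 K ^ b * y)) :=
          mul_le_mul_of_nonneg_right (ff_le_one _ _ _) (qq_nonneg _ _ _ _)
      _ ≤ V := by rw [one_mul]; exact hV b)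
  refine h.trans ?_
  rw [← sum_mul]
  calc (∑ b ∈ range (L + 1), pw b) * V ≤ 1 * V :=
        mul_le_mul_of_nonneg_right (sum_pw_le_one _) hV0
    _ = V := one_mul _

/-- One step from a state whose `b = 3` move is white (`pw 3 = 1/4`; take `L' = max L 3` in
`qq_succ_le`). -/
theorem qq_white {K L J : ℕ} (y : ZMod (3 ^ K)) (V : ℝ) (hV0 : 0 ≤ V)
    (hw : 1 / 2048 ≤ aa K (i2 K ^ 3 * y))
    (hV : ∀ b, qq K L J (9 * (i2 K ^ b * y)) ≤ V) : qq K L (J + 1) y ≤ (1 - kap / 4) * V := by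
  have hk1 := kap_le_one
  have hk0 := kap_pos
  have h := qq_succ_le (L := L) (J := J) y (max L 3) (le_max_left _ _)
    (fun b => if b = 3 then (1 - kap) * V else V) (by
      intro b
      split_ifs
      · exact mul_nonneg (by linarith) hV0
      · exact hV0) (by
    intro b _
    split_ifs with hb
    · subst hb
      exact mul_le_mul (ff_three_le hw) (hV 3) (qq_nonneg _ _ _ _) (by linarith)
    · calc ff K b (i2 K ^ b * y) * qq K L J (9 * (i2 K ^ b * y))
          ≤ 1 * qq K L J (9 * (i2 K ^ b * y)) :=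
            mul_le_mul_of_nonneg_right (ff_le_one _ _ _) (qq_nonneg _ _ _ _)
        _ ≤ V := by rw [one_mul]; exact hV b)
  refine h.trans ?_
  have h3 : (3 : ℕ) ∈ range (max L 3 + 1) := by
    rw [mem_range]
    omega
  have hp3 : pw 3 = 1 / 4 := by
    unfold pw
    norm_num
  have h4 : ∑ b ∈ range (max L 3 + 1), pw b * (if b = 3 then (1 - kap) * V else V) =
      (∑ b ∈ range (max L 3 + 1), pw b) * V - pw 3 * (kap * V) := by
    rw [← add_sum_erase _ _ h3, ← add_sum_erase _ pw h3, if_pos rfl, add_mul, sum_mul]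
    have h5 : ∑ b ∈ (range (max L 3 + 1)).erase 3, pw b * (if b = 3 then (1 - kap) * V else V) =
        ∑ b ∈ (range (max L 3 + 1)).erase 3, pw b * V := by
      apply sum_congr rfl
      intro b hb
      rw [if_neg (ne_of_mem_erase hb)]
    rw [h5]
    ring
  rw [h4, hp3]
  have h6 : (∑ b ∈ range (max L 3 + 1), pw b) * V ≤ 1 * V :=
    mul_le_mul_of_nonneg_right (sum_pw_le_one _) hV0
  linarith

end Pool.Agent.Lib.MP_d0d59f_nt.AA

end

section

/-! Row D4 (about 200 lines): after the crossing, `qq` is controlled by `ww`. -/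

namespace Pool.Agent.Lib.MP_d0d59f_nt.AA

open Finset

theorem ww_nonneg (B j u : ℕ) (m : ℤ) : 0 ≤ ww B j u m := by
  induction j generalizing u m with
  | zero => simp [ww]
  | succ j ih =>
    rw [ww]
    refine Finset.sum_nonneg fun b _ => ?_
    refine mul_nonneg (mul_nonneg (pw_nonneg b) ?_) (ih _ _)
    split_ifs
    · exact abs_nonneg _
    · exact zero_le_one

theorem ww_le_one (B j u : ℕ) (m : ℤ) : ww B j u m ≤ 1 := by
  induction j generalizing u m with
  | zero => simp [ww]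
  | succ j ih =>
    rw [ww]
    refine (Finset.sum_le_sum (g := fun b => pw b) fun b _ => ?_).trans (sum_pw_le_one (B + 1))
    have h1 : (if b = 3 then |Real.cos (Real.pi * (m : ℝ) / 2 ^ (u + 3))| else 1) ≤ (1 : ℝ) := by
      split_ifs
      · exact Real.abs_cos_le_one _
      · exact le_rfl
    have h0 : (0 : ℝ) ≤ (if b = 3 then |Real.cos (Real.pi * (m : ℝ) / 2 ^ (u + 3))| else 1) := by
      split_ifs
      · exact abs_nonneg _
      · exact zero_le_one
    calc pw b * (if b = 3 then |Real.cos (Real.pi * (m : ℝ) / 2 ^ (u + 3))| else 1)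
          * ww B j (u + b) (9 * m)
        ≤ pw b * 1 * 1 := by
          refine mul_le_mul (mul_le_mul_of_nonneg_left h1 (pw_nonneg b)) (ih _ _)
            (ww_nonneg _ _ _ _) ?_
          exact mul_nonneg (pw_nonneg b) zero_le_one
      _ = pw b := by ring

theorem d4_two_mul_i2 (K : ℕ) : (2 : ZMod (3 ^ K)) * i2 K = 1 := by
  unfold i2
  have h : Nat.Coprime 2 (3 ^ K) := Nat.Coprime.pow_right _ (by norm_num)
  have := ZMod.coe_mul_inv_eq_one 2 h
  simpa using this

/-- `cos` is 1-Lipschitz. -/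
theorem d4_abs_cos_add_le (x y : ℝ) : |Real.cos (x + y)| ≤ |Real.cos x| + |y| := by
  have h : |Real.cos (x + y) - Real.cos x| ≤ |(x + y) - x| := by
    rw [Real.cos_sub_cos]
    have h1 : |Real.sin ((x + y - x) / 2)| ≤ |(x + y - x) / 2| := Real.abs_sin_le_abs
    rw [abs_mul, abs_mul]
    have h2 : |Real.sin ((x + y + x) / 2)| ≤ 1 := Real.abs_sin_le_one _
    have h3 : |(-2 : ℝ)| = 2 := by norm_num
    rw [h3]
    have h4 : |(x + y - x) / 2| = |x + y - x| / 2 := by
      rw [abs_div]; norm_num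
    rw [h4] at h1
    nlinarith [abs_nonneg (Real.sin ((x + y + x) / 2)), abs_nonneg (Real.sin ((x + y - x) / 2)),
      abs_nonneg (x + y - x)]
  have h5 : x + y - x = y := by ring
  rw [h5] at h
  calc |Real.cos (x + y)| = |Real.cos x + (Real.cos (x + y) - Real.cos x)| := by ring_nf
    _ ≤ |Real.cos x| + |Real.cos (x + y) - Real.cos x| := abs_add_le _ _
    _ ≤ _ := by linarith

theorem d4_abs_cos_add_int_mul_pi (x : ℝ) (q : ℤ) : |Real.cos (x + q * Real.pi)| = |Real.cos x| := by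
  rw [Real.cos_add_int_mul_pi, abs_mul]
  have : |((-1 : ℝ) ^ q)| = 1 := by
    rw [abs_zpow]; simp
  rw [this, one_mul]

/-- `w = i2^{u+3} G`, `2^{u+3} ∣ G + m 3^K`: then `c(w) 2^{u+3} = G + m' 3^K` with `m' ≡ m mod 2^{u+3}` (`3^K` is odd), and
`|cos(π c(w)/3^K)| = |cos(π (m'/2^{u+3} + G/(2^{u+3} 3^K)))| ≤ |cos(π m/2^{u+3})| + π |G|/(2^{u+3} 3^K)`;
`π/8 < 1`. -/
theorem cos_aa_le {K : ℕ} (u : ℕ) (G m : ℤ) (hdiv : (2 : ℤ) ^ (u + 3) ∣ G + m * 3 ^ K) :
    |Real.cos (Real.pi * aa K (i2 K ^ (u + 3) * (G : ZMod (3 ^ K))))| ≤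
      |Real.cos (Real.pi * (m : ℝ) / 2 ^ (u + 3))| + |(G : ℝ)| / 3 ^ K := by
  set w : ZMod (3 ^ K) := i2 K ^ (u + 3) * (G : ZMod (3 ^ K)) with hw
  have hcw : ((w.valMinAbs : ℤ) : ZMod (3 ^ K)) = w := ZMod.coe_valMinAbs w
  set c : ℤ := w.valMinAbs with hc
  have h2w : (2 : ZMod (3 ^ K)) ^ (u + 3) * w = (G : ZMod (3 ^ K)) := by
    rw [hw, ← mul_assoc, ← mul_pow, d4_two_mul_i2, one_pow, one_mul]
  have hdvd : ((3 ^ K : ℕ) : ℤ) ∣ 2 ^ (u + 3) * c - G := by
    rw [← ZMod.intCast_zmod_eq_zero_iff_dvd]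
    push_cast
    rw [hcw, h2w, sub_self]
  obtain ⟨m', hm'⟩ := hdvd
  push_cast at hm'
  have hcop : IsCoprime ((2 : ℤ) ^ (u + 3)) ((3 : ℤ) ^ K) := by
    apply IsCoprime.pow
    exact ⟨-1, 1, by norm_num⟩
  have hq : (2 : ℤ) ^ (u + 3) ∣ m' - m := by
    have h1 : (2 : ℤ) ^ (u + 3) ∣ 3 ^ K * (m' - m) := by
      have h2 : (2 : ℤ) ^ (u + 3) ∣ (2 ^ (u + 3) * c) - (G + m * 3 ^ K) :=
        dvd_sub (dvd_mul_right _ _) hdiv
      have h3 : (2 ^ (u + 3) * c) - (G + m * 3 ^ K) = 3 ^ K * (m' - m) := by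
        linear_combination hm'
      rwa [h3] at h2
    exact hcop.dvd_of_dvd_mul_left h1
  obtain ⟨q, hq⟩ := hq
  have hP : (0 : ℝ) < (2 : ℝ) ^ (u + 3) := by positivity
  have hT : (0 : ℝ) < (3 : ℝ) ^ K := by positivity
  have hcr : (2 : ℝ) ^ (u + 3) * (c : ℝ) = (G : ℝ) + ((m : ℝ) + 2 ^ (u + 3) * q) * 3 ^ K := by
    have h1 : (2 : ℤ) ^ (u + 3) * c = G + (m + 2 ^ (u + 3) * q) * 3 ^ K := by
      have : m' = m + 2 ^ (u + 3) * q := by linarith
      rw [← this]; linarith
    exact_mod_cast h1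
  have hcos : |Real.cos (Real.pi * aa K w)| = |Real.cos (Real.pi * (c : ℝ) / 3 ^ K)| := by
    congr 1
    unfold aa
    rw [← Real.cos_abs (Real.pi * (c : ℝ) / 3 ^ K), abs_div, abs_mul, abs_of_pos Real.pi_pos,
      abs_of_pos hT, ← hc]
    congr 1
    ring
  rw [hcos]
  have hx : Real.pi * (c : ℝ) / 3 ^ K =
      (Real.pi * (m : ℝ) / 2 ^ (u + 3) + Real.pi * (G : ℝ) / (2 ^ (u + 3) * 3 ^ K))
        + (q : ℝ) * Real.pi := by
    field_simp
    linear_combination hcr
  rw [hx, d4_abs_cos_add_int_mul_pi]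
  refine (d4_abs_cos_add_le _ _).trans ?_
  gcongr
  rw [abs_div, abs_mul, abs_of_pos Real.pi_pos, abs_of_pos (mul_pos hP hT),
    div_le_div_iff₀ (mul_pos hP hT) hT]
  have hpi : Real.pi ≤ 4 := Real.pi_le_four
  have h8 : (8 : ℝ) ≤ 2 ^ (u + 3) := by
    have : (1 : ℝ) ≤ 2 ^ u := one_le_pow₀ (by norm_num)
    rw [pow_add]; linarith
  have h9 : Real.pi ≤ 2 ^ (u + 3) := by linarith
  calc Real.pi * |(G : ℝ)| * 3 ^ K = |(G : ℝ)| * 3 ^ K * Real.pi := by ring
    _ ≤ |(G : ℝ)| * 3 ^ K * 2 ^ (u + 3) := by gcongr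
    _ = |(G : ℝ)| * (2 ^ (u + 3) * 3 ^ K) := by ring

/-- Induction on `j` generalizing `u G m J'`. `j = 0`: `hV` with `i = 0`. Step `j+1`: `J' = J''+1`;
`qq J' (i2^u G) = ∑_{b≤L} pw b ff_b(i2^{b}(i2^u G)) qq J'' (9 (i2^b (i2^u G)))`, and `9 i2^{u+b} G = i2^{u+b} (9G)`.
For `b > B` use `qq ≤ V` (`hV` with `i = 1`) and `sum_pw_Ico_le`: total `≤ (B+1)/2^B V`. For `b ≤ B` the induction hypothesis
(with `u+b`, `9G`, `9m`; `2^{u+b+jB} ∣ 9G + 9m 3^K`) gives
`qq J'' ≤ (ww B j (u+b) (9m) + j((B+1)/2^B + 4·9^j·9|G|/3^K)) V`, and for `b = 3` by `cos_aa_le`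
`ff·qq ≤ |cos(π m/2^{u+3})| qq + (|G|/3^K) V`. Since `∑ pw ≤ 1`, `ff ≤ 1`: total
`≤ (ww B (j+1) u m + j(...) + |G|/3^K + (B+1)/2^B) V`. -/
theorem further (K L B j u : ℕ) (hB : 3 ≤ B) (G m : ℤ) (J' : ℕ) (hj : j ≤ J') (V : ℝ)
    (hV0 : 0 ≤ V) (hdiv : (2 : ℤ) ^ (u + j * B) ∣ G + m * 3 ^ K)
    (hV : ∀ i β : ℕ, i ≤ j → qq K L (J' - i) (9 ^ i * (i2 K ^ β * (G : ZMod (3 ^ K)))) ≤ V) :
    qq K L J' (i2 K ^ u * (G : ZMod (3 ^ K))) ≤
      (ww B j u m + j * (((B : ℝ) + 1) / 2 ^ B + 4 * 9 ^ j * (|(G : ℝ)| / 3 ^ K))) * V := by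
  induction j generalizing u G m J' with
  | zero =>
    have h := hV 0 u le_rfl
    simpa [ww] using h
  | succ j ih =>
    obtain ⟨J'', rfl⟩ : ∃ J'', J' = J'' + 1 := ⟨J' - 1, by omega⟩
    have hj' : j ≤ J'' := by omega
    set y : ZMod (3 ^ K) := i2 K ^ u * (G : ZMod (3 ^ K)) with hy
    set g : ℝ := |(G : ℝ)| / 3 ^ K with hg
    set ε : ℝ := ((B : ℝ) + 1) / 2 ^ B with hε
    have hg0 : 0 ≤ g := by rw [hg]; positivity
    have hε0 : 0 ≤ ε := by rw [hε]; positivity
    set E : ℝ := (j : ℝ) * (ε + 4 * 9 ^ (j + 1) * g) with hE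
    have hE0 : 0 ≤ E := by rw [hE]; positivity
    -- the state after one step
    have hstate : ∀ b, 9 * (i2 K ^ b * y) = i2 K ^ (u + b) * ((9 * G : ℤ) : ZMod (3 ^ K)) := by
      intro b
      rw [hy, pow_add]; push_cast; ring
    have hqV : ∀ b, qq K L J'' (9 * (i2 K ^ b * y)) ≤ V := by
      intro b
      have h := hV 1 (u + b) (by omega)
      have h1 : J'' + 1 - 1 = J'' := by omega
      rw [h1] at h
      have h2 : (9 : ZMod (3 ^ K)) ^ 1 * (i2 K ^ (u + b) * (G : ZMod (3 ^ K)))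
          = 9 * (i2 K ^ b * y) := by
        rw [hy, pow_add]; ring
      rwa [h2] at h
    have hq0 : ∀ b, 0 ≤ qq K L J'' (9 * (i2 K ^ b * y)) := fun b => qq_nonneg _ _ _ _
    -- induction hypothesis
    have hIH : ∀ b, b ≤ B → qq K L J'' (9 * (i2 K ^ b * y)) ≤
        (ww B j (u + b) (9 * m) + E) * V := by
      intro b hb
      have h := ih (u + b) (9 * G) (9 * m) J'' hj' ?_ ?_
      · rw [hstate b]
        refine h.trans (le_of_eq ?_)
        have h9 : |((9 * G : ℤ) : ℝ)| / 3 ^ K = 9 * g := by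
          rw [hg]; push_cast; rw [abs_mul]
          have : |(9 : ℝ)| = 9 := by norm_num
          rw [this]; ring
        rw [h9, hE]; ring
      · have h1 : (2 : ℤ) ^ (u + b + j * B) ∣ 2 ^ (u + (j + 1) * B) := by
          apply pow_dvd_pow
          have : (j + 1) * B = j * B + B := by ring
          omega
        have h2 : 9 * G + 9 * m * 3 ^ K = 9 * (G + m * 3 ^ K) := by ring
        rw [h2]
        exact Dvd.dvd.mul_left (h1.trans hdiv) _
      · intro i β hi
        have h := hV (i + 1) β (by omega)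
        have h1 : J'' + 1 - (i + 1) = J'' - i := by omega
        rw [h1] at h
        have h2 : (9 : ZMod (3 ^ K)) ^ (i + 1) * (i2 K ^ β * (G : ZMod (3 ^ K)))
            = 9 ^ i * (i2 K ^ β * ((9 * G : ℤ) : ZMod (3 ^ K))) := by
          push_cast; ring
        rwa [h2] at h
    -- the factor for the move b
    let cf : ℕ → ℝ := fun b => if b = 3 then |Real.cos (Real.pi * (m : ℝ) / 2 ^ (u + 3))| else 1
    have hcf0 : ∀ b, 0 ≤ cf b := by
      intro b; simp only [cf]; split_ifs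
      · exact abs_nonneg _
      · exact zero_le_one
    have hcf1 : ∀ b, cf b ≤ 1 := by
      intro b; simp only [cf]; split_ifs
      · exact Real.abs_cos_le_one _
      · exact le_rfl
    have hff : ∀ b, ff K b (i2 K ^ b * y) ≤ cf b + g := by
      intro b
      unfold ff
      by_cases hb3 : b = 3
      · simp only [cf, if_pos hb3]
        subst hb3
        have h1 : i2 K ^ 3 * y = i2 K ^ (u + 3) * (G : ZMod (3 ^ K)) := by
          rw [hy, pow_add]; ring
        rw [h1]
        apply cos_aa_le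
        refine dvd_trans ?_ hdiv
        apply pow_dvd_pow
        have : (j + 1) * B = j * B + B := by ring
        omega
      · simp only [cf, if_neg hb3]
        linarith
    have hterm : ∀ b, b ≤ B → ff K b (i2 K ^ b * y) * qq K L J'' (9 * (i2 K ^ b * y)) ≤
        (cf b * ww B j (u + b) (9 * m) + (E + g)) * V := by
      intro b hb
      calc ff K b (i2 K ^ b * y) * qq K L J'' (9 * (i2 K ^ b * y))
          ≤ (cf b + g) * qq K L J'' (9 * (i2 K ^ b * y)) :=
            mul_le_mul_of_nonneg_right (hff b) (hq0 b)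
        _ = cf b * qq K L J'' (9 * (i2 K ^ b * y)) + g * qq K L J'' (9 * (i2 K ^ b * y)) := by
            ring
        _ ≤ cf b * ((ww B j (u + b) (9 * m) + E) * V) + g * V := by
            gcongr
            · exact hIH b hb
            · exact hqV b
        _ = (cf b * ww B j (u + b) (9 * m)) * V + (cf b * E) * V + g * V := by ring
        _ ≤ (cf b * ww B j (u + b) (9 * m)) * V + (1 * E) * V + g * V := by
            gcongr
            exact hcf1 b
        _ = _ := by ring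
    have hterm2 : ∀ b, ff K b (i2 K ^ b * y) * qq K L J'' (9 * (i2 K ^ b * y)) ≤ V := by
      intro b
      calc ff K b (i2 K ^ b * y) * qq K L J'' (9 * (i2 K ^ b * y))
          ≤ 1 * qq K L J'' (9 * (i2 K ^ b * y)) :=
            mul_le_mul_of_nonneg_right (ff_le_one _ _ _) (hq0 b)
        _ ≤ V := by rw [one_mul]; exact hqV b
    set U : ℕ → ℝ := fun b => if b ≤ B then (cf b * ww B j (u + b) (9 * m) + (E + g)) * V else V
      with hU
    have hU0 : ∀ b, 0 ≤ U b := by
      intro b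
      simp only [hU]
      split_ifs
      · refine mul_nonneg (add_nonneg (mul_nonneg (hcf0 b) (ww_nonneg _ _ _ _)) (by linarith)) hV0
      · exact hV0
    have hmain := qq_succ_le (K := K) (L := L) (J := J'') y (max L B) (le_max_left _ _) U hU0
      (by
        intro b _
        simp only [hU]
        split_ifs with hb
        · exact hterm b hb
        · exact hterm2 b)
    refine hmain.trans ?_
    have hsplit : ∑ b ∈ range (max L B + 1), pw b * U b =
        ∑ b ∈ range (B + 1), pw b * U b + ∑ b ∈ Ico (B + 1) (max L B + 1), pw b * U b := by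
      rw [Finset.sum_range_add_sum_Ico]
      omega
    rw [hsplit]
    have hA : ∑ b ∈ range (B + 1), pw b * U b ≤ (ww B (j + 1) u m + (E + g)) * V := by
      have h1 : ∑ b ∈ range (B + 1), pw b * U b =
          (∑ b ∈ range (B + 1), pw b * cf b * ww B j (u + b) (9 * m)) * V +
            (∑ b ∈ range (B + 1), pw b) * ((E + g) * V) := by
        rw [Finset.sum_mul, Finset.sum_mul, ← Finset.sum_add_distrib]
        refine Finset.sum_congr rfl fun b hb => ?_
        have hb' : b ≤ B := by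
          have := Finset.mem_range.mp hb; omega
        simp only [hU, if_pos hb']
        ring
      have h2 : ww B (j + 1) u m = ∑ b ∈ range (B + 1), pw b * cf b * ww B j (u + b) (9 * m) := by
        rw [ww]
      rw [h1, ← h2]
      have h3 : (∑ b ∈ range (B + 1), pw b) * ((E + g) * V) ≤ 1 * ((E + g) * V) := by
        apply mul_le_mul_of_nonneg_right (sum_pw_le_one _)
        positivity
      linarith
    have hBs : ∑ b ∈ Ico (B + 1) (max L B + 1), pw b * U b ≤ ε * V := by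
      have h1 : ∑ b ∈ Ico (B + 1) (max L B + 1), pw b * U b =
          (∑ b ∈ Ico (B + 1) (max L B + 1), pw b) * V := by
        rw [Finset.sum_mul]
        refine Finset.sum_congr rfl fun b hb => ?_
        have hb' : ¬ b ≤ B := by
          have := (Finset.mem_Ico.mp hb).1; omega
        simp only [hU, if_neg hb']
      rw [h1]
      exact mul_le_mul_of_nonneg_right (sum_pw_Ico_le B (max L B)) hV0
    have hfin : (ww B (j + 1) u m + (E + g)) * V + ε * V ≤
        (ww B (j + 1) u m + ((j + 1 : ℕ) : ℝ) * (ε + 4 * 9 ^ (j + 1) * g)) * V := by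
      rw [← add_mul]
      apply mul_le_mul_of_nonneg_right _ hV0
      have h1 : g ≤ 4 * 9 ^ (j + 1) * g := by
        have : (1 : ℝ) ≤ 4 * 9 ^ (j + 1) := by
          have : (1 : ℝ) ≤ 9 ^ (j + 1) := one_le_pow₀ (by norm_num)
          linarith
        calc g = 1 * g := by ring
          _ ≤ 4 * 9 ^ (j + 1) * g := by gcongr
      rw [hE]; push_cast
      linarith
    linarith

end Pool.Agent.Lib.MP_d0d59f_nt.AA

end
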