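import Mathlib
import Pool.Agent.Lib.MP_d0d59f_nt.NK.K005
import Pool.Agent.Lib.MP_d0d59f_nt.NK.K006

section

/-! Row C2 (about 250 lines): `H_r(e)` in `ZMod (3^K)` and the weights `pz`. -/

namespace Pool.Agent.Lib.MP_d0d59f_nt.AA

open Finset

theorem pz_nonneg (d r : ℤ) (K n l : ℕ) (Y : ZMod (3 ^ K)) : 0 ≤ pz d r K n l Y := by
  unfold pz
  positivity

theorem c2b_sum_range_zmod (N : ℕ) [NeZero N] (g : ZMod N → ℝ) :
    ∑ x ∈ range N, g (x : ZMod N) = ∑ Y : ZMod N, g Y := by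
  refine Finset.sum_nbij' (fun x : ℕ => (x : ZMod N)) (fun Y => Y.val) ?_ ?_ ?_ ?_ ?_
  · intro a _
    exact Finset.mem_univ _
  · intro Y _
    exact Finset.mem_range.2 (ZMod.val_lt Y)
  · intro a ha
    exact ZMod.val_natCast_of_lt (Finset.mem_range.1 ha)
  · intro Y _
    exact ZMod.natCast_zmod_val Y
  · intro a _
    rfl

/-- `∑_{x < 3^K} g (x : ZMod (3^K)) = ∑_Y g Y`. -/
theorem sum_range_eq_sum_zmod (K : ℕ) (g : ZMod (3 ^ K) → ℝ) :
    ∑ x ∈ range (3 ^ K), g (x : ZMod (3 ^ K)) = ∑ Y : ZMod (3 ^ K), g Y :=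
  c2b_sum_range_zmod (3 ^ K) g

/-- Every `e ∈ comps n l` has exactly one value `hz d r K e` (`Finset.card_eq_sum_card_fiberwise`). -/
theorem sum_pz (d r : ℤ) (K n l : ℕ) : ∑ Y : ZMod (3 ^ K), pz d r K n l Y = nb n l := by
  unfold pz nb
  rw [← Finset.mul_sum]
  congr 1
  rw [← Nat.cast_sum]
  congr 1
  exact (Finset.card_eq_sum_card_fiberwise (f := fun e => hz d r K e) (s := comps n l)
    (t := Finset.univ) (fun _ _ => Finset.mem_coe.2 (Finset.mem_univ _))).symm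

theorem c2b_ind (K : ℕ) (M x : ℤ) :
    (if M ≡ x [ZMOD 3 ^ K] then (1 : ℕ) else 0) =
      ∑ j ∈ range 3, if M ≡ x + (j : ℤ) * 3 ^ K [ZMOD 3 ^ (K + 1)] then (1 : ℕ) else 0 := by
  have h3 : (3 : ℤ) ^ K ≠ 0 := by positivity
  have key : ∀ j : ℤ, M ≡ x + j * 3 ^ K [ZMOD 3 ^ (K + 1)] ↔
      ∃ q : ℤ, M - x = 3 ^ K * q ∧ (3 : ℤ) ∣ q - j := by
    intro j
    rw [Int.modEq_comm, Int.modEq_iff_dvd]
    constructor
    · rintro ⟨t, ht⟩
      refine ⟨j + 3 * t, ?_, ⟨t, by ring⟩⟩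
      have : (3 : ℤ) ^ (K + 1) = 3 ^ K * 3 := pow_succ _ _
      rw [this] at ht
      linear_combination ht
    · rintro ⟨q, hq, t, ht⟩
      refine ⟨t, ?_⟩
      have : (3 : ℤ) ^ (K + 1) = 3 ^ K * 3 := pow_succ _ _
      rw [this]
      linear_combination hq + (3 : ℤ) ^ K * ht
  by_cases h : M ≡ x [ZMOD 3 ^ K]
  · rw [if_pos h]
    obtain ⟨q, hq⟩ := Int.modEq_iff_dvd.1 h.symm
    have key2 : ∀ j : ℤ, M ≡ x + j * 3 ^ K [ZMOD 3 ^ (K + 1)] ↔ (3 : ℤ) ∣ q - j := by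
      intro j
      rw [key]
      constructor
      · rintro ⟨q', hq', hd⟩
        have : q' = q := mul_left_cancel₀ h3 (hq'.symm.trans hq)
        rwa [this] at hd
      · intro hd
        exact ⟨q, hq, hd⟩
    simp only [key2]
    rw [Finset.sum_range_succ, Finset.sum_range_succ, Finset.sum_range_one]
    push_cast
    have h5 : q % 3 = 0 ∨ q % 3 = 1 ∨ q % 3 = 2 := by omega
    rcases h5 with h5 | h5 | h5
    · rw [if_pos (by omega), if_neg (by omega), if_neg (by omega)]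
    · rw [if_neg (by omega), if_pos (by omega), if_neg (by omega)]
    · rw [if_neg (by omega), if_neg (by omega), if_pos (by omega)]
  · rw [if_neg h]
    symm
    apply Finset.sum_eq_zero
    intro j _
    rw [if_neg]
    intro h2
    obtain ⟨q, hq, _⟩ := (key j).1 h2
    exact h (Int.modEq_iff_dvd.2 ⟨q, hq⟩).symm

theorem c2b_hz_iff (d r : ℤ) (K : ℕ) (e : List ℕ) :
    ∃ M : ℤ, (∀ x : ℤ, hz d r K e = (x : ZMod (3 ^ K)) ↔ M ≡ x [ZMOD 3 ^ K]) ∧
      ∀ x : ℤ, hz d r (K + 1) e = (x : ZMod (3 ^ (K + 1))) ↔ M ≡ x [ZMOD 3 ^ (K + 1)] := by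
  have : NeZero (3 ^ (K + 1) : ℕ) := ⟨by positivity⟩
  refine ⟨((hz d r (K + 1) e).val : ℤ), ?_, ?_⟩
  · have hM : hz d r (K + 1) e = ((((hz d r (K + 1) e).val : ℕ) : ℤ) : ZMod (3 ^ (K + 1))) := by
      push_cast
      exact (ZMod.natCast_zmod_val _).symm
    have h1 := hz_cast (d := d) (r := r) (Nat.le_succ K) e _ hM
    intro x
    rw [h1, ZMod.intCast_eq_intCast_iff]
    push_cast
    rfl
  · have hM : hz d r (K + 1) e = ((((hz d r (K + 1) e).val : ℕ) : ℤ) : ZMod (3 ^ (K + 1))) := by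
      push_cast
      exact (ZMod.natCast_zmod_val _).symm
    intro x
    constructor
    · intro h
      rw [hM, ZMod.intCast_eq_intCast_iff] at h
      exact_mod_cast h
    · intro h
      rw [hM, ZMod.intCast_eq_intCast_iff]
      exact_mod_cast h

/-- `pz` at level `K` is the sum over the three lifts at level `K+1`:
`{e : hz d r K e = x} = ⊔_{j<3} {e : hz d r (K+1) e = x + j 3^K}`. -/
theorem pz_eq_sum_lifts (d r : ℤ) (K n l : ℕ) (x : ℤ) :
    pz d r K n l (x : ZMod (3 ^ K)) =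
      ∑ j ∈ range 3, pz d r (K + 1) n l ((x : ZMod (3 ^ (K + 1))) + (j : ZMod (3 ^ (K + 1))) * 3 ^ K) := by
  unfold pz
  rw [← Finset.mul_sum]
  congr 1
  rw [← Nat.cast_sum]
  congr 1
  simp only [Finset.card_filter]
  rw [Finset.sum_comm]
  refine Finset.sum_congr rfl fun e _ => ?_
  obtain ⟨M, h1, h2⟩ := c2b_hz_iff d r K e
  have h3 := c2b_ind K M x
  simp only [h1]
  rw [h3]
  refine Finset.sum_congr rfl fun j _ => ?_
  have h4 : ((x : ZMod (3 ^ (K + 1))) + (j : ZMod (3 ^ (K + 1))) * 3 ^ K)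
      = ((x + (j : ℤ) * 3 ^ K : ℤ) : ZMod (3 ^ (K + 1))) := by
    push_cast
    rfl
  rw [h4]
  simp only [h2]

/-- From `pz_eq_sum_lifts`, `3^K/3^(K+1) = 1/3` and `sum_range_eq_sum_zmod`. -/
theorem osc_succ_eq (d r : ℤ) (K n L : ℕ) :
    osc d r (K + 1) K n L = ∑ l ∈ range (L + 1), ∑ Y : ZMod (3 ^ (K + 1)),
      |pz d r (K + 1) n l Y - pr K (pz d r (K + 1) n l) Y| := by
  unfold osc
  refine Finset.sum_congr rfl fun l _ => ?_
  rw [← sum_range_eq_sum_zmod]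
  refine Finset.sum_congr rfl fun x _ => ?_
  congr 2
  unfold pr
  have h := pz_eq_sum_lifts d r K n l (x : ℤ)
  push_cast at h
  rw [h]
  have h3 : (3 : ℝ) ^ K / 3 ^ (K + 1) = 1 / 3 := by
    rw [pow_succ]
    field_simp
  rw [h3]

theorem c2b_sum_periodic (a b : ℕ) [NeZero a] (g : ZMod a → ℝ) :
    ∑ x ∈ range (a * b), g (x : ZMod a) = b * ∑ Y : ZMod a, g Y := by
  induction b with
  | zero => simp
  | succ b ih =>
    rw [Nat.mul_succ, Finset.sum_range_add, ih]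
    have : ∑ x ∈ range a, g ((a * b + x : ℕ) : ZMod a) = ∑ x ∈ range a, g (x : ZMod a) := by
      refine Finset.sum_congr rfl fun x _ => ?_
      congr 1
      push_cast
      rw [ZMod.natCast_self]
      ring
    rw [this, c2b_sum_range_zmod]
    push_cast
    ring

/-- `∑_x |pz K - 3^{m-K} pz m| ≤ 2 nb n l` for `m ≤ K`, where `∑_{x<3^K} pz d r m n l x = 3^{K-m} nb n l`. -/
theorem osc_inner_le (d r : ℤ) (K m n l : ℕ) (h : m ≤ K) :
    ∑ x ∈ range (3 ^ K),
      |pz d r K n l (x : ZMod (3 ^ K)) - (3 : ℝ) ^ m / 3 ^ K * pz d r m n l (x : ZMod (3 ^ m))|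
      ≤ 2 * nb n l := by
  obtain ⟨t, rfl⟩ := Nat.exists_eq_add_of_le h
  have h1 : ∀ x ∈ range (3 ^ (m + t)),
      |pz d r (m + t) n l (x : ZMod (3 ^ (m + t)))
        - (3 : ℝ) ^ m / 3 ^ (m + t) * pz d r m n l (x : ZMod (3 ^ m))|
      ≤ pz d r (m + t) n l (x : ZMod (3 ^ (m + t)))
        + (3 : ℝ) ^ m / 3 ^ (m + t) * pz d r m n l (x : ZMod (3 ^ m)) := by
    intro x _
    have e1 := pz_nonneg d r (m + t) n l (x : ZMod (3 ^ (m + t)))
    have e2 := mul_nonneg (by positivity : (0 : ℝ) ≤ 3 ^ m / 3 ^ (m + t))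
      (pz_nonneg d r m n l (x : ZMod (3 ^ m)))
    rw [abs_le]
    constructor <;> linarith
  refine (Finset.sum_le_sum h1).trans (le_of_eq ?_)
  rw [Finset.sum_add_distrib, sum_range_eq_sum_zmod, sum_pz, ← Finset.mul_sum]
  have h2 : ∑ x ∈ range (3 ^ (m + t)), pz d r m n l (x : ZMod (3 ^ m)) = 3 ^ t * nb n l := by
    rw [pow_add, c2b_sum_periodic (3 ^ m) (3 ^ t) (fun Y => pz d r m n l Y), sum_pz]
    push_cast
    rfl
  rw [h2, pow_add]
  field_simp
  ring

end Pool.Agent.Lib.MP_d0d59f_nt.AA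

end

section

/-! Row C5 (about 250 lines): decomposition of the words by their fronts. -/

namespace Pool.Agent.Lib.MP_d0d59f_nt.AA

open Finset

lemma c5_take_sum_mono (e : List ℕ) {t t' : ℕ} (h : t ≤ t') : (e.take t).sum ≤ (e.take t').sum := by
  obtain ⟨k, rfl⟩ := Nat.exists_eq_add_of_le h
  rw [List.take_add, List.sum_append]
  exact Nat.le_add_right _ _

lemma c5_front_lt {K L0 : ℕ} {e : List ℕ} {t t' : ℕ} (ht' : t' ≤ e.length)
    (h : frontOK K L0 (e.take t)) (h' : frontOK K L0 (e.take t')) : ¬ t < t' := by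
  intro hlt
  have h1 : (e.take t').dropLast = e.take (t' - 1) := by
    rw [List.dropLast_eq_take, List.take_take, List.length_take]
    congr 1
    omega
  have h2 := h'.2.1
  rw [h1] at h2
  have h3 := c5_take_sum_mono e (show t ≤ t' - 1 by omega)
  have h4 := h.1
  omega

/-- The front is unique: if `t < t'`, then `e.take t` is a prefix of `(e.take t').dropLast = e.take (t'-1)`, of sum
`≤ L0`. (`t, t' ≤ e.length`.) -/
theorem front_unique {K L0 : ℕ} {e : List ℕ} {t t' : ℕ} (ht : t ≤ e.length) (ht' : t' ≤ e.length)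
    (h : frontOK K L0 (e.take t)) (h' : frontOK K L0 (e.take t')) : t = t' := by
  have h1 := c5_front_lt ht' h h'
  have h2 := c5_front_lt ht h' h
  omega

lemma c5_pr_add (K : ℕ) (f g : ZMod (3 ^ (K + 1)) → ℝ) (Y : ZMod (3 ^ (K + 1))) :
    pr K (fun Y => f Y + g Y) Y = pr K f Y + pr K g Y := by
  unfold pr
  rw [Finset.sum_add_distrib, mul_add]

lemma c5_pr_sum (K : ℕ) {ι : Type*} (S : Finset ι) (f : ι → ZMod (3 ^ (K + 1)) → ℝ)
    (Y : ZMod (3 ^ (K + 1))) :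
    pr K (fun Y => ∑ i ∈ S, f i Y) Y = ∑ i ∈ S, pr K (f i) Y := by
  unfold pr
  rw [Finset.sum_comm, Finset.mul_sum]

/-- indicator identity for a single word -/
lemma c5_ind {K τ L0 h n l : ℕ} (hτ : τ ≤ n) {e : List ℕ} (he : e ∈ comps n l) (P : Prop)
    [Decidable P] :
    (if P then (1 : ℝ) else 0) =
      (∑ t ∈ Icc 1 τ, ∑ s ∈ Icc (L0 + 1) (L0 + h),
        (if ((e.take t).sum = s ∧ frontOK K L0 (e.take t)) ∧ P then (1 : ℝ) else 0))
      + (if ¬ good K τ L0 h e ∧ P then (1 : ℝ) else 0) := by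
  have hlen := (mem_comps.1 he).1
  by_cases hP : P
  · by_cases hg : good K τ L0 h e
    · obtain ⟨t0, ht0, hs0, hf0⟩ := id hg
      rw [Finset.sum_eq_single_of_mem t0 ht0]
      · rw [Finset.sum_eq_single_of_mem (e.take t0).sum]
        · simp [hP, hg, hf0]
        · rw [Finset.mem_Icc]
          exact ⟨hf0.1, hs0⟩
        · intro s _ hs
          rw [if_neg]
          rintro ⟨⟨h1, -⟩, -⟩
          exact hs h1.symm
      · intro t ht hne
        apply Finset.sum_eq_zero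
        intro s _
        rw [if_neg]
        rintro ⟨⟨-, h2⟩, -⟩
        rw [Finset.mem_Icc] at ht ht0
        exact hne (front_unique (by omega) (by omega) h2 hf0)
    · rw [Finset.sum_eq_zero, zero_add, if_pos hP, if_pos ⟨hg, hP⟩]
      intro t ht
      apply Finset.sum_eq_zero
      intro s hs
      rw [if_neg]
      rintro ⟨⟨h1, h2⟩, -⟩
      apply hg
      refine ⟨t, ht, ?_, h2⟩
      rw [h1]
      exact (Finset.mem_Icc.1 hs).2
  · simp [hP]

/-- the words with a given front, as pairs -/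
lemma c5_pairs (d r : ℤ) {K L0 n l t s : ℕ} (ht : t ≤ n) (hs : s ≤ l) (Y : ZMod (3 ^ (K + 1))) :
    ∑ e ∈ comps n l, (if ((e.take t).sum = s ∧ frontOK K L0 (e.take t)) ∧
        hz d r (K + 1) e = Y then (1 : ℝ) else 0) =
      (((((comps t s).filter (frontOK K L0)) ×ˢ comps (n - t) (l - s)).filter
        fun p => hz d r (K + 1) (p.1 ++ p.2) = Y).card : ℝ) := by
  obtain ⟨m, rfl⟩ := Nat.exists_eq_add_of_le ht
  rw [sum_comps_add, Nat.add_sub_cancel_left]
  rw [Finset.sum_eq_single_of_mem s (Finset.mem_range.2 (by omega))]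
  · rw [Finset.card_filter, Finset.sum_product, Finset.sum_filter]
    push_cast
    apply Finset.sum_congr rfl
    intro e1 he1
    have h1 := mem_comps.1 he1
    split_ifs with hf
    · apply Finset.sum_congr rfl
      intro e2 _
      have h2 : (e1 ++ e2).take t = e1 := by
        rw [← h1.1]; exact List.take_left
      rw [h2]
      simp [h1.2.1, hf]
    · apply Finset.sum_eq_zero
      intro e2 _
      have h2 : (e1 ++ e2).take t = e1 := by
        rw [← h1.1]; exact List.take_left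
      rw [h2, if_neg]
      rintro ⟨⟨-, h3⟩, -⟩
      exact hf h3
  · intro s' _ hs'
    apply Finset.sum_eq_zero
    intro e1 he1
    apply Finset.sum_eq_zero
    intro e2 _
    have h1 := mem_comps.1 he1
    have h2 : (e1 ++ e2).take t = e1 := by
      rw [← h1.1]; exact List.take_left
    rw [h2, if_neg]
    rintro ⟨⟨h3, -⟩, -⟩
    exact hs' (h1.2.1.symm.trans h3)

/-- for `s > l` there are no such words -/
lemma c5_empty (d r : ℤ) {K L0 n l t s : ℕ} (hs : l < s) (Y : ZMod (3 ^ (K + 1))) :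
    ∑ e ∈ comps n l, (if ((e.take t).sum = s ∧ frontOK K L0 (e.take t)) ∧
        hz d r (K + 1) e = Y then (1 : ℝ) else 0) = 0 := by
  apply Finset.sum_eq_zero
  intro e he
  rw [if_neg]
  rintro ⟨⟨h1, -⟩, -⟩
  have h2 := (mem_comps.1 he).2.1
  have h3 : (e.take t).sum ≤ e.sum := by
    conv_rhs => rw [← List.take_append_drop t e, List.sum_append]
    exact Nat.le_add_right _ _
  omega

/-- Fix `l ≤ L`. `comps n l` is the disjoint union of the bad words (`¬ good`) and, for `t ∈ [1,τ]`,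
`s ∈ [L0+1, L0+h]`, of the words `e` with `e.take t ∈ Φ_{t,s} := (comps t s).filter (frontOK K L0)`
(disjoint by `front_unique`; `s = (e.take t).sum > L0` is automatic). The map `e ↦ (e.take t, e.drop t)` is a bijection of
the latter onto `Φ_{t,s} × comps (n-t) (l-s)` (empty if `s > l`). So `pz d r (K+1) n l = ∑_{t,s} F_{t,s} + F_bad`
pointwise, `pr K` is linear, and by `front_l1` and `l1_pr_le_two`
`∑_Y |pz - pr pz| ≤ ∑_{t,s} b sqrt(3^(K+1)/2^s) + 2 ∑_Y F_bad Y`, `2^s ≥ 2^L0`, `∑_Y F_bad Y = 2^{-l} #{bad}`.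
Sum over `l ≤ L` with `osc_succ_eq`. -/
theorem osc_front {d : ℤ} (h3 : ¬ (3 : ℤ) ∣ d) (r : ℤ) (K n τ L0 h L : ℕ) (hτ : τ ≤ n) (b : ℝ)
    (hb0 : 0 ≤ b)
    (hb : ∀ t ∈ Icc 1 τ, ∀ s ∈ Icc (L0 + 1) (L0 + h), ∀ l ≤ L, s ≤ l →
      ∀ ξ : ZMod (3 ^ (K + 1)), (3 : ZMod (3 ^ (K + 1))) ^ K * ξ ≠ 0 →
      ‖bh d r (K + 1) (n - t) (l - s) (3 ^ t * i2 (K + 1) ^ s * ξ)‖ ≤ b) :
    osc d r (K + 1) K n L ≤ ((L : ℝ) + 1) * τ * h * (b * Real.sqrt (3 ^ (K + 1) / 2 ^ L0))
      + 2 * ∑ l ∈ range (L + 1), (1 / 2 : ℝ) ^ l *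
          (((comps n l).filter fun e => ¬ good K τ L0 h e).card : ℝ) := by
  rw [osc_succ_eq]
  have key : ∀ l ∈ range (L + 1), ∑ Y : ZMod (3 ^ (K + 1)),
      |pz d r (K + 1) n l Y - pr K (pz d r (K + 1) n l) Y| ≤
      (τ : ℝ) * h * (b * Real.sqrt (3 ^ (K + 1) / 2 ^ L0)) + 2 * ((1 / 2 : ℝ) ^ l *
          (((comps n l).filter fun e => ¬ good K τ L0 h e).card : ℝ)) := by
    intro l hl
    have hlL : l ≤ L := by
      have := Finset.mem_range.1 hl
      omega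
    set F : ℕ × ℕ → ZMod (3 ^ (K + 1)) → ℝ := fun p Y => (1 / 2 : ℝ) ^ l *
      ∑ e ∈ comps n l, (if ((e.take p.1).sum = p.2 ∧ frontOK K L0 (e.take p.1)) ∧
        hz d r (K + 1) e = Y then (1 : ℝ) else 0) with hF
    set Fb : ZMod (3 ^ (K + 1)) → ℝ := fun Y => (1 / 2 : ℝ) ^ l *
      ∑ e ∈ comps n l, (if ¬ good K τ L0 h e ∧ hz d r (K + 1) e = Y then (1 : ℝ) else 0) with hFb
    set I := Icc 1 τ ×ˢ Icc (L0 + 1) (L0 + h) with hI
    have hpz : pz d r (K + 1) n l = fun Y => (∑ p ∈ I, F p Y) + Fb Y := by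
      funext Y
      unfold pz
      rw [Finset.card_filter]
      push_cast
      rw [Finset.sum_congr rfl (fun e he => c5_ind (K := K) (τ := τ) (L0 := L0) (h := h) hτ he
        (hz d r (K + 1) e = Y)), Finset.sum_add_distrib, mul_add]
      congr 1
      rw [hI, Finset.sum_product, Finset.sum_comm, Finset.mul_sum]
      apply Finset.sum_congr rfl
      intro t _
      rw [Finset.sum_comm, Finset.mul_sum]
    have hdiff : ∀ Y, pz d r (K + 1) n l Y - pr K (pz d r (K + 1) n l) Y =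
        (∑ p ∈ I, (F p Y - pr K (F p) Y)) + (Fb Y - pr K Fb Y) := by
      intro Y
      rw [hpz]
      have h1 := c5_pr_add K (fun Y => ∑ p ∈ I, F p Y) Fb Y
      rw [h1, c5_pr_sum, Finset.sum_sub_distrib]
      ring
    have hFp : ∀ p ∈ I, ∑ Y : ZMod (3 ^ (K + 1)), |F p Y - pr K (F p) Y| ≤
        b * Real.sqrt (3 ^ (K + 1) / 2 ^ L0) := by
      intro p hp
      obtain ⟨hp1, hp2⟩ := Finset.mem_product.1 (hI ▸ hp)
      by_cases hsl : p.2 ≤ l
      · have htn : p.1 ≤ n := (Finset.mem_Icc.1 hp1).2.trans hτ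
        refine (front_l1 h3 r K n l p.1 p.2 htn hsl ((comps p.1 p.2).filter (frontOK K L0))
          (fun e he => ?_) b hb0 (hb p.1 hp1 p.2 hp2 l hlL hsl) (F p) (fun Y => ?_)).trans ?_
        · rw [Finset.mem_filter] at he
          exact ⟨he.1, he.2.2.2⟩
        · rw [hF]
          simp only
          rw [c5_pairs d r htn hsl]
        · apply mul_le_mul_of_nonneg_left _ hb0
          apply Real.sqrt_le_sqrt
          apply div_le_div_of_nonneg_left (by positivity) (by positivity)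
          apply pow_le_pow_right₀ (by norm_num)
          have := (Finset.mem_Icc.1 hp2).1
          omega
      · have hz0 : F p = fun _ => 0 := by
          funext Y
          rw [hF]
          simp only
          rw [c5_empty d r (not_le.1 hsl), mul_zero]
        rw [hz0]
        simp only [pr, Finset.sum_const_zero, mul_zero, sub_zero, abs_zero]
        positivity
    have hFb1 : ∑ Y : ZMod (3 ^ (K + 1)), |Fb Y| = (1 / 2 : ℝ) ^ l *
          (((comps n l).filter fun e => ¬ good K τ L0 h e).card : ℝ) := by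
      have h1 : ∀ Y, |Fb Y| = Fb Y := by
        intro Y
        apply abs_of_nonneg
        rw [hFb]
        apply mul_nonneg (by positivity)
        apply Finset.sum_nonneg
        intro e _
        split_ifs <;> norm_num
      rw [Finset.sum_congr rfl (fun Y _ => h1 Y)]
      simp only [hFb]
      rw [← Finset.mul_sum, Finset.sum_comm, Finset.card_filter]
      push_cast
      congr 1
      apply Finset.sum_congr rfl
      intro e _
      by_cases hg : good K τ L0 h e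
      · simp [hg]
      · simp [hg]
    calc ∑ Y : ZMod (3 ^ (K + 1)), |pz d r (K + 1) n l Y - pr K (pz d r (K + 1) n l) Y|
        ≤ ∑ Y : ZMod (3 ^ (K + 1)), ((∑ p ∈ I, |F p Y - pr K (F p) Y|) + |Fb Y - pr K Fb Y|) := by
          apply Finset.sum_le_sum
          intro Y _
          rw [hdiff Y]
          exact (abs_add_le _ _).trans (add_le_add (Finset.abs_sum_le_sum_abs _ _) le_rfl)
      _ = (∑ p ∈ I, ∑ Y : ZMod (3 ^ (K + 1)), |F p Y - pr K (F p) Y|)
            + ∑ Y : ZMod (3 ^ (K + 1)), |Fb Y - pr K Fb Y| := by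
          rw [Finset.sum_add_distrib, Finset.sum_comm]
      _ ≤ (∑ p ∈ I, b * Real.sqrt (3 ^ (K + 1) / 2 ^ L0))
            + 2 * ∑ Y : ZMod (3 ^ (K + 1)), |Fb Y| :=
          add_le_add (Finset.sum_le_sum hFp) (l1_pr_le_two K Fb)
      _ = _ := by
          rw [hFb1, Finset.sum_const, nsmul_eq_mul, hI, Finset.card_product, Nat.card_Icc,
            Nat.card_Icc]
          have e1 : τ + 1 - 1 = τ := by omega
          have e2 : L0 + h + 1 - (L0 + 1) = h := by omega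
          rw [e1, e2]
          push_cast
          ring
  refine (Finset.sum_le_sum key).trans (le_of_eq ?_)
  rw [Finset.sum_add_distrib, Finset.sum_const, Finset.card_range, nsmul_eq_mul, ← Finset.mul_sum]
  push_cast
  ring

end Pool.Agent.Lib.MP_d0d59f_nt.AA

end

section

/-! Row C3 (about 180 lines): the characteristic function is at most `qq`. -/

namespace Pool.Agent.Lib.MP_d0d59f_nt.AA

open Finset

theorem norm_bh_le_one (d r : ℤ) (K n l : ℕ) (ξ : ZMod (3 ^ K)) : ‖bh d r K n l ξ‖ ≤ 1 := by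
  unfold bh
  rw [norm_mul, norm_pow]
  have h1 : ‖∑ e ∈ comps n l, ps K (ξ * hz d r K e)‖ ≤ 2 ^ l := by
    refine (norm_sum_le _ _).trans ?_
    simp only [norm_ps, sum_const, nsmul_eq_mul, mul_one]
    exact_mod_cast card_comps_le n l
  have h2 : ‖(1 / 2 : ℂ)‖ = 1 / 2 := by norm_num
  rw [h2]
  calc (1 / 2 : ℝ) ^ l * ‖∑ e ∈ comps n l, ps K (ξ * hz d r K e)‖
      ≤ (1 / 2 : ℝ) ^ l * 2 ^ l := mul_le_mul_of_nonneg_left h1 (by positivity)
    _ = 1 := by rw [← mul_pow]; norm_num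

/-- reindexing of pairs by their sum -/
theorem c3_reindex {M : Type*} [AddCommMonoid M] (l : ℕ) (F : ℕ → ℕ → M) :
    ∑ a1 ∈ Icc 1 l, ∑ a2 ∈ Icc 1 (l - a1), F a1 a2
      = ∑ b ∈ range (l + 1), ∑ a1 ∈ Icc 1 (b - 1), F a1 (b - a1) := by
  rw [sum_sigma', sum_sigma']
  refine sum_bij' (fun p _ => ⟨p.1 + p.2, p.1⟩) (fun q _ => ⟨q.2, q.1 - q.2⟩) ?_ ?_ ?_ ?_ ?_
  · rintro ⟨a1, a2⟩ h
    simp only [mem_sigma, mem_Icc, mem_range] at h ⊢
    omega
  · rintro ⟨b, a1⟩ h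
    simp only [mem_sigma, mem_Icc, mem_range] at h ⊢
    omega
  · rintro ⟨a1, a2⟩ h
    simp only [mem_sigma, mem_Icc] at h
    simp only [Nat.add_sub_cancel_left]
  · rintro ⟨b, a1⟩ h
    simp only [mem_sigma, mem_Icc, mem_range] at h
    have : a1 + (b - a1) = b := by omega
    simp only [this]
  · rintro ⟨a1, a2⟩ h
    simp only [Nat.add_sub_cancel_left]

theorem c3_hz_two (d r : ℤ) (K a1 a2 : ℕ) (e : List ℕ) (ξ : ZMod (3 ^ K)) :
    ξ * hz d r K (a1 :: a2 :: e)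
      = ξ * i2 K ^ a1 * d + (3 * ξ * i2 K ^ (a1 + a2) * d
        + 9 * i2 K ^ (a1 + a2) * ξ * hz d r K e) := by
  rw [hz_cons, hz_cons, pow_add]
  ring

theorem c3_expand (d r : ℤ) (K n l : ℕ) (ξ : ZMod (3 ^ K)) :
    bh d r K (n + 2) l ξ = ∑ b ∈ range (l + 1), ((1 / 2 : ℂ) ^ b
      * (∑ a1 ∈ Icc 1 (b - 1), ps K (ξ * i2 K ^ a1 * d))
      * ps K (3 * ξ * i2 K ^ b * d)) * bh d r K n (l - b) (9 * i2 K ^ b * ξ) := by
  unfold bh
  rw [show n + 2 = (n + 1) + 1 from rfl, sum_comps_succ]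
  have h1 : ∀ a1 ∈ Icc 1 l, ∑ e ∈ comps (n + 1) (l - a1), ps K (ξ * hz d r K (a1 :: e))
      = ∑ a2 ∈ Icc 1 (l - a1), ∑ e ∈ comps n (l - a1 - a2),
        ps K (ξ * hz d r K (a1 :: a2 :: e)) := fun a1 _ =>
    sum_comps_succ n (l - a1) fun e => ps K (ξ * hz d r K (a1 :: e))
  rw [sum_congr rfl h1,
    c3_reindex l fun a1 a2 => ∑ e ∈ comps n (l - a1 - a2), ps K (ξ * hz d r K (a1 :: a2 :: e)),
    mul_sum]
  refine sum_congr rfl fun b hb => ?_
  have hbl : b ≤ l := by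
    rw [mem_range] at hb
    omega
  rw [mul_sum, mul_sum, sum_mul, sum_mul]
  refine sum_congr rfl fun a1 ha1 => ?_
  rw [mem_Icc] at ha1
  have h2 : l - a1 - (b - a1) = l - b := by omega
  have h3 : a1 + (b - a1) = b := by omega
  have h4 : (1 / 2 : ℂ) ^ l = (1 / 2 : ℂ) ^ b * (1 / 2 : ℂ) ^ (l - b) := by
    rw [← pow_add]
    congr 1
    omega
  rw [h2, h4, mul_sum, mul_sum, mul_sum]
  refine sum_congr rfl fun e _ => ?_
  rw [c3_hz_two, h3, ps_add, ps_add]
  ring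

theorem c3_factor (d : ℤ) (K b : ℕ) (ξ : ZMod (3 ^ K)) :
    ‖(1 / 2 : ℂ) ^ b * (∑ a1 ∈ Icc 1 (b - 1), ps K (ξ * i2 K ^ a1 * d))
      * ps K (3 * ξ * i2 K ^ b * d)‖
      ≤ pw b * ff K b (i2 K ^ b * (2 * (d : ZMod (3 ^ K)) * ξ)) := by
  rw [norm_mul, norm_mul, norm_ps, mul_one, norm_pow]
  have h2 : ‖(1 / 2 : ℂ)‖ = 1 / 2 := by norm_num
  rw [h2]
  unfold pw ff
  by_cases hb : b = 3
  · subst hb
    rw [if_pos rfl]
    set w : ZMod (3 ^ K) := ξ * i2 K ^ 2 * d with hw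
    have hi : i2 K = 2 * i2 K ^ 2 := by
      rw [pow_two, ← mul_assoc, two_mul_i2, one_mul]
    have e1 : ξ * i2 K ^ 1 * (d : ZMod (3 ^ K)) = w + w := by
      rw [hw, pow_one]
      conv_lhs => rw [hi]
      ring
    have e2 : ∑ a1 ∈ Icc 1 (3 - 1), ps K (ξ * i2 K ^ a1 * d) = ps K w * (1 + ps K w) := by
      have : (Icc 1 (3 - 1) : Finset ℕ) = {1, 2} := by decide
      rw [this, sum_pair (by norm_num), e1, ps_add]
      ring
    have e3 : i2 K ^ 3 * (2 * (d : ZMod (3 ^ K)) * ξ) = w := by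
      rw [hw]
      calc i2 K ^ 3 * (2 * (d : ZMod (3 ^ K)) * ξ) = (2 * i2 K) * (i2 K ^ 2 * d * ξ) := by ring
        _ = ξ * i2 K ^ 2 * d := by rw [two_mul_i2]; ring
    rw [e2, e3, norm_mul, norm_ps, one_mul, norm_one_add_ps]
    norm_num
    linarith
  · rw [if_neg hb, mul_one, mul_comm]
    refine mul_le_mul_of_nonneg_right ?_ (by positivity)
    refine (norm_sum_le _ _).trans ?_
    simp only [norm_ps, sum_const, nsmul_eq_mul, mul_one, Nat.card_Icc]
    simp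

/-- Two steps. -/
theorem norm_bh_two (d r : ℤ) (K n l : ℕ) (ξ : ZMod (3 ^ K)) :
    ‖bh d r K (n + 2) l ξ‖ ≤ ∑ b ∈ range (l + 1),
      pw b * ff K b (i2 K ^ b * (2 * (d : ZMod (3 ^ K)) * ξ))
        * ‖bh d r K n (l - b) (9 * i2 K ^ b * ξ)‖ := by
  rw [c3_expand]
  refine (norm_sum_le _ _).trans (sum_le_sum fun b _ => ?_)
  rw [norm_mul]
  exact mul_le_mul_of_nonneg_right (c3_factor d K b ξ) (norm_nonneg _)

/-- Induction on `J` (generalizing `n l ξ`): `norm_bh_two`, the induction hypothesis with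
`2 d (9 i2^b ξ) = 9 (i2^b (2 d ξ))`, and `range (l+1) ⊆ range (L+1)`. -/
theorem norm_bh_le (d r : ℤ) (K L J n l : ℕ) (h2J : 2 * J ≤ n) (hl : l ≤ L) (ξ : ZMod (3 ^ K)) :
    ‖bh d r K n l ξ‖ ≤ qq K L J (2 * (d : ZMod (3 ^ K)) * ξ) := by
  induction J generalizing n l ξ with
  | zero => exact norm_bh_le_one d r K n l ξ
  | succ J ih =>
    obtain ⟨n', rfl⟩ : ∃ n', n = n' + 2 := ⟨n - 2, by omega⟩
    refine (norm_bh_two d r K n' l ξ).trans ?_
    change _ ≤ ∑ b ∈ range (L + 1),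
      pw b * ff K b (i2 K ^ b * (2 * (d : ZMod (3 ^ K)) * ξ))
        * qq K L J (9 * (i2 K ^ b * (2 * (d : ZMod (3 ^ K)) * ξ)))
    have h1 : ∀ b ∈ range (l + 1), pw b * ff K b (i2 K ^ b * (2 * (d : ZMod (3 ^ K)) * ξ))
        * ‖bh d r K n' (l - b) (9 * i2 K ^ b * ξ)‖
        ≤ pw b * ff K b (i2 K ^ b * (2 * (d : ZMod (3 ^ K)) * ξ))
        * qq K L J (9 * (i2 K ^ b * (2 * (d : ZMod (3 ^ K)) * ξ))) := by
      intro b _
      refine mul_le_mul_of_nonneg_left ?_ (mul_nonneg (pw_nonneg b) (ff_nonneg _ _ _))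
      have := ih n' (l - b) (by omega) (by omega) (9 * i2 K ^ b * ξ)
      have e1 : 2 * (d : ZMod (3 ^ K)) * (9 * i2 K ^ b * ξ)
          = 9 * (i2 K ^ b * (2 * (d : ZMod (3 ^ K)) * ξ)) := by ring
      rwa [e1] at this
    refine (sum_le_sum h1).trans ?_
    refine sum_le_sum_of_subset_of_nonneg ?_ fun b _ _ => ?_
    · intro b hb
      rw [mem_range] at hb ⊢
      omega
    · exact mul_nonneg (mul_nonneg (pw_nonneg b) (ff_nonneg _ _ _)) (qq_nonneg _ _ _ _)

end Pool.Agent.Lib.MP_d0d59f_nt.AA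

end
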