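import Mathlib
import Pool.Agent.Lib.MP_d0d59f_nt.NK.K005

section

/-! Row A5 (about 120 lines): three explicit tail bounds. -/

namespace Pool.Agent.Lib.MP_d0d59f_nt.AA

open Finset

/-- lower tails -/
theorem a5_low (n L0 : ℕ) (x : ℝ) (hx0 : 0 < x) (hx1 : x ≤ 1) :
    ∑ s ∈ range (L0 + 1), nb n s ≤ (x⁻¹) ^ L0 * (x / (2 - x)) ^ n := by
  have h1 : ∑ s ∈ range (L0 + 1), nb n s ≤
      (x⁻¹) ^ L0 * ∑ s ∈ range (L0 + 1), nb n s * x ^ s := by
    rw [Finset.mul_sum]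
    refine Finset.sum_le_sum fun s hs => ?_
    have hs' : s ≤ L0 := Nat.lt_succ_iff.1 (Finset.mem_range.1 hs)
    have h2 : 1 ≤ (x⁻¹) ^ L0 * x ^ s := by
      have h3 : (x⁻¹) ^ L0 * x ^ L0 = 1 := by
        rw [← mul_pow, inv_mul_cancel₀ hx0.ne', one_pow]
      calc (1 : ℝ) = (x⁻¹) ^ L0 * x ^ L0 := h3.symm
        _ ≤ (x⁻¹) ^ L0 * x ^ s :=
          mul_le_mul_of_nonneg_left (pow_le_pow_of_le_one hx0.le hx1 hs') (by positivity)
    calc nb n s = nb n s * 1 := (mul_one _).symm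
      _ ≤ nb n s * ((x⁻¹) ^ L0 * x ^ s) := mul_le_mul_of_nonneg_left h2 (nb_nonneg n s)
      _ = (x⁻¹) ^ L0 * (nb n s * x ^ s) := by ring
  exact h1.trans (mul_le_mul_of_nonneg_left (sum_nb_mul_pow_le n L0 x hx0 (by linarith))
    (by positivity))

/-- `1 - ∑_{19k ≤ l ≤ 21k} nb = (1 - ∑_{l ≤ 21k} nb) + ∑_{l < 19k} nb`.
First part: `one_sub_sum_nb_le` with `x = 22/21`, `x/(2-x) = 11/10`: `≤ (21/22)^{21k+1} (11/10)^{10k}
≤ ((21/22)^21 (11/10)^10)^k ≤ 0.98^k` (`(21/22)^21 (11/10)^10 = 0.9765`, `norm_num`).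
Second part: for `l ≤ 19k` one has `1 ≤ (18/19)^l (19/18)^{19k}`, so by `sum_nb_mul_pow_le` with `x = 18/19`,
`x/(2-x) = 9/10`, it is `≤ (19/18)^{19k} (9/10)^{10k} = ((19/18)^19 (9/10)^10)^k ≤ 0.98^k`
(`(19/18)^19 (9/10)^10 = 0.9741`). For `k = 0` the left side is `0`. -/
theorem tail_bound (k : ℕ) :
    1 - ∑ l ∈ Icc (19 * k) (21 * k), nb (10 * k) l ≤ 2 * (0.98 : ℝ) ^ k := by
  have h1 : ∑ l ∈ range (21 * k + 1), nb (10 * k) l =
      ∑ l ∈ range (19 * k), nb (10 * k) l + ∑ l ∈ Icc (19 * k) (21 * k), nb (10 * k) l := by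
    have h := Finset.sum_range_add_sum_Ico (fun l => nb (10 * k) l)
      (show 19 * k ≤ 21 * k + 1 by omega)
    rw [← h]
    congr 1
  have h2 : ∑ l ∈ range (19 * k), nb (10 * k) l ≤ (0.98 : ℝ) ^ k := by
    calc ∑ l ∈ range (19 * k), nb (10 * k) l ≤ ∑ l ∈ range (19 * k + 1), nb (10 * k) l := by
          rw [Finset.sum_range_succ]
          have := nb_nonneg (10 * k) (19 * k)
          linarith
      _ ≤ ((18 / 19 : ℝ)⁻¹) ^ (19 * k) * ((18 / 19 : ℝ) / (2 - 18 / 19)) ^ (10 * k) :=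
          a5_low (10 * k) (19 * k) (18 / 19) (by norm_num) (by norm_num)
      _ = (((18 / 19 : ℝ)⁻¹) ^ 19 * ((18 / 19 : ℝ) / (2 - 18 / 19)) ^ 10) ^ k := by
          rw [pow_mul, pow_mul, ← mul_pow]
      _ ≤ (0.98 : ℝ) ^ k := pow_le_pow_left₀ (by positivity) (by norm_num) k
  have h3 : 1 - ∑ l ∈ range (21 * k + 1), nb (10 * k) l ≤ (0.98 : ℝ) ^ k := by
    calc 1 - ∑ l ∈ range (21 * k + 1), nb (10 * k) l
        ≤ ((22 / 21 : ℝ)⁻¹) ^ (21 * k + 1) * ((22 / 21 : ℝ) / (2 - 22 / 21)) ^ (10 * k) :=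
          one_sub_sum_nb_le (10 * k) (21 * k) (22 / 21) (by norm_num) (by norm_num)
      _ ≤ ((22 / 21 : ℝ)⁻¹) ^ (21 * k) * ((22 / 21 : ℝ) / (2 - 22 / 21)) ^ (10 * k) := by
          refine mul_le_mul_of_nonneg_right ?_ (by positivity)
          exact pow_le_pow_of_le_one (by norm_num) (by norm_num) (Nat.le_succ _)
      _ = (((22 / 21 : ℝ)⁻¹) ^ 21 * ((22 / 21 : ℝ) / (2 - 22 / 21)) ^ 10) ^ k := by
          rw [pow_mul, pow_mul, ← mul_pow]
      _ ≤ (0.98 : ℝ) ^ k := pow_le_pow_left₀ (by positivity) (by norm_num) k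
  linarith

/-- `x = 6/7`, `x/(2-x) = 3/4`. -/
theorem low_tail1 (n L0 : ℕ) :
    ∑ s ∈ range (L0 + 1), nb n s ≤ (7 / 6 : ℝ) ^ L0 * (3 / 4) ^ n := by
  have h := a5_low n L0 (6 / 7) (by norm_num) (by norm_num)
  have h1 : ((6 / 7 : ℝ)⁻¹) = 7 / 6 := by norm_num
  have h2 : ((6 / 7 : ℝ) / (2 - 6 / 7)) = 3 / 4 := by norm_num
  rw [h1, h2] at h
  exact h

/-- `x = 4/5`, `x/(2-x) = 2/3`. -/
theorem low_tail2 (n D : ℕ) :
    ∑ s ∈ range (D + 1), nb n s ≤ (5 / 4 : ℝ) ^ D * (2 / 3) ^ n := by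
  have h := a5_low n D (4 / 5) (by norm_num) (by norm_num)
  have h1 : ((4 / 5 : ℝ)⁻¹) = 5 / 4 := by norm_num
  have h2 : ((4 / 5 : ℝ) / (2 - 4 / 5)) = 2 / 3 := by norm_num
  rw [h1, h2] at h
  exact h

end Pool.Agent.Lib.MP_d0d59f_nt.AA

end

section

/-! Row C6 (about 250 lines): the mass of the bad words. -/

namespace Pool.Agent.Lib.MP_d0d59f_nt.AA

open Finset

theorem c6_exch (L : ℕ) (F : ℕ → ℕ → ℝ) :
    ∑ l ∈ range (L + 1), ∑ a ∈ Icc 1 l, F a (l - a) =
      ∑ a ∈ Icc 1 L, ∑ m ∈ range (L - a + 1), F a m := by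
  rw [Finset.sum_sigma', Finset.sum_sigma']
  refine Finset.sum_bij' (fun p _ => ⟨p.2, p.1 - p.2⟩) (fun p _ => ⟨p.1 + p.2, p.1⟩) ?_ ?_ ?_ ?_ ?_
  · rintro ⟨l, a⟩ h
    simp only [mem_sigma, mem_range, mem_Icc] at h ⊢
    omega
  · rintro ⟨a, m⟩ h
    simp only [mem_sigma, mem_range, mem_Icc] at h ⊢
    omega
  · rintro ⟨l, a⟩ h
    simp only [mem_sigma, mem_range, mem_Icc] at h
    have : a + (l - a) = l := by omega
    simp only [this]
  · rintro ⟨a, m⟩ h
    have : a + m - a = m := by omega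
    simp only [this]
  · rintro ⟨l, a⟩ h
    rfl

theorem c6_geom (L : ℕ) : ∑ a ∈ Icc 1 L, (1 / 2 : ℝ) ^ a = 1 - (1 / 2) ^ L := by
  induction L with
  | zero => simp
  | succ L ih =>
    rw [Finset.sum_Icc_succ_top (by omega), ih, pow_succ]
    ring

theorem c6_geom2 (h L : ℕ) :
    ∑ a ∈ Icc 1 L, (1 / 2 : ℝ) ^ a * (if h < a then 1 else 0) ≤ (1 / 2) ^ h := by
  have h1 : ∑ a ∈ Icc 1 L, (1 / 2 : ℝ) ^ a * (if h < a then 1 else 0) =
      if h ≤ L then (1 / 2) ^ h - (1 / 2) ^ L else 0 := by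
    induction L with
    | zero =>
      rcases Nat.eq_zero_or_pos h with rfl | hh
      · simp
      · rw [if_neg (by omega)]; simp
    | succ L ih =>
      rw [Finset.sum_Icc_succ_top (by omega), ih]
      rcases lt_trichotomy h (L + 1) with hh | hh | hh
      · rw [if_pos (by omega), if_pos hh, if_pos (by omega), pow_succ]
        ring
      · subst hh
        rw [if_neg (by omega), if_neg (by omega), if_pos le_rfl]
        ring
      · rw [if_neg (by omega), if_neg (by omega), if_neg (by omega)]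
        ring
  rw [h1]
  split
  · have : (0 : ℝ) ≤ (1 / 2) ^ L := by positivity
    linarith
  · positivity

/-- splitting off the head (last step) -/
theorem c6_head (n L : ℕ) (P : List ℕ → Prop) [DecidablePred P] :
    ∑ l ∈ range (L + 1), (1 / 2 : ℝ) ^ l * (((comps (n + 1) l).filter P).card : ℝ) =
      ∑ a ∈ Icc 1 L, (1 / 2 : ℝ) ^ a * ∑ m ∈ range (L - a + 1), (1 / 2 : ℝ) ^ m *
        (((comps n m).filter fun e => P (a :: e)).card : ℝ) := by
  have h1 : ∀ a ∈ Icc 1 L, (1 / 2 : ℝ) ^ a * ∑ m ∈ range (L - a + 1), (1 / 2 : ℝ) ^ m *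
        (((comps n m).filter fun e => P (a :: e)).card : ℝ) =
      ∑ m ∈ range (L - a + 1), (1 / 2 : ℝ) ^ a * ((1 / 2 : ℝ) ^ m *
        (((comps n m).filter fun e => P (a :: e)).card : ℝ)) := fun a _ => by rw [Finset.mul_sum]
  rw [Finset.sum_congr rfl h1, ← c6_exch L (fun a m => (1 / 2 : ℝ) ^ a * ((1 / 2 : ℝ) ^ m *
        (((comps n m).filter fun e => P (a :: e)).card : ℝ)))]
  refine Finset.sum_congr rfl fun l _ => ?_
  rw [Finset.card_filter, Nat.cast_sum, sum_comps_succ, Finset.mul_sum]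
  refine Finset.sum_congr rfl fun a ha => ?_
  rw [mem_Icc] at ha
  rw [Finset.card_filter, Nat.cast_sum, ← mul_assoc, ← pow_add]
  congr 2
  omega

/-- Entry `t+1` (index `t`) larger than `h`: by `marginal_le` (with `t+1`) the mass is at most
`∑_{s ≤ L} 2^{-s} #{e1 ∈ comps (t+1) s : h < last entry}`, and splitting `comps (t+1) s` by `sum_comps_add`
(`t` and `1`) this is at most `∑_{s'} nb t s' ∑_{a > h} 2^{-a} ≤ 2^{-h}`. -/
theorem mass_entry (n t h L : ℕ) (ht : t < n) :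
    ∑ l ∈ range (L + 1), (1 / 2 : ℝ) ^ l *
      (((comps n l).filter fun e => h < e.getD t 0).card : ℝ) ≤ 1 / 2 ^ h := by
  obtain ⟨n, rfl⟩ : ∃ m, n = m + 1 := ⟨n - 1, by omega⟩
  induction t generalizing n L with
  | zero =>
    rw [c6_head n L (fun e => h < e.getD 0 0)]
    calc _ ≤ ∑ a ∈ Icc 1 L, (1 / 2 : ℝ) ^ a * (if h < a then 1 else 0) := by
          refine Finset.sum_le_sum fun a _ => ?_
          refine mul_le_mul_of_nonneg_left ?_ (by positivity)
          by_cases ha : h < a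
          · rw [if_pos ha]
            have h2 := sum_nb_le_one n (L - a)
            refine le_trans (Finset.sum_le_sum fun m _ => ?_) h2
            unfold nb
            refine mul_le_mul_of_nonneg_left ?_ (by positivity)
            exact_mod_cast Finset.card_filter_le _ _
          · rw [if_neg ha]
            refine le_of_eq (Finset.sum_eq_zero fun m _ => ?_)
            rw [Finset.filter_false_of_mem]
            · simp
            · intro e _
              simpa using ha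
      _ ≤ (1 / 2) ^ h := c6_geom2 h L
      _ = 1 / 2 ^ h := by rw [div_pow, one_pow]
  | succ t ih =>
    obtain ⟨n, rfl⟩ : ∃ m, n = m + 1 := ⟨n - 1, by omega⟩
    rw [c6_head (n + 1) L (fun e => h < e.getD (t + 1) 0)]
    calc _ ≤ ∑ a ∈ Icc 1 L, (1 / 2 : ℝ) ^ a * (1 / 2 ^ h) := by
          refine Finset.sum_le_sum fun a _ => ?_
          refine mul_le_mul_of_nonneg_left ?_ (by positivity)
          exact ih (L - a) n (by omega)
      _ = (1 - (1 / 2) ^ L) * (1 / 2 ^ h) := by rw [← Finset.sum_mul, c6_geom]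
      _ ≤ 1 * (1 / 2 ^ h) := by
          refine mul_le_mul_of_nonneg_right ?_ (by positivity)
          have : (0 : ℝ) ≤ (1 / 2) ^ L := by positivity
          linarith
      _ = 1 / 2 ^ h := one_mul _

/-- the marginal inequality for the mass of a property of the prefix -/
theorem c6_marg (n t L : ℕ) (ht : t ≤ n) (P : List ℕ → Prop) [DecidablePred P] :
    ∑ l ∈ range (L + 1), (1 / 2 : ℝ) ^ l *
      (((comps n l).filter fun e => P (e.take t)).card : ℝ) ≤
    ∑ s ∈ range (L + 1), (1 / 2 : ℝ) ^ s * ∑ e1 ∈ comps t s, (if P e1 then (1 : ℝ) else 0) := by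
  obtain ⟨m, rfl⟩ : ∃ m, n = t + m := ⟨n - t, by omega⟩
  have h := marginal_le t m L (fun e => if P e then (1 : ℝ) else 0)
    (fun e => by split <;> norm_num)
  refine le_trans (le_of_eq (Finset.sum_congr rfl fun l _ => ?_)) h
  rw [Finset.card_filter, Nat.cast_sum]
  congr 1
  refine Finset.sum_congr rfl fun e _ => ?_
  split <;> simp

/-- Markov: by `marginal_le` and `cc_moment`; for a prefix `e1 ∈ comps t s` with `s ≤ S`, `2^S M0 ≤ cc e1`:
`1 ≤ cc e1 2^{-s}/M0`. -/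
theorem mass_cc (n t S M0 L : ℕ) (ht : t ≤ n) (hM0 : 1 ≤ M0) :
    ∑ l ∈ range (L + 1), (1 / 2 : ℝ) ^ l *
      (((comps n l).filter fun e => (e.take t).sum ≤ S ∧ 2 ^ S * M0 ≤ cc (e.take t)).card : ℝ) ≤
      (t : ℝ) / (3 * M0) := by
  have hM : (0 : ℝ) < M0 := by exact_mod_cast hM0
  refine (c6_marg n t L ht (fun e => e.sum ≤ S ∧ 2 ^ S * M0 ≤ cc e)).trans ?_
  calc _ ≤ ∑ s ∈ range (L + 1), (1 / (M0 : ℝ)) *
          ∑ e1 ∈ comps t s, (1 / 2 : ℝ) ^ s * ((cc e1 : ℝ) * (1 / 2) ^ s) := by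
        refine Finset.sum_le_sum fun s _ => ?_
        rw [Finset.mul_sum, Finset.mul_sum]
        refine Finset.sum_le_sum fun e he => ?_
        obtain ⟨h1, h2, h3⟩ := mem_comps.1 he
        split
        · rename_i hc
          obtain ⟨hc1, hc2⟩ := hc
          rw [h2] at hc1
          have h4 : (2 : ℝ) ^ s * M0 ≤ cc e := by
            have h5 : 2 ^ s * M0 ≤ cc e :=
              le_trans (Nat.mul_le_mul_right _ (Nat.pow_le_pow_right (by norm_num) hc1)) hc2
            exact_mod_cast h5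
          have h6 : (1 : ℝ) ≤ 1 / M0 * (cc e * (1 / 2) ^ s) := by
            rw [div_pow, one_pow, mul_one_div, one_div_mul_eq_div, div_div, le_div_iff₀ (by positivity),
              one_mul]
            exact h4
          calc (1 / 2 : ℝ) ^ s * 1 ≤ (1 / 2 : ℝ) ^ s * (1 / M0 * (cc e * (1 / 2) ^ s)) :=
                mul_le_mul_of_nonneg_left h6 (by positivity)
            _ = _ := by ring
        · rw [mul_zero]
          positivity
    _ = (1 / (M0 : ℝ)) * ∑ s ∈ range (L + 1),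
          ∑ e1 ∈ comps t s, (1 / 2 : ℝ) ^ s * ((cc e1 : ℝ) * (1 / 2) ^ s) := by
        rw [Finset.mul_sum]
    _ ≤ (1 / (M0 : ℝ)) * (t / 3) := mul_le_mul_of_nonneg_left (cc_moment t L) (by positivity)
    _ = (t : ℝ) / (3 * M0) := by
        field_simp

/-- a bad word -/
theorem c6_bad {n K τ L0 h l M0 : ℕ} (hτ : τ ≤ n) (hM : 2 ^ (L0 + h) * M0 ≤ 3 ^ (K + 1))
    {e : List ℕ} (he : e ∈ comps n l) (hg : ¬ good K τ L0 h e) :
    (e.take τ).sum ≤ L0 ∨ (∃ t ∈ range τ, h < e.getD t 0) ∨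
      ∃ t ∈ Icc 1 τ, (e.take t).sum ≤ L0 + h ∧ 2 ^ (L0 + h) * M0 ≤ cc (e.take t) := by
  by_contra hcon
  push Not at hcon
  obtain ⟨h1, h2, h3⟩ := hcon
  obtain ⟨hl, -, -⟩ := mem_comps.1 he
  classical
  have hex : ∃ t, L0 < (e.take t).sum := ⟨τ, h1⟩
  set t := Nat.find hex with ht
  have ht1 : L0 < (e.take t).sum := Nat.find_spec hex
  have htτ : t ≤ τ := Nat.find_min' hex h1
  have ht0 : 1 ≤ t := by
    rcases Nat.eq_zero_or_pos t with h0 | h0
    · rw [h0] at ht1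
      simp at ht1
    · exact h0
  have ht2 : (e.take (t - 1)).sum ≤ L0 := by
    have := Nat.find_min hex (m := t - 1) (by omega)
    omega
  have hlen : t - 1 < e.length := by omega
  have htake : e.take t = e.take (t - 1) ++ [e.getD (t - 1) 0] := by
    have h4 : t = t - 1 + 1 := by omega
    conv_lhs => rw [h4]
    rw [List.take_add_one, List.getD_eq_getElem?_getD, List.getElem?_eq_getElem hlen]
    simp
  have hsum : (e.take t).sum = (e.take (t - 1)).sum + e.getD (t - 1) 0 := by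
    rw [htake, List.sum_append]
    simp
  have h5 := h2 (t - 1) (by rw [mem_range]; omega)
  have h6 : (e.take t).sum ≤ L0 + h := by omega
  have h7 := h3 t (mem_Icc.2 ⟨ht0, htτ⟩) h6
  refine hg ⟨t, mem_Icc.2 ⟨ht0, htτ⟩, h6, ht1, ?_, lt_of_lt_of_le h7 hM⟩
  rw [htake, List.dropLast_concat]
  exact ht2

/-- If `(e.take τ).sum > L0` let `t` be minimal with `(e.take t).sum > L0`; `1 ≤ t ≤ τ`,
`(e.take t).dropLast = e.take (t-1)` has sum `≤ L0`; if its last entry is `≤ h` the sum is `≤ L0 + h`; if moreover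
`cc (e.take t) < 3^(K+1)` then `e` is good. So a bad word has `(e.take τ).sum ≤ L0` (mass
`≤ ∑_{s≤L0} nb τ s ≤ (7/6)^L0 (3/4)^τ` by `marginal_le` and `low_tail1`), or an entry `> h` among the first `τ`
(`≤ τ/2^h`), or `cc (e.take t) ≥ 3^(K+1) ≥ 2^{L0+h} M0`, `(e.take t).sum ≤ L0 + h` for some `t ≤ τ` (`≤ τ · τ/(3 M0)`). -/
theorem bad_mass (n K τ L0 h L M0 : ℕ) (hτ : τ ≤ n) (hM0 : 1 ≤ M0)
    (hM : 2 ^ (L0 + h) * M0 ≤ 3 ^ (K + 1)) :
    ∑ l ∈ range (L + 1), (1 / 2 : ℝ) ^ l *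
      (((comps n l).filter fun e => ¬ good K τ L0 h e).card : ℝ) ≤
      (7 / 6 : ℝ) ^ L0 * (3 / 4) ^ τ + τ / 2 ^ h + (τ : ℝ) ^ 2 / M0 := by
  classical
  have hMp : (0 : ℝ) < M0 := by exact_mod_cast hM0
  -- union bound
  have hcard : ∀ l, (((comps n l).filter fun e => ¬ good K τ L0 h e).card : ℝ) ≤
      (((comps n l).filter fun e => (e.take τ).sum ≤ L0).card : ℝ) +
      ∑ t ∈ range τ, (((comps n l).filter fun e => h < e.getD t 0).card : ℝ) +
      ∑ t ∈ Icc 1 τ, (((comps n l).filter fun e => (e.take t).sum ≤ L0 + h ∧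
        2 ^ (L0 + h) * M0 ≤ cc (e.take t)).card : ℝ) := by
    intro l
    have hsub : ((comps n l).filter fun e => ¬ good K τ L0 h e) ⊆
        (((comps n l).filter fun e => (e.take τ).sum ≤ L0) ∪
        (range τ).biUnion fun t => (comps n l).filter fun e => h < e.getD t 0) ∪
        (Icc 1 τ).biUnion fun t => (comps n l).filter fun e => (e.take t).sum ≤ L0 + h ∧
        2 ^ (L0 + h) * M0 ≤ cc (e.take t) := by
      intro e he
      rw [Finset.mem_filter] at he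
      rcases c6_bad hτ hM he.1 he.2 with h1 | ⟨t, ht, h1⟩ | ⟨t, ht, h1⟩
      · exact Finset.mem_union_left _ (Finset.mem_union_left _ (Finset.mem_filter.2 ⟨he.1, h1⟩))
      · exact Finset.mem_union_left _ (Finset.mem_union_right _
          (Finset.mem_biUnion.2 ⟨t, ht, Finset.mem_filter.2 ⟨he.1, h1⟩⟩))
      · exact Finset.mem_union_right _
          (Finset.mem_biUnion.2 ⟨t, ht, Finset.mem_filter.2 ⟨he.1, h1⟩⟩)
    have h1 := (Finset.card_le_card hsub).trans ((Finset.card_union_le _ _).trans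
      (add_le_add ((Finset.card_union_le _ _).trans (add_le_add le_rfl Finset.card_biUnion_le))
        Finset.card_biUnion_le))
    exact_mod_cast h1
  have hA : ∑ l ∈ range (L + 1), (1 / 2 : ℝ) ^ l *
      (((comps n l).filter fun e => (e.take τ).sum ≤ L0).card : ℝ) ≤
      (7 / 6 : ℝ) ^ L0 * (3 / 4) ^ τ := by
    refine (c6_marg n τ L hτ (fun e => e.sum ≤ L0)).trans ?_
    refine le_trans ?_ (low_tail1 τ L0)
    have h1 : ∀ s, (1 / 2 : ℝ) ^ s * ∑ e1 ∈ comps τ s, (if e1.sum ≤ L0 then (1 : ℝ) else 0) =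
        if s ≤ L0 then nb τ s else 0 := by
      intro s
      have h2 : ∑ e1 ∈ comps τ s, (if e1.sum ≤ L0 then (1 : ℝ) else 0) =
          ∑ e1 ∈ comps τ s, (if s ≤ L0 then (1 : ℝ) else 0) := by
        refine Finset.sum_congr rfl fun e he => ?_
        rw [(mem_comps.1 he).2.1]
      rw [h2, Finset.sum_const, nsmul_eq_mul]
      unfold nb
      split <;> ring
    rw [Finset.sum_congr rfl fun s _ => h1 s, ← Finset.sum_filter]
    refine Finset.sum_le_sum_of_subset_of_nonneg ?_ (fun i _ _ => nb_nonneg _ _)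
    intro s hs
    rw [Finset.mem_filter] at hs
    rw [mem_range]
    omega
  have hB : ∀ t ∈ range τ, ∑ l ∈ range (L + 1), (1 / 2 : ℝ) ^ l *
      (((comps n l).filter fun e => h < e.getD t 0).card : ℝ) ≤ 1 / 2 ^ h := fun t ht =>
    mass_entry n t h L (by rw [mem_range] at ht; omega)
  have hC : ∀ t ∈ Icc 1 τ, ∑ l ∈ range (L + 1), (1 / 2 : ℝ) ^ l *
      (((comps n l).filter fun e => (e.take t).sum ≤ L0 + h ∧
        2 ^ (L0 + h) * M0 ≤ cc (e.take t)).card : ℝ) ≤ (τ : ℝ) / M0 := fun t ht => by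
    rw [mem_Icc] at ht
    refine (mass_cc n t (L0 + h) M0 L (by omega) hM0).trans ?_
    have h1 : (t : ℝ) ≤ τ := by exact_mod_cast ht.2
    have h2 : (0 : ℝ) ≤ t := Nat.cast_nonneg _
    rw [div_le_div_iff₀ (by positivity) hMp]
    nlinarith [mul_nonneg h2 hMp.le]
  calc _ ≤ ∑ l ∈ range (L + 1), (1 / 2 : ℝ) ^ l *
        ((((comps n l).filter fun e => (e.take τ).sum ≤ L0).card : ℝ) +
        ∑ t ∈ range τ, (((comps n l).filter fun e => h < e.getD t 0).card : ℝ) +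
        ∑ t ∈ Icc 1 τ, (((comps n l).filter fun e => (e.take t).sum ≤ L0 + h ∧
        2 ^ (L0 + h) * M0 ≤ cc (e.take t)).card : ℝ)) :=
        Finset.sum_le_sum fun l _ => mul_le_mul_of_nonneg_left (hcard l) (by positivity)
    _ = ∑ l ∈ range (L + 1), (1 / 2 : ℝ) ^ l *
        (((comps n l).filter fun e => (e.take τ).sum ≤ L0).card : ℝ) +
        ∑ t ∈ range τ, ∑ l ∈ range (L + 1), (1 / 2 : ℝ) ^ l *
          (((comps n l).filter fun e => h < e.getD t 0).card : ℝ) +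
        ∑ t ∈ Icc 1 τ, ∑ l ∈ range (L + 1), (1 / 2 : ℝ) ^ l *
          (((comps n l).filter fun e => (e.take t).sum ≤ L0 + h ∧
          2 ^ (L0 + h) * M0 ≤ cc (e.take t)).card : ℝ) := by
        rw [Finset.sum_comm (s := range τ), Finset.sum_comm (s := Icc 1 τ),
          ← Finset.sum_add_distrib, ← Finset.sum_add_distrib]
        refine Finset.sum_congr rfl fun l _ => ?_
        rw [mul_add, mul_add, Finset.mul_sum, Finset.mul_sum]
    _ ≤ (7 / 6 : ℝ) ^ L0 * (3 / 4) ^ τ + ∑ t ∈ range τ, (1 / 2 ^ h : ℝ) +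
        ∑ t ∈ Icc 1 τ, (τ : ℝ) / M0 :=
        add_le_add (add_le_add hA (Finset.sum_le_sum hB)) (Finset.sum_le_sum hC)
    _ = _ := by
        rw [Finset.sum_const, Finset.sum_const, card_range, Nat.card_Icc, nsmul_eq_mul,
          nsmul_eq_mul, Nat.add_sub_cancel]
        ring

end Pool.Agent.Lib.MP_d0d59f_nt.AA

end
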