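import Mathlib
import Pool.Agent.Lib.MP_d0d59f_nt.NK.K003
import Pool.Agent.Lib.MP_d0d59f_nt.NK.K004

section

/-!
Positive lower density of the predecessor sets of `T_d`: definitions.

Words are lists of natural numbers `≥ 1`; the HEAD is the first step DOWN from the root of the inverse tree.
-/

namespace Pool.Agent.Lib.MP_d0d59f_nt.PD

open Finset

/-- The word `α` has integer nodes at the root `x` (map `3x+1`); the last node may be divisible by `3`. -/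
def vd (α : List ℕ) (x : ℤ) : Prop := (3 : ℤ) ^ α.length ∣ 2 ^ α.sum * x - (AA.cc α : ℤ)

/-- End node of the word `α` at the root `x`. -/
def nd (α : List ℕ) (x : ℤ) : ℤ := (2 ^ α.sum * x - (AA.cc α : ℤ)) / 3 ^ α.length

/-- Weight `3^n / 2^{|α|}` of a word of length `n`. -/
noncomputable def wt (α : List ℕ) : ℝ := 3 ^ α.length / 2 ^ α.sum

/-- The barrier. -/
def bar (α : List ℕ) : Prop :=
  ∀ i ≤ α.length, 5 * i ≤ 3 * (α.take i).sum + 100 ∧ (α.take i).sum ≤ 3 * i + 100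

/-- Words of length `n` with entries `≥ 1` and sum `≤ L`. -/
def Wd (n L : ℕ) : Finset (List ℕ) := (range (L + 1)).biUnion fun l => AA.comps n l

open Classical in
/-- Words of length `n` in the barrier. -/
noncomputable def Rn (n : ℕ) : Finset (List ℕ) := (Wd n (3 * n + 100)).filter bar

open Classical in
/-- Weighted sum over the barrier words of length `n` with integer nodes at `x`. -/
noncomputable def EE (n : ℕ) (f : List ℕ → ℤ → ℝ) (x : ℤ) : ℝ :=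
  ∑ α ∈ Rn n, if vd α x then wt α * f α (nd α x) else 0

/-- Some prefix of length `j ∈ (s, k]` deviates. -/
def bad (s k : ℕ) (γ : List ℕ) : Prop :=
  ∃ j, s < j ∧ j ≤ k ∧ (3 * (γ.take j).sum < 5 * j ∨ 3 * j < (γ.take j).sum)

open Classical in
/-- Weight of the bad words of length `k` at `z`. -/
noncomputable def Vb (s k L : ℕ) (z : ℤ) : ℝ :=
  ∑ γ ∈ Wd k L, if vd γ z ∧ bad s k γ then wt γ else 0

/-- The oscillation function: `∑_r ∑_l |w_{m,l,r}(z) - w_{m,l}(z)/3|`. -/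
noncomputable def hm (m L : ℕ) (z : ℤ) : ℝ :=
  3 ^ m * ∑ r ∈ range 3, ∑ l ∈ range (L + 1),
    |AA.pz 1 (r : ℤ) (m + 1) m l (z : ZMod (3 ^ (m + 1)))
      - (3 : ℝ) ^ m / 3 ^ (m + 1) * AA.pz 1 (r : ℤ) m m l (z : ZMod (3 ^ m))|

/-- The curve `⌊log₂ (M 3^n)⌋`. -/
def lev (M n : ℕ) : ℕ := Nat.log 2 (M * 3 ^ n)

/-- The test function: half below the curve, one on the curve, zero above. -/
noncomputable def VV (M n j : ℕ) : ℝ := if j < lev M n then 1 / 2 else if j = lev M n then 1 else 0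

/-- The increment of the test function at a node `z` of valuation `j`. -/
noncomputable def DD (M A n j : ℕ) (z : ℤ) : ℝ :=
  ∑ a ∈ Icc 1 A, ((if (3 : ℤ) ∣ 2 ^ a * z - 1 then 3 else 0) - 1) * (1 / 2) ^ a * VV M (n + 1) (j + a)

open Classical in
/-- Weight of the barrier words of length `n` with valuation exactly on the curve. -/
noncomputable def hit (M n : ℕ) (x : ℤ) : ℝ :=
  ∑ α ∈ Rn n, if vd α x ∧ α.sum = lev M n then wt α else 0

/-- Past hits plus expected future. -/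
noncomputable def TT (M n : ℕ) (x : ℤ) : ℝ :=
  ∑ i ∈ range n, hit M i x + EE n (fun α _ => VV M n α.sum) x

end Pool.Agent.Lib.MP_d0d59f_nt.PD

end

section

/-! Row pd-P16a. -/

namespace Pool.Agent.Lib.MP_d0d59f_nt.PD

open Finset

theorem VV_nonneg (M n j : ℕ) : 0 ≤ VV M n j := by
  unfold VV
  split_ifs <;> norm_num

theorem VV_le_one (M n j : ℕ) : VV M n j ≤ 1 := by
  unfold VV
  split_ifs <;> norm_num

/-- `2 (M 3^n) ≤ M 3^(n+1)`, `Nat.log_mul_base`, `Nat.log_mono_right`. -/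
theorem lev_succ {M : ℕ} (hM : 1 ≤ M) (n : ℕ) : lev M n + 1 ≤ lev M (n + 1) := by
  unfold lev
  have h1 : M * 3 ^ n ≠ 0 := by positivity
  rw [← Nat.log_mul_base (by norm_num : 1 < 2) h1]
  refine Nat.log_mono_right ?_
  rw [pow_succ, ← mul_assoc]
  exact Nat.mul_le_mul_left _ (by norm_num)

theorem p16_geom (g : ℕ) : ∑ a ∈ Icc 1 g, (1 / 2 : ℝ) ^ a = 1 - (1 / 2) ^ g := by
  induction g with
  | zero => simp
  | succ g ih =>
    rw [Finset.sum_Icc_succ_top (by omega), ih, pow_succ]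
    ring

/-- Memorylessness. If `j < lev M n` then `g = lev M (n+1) - j ≥ 2` and the sum is
`∑_{a=1}^{g-1} 2^{-a}/2 + 2^{-g} = (1 - 2^{1-g})/2 + 2^{-g} = 1/2` (`g ≤ A`). If `j ≥ lev M n`: trivial. -/
theorem VV_step {M : ℕ} (hM : 1 ≤ M) {n j A : ℕ} (hA : lev M (n + 1) ≤ j + A) :
    VV M n j ≤ (if j = lev M n then 1 else 0) + ∑ a ∈ Icc 1 A, (1 / 2 : ℝ) ^ a * VV M (n + 1) (j + a) := by
  have hs : 0 ≤ ∑ a ∈ Icc 1 A, (1 / 2 : ℝ) ^ a * VV M (n + 1) (j + a) :=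
    sum_nonneg fun a _ => mul_nonneg (by positivity) (VV_nonneg _ _ _)
  rcases lt_trichotomy j (lev M n) with h | h | h
  · have h1 := lev_succ hM n
    obtain ⟨g, hg⟩ : ∃ g, lev M (n + 1) = j + (g + 1) := ⟨lev M (n + 1) - j - 1, by omega⟩
    have hV : VV M n j = 1 / 2 := by
      unfold VV
      rw [if_pos h]
    rw [hV, if_neg (by omega), zero_add]
    have h2 : ∑ a ∈ Icc 1 (g + 1), (1 / 2 : ℝ) ^ a * VV M (n + 1) (j + a) ≤
        ∑ a ∈ Icc 1 A, (1 / 2 : ℝ) ^ a * VV M (n + 1) (j + a) := by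
      refine sum_le_sum_of_subset_of_nonneg (Icc_subset_Icc le_rfl (by omega)) ?_
      intro a _ _
      exact mul_nonneg (by positivity) (VV_nonneg _ _ _)
    refine le_trans (le_of_eq ?_) h2
    rw [Finset.sum_Icc_succ_top (by omega)]
    have h3 : ∑ a ∈ Icc 1 g, (1 / 2 : ℝ) ^ a * VV M (n + 1) (j + a) =
        ∑ a ∈ Icc 1 g, (1 / 2 : ℝ) ^ a * (1 / 2) := by
      refine sum_congr rfl fun a ha => ?_
      have ha' := (mem_Icc.1 ha).2
      congr 1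
      unfold VV
      rw [if_pos (by omega)]
    have h4 : VV M (n + 1) (j + (g + 1)) = 1 := by
      unfold VV
      rw [if_neg (by omega), if_pos hg.symm]
    rw [h3, h4, ← sum_mul, p16_geom, pow_succ]
    ring
  · rw [if_pos h]
    have := VV_le_one M n j
    linarith
  · have hV : VV M n j = 0 := by
      unfold VV
      rw [if_neg (by omega), if_neg (by omega)]
    rw [hV, if_neg (by omega), zero_add]
    exact hs

end Pool.Agent.Lib.MP_d0d59f_nt.PD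

end

section

/-! Power saving: definitions. -/

namespace Pool.Agent.Lib.MP_d0d59f_nt.PW

open Finset

/-- The barrier with constant `e`: `3^(N i) ≤ (2^(e + s_i))^(N-1)` for all prefixes. -/
def lbar (N e : ℕ) (α : List ℕ) : Prop :=
  ∀ i ≤ α.length, 3 ^ (N * i) ≤ 2 ^ ((N - 1) * (e + (α.take i).sum))

open Classical in
/-- Words of length `n`, entries `≥ 1`, sum `≤ L`, in the barrier. -/
noncomputable def Rq (N e n L : ℕ) : Finset (List ℕ) := (PD.Wd n L).filter (lbar N e)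

open Classical in
/-- Weighted sum over the barrier words of length `n` with integer nodes at `x`. -/
noncomputable def EQ (N e n L : ℕ) (f : List ℕ → ℤ → ℝ) (x : ℤ) : ℝ :=
  ∑ α ∈ Rq N e n L, if PD.vd α x then PD.wt α * f α (PD.nd α x) else 0

open Classical in
/-- Weight of the words of length `m` with sum `> 10 m`. -/
noncomputable def tl (m L : ℕ) (z : ℤ) : ℝ :=
  ∑ β ∈ PD.Wd m L, if PD.vd β z ∧ 10 * m < β.sum then PD.wt β else 0

/-- The supersolution. -/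
noncomputable def phi (M : ℝ) (n j : ℕ) : ℝ := 40 * min 1 (Real.sqrt (M * 3 ^ n / 2 ^ j))

/-- Truncated supersolution. -/
noncomputable def pht (L : ℕ) (M : ℝ) (n j : ℕ) : ℝ := if j ≤ L then phi M n j else 0

/-- `(n, j)` is on the curve `2^j ≤ M 3^n < 2^(j+1)`. -/
def onc (M : ℝ) (n j : ℕ) : Prop := (2 : ℝ) ^ j ≤ M * 3 ^ n ∧ M * 3 ^ n < 2 ^ (j + 1)

/-- Increment of the truncated supersolution at a node `z` of valuation `j`. -/
noncomputable def DU (L : ℕ) (M : ℝ) (n j : ℕ) (z : ℤ) : ℝ :=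
  if j ≤ L then ∑ a ∈ Icc 1 L, ((if (3 : ℤ) ∣ 2 ^ a * z - 1 then 3 else 0) - 1) * (1 / 2) ^ a *
    pht L M (n + 1) (j + a) else 0

open Classical in
/-- Weight of the barrier words of length `n` on the curve. -/
noncomputable def hitU (N e L : ℕ) (M : ℝ) (n : ℕ) (x : ℤ) : ℝ :=
  ∑ α ∈ Rq N e n L, if PD.vd α x ∧ onc M n α.sum then PD.wt α else 0

/-- Past hits plus supersolution. -/
noncomputable def TU (N e L : ℕ) (M : ℝ) (n : ℕ) (x : ℤ) : ℝ :=
  ∑ i ∈ range n, hitU N e L M i x + EQ N e n L (fun α _ => pht L M n α.sum) x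

/-- Height of `z` in units of `d`. -/
def ht (d z : ℤ) : ℕ := Nat.log 2 (z.natAbs / d.natAbs)

/-- The drop of height which is asked for: `⌊N h/(N+1)⌋`. -/
def gg (N h : ℕ) : ℕ := N * h / (N + 1)

/-- `z` is bad: it stays at height `≥ gg N h` for `gg N h` steps, `h` its height. -/
def isBad (d : ℤ) (N : ℕ) (z : ℤ) : Prop :=
  ∀ k ≤ gg N (ht d z), gg N (ht d z) ≤ ht d ((T d)^[k] z)

end Pool.Agent.Lib.MP_d0d59f_nt.PW

end

section

/-! Row pd-P02b. -/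

namespace Pool.Agent.Lib.MP_d0d59f_nt.PD

open Finset

theorem p02b_imp {α : List ℕ} {x y : ℤ} (h : x ≡ y [ZMOD 3 ^ α.length]) (hx : vd α x) :
    vd α y := by
  unfold vd at hx ⊢
  have h1 : (3 : ℤ) ^ α.length ∣ 2 ^ α.sum * (y - x) := Dvd.dvd.mul_left (Int.modEq_iff_dvd.1 h) _
  have h2 : 2 ^ α.sum * y - (AA.cc α : ℤ) = 2 ^ α.sum * (y - x) + (2 ^ α.sum * x - (AA.cc α : ℤ)) := by
    ring
  rw [h2]
  exact dvd_add h1 hx

theorem vd_congr {α : List ℕ} {x y : ℤ} (h : x ≡ y [ZMOD 3 ^ α.length]) : vd α x ↔ vd α y :=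
  ⟨p02b_imp h, p02b_imp h.symm⟩

/-- `3^n (nd α y - nd α x) = 2^{|α|} (y - x)`. -/
theorem nd_congr {α : List ℕ} {k : ℕ} {x y : ℤ} (hv : vd α x)
    (h : x ≡ y [ZMOD 3 ^ (α.length + k)]) : nd α x ≡ nd α y [ZMOD 3 ^ k] := by
  have h0 : x ≡ y [ZMOD 3 ^ α.length] := by
    refine Int.ModEq.of_dvd ?_ h
    exact pow_dvd_pow 3 (by omega)
  have hw : vd α y := (vd_congr h0).1 hv
  have h1 : (3 : ℤ) ^ α.length * nd α x = 2 ^ α.sum * x - (AA.cc α : ℤ) := by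
    unfold nd; exact Int.mul_ediv_cancel' hv
  have h2 : (3 : ℤ) ^ α.length * nd α y = 2 ^ α.sum * y - (AA.cc α : ℤ) := by
    unfold nd; exact Int.mul_ediv_cancel' hw
  rw [Int.modEq_iff_dvd] at h ⊢
  have h3 : (3 : ℤ) ^ α.length * (nd α y - nd α x) = 2 ^ α.sum * (y - x) := by
    rw [mul_sub, h1, h2]; ring
  have h4 : (3 : ℤ) ^ α.length * 3 ^ k ∣ 3 ^ α.length * (nd α y - nd α x) := by
    rw [h3, ← pow_add]
    exact Dvd.dvd.mul_left h _
  exact (mul_dvd_mul_iff_left (by positivity)).1 h4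

open Classical in
/-- Exactly one class modulo `3^k` (`2^{|γ|}` is a unit). -/
theorem vd_count {k : ℕ} {γ : List ℕ} (h : γ.length = k) :
    ∑ z ∈ range (3 ^ k), (if vd γ (z : ℤ) then (1 : ℝ) else 0) = 1 := by
  have : NeZero (3 ^ k) := ⟨by positivity⟩
  have hco : Nat.Coprime (2 ^ γ.sum) (3 ^ k) := Nat.Coprime.pow _ _ (by norm_num)
  obtain ⟨u, hu⟩ : ∃ u : ZMod (3 ^ k), ((2 ^ γ.sum : ℕ) : ZMod (3 ^ k)) * u = 1 :=
    ⟨_, ZMod.coe_mul_inv_eq_one _ hco⟩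
  have hiff : ∀ z : ℕ, vd γ (z : ℤ) ↔ (z : ZMod (3 ^ k)) = u * (AA.cc γ : ZMod (3 ^ k)) := by
    intro z
    have h1 : vd γ (z : ℤ) ↔
        ((2 ^ γ.sum : ℕ) : ZMod (3 ^ k)) * (z : ZMod (3 ^ k)) = (AA.cc γ : ZMod (3 ^ k)) := by
      unfold vd
      rw [h]
      have h2 := ZMod.intCast_zmod_eq_zero_iff_dvd (2 ^ γ.sum * (z : ℤ) - (AA.cc γ : ℤ)) (3 ^ k)
      push_cast at h2
      rw [← h2, sub_eq_zero]
      push_cast
      rfl
    rw [h1]
    constructor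
    · intro h2
      rw [← h2, ← mul_assoc, mul_comm u, hu, one_mul]
    · intro h2
      rw [h2, ← mul_assoc, hu, one_mul]
  obtain ⟨c, hc⟩ : ∃ c : ZMod (3 ^ k), c = u * (AA.cc γ : ZMod (3 ^ k)) := ⟨_, rfl⟩
  rw [← hc] at hiff
  rw [Finset.sum_eq_single c.val]
  · rw [if_pos ((hiff _).2 (ZMod.natCast_zmod_val c))]
  · intro b hb hne
    rw [if_neg]
    intro h2
    apply hne
    rw [← (hiff b).1 h2, ZMod.val_cast_of_lt (mem_range.1 hb)]
  · intro h2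
    exact absurd (mem_range.2 (ZMod.val_lt c)) h2

end Pool.Agent.Lib.MP_d0d59f_nt.PD

end

section

/-! Row D2 (about 250 lines): the shallow states. -/

namespace Pool.Agent.Lib.MP_d0d59f_nt.AA

open Finset

theorem d2a_i2 {K : ℕ} (n : ℕ) (x : ZMod (3 ^ K)) : (2 : ZMod (3 ^ K)) ^ n * (i2 K ^ n * x) = x := by
  rw [← mul_assoc, two_pow_mul_i2_pow, one_mul]

theorem d2a_aa {K : ℕ} (y : ZMod (3 ^ K)) (c : ℤ) (h : y.valMinAbs = c) :
    aa K y = |(c : ℝ)| / 3 ^ K := by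
  unfold aa
  rw [h]

/-- White exit, case `b ≤ D` but `2^{-b} aa y > ε = 1/2048`. Here `c(y) = 2^b c1`, `aa y ≤ 9ε`, `y' = 9 i2^b y`,
`c(y') = 9 c1` (`valMinAbs_half`, `valMinAbs_nine`; `2^b < 9`). The next move `b = 3` is white:
`w = i2^3 y'`: if `8 ∣ 9 c1` then `c(w) = 9 c1/8` and `aa w = 9·2^{-b} aa(y)/8 > ε`; otherwise by `aa_ge` (`h = 3`, `G = 9 c1`)
`aa w ≥ (1 - 9·2^{-b} aa y)/8 ≥ (1 - 81ε/4)/8 > ε` (`b ≥ 2`). -/
theorem white_exit1 {K : ℕ} (y : ZMod (3 ^ K)) (b : ℕ) (hb : 2 ≤ b) (c1 : ℤ)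
    (hc : y.valMinAbs = 2 ^ b * c1) (ha : aa K y ≤ 9 / 2048) (he : 2 ^ b * (1 / 2048) < aa K y) :
    1 / 2048 ≤ aa K (i2 K ^ 3 * (9 * (i2 K ^ b * y))) := by
  have h3 : (0 : ℝ) < 3 ^ K := by positivity
  have h4 : (4 : ℝ) ≤ 2 ^ b := by
    calc (4 : ℝ) = 2 ^ 2 := by norm_num
      _ ≤ 2 ^ b := pow_le_pow_right₀ (by norm_num) hb
  have haa : aa K y = 2 ^ b * (|(c1 : ℝ)| / 3 ^ K) := by
    rw [d2a_aa y _ hc]
    push_cast
    rw [abs_mul, abs_of_pos (by positivity : (0 : ℝ) < 2 ^ b), mul_div_assoc]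
  set t : ℝ := |(c1 : ℝ)| / 3 ^ K with ht
  have ht0 : 0 ≤ t := by positivity
  have hte : 1 / 2048 < t := by
    rw [haa] at he
    exact lt_of_mul_lt_mul_left he (by positivity)
  have htu : t ≤ 9 / 8192 := by
    rw [haa] at ha
    nlinarith
  have hv1 : (i2 K ^ b * y).valMinAbs = c1 := valMinAbs_half y b c1 hc
  have hlt : 18 * |(i2 K ^ b * y).valMinAbs| < 3 ^ K := by
    rw [hv1]
    have : (18 : ℝ) * |(c1 : ℝ)| < 3 ^ K := by
      have h5 : |(c1 : ℝ)| = t * 3 ^ K := by rw [ht]; field_simp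
      rw [h5]
      nlinarith
    exact_mod_cast this
  have hv2 : (9 * (i2 K ^ b * y)).valMinAbs = 9 * c1 := by
    rw [valMinAbs_nine _ hlt, hv1]
  by_cases h8 : (2 : ℤ) ^ 3 ∣ 9 * c1
  · obtain ⟨c2, hc2⟩ := h8
    have hv3 := valMinAbs_half (9 * (i2 K ^ b * y)) 3 c2 (by rw [hv2, hc2])
    rw [d2a_aa _ _ hv3]
    have h6 : (8 : ℝ) * |(c2 : ℝ)| = 9 * |(c1 : ℝ)| := by
      have h7 : |(9 : ℝ) * c1| = |(2 : ℝ) ^ 3 * c2| := by
        congr 1
        exact_mod_cast hc2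
      rw [abs_mul, abs_mul] at h7
      norm_num at h7
      linarith
    have h8 : |(c2 : ℝ)| / 3 ^ K = 9 / 8 * t := by
      rw [ht]
      field_simp
      linarith
    rw [h8]
    linarith
  · have h9 := aa_ge 3 (i2 K ^ 3 * (9 * (i2 K ^ b * y))) (9 * c1) (by
      rw [d2a_i2, ← hv2, ZMod.coe_valMinAbs]) h8
    refine le_trans ?_ h9
    push_cast
    have h10 : |(9 : ℝ) * c1| / 3 ^ K = 9 * t := by
      rw [abs_mul, ht]
      norm_num
      ring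
    rw [h10]
    linarith

/-- White exit, case `D < b ≤ D + 6`, `c(y) = 2^D g`, `g` odd: `w = i2^3 (9 i2^b y)` satisfies
`2^{b-D+3} w = 9 g`, `9g` is odd, `|9g| ≤ 9|c(y)| ≤ 81ε 3^K`; `aa_ge` with `h = b-D+3 ≤ 9`:
`aa w ≥ (1 - 81ε)/512 > ε`. -/
theorem white_exit2 {K : ℕ} (y : ZMod (3 ^ K)) (b D : ℕ) (g : ℤ) (hg : Odd g)
    (hc : y.valMinAbs = 2 ^ D * g) (ha : aa K y ≤ 9 / 2048) (hb1 : D < b) (hb2 : b ≤ D + 6) :
    1 / 2048 ≤ aa K (i2 K ^ 3 * (9 * (i2 K ^ b * y))) := by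
  have h3 : (0 : ℝ) < 3 ^ K := by positivity
  obtain ⟨h, rfl⟩ : ∃ h, b = D + h := ⟨b - D, by omega⟩
  have hh : h ≤ 6 := by omega
  have hh1 : 1 ≤ h := by omega
  have hv : (i2 K ^ D * y).valMinAbs = g := valMinAbs_half y D g hc
  have hw : (2 : ZMod (3 ^ K)) ^ (h + 3) * (i2 K ^ 3 * (9 * (i2 K ^ (D + h) * y))) =
      ((9 * g : ℤ) : ZMod (3 ^ K)) := by
    have h1 : (2 : ZMod (3 ^ K)) ^ (h + 3) * (i2 K ^ 3 * (9 * (i2 K ^ (D + h) * y))) =
        ((2 : ZMod (3 ^ K)) ^ 3 * i2 K ^ 3) * ((2 : ZMod (3 ^ K)) ^ h * i2 K ^ h) *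
          (9 * (i2 K ^ D * y)) := by ring
    rw [h1, two_pow_mul_i2_pow, two_pow_mul_i2_pow, one_mul, one_mul]
    push_cast
    rw [← hv, ZMod.coe_valMinAbs]
  have hodd : ¬ (2 : ℤ) ^ (h + 3) ∣ 9 * g := by
    intro hd
    have h2 : (2 : ℤ) ∣ 9 * g := dvd_trans (dvd_pow_self 2 (by omega)) hd
    obtain ⟨k, hk⟩ := hg
    omega
  have h9 := aa_ge (h + 3) (i2 K ^ 3 * (9 * (i2 K ^ (D + h) * y))) (9 * g) hw hodd
  refine le_trans ?_ h9
  have haa : aa K y = 2 ^ D * (|(g : ℝ)| / 3 ^ K) := by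
    rw [d2a_aa y _ hc]
    push_cast
    rw [abs_mul, abs_of_pos (by positivity : (0 : ℝ) < 2 ^ D), mul_div_assoc]
  set t : ℝ := |(g : ℝ)| / 3 ^ K with ht
  have ht0 : 0 ≤ t := by positivity
  have h1D : (1 : ℝ) ≤ 2 ^ D := one_le_pow₀ (by norm_num)
  have htu : t ≤ 9 / 2048 := by
    rw [haa] at ha
    nlinarith
  push_cast
  have h10 : |(9 : ℝ) * g| / 3 ^ K = 9 * t := by
    rw [abs_mul, ht]
    norm_num
    ring
  rw [h10]
  have h11 : (2 : ℝ) ^ (h + 3) ≤ 512 := by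
    calc (2 : ℝ) ^ (h + 3) ≤ 2 ^ 9 := pow_le_pow_right₀ (by norm_num) (by omega)
      _ = 512 := by norm_num
  rw [le_div_iff₀ (by positivity)]
  nlinarith

/-- The weights: with `S k = (k+1)/2^k = 1 - ∑_{b≤k} pw b`,
`∑_{b ≤ D} pw b (1-κ/5) + ∑_{D<b≤D+6} pw b (1 - κ/4) + ∑_{b > D+6} pw b ≤ 1 - κ/5`,
because `S (D+6) ≤ S D / 5` (`(D+7)/64 ≤ (D+1)/5`). -/
theorem shallow_weights (D L' : ℕ) (hL : D + 6 ≤ L') :
    ∑ b ∈ range (L' + 1), pw b *
      (if b ≤ D then 1 - kap / 5 else if b ≤ D + 6 then 1 - kap / 4 else 1) ≤ 1 - kap / 5 := by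
  have hk := kap_pos
  have e1 := sum_pw D
  have e2 := sum_pw (D + 6)
  have e3 := sum_pw L'
  have s1 : ∑ b ∈ range (D + 1), pw b + ∑ b ∈ Ico (D + 1) (D + 6 + 1), pw b =
      ∑ b ∈ range (D + 6 + 1), pw b := Finset.sum_range_add_sum_Ico _ (by omega)
  have s2 : ∑ b ∈ range (D + 6 + 1), pw b + ∑ b ∈ Ico (D + 6 + 1) (L' + 1), pw b =
      ∑ b ∈ range (L' + 1), pw b := Finset.sum_range_add_sum_Ico _ (by omega)
  rw [← Finset.sum_range_add_sum_Ico _ (show D + 6 + 1 ≤ L' + 1 by omega),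
    ← Finset.sum_range_add_sum_Ico _ (show D + 1 ≤ D + 6 + 1 by omega)]
  have f1 : ∑ b ∈ range (D + 1), pw b *
      (if b ≤ D then 1 - kap / 5 else if b ≤ D + 6 then 1 - kap / 4 else 1) =
      (∑ b ∈ range (D + 1), pw b) * (1 - kap / 5) := by
    rw [Finset.sum_mul]
    refine Finset.sum_congr rfl fun b hb => ?_
    rw [Finset.mem_range] at hb
    rw [if_pos (by omega)]
  have f2 : ∑ b ∈ Ico (D + 1) (D + 6 + 1), pw b *
      (if b ≤ D then 1 - kap / 5 else if b ≤ D + 6 then 1 - kap / 4 else 1) =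
      (∑ b ∈ Ico (D + 1) (D + 6 + 1), pw b) * (1 - kap / 4) := by
    rw [Finset.sum_mul]
    refine Finset.sum_congr rfl fun b hb => ?_
    rw [Finset.mem_Ico] at hb
    rw [if_neg (by omega), if_pos (by omega)]
  have f3 : ∑ b ∈ Ico (D + 6 + 1) (L' + 1), pw b *
      (if b ≤ D then 1 - kap / 5 else if b ≤ D + 6 then 1 - kap / 4 else 1) =
      (∑ b ∈ Ico (D + 6 + 1) (L' + 1), pw b) := by
    refine Finset.sum_congr rfl fun b hb => ?_
    rw [Finset.mem_Ico] at hb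
    rw [if_neg (by omega), if_neg (by omega), mul_one]
  rw [f1, f2, f3]
  have hS : ((D + 6 : ℕ) + 1 : ℝ) / 2 ^ (D + 6) ≤ ((D : ℝ) + 1) / 2 ^ D / 5 := by
    rw [pow_add, div_div, div_le_div_iff₀ (by positivity) (by positivity)]
    have h2 : (0 : ℝ) < 2 ^ D := by positivity
    have hD : (0 : ℝ) ≤ D := Nat.cast_nonneg D
    push_cast
    nlinarith [mul_nonneg hD h2.le]
  have hL0 : 0 ≤ ((L' : ℝ) + 1) / 2 ^ L' := by positivity
  set SD : ℝ := ((D : ℝ) + 1) / 2 ^ D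
  set SE : ℝ := ((D + 6 : ℕ) + 1 : ℝ) / 2 ^ (D + 6)
  set SL : ℝ := ((L' : ℝ) + 1) / 2 ^ L'
  have g2 : ∑ b ∈ Ico (D + 1) (D + 6 + 1), pw b = SD - SE := by linarith
  have g3 : ∑ b ∈ Ico (D + 6 + 1) (L' + 1), pw b = SE - SL := by linarith
  rw [g2, g3, e1]
  nlinarith

end Pool.Agent.Lib.MP_d0d59f_nt.AA

end
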