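import Mathlib
import Pool.Agent.Lib.MP_d0d59f_nt.NK.K006
import Pool.Agent.Lib.MP_d0d59f_nt.NK.K009

section

/-! Row D3 (about 150 lines): decomposition at the crossing of a level. -/

namespace Pool.Agent.Lib.MP_d0d59f_nt.AA

open Finset

/-- One step without the factor `ff`. -/
theorem d3_step (K L J : ℕ) (z : ZMod (3 ^ K)) :
    qq K L (J + 1) z ≤ ∑ b ∈ range (L + 1), pw b * qq K L J (9 * (i2 K ^ b * z)) := by
  rw [qq]
  refine sum_le_sum fun b _ => ?_
  refine mul_le_mul_of_nonneg_right ?_ (qq_nonneg _ _ _ _)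
  calc pw b * ff K b (i2 K ^ b * z) ≤ pw b * 1 :=
        mul_le_mul_of_nonneg_left (ff_le_one _ _ _) (pw_nonneg b)
    _ = pw b := mul_one _

/-- One step, the moves split at `E`. -/
theorem d3_split (K L J E : ℕ) (z : ZMod (3 ^ K)) :
    qq K L (J + 1) z ≤ ∑ b ∈ Ico (E + 1) (L + 1), pw b * qq K L J (9 * (i2 K ^ b * z))
      + ∑ b ∈ range (E + 1), pw b * qq K L J (9 * (i2 K ^ b * z)) := by
  refine (d3_step K L J z).trans ?_
  have hdisj : Disjoint (Ico (E + 1) (L + 1)) (range (E + 1)) := by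
    rw [Finset.disjoint_left]
    intro b hb hb'
    rw [mem_Ico] at hb
    rw [mem_range] at hb'
    omega
  rw [← sum_union hdisj]
  refine sum_le_sum_of_subset_of_nonneg ?_ fun b _ _ => mul_nonneg (pw_nonneg b) (qq_nonneg _ _ _ _)
  intro b hb
  rw [mem_range] at hb
  rw [mem_union, mem_Ico, mem_range]
  omega

/-- Reindexing `(β, b) ↦ (β + b, b)`. -/
theorem d3_reindex (D : ℕ) (f : ℕ → ℕ → ℝ) :
    ∑ β ∈ range (D + 1), ∑ b ∈ range (D - β + 1), f β b =
      ∑ β ∈ range (D + 1), ∑ b ∈ range (β + 1), f (β - b) b := by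
  rw [sum_sigma', sum_sigma']
  refine sum_nbij' (fun p => ⟨p.1 + p.2, p.2⟩) (fun p => ⟨p.1 - p.2, p.2⟩) ?_ ?_ ?_ ?_ ?_
  · rintro ⟨β, b⟩ h
    simp only [mem_sigma, mem_range] at h ⊢
    omega
  · rintro ⟨β, b⟩ h
    simp only [mem_sigma, mem_range] at h ⊢
    omega
  · rintro ⟨β, b⟩ h
    simp
  · rintro ⟨β, b⟩ h
    simp only [mem_sigma, mem_range] at h
    simp only [Sigma.mk.injEq, heq_eq_eq, and_true]
    omega
  · rintro ⟨β, b⟩ h
    simp

/-- Induction on `T`. `T = 0`: `nb 0 β = [β = 0]`. Step (`J - T ≥ 1`): each term of the last sum satisfies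
`qq (J-T) z ≤ ∑_{b ≤ L} pw b qq (J-T-1) (9 (i2^b z))` (`ff ≤ 1`), `z = 9^T (i2^β y)`. Split the `b`'s into `b > D - β`
(new term `t = T` of the first sum) and `b ≤ D - β`; for the latter enlarge the range to all `b ≤ D - β`, put `β' = β + b ≤ D`
and use `nb_two_add`: `∑_{b ≤ β'} pw b nb (2T) (β'-b) = nb (2(T+1)) β'`. -/
theorem crossing (K L J D T : ℕ) (hT : T ≤ J) (y : ZMod (3 ^ K)) :
    qq K L J y ≤
      ∑ t ∈ range T, ∑ β ∈ range (D + 1), nb (2 * t) β *
        ∑ b ∈ Ico (D - β + 1) (L + 1), pw b *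
          qq K L (J - t - 1) (9 ^ (t + 1) * (i2 K ^ (β + b) * y))
      + ∑ β ∈ range (D + 1), nb (2 * T) β * qq K L (J - T) (9 ^ T * (i2 K ^ β * y)) := by
  induction T with
  | zero =>
    rw [range_zero, sum_empty, zero_add, sum_eq_single 0]
    · simp [nb_zero]
    · intro b _ hb
      rw [mul_zero, nb_zero, if_neg hb, zero_mul]
    · intro h
      exact absurd (mem_range.2 (Nat.succ_pos _)) h
  | succ T ih =>
    refine (ih (by omega)).trans ?_
    rw [sum_range_succ _ T, add_assoc]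
    refine add_le_add_right ?_ _
    have hJ : J - T = (J - (T + 1)) + 1 := by omega
    have hJ' : J - T - 1 = J - (T + 1) := by omega
    have hz : ∀ (β b : ℕ), (9 : ZMod (3 ^ K)) * (i2 K ^ b * (9 ^ T * (i2 K ^ β * y))) =
        9 ^ (T + 1) * (i2 K ^ (β + b) * y) := by
      intro β b
      rw [pow_succ, pow_add]
      ring
    have h1 : ∀ β ∈ range (D + 1), nb (2 * T) β * qq K L (J - T) (9 ^ T * (i2 K ^ β * y)) ≤
        nb (2 * T) β * ∑ b ∈ Ico (D - β + 1) (L + 1), pw b *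
          qq K L (J - T - 1) (9 ^ (T + 1) * (i2 K ^ (β + b) * y)) +
        nb (2 * T) β * ∑ b ∈ range (D - β + 1), pw b *
          qq K L (J - (T + 1)) (9 ^ (T + 1) * (i2 K ^ (β + b) * y)) := by
      intro β _
      rw [← mul_add]
      refine mul_le_mul_of_nonneg_left ?_ (nb_nonneg _ _)
      have h2 := d3_split K L (J - (T + 1)) (D - β) (9 ^ T * (i2 K ^ β * y))
      simp only [hz] at h2
      rw [hJ', hJ]
      exact h2
    refine (sum_le_sum h1).trans ?_
    rw [sum_add_distrib]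
    refine add_le_add_right (le_of_eq ?_) _
    simp only [mul_sum]
    rw [d3_reindex D (fun β b => nb (2 * T) β * (pw b *
          qq K L (J - (T + 1)) (9 ^ (T + 1) * (i2 K ^ (β + b) * y))))]
    refine sum_congr rfl fun β _ => ?_
    rw [nb_two_add, sum_mul]
    refine sum_congr rfl fun b hb => ?_
    rw [mem_range] at hb
    rw [Nat.sub_add_cancel (by omega)]
    ring

end Pool.Agent.Lib.MP_d0d59f_nt.AA

end

section

/-! Row D2 (about 250 lines): the shallow states. -/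

namespace Pool.Agent.Lib.MP_d0d59f_nt.AA

open Finset

theorem d2b_state (K β k b : ℕ) (y : ZMod (3 ^ K)) :
    9 ^ k * (i2 K ^ β * (9 * (i2 K ^ b * y))) = 9 ^ (k + 1) * (i2 K ^ (β + b) * y) := by
  rw [pow_succ, pow_add]; ring

theorem d2b_state1 (K b : ℕ) (y : ZMod (3 ^ K)) :
    9 * (i2 K ^ b * y) = 9 ^ 1 * (i2 K ^ b * y) := by
  rw [pow_one]

theorem d2b_state2 (K b b' : ℕ) (y : ZMod (3 ^ K)) :
    9 * (i2 K ^ b' * (9 * (i2 K ^ b * y))) = 9 ^ 2 * (i2 K ^ (b' + b) * y) := by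
  rw [pow_add]; ring

/-- a white exit at the next step -/
theorem d2b_white (K L J' b : ℕ) (hJ' : 1 ≤ J') (y : ZMod (3 ^ K)) (V : ℝ) (hV0 : 0 ≤ V)
    (hw : 1 / 2048 ≤ aa K (i2 K ^ 3 * (9 * (i2 K ^ b * y))))
    (hV : ∀ β : ℕ, qq K L (J' + 1 - 2) (9 ^ 2 * (i2 K ^ β * y)) ≤ V) :
    qq K L J' (9 * (i2 K ^ b * y)) ≤ (1 - kap / 4) * V := by
  obtain ⟨J2, rfl⟩ : ∃ J2, J' = J2 + 1 := ⟨J' - 1, by omega⟩
  refine qq_white _ V hV0 hw fun b' => ?_
  rw [d2b_state2]
  exact hV (b' + b)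

/-- Shallow lemma. Strong induction on `D` (generalizing `J y g`). `J = J'+1`, and `J' ≥ 1`.
`qq_succ_le` with `L' = max L (D+6)`, `U b = V·(1-κ/5)` for `b ≤ D`, `V (1-κ/4)` for `D < b ≤ D+6`, `V` else.
Write `y' = 9 i2^b y`.
(`qq_succ_le` asks for `b ≥ 2` only.)
* `2 ≤ b ≤ D` and `2^{-b} aa y ≤ ε`: `c(y') = 9·2^{D-b} g` (`valMinAbs_half`, `valMinAbs_nine`), `aa y' ≤ 9ε`; induction
  with `D - b`, `J'`, `9 g`: `qq J' y' ≤ (1-κ/5) V` (`(D-b)/2 + 2 + 1 ≤ D/2 + 2`).
* `2 ≤ b ≤ D` and `2^{-b} aa y > ε`: `white_exit1` and `qq_white`: `qq J' y' ≤ (1-κ/4) V`.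
* `D < b ≤ D+6`: `white_exit2` and `qq_white`. (`b ≥ 2` not needed.)
* `b > D + 6`: hypothesis `hV` with `k = 1`.
The states: `i2^β · 9^k ·` etc. (`hV` for `y'` from `hV` for `y`: `9^k (i2^β (9 (i2^b y))) = 9^(k+1) (i2^(β+b) y)`.) -/
theorem shallow (K L J D : ℕ) (y : ZMod (3 ^ K)) (g : ℤ) (hg : Odd g)
    (hc : y.valMinAbs = 2 ^ D * g) (ha : aa K y ≤ 9 / 2048) (hJ : D / 2 + 2 ≤ J) (V : ℝ)
    (hV0 : 0 ≤ V)
    (hV : ∀ k β : ℕ, 1 ≤ k → k ≤ D / 2 + 2 → qq K L (J - k) (9 ^ k * (i2 K ^ β * y)) ≤ V) :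
    qq K L J y ≤ (1 - kap / 5) * V := by
  induction D using Nat.strong_induction_on generalizing J y g with
  | _ D ih =>
  have hk0 := kap_pos
  have hk1 := kap_le_one
  obtain ⟨J', rfl⟩ : ∃ J', J = J' + 1 := ⟨J - 1, by omega⟩
  have hJ1 : 1 ≤ J' := by omega
  set L' : ℕ := max L (D + 6) with hL'
  set U : ℕ → ℝ := fun b =>
    (if b ≤ D then 1 - kap / 5 else if b ≤ D + 6 then 1 - kap / 4 else 1) * V with hU
  have hU0 : ∀ b, 0 ≤ U b := by
    intro b
    simp only [hU]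
    refine mul_nonneg ?_ hV0
    split_ifs <;> linarith
  have hwh : ∀ β : ℕ, qq K L (J' + 1 - 2) (9 ^ 2 * (i2 K ^ β * y)) ≤ V := fun β =>
    hV 2 β (by norm_num) (by omega)
  have h45 : (1 - kap / 4) * V ≤ (1 - kap / 5) * V :=
    mul_le_mul_of_nonneg_right (by linarith) hV0
  have key : ∀ b, 2 ≤ b → qq K L J' (9 * (i2 K ^ b * y)) ≤ U b := by
    intro b hb
    by_cases h1 : b ≤ D
    · have hUb : U b = (1 - kap / 5) * V := by simp only [hU, if_pos h1]
      rw [hUb]
      have hc1 : y.valMinAbs = 2 ^ b * (2 ^ (D - b) * g) := by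
        rw [hc, ← mul_assoc, ← pow_add, Nat.add_sub_cancel' h1]
      by_cases he : (2 : ℝ) ^ b * (1 / 2048) < aa K y
      · exact (d2b_white K L J' b hJ1 y V hV0 (white_exit1 y b hb _ hc1 ha he) hwh).trans h45
      · have he' : aa K y ≤ (2 : ℝ) ^ b * (1 / 2048) := not_lt.mp he
        have h3 : (0 : ℝ) < (3 : ℝ) ^ K := by positivity
        have h2 : (0 : ℝ) < (2 : ℝ) ^ b := by positivity
        -- the size of the quotient
        have hsize : |((2 ^ (D - b) * g : ℤ) : ℝ)| ≤ 1 / 2048 * 3 ^ K := by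
          unfold aa at he'
          rw [hc1] at he'
          have e1 : |(((2 : ℤ) ^ b * (2 ^ (D - b) * g) : ℤ) : ℝ)|
              = (2 : ℝ) ^ b * |((2 ^ (D - b) * g : ℤ) : ℝ)| := by
            rw [Int.cast_mul, abs_mul]
            congr 1
            rw [Int.cast_pow, Int.cast_ofNat, abs_of_pos h2]
          rw [e1, div_le_iff₀ h3, mul_assoc] at he'
          exact le_of_mul_le_mul_left he' h2
        have hhalf := valMinAbs_half y b _ hc1
        have h18 : 18 * |(i2 K ^ b * y).valMinAbs| < 3 ^ K := by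
          rw [hhalf]
          have : ((18 * |(2 ^ (D - b) * g : ℤ)| : ℤ) : ℝ) < ((3 ^ K : ℤ) : ℝ) := by
            push_cast
            push_cast at hsize
            nlinarith
          exact_mod_cast this
        have hnine := valMinAbs_nine (i2 K ^ b * y) h18
        rw [hhalf] at hnine
        have hc2 : (9 * (i2 K ^ b * y)).valMinAbs = 2 ^ (D - b) * (9 * g) := by
          rw [hnine]; ring
        have ha2 : aa K (9 * (i2 K ^ b * y)) ≤ 9 / 2048 := by
          unfold aa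
          rw [hnine, div_le_iff₀ h3, Int.cast_mul, abs_mul]
          have : |((9 : ℤ) : ℝ)| = 9 := by norm_num
          rw [this]
          linarith
        refine ih (D - b) (by omega) J' (9 * (i2 K ^ b * y)) (9 * g) ?_ hc2 ha2 (by omega) ?_
        · exact Odd.mul (by decide) hg
        · intro k β hk1 hk2
          rw [d2b_state]
          have := hV (k + 1) (β + b) (by omega) (by omega)
          rwa [show J' + 1 - (k + 1) = J' - k by omega] at this
    · by_cases h2 : b ≤ D + 6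
      · have hUb : U b = (1 - kap / 4) * V := by simp only [hU, if_neg h1, if_pos h2]
        rw [hUb]
        exact d2b_white K L J' b hJ1 y V hV0 (white_exit2 y b D g hg hc ha (by omega) h2) hwh
      · have hUb : U b = V := by simp only [hU, if_neg h1, if_neg h2, one_mul]
        rw [hUb, d2b_state1]
        have := hV 1 b (le_refl 1) (by omega)
        rwa [show J' + 1 - 1 = J' by omega] at this
  have hstep := qq_succ_le (K := K) (L := L) (J := J') y L' (le_max_left _ _) U hU0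
    (fun b hb => le_trans (mul_le_of_le_one_left (qq_nonneg _ _ _ _) (ff_le_one _ _ _)) (key b hb))
  refine hstep.trans ?_
  have hw := shallow_weights D L' (le_max_right _ _)
  calc ∑ b ∈ range (L' + 1), pw b * U b
      = (∑ b ∈ range (L' + 1), pw b *
        (if b ≤ D then 1 - kap / 5 else if b ≤ D + 6 then 1 - kap / 4 else 1)) * V := by
        rw [Finset.sum_mul]
        refine Finset.sum_congr rfl fun b _ => ?_
        simp only [hU]
        ring
    _ ≤ (1 - kap / 5) * V := mul_le_mul_of_nonneg_right hw hV0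

end Pool.Agent.Lib.MP_d0d59f_nt.AA

end
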