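import Mathlib

/-! Row D5 (about 200 lines): the powers of `9` modulo `2^H`, and a cosine average. -/

namespace Pool.Agent.Lib.MP_d0d59f_nt.AA

open Finset

theorem d5_perm (N : ℕ) (j : ℕ → ℕ) (hj : ∀ i < N, j i < N)
    (hinj : ∀ i < N, ∀ i' < N, j i = j i' → i = i') (f : ℕ → ℝ) :
    ∑ i ∈ range N, f (j i) = ∑ i ∈ range N, f i := by
  have hI : Set.InjOn j (range N : Finset ℕ) := by
    intro a ha b hb hab
    exact hinj a (Finset.mem_range.1 ha) b (Finset.mem_range.1 hb) hab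
  have h1 : (range N).image j = range N := by
    apply Finset.eq_of_subset_of_card_le
    · intro x hx
      obtain ⟨i, hi, rfl⟩ := Finset.mem_image.1 hx
      exact Finset.mem_range.2 (hj i (Finset.mem_range.1 hi))
    · rw [Finset.card_image_of_injOn hI]
  conv_rhs => rw [← h1]
  rw [Finset.sum_image hI]

/-- `2^H ∣ 9^k - 1` iff `2^{H-3} ∣ k` (`H ≥ 3`). Lifting the exponent (`Int.two_pow_sub_pow`/`padicValNat`), or
induction on `H`: `9^{2k} - 1 = (9^k - 1)(9^k + 1)` and `9^k + 1 ≡ 2 mod 8`; for odd `k`,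
`9^k - 1 = 8(1 + 9 + ... + 9^{k-1})` with an odd cofactor. -/
theorem nine_pow_dvd (H k : ℕ) (hH : 3 ≤ H) :
    (2 : ℤ) ^ H ∣ 9 ^ k - 1 ↔ 2 ^ (H - 3) ∣ k := by
  obtain ⟨h, rfl⟩ := Nat.exists_eq_add_of_le hH
  have e : 3 + h - 3 = h := by omega
  rw [e]
  clear e hH
  induction h generalizing k with
  | zero =>
    simp only [pow_zero, add_zero]
    refine ⟨fun _ => one_dvd _, fun _ => ?_⟩
    have h1 : ((9 : ℤ) - 1) ∣ 9 ^ k - 1 ^ k := sub_dvd_pow_sub_pow 9 1 k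
    rw [one_pow] at h1
    norm_num at h1 ⊢
    exact h1
  | succ h ih =>
    rcases Nat.even_or_odd k with hk | hk
    · obtain ⟨j, rfl⟩ := hk.two_dvd
      have h8 : ∃ w : ℤ, (9 : ℤ) ^ j - 1 = 8 * w := by
        have h1 : ((9 : ℤ) - 1) ∣ 9 ^ j - 1 ^ j := sub_dvd_pow_sub_pow 9 1 j
        rw [one_pow] at h1
        norm_num at h1
        exact h1
      obtain ⟨w, hw⟩ := h8
      have e1 : (9 : ℤ) ^ (2 * j) - 1 = 2 * ((9 ^ j - 1) * (4 * w + 1)) := by
        have : (9 : ℤ) ^ (2 * j) = 9 ^ j * 9 ^ j := by rw [two_mul, pow_add]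
        rw [this]
        have h9 : (9 : ℤ) ^ j = 8 * w + 1 := by linarith
        rw [h9]
        ring
      have hcop : IsCoprime ((2 : ℤ) ^ (3 + h)) (4 * w + 1) := by
        apply IsCoprime.pow_left
        refine ⟨-(2 * w), 1, by ring⟩
      have e2 : (2 : ℤ) ^ (3 + (h + 1)) = 2 * 2 ^ (3 + h) := by
        rw [← add_assoc, pow_succ]
        ring
      have e3 : (2 : ℕ) ^ (h + 1) = 2 * 2 ^ h := by
        rw [pow_succ]
        ring
      rw [e1, e2, e3, mul_dvd_mul_iff_left (by norm_num : (2 : ℤ) ≠ 0),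
        mul_dvd_mul_iff_left (by norm_num : (2 : ℕ) ≠ 0)]
      exact Iff.trans ⟨fun h => hcop.dvd_of_dvd_mul_right h, fun h => h.mul_right _⟩ (ih j)
    · obtain ⟨j, rfl⟩ := hk
      have h16 : ∃ w : ℤ, (9 : ℤ) ^ (2 * j + 1) - 1 = 16 * w + 8 := by
        have h1 : ((81 : ℤ) - 1) ∣ 81 ^ j - 1 ^ j := sub_dvd_pow_sub_pow 81 1 j
        rw [one_pow] at h1
        norm_num at h1
        obtain ⟨w, hw⟩ := h1
        refine ⟨45 * w, ?_⟩
        have : (9 : ℤ) ^ (2 * j + 1) = 81 ^ j * 9 := by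
          rw [pow_succ, pow_mul]
          norm_num
        rw [this]
        have h9 : (81 : ℤ) ^ j = 80 * w + 1 := by linarith
        rw [h9]
        ring
      obtain ⟨w, hw⟩ := h16
      constructor
      · intro h1
        exfalso
        have h2 : (16 : ℤ) ∣ 2 ^ (3 + (h + 1)) := by
          have : (2 : ℤ) ^ (3 + (h + 1)) = 16 * 2 ^ h := by
            rw [show 3 + (h + 1) = 4 + h by ring, pow_add]
            norm_num
          rw [this]
          exact dvd_mul_right _ _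
        have h3 := h2.trans h1
        rw [hw] at h3
        omega
      · intro h1
        exfalso
        have h2 : 2 ∣ 2 ^ (h + 1) := dvd_pow_self 2 (by omega)
        have h3 := h2.trans h1
        omega

/-- `i ↦ 9^{t0+i} m₀ mod 2^H` is a bijection from `[0, 2^{H-3})` onto the class of `m₀` modulo `8` in `ℤ/2^H`
(injective by `nine_pow_dvd`, `m₀` odd; both sides have `2^{H-3}` elements). -/
theorem nine_block (H t0 : ℕ) (hH : 3 ≤ H) (m₀ : ℤ) (hm : Odd m₀) (F : ℤ → ℝ)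
    (hF : ∀ x q : ℤ, F (x + 2 ^ H * q) = F x) :
    ∑ i ∈ range (2 ^ (H - 3)), F (9 ^ (t0 + i) * m₀) =
      ∑ i ∈ range (2 ^ (H - 3)), F (m₀ + 8 * i) := by
  have hN : (0 : ℤ) < 2 ^ (H - 3) := by positivity
  have h8 : ∀ i : ℕ, ∃ u : ℤ, 9 ^ (t0 + i) * m₀ = m₀ + 8 * u := by
    intro i
    have h1 : ((9 : ℤ) - 1) ∣ 9 ^ (t0 + i) - 1 ^ (t0 + i) := sub_dvd_pow_sub_pow 9 1 (t0 + i)
    rw [one_pow] at h1
    norm_num at h1
    obtain ⟨w, hw⟩ := h1
    refine ⟨w * m₀, ?_⟩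
    have h9 : (9 : ℤ) ^ (t0 + i) = 8 * w + 1 := by linarith
    rw [h9]
    ring
  choose u hu using h8
  have e8 : (2 : ℤ) ^ H = 8 * 2 ^ (H - 3) := by
    have : H = 3 + (H - 3) := by omega
    conv_lhs => rw [this, pow_add]
    norm_num
  set j : ℕ → ℕ := fun i => (u i % 2 ^ (H - 3)).toNat with hj
  have hjc : ∀ i, ((j i : ℕ) : ℤ) = u i % 2 ^ (H - 3) := by
    intro i
    simp only [hj]
    exact Int.toNat_of_nonneg (Int.emod_nonneg _ hN.ne')
  have h1 : ∀ i, F (9 ^ (t0 + i) * m₀) = F (m₀ + 8 * (j i : ℕ)) := by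
    intro i
    rw [hu i, hjc i]
    have h2 := Int.emod_add_mul_ediv (u i) (2 ^ (H - 3))
    have h3 : m₀ + 8 * u i = (m₀ + 8 * (u i % 2 ^ (H - 3))) + 2 ^ H * (u i / 2 ^ (H - 3)) := by
      rw [e8]
      linarith
    rw [h3, hF]
  rw [Finset.sum_congr rfl (fun i _ => h1 i)]
  apply d5_perm (2 ^ (H - 3)) j _ _ (fun i => F (m₀ + 8 * (i : ℕ)))
  · intro i _
    have h2 : ((j i : ℕ) : ℤ) < ((2 ^ (H - 3) : ℕ) : ℤ) := by
      rw [hjc i]
      push_cast
      exact Int.emod_lt_of_pos _ hN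
    exact_mod_cast h2
  · have key : ∀ i i' : ℕ, i ≤ i' → i' < 2 ^ (H - 3) → j i = j i' → i = i' := by
      intro i i' hii hi' hjj
      have h2 : u i % 2 ^ (H - 3) = u i' % 2 ^ (H - 3) := by
        rw [← hjc i, ← hjc i', hjj]
      have h3 : (2 : ℤ) ^ (H - 3) ∣ u i' - u i := Int.ModEq.dvd h2
      have h4 : (2 : ℤ) ^ H ∣ 9 ^ (t0 + i') * m₀ - 9 ^ (t0 + i) * m₀ := by
        rw [hu i, hu i', e8]
        have : m₀ + 8 * u i' - (m₀ + 8 * u i) = 8 * (u i' - u i) := by ring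
        rw [this]
        exact mul_dvd_mul_left 8 h3
      obtain ⟨k, rfl⟩ := Nat.exists_eq_add_of_le hii
      have h5 : (9 : ℤ) ^ (t0 + (i + k)) * m₀ - 9 ^ (t0 + i) * m₀ =
        (9 ^ k - 1) * (9 ^ (t0 + i) * m₀) := by
        rw [← add_assoc, pow_add 9 (t0 + i) k]
        ring
      rw [h5] at h4
      have hodd : Odd ((9 : ℤ) ^ (t0 + i) * m₀) := by
        apply Odd.mul _ hm
        apply Odd.pow
        decide
      have hcop : IsCoprime ((2 : ℤ) ^ H) (9 ^ (t0 + i) * m₀) := by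
        apply IsCoprime.pow_left
        obtain ⟨w, hw⟩ := hodd
        rw [hw]
        exact ⟨-w, 1, by ring⟩
      have h6 := hcop.dvd_of_dvd_mul_right h4
      rw [nine_pow_dvd H k hH] at h6
      have h7 : k = 0 := Nat.eq_zero_of_dvd_of_lt h6 (by omega)
      omega
    intro i hi i' hi' hjj
    rcases le_total i i' with h | h
    · exact key i i' h hi' hjj
    · exact (key i' i h hi hjj.symm).symm

/-- Multiplication by `9` permutes the residues modulo `2^a`. -/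
theorem nine_perm (a : ℕ) (F : ℤ → ℝ) (hF : ∀ x q : ℤ, F (x + 2 ^ a * q) = F x) :
    ∑ i ∈ range (2 ^ a), F (9 * i) = ∑ i ∈ range (2 ^ a), F i := by
  have h1 : ∀ i : ℕ, F (9 * i) = F (((9 * i) % 2 ^ a : ℕ) : ℤ) := by
    intro i
    have h2 := Nat.mod_add_div (9 * i) (2 ^ a)
    have h3 : ((9 : ℤ) * i) = (((9 * i) % 2 ^ a : ℕ) : ℤ) + 2 ^ a * ((9 * i / 2 ^ a : ℕ) : ℤ) := by
      have := congrArg (fun n : ℕ => (n : ℤ)) h2
      push_cast at this ⊢
      linarith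
    rw [h3, hF]
  rw [Finset.sum_congr rfl (fun i _ => h1 i)]
  apply d5_perm (2 ^ a) (fun i => (9 * i) % 2 ^ a) _ _ (fun i => F (i : ℕ))
  · intro i _
    exact Nat.mod_lt _ (by positivity)
  · intro i hi i' hi' h
    have h2 : 9 * i ≡ 9 * i' [MOD 2 ^ a] := h
    have h3 : Nat.gcd (2 ^ a) 9 = 1 := by
      apply Nat.Coprime.pow_left
      decide
    have h4 : i ≡ i' [MOD 2 ^ a] := Nat.ModEq.cancel_left_of_coprime h3 h2
    exact Nat.ModEq.eq_of_lt_of_lt h4 hi hi'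

/-- Cauchy-Schwarz: `(∑ |cos|)² ≤ 8 ∑ cos² = 8·4 = 32 < 5.66²`, where
`∑_{j<8} cos²(α + πj/8) = 4 + (1/2) ∑ cos(2α + πj/4) = 4` (the terms `j` and `j+4` cancel). -/
theorem cos_average (α : ℝ) :
    ∑ j ∈ range 8, |Real.cos (α + Real.pi * j / 8)| ≤ 5.66 := by
  have h1 := sq_sum_le_card_mul_sum_sq (s := range 8)
    (f := fun j : ℕ => |Real.cos (α + Real.pi * j / 8)|)
  have hpair : ∀ x : ℝ, Real.cos (x + Real.pi / 2) ^ 2 = 1 - Real.cos x ^ 2 := by
    intro x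
    rw [Real.cos_add_pi_div_two, neg_sq, Real.sin_sq]
  have h2 : ∑ j ∈ range 8, |Real.cos (α + Real.pi * (j : ℕ) / 8)| ^ 2 = 4 := by
    simp only [sq_abs, Finset.sum_range_succ, Finset.sum_range_zero]
    have e4 : α + Real.pi * ((4 : ℕ) : ℝ) / 8 = (α + Real.pi * ((0 : ℕ) : ℝ) / 8) + Real.pi / 2 := by
      push_cast; ring
    have e5 : α + Real.pi * ((5 : ℕ) : ℝ) / 8 = (α + Real.pi * ((1 : ℕ) : ℝ) / 8) + Real.pi / 2 := by
      push_cast; ring
    have e6 : α + Real.pi * ((6 : ℕ) : ℝ) / 8 = (α + Real.pi * ((2 : ℕ) : ℝ) / 8) + Real.pi / 2 := by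
      push_cast; ring
    have e7 : α + Real.pi * ((7 : ℕ) : ℝ) / 8 = (α + Real.pi * ((3 : ℕ) : ℝ) / 8) + Real.pi / 2 := by
      push_cast; ring
    rw [e4, e5, e6, e7, hpair, hpair, hpair, hpair]
    ring
  rw [h2, Finset.card_range] at h1
  have h3 : 0 ≤ ∑ j ∈ range 8, |Real.cos (α + Real.pi * (j : ℕ) / 8)| :=
    Finset.sum_nonneg fun j _ => abs_nonneg _
  by_contra h4
  push Not at h4
  norm_num at h1 h4
  nlinarith

end Pool.Agent.Lib.MP_d0d59f_nt.AA
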