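import Mathlib
import Pool.Agent.Lib.MP_d0d59f_nt.NK.K006
import Pool.Agent.Lib.MP_d0d59f_nt.NK.K010
import Pool.Agent.Lib.MP_d0d59f_nt.NK.K012

section

/-! Row D6 (about 250 lines): block averages of `ww`. -/

namespace Pool.Agent.Lib.MP_d0d59f_nt.AA

open Finset

/-- `|cos|` has period `π`. -/
theorem d6_abs_cos_add (x : ℝ) (k : ℤ) :
    |Real.cos (x + k * Real.pi)| = |Real.cos x| := by
  rw [Real.cos_add_int_mul_pi, abs_mul, abs_zpow, abs_neg, abs_one, one_zpow, one_mul]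

/-- Splitting a range of length `p * q`. -/
theorem d6_sum_range_mul (p q : ℕ) (g : ℕ → ℝ) :
    ∑ i ∈ range (p * q), g i = ∑ i₀ ∈ range p, ∑ i₁ ∈ range q, g (i₀ + p * i₁) := by
  induction q with
  | zero => simp
  | succ q ih =>
    rw [Nat.mul_succ, Finset.sum_range_add, ih, ← Finset.sum_add_distrib]
    refine Finset.sum_congr rfl fun i₀ _ => ?_
    rw [Finset.sum_range_succ, add_comm (p * q) i₀]

/-- The recursion, written out. -/
theorem d6_ww_succ (B j u : ℕ) (m : ℤ) : ww B (j + 1) u m = ∑ b ∈ range (B + 1),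
      pw b * (if b = 3 then |Real.cos (Real.pi * (m : ℝ) / 2 ^ (u + 3))| else 1)
        * ww B j (u + b) (9 * m) := rfl

/-- Induction on `j` generalizing `u m q`. -/
theorem ww_periodic (B j u : ℕ) (hB : 3 ≤ B) (m q : ℤ) :
    ww B j u (m + 2 ^ (u + j * B) * q) = ww B j u m := by
  induction j generalizing u m q with
  | zero => rfl
  | succ j ih =>
    rw [d6_ww_succ, d6_ww_succ]
    refine Finset.sum_congr rfl fun b hb => ?_
    have hbB : b ≤ B := Nat.lt_succ_iff.mp (Finset.mem_range.mp hb)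
    congr 1
    · congr 1
      split_ifs with h3
      · -- the cosine
        have hexp : u + (j + 1) * B = (u + 3) + (j * B + (B - 3)) := by
          rw [Nat.succ_mul]; omega
        have e : Real.pi * ((m + 2 ^ (u + (j + 1) * B) * q : ℤ) : ℝ) / 2 ^ (u + 3) =
            Real.pi * (m : ℝ) / 2 ^ (u + 3) + ((2 ^ (j * B + (B - 3)) * q : ℤ) : ℝ) * Real.pi := by
          have h2 : (2 : ℝ) ^ (u + 3) ≠ 0 := by positivity
          rw [hexp]
          push_cast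
          rw [pow_add (2 : ℝ) (u + 3)]
          field_simp
        rw [e, d6_abs_cos_add]
      · rfl
    · have hexp : u + (j + 1) * B = (u + b + j * B) + (B - b) := by
        rw [Nat.succ_mul]; omega
      have e : 9 * (m + 2 ^ (u + (j + 1) * B) * q) =
          9 * m + 2 ^ (u + b + j * B) * (2 ^ (B - b) * (9 * q)) := by
        rw [hexp, pow_add]; ring
      rw [e, ih]

/-- A multiple of the period. -/
theorem d6_ww_periodic' (B j u H : ℕ) (hB : 3 ≤ B) (hH : u + j * B ≤ H) (m q : ℤ) :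
    ww B j u (m + 2 ^ H * q) = ww B j u m := by
  have e : (2 : ℤ) ^ H * q = 2 ^ (u + j * B) * (2 ^ (H - (u + j * B)) * q) := by
    rw [← mul_assoc, ← pow_add, Nat.add_sub_cancel' hH]
  rw [e, ww_periodic B j u hB]

theorem d6_pw_three : pw 3 = 1 / 4 := by
  unfold pw; norm_num

theorem d6_pw_zero : pw 0 = 0 := by
  unfold pw; norm_num

theorem d6_pw_one : pw 1 = 0 := by
  unfold pw; norm_num

/-- Induction on `j` generalizing `h m₀`. `j+1`: write `i = i₀ + 2^b i₁`, `i₀ < 2^b`, `i₁ < 2^{H-h-b}`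
(`b ≤ B`, so `h + b ≤ H`), `m = m₀ + 2^h i`. For `b ≠ 3` the term is
`pw b ∑_{i₀} ∑_{i₁} ww B j (h+b) (9(m₀ + 2^h i₀) + 2^{h+b}·(9 i₁)) ≤ pw b 2^b · 2^{H-h-b} 0.93^j` by `nine_perm` (the function
`x ↦ ww B j (h+b) (M + 2^{h+b} x)` has period `2^{H-h-b}`) and the induction hypothesis. For `b = 3` the factor
`|cos(π(m₀ + 2^h i₀ + 2^{h+3} i₁)/2^{h+3})| = |cos(π m₀/2^{h+3} + π i₀/8)|` comes in, with sum `≤ 5.66` over `i₀ < 8`
(`cos_average`), so the term is `≤ pw 3 · 5.66 · 2^{H-h-3} 0.93^j`. Total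
`≤ 2^{H-h} 0.93^j (∑_{b≠3} pw b + pw 3 · 5.66/8) ≤ 2^{H-h} 0.93^j (3/4 + 0.177) ≤ 2^{H-h} 0.93^{j+1}`
(`B ≥ 3`, `pw 3 = 1/4`). -/
theorem ww_class (B : ℕ) (hB : 3 ≤ B) (j h H : ℕ) (hh : 3 ≤ h) (hH : h + j * B ≤ H) (m₀ : ℤ) :
    ∑ i ∈ range (2 ^ (H - h)), ww B j h (m₀ + 2 ^ h * i) ≤ 2 ^ (H - h) * (0.93 : ℝ) ^ j := by
  induction j generalizing h m₀ with
  | zero =>
    simp [ww]
  | succ j ih =>
    have hH' : h + j * B + B ≤ H := by
      have : (j + 1) * B = j * B + B := Nat.succ_mul j B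
      omega
    -- the inner sums
    have inner : ∀ b ≤ B, ∀ i₀ : ℕ,
        ∑ i₁ ∈ range (2 ^ (H - h - b)),
          ww B j (h + b) (9 * (m₀ + 2 ^ h * ((i₀ + 2 ^ b * i₁ : ℕ) : ℤ))) ≤
          2 ^ (H - h - b) * (0.93 : ℝ) ^ j := by
      intro b hb i₀
      have hperm := nine_perm (H - h - b)
        (fun x : ℤ => ww B j (h + b) (9 * (m₀ + 2 ^ h * (i₀ : ℤ)) + 2 ^ (h + b) * x)) (by
          intro x q
          have e : 9 * (m₀ + 2 ^ h * (i₀ : ℤ)) + 2 ^ (h + b) * (x + 2 ^ (H - h - b) * q) =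
              (9 * (m₀ + 2 ^ h * (i₀ : ℤ)) + 2 ^ (h + b) * x) + 2 ^ H * q := by
            have : (2 : ℤ) ^ H = 2 ^ (h + b) * 2 ^ (H - h - b) := by
              rw [← pow_add]; congr 1; omega
            rw [this]; ring
          show ww B j (h + b) _ = ww B j (h + b) _
          rw [e]
          exact d6_ww_periodic' B j (h + b) H hB (by omega) _ _)
      have hih := ih (h + b) (by omega) (by omega) (9 * (m₀ + 2 ^ h * (i₀ : ℤ)))
      have hsub : H - (h + b) = H - h - b := by omega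
      rw [hsub] at hih
      refine le_trans (le_of_eq ?_) hih
      rw [← hperm]
      refine Finset.sum_congr rfl fun i₁ _ => ?_
      show ww B j (h + b) _ = ww B j (h + b) _
      congr 1
      push_cast
      rw [pow_add]
      ring
    -- exchange the sums
    have hexch : ∑ i ∈ range (2 ^ (H - h)), ww B (j + 1) h (m₀ + 2 ^ h * (i : ℤ)) =
        ∑ b ∈ range (B + 1), pw b * ∑ i ∈ range (2 ^ (H - h)),
          (if b = 3 then |Real.cos (Real.pi * ((m₀ + 2 ^ h * (i : ℤ) : ℤ) : ℝ) / 2 ^ (h + 3))| else 1)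
            * ww B j (h + b) (9 * (m₀ + 2 ^ h * (i : ℤ))) := by
      simp only [d6_ww_succ, Finset.mul_sum]
      rw [Finset.sum_comm]
      refine Finset.sum_congr rfl fun b _ => Finset.sum_congr rfl fun i _ => ?_
      ring
    rw [hexch]
    -- each term
    have hterm : ∀ b ∈ range (B + 1),
        pw b * ∑ i ∈ range (2 ^ (H - h)),
          (if b = 3 then |Real.cos (Real.pi * ((m₀ + 2 ^ h * (i : ℤ) : ℤ) : ℝ) / 2 ^ (h + 3))| else 1)
            * ww B j (h + b) (9 * (m₀ + 2 ^ h * (i : ℤ))) ≤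
        pw b * (2 ^ (H - h) * (0.93 : ℝ) ^ j) - if b = 3 then
          pw b * ((1 - 5.66 / 8) * (2 ^ (H - h) * (0.93 : ℝ) ^ j)) else 0 := by
      intro b hb
      have hbB : b ≤ B := Nat.lt_succ_iff.mp (Finset.mem_range.mp hb)
      have hpow : 2 ^ (H - h) = 2 ^ b * 2 ^ (H - h - b) := by
        rw [← pow_add]; congr 1; omega
      have hpowR : (2 : ℝ) ^ (H - h) = 2 ^ b * 2 ^ (H - h - b) := by
        rw [← pow_add]; congr 1; omega
      have hpwb := pw_nonneg b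
      by_cases hb3 : b = 3
      · subst hb3
        have hcore : ∑ i ∈ range (2 ^ (H - h)),
            |Real.cos (Real.pi * ((m₀ + 2 ^ h * (i : ℤ) : ℤ) : ℝ) / 2 ^ (h + 3))|
              * ww B j (h + 3) (9 * (m₀ + 2 ^ h * (i : ℤ))) ≤
            5.66 * (2 ^ (H - h - 3) * (0.93 : ℝ) ^ j) := by
          rw [hpow, d6_sum_range_mul]
          have hcos : ∀ i₀ i₁ : ℕ,
              |Real.cos (Real.pi * ((m₀ + 2 ^ h * ((i₀ + 2 ^ 3 * i₁ : ℕ) : ℤ) : ℤ) : ℝ)
                / 2 ^ (h + 3))| =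
              |Real.cos (Real.pi * (m₀ : ℝ) / 2 ^ (h + 3) + Real.pi * i₀ / 8)| := by
            intro i₀ i₁
            have e : Real.pi * ((m₀ + 2 ^ h * ((i₀ + 2 ^ 3 * i₁ : ℕ) : ℤ) : ℤ) : ℝ) / 2 ^ (h + 3) =
                (Real.pi * (m₀ : ℝ) / 2 ^ (h + 3) + Real.pi * i₀ / 8) + ((i₁ : ℤ) : ℝ) * Real.pi := by
              have h2 : (2 : ℝ) ^ h ≠ 0 := by positivity
              push_cast
              rw [pow_add]
              field_simp
              ring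
            rw [e, d6_abs_cos_add]
          calc ∑ i₀ ∈ range (2 ^ 3), ∑ i₁ ∈ range (2 ^ (H - h - 3)),
                |Real.cos (Real.pi * ((m₀ + 2 ^ h * ((i₀ + 2 ^ 3 * i₁ : ℕ) : ℤ) : ℤ) : ℝ)
                / 2 ^ (h + 3))| * ww B j (h + 3) (9 * (m₀ + 2 ^ h * ((i₀ + 2 ^ 3 * i₁ : ℕ) : ℤ)))
              = ∑ i₀ ∈ range (2 ^ 3), |Real.cos (Real.pi * (m₀ : ℝ) / 2 ^ (h + 3) + Real.pi * i₀ / 8)|
                  * ∑ i₁ ∈ range (2 ^ (H - h - 3)),
                    ww B j (h + 3) (9 * (m₀ + 2 ^ h * ((i₀ + 2 ^ 3 * i₁ : ℕ) : ℤ))) := by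
                refine Finset.sum_congr rfl fun i₀ _ => ?_
                rw [Finset.mul_sum]
                refine Finset.sum_congr rfl fun i₁ _ => ?_
                rw [hcos]
            _ ≤ ∑ i₀ ∈ range (2 ^ 3), |Real.cos (Real.pi * (m₀ : ℝ) / 2 ^ (h + 3) + Real.pi * i₀ / 8)|
                  * (2 ^ (H - h - 3) * (0.93 : ℝ) ^ j) := by
                refine Finset.sum_le_sum fun i₀ _ => ?_
                exact mul_le_mul_of_nonneg_left (inner 3 hB i₀) (abs_nonneg _)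
            _ = (∑ i₀ ∈ range 8, |Real.cos (Real.pi * (m₀ : ℝ) / 2 ^ (h + 3) + Real.pi * i₀ / 8)|)
                  * (2 ^ (H - h - 3) * (0.93 : ℝ) ^ j) := by
                rw [Finset.sum_mul]; norm_num
            _ ≤ 5.66 * (2 ^ (H - h - 3) * (0.93 : ℝ) ^ j) := by
                refine mul_le_mul_of_nonneg_right (cos_average _) (by positivity)
        simp only [if_true]
        have h8 : (2 : ℝ) ^ (H - h) = 8 * 2 ^ (H - h - 3) := by rw [hpowR]; norm_num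
        have := mul_le_mul_of_nonneg_left hcore hpwb
        refine this.trans (le_of_eq ?_)
        rw [h8]
        ring
      · simp only [if_neg hb3, one_mul, sub_zero]
        refine mul_le_mul_of_nonneg_left ?_ hpwb
        rw [hpow, d6_sum_range_mul]
        calc ∑ i₀ ∈ range (2 ^ b), ∑ i₁ ∈ range (2 ^ (H - h - b)),
              ww B j (h + b) (9 * (m₀ + 2 ^ h * ((i₀ + 2 ^ b * i₁ : ℕ) : ℤ)))
            ≤ ∑ i₀ ∈ range (2 ^ b), 2 ^ (H - h - b) * (0.93 : ℝ) ^ j :=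
              Finset.sum_le_sum fun i₀ _ => inner b hbB i₀
          _ = 2 ^ (H - h) * (0.93 : ℝ) ^ j := by
              rw [Finset.sum_const, Finset.card_range, nsmul_eq_mul, hpowR]
              push_cast
              ring
    refine (Finset.sum_le_sum hterm).trans ?_
    rw [Finset.sum_sub_distrib, Finset.sum_ite_eq' (range (B + 1)) 3, if_pos
      (Finset.mem_range.mpr (by omega)), ← Finset.sum_mul, d6_pw_three, pow_succ]
    have hsum := sum_pw_le_one (B + 1)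
    have hpos : (0 : ℝ) ≤ 2 ^ (H - h) * (0.93 : ℝ) ^ j := by positivity
    have := mul_le_mul_of_nonneg_right hsum hpos
    nlinarith [this, hpos]

/-- By `nine_block` the sum is `∑_{i<2^{H-3}} ww B (j+1) u (m₀ + 8i)`. Drop the cosine of the first step:
`≤ ∑_{b=2}^B pw b ∑_i ww B j (u+b) (9 m₀ + 72 i)`, `h = u + b ≥ 3`; by `nine_perm` (`a = H-3`) the inner sum is
`∑_i ww B j h (9m₀ + 8 i) = ∑_{i₀<2^{h-3}} ∑_{i₁<2^{H-h}} ww B j h (9 m₀ + 8 i₀ + 2^h i₁) ≤ 2^{H-3} 0.93^j` by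
`ww_class`. -/
theorem ww_block (B : ℕ) (hB : 3 ≤ B) (j u H t0 : ℕ) (hu : 1 ≤ u) (hH : u + (j + 1) * B ≤ H)
    (m₀ : ℤ) (hm : Odd m₀) :
    ∑ i ∈ range (2 ^ (H - 3)), ww B (j + 1) u (9 ^ (t0 + i) * m₀) ≤
      2 ^ (H - 3) * (0.93 : ℝ) ^ j := by
  have hH' : u + j * B + B ≤ H := by
    have : (j + 1) * B = j * B + B := Nat.succ_mul j B
    omega
  have hH3 : 3 ≤ H := by omega
  rw [nine_block H t0 hH3 m₀ hm (fun x => ww B (j + 1) u x)
    (fun x q => d6_ww_periodic' B (j + 1) u H hB hH x q)]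
  -- the inner sums
  have inner : ∀ b ≤ B, 2 ≤ b →
      ∑ i ∈ range (2 ^ (H - 3)), ww B j (u + b) (9 * (m₀ + 8 * (i : ℤ))) ≤
        2 ^ (H - 3) * (0.93 : ℝ) ^ j := by
    intro b hbB hb2
    have hperm := nine_perm (H - 3)
      (fun x : ℤ => ww B j (u + b) (9 * m₀ + 8 * x)) (by
        intro x q
        have e : 9 * m₀ + 8 * (x + 2 ^ (H - 3) * q) = (9 * m₀ + 8 * x) + 2 ^ H * q := by
          have : (2 : ℤ) ^ H = 8 * 2 ^ (H - 3) := by
            have h8 : (8 : ℤ) = 2 ^ 3 := by norm_num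
            rw [h8, ← pow_add]; congr 1; omega
          rw [this]; ring
        show ww B j (u + b) _ = ww B j (u + b) _
        rw [e]
        exact d6_ww_periodic' B j (u + b) H hB (by omega) _ _)
    have e1 : ∑ i ∈ range (2 ^ (H - 3)), ww B j (u + b) (9 * (m₀ + 8 * (i : ℤ))) =
        ∑ i ∈ range (2 ^ (H - 3)), ww B j (u + b) (9 * m₀ + 8 * (i : ℤ)) := by
      rw [← hperm]
      refine Finset.sum_congr rfl fun i _ => ?_
      show ww B j (u + b) _ = ww B j (u + b) _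
      congr 1
      ring
    rw [e1]
    have hpow : 2 ^ (H - 3) = 2 ^ (u + b - 3) * 2 ^ (H - (u + b)) := by
      rw [← pow_add]; congr 1; omega
    have hpowR : (2 : ℝ) ^ (H - 3) = 2 ^ (u + b - 3) * 2 ^ (H - (u + b)) := by
      rw [← pow_add]; congr 1; omega
    rw [hpow, d6_sum_range_mul]
    calc ∑ i₀ ∈ range (2 ^ (u + b - 3)), ∑ i₁ ∈ range (2 ^ (H - (u + b))),
          ww B j (u + b) (9 * m₀ + 8 * ((i₀ + 2 ^ (u + b - 3) * i₁ : ℕ) : ℤ))
        = ∑ i₀ ∈ range (2 ^ (u + b - 3)), ∑ i₁ ∈ range (2 ^ (H - (u + b))),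
          ww B j (u + b) ((9 * m₀ + 8 * (i₀ : ℤ)) + 2 ^ (u + b) * (i₁ : ℤ)) := by
          refine Finset.sum_congr rfl fun i₀ _ => Finset.sum_congr rfl fun i₁ _ => ?_
          congr 1
          have : (2 : ℤ) ^ (u + b) = 8 * 2 ^ (u + b - 3) := by
            have h8 : (8 : ℤ) = 2 ^ 3 := by norm_num
            rw [h8, ← pow_add]; congr 1; omega
          rw [this]
          push_cast
          ring
      _ ≤ ∑ i₀ ∈ range (2 ^ (u + b - 3)), 2 ^ (H - (u + b)) * (0.93 : ℝ) ^ j :=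
          Finset.sum_le_sum fun i₀ _ =>
            ww_class B hB j (u + b) H (by omega) (by omega) _
      _ = 2 ^ (H - 3) * (0.93 : ℝ) ^ j := by
          rw [Finset.sum_const, Finset.card_range, nsmul_eq_mul, hpowR]
          push_cast
          ring
  have hpos : (0 : ℝ) ≤ 2 ^ (H - 3) * (0.93 : ℝ) ^ j := by positivity
  calc ∑ i ∈ range (2 ^ (H - 3)), ww B (j + 1) u (m₀ + 8 * (i : ℤ))
      ≤ ∑ i ∈ range (2 ^ (H - 3)), ∑ b ∈ range (B + 1),
          pw b * ww B j (u + b) (9 * (m₀ + 8 * (i : ℤ))) := by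
        refine Finset.sum_le_sum fun i _ => ?_
        rw [d6_ww_succ]
        refine Finset.sum_le_sum fun b _ => ?_
        refine mul_le_mul_of_nonneg_right ?_ (ww_nonneg _ _ _ _)
        refine mul_le_of_le_one_right (pw_nonneg b) ?_
        split_ifs
        · exact Real.abs_cos_le_one _
        · exact le_rfl
    _ = ∑ b ∈ range (B + 1), pw b * ∑ i ∈ range (2 ^ (H - 3)),
          ww B j (u + b) (9 * (m₀ + 8 * (i : ℤ))) := by
        rw [Finset.sum_comm]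
        refine Finset.sum_congr rfl fun b _ => ?_
        rw [Finset.mul_sum]
    _ ≤ ∑ b ∈ range (B + 1), pw b * (2 ^ (H - 3) * (0.93 : ℝ) ^ j) := by
        refine Finset.sum_le_sum fun b hb => ?_
        have hbB : b ≤ B := Nat.lt_succ_iff.mp (Finset.mem_range.mp hb)
        by_cases hb2 : 2 ≤ b
        · exact mul_le_mul_of_nonneg_left (inner b hbB hb2) (pw_nonneg b)
        · have : b = 0 ∨ b = 1 := by omega
          rcases this with rfl | rfl
          · rw [d6_pw_zero]; simp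
          · rw [d6_pw_one]; simp
    _ = (∑ b ∈ range (B + 1), pw b) * (2 ^ (H - 3) * (0.93 : ℝ) ^ j) := by
        rw [Finset.sum_mul]
    _ ≤ 1 * (2 ^ (H - 3) * (0.93 : ℝ) ^ j) :=
        mul_le_mul_of_nonneg_right (sum_pw_le_one (B + 1)) hpos
    _ = 2 ^ (H - 3) * (0.93 : ℝ) ^ j := one_mul _

end Pool.Agent.Lib.MP_d0d59f_nt.AA

end

section

/-! Row D7 (about 400 lines, may be split: `deep_fixed`, `deep`): the deep states. -/

namespace Pool.Agent.Lib.MP_d0d59f_nt.AA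

open Finset

/-- Contribution of a crossing with `b ≤ B'`, `k' = D - β < b`, `u = b - k' ≥ 1`: by `further` with `j = K₁+1`,
`G = 9^{t+1} g`, `m = 9^{t+1} m₀`, where `2^H ∣ g + m₀ 3^K` (`m₀` odd), `u + (K₁+1) B ≤ H`, and `nb_block` with
`M = 2^{H-3}`, `ρ = 0.93^{K₁}` (`ww_block`), the sum over `t` of
`nb (2t) (D-k') qq (J-t-1) (i2^u · 9^{t+1} g)` is at most
`(0.93^{K₁} + 2·2^{H-3}/√(D-k') + (K₁+1)((B+1)/2^B + 4·9^{K₁+1}·9^{T}|g|/3^K)) V`
(`∑_t nb (2t) · ≤ 1`). -/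
theorem deep_term (K L J D T B K₁ H k' u : ℕ) (hB : 3 ≤ B) (g m₀ : ℤ) (hm₀ : Odd m₀)
    (hdiv : (2 : ℤ) ^ H ∣ g + m₀ * 3 ^ K) (hu : 1 ≤ u) (hH : u + (K₁ + 1) * B ≤ H)
    (hk' : k' < D) (hTJ : T + (K₁ + 1) ≤ J) (V : ℝ) (hV0 : 0 ≤ V)
    (hV : ∀ k β : ℕ, 1 ≤ k → k ≤ T + (K₁ + 1) →
      qq K L (J - k) (9 ^ k * (i2 K ^ β * (g : ZMod (3 ^ K)))) ≤ V) :
    ∑ t ∈ range T, nb (2 * t) (D - k') *
        qq K L (J - t - 1) (9 ^ (t + 1) * (i2 K ^ u * (g : ZMod (3 ^ K)))) ≤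
      ((0.93 : ℝ) ^ K₁ + 2 * 2 ^ (H - 3) / Real.sqrt ((D - k' : ℕ) : ℝ)
        + (K₁ + 1) * (((B : ℝ) + 1) / 2 ^ B + 4 * 9 ^ (K₁ + 1) * (9 ^ T * |(g : ℝ)| / 3 ^ K))) * V := by
  set E : ℝ := (K₁ + 1) * (((B : ℝ) + 1) / 2 ^ B + 4 * 9 ^ (K₁ + 1) * (9 ^ T * |(g : ℝ)| / 3 ^ K))
    with hE
  have hE0 : 0 ≤ E := by rw [hE]; positivity
  have hH3 : 3 ≤ H := by nlinarith
  -- pointwise bound
  have h1 : ∀ t ∈ range T, nb (2 * t) (D - k') *
        qq K L (J - t - 1) (9 ^ (t + 1) * (i2 K ^ u * (g : ZMod (3 ^ K)))) ≤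
      nb (2 * t) (D - k') * ((ww B (K₁ + 1) u (9 ^ (t + 1) * m₀) + E) * V) := by
    intro t ht
    rw [mem_range] at ht
    apply mul_le_mul_of_nonneg_left _ (nb_nonneg _ _)
    have hf := further K L B (K₁ + 1) u hB (9 ^ (t + 1) * g) (9 ^ (t + 1) * m₀) (J - t - 1)
      (by omega) V hV0 (by
        have : (9 : ℤ) ^ (t + 1) * g + 9 ^ (t + 1) * m₀ * 3 ^ K = 9 ^ (t + 1) * (g + m₀ * 3 ^ K) := by
          ring
        rw [this]
        exact Dvd.dvd.mul_left ((pow_dvd_pow 2 hH).trans hdiv) _) (by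
        intro i β hi
        have h := hV (t + 1 + i) β (by omega) (by omega)
        have e1 : J - (t + 1 + i) = J - t - 1 - i := by omega
        rw [e1] at h
        have e2 : (9 : ZMod (3 ^ K)) ^ i * (i2 K ^ β * (((9 ^ (t + 1) * g : ℤ)) : ZMod (3 ^ K))) =
            9 ^ (t + 1 + i) * (i2 K ^ β * (g : ZMod (3 ^ K))) := by
          push_cast
          rw [pow_add]
          ring
        rw [e2]
        exact h)
    have e3 : i2 K ^ u * (((9 ^ (t + 1) * g : ℤ)) : ZMod (3 ^ K)) =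
        9 ^ (t + 1) * (i2 K ^ u * (g : ZMod (3 ^ K))) := by
      push_cast
      ring
    rw [e3] at hf
    refine hf.trans ?_
    apply mul_le_mul_of_nonneg_right _ hV0
    have h9 : |(((9 : ℤ) ^ (t + 1) * g : ℤ) : ℝ)| / 3 ^ K ≤ 9 ^ T * |(g : ℝ)| / 3 ^ K := by
      apply div_le_div_of_nonneg_right _ (by positivity)
      push_cast
      rw [abs_mul, abs_of_pos (by positivity : (0 : ℝ) < 9 ^ (t + 1))]
      apply mul_le_mul_of_nonneg_right _ (abs_nonneg _)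
      exact pow_le_pow_right₀ (by norm_num) (by omega)
    have h10 : ((K₁ + 1 : ℕ) : ℝ) * (((B : ℝ) + 1) / 2 ^ B + 4 * 9 ^ (K₁ + 1) *
        (|(((9 : ℤ) ^ (t + 1) * g : ℤ) : ℝ)| / 3 ^ K)) ≤ E := by
      rw [hE]
      push_cast
      apply mul_le_mul_of_nonneg_left _ (by positivity)
      have : 4 * (9:ℝ) ^ (K₁ + 1) * (|(9:ℝ) ^ (t + 1) * (g : ℝ)| / 3 ^ K) ≤
          4 * 9 ^ (K₁ + 1) * (9 ^ T * |(g : ℝ)| / 3 ^ K) := by
        apply mul_le_mul_of_nonneg_left _ (by positivity)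
        have := h9
        push_cast at this
        exact this
      linarith
    linarith
  refine (sum_le_sum h1).trans ?_
  have hβ1 : 1 ≤ D - k' := by omega
  have h2 := nb_block (D - k') T (2 ^ (H - 3)) hβ1 Nat.one_le_two_pow ((0.93 : ℝ) ^ K₁)
    (by positivity) (fun t => ww B (K₁ + 1) u (9 ^ (t + 1) * m₀)) (fun t => ww_nonneg _ _ _ _)
    (fun t => ww_le_one _ _ _ _) (by
      intro t0
      have h := ww_block B hB K₁ u H (t0 + 1) hu hH m₀ hm₀
      have e : ∀ i : ℕ, t0 + i + 1 = t0 + 1 + i := fun i => by ring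
      simp only [e]
      refine h.trans (le_of_eq ?_)
      push_cast
      ring)
  have h3 := sum_nb_even_le_one T (D - k')
  have h4 : ∑ t ∈ range T, nb (2 * t) (D - k') * ((ww B (K₁ + 1) u (9 ^ (t + 1) * m₀) + E) * V) =
      (∑ t ∈ range T, nb (2 * t) (D - k') * ww B (K₁ + 1) u (9 ^ (t + 1) * m₀)
        + E * ∑ t ∈ range T, nb (2 * t) (D - k')) * V := by
    rw [mul_sum, ← sum_add_distrib, sum_mul]
    apply sum_congr rfl
    intro t _
    ring
  rw [h4]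
  apply mul_le_mul_of_nonneg_right _ hV0
  have h5 : E * ∑ t ∈ range T, nb (2 * t) (D - k') ≤ E * 1 := mul_le_mul_of_nonneg_left h3 hE0
  have h6 : ((2 ^ (H - 3) : ℕ) : ℝ) = 2 ^ (H - 3) := by push_cast; rfl
  rw [h6] at h2
  linarith

end Pool.Agent.Lib.MP_d0d59f_nt.AA

end
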