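import Mathlib
import Pool.Agent.Lib.MP_d0d59f_nt.NK.K007

namespace Pool.Agent.Lib.MP_d0d59f_nt.AA
end Pool.Agent.Lib.MP_d0d59f_nt.AA

section

/-! Row B0 (about 120 lines): residue classes in intervals. -/

namespace Pool.Agent.Lib.MP_d0d59f_nt.AA

open Finset

theorem mem_itv {α β : ℝ} {N : ℤ} : N ∈ itv α β ↔ α ≤ N ∧ (N : ℝ) < β := by
  unfold itv
  rw [mem_Ico, Int.ceil_le, Int.lt_ceil]

theorem b0_card (α β : ℝ) (h : α ≤ β) (q : ℕ) (hq : 0 < q) (r : ℤ) :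
    (((itv α β).filter fun N => N ≡ r [ZMOD q]).card : ℝ) =
      (⌈(β - r) / q⌉ : ℝ) - (⌈(α - r) / q⌉ : ℝ) := by
  have hq' : (0 : ℝ) < q := Nat.cast_pos.2 hq
  have hqZ : (q : ℤ) ≠ 0 := by exact_mod_cast hq.ne'
  have h1 : ((itv α β).filter fun N => N ≡ r [ZMOD q]) =
      (Finset.Ico ⌈(α - r) / q⌉ ⌈(β - r) / q⌉).image fun j : ℤ => r + q * j := by
    ext N
    rw [mem_filter, mem_itv, mem_image]
    constructor
    · rintro ⟨⟨ha, hb⟩, hN⟩
      obtain ⟨j, hj⟩ := (Int.modEq_iff_dvd.1 hN.symm)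
      refine ⟨j, ?_, by rw [← hj]; ring⟩
      have hjR : (N : ℝ) = r + q * j := by
        have : N = r + q * j := by rw [← hj]; ring
        rw [this]; push_cast; ring
      rw [mem_Ico, Int.ceil_le, Int.lt_ceil, div_le_iff₀ hq', lt_div_iff₀ hq']
      constructor <;> nlinarith
    · rintro ⟨j, hj, rfl⟩
      rw [mem_Ico, Int.ceil_le, Int.lt_ceil, div_le_iff₀ hq', lt_div_iff₀ hq'] at hj
      refine ⟨⟨?_, ?_⟩, ?_⟩
      · push_cast; nlinarith [hj.1]
      · push_cast; nlinarith [hj.2]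
      · rw [Int.modEq_iff_dvd]
        exact ⟨-j, by ring⟩
  rw [h1, card_image_of_injective _ fun j k hjk => by
    have : (q : ℤ) * j = q * k := by simpa using hjk
    exact mul_left_cancel₀ hqZ this, Int.card_Ico]
  have h2 : ⌈(α - r) / q⌉ ≤ ⌈(β - r) / q⌉ := by
    apply Int.ceil_le_ceil
    gcongr
  have h3 : (((⌈(β - r) / q⌉ - ⌈(α - r) / q⌉).toNat : ℤ) : ℝ) =
      ((⌈(β - r) / q⌉ - ⌈(α - r) / q⌉ : ℤ) : ℝ) := by
    rw [Int.toNat_of_nonneg (by omega)]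
  rw [Int.cast_natCast] at h3
  rw [h3]
  push_cast
  ring

/-- `Int.Ico_filter_modEq_card` gives the exact number `max (⌈(b-r)/q⌉ - ⌈(a-r)/q⌉) 0` with `a = ⌈α⌉`, `b = ⌈β⌉`.
Alternatively directly: `N = r + q j`, with `j` in `[(α-r)/q, (β-r)/q)`, i.e. the number of integers in an
interval `[u, v)` is `⌈v⌉ - ⌈u⌉ ∈ (v-u-1, v-u+1)`. -/
theorem card_class_le (α β : ℝ) (h : α ≤ β) (q : ℕ) (hq : 0 < q) (r : ℤ) :
    (((itv α β).filter fun N => N ≡ r [ZMOD q]).card : ℝ) ≤ (β - α) / q + 1 := by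
  rw [b0_card α β h q hq r]
  have h1 := Int.ceil_lt_add_one ((β - r) / q)
  have h2 := Int.le_ceil ((α - r) / q)
  have h3 : (β - α) / q = (β - r) / q - (α - r) / q := by ring
  rw [h3]; linarith

theorem le_card_class (α β : ℝ) (h : α ≤ β) (q : ℕ) (hq : 0 < q) (r : ℤ) :
    (β - α) / q - 1 ≤ (((itv α β).filter fun N => N ≡ r [ZMOD q]).card : ℝ) := by
  rw [b0_card α β h q hq r]
  have h1 := Int.ceil_lt_add_one ((α - r) / q)
  have h2 := Int.le_ceil ((β - r) / q)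
  have h3 : (β - α) / q = (β - r) / q - (α - r) / q := by ring
  rw [h3]; linarith

theorem b0_odd {m : ℕ} {r s N : ℤ} (hs : Odd s) (hr : s ≡ r [ZMOD 3 ^ m]) (hN : Odd N)
    (h : N ≡ r [ZMOD 3 ^ m]) : N ≡ s [ZMOD (2 * 3 ^ m : ℕ)] := by
  have h1 : N ≡ s [ZMOD 3 ^ m] := h.trans hr.symm
  have h2 : N ≡ s [ZMOD 2] := by
    rw [Int.modEq_iff_dvd]
    exact (hs.sub_odd hN).two_dvd
  have hc : IsCoprime (2 : ℤ) (3 ^ m) := IsCoprime.pow_right (by norm_num)
  rw [Int.modEq_iff_dvd] at h1 h2 ⊢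
  push_cast
  exact hc.mul_dvd h2 h1

/-- `Odd N ∧ N ≡ r mod 3^m` is one residue class modulo `2 · 3^m` (namely of `r` if `r` is odd, of `r + 3^m`
otherwise). -/
theorem card_odd_class_le (α β : ℝ) (h : α ≤ β) (m : ℕ) (r : ℤ) :
    (((itv α β).filter fun N => Odd N ∧ N ≡ r [ZMOD 3 ^ m]).card : ℝ) ≤
      (β - α) / (2 * 3 ^ m) + 1 := by
  obtain ⟨s, hs, hsr⟩ : ∃ s : ℤ, Odd s ∧ s ≡ r [ZMOD 3 ^ m] := by
    rcases Int.even_or_odd r with hr | hr
    · refine ⟨r + 3 ^ m, hr.add_odd ((by decide : Odd (3 : ℤ)).pow), ?_⟩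
      rw [Int.modEq_iff_dvd]
      exact ⟨-1, by ring⟩
    · exact ⟨r, hr, Int.ModEq.refl r⟩
  have h1 : ((itv α β).filter fun N => Odd N ∧ N ≡ r [ZMOD 3 ^ m]) ⊆
      ((itv α β).filter fun N => N ≡ s [ZMOD (2 * 3 ^ m : ℕ)]) := by
    intro N hN
    rw [mem_filter] at hN ⊢
    exact ⟨hN.1, b0_odd hs hsr hN.2.1 hN.2.2⟩
  have h2 := card_class_le α β h (2 * 3 ^ m) (by positivity) s
  have h3 : (((itv α β).filter fun N => Odd N ∧ N ≡ r [ZMOD 3 ^ m]).card : ℝ) ≤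
      (((itv α β).filter fun N => N ≡ s [ZMOD (2 * 3 ^ m : ℕ)]).card : ℝ) := by
    exact_mod_cast card_le_card h1
  refine h3.trans (h2.trans (le_of_eq ?_))
  push_cast
  ring

end Pool.Agent.Lib.MP_d0d59f_nt.AA

end

section

/-! Row C8 (about 200 lines): reduction of the number of steps and telescoping over the levels. -/

namespace Pool.Agent.Lib.MP_d0d59f_nt.AA

open Finset

theorem c8_hz_append {d r : ℤ} {K K' s : ℕ} (hK' : K' ≤ K + 1) {e1 : List ℕ}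
    (h1 : e1 ∈ comps (K + 1) s) (e2 : List ℕ) : hz d r K' (e1 ++ e2) = hz d 0 K' e1 := by
  have hlen : e1.length = K + 1 := (mem_comps.1 h1).1
  have h0 : (3 : ZMod (3 ^ K')) ^ (K + 1) = 0 := by
    have h2 : ((3 ^ (K + 1) : ℕ) : ZMod (3 ^ K')) = 0 :=
      (ZMod.natCast_eq_zero_iff _ _).2 (pow_dvd_pow 3 hK')
    push_cast at h2
    exact h2
  rw [hz_append, hlen, h0]
  unfold hz
  push_cast
  ring

/-- For `K' ≤ K+1 ≤ n` (here `K' = K` or `K+1`): `hz d r K' (e1 ++ e2) = d i2^{|e1|} cc e1 = hz d 0 K' e1` for `e1` of length `K+1`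
(`hz_append`, `3^{K+1} = 0` in `ZMod (3^K')`). By `sum_comps_add` (`n = (K+1) + (n-K-1)`) and `2^{-l} = 2^{-s} 2^{-(l-s)}`:
`pz d r K' n l Y = ∑_{s≤l} pz d 0 K' (K+1) s Y · nb (n-K-1) (l-s)`. -/
theorem pz_reduce (d r : ℤ) (K K' n l : ℕ) (hK' : K' ≤ K + 1) (hn : K + 1 ≤ n)
    (Y : ZMod (3 ^ K')) :
    pz d r K' n l Y = ∑ s ∈ range (l + 1), pz d 0 K' (K + 1) s Y * nb (n - (K + 1)) (l - s) := by
  have hc : (((comps n l).filter fun e => hz d r K' e = Y).card : ℝ) =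
      ∑ s ∈ range (l + 1), (((comps (K + 1) s).filter fun e => hz d 0 K' e = Y).card : ℝ) *
        ((comps (n - (K + 1)) (l - s)).card : ℝ) := by
    have hn' : n = (K + 1) + (n - (K + 1)) := by omega
    rw [card_filter, Nat.cast_sum]
    conv_lhs => rw [hn']
    rw [sum_comps_add]
    refine sum_congr rfl fun s _ => ?_
    rw [card_filter, Nat.cast_sum, sum_mul]
    refine sum_congr rfl fun e1 he1 => ?_
    have h1 : ∀ e2 ∈ comps (n - (K + 1)) (l - s),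
        (((if hz d r K' (e1 ++ e2) = Y then 1 else 0 : ℕ)) : ℝ) =
          ((if hz d 0 K' e1 = Y then 1 else 0 : ℕ) : ℝ) := by
      intro e2 _
      rw [c8_hz_append hK' he1]
    rw [sum_congr rfl h1, sum_const, nsmul_eq_mul, mul_comm]
  unfold pz nb
  rw [hc, mul_sum]
  refine sum_congr rfl fun s hs => ?_
  have hsl : s ≤ l := by
    have := mem_range.1 hs
    omega
  have hp : (1 / 2 : ℝ) ^ l = (1 / 2 : ℝ) ^ s * (1 / 2 : ℝ) ^ (l - s) := by
    rw [← pow_add]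
    congr 1
    omega
  rw [hp]
  ring

/-- Triangle inequality in `pz_reduce`, exchange of the sums over `s ≤ l ≤ L`, `∑_l nb (n-K-1) (l-s) ≤ 1`. -/
theorem osc_reduce (d r : ℤ) (K n L : ℕ) (hn : K + 1 ≤ n) :
    osc d r (K + 1) K n L ≤ osc d 0 (K + 1) K (K + 1) L := by
  set c : ℝ := (3 : ℝ) ^ K / 3 ^ (K + 1) with hc
  set A : ℕ → ℝ := fun s => ∑ x ∈ range (3 ^ (K + 1)),
    |pz d 0 (K + 1) (K + 1) s (x : ZMod (3 ^ (K + 1))) - c * pz d 0 K (K + 1) s (x : ZMod (3 ^ K))|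
    with hA
  have hA0 : ∀ s, 0 ≤ A s := fun s => sum_nonneg fun _ _ => abs_nonneg _
  have h1 : ∀ l, ∑ x ∈ range (3 ^ (K + 1)),
      |pz d r (K + 1) n l (x : ZMod (3 ^ (K + 1))) - c * pz d r K n l (x : ZMod (3 ^ K))| ≤
        ∑ s ∈ range (l + 1), A s * nb (n - (K + 1)) (l - s) := by
    intro l
    have h2 : ∀ x ∈ range (3 ^ (K + 1)),
        |pz d r (K + 1) n l (x : ZMod (3 ^ (K + 1))) - c * pz d r K n l (x : ZMod (3 ^ K))| ≤
          ∑ s ∈ range (l + 1),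
            |pz d 0 (K + 1) (K + 1) s (x : ZMod (3 ^ (K + 1))) -
              c * pz d 0 K (K + 1) s (x : ZMod (3 ^ K))| * nb (n - (K + 1)) (l - s) := by
      intro x _
      rw [pz_reduce d r K (K + 1) n l le_rfl hn, pz_reduce d r K K n l (Nat.le_succ K) hn,
        mul_sum, ← sum_sub_distrib]
      refine (abs_sum_le_sum_abs _ _).trans (le_of_eq ?_)
      refine sum_congr rfl fun s _ => ?_
      rw [← mul_assoc, ← sub_mul, abs_mul, abs_of_nonneg (nb_nonneg _ _)]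
    refine (sum_le_sum h2).trans (le_of_eq ?_)
    rw [sum_comm]
    refine sum_congr rfl fun s _ => ?_
    rw [hA, sum_mul]
  have h3 : osc d r (K + 1) K n L ≤
      ∑ l ∈ range (L + 1), ∑ s ∈ range (l + 1), A s * nb (n - (K + 1)) (l - s) := by
    unfold osc
    exact sum_le_sum fun l _ => h1 l
  refine h3.trans ?_
  rw [sum_range_diag_flip (L + 1) (fun s j => A s * nb (n - (K + 1)) j)]
  unfold osc
  refine sum_le_sum fun s hs => ?_
  rw [← mul_sum]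
  have hs' : s < L + 1 := mem_range.1 hs
  have h4 : ∑ j ∈ range (L + 1 - s), nb (n - (K + 1)) j ≤ 1 := by
    have := sum_nb_le_one (n - (K + 1)) (L - s)
    have e : L - s + 1 = L + 1 - s := by omega
    rwa [e] at this
  calc A s * ∑ j ∈ range (L + 1 - s), nb (n - (K + 1)) j ≤ A s * 1 :=
        mul_le_mul_of_nonneg_left h4 (hA0 s)
    _ = _ := mul_one _

theorem c8_periodic (N t : ℕ) (g : ZMod N → ℝ) :
    ∑ x ∈ range (t * N), g (x : ZMod N) = (t : ℝ) * ∑ x ∈ range N, g (x : ZMod N) := by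
  induction t with
  | zero => simp
  | succ t ih =>
    rw [Nat.succ_mul, sum_range_add, ih]
    have : ∑ x ∈ range N, g ((t * N + x : ℕ) : ZMod N) = ∑ x ∈ range N, g (x : ZMod N) := by
      refine sum_congr rfl fun x _ => ?_
      congr 1
      push_cast
      rw [ZMod.natCast_self]
      ring
    rw [this]
    push_cast
    ring

/-- A function of `x` modulo `3^m`, summed over `x < 3^K`. -/
theorem sum_range_periodic (K m : ℕ) (h : m ≤ K) (g : ZMod (3 ^ m) → ℝ) :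
    ∑ x ∈ range (3 ^ K), g (x : ZMod (3 ^ m)) =
      (3 : ℝ) ^ K / 3 ^ m * ∑ x ∈ range (3 ^ m), g (x : ZMod (3 ^ m)) := by
  have e : 3 ^ K = 3 ^ (K - m) * 3 ^ m := by
    rw [← pow_add]
    congr 1
    omega
  have e' : (3 : ℝ) ^ K / 3 ^ m = ((3 ^ (K - m) : ℕ) : ℝ) := by
    have : (3 : ℝ) ^ K = 3 ^ (K - m) * 3 ^ m := by exact_mod_cast e
    rw [this]
    push_cast
    field_simp
  rw [e, c8_periodic, e']

theorem c8_step (d r : ℤ) (K m n L : ℕ) (h : m ≤ K) :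
    osc d r (K + 1) m n L ≤ osc d r (K + 1) K n L + osc d r K m n L := by
  unfold osc
  rw [← sum_add_distrib]
  refine sum_le_sum fun l _ => ?_
  set g : ZMod (3 ^ K) → ℝ := fun Y => |pz d r K n l Y -
    (3 : ℝ) ^ m / 3 ^ K * pz d r m n l (ZMod.castHom (pow_dvd_pow 3 h) (ZMod (3 ^ m)) Y)| with hg
  have hgx : ∀ x : ℕ, g (x : ZMod (3 ^ K)) = |pz d r K n l (x : ZMod (3 ^ K)) -
      (3 : ℝ) ^ m / 3 ^ K * pz d r m n l (x : ZMod (3 ^ m))| := by
    intro x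
    rw [hg]
    simp only [map_natCast]
  have h1 := sum_range_periodic (K + 1) K (Nat.le_succ K) g
  have h2 : (3 : ℝ) ^ K / 3 ^ (K + 1) * ∑ x ∈ range (3 ^ (K + 1)), g (x : ZMod (3 ^ K)) =
      ∑ x ∈ range (3 ^ K), g (x : ZMod (3 ^ K)) := by
    rw [h1]
    field_simp
  have h3 : ∑ x ∈ range (3 ^ K), g (x : ZMod (3 ^ K)) = ∑ x ∈ range (3 ^ K),
      |pz d r K n l (x : ZMod (3 ^ K)) - (3 : ℝ) ^ m / 3 ^ K * pz d r m n l (x : ZMod (3 ^ m))| :=
    sum_congr rfl fun x _ => hgx x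
  rw [← h3, ← h2, mul_sum, ← sum_add_distrib]
  refine sum_le_sum fun x _ => ?_
  rw [hgx]
  have e1 : pz d r (K + 1) n l (x : ZMod (3 ^ (K + 1))) -
      (3 : ℝ) ^ m / 3 ^ (K + 1) * pz d r m n l (x : ZMod (3 ^ m)) =
      (pz d r (K + 1) n l (x : ZMod (3 ^ (K + 1))) -
        (3 : ℝ) ^ K / 3 ^ (K + 1) * pz d r K n l (x : ZMod (3 ^ K))) +
      (3 : ℝ) ^ K / 3 ^ (K + 1) * (pz d r K n l (x : ZMod (3 ^ K)) -
        (3 : ℝ) ^ m / 3 ^ K * pz d r m n l (x : ZMod (3 ^ m))) := by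
    field_simp
    ring
  rw [e1]
  refine (abs_add_le _ _).trans ?_
  rw [abs_mul, abs_of_nonneg (show (0:ℝ) ≤ (3 : ℝ) ^ K / 3 ^ (K + 1) by positivity)]

/-- `pz K x - 3^{m-K} pz m x = ∑_{j=m}^{K-1} 3^{j+1-K} (pz (j+1) x - (1/3) pz j x)`, and `∑_{x<3^K}` of the `j`-th absolute value is
`3^{j+1-K}·3^{K-j-1} ∑_{x<3^{j+1}} |...|` (`sum_range_periodic`; `(x : ZMod (3^j))` is a function of `(x : ZMod (3^(j+1)))`).
Induction on `K` is an alternative: `osc K m ≤ osc K (K-1) + osc (K-1) m`. -/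
theorem osc_telescope (d r : ℤ) (K m n L : ℕ) (h : m ≤ K) :
    osc d r K m n L ≤ ∑ j ∈ Ico m K, osc d r (j + 1) j n L := by
  induction K, h using Nat.le_induction with
  | base =>
    rw [Ico_self, sum_empty]
    unfold osc
    refine le_of_eq (sum_eq_zero fun l _ => sum_eq_zero fun x _ => ?_)
    rw [div_self (by positivity), one_mul, sub_self, abs_zero]
  | succ K hK ih =>
    rw [sum_Ico_succ_top hK]
    have := c8_step d r K m n L hK
    linarith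

end Pool.Agent.Lib.MP_d0d59f_nt.AA

end

section

/-!
Natural densities of the sets of integers which are invariant under `T_d` up to finitely many
exceptions: definitions.  Everything about words, paths and `nb`, `pz`, `osc`, `hz` is in
`AA/Defs.lean`.
-/

namespace Pool.Agent.Lib.MP_d0d59f_nt.ND

open Finset AA

/-- Number of odd integers `N ≡ r mod 3^m` of `S` in the window `[y, 2y)`. -/
noncomputable def cS (S : Set ℤ) (m : ℕ) (r : ℤ) (y : ℝ) : ℕ :=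
  Set.ncard {N : ℤ | N ∈ itv y (2 * y) ∧ Odd N ∧ N ≡ r [ZMOD 3 ^ m] ∧ N ∈ S}

/-- Density of `S` among the odd integers `N ≡ r mod 3^m` of `[y, 2y)`. -/
noncomputable def ro (S : Set ℤ) (m : ℕ) (r : ℤ) (y : ℝ) : ℝ :=
  (cS S m r y : ℝ) / (y / (2 * 3 ^ m))

/-- `S` is invariant under `T_d` above `b`. -/
def Inv (d : ℤ) (b : ℝ) (S : Set ℤ) : Prop :=
  ∀ x : ℤ, b < |(x : ℝ)| → (x ∈ S ↔ T d x ∈ S)

/-- The predicted density at the scale `y` after `n` steps. -/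
noncomputable def GG (S : Set ℤ) (d : ℤ) (y : ℝ) (n : ℕ) : ℝ :=
  ∑ l ∈ Icc (2 * n - kk y) (2 * n + kk y), ∑ c ∈ range (3 ^ Nat.sqrt (kk y / 2)),
    pz d 0 (Nat.sqrt (kk y / 2)) n l ((c : ℕ) : ZMod (3 ^ Nat.sqrt (kk y / 2))) *
      ro S (Nat.sqrt (kk y / 2)) c (3 ^ n * y / 2 ^ l)

/-- `log₂ 3`. -/
noncomputable def lam : ℝ := Real.logb 2 3

/-- `nb n` extended by zero to the integers. -/
noncomputable def nbz (n : ℕ) (z : ℤ) : ℝ := if 0 ≤ z then nb n z.toNat else 0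

/-- The properties of the density `h(t)` of `S` at the scale `2^t` which are used in the analytic
part. -/
structure Avg (h : ℝ → ℝ) (A : ℕ) (C T0 : ℝ) : Prop where
  C_nonneg : 0 ≤ C
  T0_ge : 1000 ≤ T0
  nonneg : ∀ t, 0 ≤ h t
  le : ∀ t, h t ≤ 5
  step : ∀ t, T0 ≤ t → ∀ n : ℕ, ⌊t / 250⌋₊ ≤ n → n ≤ 10 * ⌊t / 250⌋₊ →
    |h t - ∑' l : ℕ, nb n l * h (t + n * lam - l)| ≤ C / t ^ A
  cont : ∀ t, T0 ≤ t → ∀ s, t ≤ s → s ≤ t + 1 → |h s - h t| ≤ C * (s - t) + C / t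
  tile : ∀ x t, x ≤ t → t ≤ x + 1 → h t ≤ h x + 2 * h (x + 1)

theorem Inv.compl {d : ℤ} {b : ℝ} {S : Set ℤ} (h : Inv d b S) : Inv d b Sᶜ := by
  intro x hx
  rw [Set.mem_compl_iff, Set.mem_compl_iff, h x hx]

theorem Inv.mono {d : ℤ} {b b' : ℝ} {S : Set ℤ} (h : Inv d b S) (hb : b ≤ b') : Inv d b' S :=
  fun x hx => h x (lt_of_le_of_lt hb hx)

end Pool.Agent.Lib.MP_d0d59f_nt.ND

end

section

/-! Row nd-G3 (about 170 lines): exchange of the sums, with the residue classes kept. -/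

namespace Pool.Agent.Lib.MP_d0d59f_nt.ND

open Finset AA

open Classical in
/-- Grouping a sum over a finite set of integers by the residue modulo `q`. -/
private theorem g3_group (S : Finset ℤ) (q : ℕ) (hq : 0 < q) (f : ℤ → ℝ) (g : ℕ → ℝ)
    (hfg : ∀ (M : ℤ) (x : ℕ), M ≡ x [ZMOD q] → f M = g x) :
    ∑ M ∈ S, f M = ∑ x ∈ range q, g x * ((S.filter fun M => M ≡ x [ZMOD q]).card : ℝ) := by
  have hq' : (0 : ℤ) < q := by exact_mod_cast hq
  have hmap : ∀ M ∈ S, (M % (q : ℤ)).toNat ∈ range q := by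
    intro M _
    rw [mem_range]
    have h1 := Int.emod_nonneg M hq'.ne'
    have h2 := Int.emod_lt_of_pos M hq'
    omega
  rw [← Finset.sum_fiberwise_of_maps_to hmap]
  refine Finset.sum_congr rfl fun x hx => ?_
  rw [mem_range] at hx
  have hfil : (S.filter fun M => (M % (q : ℤ)).toNat = x) = S.filter fun M => M ≡ x [ZMOD q] := by
    refine Finset.filter_congr fun M _ => ?_
    have h1 := Int.emod_nonneg M hq'.ne'
    have h2 := Int.emod_lt_of_pos M hq'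
    have hx2 : ((x : ℤ) % q) = x := Int.emod_eq_of_lt (by positivity) (by exact_mod_cast hx)
    unfold Int.ModEq
    rw [hx2]
    omega
  rw [hfil]
  rw [Finset.sum_congr rfl (g := fun _ => g x)]
  · rw [Finset.sum_const, nsmul_eq_mul, mul_comm]
  · intro M hM
    rw [Finset.mem_filter] at hM
    exact hfg M x hM.2

private theorem g3_modEq_cast {K : ℕ} {M : ℤ} {x : ℕ} (h : M ≡ x [ZMOD ((3 ^ K : ℕ) : ℤ)]) :
    (M : ZMod (3 ^ K)) = (x : ZMod (3 ^ K)) := by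
  have := (ZMod.intCast_eq_intCast_iff M (x : ℤ) (3 ^ K)).2 h
  simpa using this

/-- PROOF: the proof of `AA.dens_word` (AA/B4aWord.lean) with `M ∈ Q` in the place of
`bad d B (t - l) M`; in its first part (grouping `M` by the residue `c < 3^m'`) stop before `hβ` is
used: the part is `2^l 3^m' / 3^(n+m) ∑_c pz d r m' n l c * cS Q m' c z`, `z = 3^n y/2^l`, which is the
first term on the right (`ro = cS / (z / (2 * 3^m'))`, `2^l z = 3^n y`). The second part (osc) is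
unchanged. -/
theorem gword {d : ℤ} (Q : Set ℤ) (n m m' l : ℕ) (hm' : m' ≤ n + m) (r : ℤ)
    (y : ℝ) (hy : 0 < y) :
    ∑ e ∈ comps n l,
        (Set.ncard {M : ℤ | M ∈ itv (3 ^ n * y / 2 ^ l) (2 * (3 ^ n * y / 2 ^ l)) ∧ Odd M ∧
          hz d r (n + m) e = (M : ZMod (3 ^ (n + m))) ∧ M ∈ Q} : ℝ) ≤
      y / (2 * 3 ^ m) * (∑ c ∈ range (3 ^ m'), pz d r m' n l ((c : ℕ) : ZMod (3 ^ m')) *
        ro Q m' c (3 ^ n * y / 2 ^ l)) +
      y / (2 * 3 ^ m) * ∑ x ∈ range (3 ^ (n + m)),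
        |pz d r (n + m) n l (x : ZMod (3 ^ (n + m)))
          - (3 : ℝ) ^ m' / 3 ^ (n + m) * pz d r m' n l (x : ZMod (3 ^ m'))|
      + 2 ^ (l + 1) * nb n l := by
  classical
  set z : ℝ := 3 ^ n * y / 2 ^ l with hz_def
  have hzpos : 0 < z := by positivity
  set K : ℕ := n + m with hK
  set c : ℝ := (3 : ℝ) ^ m' / 3 ^ K with hc
  have hcpos : 0 < c := by positivity
  set S : Finset ℤ := (itv z (2 * z)).filter fun M => Odd M ∧ M ∈ Q with hS
  -- the counts as finset cardinalities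
  have h1 : ∀ e ∈ comps n l,
      (Set.ncard {M : ℤ | M ∈ itv z (2 * z) ∧ Odd M ∧
          hz d r K e = (M : ZMod (3 ^ K)) ∧ M ∈ Q} : ℝ)
        = ∑ M ∈ S, (if hz d r K e = (M : ZMod (3 ^ K)) then (1 : ℝ) else 0) := by
    intro e _
    have hset : {M : ℤ | M ∈ itv z (2 * z) ∧ Odd M ∧
          hz d r K e = (M : ZMod (3 ^ K)) ∧ M ∈ Q}
        = ((S.filter fun M : ℤ => hz d r K e = (M : ZMod (3 ^ K)) : Finset ℤ) : Set ℤ) := by
      ext M
      simp only [Set.mem_ofPred_eq, Finset.coe_filter, hS, Finset.mem_filter]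
      tauto
    rw [hset, Set.ncard_coe_finset, Finset.card_filter]
    push_cast
    rfl
  rw [Finset.sum_congr rfl h1, Finset.sum_comm]
  -- exchange: the inner sum is `2^l pz`
  have h2 : ∀ M ∈ S, ∑ e ∈ comps n l, (if hz d r K e = (M : ZMod (3 ^ K)) then (1 : ℝ) else 0)
      = 2 ^ l * pz d r K n l (M : ZMod (3 ^ K)) := by
    intro M _
    unfold pz
    rw [← mul_assoc, ← mul_pow, Finset.card_filter]
    norm_num
  rw [Finset.sum_congr rfl h2]
  -- split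
  have h3 : ∀ M ∈ S, 2 ^ l * pz d r K n l (M : ZMod (3 ^ K)) ≤
      2 ^ l * c * pz d r m' n l (M : ZMod (3 ^ m')) +
      2 ^ l * |pz d r K n l (M : ZMod (3 ^ K)) - c * pz d r m' n l (M : ZMod (3 ^ m'))| := by
    intro M _
    have := le_abs_self (pz d r K n l (M : ZMod (3 ^ K)) - c * pz d r m' n l (M : ZMod (3 ^ m')))
    have h2l : (0 : ℝ) < 2 ^ l := by positivity
    nlinarith
  refine (Finset.sum_le_sum h3).trans ?_
  rw [Finset.sum_add_distrib, ← Finset.mul_sum, ← Finset.mul_sum]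
  -- first part
  have hA : ∑ M ∈ S, pz d r m' n l (M : ZMod (3 ^ m')) =
      ∑ x ∈ range (3 ^ m'), pz d r m' n l ((x : ℕ) : ZMod (3 ^ m')) * (cS Q m' x z : ℝ) := by
    rw [g3_group S (3 ^ m') (by positivity) (fun M => pz d r m' n l (M : ZMod (3 ^ m')))
      (fun x => pz d r m' n l (x : ZMod (3 ^ m')))
      (fun M x h => by simp only [g3_modEq_cast h])]
    refine Finset.sum_congr rfl fun x _ => ?_
    congr 1
    unfold cS
    have hset : {N : ℤ | N ∈ itv z (2 * z) ∧ Odd N ∧ N ≡ (x : ℤ) [ZMOD 3 ^ m'] ∧ N ∈ Q}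
        = ((S.filter fun M : ℤ => M ≡ (x : ℕ) [ZMOD ((3 ^ m' : ℕ) : ℤ)] : Finset ℤ) : Set ℤ) := by
      ext M
      simp only [Set.mem_ofPred_eq, Finset.coe_filter, hS, Finset.mem_filter, Nat.cast_pow,
        Nat.cast_ofNat]
      tauto
    rw [hset, Set.ncard_coe_finset]
  -- second part
  have hB : ∑ M ∈ S, |pz d r K n l (M : ZMod (3 ^ K)) - c * pz d r m' n l (M : ZMod (3 ^ m'))| ≤
      (z / (2 * 3 ^ K) + 1) * ∑ x ∈ range (3 ^ K), |pz d r K n l (x : ZMod (3 ^ K))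
          - c * pz d r m' n l (x : ZMod (3 ^ m'))| := by
    rw [g3_group S (3 ^ K) (by positivity)
      (fun M => |pz d r K n l (M : ZMod (3 ^ K)) - c * pz d r m' n l (M : ZMod (3 ^ m'))|)
      (fun x => |pz d r K n l (x : ZMod (3 ^ K)) - c * pz d r m' n l (x : ZMod (3 ^ m'))|)
      (fun M x h => by
        have h' : M ≡ x [ZMOD ((3 ^ m' : ℕ) : ℤ)] := by
          refine h.of_dvd ?_
          exact_mod_cast pow_dvd_pow 3 hm'
        simp only [g3_modEq_cast h, g3_modEq_cast h'])]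
    rw [Finset.mul_sum]
    refine Finset.sum_le_sum fun x _ => ?_
    rw [mul_comm]
    refine mul_le_mul_of_nonneg_right ?_ (abs_nonneg _)
    have hcard := card_odd_class_le z (2 * z) (by linarith) K (x : ℤ)
    have hle : ((S.filter fun M => M ≡ (x : ℕ) [ZMOD ((3 ^ K : ℕ) : ℤ)]).card : ℝ) ≤
        (((itv z (2 * z)).filter fun N => Odd N ∧ N ≡ (x : ℤ) [ZMOD 3 ^ K]).card : ℝ) := by
      norm_cast
      refine Finset.card_le_card ?_
      intro M hM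
      simp only [hS, Finset.mem_filter, Nat.cast_pow, Nat.cast_ofNat] at hM ⊢
      tauto
    refine hle.trans (hcard.trans (le_of_eq ?_))
    ring
  have hC := osc_inner_le d r K m' n l hm'
  set W : ℝ := ∑ x ∈ range (3 ^ m'), pz d r m' n l ((x : ℕ) : ZMod (3 ^ m')) * ro Q m' x z with hW
  have e1 : 2 ^ l * c * ∑ M ∈ S, pz d r m' n l (M : ZMod (3 ^ m')) = y / (2 * 3 ^ m) * W := by
    rw [hA, hW, Finset.mul_sum, Finset.mul_sum]
    refine Finset.sum_congr rfl fun x _ => ?_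
    have hro : ro Q m' x z * (z / (2 * 3 ^ m')) = (cS Q m' x z : ℝ) := by
      unfold ro
      exact div_mul_cancel₀ _ (by positivity)
    have h4 : 2 ^ l * c * (z / (2 * 3 ^ m')) = y / (2 * 3 ^ m) := by
      rw [hc, hz_def, hK, pow_add]
      field_simp
    rw [← hro, ← h4]
    ring
  have e2 : 2 ^ l * (z / (2 * 3 ^ K)) = y / (2 * 3 ^ m) := by
    rw [hz_def, hK, pow_add]
    field_simp
  have h2l : (0 : ℝ) < 2 ^ l := by positivity
  set O : ℝ := ∑ x ∈ range (3 ^ K), |pz d r K n l (x : ZMod (3 ^ K))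
          - c * pz d r m' n l (x : ZMod (3 ^ m'))| with hO
  have hW0 : y / (2 * 3 ^ m) * W + 2 ^ l * ∑ M ∈ S, |pz d r K n l (M : ZMod (3 ^ K))
      - c * pz d r m' n l (M : ZMod (3 ^ m'))| ≤
      y / (2 * 3 ^ m) * W + 2 ^ l * ((z / (2 * 3 ^ K) + 1) * O) :=
    add_le_add le_rfl (mul_le_mul_of_nonneg_left hB h2l.le)
  rw [e1]
  refine hW0.trans ?_
  have h5 : 2 ^ l * ((z / (2 * 3 ^ K) + 1) * O) = y / (2 * 3 ^ m) * O + 2 ^ l * O := by
    rw [← e2]; ring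
  have h6 : 2 ^ l * O ≤ 2 ^ l * (2 * nb n l) := mul_le_mul_of_nonneg_left hC h2l.le
  have h7 : (2 : ℝ) ^ l * (2 * nb n l) = 2 ^ (l + 1) * nb n l := by
    rw [pow_succ]; ring
  rw [h5]
  linarith


end Pool.Agent.Lib.MP_d0d59f_nt.ND

end

section

/-! Row nd-G9 (about 70 lines): invariance along a path. -/

namespace Pool.Agent.Lib.MP_d0d59f_nt.ND

open Finset AA

private theorem T_lower {d : ℤ} (hd : Odd d) (x : ℤ) (hx : (0 : ℝ) ≤ x) :
    ((x : ℝ) - |(d : ℝ)|) / 2 ≤ ((T d x : ℤ) : ℝ) := by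
  have hx0 : (0 : ℤ) ≤ x := by exact_mod_cast hx
  have h : x - |d| ≤ 2 * T d x := by
    have h1 := neg_abs_le d
    have h2 := abs_nonneg d
    obtain ⟨d', hd'⟩ := hd
    unfold T
    split_ifs with he
    · omega
    · omega
  have h2 : ((x : ℝ) - |(d : ℝ)|) ≤ 2 * ((T d x : ℤ) : ℝ) := by exact_mod_cast h
  linarith

/-- `T^j N ≥ N / 2^j - |d|` if this is nonnegative (`2 T x = x` or `2 T x = 3 x + d ≥ x - |d|` for `x ≥ 0`;
claim by induction: `T^j N ≥ (N + |d|)/2^j - |d|`). -/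
theorem iter_lower {d : ℤ} (hd : Odd d) (N : ℤ) (j : ℕ) (h : |(d : ℝ)| * 2 ^ j ≤ N) :
    (N : ℝ) / 2 ^ j - |(d : ℝ)| ≤ (((T d)^[j] N : ℤ) : ℝ) := by
  have key : ∀ j : ℕ, |(d : ℝ)| * 2 ^ j ≤ N →
      ((N : ℝ) + |(d : ℝ)|) / 2 ^ j - |(d : ℝ)| ≤ (((T d)^[j] N : ℤ) : ℝ) := by
    intro j
    induction j with
    | zero => intro _; simp
    | succ j ih =>
      intro hj
      have hd0 : 0 ≤ |(d : ℝ)| := abs_nonneg _
      have h2j : (0 : ℝ) < 2 ^ j := by positivity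
      have hj' : |(d : ℝ)| * 2 ^ j ≤ N := by
        refine le_trans ?_ hj
        rw [pow_succ]
        nlinarith [mul_nonneg hd0 h2j.le]
      have h1 := ih hj'
      have h3 : |(d : ℝ)| ≤ ((N : ℝ) + |(d : ℝ)|) / 2 ^ j := by
        rw [le_div_iff₀ h2j]
        linarith
      have h4 : (0 : ℝ) ≤ (((T d)^[j] N : ℤ) : ℝ) := by linarith
      rw [Function.iterate_succ_apply']
      have h5 := T_lower hd _ h4
      have h6 : ((N : ℝ) + |(d : ℝ)|) / 2 ^ (j + 1) = ((N : ℝ) + |(d : ℝ)|) / 2 ^ j / 2 := by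
        rw [pow_succ, div_div]
      rw [h6]
      linarith
  refine le_trans ?_ (key j h)
  have hd0 : 0 ≤ |(d : ℝ)| := abs_nonneg _
  have h2j : (0 : ℝ) < 2 ^ j := by positivity
  have : (N : ℝ) / 2 ^ j ≤ ((N : ℝ) + |(d : ℝ)|) / 2 ^ j :=
    div_le_div_of_nonneg_right (by linarith) h2j.le
  linarith

/-- `(T d)^[|e|] N = M` (`isPath_iterate`) and all `T^j N`, `j < |e|`, are `> b` (`iter_lower`). -/
theorem inv_path {d : ℤ} (hd : Odd d) {b : ℝ} (hb : 0 ≤ b) {S : Set ℤ} (hS : Inv d b S) {e : List ℕ}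
    {N M : ℤ} (hp : isPath d e N M) (hN : (b + |(d : ℝ)|) * 2 ^ e.sum < N) : N ∈ S ↔ M ∈ S := by
  rw [← isPath_iterate hd hp]
  have hd0 : 0 ≤ |(d : ℝ)| := abs_nonneg _
  have key : ∀ j : ℕ, j ≤ e.sum → (N ∈ S ↔ (T d)^[j] N ∈ S) := by
    intro j
    induction j with
    | zero => intro _; simp
    | succ j ih =>
      intro hj
      rw [ih (by omega), Function.iterate_succ_apply']
      refine hS _ ?_
      have h2j : (0 : ℝ) < 2 ^ j := by positivity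
      have hpow : (2 : ℝ) ^ j ≤ 2 ^ e.sum := pow_le_pow_right₀ (by norm_num) (by omega)
      have h1 : (b + |(d : ℝ)|) * 2 ^ j < N :=
        lt_of_le_of_lt (mul_le_mul_of_nonneg_left hpow (by linarith)) hN
      have h2 : |(d : ℝ)| * 2 ^ j ≤ N := by
        have : 0 ≤ b * 2 ^ j := mul_nonneg hb h2j.le
        linarith
      have h3 := iter_lower hd N j h2
      have h4 : b + |(d : ℝ)| < (N : ℝ) / 2 ^ j := by
        rw [lt_div_iff₀ h2j]
        exact h1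
      exact lt_of_lt_of_le (by linarith) (le_abs_self _)
  exact key _ le_rfl

end Pool.Agent.Lib.MP_d0d59f_nt.ND

end
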