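import Mathlib
import Pool.Agent.Lib.MP_d0d59f_nt.NK.K007
import Pool.Agent.Lib.MP_d0d59f_nt.NK.K008
import Pool.Agent.Lib.MP_d0d59f_nt.NK.K011
import Pool.Agent.Lib.MP_d0d59f_nt.NK.K013

section

/-! Row D7 (about 400 lines, may be split: `deep_fixed`, `deep`): the deep states. -/

namespace Pool.Agent.Lib.MP_d0d59f_nt.AA

open Finset

theorem d7b_exists_m (K H : ℕ) (hH : 1 ≤ H) (g : ℤ) (hg : Odd g) :
    ∃ m₀ : ℤ, Odd m₀ ∧ (2 : ℤ) ^ H ∣ g + m₀ * 3 ^ K := by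
  have hc : IsCoprime ((2 : ℤ) ^ H) (3 ^ K) := by
    apply IsCoprime.pow
    rw [Int.isCoprime_iff_gcd_eq_one]
    norm_num
  obtain ⟨a, b, hab⟩ := hc
  refine ⟨-(g * b), ?_, ⟨g * a, by linear_combination (-g) * hab⟩⟩
  have hb : Odd (b * 3 ^ K) := by
    have h2 : b * 3 ^ K = 1 - a * 2 ^ H := by linarith
    rw [h2]
    obtain ⟨H', rfl⟩ : ∃ H', H = H' + 1 := ⟨H - 1, by omega⟩
    exact ⟨-(a * 2 ^ H'), by rw [pow_succ]; ring⟩
  have hb' : Odd b := by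
    rcases Int.even_or_odd b with h | h
    · exact absurd (h.mul_right (3 ^ K)) (Int.not_even_iff_odd.mpr hb)
    · exact h
  rw [Int.odd_iff] at *
  have := Int.odd_mul.mpr ⟨Int.odd_iff.mpr hg, Int.odd_iff.mpr hb'⟩
  rw [← Int.odd_iff]
  exact this.neg

/-- `∑_{k' ≤ D} ∑_{b ∈ Ico (max k' B' + 1) (L+1)} pw b ≤ ∑_{b ∈ Ico (B'+1) (L+1)} b pw b`. -/
theorem d7b_exchange (D B' L : ℕ) :
    ∑ k' ∈ range (D + 1), ∑ b ∈ Ico (max k' B' + 1) (L + 1), pw b ≤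
      ∑ b ∈ Ico (B' + 1) (L + 1), (b : ℝ) * pw b := by
  have h1 : ∀ k' ∈ range (D + 1), ∑ b ∈ Ico (max k' B' + 1) (L + 1), pw b =
      ∑ b ∈ Ico (B' + 1) (L + 1), if k' < b then pw b else 0 := by
    intro k' _
    rw [← sum_filter]
    apply sum_congr _ (fun _ _ => rfl)
    ext b
    simp only [mem_Ico, mem_filter]
    omega
  rw [sum_congr rfl h1, sum_comm]
  apply sum_le_sum
  intro b _
  rw [← sum_filter, sum_const, nsmul_eq_mul]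
  apply mul_le_mul_of_nonneg_right _ (pw_nonneg b)
  have : ((range (D + 1)).filter fun k' => k' < b).card ≤ (range b).card := by
    apply card_le_card
    intro x hx
    simp only [mem_filter, mem_range] at *
    omega
  rw [card_range] at this
  exact_mod_cast this

/-- `∑_{k' ≤ D} ∑_{b ∈ Ico (k' + 1) (B'+1)} pw b ≤ 4`. -/
theorem d7b_exchange2 (D B' : ℕ) :
    ∑ k' ∈ range (D + 1), ∑ b ∈ Ico (k' + 1) (B' + 1), pw b ≤ 4 := by
  have h := d7b_exchange D 0 B'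
  simp only [Nat.max_zero] at h
  refine h.trans ?_
  refine le_trans ?_ (sum_mul_pw_le (B' + 1))
  apply sum_le_sum_of_subset_of_nonneg
  · intro x hx
    simp only [mem_Ico, mem_range] at *
    omega
  · intro b _ _
    have := pw_nonneg b
    positivity

/-- For fixed parameters (`B' < D`, `H = B' + (K₁+1) B`). `crossing` with `T`; `y = 2^D g`, so
`i2^{β+b} y = i2^{β+b-D} g` for `β + b > D`. The last sum is `≤ V ∑_{β≤D} nb (2T) β ≤ V (5/4)^D (2/3)^{2T}` (`low_tail2`).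
In the first sum put `k' = D - β`.
* `b > B'`: `∑_{k' ≤ D} (∑_t nb (2t) (D-k')) ∑_{b > max(k',B')} pw b V ≤ V ∑_{b > B'} b pw b ≤ V (B'^2+3B'+4)/2^{B'}`
  (`sum_nb_even_le_one`, at most `b` values of `k' < b`; `sum_mul_pw_Ico_le`).
* `b ≤ B'`: `k' < b ≤ B' < D`, `deep_term` with `u = b - k' ≤ B'`, and `∑_{b ≤ B'} pw b · b ≤ 4` (`sum_mul_pw_le`),
  `√(D-k') ≥ √(D-B')`. -/
theorem deep_fixed (K L J D T B B' K₁ : ℕ) (hB : 3 ≤ B) (hB' : 1 ≤ B') (hB'D : B' < D)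
    (y : ZMod (3 ^ K)) (g : ℤ) (hg : Odd g)
    (hy : y = (2 : ZMod (3 ^ K)) ^ D * (g : ZMod (3 ^ K))) (hTJ : T + (K₁ + 1) ≤ J) (V : ℝ)
    (hV0 : 0 ≤ V)
    (hV : ∀ k β : ℕ, 1 ≤ k → k ≤ T + (K₁ + 1) → qq K L (J - k) (9 ^ k * (i2 K ^ β * y)) ≤ V) :
    qq K L J y ≤
      (4 * ((0.93 : ℝ) ^ K₁ + 2 * 2 ^ (B' + (K₁ + 1) * B - 3) / Real.sqrt ((D - B' : ℕ) : ℝ)
        + (K₁ + 1) * (((B : ℝ) + 1) / 2 ^ B + 4 * 9 ^ (K₁ + 1) * (9 ^ T * |(g : ℝ)| / 3 ^ K)))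
        + ((B' : ℝ) ^ 2 + 3 * B' + 4) / 2 ^ B' + (5 / 4 : ℝ) ^ D * (2 / 3) ^ (2 * T)) * V := by
  set X : ℝ := (0.93 : ℝ) ^ K₁ + 2 * 2 ^ (B' + (K₁ + 1) * B - 3) / Real.sqrt ((D - B' : ℕ) : ℝ)
        + (K₁ + 1) * (((B : ℝ) + 1) / 2 ^ B + 4 * 9 ^ (K₁ + 1) * (9 ^ T * |(g : ℝ)| / 3 ^ K)) with hX
  have hX0 : 0 ≤ X := by rw [hX]; positivity
  -- i2 and powers of two
  have hi : ∀ u : ℕ, i2 K ^ (D + u) * y = i2 K ^ u * (g : ZMod (3 ^ K)) := by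
    intro u
    rw [hy, pow_add]
    have := two_pow_mul_i2_pow K D
    linear_combination (i2 K ^ u * (g : ZMod (3 ^ K))) * this
  obtain ⟨m₀, hm₀, hdiv⟩ := d7b_exists_m K (B' + (K₁ + 1) * B) (by omega) g hg
  have hVg : ∀ k β : ℕ, 1 ≤ k → k ≤ T + (K₁ + 1) →
      qq K L (J - k) (9 ^ k * (i2 K ^ β * (g : ZMod (3 ^ K)))) ≤ V := by
    intro k β h1 h2
    rw [← hi β]
    exact hV k (D + β) h1 h2
  have hcross := crossing K L J D T (by omega) y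
  -- the last sum
  have hlast : ∑ β ∈ range (D + 1), nb (2 * T) β * qq K L (J - T) (9 ^ T * (i2 K ^ β * y)) ≤
      (5 / 4 : ℝ) ^ D * (2 / 3) ^ (2 * T) * V := by
    have hq : ∀ β ∈ range (D + 1), nb (2 * T) β * qq K L (J - T) (9 ^ T * (i2 K ^ β * y)) ≤
        nb (2 * T) β * V := by
      intro β _
      rcases Nat.eq_zero_or_pos T with hT | hT
      · subst hT
        rw [Nat.mul_zero, nb_zero]
        split_ifs with hβ
        · subst hβ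
          apply mul_le_mul_of_nonneg_left _ (by norm_num)
          obtain ⟨J', rfl⟩ : ∃ J', J = J' + 1 := ⟨J - 1, by omega⟩
          apply qq_succ_le_const _ V hV0
          intro b
          have := hV 1 b le_rfl (by omega)
          simpa using this
        · simp
      · exact mul_le_mul_of_nonneg_left (hV T β hT (by omega)) (nb_nonneg _ _)
    refine (sum_le_sum hq).trans ?_
    rw [← sum_mul]
    exact mul_le_mul_of_nonneg_right (low_tail2 (2 * T) D) hV0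
  -- first sum: reindex
  have hre : ∀ t ∈ range T, ∑ β ∈ range (D + 1), nb (2 * t) β *
        ∑ b ∈ Ico (D - β + 1) (L + 1), pw b *
          qq K L (J - t - 1) (9 ^ (t + 1) * (i2 K ^ (β + b) * y)) ≤
      ∑ k' ∈ range (D + 1), (∑ b ∈ Ico (k' + 1) (B' + 1), pw b * (nb (2 * t) (D - k') *
          qq K L (J - t - 1) (9 ^ (t + 1) * (i2 K ^ (b - k') * (g : ZMod (3 ^ K)))))
        + nb (2 * t) (D - k') * (∑ b ∈ Ico (max k' B' + 1) (L + 1), pw b * V)) := by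
    intro t ht
    rw [mem_range] at ht
    rw [← sum_range_reflect]
    apply sum_le_sum
    intro k' hk'
    rw [mem_range] at hk'
    have e1 : D + 1 - 1 - k' = D - k' := by omega
    have e2 : D - (D - k') = k' := by omega
    rw [e1, e2]
    have hsub : Ico (k' + 1) (L + 1) ⊆ Ico (k' + 1) (B' + 1) ∪ Ico (max k' B' + 1) (L + 1) := by
      intro b hb
      simp only [mem_union, mem_Ico] at *
      omega
    have hq0 : ∀ b, 0 ≤ pw b * qq K L (J - t - 1) (9 ^ (t + 1) * (i2 K ^ (D - k' + b) * y)) :=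
      fun b => mul_nonneg (pw_nonneg _) (qq_nonneg _ _ _ _)
    have h1 : ∑ b ∈ Ico (k' + 1) (L + 1), pw b *
          qq K L (J - t - 1) (9 ^ (t + 1) * (i2 K ^ (D - k' + b) * y)) ≤
        ∑ b ∈ Ico (k' + 1) (B' + 1), pw b *
          qq K L (J - t - 1) (9 ^ (t + 1) * (i2 K ^ (D - k' + b) * y)) +
        ∑ b ∈ Ico (max k' B' + 1) (L + 1), pw b *
          qq K L (J - t - 1) (9 ^ (t + 1) * (i2 K ^ (D - k' + b) * y)) := by
      refine (sum_le_sum_of_subset_of_nonneg hsub (fun b _ _ => hq0 b)).trans ?_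
      have := sum_union_inter (s₁ := Ico (k' + 1) (B' + 1)) (s₂ := Ico (max k' B' + 1) (L + 1))
        (f := fun b => pw b * qq K L (J - t - 1) (9 ^ (t + 1) * (i2 K ^ (D - k' + b) * y)))
      have h0 : 0 ≤ ∑ b ∈ Ico (k' + 1) (B' + 1) ∩ Ico (max k' B' + 1) (L + 1),
          pw b * qq K L (J - t - 1) (9 ^ (t + 1) * (i2 K ^ (D - k' + b) * y)) :=
        sum_nonneg (fun b _ => hq0 b)
      linarith
    have h2 : ∑ b ∈ Ico (max k' B' + 1) (L + 1), pw b *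
          qq K L (J - t - 1) (9 ^ (t + 1) * (i2 K ^ (D - k' + b) * y)) ≤
        ∑ b ∈ Ico (max k' B' + 1) (L + 1), pw b * V := by
      apply sum_le_sum
      intro b _
      apply mul_le_mul_of_nonneg_left _ (pw_nonneg _)
      have := hV (t + 1) (D - k' + b) (by omega) (by omega)
      rwa [show J - (t + 1) = J - t - 1 by omega] at this
    have h3 : ∑ b ∈ Ico (k' + 1) (B' + 1), pw b *
          qq K L (J - t - 1) (9 ^ (t + 1) * (i2 K ^ (D - k' + b) * y)) =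
        ∑ b ∈ Ico (k' + 1) (B' + 1), pw b *
          qq K L (J - t - 1) (9 ^ (t + 1) * (i2 K ^ (b - k') * (g : ZMod (3 ^ K)))) := by
      apply sum_congr rfl
      intro b hb
      rw [mem_Ico] at hb
      rw [← hi (b - k'), show D + (b - k') = D - k' + b by omega]
    calc nb (2 * t) (D - k') * ∑ b ∈ Ico (k' + 1) (L + 1), pw b *
          qq K L (J - t - 1) (9 ^ (t + 1) * (i2 K ^ (D - k' + b) * y))
        ≤ nb (2 * t) (D - k') * (∑ b ∈ Ico (k' + 1) (B' + 1), pw b *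
          qq K L (J - t - 1) (9 ^ (t + 1) * (i2 K ^ (b - k') * (g : ZMod (3 ^ K))))
          + ∑ b ∈ Ico (max k' B' + 1) (L + 1), pw b * V) := by
          apply mul_le_mul_of_nonneg_left _ (nb_nonneg _ _)
          rw [← h3]
          linarith
      _ = _ := by
          rw [mul_add, mul_sum]
          congr 1
          apply sum_congr rfl
          intro b _
          ring
  have hfirst : ∑ t ∈ range T, ∑ β ∈ range (D + 1), nb (2 * t) β *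
        ∑ b ∈ Ico (D - β + 1) (L + 1), pw b *
          qq K L (J - t - 1) (9 ^ (t + 1) * (i2 K ^ (β + b) * y)) ≤
      4 * X * V + ((B' : ℝ) ^ 2 + 3 * B' + 4) / 2 ^ B' * V := by
    refine (sum_le_sum hre).trans ?_
    rw [sum_comm]
    have h1 : ∀ k' ∈ range (D + 1), ∑ t ∈ range T,
        (∑ b ∈ Ico (k' + 1) (B' + 1), pw b * (nb (2 * t) (D - k') *
          qq K L (J - t - 1) (9 ^ (t + 1) * (i2 K ^ (b - k') * (g : ZMod (3 ^ K)))))
        + nb (2 * t) (D - k') * (∑ b ∈ Ico (max k' B' + 1) (L + 1), pw b * V)) ≤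
        (∑ b ∈ Ico (k' + 1) (B' + 1), pw b) * (X * V)
          + (∑ b ∈ Ico (max k' B' + 1) (L + 1), pw b) * V := by
      intro k' hk'
      rw [sum_add_distrib, sum_comm]
      apply add_le_add
      · rw [sum_mul]
        apply sum_le_sum
        intro b hb
        rw [mem_Ico] at hb
        rw [← mul_sum]
        apply mul_le_mul_of_nonneg_left _ (pw_nonneg _)
        have hd := deep_term K L J D T B K₁ (B' + (K₁ + 1) * B) k' (b - k') hB g m₀ hm₀ hdiv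
          (by omega) (by
            have : b - k' ≤ B' := by omega
            omega) (by omega) hTJ V hV0 hVg
        refine hd.trans ?_
        apply mul_le_mul_of_nonneg_right _ hV0
        rw [hX]
        have hs : 2 * 2 ^ (B' + (K₁ + 1) * B - 3) / Real.sqrt ((D - k' : ℕ) : ℝ) ≤
            2 * 2 ^ (B' + (K₁ + 1) * B - 3) / Real.sqrt ((D - B' : ℕ) : ℝ) := by
          apply div_le_div_of_nonneg_left (by positivity)
          · apply Real.sqrt_pos.mpr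
            have : 0 < D - B' := by omega
            exact_mod_cast this
          · apply Real.sqrt_le_sqrt
            have : D - B' ≤ D - k' := by omega
            exact_mod_cast this
        linarith
      · rw [← sum_mul, ← sum_mul]
        have h3 := sum_nb_even_le_one T (D - k')
        have h0 : 0 ≤ (∑ b ∈ Ico (max k' B' + 1) (L + 1), pw b) * V :=
          mul_nonneg (sum_nonneg (fun b _ => pw_nonneg b)) hV0
        calc _ ≤ 1 * ((∑ b ∈ Ico (max k' B' + 1) (L + 1), pw b) * V) :=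
              mul_le_mul_of_nonneg_right h3 h0
          _ = _ := one_mul _
    refine (sum_le_sum h1).trans ?_
    rw [sum_add_distrib, ← sum_mul, ← sum_mul]
    have h4 := d7b_exchange2 D B'
    have h5 := (d7b_exchange D B' L).trans (sum_mul_pw_Ico_le B' L)
    have h6 := mul_le_mul_of_nonneg_right h4 (mul_nonneg hX0 hV0)
    have h7 := mul_le_mul_of_nonneg_right h5 hV0
    linarith
  have hfin := hcross.trans (add_le_add hfirst hlast)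
  linarith

end Pool.Agent.Lib.MP_d0d59f_nt.AA

end

section

/-! Row D7 (about 400 lines, may be split: `deep_fixed`, `deep`): the deep states. -/

namespace Pool.Agent.Lib.MP_d0d59f_nt.AA

open Finset

theorem d7c_nine (D : ℕ) : (9 : ℝ) ^ (3 * D / 10) ≤ 1.94 ^ D := by
  rw [← pow_le_pow_iff_left₀ (by positivity) (by positivity) (show (10 : ℕ) ≠ 0 by norm_num)]
  calc ((9 : ℝ) ^ (3 * D / 10)) ^ 10 = 9 ^ (3 * D / 10 * 10) := by rw [pow_mul]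
    _ ≤ 9 ^ (3 * D) := pow_le_pow_right₀ (by norm_num) (by omega)
    _ = (9 ^ 3) ^ D := by rw [pow_mul]
    _ ≤ (1.94 ^ 10) ^ D := by
        apply pow_le_pow_left₀ (by norm_num)
        norm_num
    _ = (1.94 ^ D) ^ 10 := by rw [← pow_mul, ← pow_mul, mul_comm]

theorem d7c_low (D : ℕ) : (5 / 4 : ℝ) ^ D * (2 / 3) ^ (2 * (3 * D / 10)) ≤ 3 * 0.981 ^ D := by
  rw [← pow_le_pow_iff_left₀ (by positivity) (by positivity) (show (5 : ℕ) ≠ 0 by norm_num)]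
  have h1 : ((2 / 3 : ℝ)) ^ (2 * (3 * D / 10) * 5) * (2 / 3) ^ 9 ≤ (2 / 3) ^ (3 * D) := by
    rw [← pow_add]
    exact pow_le_pow_of_le_one (by norm_num) (by norm_num) (by omega)
  have h2 : ((2 / 3 : ℝ)) ^ (2 * (3 * D / 10) * 5) ≤ 243 * (2 / 3) ^ (3 * D) := by
    have h3 : (1 : ℝ) / 243 ≤ (2 / 3) ^ 9 := by norm_num
    have h4 : 0 < ((2 / 3 : ℝ)) ^ (2 * (3 * D / 10) * 5) := by positivity
    nlinarith
  calc ((5 / 4 : ℝ) ^ D * (2 / 3) ^ (2 * (3 * D / 10))) ^ 5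
      = ((5 / 4 : ℝ) ^ 5) ^ D * (2 / 3) ^ (2 * (3 * D / 10) * 5) := by
        rw [mul_pow, ← pow_mul, ← pow_mul, ← pow_mul, mul_comm D 5]
    _ ≤ ((5 / 4 : ℝ) ^ 5) ^ D * (243 * (2 / 3) ^ (3 * D)) := by
        apply mul_le_mul_of_nonneg_left h2 (by positivity)
    _ = 243 * ((5 / 4 : ℝ) ^ 5 * (2 / 3) ^ 3) ^ D := by
        rw [mul_pow, pow_mul (2 / 3 : ℝ) 3 D]
        ring
    _ ≤ 243 * (0.981 ^ 5) ^ D := by
        apply mul_le_mul_of_nonneg_left _ (by norm_num)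
        apply pow_le_pow_left₀ (by positivity)
        norm_num
    _ = (3 * 0.981 ^ D) ^ 5 := by
        rw [mul_pow, ← pow_mul, ← pow_mul, mul_comm 5 D]
        norm_num

/-- Deep lemma. Choose `K₁` with `4·0.93^{K₁} ≤ δ/6`, then `B` with `4 (K₁+1)(B+1)/2^B ≤ δ/6`, `B'` with
`(B'^2+3B'+4)/2^{B'} ≤ δ/6`, and then `D0` such that for `D ≥ D0` the remaining three terms are `≤ δ/6` each:
`8·2^{H-3}/√(D-B')`; `16 (K₁+1) 9^{K₁+1} 9^T |g|/3^K` with `|g|/3^K ≤ 1/2^D`, `T = 3D/10`,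
`9^T/2^D ≤ (729/1024)^{D/10}·C → 0`; `(5/4)^D (2/3)^{2T} ≤ C ((5/4)^5 (2/3)^3)^{D/5} → 0` (`0.9043`).
(`K₂ = K₁ + 1`.) -/
theorem deep (δ : ℝ) (hδ : 0 < δ) : ∃ K₂ D0 : ℕ, ∀ (K L J D : ℕ) (y : ZMod (3 ^ K)) (g : ℤ)
    (V : ℝ), D0 ≤ D → Odd g → y.valMinAbs = 2 ^ D * g → 3 * D / 10 + K₂ ≤ J → 0 ≤ V →
    (∀ k β : ℕ, 1 ≤ k → k ≤ 3 * D / 10 + K₂ → qq K L (J - k) (9 ^ k * (i2 K ^ β * y)) ≤ V) →
    qq K L J y ≤ δ * V := by
  have hδ6 : 0 < δ / 24 := by positivity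
  -- K₁
  obtain ⟨K₁, hK₁⟩ := exists_pow_lt_of_lt_one hδ6 (show (0.93 : ℝ) < 1 by norm_num)
  -- B
  have hB1 : Filter.Tendsto (fun B : ℕ => ((K₁ : ℝ) + 1) * (((B : ℝ) ^ 1 * (1 / 2) ^ B)
      + (B : ℝ) ^ 0 * (1 / 2) ^ B)) Filter.atTop (nhds (((K₁ : ℝ) + 1) * (0 + 0))) :=
    ((tendsto_pow_const_mul_const_pow_of_abs_lt_one 1
        (by rw [abs_of_pos] <;> norm_num : |(1 / 2 : ℝ)| < 1)).add
      (tendsto_pow_const_mul_const_pow_of_abs_lt_one 0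
        (by rw [abs_of_pos] <;> norm_num : |(1 / 2 : ℝ)| < 1))).const_mul _
  rw [show ((K₁ : ℝ) + 1) * (0 + 0) = 0 by ring] at hB1
  obtain ⟨B, hB, hBB⟩ := ((hB1.eventually (gt_mem_nhds hδ6)).and
    (Filter.eventually_ge_atTop 3)).exists
  -- B'
  have hB2 : Filter.Tendsto (fun B : ℕ => (((B : ℝ) ^ 2 * (1 / 2) ^ B)
      + 3 * ((B : ℝ) ^ 1 * (1 / 2) ^ B) + 4 * ((B : ℝ) ^ 0 * (1 / 2) ^ B)))
      Filter.atTop (nhds (0 + 3 * 0 + 4 * 0)) :=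
    ((tendsto_pow_const_mul_const_pow_of_abs_lt_one 2
        (by rw [abs_of_pos] <;> norm_num : |(1 / 2 : ℝ)| < 1)).add
      ((tendsto_pow_const_mul_const_pow_of_abs_lt_one 1
        (by rw [abs_of_pos] <;> norm_num : |(1 / 2 : ℝ)| < 1)).const_mul 3)).add
      ((tendsto_pow_const_mul_const_pow_of_abs_lt_one 0
        (by rw [abs_of_pos] <;> norm_num : |(1 / 2 : ℝ)| < 1)).const_mul 4)
  rw [show (0 : ℝ) + 3 * 0 + 4 * 0 = 0 by ring] at hB2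
  obtain ⟨B', hB', hB'1⟩ := ((hB2.eventually (gt_mem_nhds hδ6)).and
    (Filter.eventually_ge_atTop 1)).exists
  -- limits in D
  set M : ℝ := 2 ^ (B' + (K₁ + 1) * B - 3) with hM
  have hD1 : Filter.Tendsto (fun D : ℕ => 8 * M / Real.sqrt ((D - B' : ℕ) : ℝ))
      Filter.atTop (nhds 0) := by
    apply Filter.Tendsto.div_atTop tendsto_const_nhds
    apply Real.tendsto_sqrt_atTop.comp
    apply tendsto_natCast_atTop_atTop.comp
    exact Filter.tendsto_sub_atTop_nat B'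
  have hD2 : Filter.Tendsto (fun D : ℕ => (16 * ((K₁ : ℝ) + 1) * 9 ^ (K₁ + 1)) * 0.97 ^ D)
      Filter.atTop (nhds ((16 * ((K₁ : ℝ) + 1) * 9 ^ (K₁ + 1)) * 0)) :=
    (tendsto_pow_atTop_nhds_zero_of_lt_one (by norm_num) (by norm_num)).const_mul _
  have hD3 : Filter.Tendsto (fun D : ℕ => (3 : ℝ) * 0.981 ^ D)
      Filter.atTop (nhds (3 * 0)) :=
    (tendsto_pow_atTop_nhds_zero_of_lt_one (by norm_num) (by norm_num)).const_mul _
  rw [mul_zero] at hD2 hD3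
  obtain ⟨D0, hD0⟩ := Filter.eventually_atTop.mp
    (((hD1.eventually (gt_mem_nhds hδ6)).and (hD2.eventually (gt_mem_nhds hδ6))).and
      ((hD3.eventually (gt_mem_nhds hδ6)).and (Filter.eventually_ge_atTop (B' + 1))))
  refine ⟨K₁ + 1, D0, ?_⟩
  intro K L J D y g V hD hg hc hJ hV0 hV
  obtain ⟨⟨h1, h2⟩, h3, h4⟩ := hD0 D hD
  have hy : y = (2 : ZMod (3 ^ K)) ^ D * (g : ZMod (3 ^ K)) := by
    conv_lhs => rw [← ZMod.coe_valMinAbs y, hc]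
    push_cast
    rfl
  have hf := deep_fixed K L J D (3 * D / 10) B B' K₁ hBB hB'1 (by omega) y g hg hy hJ V hV0 hV
  refine hf.trans (mul_le_mul_of_nonneg_right ?_ hV0)
  -- bound for |g|
  have hg1 : |(g : ℝ)| / 3 ^ K ≤ 1 / 2 ^ D := by
    have h5 := aa_le_half K y
    unfold aa at h5
    rw [hc] at h5
    push_cast at h5
    rw [abs_mul, abs_of_pos (by positivity : (0 : ℝ) < 2 ^ D), mul_div_assoc] at h5
    rw [le_div_iff₀ (by positivity)]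
    linarith
  have hg2 : 9 ^ (3 * D / 10) * |(g : ℝ)| / 3 ^ K ≤ 0.97 ^ D := by
    have h6 := d7c_nine D
    calc 9 ^ (3 * D / 10) * |(g : ℝ)| / 3 ^ K = 9 ^ (3 * D / 10) * (|(g : ℝ)| / 3 ^ K) := by ring
      _ ≤ 1.94 ^ D * (1 / 2 ^ D) := by
          apply mul_le_mul h6 hg1 (by positivity) (by positivity)
      _ = 0.97 ^ D := by
          rw [mul_one_div, ← div_pow]
          norm_num
  have hlow := d7c_low D
  have hBe : (((B : ℝ) + 1) / 2 ^ B) = ((B : ℝ) ^ 1 * (1 / 2) ^ B) + (B : ℝ) ^ 0 * (1 / 2) ^ B := by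
    rw [one_div, inv_pow]
    field_simp
  have hB'e : ((B' : ℝ) ^ 2 + 3 * B' + 4) / 2 ^ B' = (((B' : ℝ) ^ 2 * (1 / 2) ^ B')
      + 3 * ((B' : ℝ) ^ 1 * (1 / 2) ^ B') + 4 * ((B' : ℝ) ^ 0 * (1 / 2) ^ B')) := by
    rw [one_div, inv_pow]
    field_simp
  have hterm : ((K₁ : ℝ) + 1) * (((B : ℝ) + 1) / 2 ^ B
      + 4 * 9 ^ (K₁ + 1) * (9 ^ (3 * D / 10) * |(g : ℝ)| / 3 ^ K)) ≤ δ / 24 + δ / 96 := by
    rw [mul_add]
    have h7 : ((K₁ : ℝ) + 1) * (((B : ℝ) + 1) / 2 ^ B) ≤ δ / 24 := by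
      rw [hBe]; exact hB.le
    have h8 : ((K₁ : ℝ) + 1) * (4 * 9 ^ (K₁ + 1) * (9 ^ (3 * D / 10) * |(g : ℝ)| / 3 ^ K)) ≤
        ((K₁ : ℝ) + 1) * (4 * 9 ^ (K₁ + 1) * 0.97 ^ D) := by
      apply mul_le_mul_of_nonneg_left _ (by positivity)
      exact mul_le_mul_of_nonneg_left hg2 (by positivity)
    have h9 : ((K₁ : ℝ) + 1) * (4 * 9 ^ (K₁ + 1) * 0.97 ^ D) =
        (16 * ((K₁ : ℝ) + 1) * 9 ^ (K₁ + 1)) * 0.97 ^ D / 4 := by ring
    linarith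
  have h10 : 2 * 2 ^ (B' + (K₁ + 1) * B - 3) / Real.sqrt ((D - B' : ℕ) : ℝ) ≤ δ / 96 := by
    have : 8 * M / Real.sqrt ((D - B' : ℕ) : ℝ) =
        4 * (2 * 2 ^ (B' + (K₁ + 1) * B - 3) / Real.sqrt ((D - B' : ℕ) : ℝ)) := by
      rw [hM]; ring
    linarith
  rw [hB'e]
  linarith

end Pool.Agent.Lib.MP_d0d59f_nt.AA

end

section

/-! Row D8 (about 350 lines, two theorems): the decay lemma. -/

namespace Pool.Agent.Lib.MP_d0d59f_nt.AA

open Finset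

/-- Every nonzero integer is `2^D g` with `g` odd. -/
theorem d8a_exists_two_pow (c : ℤ) (hc : c ≠ 0) : ∃ (D : ℕ) (g : ℤ), Odd g ∧ c = 2 ^ D * g := by
  obtain ⟨k, m, hm, h⟩ := Nat.exists_eq_two_pow_mul_odd (n := c.natAbs) (by simpa using hc)
  have hm' : Odd (m : ℤ) := by exact_mod_cast hm
  rcases Int.natAbs_eq c with h1 | h1
  · refine ⟨k, m, hm', ?_⟩
    rw [h1, h]; push_cast; ring
  · refine ⟨k, -m, hm'.neg, ?_⟩
    rw [h1, h]; push_cast; ring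

/-- If `3^R y = 0` then `3^{K-R} ∣ c(y)` (for `R ≤ K`), so `|c(y)| ≤ 3^K/2` and `2^D ∣ c(y) ≠ 0` give
`2^D ≤ 3^R` (`2^D` divides `c(y)/3^{K-R}`); for `R > K`, `2^D ≤ |c(y)| ≤ 3^K`. -/
theorem depth_le {K R D : ℕ} (y : ZMod (3 ^ K)) (g : ℤ) (hg : Odd g) (hR : 3 ^ R * y = 0)
    (hc : y.valMinAbs = 2 ^ D * g) : (2 : ℝ) ^ D ≤ 3 ^ R := by
  have hg0 : g ≠ 0 := by
    rintro rfl
    simp at hg
  have hne : NeZero (3 ^ K) := ⟨by positivity⟩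
  -- `3^K` divides `3^R * g`
  have h1 : ((3 ^ K : ℕ) : ℤ) ∣ 3 ^ R * y.valMinAbs := by
    rw [← ZMod.intCast_zmod_eq_zero_iff_dvd]
    push_cast
    exact hR
  have h2 : ((3 ^ K : ℕ) : ℤ) ∣ 3 ^ R * g := by
    have hcop : IsCoprime ((3 ^ K : ℕ) : ℤ) ((2 : ℤ) ^ D) := by
      push_cast
      apply IsCoprime.pow
      exact ⟨1, -1, by norm_num⟩
    have h3 : ((3 ^ K : ℕ) : ℤ) ∣ 2 ^ D * (3 ^ R * g) := by
      have : (2 : ℤ) ^ D * (3 ^ R * g) = 3 ^ R * y.valMinAbs := by rw [hc]; ring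
      rw [this]; exact h1
    exact hcop.dvd_of_dvd_mul_left h3
  have h4 : (3 : ℤ) ^ K ≤ 3 ^ R * |g| := by
    have h5 : ((3 ^ K : ℕ) : ℤ) ≤ |3 ^ R * g| :=
      Int.le_of_dvd (abs_pos.mpr (mul_ne_zero (by positivity) hg0)) ((dvd_abs _ _).mpr h2)
    rw [abs_mul, abs_of_pos (by positivity : (0 : ℤ) < 3 ^ R)] at h5
    push_cast at h5
    exact h5
  -- `2^D |g| ≤ 3^K`
  have h6 : (2 : ℤ) ^ D * |g| ≤ 3 ^ K := by
    have h7 : y.valMinAbs.natAbs ≤ 3 ^ K / 2 := ZMod.natAbs_valMinAbs_le y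
    have h8 : y.valMinAbs.natAbs ≤ 3 ^ K := le_trans h7 (Nat.div_le_self _ _)
    have h9 : |y.valMinAbs| ≤ 3 ^ K := by
      rw [Int.abs_eq_natAbs]; exact_mod_cast h8
    rw [hc, abs_mul, abs_of_pos (by positivity : (0 : ℤ) < 2 ^ D)] at h9
    exact h9
  have hgpos : 0 < |g| := abs_pos.mpr hg0
  have h10 : (2 : ℤ) ^ D * |g| ≤ 3 ^ R * |g| := le_trans h6 h4
  have h11 : (2 : ℤ) ^ D ≤ 3 ^ R := le_of_mul_le_mul_right h10 hgpos
  exact_mod_cast h11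

theorem d8a_three_two : (3 : ℕ) ^ 200 ≤ 2 ^ 317 := by
  calc (3 : ℕ) ^ 200 ≤ 2 ^ 200 * 2 ^ 117 := by norm_num
    _ = 2 ^ 317 := by rw [← pow_add]

theorem d8a_depth_nat {R D : ℕ} (h : (2 : ℝ) ^ D ≤ 3 ^ R) : 200 * D ≤ 317 * R := by
  have h' : (2 : ℕ) ^ D ≤ 3 ^ R := by exact_mod_cast h
  have h1 : (2 : ℕ) ^ (200 * D) ≤ 2 ^ (317 * R) := by
    calc (2 : ℕ) ^ (200 * D) = (2 ^ D) ^ 200 := by rw [mul_comm, pow_mul]
      _ ≤ (3 ^ R) ^ 200 := Nat.pow_le_pow_left h' 200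
      _ = (3 ^ 200) ^ R := by rw [← pow_mul, ← pow_mul, mul_comm]
      _ ≤ (2 ^ 317) ^ R := Nat.pow_le_pow_left d8a_three_two R
      _ = 2 ^ (317 * R) := by rw [← pow_mul]
  exact (Nat.pow_le_pow_iff_right (by norm_num)).mp h1

/-- `V(J - m) ≤ c^{-A} V(J)` if `x - 2 m ≥ c x`. -/
theorem d8a_V_le (A : ℕ) (C ρ x c : ℝ) (m : ℝ) (hC : 0 ≤ C) (hρ : 0 ≤ ρ) (hx : 0 < x) (hc : 0 < c)
    (hm : c * x ≤ x - 2 * m) :
    C * (ρ / (x - 2 * m)) ^ A * c ^ A ≤ C * (ρ / x) ^ A := by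
  have hpos : 0 < x - 2 * m := lt_of_lt_of_le (by positivity) hm
  rw [mul_assoc, ← mul_pow]
  apply mul_le_mul_of_nonneg_left _ hC
  apply pow_le_pow_left₀ (by positivity)
  rw [div_mul_eq_mul_div, div_le_div_iff₀ hpos hx]
  calc ρ * c * x = ρ * (c * x) := by ring
    _ ≤ ρ * (x - 2 * m) := mul_le_mul_of_nonneg_left hm hρ

/-- Nonfree states. Let `κ = kap`, `x = R1 + 1 + 2J`, `ρ = R1 + 1`, `V(J') = C (ρ/(ρ+2J'))^A`, antitone in `J'`. Take `K₂, D0`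
from `deep (δ = 1/(2·25^A))`, `η = κ/(20A)` (`A ≥ 1`), and `X0` so large that `η X0 ≥ D0`, `4/X0 ≤ η`, `K₂/X0 ≤ 1/1000`, `X0 ≥ 100`.
`3^R y = 0 ≠ 3^{R-1} y`, `R = R1 + 2J = x - 1 ≥ 1`: `c(y) ≠ 0`, `c(y) = 2^D g`, `g` odd. The states `y_k = 9^k i2^β y` satisfy
`3^{R-2k} y_k = 0`, and `3^{R-2k-1} y_k ≠ 0` if `k < J`; so `hIH` gives `qq (J-k) y_k ≤ V(J-k)`.
(a) `D ≤ η x`: `shallow` with `V = V(J - D/2 - 2)` (`D/2 + 2 ≤ ηx/2 + 2 ≤ J` as `2J = x - ρ ≥ x(1-1/X0)`):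
`qq ≤ (1-κ/5) V(J)(x/(x - 2(D/2) - 4))^A ≤ (1-κ/5) V(J)/(1 - A(η + 4/x)) ≤ (1-κ/5)/(1-κ/10) V(J) ≤ (1-κ/10) V(J)`
(Bernoulli `one_add_mul_le_pow`; `A(η+4/x) ≤ 2Aη = κ/10`; `(1-κ/10)² ≥ 1-κ/5`).
(b) `D > η x ≥ D0`: `deep` with `V = V(J - T)`, `T = 3D/10 + K₂`: `D ≤ 1.585 R` (from `depth_le`: `2^D ≤ 3^R`, `3^200 < 2^317`),
so `2T ≤ 0.951 x + 2K₂ ≤ 0.953 x ≤ 2J`, `x - 2T ≥ 0.04 x`, `V(J-T) ≤ 25^A V(J)`, `qq ≤ V(J)/2 ≤ (1-κ/10) V(J)`. -/
theorem nonfree (A : ℕ) (hA : 1 ≤ A) : ∃ X0 : ℝ, 100 ≤ X0 ∧ ∀ (C : ℝ) (K L R1 J : ℕ)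
    (y : ZMod (3 ^ K)), 0 ≤ C → X0 * ((R1 : ℝ) + 1) ≤ (R1 : ℝ) + 1 + 2 * J →
    (3 : ZMod (3 ^ K)) ^ (R1 + 2 * J) * y = 0 → (3 : ZMod (3 ^ K)) ^ (R1 + 2 * J - 1) * y ≠ 0 →
    aa K y ≤ 9 / 2048 →
    (∀ (J' : ℕ) (y' : ZMod (3 ^ K)), J' < J → (3 : ZMod (3 ^ K)) ^ (R1 + 2 * J') * y' = 0 →
      (1 ≤ J' → (3 : ZMod (3 ^ K)) ^ (R1 + 2 * J' - 1) * y' ≠ 0) →
      qq K L J' y' ≤ C * (((R1 : ℝ) + 1) / ((R1 : ℝ) + 1 + 2 * J')) ^ A) →
    qq K L J y ≤ (1 - kap / 10) * (C * (((R1 : ℝ) + 1) / ((R1 : ℝ) + 1 + 2 * J)) ^ A) := by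
  have hk0 : 0 < kap := kap_pos
  have hk1 : kap ≤ 1 := kap_le_one
  have hAr : (1 : ℝ) ≤ A := by exact_mod_cast hA
  have hAp : (0 : ℝ) < A := by linarith
  obtain ⟨K₂, D0, hdeep⟩ := deep (1 / (2 * 25 ^ A)) (by positivity)
  set η : ℝ := kap / (20 * A) with hη
  have hη0 : 0 < η := by rw [hη]; positivity
  have hη1 : η ≤ 1 / 20 := by
    rw [hη, div_le_div_iff₀ (by positivity) (by norm_num)]
    nlinarith
  have hAη : A * (2 * η) = kap / 10 := by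
    rw [hη]; field_simp; ring
  refine ⟨100 + D0 / η + 4 / η + 1000 * K₂, ?_, ?_⟩
  · have h1 : (0 : ℝ) ≤ D0 / η := by positivity
    have h2 : (0 : ℝ) ≤ 4 / η := by positivity
    have h3 : (0 : ℝ) ≤ 1000 * K₂ := by positivity
    linarith
  intro C K L R1 J y hC hX h0 h1 haa hIH
  set ρ : ℝ := (R1 : ℝ) + 1 with hρ
  have hρ1 : 1 ≤ ρ := by rw [hρ]; have : (0 : ℝ) ≤ R1 := by positivity
                         linarith
  set x : ℝ := ρ + 2 * J with hx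
  -- consequences of the size of `x`
  have e1 : (0 : ℝ) ≤ D0 / η := by positivity
  have e2 : (0 : ℝ) ≤ 4 / η := by positivity
  have e3 : (0 : ℝ) ≤ 1000 * K₂ := by positivity
  have hX' : (100 + D0 / η + 4 / η + 1000 * K₂) ≤ x := by
    refine le_trans ?_ hX
    exact le_mul_of_one_le_right (by linarith) hρ1
  have hx100 : 100 ≤ x := by linarith
  have hρx : 100 * ρ ≤ x := by
    refine le_trans ?_ hX
    apply mul_le_mul_of_nonneg_right _ (by linarith)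
    linarith
  have hxD0 : (D0 : ℝ) ≤ η * x := by
    have : (D0 : ℝ) / η ≤ x := by linarith
    rw [div_le_iff₀ hη0] at this
    linarith
  have hx4 : 4 ≤ η * x := by
    have : 4 / η ≤ x := by linarith
    rw [div_le_iff₀ hη0] at this
    linarith
  have hxK : 1000 * (K₂ : ℝ) ≤ x := by linarith
  have hJx : 2 * (J : ℝ) = x - ρ := by rw [hx]; ring
  have hJlow : 99 * x / 100 ≤ 2 * (J : ℝ) := by rw [hJx]; linarith
  have hJ1 : 1 ≤ J := by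
    by_contra hcon
    have : J = 0 := by omega
    rw [this] at hJlow
    norm_num at hJlow
    linarith
  -- the states
  have hstate : ∀ k β : ℕ, 1 ≤ k → k ≤ J →
      qq K L (J - k) (9 ^ k * (i2 K ^ β * y)) ≤ C * (ρ / (x - 2 * k)) ^ A := by
    intro k β hk hkJ
    have hcast : ((J - k : ℕ) : ℝ) = (J : ℝ) - k := by
      rw [Nat.cast_sub hkJ]
    have h2 := hIH (J - k) (9 ^ k * (i2 K ^ β * y)) (by omega) ?_ ?_
    · rw [hcast] at h2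
      have : ρ + 2 * ((J : ℝ) - k) = x - 2 * k := by rw [hx]; ring
      rw [this] at h2
      exact h2
    · have h9 : (3 : ZMod (3 ^ K)) ^ (R1 + 2 * (J - k)) * (9 ^ k * (i2 K ^ β * y)) =
          i2 K ^ β * (3 ^ (R1 + 2 * J) * y) := by
        have : (9 : ZMod (3 ^ K)) ^ k = 3 ^ (2 * k) := by
          rw [pow_mul]; norm_num
        rw [this]
        have h3 : R1 + 2 * J = R1 + 2 * (J - k) + 2 * k := by omega
        rw [h3, pow_add _ (R1 + 2 * (J - k)) (2 * k)]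
        ring
      rw [h9, h0, mul_zero]
    · intro hJk hcon
      have h9 : (3 : ZMod (3 ^ K)) ^ (R1 + 2 * (J - k) - 1) * (9 ^ k * (i2 K ^ β * y)) =
          i2 K ^ β * (3 ^ (R1 + 2 * J - 1) * y) := by
        have : (9 : ZMod (3 ^ K)) ^ k = 3 ^ (2 * k) := by
          rw [pow_mul]; norm_num
        rw [this]
        have h3 : R1 + 2 * J - 1 = R1 + 2 * (J - k) - 1 + 2 * k := by omega
        rw [h3, pow_add _ (R1 + 2 * (J - k) - 1) (2 * k)]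
        ring
      rw [h9] at hcon
      apply h1
      have h4 := two_pow_mul_i2_pow K β
      calc (3 : ZMod (3 ^ K)) ^ (R1 + 2 * J - 1) * y
          = (2 ^ β * i2 K ^ β) * (3 ^ (R1 + 2 * J - 1) * y) := by rw [h4, one_mul]
        _ = 2 ^ β * (i2 K ^ β * (3 ^ (R1 + 2 * J - 1) * y)) := by ring
        _ = 0 := by rw [hcon, mul_zero]
  -- the valuation
  have hc0 : y.valMinAbs ≠ 0 := by
    intro h
    rw [ZMod.valMinAbs_eq_zero] at h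
    apply h1
    rw [h, mul_zero]
  obtain ⟨D, g, hg, hcD⟩ := d8a_exists_two_pow _ hc0
  have hV0 : 0 ≤ C * (ρ / x) ^ A := by positivity
  by_cases hD : (D : ℝ) ≤ η * x
  · -- shallow
    have hD2 : ((D / 2 : ℕ) : ℝ) ≤ D / 2 := Nat.cast_div_le
    have hηx : η * x ≤ x / 20 := by nlinarith
    have hmJ : D / 2 + 2 ≤ J := by
      have : ((D / 2 + 2 : ℕ) : ℝ) ≤ J := by
        push_cast
        linarith
      exact_mod_cast this
    have hcx : (1 - 2 * η) * x ≤ x - 2 * ((D / 2 + 2 : ℕ) : ℝ) := by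
      push_cast
      linarith
    have hc' : 0 < 1 - 2 * η := by linarith
    have hxm : 0 < x - 2 * ((D / 2 + 2 : ℕ) : ℝ) := lt_of_lt_of_le (by positivity) hcx
    have h3 := shallow K L J D y g hg hcD haa hmJ (C * (ρ / (x - 2 * ((D / 2 + 2 : ℕ) : ℝ))) ^ A)
      (by positivity) (by
        intro k β hk hkm
        refine le_trans (hstate k β hk (le_trans hkm hmJ)) ?_
        apply mul_le_mul_of_nonneg_left _ hC
        have hkr : (k : ℝ) ≤ ((D / 2 + 2 : ℕ) : ℝ) := by exact_mod_cast hkm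
        apply pow_le_pow_left₀
        · apply div_nonneg (by linarith)
          linarith
        · apply div_le_div_of_nonneg_left (by linarith) hxm
          linarith)
    have h4 := d8a_V_le A C ρ x (1 - 2 * η) ((D / 2 + 2 : ℕ) : ℝ) hC (by linarith) (by linarith)
      hc' hcx
    have h5 : 1 - kap / 10 ≤ (1 - 2 * η) ^ A := by
      have := one_add_mul_le_pow (a := -(2 * η)) (by linarith) A
      rw [← hAη]
      calc (1 : ℝ) - A * (2 * η) = 1 + A * (-(2 * η)) := by ring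
        _ ≤ (1 + -(2 * η)) ^ A := this
        _ = (1 - 2 * η) ^ A := by ring
    set W : ℝ := C * (ρ / (x - 2 * ((D / 2 + 2 : ℕ) : ℝ))) ^ A with hW
    have hW0 : 0 ≤ W := by rw [hW]; positivity
    have h6 : W * (1 - kap / 10) ≤ C * (ρ / x) ^ A :=
      le_trans (mul_le_mul_of_nonneg_left h5 hW0) h4
    calc qq K L J y ≤ (1 - kap / 5) * W := h3
      _ ≤ (1 - kap / 10) * (W * (1 - kap / 10)) := by nlinarith [mul_nonneg hW0 (sq_nonneg kap)]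
      _ ≤ (1 - kap / 10) * (C * (ρ / x) ^ A) :=
        mul_le_mul_of_nonneg_left h6 (by linarith)
  · -- deep
    push Not at hD
    have hD0 : D0 ≤ D := by
      have : (D0 : ℝ) ≤ D := by linarith
      exact_mod_cast this
    have h7 := d8a_depth_nat (depth_le y g hg h0 hcD)
    have h7r : 200 * (D : ℝ) ≤ 317 * (x - 1) := by
      have : (200 * (D : ℝ)) ≤ 317 * ((R1 : ℝ) + 2 * J) := by exact_mod_cast h7
      rw [hx, hρ]
      linarith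
    have hT : ((3 * D / 10 + K₂ : ℕ) : ℝ) ≤ 3 * D / 10 + K₂ := by
      push_cast
      have : ((3 * D / 10 : ℕ) : ℝ) ≤ ((3 * D : ℕ) : ℝ) / ((10 : ℕ) : ℝ) := Nat.cast_div_le
      push_cast at this
      linarith
    have hTJ : 3 * D / 10 + K₂ ≤ J := by
      have : ((3 * D / 10 + K₂ : ℕ) : ℝ) ≤ J := by
        linarith
      exact_mod_cast this
    have hcx : (1 / 25 : ℝ) * x ≤ x - 2 * ((3 * D / 10 + K₂ : ℕ) : ℝ) := by
      linarith
    have hxm : 0 < x - 2 * ((3 * D / 10 + K₂ : ℕ) : ℝ) := lt_of_lt_of_le (by positivity) hcx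
    have h3 := hdeep K L J D y g (C * (ρ / (x - 2 * ((3 * D / 10 + K₂ : ℕ) : ℝ))) ^ A) hD0 hg hcD
      hTJ (by positivity) (by
        intro k β hk hkm
        refine le_trans (hstate k β hk (le_trans hkm hTJ)) ?_
        apply mul_le_mul_of_nonneg_left _ hC
        have hkr : (k : ℝ) ≤ ((3 * D / 10 + K₂ : ℕ) : ℝ) := by exact_mod_cast hkm
        apply pow_le_pow_left₀
        · apply div_nonneg (by linarith)
          linarith
        · apply div_le_div_of_nonneg_left (by linarith) hxm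
          linarith)
    have h4 := d8a_V_le A C ρ x (1 / 25) ((3 * D / 10 + K₂ : ℕ) : ℝ) hC (by linarith) (by linarith)
      (by norm_num) hcx
    have h25 : ((1 : ℝ) / 25) ^ A = 1 / 25 ^ A := by rw [div_pow, one_pow]
    rw [h25] at h4
    set W : ℝ := C * (ρ / (x - 2 * ((3 * D / 10 + K₂ : ℕ) : ℝ))) ^ A with hW
    have h25p : (0 : ℝ) < 25 ^ A := by positivity
    calc qq K L J y ≤ 1 / (2 * 25 ^ A) * W := h3
      _ = 1 / 2 * (W * (1 / 25 ^ A)) := by field_simp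
      _ ≤ 1 / 2 * (C * (ρ / x) ^ A) := by linarith
      _ ≤ (1 - kap / 10) * (C * (ρ / x) ^ A) := by
        apply mul_le_mul_of_nonneg_right _ hV0
        linarith

end Pool.Agent.Lib.MP_d0d59f_nt.AA

end

section

/-! Row D8 (about 350 lines, two theorems): the decay lemma. -/

namespace Pool.Agent.Lib.MP_d0d59f_nt.AA

open Finset

theorem d8b_i2_mul (K : ℕ) : (2 : ZMod (3 ^ K)) * i2 K = 1 := by
  unfold i2
  have h : Nat.Coprime 2 (3 ^ K) := Nat.Coprime.pow_right K (by norm_num)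
  have := ZMod.coe_mul_inv_eq_one (n := 3 ^ K) 2 h
  simpa using this

theorem d8b_i2_unit (K b : ℕ) : IsUnit (i2 K ^ b) := by
  refine IsUnit.pow b ?_
  exact IsUnit.of_mul_eq_one 2 (by rw [mul_comm]; exact d8b_i2_mul K)

theorem d8b_next_zero {K R1 J : ℕ} {y : ZMod (3 ^ K)} (b : ℕ)
    (h : (3 : ZMod (3 ^ K)) ^ (R1 + 2 * (J + 1)) * y = 0) :
    (3 : ZMod (3 ^ K)) ^ (R1 + 2 * J) * (9 * (i2 K ^ b * y)) = 0 := by
  have e : (3 : ZMod (3 ^ K)) ^ (R1 + 2 * J) * (9 * (i2 K ^ b * y)) =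
      i2 K ^ b * ((3 : ZMod (3 ^ K)) ^ (R1 + 2 * (J + 1)) * y) := by
    have : R1 + 2 * (J + 1) = (R1 + 2 * J) + 2 := by ring
    rw [this, pow_add]; ring
  rw [e, h, mul_zero]

theorem d8b_next_ne {K R1 J : ℕ} {y : ZMod (3 ^ K)} (b : ℕ) (hJ : 1 ≤ J)
    (h : (3 : ZMod (3 ^ K)) ^ (R1 + 2 * (J + 1) - 1) * y ≠ 0) :
    (3 : ZMod (3 ^ K)) ^ (R1 + 2 * J - 1) * (9 * (i2 K ^ b * y)) ≠ 0 := by
  have e : (3 : ZMod (3 ^ K)) ^ (R1 + 2 * J - 1) * (9 * (i2 K ^ b * y)) =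
      i2 K ^ b * ((3 : ZMod (3 ^ K)) ^ (R1 + 2 * (J + 1) - 1) * y) := by
    have : R1 + 2 * (J + 1) - 1 = (R1 + 2 * J - 1) + 2 := by omega
    rw [this, pow_add]; ring
  rw [e]
  intro h0
  exact h ((d8b_i2_unit K b).mul_right_eq_zero.1 h0)

/-- Comparison of the bounds at two consecutive levels. -/
theorem d8b_compare (A : ℕ) {C ρ x κ : ℝ} (hC : 0 ≤ C) (hρ : 0 ≤ ρ) (hx : 2 < x)
    (hκ : 80 * A ≤ κ * x) :
    (1 - κ / 40) * (C * (ρ / (x - 2)) ^ A) ≤ C * (ρ / x) ^ A := by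
  have hx0 : 0 < x := by linarith
  have hx2 : 0 < x - 2 := by linarith
  have h1 : 1 - κ / 40 ≤ ((x - 2) / x) ^ A := by
    have hb := one_add_mul_le_pow (a := -(2 / x)) (by
      have : 2 / x ≤ 1 := by rw [div_le_one hx0]; linarith
      linarith) A
    have e1 : 1 + -(2 / x) = (x - 2) / x := by field_simp; ring
    rw [e1] at hb
    refine le_trans ?_ hb
    have : (A : ℝ) * (2 / x) ≤ κ / 40 := by
      rw [← mul_div_assoc, div_le_iff₀ hx0]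
      linarith
    linarith
  have h2 : 0 ≤ C * (ρ / (x - 2)) ^ A := by positivity
  calc (1 - κ / 40) * (C * (ρ / (x - 2)) ^ A)
      ≤ ((x - 2) / x) ^ A * (C * (ρ / (x - 2)) ^ A) := mul_le_mul_of_nonneg_right h1 h2
    _ = C * (ρ / x) ^ A := by
        rw [mul_left_comm, ← mul_pow]
        congr 2
        field_simp

/-- Decay lemma. May assume `A ≥ 1`. `X0` from `nonfree`, enlarged such that `X0 ≥ 80A/κ`; `C = (2 X0 + 2)^A`.
Strong induction on `J`. If `x = R1 + 1 + 2J ≤ (2X0+2)(R1+1)` then `V(J) ≥ 1 ≥ qq`. Otherwise `J ≥ 2` and: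
* `aa y ≤ 9/2048`: `nonfree`.
* `aa y > 9/2048`: `qq_succ_le` (`J = J'+1`, `L' = max L 3`): for `b ≠ 3`, `ff·qq ≤ V(J')` by induction. For `b = 3`,
  `w = i2^3 y`: if `aa w ≥ 1/2048` then `ff ≤ 1 - κ` and `ff·qq ≤ (1-κ)V(J')`; otherwise `18|c(w)| < 3^K`, `c(9w) = 9c(w)`,
  `aa (9w) ≤ 9/2048`, and `nonfree` for `J'` (`x - 2 ≥ X0 (R1+1)`) gives `qq J' (9w) ≤ (1-κ/10) V(J')`. So
  `qq J y ≤ (1 - (1/4)(κ/10)) V(J')`, and `V(J')/V(J) = (x/(x-2))^A ≤ 1/(1-2A/x) ≤ 1/(1-κ/40)` since `x ≥ X0 ≥ 80A/κ`. -/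
theorem decay (A : ℕ) : ∃ C : ℝ, 1 ≤ C ∧ ∀ (K L R1 J : ℕ) (y : ZMod (3 ^ K)),
    (3 : ZMod (3 ^ K)) ^ (R1 + 2 * J) * y = 0 →
    (1 ≤ J → (3 : ZMod (3 ^ K)) ^ (R1 + 2 * J - 1) * y ≠ 0) →
    qq K L J y ≤ C * (((R1 : ℝ) + 1) / ((R1 : ℝ) + 1 + 2 * J)) ^ A := by
  rcases Nat.eq_zero_or_pos A with hA | hA
  · subst hA
    exact ⟨1, le_refl 1, fun K L R1 J y _ _ => by simpa using qq_le_one K L J y⟩
  obtain ⟨X0, hX0, hnf⟩ := nonfree A hA
  have hk := kap_pos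
  have hk1 := kap_le_one
  obtain ⟨X1, hX1⟩ : ∃ X1 : ℝ, X1 = max X0 (80 * A / kap) := ⟨_, rfl⟩
  have hX10 : X0 ≤ X1 := hX1 ▸ le_max_left _ _
  have hX1k : 80 * (A : ℝ) / kap ≤ X1 := hX1 ▸ le_max_right _ _
  have hX1p : 100 ≤ X1 := hX0.trans hX10
  have hC1 : (1 : ℝ) ≤ (2 * X1 + 2) ^ A := one_le_pow₀ (by linarith)
  refine ⟨(2 * X1 + 2) ^ A, hC1, ?_⟩
  intro K L R1 J
  have hC0 : (0 : ℝ) ≤ (2 * X1 + 2) ^ A := by linarith
  generalize hCdef : (2 * X1 + 2) ^ A = C at hC1 hC0 ⊢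
  have hρ : (1 : ℝ) ≤ (R1 : ℝ) + 1 := by
    have : (0 : ℝ) ≤ R1 := Nat.cast_nonneg _
    linarith
  induction J using Nat.strong_induction_on with
  | _ J ih =>
  intro y h0 h1
  have hJ0 : (0 : ℝ) ≤ J := Nat.cast_nonneg _
  rcases le_or_gt ((R1 : ℝ) + 1 + 2 * J) ((2 * X1 + 2) * ((R1 : ℝ) + 1)) with hsmall | hbig
  · refine (qq_le_one K L J y).trans ?_
    rw [← hCdef, ← mul_pow]
    refine one_le_pow₀ ?_
    rw [← mul_div_assoc, one_le_div (by linarith)]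
    exact hsmall
  · -- large case
    have hJ2 : 2 ≤ J := by
      have : (2 : ℝ) * J > 201 := by nlinarith
      have h' : (2 : ℝ) ≤ J := by linarith
      exact_mod_cast h'
    obtain ⟨J', rfl⟩ : ∃ J', J = J' + 1 := ⟨J - 1, by omega⟩
    have hJ'1 : 1 ≤ J' := by omega
    have hcast : ((J' + 1 : ℕ) : ℝ) = J' + 1 := by push_cast; ring
    have hVnn : ∀ j : ℕ, 0 ≤ C * (((R1 : ℝ) + 1) / ((R1 : ℝ) + 1 + 2 * j)) ^ A := by
      intro j
      have : (0 : ℝ) ≤ j := Nat.cast_nonneg _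
      positivity
    rcases le_or_gt (aa K y) (9 / 2048) with hya | hya
    · have hne := h1 (by omega)
      have := hnf C K L R1 (J' + 1) y hC0 (by nlinarith) h0 hne hya
        (fun J'' y' hJ'' hy0 hy1 => ih J'' hJ'' y' hy0 hy1)
      refine this.trans ?_
      have hv := hVnn (J' + 1)
      nlinarith
    · -- the bound for J'
      have hIH : ∀ b, qq K L J' (9 * (i2 K ^ b * y)) ≤
          C * (((R1 : ℝ) + 1) / ((R1 : ℝ) + 1 + 2 * J')) ^ A := fun b =>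
        ih J' (Nat.lt_succ_self _) _ (d8b_next_zero b h0)
          (fun h => d8b_next_ne b h (h1 (by omega)))
      obtain ⟨V, hV⟩ : ∃ V : ℝ, V = C * (((R1 : ℝ) + 1) / ((R1 : ℝ) + 1 + 2 * J')) ^ A :=
        ⟨_, rfl⟩
      rw [← hV] at hIH
      have hV0 : 0 ≤ V := by rw [hV]; exact hVnn J'
      have h3 : ff K 3 (i2 K ^ 3 * y) * qq K L J' (9 * (i2 K ^ 3 * y)) ≤ (1 - kap / 10) * V := by
        rcases le_or_gt (1 / 2048) (aa K (i2 K ^ 3 * y)) with hw | hw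
        · have hf := ff_three_le hw
          have hf0 := ff_nonneg K 3 (i2 K ^ 3 * y)
          calc ff K 3 (i2 K ^ 3 * y) * qq K L J' (9 * (i2 K ^ 3 * y))
              ≤ (1 - kap) * V := mul_le_mul hf (hIH 3) (qq_nonneg _ _ _ _) (by linarith)
            _ ≤ (1 - kap / 10) * V := by nlinarith
        · have hp : (0 : ℝ) < 3 ^ K := by positivity
          have hlt : |((i2 K ^ 3 * y).valMinAbs : ℝ)| < 1 / 2048 * 3 ^ K := by
            rw [aa, div_lt_iff₀ hp] at hw; exact hw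
          have h18 : 18 * |(i2 K ^ 3 * y).valMinAbs| < 3 ^ K := by
            have : (18 : ℝ) * |((i2 K ^ 3 * y).valMinAbs : ℝ)| < 3 ^ K := by nlinarith
            exact_mod_cast this
          have h9 := valMinAbs_nine _ h18
          have haa : aa K (9 * (i2 K ^ 3 * y)) ≤ 9 / 2048 := by
            rw [aa, h9, div_le_iff₀ hp]
            push_cast
            rw [abs_mul, abs_of_pos (by norm_num : (0 : ℝ) < 9)]
            linarith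
          have hq := hnf C K L R1 J' (9 * (i2 K ^ 3 * y)) hC0
            (by
              rw [hcast] at hbig
              nlinarith)
            (d8b_next_zero 3 h0) (d8b_next_ne 3 hJ'1 (h1 (by omega))) haa
            (fun J'' y' hJ'' hy0 hy1 => ih J'' (by omega) y' hy0 hy1)
          rw [← hV] at hq
          have hf1 := ff_le_one K 3 (i2 K ^ 3 * y)
          calc ff K 3 (i2 K ^ 3 * y) * qq K L J' (9 * (i2 K ^ 3 * y))
              ≤ 1 * ((1 - kap / 10) * V) := mul_le_mul hf1 hq (qq_nonneg _ _ _ _) zero_le_one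
            _ = (1 - kap / 10) * V := one_mul _
      have hsum := qq_succ_le (K := K) (L := L) (J := J') y (max L 3) (le_max_left _ _)
        (fun b => if b = 3 then (1 - kap / 10) * V else V)
        (fun b => by
          by_cases hb : b = 3
          · simp only [hb, if_true]
            exact mul_nonneg (by linarith) hV0
          · simp only [hb, if_false]; exact hV0)
        (fun b _ => by
          by_cases hb : b = 3
          · subst hb; simpa using h3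
          · simp only [hb, if_false]
            calc ff K b (i2 K ^ b * y) * qq K L J' (9 * (i2 K ^ b * y))
                ≤ 1 * V := mul_le_mul (ff_le_one _ _ _) (hIH b) (qq_nonneg _ _ _ _) zero_le_one
              _ = V := one_mul _)
      have hval : ∑ b ∈ range (max L 3 + 1), pw b * (if b = 3 then (1 - kap / 10) * V else V) =
          V * ∑ b ∈ range (max L 3 + 1), pw b - kap / 40 * V := by
        have h3mem : 3 ∈ range (max L 3 + 1) := by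
          rw [mem_range]; omega
        have e1 : ∀ b ∈ range (max L 3 + 1),
            pw b * (if b = 3 then (1 - kap / 10) * V else V) =
              V * pw b - (if b = 3 then kap / 10 * V * pw b else 0) := by
          intro b _
          by_cases hb : b = 3
          · simp only [hb, if_true]; ring
          · simp only [hb, if_false]; ring
        rw [sum_congr rfl e1, sum_sub_distrib, ← mul_sum, sum_ite_eq' _ _ (fun b => kap / 10 * V * pw b),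
          if_pos h3mem]
        have : pw 3 = 1 / 4 := by unfold pw; norm_num
        rw [this]; ring
      have hle : qq K L (J' + 1) y ≤ (1 - kap / 40) * V := by
        refine hsum.trans ?_
        rw [hval]
        have := sum_pw_le_one (max L 3 + 1)
        nlinarith
      refine hle.trans ?_
      have hx : (2 : ℝ) < (R1 : ℝ) + 1 + 2 * ((J' + 1 : ℕ) : ℝ) := by
        nlinarith
      have hkx : 80 * (A : ℝ) ≤ kap * ((R1 : ℝ) + 1 + 2 * ((J' + 1 : ℕ) : ℝ)) := by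
        rw [div_le_iff₀ hk] at hX1k
        have : X1 ≤ (R1 : ℝ) + 1 + 2 * ((J' + 1 : ℕ) : ℝ) := by nlinarith
        nlinarith
      have hcmp := d8b_compare A (κ := kap) hC0 (by linarith : (0 : ℝ) ≤ (R1 : ℝ) + 1) hx hkx
      have e2 : (R1 : ℝ) + 1 + 2 * ((J' + 1 : ℕ) : ℝ) - 2 = (R1 : ℝ) + 1 + 2 * J' := by
        rw [hcast]; ring
      rw [e2, ← hV] at hcmp
      exact hcmp

end Pool.Agent.Lib.MP_d0d59f_nt.AA

end

section

/-! Row C7 (about 350 lines): one 3-adic level. -/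

namespace Pool.Agent.Lib.MP_d0d59f_nt.AA

open Finset

theorem c7a_three_pow_self (K : ℕ) : (3 : ZMod (3 ^ K)) ^ K = 0 := by
  have : ((3 ^ K : ℕ) : ZMod (3 ^ K)) = 0 := ZMod.natCast_self _
  push_cast at this
  exact this

theorem c7a_unit {d : ℤ} (h3 : ¬ (3 : ℤ) ∣ d) (K : ℕ) : IsUnit (d : ZMod (3 ^ K)) := by
  rw [ZMod.coe_int_isUnit_iff_isCoprime]
  push_cast
  refine IsCoprime.pow_left ?_
  exact (Prime.coprime_iff_not_dvd Int.prime_three).mpr h3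

theorem c7a_ratio {K q t J R1 : ℕ} (hq : q ^ 2 ≤ K + 1) (hR : R1 ≤ q + 1)
    (ht : 10 * t ≤ 9 * (K + 1)) (hsum : R1 + 2 * J = K + 1 - t) (htK : t ≤ K + 1) (E : ℕ) :
    (((R1 : ℝ) + 1) / ((R1 : ℝ) + 1 + 2 * J)) ^ (2 * E) ≤ 900 ^ E / ((K : ℝ) + 1) ^ E := by
  rw [pow_mul, ← div_pow]
  have hK : (0 : ℝ) < (K : ℝ) + 1 := by positivity
  have hD : (0 : ℝ) < (R1 : ℝ) + 1 + 2 * J := by positivity
  refine pow_le_pow_left₀ (sq_nonneg _) ?_ E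
  rw [div_pow, div_le_div_iff₀ (by positivity) hK]
  have h1 : ((R1 : ℝ) + 1) ^ 2 ≤ 9 * ((K : ℝ) + 1) := by
    have hnat : (R1 + 1) ^ 2 ≤ 9 * (K + 1) := by
      have : q ≤ K + 1 := le_trans (Nat.le_self_pow (by norm_num) q) hq
      calc (R1 + 1) ^ 2 ≤ (q + 2) ^ 2 := Nat.pow_le_pow_left (by omega) 2
        _ = q ^ 2 + 4 * q + 4 := by ring
        _ ≤ 9 * (K + 1) := by omega
    exact_mod_cast hnat
  have h2 : ((K : ℝ) + 1) ≤ 10 * ((R1 : ℝ) + 1 + 2 * J) := by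
    have hnat : K + 1 ≤ 10 * (R1 + 1 + 2 * J) := by omega
    exact_mod_cast hnat
  have h3 : ((K : ℝ) + 1) ^ 2 ≤ (10 * ((R1 : ℝ) + 1 + 2 * J)) ^ 2 :=
    pow_le_pow_left₀ hK.le h2 2
  calc ((R1 : ℝ) + 1) ^ 2 * ((K : ℝ) + 1) ≤ 9 * ((K : ℝ) + 1) * ((K : ℝ) + 1) :=
        mul_le_mul_of_nonneg_right h1 hK.le
    _ = 9 * ((K : ℝ) + 1) ^ 2 := by ring
    _ ≤ 9 * (10 * ((R1 : ℝ) + 1 + 2 * J)) ^ 2 := by linarith
    _ = 900 * ((R1 : ℝ) + 1 + 2 * J) ^ 2 := by ring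

/-- The bound on the back factor. `K' = K+1`, `t ≤ τ = 9K'/10` (floor), `n ≤ K'`, `(K'-n)² ≤ K'`, `t ≤ n`. By `norm_bh_le`
(`J = (n-t)/2`) `‖bh‖ ≤ qq K' L J y`, `y = 2d·3^t i2^s ξ`; with `R1 = K' - t - 2J` one has `3^{R1+2J} y = 0` and
`3^{R1+2J-1} y = 2 d i2^s (3^K ξ) ≠ 0` (`2`, `d`, `i2` units). `R1 ≤ K' - n + 1 ≤ √K' + 1` and
`R1 + 1 + 2J = K' - t + 1 ≥ K'/10`, so `(R1+1)/(R1+1+2J) ≤ 10(√K'+2)/K' ≤ 30/√K'`; `decay` with exponent `2E`: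
`≤ C (900/K')^E`. -/
theorem back_bound {d : ℤ} (h3 : ¬ (3 : ℤ) ∣ d) (E : ℕ) : ∃ C : ℝ, 1 ≤ C ∧
    ∀ (r : ℤ) (K n t s l L : ℕ) (ξ : ZMod (3 ^ (K + 1))), n ≤ K + 1 → (K + 1 - n) ^ 2 ≤ K + 1 →
      10 * t ≤ 9 * (K + 1) → t ≤ n → s ≤ l → l ≤ L → (3 : ZMod (3 ^ (K + 1))) ^ K * ξ ≠ 0 →
      ‖bh d r (K + 1) (n - t) (l - s) (3 ^ t * i2 (K + 1) ^ s * ξ)‖ ≤
        C / ((K : ℝ) + 1) ^ E := by
  obtain ⟨C, hC1, hC⟩ := decay (2 * E)
  refine ⟨C * 900 ^ E, ?_, ?_⟩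
  · have : (1 : ℝ) ≤ 900 ^ E := one_le_pow₀ (by norm_num)
    nlinarith
  intro r K n t s l L ξ hn hsq ht htn hsl hlL hξ
  set J : ℕ := (n - t) / 2 with hJ
  obtain ⟨R1, hR1⟩ : ∃ R1 : ℕ, R1 + 2 * J = K + 1 - t := ⟨K + 1 - t - 2 * J, by omega⟩
  set y : ZMod (3 ^ (K + 1)) := 2 * (d : ZMod (3 ^ (K + 1))) * (3 ^ t * i2 (K + 1) ^ s * ξ)
    with hy
  have hb := norm_bh_le d r (K + 1) L J (n - t) (l - s) (by omega) (by omega)
    (3 ^ t * i2 (K + 1) ^ s * ξ)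
  have hz0 : (3 : ZMod (3 ^ (K + 1))) ^ (R1 + 2 * J) * y = 0 := by
    have e1 : (3 : ZMod (3 ^ (K + 1))) ^ (R1 + 2 * J) * 3 ^ t = 0 := by
      rw [← pow_add, hR1, Nat.sub_add_cancel (by omega)]
      exact c7a_three_pow_self (K + 1)
    calc (3 : ZMod (3 ^ (K + 1))) ^ (R1 + 2 * J) * y
        = ((3 : ZMod (3 ^ (K + 1))) ^ (R1 + 2 * J) * 3 ^ t)
            * (2 * (d : ZMod (3 ^ (K + 1))) * (i2 (K + 1) ^ s * ξ)) := by rw [hy]; ring
      _ = 0 := by rw [e1, zero_mul]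
  have hz1 : 1 ≤ J → (3 : ZMod (3 ^ (K + 1))) ^ (R1 + 2 * J - 1) * y ≠ 0 := by
    intro hJ1 h0
    apply hξ
    have e1 : (3 : ZMod (3 ^ (K + 1))) ^ (R1 + 2 * J - 1) * 3 ^ t = 3 ^ K := by
      rw [← pow_add]
      congr 1
      omega
    have e2 : (d : ZMod (3 ^ (K + 1))) * (3 ^ K * ξ) = 0 := by
      have e3 : (3 : ZMod (3 ^ (K + 1))) ^ (R1 + 2 * J - 1) * y
          = 2 * (d : ZMod (3 ^ (K + 1))) * (i2 (K + 1) ^ s * (3 ^ K * ξ)) := by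
        rw [hy, ← e1]; ring
      rw [e3] at h0
      have e4 : i2 (K + 1) * 2 ^ s * (2 * (d : ZMod (3 ^ (K + 1)))
          * (i2 (K + 1) ^ s * (3 ^ K * ξ))) = 0 := by rw [h0, mul_zero]
      have e5 : i2 (K + 1) * 2 ^ s * (2 * (d : ZMod (3 ^ (K + 1)))
          * (i2 (K + 1) ^ s * (3 ^ K * ξ)))
          = (2 * i2 (K + 1)) * ((2 : ZMod (3 ^ (K + 1))) ^ s * i2 (K + 1) ^ s)
            * ((d : ZMod (3 ^ (K + 1))) * (3 ^ K * ξ)) := by ring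
      rw [e5, two_mul_i2, two_pow_mul_i2_pow, one_mul, one_mul] at e4
      exact e4
    exact (c7a_unit h3 (K + 1)).mul_right_eq_zero.mp e2
  have hd := hC (K + 1) L R1 J y hz0 hz1
  refine hb.trans (hd.trans ?_)
  have hr := c7a_ratio (K := K) (q := K + 1 - n) (t := t) (J := J) (R1 := R1) hsq (by omega) ht hR1
    (by omega) E
  calc C * (((R1 : ℝ) + 1) / ((R1 : ℝ) + 1 + 2 * J)) ^ (2 * E)
      ≤ C * (900 ^ E / ((K : ℝ) + 1) ^ E) := mul_le_mul_of_nonneg_left hr (by linarith)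
    _ = C * 900 ^ E / ((K : ℝ) + 1) ^ E := by ring

end Pool.Agent.Lib.MP_d0d59f_nt.AA

end

section

/-! Row C7 (about 350 lines): one 3-adic level. -/

namespace Pool.Agent.Lib.MP_d0d59f_nt.AA

open Finset

theorem c7b_osc_le_two (d r : ℤ) (K n L : ℕ) : osc d r (K + 1) K n L ≤ 2 := by
  unfold osc
  calc _ ≤ ∑ l ∈ range (L + 1), 2 * nb n l :=
        Finset.sum_le_sum fun l _ => osc_inner_le d r (K + 1) K n l (Nat.le_succ K)
    _ = 2 * ∑ l ∈ range (L + 1), nb n l := by rw [Finset.mul_sum]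
    _ ≤ 2 * 1 := mul_le_mul_of_nonneg_left (sum_nb_le_one n L) (by norm_num)
    _ = 2 := by norm_num

theorem c7b_params (B K' : ℕ) (hK : 1 ≤ K') (hq : 2 * K' ^ (2 * B) ≤ 3 ^ K') :
    ∃ h L0 : ℕ, 2 ^ (L0 + h) * K' ^ B ≤ 3 ^ K' ∧ (3 : ℝ) ^ K' / 2 ^ L0 ≤ 4 * (K' : ℝ) ^ (2 * B) ∧
      5 * L0 ≤ 8 * K' ∧ K' ^ B ≤ 2 ^ h ∧ h ≤ 2 * K' ^ B := by
  obtain ⟨M0, hM0⟩ : ∃ M0, M0 = K' ^ B := ⟨_, rfl⟩
  have hM1 : 1 ≤ M0 := by rw [hM0]; exact Nat.one_le_pow _ _ hK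
  obtain ⟨h, hh⟩ : ∃ h, h = Nat.clog 2 M0 := ⟨_, rfl⟩
  have h1 : M0 ≤ 2 ^ h := by rw [hh]; exact Nat.le_pow_clog (by norm_num) _
  have h2 : 2 ^ h ≤ 2 * M0 := by
    rcases Nat.eq_or_lt_of_le hM1 with h1' | h1'
    · rw [hh, ← h1']; simp
    · have h3 := Nat.pow_pred_clog_lt_self (b := 2) (by norm_num) h1'
      rw [← hh] at h3
      have h4 : h ≠ 0 := by
        rintro h0
        rw [h0] at h1
        omega
      obtain ⟨g, hg⟩ : ∃ g, h = g + 1 := ⟨h - 1, by omega⟩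
      rw [hg] at h3 ⊢
      simp only [Nat.pred_eq_sub_one, Nat.add_sub_cancel] at h3
      rw [pow_succ]
      omega
  have h3 : h ≤ 2 * M0 := (Nat.lt_two_pow_self).le.trans h2
  obtain ⟨q, hqd⟩ : ∃ q, q = 2 ^ h * M0 := ⟨_, rfl⟩
  have hq1 : 1 ≤ q := by
    rw [hqd]; exact Nat.one_le_iff_ne_zero.2 (by positivity)
  have hMM : M0 * M0 = K' ^ (2 * B) := by rw [hM0]; ring
  have hq2 : q ≤ 2 * K' ^ (2 * B) := by
    rw [hqd, ← hMM]
    calc 2 ^ h * M0 ≤ 2 * M0 * M0 := Nat.mul_le_mul_right _ h2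
      _ = _ := by ring
  have hq3 : q ≤ 3 ^ K' := hq2.trans hq
  have hdiv : 3 ^ K' / q ≠ 0 := by
    have := Nat.div_pos hq3 hq1
    omega
  obtain ⟨L0, hL0⟩ : ∃ L0, L0 = Nat.log 2 (3 ^ K' / q) := ⟨_, rfl⟩
  have h4 : 2 ^ L0 ≤ 3 ^ K' / q := by rw [hL0]; exact Nat.pow_log_le_self 2 hdiv
  have h5 : 3 ^ K' / q < 2 ^ (L0 + 1) := by
    rw [hL0]; exact Nat.lt_pow_succ_log_self (by norm_num) _
  have h6 : 2 ^ L0 * q ≤ 3 ^ K' := (Nat.le_div_iff_mul_le hq1).1 h4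
  have h7 : 3 ^ K' < 2 ^ (L0 + 1) * q := (Nat.div_lt_iff_lt_mul hq1).1 h5
  refine ⟨h, L0, ?_, ?_, ?_, ?_, ?_⟩
  · rw [← hM0, pow_add, mul_assoc, ← hqd]
    exact h6
  · have h8 : ((3 : ℝ) ^ K') ≤ 2 ^ (L0 + 1) * q := by exact_mod_cast h7.le
    have h9 : (q : ℝ) ≤ 2 * (K' : ℝ) ^ (2 * B) := by exact_mod_cast hq2
    rw [div_le_iff₀ (by positivity)]
    calc (3 : ℝ) ^ K' ≤ 2 ^ (L0 + 1) * q := h8
      _ ≤ 2 ^ (L0 + 1) * (2 * (K' : ℝ) ^ (2 * B)) := mul_le_mul_of_nonneg_left h9 (by positivity)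
      _ = 4 * (K' : ℝ) ^ (2 * B) * 2 ^ L0 := by ring
  · have h8 : 2 ^ L0 ≤ 3 ^ K' := by
      calc 2 ^ L0 = 2 ^ L0 * 1 := (mul_one _).symm
        _ ≤ 2 ^ L0 * q := Nat.mul_le_mul_left _ hq1
        _ ≤ _ := h6
    have h9 : 2 ^ (5 * L0) ≤ 2 ^ (8 * K') := by
      calc 2 ^ (5 * L0) = (2 ^ L0) ^ 5 := by rw [← pow_mul, mul_comm]
        _ ≤ (3 ^ K') ^ 5 := Nat.pow_le_pow_left h8 5
        _ = (3 ^ 5) ^ K' := by rw [← pow_mul, ← pow_mul, mul_comm]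
        _ ≤ (2 ^ 8) ^ K' := Nat.pow_le_pow_left (by norm_num) K'
        _ = 2 ^ (8 * K') := by rw [← pow_mul]
    exact (Nat.pow_le_pow_iff_right (by norm_num)).1 h9
  · rw [← hM0]; exact h1
  · rw [← hM0]; exact h3

theorem c7b_poly_exp (k : ℕ) (r : ℝ) (hr0 : 0 ≤ r) (hr : r < 1) :
    ∃ C : ℝ, 0 ≤ C ∧ ∀ n : ℕ, (n : ℝ) ^ k * r ^ n ≤ C := by
  have h := tendsto_pow_const_mul_const_pow_of_abs_lt_one k (r := r) (by rw [abs_of_nonneg hr0]; exact hr)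
  obtain ⟨C, hC⟩ := h.bddAbove_range
  refine ⟨max C 0, le_max_right _ _, fun n => ?_⟩
  exact (hC ⟨n, rfl⟩).trans (le_max_left _ _)

theorem c7b_exp (A : ℕ) : ∃ C : ℝ, 1 ≤ C ∧ ∀ K' L0 τ : ℕ, 5 * L0 ≤ 8 * K' → 9 * K' ≤ 10 * τ + 9 →
    (7 / 6 : ℝ) ^ L0 * (3 / 4) ^ τ * (K' : ℝ) ^ A ≤ C := by
  obtain ⟨C3, hC3, hb⟩ := c7b_poly_exp (10 * A) (9 / 10) (by norm_num) (by norm_num)
  refine ⟨max 1 ((4 / 3) ^ 9 * C3), le_max_left _ _, ?_⟩
  intro K' L0 τ h1 h2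
  set Y : ℝ := (7 / 6 : ℝ) ^ L0 * (3 / 4) ^ τ * (K' : ℝ) ^ A with hY
  have hY0 : 0 ≤ Y := by positivity
  have e1 : ((7 / 6 : ℝ) ^ L0) ^ 10 ≤ ((7 / 6 : ℝ) ^ 16) ^ K' := by
    rw [← pow_mul, ← pow_mul]
    exact pow_le_pow_right₀ (by norm_num) (by omega)
  have e2 : ((3 / 4 : ℝ) ^ τ) ^ 10 ≤ (4 / 3) ^ 9 * ((3 / 4 : ℝ) ^ 9) ^ K' := by
    have g1 : (3 / 4 : ℝ) ^ (10 * τ + 9) ≤ (3 / 4 : ℝ) ^ (9 * K') :=
      pow_le_pow_of_le_one (by norm_num) (by norm_num) h2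
    rw [← pow_mul, ← pow_mul]
    rw [pow_add] at g1
    have g2 : (3 / 4 : ℝ) ^ 9 * (4 / 3) ^ 9 = 1 := by norm_num
    calc (3 / 4 : ℝ) ^ (τ * 10) = (3 / 4 : ℝ) ^ (10 * τ) * ((3 / 4 : ℝ) ^ 9 * (4 / 3) ^ 9) := by
          rw [g2, mul_one, mul_comm τ 10]
      _ = (3 / 4 : ℝ) ^ (10 * τ) * (3 / 4 : ℝ) ^ 9 * (4 / 3) ^ 9 := by ring
      _ ≤ (3 / 4 : ℝ) ^ (9 * K') * (4 / 3) ^ 9 := mul_le_mul_of_nonneg_right g1 (by positivity)
      _ = _ := by ring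
  have e3 : ((7 / 6 : ℝ) ^ 16) ^ K' * ((3 / 4 : ℝ) ^ 9) ^ K' ≤ (9 / 10) ^ K' := by
    rw [← mul_pow]
    exact pow_le_pow_left₀ (by positivity) (by norm_num) _
  have e4 : Y ^ 10 ≤ (4 / 3) ^ 9 * C3 := by
    have g1 : Y ^ 10 = ((7 / 6 : ℝ) ^ L0) ^ 10 * ((3 / 4 : ℝ) ^ τ) ^ 10 * (K' : ℝ) ^ (10 * A) := by
      rw [hY, mul_pow, mul_pow, ← pow_mul (K' : ℝ), mul_comm A 10]
    rw [g1]
    calc ((7 / 6 : ℝ) ^ L0) ^ 10 * ((3 / 4 : ℝ) ^ τ) ^ 10 * (K' : ℝ) ^ (10 * A)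
        ≤ (((7 / 6 : ℝ) ^ 16) ^ K' * ((4 / 3) ^ 9 * ((3 / 4 : ℝ) ^ 9) ^ K')) * (K' : ℝ) ^ (10 * A) := by
          refine mul_le_mul_of_nonneg_right ?_ (by positivity)
          exact mul_le_mul e1 e2 (by positivity) (by positivity)
      _ = (4 / 3) ^ 9 * ((K' : ℝ) ^ (10 * A) *
          (((7 / 6 : ℝ) ^ 16) ^ K' * ((3 / 4 : ℝ) ^ 9) ^ K')) := by ring
      _ ≤ (4 / 3) ^ 9 * ((K' : ℝ) ^ (10 * A) * (9 / 10) ^ K') := by
          refine mul_le_mul_of_nonneg_left ?_ (by positivity)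
          exact mul_le_mul_of_nonneg_left e3 (by positivity)
      _ ≤ (4 / 3) ^ 9 * C3 := mul_le_mul_of_nonneg_left (hb K') (by positivity)
  by_contra hcon
  push Not at hcon
  have h1Y : 1 ≤ Y := (le_max_left _ _).trans hcon.le
  have h10 : Y ≤ Y ^ 10 := le_self_pow₀ h1Y (by norm_num)
  have : (4 / 3 : ℝ) ^ 9 * C3 < Y := (le_max_right _ _).trans_lt hcon
  linarith

/-- `B = A + 2`, `E = A + 2B + 1`, `C₁` from `back_bound`. For `K'` below a constant `K₀` (depending on `A` only)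
use `osc ≤ 2` (`osc_inner_le`, `sum_nb_le_one`). Let `M0 = K'^B`, `h = Nat.clog 2 M0` (`M0 ≤ 2^h ≤ 2 M0`, `h ≤ 2 M0`),
`q = 2^h M0 ≤ 2 K'^{2B} ≤ 3^{K'}`, `L0 = Nat.log 2 (3^{K'}/q)`: `2^{L0+h} M0 ≤ 3^{K'} < 2^{L0+1} q`, so
`3^{K'}/2^{L0} ≤ 4 K'^{2B}`, and `5 L0 ≤ 8 K'` (`2^{L0} ≤ 3^{K'}`, `3^5 < 2^8`). `τ = 9K'/10 ≤ n` (as `n ≥ K' - √K'`).
`osc_front` with `b = C₁/K'^E`: first term `≤ (L+1)·K'·2K'^B·(C₁/K'^E)·2K'^B = 4 C₁ (L+1)/K'^A`.
`bad_mass`: `(7/6)^{L0}(3/4)^τ`, whose 10th power is `≤ (4/3)^{10} ((7/6)^16 (3/4)^9)^{K'} ≤ (4/3)^{10} 0.9^{K'}`;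
`τ/2^h ≤ K'^{1-B}`; `τ²/M0 ≤ K'^{2-B} = K'^{-A}`. -/
theorem single_step {d : ℤ} (h3 : ¬ (3 : ℤ) ∣ d) (A : ℕ) : ∃ C : ℝ, 1 ≤ C ∧
    ∀ (r : ℤ) (K n L : ℕ), n ≤ K + 1 → (K + 1 - n) ^ 2 ≤ K + 1 →
      osc d r (K + 1) K n L ≤ C * ((L : ℝ) + 1) / ((K : ℝ) + 1) ^ A := by
  obtain ⟨B, hB⟩ : ∃ B, B = A + 2 := ⟨_, rfl⟩
  obtain ⟨E, hE⟩ : ∃ E, E = A + 2 * B + 1 := ⟨_, rfl⟩
  obtain ⟨C1, hC1, hback⟩ := back_bound h3 E
  obtain ⟨C5, hC5, hexp⟩ := c7b_exp A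
  -- the threshold
  obtain ⟨K1, hK1⟩ : ∃ K1 : ℕ, ∀ n ≥ K1, 2 * n ^ (2 * B) ≤ 3 ^ n := by
    have h := tendsto_pow_const_mul_const_pow_of_abs_lt_one (2 * B) (r := (1 / 3 : ℝ))
      (by rw [abs_of_pos (by norm_num)]; norm_num)
    obtain ⟨K1, hK1⟩ := Filter.eventually_atTop.1 (h.eventually (gt_mem_nhds (show (0 : ℝ) < 1 / 2 by norm_num)))
    refine ⟨K1, fun n hn => ?_⟩
    have h1 := hK1 n hn
    rw [one_div, inv_pow, mul_inv_lt_iff₀ (by positivity)] at h1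
    have h2 : 2 * (n : ℝ) ^ (2 * B) ≤ 3 ^ n := by linarith
    exact_mod_cast h2
  obtain ⟨K0, hK0⟩ : ∃ K0, K0 = max K1 100 := ⟨_, rfl⟩
  refine ⟨2 * (K0 : ℝ) ^ A + (4 * C1 + 2 * (C5 + 2)), ?_, ?_⟩
  · have : 0 ≤ 2 * (K0 : ℝ) ^ A := by positivity
    linarith
  intro r K n L hn hn2
  obtain ⟨K', hK'⟩ : ∃ K', K' = K + 1 := ⟨_, rfl⟩
  have hcast : (K : ℝ) + 1 = (K' : ℝ) := by rw [hK']; push_cast; ring
  rw [hcast]
  have hK'1 : 1 ≤ K' := by omega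
  have hK'r : (1 : ℝ) ≤ K' := by exact_mod_cast hK'1
  have hL0 : (0 : ℝ) ≤ L := Nat.cast_nonneg _
  have hLA : 0 < (K' : ℝ) ^ A := by positivity
  rw [le_div_iff₀ hLA]
  by_cases hsmall : K' < K0
  · have h1 := c7b_osc_le_two d r K n L
    have h2 : (K' : ℝ) ^ A ≤ (K0 : ℝ) ^ A :=
      pow_le_pow_left₀ (by positivity) (by exact_mod_cast hsmall.le) _
    calc osc d r (K + 1) K n L * (K' : ℝ) ^ A ≤ 2 * (K0 : ℝ) ^ A :=
          mul_le_mul h1 h2 (by positivity) (by norm_num)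
      _ ≤ (2 * (K0 : ℝ) ^ A + (4 * C1 + 2 * (C5 + 2))) * 1 := by linarith
      _ ≤ (2 * (K0 : ℝ) ^ A + (4 * C1 + 2 * (C5 + 2))) * ((L : ℝ) + 1) := by
          refine mul_le_mul_of_nonneg_left (by linarith) ?_
          have : 0 ≤ 2 * (K0 : ℝ) ^ A := by positivity
          linarith
  · push Not at hsmall
    have hKK1 : K1 ≤ K' := (le_max_left _ _).trans (hK0 ▸ hsmall)
    have hK100 : 100 ≤ K' := (le_max_right _ _).trans (hK0 ▸ hsmall)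
    obtain ⟨h, L0, p1, p2, p3, p4, p5⟩ := c7b_params B K' hK'1 (hK1 K' hKK1)
    obtain ⟨τ, hτ⟩ : ∃ τ, τ = 9 * K' / 10 := ⟨_, rfl⟩
    have hτ1 : 10 * τ ≤ 9 * K' := by omega
    have hτ2 : 9 * K' ≤ 10 * τ + 9 := by omega
    have hτn : τ ≤ n := by
      by_contra hcon
      push Not at hcon
      rw [← hK'] at hn2
      have g1 : K' ≤ 10 * (K' - n) := by omega
      have g2 : K' * K' ≤ (10 * (K' - n)) * (10 * (K' - n)) := Nat.mul_le_mul g1 g1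
      have g3 : (10 * (K' - n)) * (10 * (K' - n)) = 100 * (K' - n) ^ 2 := by ring
      have g4 : K' * K' ≤ 100 * K' := by
        rw [g3] at g2
        exact g2.trans (Nat.mul_le_mul_left _ hn2)
      have g5 : K' ≤ 100 := Nat.le_of_mul_le_mul_right g4 (by omega)
      have g6 : K' = 100 := le_antisymm g5 hK100
      rw [g6] at hn2 hτ
      have g7 : 100 - n ≤ 10 := by
        by_contra hc
        push Not at hc
        have : 11 ^ 2 ≤ (100 - n) ^ 2 := Nat.pow_le_pow_left hc 2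
        omega
      omega
    have hbE : 0 ≤ C1 / (K' : ℝ) ^ E := by positivity
    have hfront := osc_front h3 r K n τ L0 h L hτn (C1 / (K' : ℝ) ^ E) hbE (by
      intro t ht s hs l hl hsl ξ hξ
      have ht' := (Finset.mem_Icc.1 ht).2
      have := hback r K n t s l L ξ hn hn2 (by omega) (ht'.trans hτn) hsl hl hξ
      rwa [hcast] at this)
    have hbad := bad_mass n K τ L0 h L (K' ^ B) hτn (Nat.one_le_pow _ _ hK'1) (by rw [← hK']; exact p1)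
    rw [← hK'] at hfront
    -- estimates
    have hsqrt : Real.sqrt (3 ^ K' / 2 ^ L0) ≤ 2 * (K' : ℝ) ^ B := by
      rw [Real.sqrt_le_left (by positivity)]
      refine p2.trans (le_of_eq ?_)
      rw [mul_pow, ← pow_mul, mul_comm B 2]
      norm_num
    have hτr : (τ : ℝ) ≤ K' := by
      have : τ ≤ K' := by omega
      exact_mod_cast this
    have hhr : (h : ℝ) ≤ 2 * (K' : ℝ) ^ B := by exact_mod_cast p5
    have hτ0 : (0 : ℝ) ≤ τ := Nat.cast_nonneg _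
    have hh0 : (0 : ℝ) ≤ h := Nat.cast_nonneg _
    have t1 : ((L : ℝ) + 1) * τ * h * (C1 / (K' : ℝ) ^ E * Real.sqrt (3 ^ K' / 2 ^ L0)) * (K' : ℝ) ^ A
        ≤ 4 * C1 * ((L : ℝ) + 1) := by
      calc ((L : ℝ) + 1) * τ * h * (C1 / (K' : ℝ) ^ E * Real.sqrt (3 ^ K' / 2 ^ L0)) * (K' : ℝ) ^ A
          ≤ ((L : ℝ) + 1) * K' * (2 * (K' : ℝ) ^ B) * (C1 / (K' : ℝ) ^ E * (2 * (K' : ℝ) ^ B)) *
            (K' : ℝ) ^ A := by
            gcongr
        _ = 4 * C1 * ((L : ℝ) + 1) * ((K' : ℝ) ^ (A + 2 * B + 1) / (K' : ℝ) ^ E) := by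
            have g0 : (K' : ℝ) ^ (A + 2 * B + 1) =
                (K' : ℝ) ^ A * (K' : ℝ) ^ B * (K' : ℝ) ^ B * K' := by
              rw [two_mul, pow_succ, pow_add, pow_add]
              ring
            rw [g0]
            ring
        _ = 4 * C1 * ((L : ℝ) + 1) := by
            rw [hE, div_self (by positivity), mul_one]
    have t2 : (7 / 6 : ℝ) ^ L0 * (3 / 4) ^ τ * (K' : ℝ) ^ A ≤ C5 := hexp K' L0 τ p3 hτ2
    have t3 : (τ : ℝ) / 2 ^ h * (K' : ℝ) ^ A ≤ 1 := by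
      have g1 : (K' : ℝ) ^ B ≤ 2 ^ h := by exact_mod_cast p4
      rw [div_mul_eq_mul_div, div_le_one (by positivity)]
      calc (τ : ℝ) * (K' : ℝ) ^ A ≤ K' * (K' : ℝ) ^ A := mul_le_mul_of_nonneg_right hτr (by positivity)
        _ = (K' : ℝ) ^ (A + 1) := by ring
        _ ≤ (K' : ℝ) ^ B := pow_le_pow_right₀ hK'r (by omega)
        _ ≤ 2 ^ h := g1
    have t4 : (τ : ℝ) ^ 2 / ((K' ^ B : ℕ) : ℝ) * (K' : ℝ) ^ A ≤ 1 := by
      push_cast
      rw [div_mul_eq_mul_div, div_le_one (by positivity)]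
      calc (τ : ℝ) ^ 2 * (K' : ℝ) ^ A ≤ (K' : ℝ) ^ 2 * (K' : ℝ) ^ A := by gcongr
        _ = (K' : ℝ) ^ B := by rw [hB]; ring
    have t5 : (∑ l ∈ range (L + 1), (1 / 2 : ℝ) ^ l *
          (((comps n l).filter fun e => ¬ good K τ L0 h e).card : ℝ)) * (K' : ℝ) ^ A ≤ C5 + 2 := by
      calc _ ≤ ((7 / 6 : ℝ) ^ L0 * (3 / 4) ^ τ + τ / 2 ^ h + (τ : ℝ) ^ 2 / ((K' ^ B : ℕ) : ℝ)) *
            (K' : ℝ) ^ A := mul_le_mul_of_nonneg_right hbad (by positivity)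
        _ = (7 / 6 : ℝ) ^ L0 * (3 / 4) ^ τ * (K' : ℝ) ^ A + τ / 2 ^ h * (K' : ℝ) ^ A +
            (τ : ℝ) ^ 2 / ((K' ^ B : ℕ) : ℝ) * (K' : ℝ) ^ A := by ring
        _ ≤ C5 + 1 + 1 := add_le_add (add_le_add t2 t3) t4
        _ = C5 + 2 := by ring
    calc osc d r (K + 1) K n L * (K' : ℝ) ^ A
        ≤ (((L : ℝ) + 1) * τ * h * (C1 / (K' : ℝ) ^ E * Real.sqrt (3 ^ K' / 2 ^ L0))
          + 2 * ∑ l ∈ range (L + 1), (1 / 2 : ℝ) ^ l *
          (((comps n l).filter fun e => ¬ good K τ L0 h e).card : ℝ)) * (K' : ℝ) ^ A := by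
          refine mul_le_mul_of_nonneg_right ?_ (by positivity)
          rw [← hK']
          exact hfront
      _ = ((L : ℝ) + 1) * τ * h * (C1 / (K' : ℝ) ^ E * Real.sqrt (3 ^ K' / 2 ^ L0)) * (K' : ℝ) ^ A
          + 2 * ((∑ l ∈ range (L + 1), (1 / 2 : ℝ) ^ l *
          (((comps n l).filter fun e => ¬ good K τ L0 h e).card : ℝ)) * (K' : ℝ) ^ A) := by ring
      _ ≤ 4 * C1 * ((L : ℝ) + 1) + 2 * (C5 + 2) * 1 := by linarith
      _ ≤ 4 * C1 * ((L : ℝ) + 1) + 2 * (C5 + 2) * ((L : ℝ) + 1) := by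
          gcongr
          linarith
      _ ≤ (2 * (K0 : ℝ) ^ A + (4 * C1 + 2 * (C5 + 2))) * ((L : ℝ) + 1) := by
          have : 0 ≤ 2 * (K0 : ℝ) ^ A * ((L : ℝ) + 1) := by positivity
          linarith

end Pool.Agent.Lib.MP_d0d59f_nt.AA

end

section

/-! Row pd-P08: mean of the oscillation function. -/

namespace Pool.Agent.Lib.MP_d0d59f_nt.PD

open Finset

theorem hm_nonneg (m L : ℕ) (z : ℤ) : 0 ≤ hm m L z := by
  unfold hm
  refine mul_nonneg (by positivity) ?_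
  exact Finset.sum_nonneg fun r _ => Finset.sum_nonneg fun l _ => abs_nonneg _

/-- Period `3^(m+1)`: both casts to `ZMod` agree (`ZMod.intCast_eq_intCast_iff`). -/
theorem hm_congr {m L : ℕ} {z z' : ℤ} (h : z ≡ z' [ZMOD 3 ^ (m + 1)]) : hm m L z = hm m L z' := by
  have h1 : (z : ZMod (3 ^ (m + 1))) = (z' : ZMod (3 ^ (m + 1))) := by
    rw [ZMod.intCast_eq_intCast_iff]
    exact_mod_cast h
  have h2 : (z : ZMod (3 ^ m)) = (z' : ZMod (3 ^ m)) := by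
    rw [ZMod.intCast_eq_intCast_iff]
    have h3 : z ≡ z' [ZMOD 3 ^ m] := h.of_dvd (pow_dvd_pow 3 (Nat.le_succ m))
    exact_mod_cast h3
  unfold hm
  rw [h1, h2]

/-- `∑_{z<3^(m+1)} hm m L z = 3^m ∑_{r<3} AA.osc 1 r (m+1) m m L` (definition of `osc`, `sum_comm`), and
`AA.single_step` (with `d = 1`, `A = 5`, `K = m`, `n = m`). -/
theorem hm_sum : ∃ C : ℝ, 0 ≤ C ∧ ∀ m L : ℕ, ∑ z ∈ range (3 ^ (m + 1)), hm m L (z : ℤ) ≤
    3 ^ (m + 1) * (C * (L + 1) / ((m : ℝ) + 1) ^ 5) := by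
  obtain ⟨C, hC, h⟩ := AA.single_step (d := 1) (by norm_num) 5
  refine ⟨C, by linarith, fun m L => ?_⟩
  have hosc : ∑ z ∈ range (3 ^ (m + 1)), hm m L (z : ℤ) =
      3 ^ m * ∑ r ∈ range 3, AA.osc 1 (r : ℤ) (m + 1) m m L := by
    unfold hm AA.osc
    rw [← Finset.mul_sum]
    congr 1
    rw [Finset.sum_comm]
    refine Finset.sum_congr rfl fun r _ => ?_
    rw [Finset.sum_comm]
    refine Finset.sum_congr rfl fun l _ => ?_
    refine Finset.sum_congr rfl fun x _ => ?_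
    simp only [Int.cast_natCast]
  rw [hosc, pow_succ]
  have h1 : ∑ r ∈ range 3, AA.osc 1 (r : ℤ) (m + 1) m m L ≤
      ∑ _r ∈ range 3, C * ((L : ℝ) + 1) / ((m : ℝ) + 1) ^ 5 := by
    refine Finset.sum_le_sum fun r _ => ?_
    refine h (r : ℤ) m m L (Nat.le_succ m) ?_
    have : m + 1 - m = 1 := by omega
    rw [this]
    omega
  rw [Finset.sum_const, Finset.card_range, nsmul_eq_mul] at h1
  calc (3 : ℝ) ^ m * ∑ r ∈ range 3, AA.osc 1 (r : ℤ) (m + 1) m m L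
      ≤ 3 ^ m * (((3 : ℕ) : ℝ) * (C * ((L : ℝ) + 1) / ((m : ℝ) + 1) ^ 5)) :=
        mul_le_mul_of_nonneg_left h1 (by positivity)
    _ = _ := by push_cast; ring

end Pool.Agent.Lib.MP_d0d59f_nt.PD

end
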