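import Mathlib
import Pool.Agent.Lib.MP_d0d59f_nt.NK.K014
import Pool.Agent.Lib.MP_d0d59f_nt.NK.K015

/-! Row C9 (about 120 lines): the mixing estimate. -/

namespace Pool.Agent.Lib.MP_d0d59f_nt.AA

open Finset

/-- one level -/
theorem c9_term {d : ℤ} {C₁ : ℝ} {E : ℕ} (hC1 : 1 ≤ C₁)
    (hs : ∀ (r : ℤ) (K n L : ℕ), n ≤ K + 1 → (K + 1 - n) ^ 2 ≤ K + 1 →
      osc d r (K + 1) K n L ≤ C₁ * ((L : ℝ) + 1) / ((K : ℝ) + 1) ^ (2 * E))
    {k m j : ℕ} (r : ℤ) (hk : 1 ≤ k) (hm : m * m ≤ k) (hj1 : Nat.sqrt (k / 2) ≤ j)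
    (hj2 : j < 10 * k + m) :
    osc d r (j + 1) j (10 * k) (21 * k) ≤ 22 * C₁ * 2 ^ E * k / (k : ℝ) ^ E := by
  have hk0 : (0 : ℝ) < k := by exact_mod_cast hk
  have hstep : osc d r (j + 1) j (10 * k) (21 * k) ≤
      C₁ * (((21 * k : ℕ) : ℝ) + 1) / ((j : ℝ) + 1) ^ (2 * E) := by
    by_cases hjk : j + 1 ≤ 10 * k
    · refine (osc_reduce d r j (10 * k) (21 * k) hjk).trans ?_
      exact hs 0 j (j + 1) (21 * k) le_rfl (by simp)
    · refine hs r j (10 * k) (21 * k) (by omega) ?_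
      have h1 : j + 1 - 10 * k ≤ m := by omega
      calc (j + 1 - 10 * k) ^ 2 ≤ m ^ 2 := Nat.pow_le_pow_left h1 2
        _ = m * m := by ring
        _ ≤ k := hm
        _ ≤ j + 1 := by omega
  refine hstep.trans ?_
  have hden : (k : ℝ) ^ E / 2 ^ E ≤ ((j : ℝ) + 1) ^ (2 * E) := by
    rw [← div_pow, pow_mul]
    refine pow_le_pow_left₀ (by positivity) ?_ E
    have h1 : k / 2 < (Nat.sqrt (k / 2) + 1) * (Nat.sqrt (k / 2) + 1) := Nat.lt_succ_sqrt _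
    have h2 : k ≤ 2 * ((j + 1) * (j + 1)) := by
      have h3 : (Nat.sqrt (k / 2) + 1) * (Nat.sqrt (k / 2) + 1) ≤ (j + 1) * (j + 1) :=
        Nat.mul_le_mul (by omega) (by omega)
      omega
    have h4 : (k : ℝ) ≤ 2 * (((j : ℝ) + 1) * ((j : ℝ) + 1)) := by exact_mod_cast h2
    nlinarith
  have hnum : C₁ * (((21 * k : ℕ) : ℝ) + 1) ≤ C₁ * (22 * k) := by
    refine mul_le_mul_of_nonneg_left ?_ (by linarith)
    have : (1 : ℝ) ≤ k := by exact_mod_cast hk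
    push_cast
    linarith
  have hpos : (0 : ℝ) < (k : ℝ) ^ E / 2 ^ E := by positivity
  calc C₁ * (((21 * k : ℕ) : ℝ) + 1) / ((j : ℝ) + 1) ^ (2 * E)
      ≤ C₁ * (22 * k) / ((k : ℝ) ^ E / 2 ^ E) :=
        div_le_div₀ (by positivity) hnum hpos hden
    _ = 22 * C₁ * 2 ^ E * k / (k : ℝ) ^ E := by field_simp

/-- `m' = Nat.sqrt (k/2)`, `single_step` with exponent `2E`, `E = A + 2`, constant `C₁`. `osc_telescope` (`m' ≤ k ≤ 10k+m`); for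
`j ∈ [m', 10k+m)`: if `j + 1 ≤ 10k` then `osc_reduce` and `single_step` with `n = j+1`; if `j+1 > 10k` then `single_step` with
`n = 10k` (`(j+1-10k)² ≤ m² ≤ k ≤ j+1`). So every term is `≤ C₁ (21k+1)/(j+1)^{2E} ≤ 22 C₁ k/(m'+1)^{2E}` and
`(m'+1)² ≥ k/2` (`Nat.lt_succ_sqrt`: `k/2 < (m'+1)²` with floor). At most `11k` terms: total `≤ 242 C₁ k² (2/k)^E`. -/
theorem osc_bound {d : ℤ} (h3 : ¬ (3 : ℤ) ∣ d) (A : ℕ) : ∃ C : ℝ, 0 ≤ C ∧
    ∀ (k m : ℕ) (r : ℤ), 1 ≤ k → m * m ≤ k →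
      osc d r (10 * k + m) (Nat.sqrt (k / 2)) (10 * k) (21 * k) ≤ C / (k : ℝ) ^ A := by
  obtain ⟨C₁, hC1, hs⟩ := single_step h3 (2 * (A + 2))
  refine ⟨242 * C₁ * 2 ^ (A + 2), by positivity, fun k m r hk hm => ?_⟩
  have hk0 : (0 : ℝ) < k := by exact_mod_cast hk
  have hm' : Nat.sqrt (k / 2) ≤ k := (Nat.sqrt_le_self _).trans (Nat.div_le_self _ _)
  have hmk : m ≤ k := by
    rcases Nat.eq_zero_or_pos m with h0 | h0
    · omega
    · exact (Nat.le_mul_of_pos_left m h0).trans hm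
  refine (osc_telescope d r (10 * k + m) (Nat.sqrt (k / 2)) (10 * k) (21 * k)
    (by omega)).trans ?_
  have h1 : ∀ j ∈ Ico (Nat.sqrt (k / 2)) (10 * k + m), osc d r (j + 1) j (10 * k) (21 * k) ≤
      22 * C₁ * 2 ^ (A + 2) * k / (k : ℝ) ^ (A + 2) := fun j hj => by
    rw [mem_Ico] at hj
    exact c9_term hC1 hs r hk hm hj.1 hj.2
  refine (sum_le_card_nsmul _ _ _ h1).trans ?_
  rw [Nat.card_Ico, nsmul_eq_mul]
  have h2 : ((10 * k + m - Nat.sqrt (k / 2) : ℕ) : ℝ) ≤ 11 * k := by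
    have : 10 * k + m - Nat.sqrt (k / 2) ≤ 11 * k := by omega
    exact_mod_cast this
  have h4 : (0 : ℝ) ≤ 22 * C₁ * 2 ^ (A + 2) * k / (k : ℝ) ^ (A + 2) := by positivity
  refine (mul_le_mul_of_nonneg_right h2 h4).trans (le_of_eq ?_)
  rw [pow_add (k : ℝ) A 2]
  field_simp
  ring

end Pool.Agent.Lib.MP_d0d59f_nt.AA
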