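import Mathlib
import Pool.Agent.Lib.MP_d0d59f_nt.NK.K003

namespace Pool.Agent.Lib.MP_d0d59f_nt.AA
end Pool.Agent.Lib.MP_d0d59f_nt.AA

/-! Row nd-P1 (about 100 lines): the law `nb n`. -/

namespace Pool.Agent.Lib.MP_d0d59f_nt.ND

open Finset AA

/-- `AA.sum_nb_le_one` and `AA.one_sub_sum_nb_le` with `x = 3/2` (or by induction on `n` with `AA.nb_succ`). -/
theorem hasSum_nb (n : ℕ) : HasSum (fun l => nb n l) 1 := by
  rw [hasSum_iff_tendsto_nat_of_nonneg (fun l => nb_nonneg n l)]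
  have hlow : Filter.Tendsto (fun L : ℕ => 1 - (2 / 3 : ℝ) ^ L * 3 ^ n) Filter.atTop (nhds 1) := by
    have h1 : Filter.Tendsto (fun L : ℕ => (2 / 3 : ℝ) ^ L) Filter.atTop (nhds 0) :=
      tendsto_pow_atTop_nhds_zero_of_lt_one (by norm_num) (by norm_num)
    have h2 := (h1.mul_const ((3 : ℝ) ^ n)).const_sub 1
    simpa using h2
  refine tendsto_of_tendsto_of_tendsto_of_le_of_le' hlow tendsto_const_nhds ?_ ?_
  · filter_upwards [Filter.eventually_ge_atTop 1] with L hL
    obtain ⟨M, rfl⟩ : ∃ M, L = M + 1 := ⟨L - 1, by omega⟩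
    have h := one_sub_sum_nb_le n M (3 / 2) (by norm_num) (by norm_num)
    norm_num at h
    norm_num
    linarith
  · filter_upwards [Filter.eventually_ge_atTop 1] with L hL
    obtain ⟨M, rfl⟩ : ∃ M, L = M + 1 := ⟨L - 1, by omega⟩
    exact sum_nb_le_one n M

private theorem nb_rec (n l : ℕ) : nb (n + 1) (l + 1) = (nb (n + 1) l + nb n l) / 2 := by
  rw [nb_succ, nb_succ, ← Finset.add_sum_Ioc_eq_sum_Icc (by omega : 1 ≤ l + 1)]
  have h : ∑ x ∈ Ioc 1 (l + 1), (1 / 2 : ℝ) ^ x * nb n (l + 1 - x) =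
      ∑ x ∈ Icc 1 l, (1 / 2 : ℝ) ^ (x + 1) * nb n (l - x) := by
    symm
    refine Finset.sum_bij (fun x _ => x + 1) ?_ ?_ ?_ ?_
    · intro x hx
      rw [Finset.mem_Icc] at hx
      rw [Finset.mem_Ioc]
      omega
    · intro x _ y _ h
      omega
    · intro y hy
      rw [Finset.mem_Ioc] at hy
      exact ⟨y - 1, by rw [Finset.mem_Icc]; omega, by omega⟩
    · intro x hx
      rw [Finset.mem_Icc] at hx
      congr 2
      omega
  rw [h, add_comm, add_div, Finset.sum_div]
  congr 1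
  · refine Finset.sum_congr rfl fun x _ => ?_
    rw [pow_succ]
    ring
  · simp
    ring

/-- There are `choose (l-1) (n-1)` lists of length `n` with entries `≥ 1` and sum `l`. Induction on `n` with `AA.nb_succ` and the hockey
stick identity `∑_{a=1}^{l} choose (l-a-1) (n-1) = choose (l-1) n` (`Nat.sum_Icc_choose` or induction on `l`: prove first
`nb (n+1) (l+1) = (nb (n+1) l + nb n l) / 2` for `l ≥ 1`, which follows from `AA.nb_succ`). -/
theorem nb_eq_choose {n l : ℕ} (hn : 1 ≤ n) (hl : 1 ≤ l) :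
    nb n l = ((l - 1).choose (n - 1) : ℝ) / 2 ^ l := by
  obtain ⟨n, rfl⟩ : ∃ m, n = m + 1 := ⟨n - 1, by omega⟩
  obtain ⟨l, rfl⟩ : ∃ m, l = m + 1 := ⟨l - 1, by omega⟩
  simp only [Nat.add_sub_cancel]
  clear hn hl
  induction l generalizing n with
  | zero =>
    rw [nb_rec, nb_succ_zero]
    cases n with
    | zero =>
      rw [nb_zero]
      simp
    | succ n =>
      rw [nb_succ_zero]
      simp
  | succ l ih =>
    rw [nb_rec, ih]
    cases n with
    | zero =>
      rw [nb_zero]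
      simp only [Nat.choose_zero_right, Nat.cast_one, Nat.succ_ne_zero, if_false]
      rw [pow_succ (2 : ℝ) (l + 1)]
      ring
    | succ n =>
      rw [ih n, Nat.choose_succ_succ]
      push_cast
      rw [pow_succ (2 : ℝ) (l + 1)]
      ring

end Pool.Agent.Lib.MP_d0d59f_nt.ND
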