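import Mathlib
import Pool.Agent.Lib.MP_d0d59f_nt.NK.K010
import Pool.Agent.Lib.MP_d0d59f_nt.NK.K017

namespace Pool.Agent.Lib.MP_d0d59f_nt.AA
end Pool.Agent.Lib.MP_d0d59f_nt.AA

section

/-! Row nd-P2 (about 110 lines): the maximum and the shape of `nb n`. -/

namespace Pool.Agent.Lib.MP_d0d59f_nt.ND

open Finset AA

/-- `choose (2m) m ≤ 4^m / √(3m+1)`: induction, `centralBinom (m+1) = centralBinom m * 2 (2m+1)/(m+1)` (`Nat.succ_mul_centralBinom_succ`) and
`(2m+1)^2 (3m+4) ≤ 4 (m+1)^2 (3m+1)`... i.e. `(2(2m+1)/(m+1))^2 (3m+4) ≤ 16 (3m+1)`. -/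
theorem central_le (m : ℕ) : ((2 * m).choose m : ℝ) ≤ 4 ^ m / Real.sqrt (3 * m + 1) := by
  have key : ∀ m : ℕ, ((Nat.centralBinom m : ℝ)) ^ 2 * (3 * m + 1) ≤ (4 ^ m) ^ 2 := by
    intro m
    induction m with
    | zero => simp
    | succ m ih =>
      have h1 : ((m : ℝ) + 1) * (Nat.centralBinom (m + 1) : ℝ) =
          2 * (2 * (m : ℝ) + 1) * (Nat.centralBinom m : ℝ) := by
        have h := Nat.succ_mul_centralBinom_succ m
        exact_mod_cast h
      have hm : (0 : ℝ) ≤ m := Nat.cast_nonneg m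
      have hm1 : (0 : ℝ) < ((m : ℝ) + 1) ^ 2 := by positivity
      have h2 : ((m : ℝ) + 1) ^ 2 * ((Nat.centralBinom (m + 1) : ℝ) ^ 2 * (3 * ((m + 1 : ℕ) : ℝ) + 1)) ≤
          ((m : ℝ) + 1) ^ 2 * (4 ^ (m + 1)) ^ 2 := by
        have e1 : ((m : ℝ) + 1) ^ 2 * ((Nat.centralBinom (m + 1) : ℝ) ^ 2 * (3 * ((m + 1 : ℕ) : ℝ) + 1)) =
            (((m : ℝ) + 1) * (Nat.centralBinom (m + 1) : ℝ)) ^ 2 * (3 * (m : ℝ) + 4) := by
          push_cast
          ring
        rw [e1, h1]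
        have e2 : (2 * (2 * (m : ℝ) + 1) * (Nat.centralBinom m : ℝ)) ^ 2 * (3 * (m : ℝ) + 4) =
            (Nat.centralBinom m : ℝ) ^ 2 * (4 * (2 * (m : ℝ) + 1) ^ 2 * (3 * (m : ℝ) + 4)) := by
          ring
        rw [e2]
        have e3 : 4 * (2 * (m : ℝ) + 1) ^ 2 * (3 * (m : ℝ) + 4) ≤
            16 * ((m : ℝ) + 1) ^ 2 * (3 * m + 1) := by
          nlinarith [mul_nonneg hm hm]
        calc (Nat.centralBinom m : ℝ) ^ 2 * (4 * (2 * (m : ℝ) + 1) ^ 2 * (3 * (m : ℝ) + 4))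
            ≤ (Nat.centralBinom m : ℝ) ^ 2 * (16 * ((m : ℝ) + 1) ^ 2 * (3 * m + 1)) :=
              mul_le_mul_of_nonneg_left e3 (by positivity)
          _ = 16 * ((m : ℝ) + 1) ^ 2 * ((Nat.centralBinom m : ℝ) ^ 2 * (3 * m + 1)) := by ring
          _ ≤ 16 * ((m : ℝ) + 1) ^ 2 * (4 ^ m) ^ 2 :=
              mul_le_mul_of_nonneg_left ih (by positivity)
          _ = ((m : ℝ) + 1) ^ 2 * (4 ^ (m + 1)) ^ 2 := by
              rw [pow_succ (4 : ℝ) m]
              ring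
      exact le_of_mul_le_mul_left h2 hm1
  have h3 : (0 : ℝ) < 3 * m + 1 := by positivity
  rw [le_div_iff₀ (Real.sqrt_pos.2 h3)]
  have h4 : (((2 * m).choose m : ℝ) * Real.sqrt (3 * m + 1)) ^ 2 ≤ (4 ^ m) ^ 2 := by
    rw [mul_pow, Real.sq_sqrt h3.le]
    have h := key m
    rw [Nat.centralBinom_eq_two_mul_choose] at h
    exact h
  exact le_of_sq_le_sq h4 (by positivity)

private theorem nb_eq_zero_x {n l : ℕ} (hn : 1 ≤ n) (hl : l < n) : nb n l = 0 := by
  rcases Nat.eq_zero_or_pos l with h0 | h0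
  · subst h0
    obtain ⟨k, rfl⟩ : ∃ k, n = k + 1 := ⟨n - 1, by omega⟩
    exact nb_succ_zero k
  · rw [nb_eq_choose hn h0, Nat.choose_eq_zero_of_lt (by omega)]
    simp

/-- `nb n l = 0` for `l < n`; for `l ≥ n`, `choose (l-1) (n-1) ≤ choose (l-1) ((l-1)/2)` (`Nat.choose_le_middle`) and `central_le`
(for odd `l - 1 = 2m+1` use `choose (2m+1) m ≤ choose (2m+2) (m+1) / 2`...), so
`nb n l ≤ 1/√l ≤ 1/√n`. The constant `2` is generous. -/
theorem nb_max {n : ℕ} (hn : 1 ≤ n) (l : ℕ) : nb n l ≤ 2 / Real.sqrt n := by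
  have hn0 : (0 : ℝ) < n := by exact_mod_cast hn
  have hs : 0 < Real.sqrt n := Real.sqrt_pos.2 hn0
  rcases lt_or_ge l n with h | h
  · rw [nb_eq_zero_x hn h]
    positivity
  · have h1 := nb_le_inv_sqrt n l (hn.trans h)
    refine h1.trans ?_
    have h2 : Real.sqrt n ≤ Real.sqrt l := Real.sqrt_le_sqrt (by exact_mod_cast h)
    calc 1 / Real.sqrt l ≤ 1 / Real.sqrt n := one_div_le_one_div_of_le hs h2
      _ ≤ 2 / Real.sqrt n := by gcongr; norm_num

/-- Ratio `nb n (l+1) / nb n l = l / (2 (l + 1 - n))` (`nb_eq_choose`), for `n ≤ l`, written without division. -/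
theorem nb_ratio {n l : ℕ} (hn : 1 ≤ n) (hl : n ≤ l) :
    nb n (l + 1) * (2 * ((l : ℝ) + 1 - n)) = nb n l * l := by
  obtain ⟨a, rfl⟩ : ∃ a, n = a + 1 := ⟨n - 1, by omega⟩
  obtain ⟨b, rfl⟩ : ∃ b, l = b + 1 := ⟨l - 1, by omega⟩
  rw [nb_eq_choose hn (by omega), nb_eq_choose hn (by omega)]
  simp only [Nat.add_sub_cancel]
  have hab : a ≤ b := by omega
  have h' : (((b + 1).choose a : ℕ) : ℝ) * ((b : ℝ) + 1 - a) = ((b.choose a : ℕ) : ℝ) * ((b : ℝ) + 1) := by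
    have h1 := Nat.choose_mul_succ_eq b a
    have h2 : ((b.choose a * (b + 1) : ℕ) : ℝ) = (((b + 1).choose a * (b + 1 - a) : ℕ) : ℝ) := by
      exact_mod_cast h1
    rw [Nat.cast_mul, Nat.cast_mul, Nat.cast_sub (by omega : a ≤ b + 1)] at h2
    push_cast at h2
    linarith
  have e2 : (2 : ℝ) ^ (b + 1 + 1) = 2 ^ (b + 1) * 2 := pow_succ _ _
  rw [e2]
  push_cast
  have hp : (2 : ℝ) ^ (b + 1) ≠ 0 := by positivity
  field_simp
  linear_combination h'

/-- Increasing up to `2n - 1`. (`nb_ratio`; for `l < n` the left side is `0`.) -/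
theorem nb_incr {n l : ℕ} (hn : 1 ≤ n) (hl : l + 2 ≤ 2 * n) : nb n l ≤ nb n (l + 1) := by
  rcases lt_or_ge l n with h | h
  · rw [nb_eq_zero_x hn h]
    exact nb_nonneg _ _
  · have h1 := nb_ratio hn h
    have hl0 : (0 : ℝ) < l := by exact_mod_cast (by omega : 0 < l)
    have h2 : (l : ℝ) + 2 ≤ 2 * n := by exact_mod_cast hl
    have h3 : (2 * ((l : ℝ) + 1 - n)) ≤ l := by linarith
    have h4 : nb n l * l ≤ nb n (l + 1) * l := by
      rw [← h1]
      exact mul_le_mul_of_nonneg_left h3 (nb_nonneg _ _)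
    exact le_of_mul_le_mul_right h4 hl0

/-- Decreasing from `2n - 2` (for `l ≥ 1`; `nb 1 1 = 1/2 > nb 1 0 = 0`). -/
theorem nb_decr {n l : ℕ} (hn : 1 ≤ n) (hl : 2 * n ≤ l + 2) (hl1 : 1 ≤ l) :
    nb n (l + 1) ≤ nb n l := by
  have h : n ≤ l := by omega
  have h1 := nb_ratio hn h
  have hl0 : (0 : ℝ) < l := by exact_mod_cast (by omega : 0 < l)
  have h2 : 2 * (n : ℝ) ≤ l + 2 := by exact_mod_cast hl
  have h3 : (l : ℝ) ≤ (2 * ((l : ℝ) + 1 - n)) := by linarith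
  have h4 : nb n (l + 1) * l ≤ nb n l * l := by
    rw [← h1]
    exact mul_le_mul_of_nonneg_left h3 (nb_nonneg _ _)
  exact le_of_mul_le_mul_right h4 hl0

end Pool.Agent.Lib.MP_d0d59f_nt.ND

end

section

/-! Row nd-P3 (about 150 lines): lower bound near the centre. -/

namespace Pool.Agent.Lib.MP_d0d59f_nt.ND

open Finset AA

/-- `16^m ≤ 4 m choose (2m) m ^ 2`. -/
theorem p3_central (m : ℕ) : 16 ^ (m + 1) ≤ 4 * (m + 1) * (Nat.centralBinom (m + 1)) ^ 2 := by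
  induction m with
  | zero => norm_num [Nat.centralBinom]
  | succ m ih =>
    have h := Nat.succ_mul_centralBinom_succ (m + 1)
    obtain ⟨u, hu⟩ : ∃ u, u = Nat.centralBinom (m + 1) := ⟨_, rfl⟩
    obtain ⟨v, hv⟩ : ∃ v, v = Nat.centralBinom (m + 1 + 1) := ⟨_, rfl⟩
    rw [← hu] at h ih
    rw [← hv] at h ⊢
    clear hu hv
    have h2 : (m + 1 + 1) * ((m + 1 + 1) * v ^ 2) = (2 * (2 * (m + 1) + 1) * u) ^ 2 := by
      rw [← h]
      ring
    have h3 : (m + 1 + 1) * (4 * 16 ^ (m + 1)) ≤ (m + 1 + 1) * ((m + 1 + 1) * v ^ 2) := by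
      rw [h2]
      nlinarith [ih, Nat.zero_le (u ^ 2)]
    have h4 := Nat.le_of_mul_le_mul_left h3 (by omega)
    calc 16 ^ (m + 1 + 1) = 4 * (4 * 16 ^ (m + 1)) := by ring
      _ ≤ 4 * ((m + 1 + 1) * v ^ 2) := Nat.mul_le_mul_left 4 h4
      _ = 4 * (m + 1 + 1) * v ^ 2 := by ring

/-- the central value -/
theorem p3_mid {n : ℕ} (hn : 1 ≤ n) : 1 / (4 * Real.sqrt n) ≤ nb n (2 * n - 1) := by
  rw [nb_eq_choose hn (by omega)]
  obtain ⟨m, rfl⟩ : ∃ m, n = m + 1 := ⟨n - 1, by omega⟩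
  have e1 : 2 * (m + 1) - 1 - 1 = 2 * m := by omega
  have e2 : 2 * (m + 1) - 1 = 2 * m + 1 := by omega
  have e3 : m + 1 - 1 = m := by omega
  rw [e1, e2, e3, ← Nat.centralBinom_eq_two_mul_choose]
  have hs : 0 < Real.sqrt ((m + 1 : ℕ) : ℝ) := Real.sqrt_pos.2 (by positivity)
  rw [div_le_div_iff₀ (by positivity) (by positivity), one_mul]
  rcases Nat.eq_zero_or_pos m with h0 | h0
  · subst h0
    norm_num
  obtain ⟨k, rfl⟩ : ∃ k, m = k + 1 := ⟨m - 1, by omega⟩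
  have h := p3_central k
  have hR : (16 : ℝ) ^ (k + 1) ≤ 4 * (k + 1) * (Nat.centralBinom (k + 1) : ℝ) ^ 2 := by
    exact_mod_cast h
  have hsq : Real.sqrt ((k + 1 + 1 : ℕ) : ℝ) ^ 2 = (k : ℝ) + 1 + 1 := by
    rw [Real.sq_sqrt (by positivity)]
    push_cast
    ring
  refine (pow_le_pow_iff_left₀ (by positivity) (by positivity) two_ne_zero).1 ?_
  have e4 : ((Nat.centralBinom (k + 1) : ℝ) * (4 * Real.sqrt ((k + 1 + 1 : ℕ) : ℝ))) ^ 2 =
      (Nat.centralBinom (k + 1) : ℝ) ^ 2 * 16 * ((k : ℝ) + 1 + 1) := by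
    rw [mul_pow, mul_pow, hsq]
    ring
  have e5 : ((2 : ℝ) ^ (2 * (k + 1) + 1)) ^ 2 = 4 * 16 ^ (k + 1) := by
    have e6 : (16 : ℝ) ^ (k + 1) = (2 : ℝ) ^ (4 * (k + 1)) := by
      rw [pow_mul]
      norm_num
    rw [e6]
    ring
  rw [e4, e5]
  nlinarith [hR, sq_nonneg (Nat.centralBinom (k + 1) : ℝ)]

/-- upper side -/
theorem p3_up {n : ℕ} (hn : 1 ≤ n) (i : ℕ) :
    nb n (2 * n - 1) * (1 - (i : ℝ) * (i + 1) / (4 * n)) ≤ nb n (2 * n - 1 + i) := by
  have hn0 : (0 : ℝ) < n := by exact_mod_cast hn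
  have hp := nb_nonneg n (2 * n - 1)
  induction i with
  | zero => simp
  | succ i ih =>
    rcases le_or_gt (4 * (n : ℝ)) (((i : ℝ) + 1) * (i + 2)) with h | h
    · refine le_trans ?_ (nb_nonneg n _)
      refine mul_nonpos_of_nonneg_of_nonpos hp ?_
      rw [sub_nonpos, le_div_iff₀ (by positivity)]
      push_cast
      nlinarith
    · have hr := nb_ratio hn (show n ≤ 2 * n - 1 + i by omega)
      have e1 : ((2 * n - 1 + i : ℕ) : ℝ) = 2 * n - 1 + i := by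
        push_cast [Nat.cast_sub (show 1 ≤ 2 * n by omega)]
        ring
      rw [e1] at hr
      have hi0 : (0 : ℝ) ≤ i := Nat.cast_nonneg i
      have h2 : 2 * (2 * (n : ℝ) - 1 + i + 1 - n) = 2 * (n + i) := by ring
      rw [h2] at hr
      have h3 : (0 : ℝ) < 2 * (n + i) := by positivity
      have h4 : nb n (2 * n - 1 + i + 1) = nb n (2 * n - 1 + i) * (2 * n - 1 + i) / (2 * (n + i)) := by
        rw [eq_div_iff h3.ne']
        exact hr
      rw [← add_assoc, h4]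
      have h5 : (1 : ℝ) - (i + 1) / (2 * n) ≤ (2 * n - 1 + i) / (2 * (n + i)) := by
        rw [le_div_iff₀ h3]
        have h6 : (1 - ((i : ℝ) + 1) / (2 * n)) * (2 * (n + i)) =
            2 * (n + i) - (i + 1) - (i + 1) * i / n := by
          field_simp
          ring
        rw [h6]
        have : 0 ≤ ((i : ℝ) + 1) * i / n := by positivity
        linarith
      have h7 : 0 ≤ 1 - ((i : ℝ) + 1) / (2 * n) := by
        rw [sub_nonneg, div_le_one (by positivity)]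
        nlinarith
      have h8 : nb n (2 * n - 1) * (1 - ((i + 1 : ℕ) : ℝ) * ((i + 1 : ℕ) + 1) / (4 * n)) ≤
          nb n (2 * n - 1) * (1 - (i : ℝ) * (i + 1) / (4 * n)) * (1 - ((i : ℝ) + 1) / (2 * n)) := by
        rw [mul_assoc]
        refine mul_le_mul_of_nonneg_left ?_ hp
        have h9 : (1 - (i : ℝ) * (i + 1) / (4 * n)) * (1 - ((i : ℝ) + 1) / (2 * n)) =
            1 - ((i + 1 : ℕ) : ℝ) * ((i + 1 : ℕ) + 1) / (4 * n) +
              ((i : ℝ) * (i + 1) / (4 * n)) * (((i : ℝ) + 1) / (2 * n)) := by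
          push_cast
          field_simp
          ring
        rw [h9]
        have : 0 ≤ ((i : ℝ) * (i + 1) / (4 * n)) * (((i : ℝ) + 1) / (2 * n)) := by positivity
        linarith
      refine h8.trans ?_
      refine (mul_le_mul ih h5 h7 (nb_nonneg n _)).trans (le_of_eq ?_)
      ring

/-- lower side -/
theorem p3_down {n : ℕ} (hn : 1 ≤ n) (i : ℕ) (hi : i + 1 ≤ n) :
    nb n (2 * n - 1) * (1 - (i : ℝ) * (i + 1) / (2 * n)) ≤ nb n (2 * n - 1 - i) := by
  have hn0 : (0 : ℝ) < n := by exact_mod_cast hn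
  have hp := nb_nonneg n (2 * n - 1)
  induction i with
  | zero => simp
  | succ i ih =>
    have ih := ih (by omega)
    rcases le_or_gt (2 * (n : ℝ)) (((i : ℝ) + 1) * (i + 2)) with h | h
    · refine le_trans ?_ (nb_nonneg n _)
      refine mul_nonpos_of_nonneg_of_nonpos hp ?_
      rw [sub_nonpos, le_div_iff₀ (by positivity)]
      push_cast
      nlinarith
    · obtain ⟨j, hj⟩ : ∃ j, n = i + 2 + j := ⟨n - (i + 2), by omega⟩
      have el : 2 * n - 1 - (i + 1) = i + 2 + 2 * j := by omega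
      have el2 : 2 * n - 1 - i = i + 2 + 2 * j + 1 := by omega
      have hr := nb_ratio hn (show n ≤ i + 2 + 2 * j by omega)
      rw [el2] at ih
      rw [el]
      have hjR : (n : ℝ) = i + 2 + j := by
        rw [hj]
        push_cast
        ring
      have hi0 : (0 : ℝ) ≤ i := Nat.cast_nonneg i
      have hj0 : (0 : ℝ) ≤ j := Nat.cast_nonneg j
      have e1 : ((i + 2 + 2 * j : ℕ) : ℝ) = i + 2 + 2 * j := by push_cast; ring
      rw [e1] at hr
      have h2 : 2 * ((i : ℝ) + 2 + 2 * j + 1 - n) = 2 * (j + 1) := by rw [hjR]; ring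
      rw [h2] at hr
      have h3 : (0 : ℝ) < i + 2 + 2 * j := by positivity
      have h4 : nb n (i + 2 + 2 * j) = nb n (i + 2 + 2 * j + 1) * (2 * (j + 1)) / (i + 2 + 2 * j) := by
        rw [eq_div_iff h3.ne']
        exact hr.symm
      rw [h4]
      have h5 : (1 : ℝ) - (i + 1) / n ≤ (2 * (j + 1)) / (i + 2 + 2 * j) := by
        rw [le_div_iff₀ h3]
        have h6 : (1 - ((i : ℝ) + 1) / n) * (i + 2 + 2 * j) =
            (i + 2 + 2 * j) - (i + 1) * ((i + 2 + 2 * j) / n) := by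
          field_simp
        rw [h6]
        have h61 : (1 : ℝ) ≤ (i + 2 + 2 * j) / n := by
          rw [le_div_iff₀ hn0, hjR]
          linarith
        nlinarith
      have h7 : 0 ≤ 1 - ((i : ℝ) + 1) / n := by
        rw [sub_nonneg, div_le_one (by positivity), hjR]
        linarith
      have h8 : nb n (2 * n - 1) * (1 - ((i + 1 : ℕ) : ℝ) * ((i + 1 : ℕ) + 1) / (2 * n)) ≤
          nb n (2 * n - 1) * (1 - (i : ℝ) * (i + 1) / (2 * n)) * (1 - ((i : ℝ) + 1) / n) := by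
        rw [mul_assoc]
        refine mul_le_mul_of_nonneg_left ?_ hp
        have h9 : (1 - (i : ℝ) * (i + 1) / (2 * n)) * (1 - ((i : ℝ) + 1) / n) =
            1 - ((i + 1 : ℕ) : ℝ) * ((i + 1 : ℕ) + 1) / (2 * n) +
              ((i : ℝ) * (i + 1) / (2 * n)) * (((i : ℝ) + 1) / n) := by
          push_cast
          field_simp
          ring
        rw [h9]
        have : 0 ≤ ((i : ℝ) * (i + 1) / (2 * n)) * (((i : ℝ) + 1) / n) := by positivity
        linarith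
      refine h8.trans ?_
      refine (mul_le_mul ih h5 h7 (nb_nonneg n _)).trans (le_of_eq ?_)
      ring

/-- PROOF. `n = 1` is direct (`l = 2`). Let `p = nb n (2n - 1)` be the maximum (`nb_incr`, `nb_decr`). (1) `p ≥ 1/(20 √n)`:
the mass of `{l : |l - 2n| ≤ 4 √n}` is at least `1/2`: by `AA.one_sub_sum_nb_le` (upper tail, `x = 1 + 1/(2√n)`) and `AA.a5_low` (lower tail,
`x = 1 - 1/(2√n)`), as in `AA.tail_bound`: each tail is at most `((1 - 1/(4n))⁻¹)^n (1 + 1/(2√n))^(-4√n) ≤ 1/4`;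
another way: the variance of `nb n` is `2n` (Chebyshev): `∑ l nb n l = 2n`, `∑ l^2 nb n l = 4n^2 + 2n` by induction. There are at most
`8 √n + 1` integers in this set. (2) For `i ≤ √n/3 + 1`:
`nb n (2n-1+i) = p ∏_{u<i} (2n-1+u)/(2(n+u)) = p ∏ (1 - (u+1)/(2(n+u))) ≥ p (1 - i(i+1)/(4n)) ≥ p/2`, similarly
`nb n (2n-1-i) = p ∏_{1≤u≤i} 2(n-u)/(2n-1-u) ≥ p/2` (`nb_ratio`, induction on `i`). Any constant `c > 0` in the place of `1/100` is good:
state `∃ c > 0`. -/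
theorem nb_low : ∃ c : ℝ, 0 < c ∧ ∀ (n l : ℕ), 1 ≤ n → |(l : ℝ) - 2 * n| ≤ Real.sqrt n / 3 →
    c / Real.sqrt n ≤ nb n l := by
  refine ⟨1 / 8, by norm_num, ?_⟩
  intro n l hn hl
  have hn0 : (0 : ℝ) < n := by exact_mod_cast hn
  obtain ⟨s, hs⟩ : ∃ s, s = Real.sqrt n := ⟨_, rfl⟩
  have hmid := p3_mid hn
  rw [← hs] at hl hmid ⊢
  have hs0 : 0 < s := hs ▸ Real.sqrt_pos.2 hn0
  have hss : s ^ 2 = n := by rw [hs, Real.sq_sqrt hn0.le]
  have hs1 : 1 ≤ s := by
    have : (1 : ℝ) ≤ n := by exact_mod_cast hn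
    nlinarith
  clear hs
  rw [abs_le] at hl
  have hp := nb_nonneg n (2 * n - 1)
  have hhalf : (1 / 8) / s ≤ nb n (2 * n - 1) * (1 / 2) := by
    calc (1 / 8) / s = 1 / (4 * s) * (1 / 2) := by field_simp; norm_num
      _ ≤ _ := mul_le_mul_of_nonneg_right hmid (by norm_num)
  refine hhalf.trans ?_
  rcases le_or_gt (2 * n) l with h | h
  · obtain ⟨i, hi⟩ : ∃ i, l = 2 * n - 1 + i := ⟨l - (2 * n - 1), by omega⟩
    have hiR : (l : ℝ) = 2 * n - 1 + i := by
      rw [hi]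
      push_cast [Nat.cast_sub (show 1 ≤ 2 * n by omega)]
      ring
    rw [hi]
    refine le_trans (mul_le_mul_of_nonneg_left ?_ hp) (p3_up hn i)
    have hi1 : (i : ℝ) - 1 ≤ s / 3 := by linarith [hl.2]
    have key : (i : ℝ) * (i + 1) ≤ 2 * n := by
      rcases lt_or_ge s 3 with h3 | h3
      · have : i < 2 := by
          have : (i : ℝ) < 2 := by linarith
          exact_mod_cast this
        have hii : (i : ℝ) ≤ 1 := by
          have : i ≤ 1 := by omega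
          exact_mod_cast this
        have hi0 : (0 : ℝ) ≤ i := Nat.cast_nonneg i
        have : (1 : ℝ) ≤ n := by exact_mod_cast hn
        nlinarith
      · have hi0 : (0 : ℝ) ≤ i := Nat.cast_nonneg i
        nlinarith
    rw [le_sub_comm, div_le_iff₀ (by positivity)]
    linarith
  · obtain ⟨i, hi⟩ : ∃ i, i = 2 * n - 1 - l := ⟨_, rfl⟩
    have hil : l = 2 * n - 1 - i := by omega
    have hiR : (i : ℝ) = 2 * n - 1 - l := by
      have : i + l + 1 = 2 * n := by omega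
      have : (i : ℝ) + l + 1 = 2 * n := by exact_mod_cast this
      linarith
    have hi1 : (i : ℝ) + 1 ≤ s / 3 := by linarith [hl.1]
    have hi0 : (0 : ℝ) ≤ i := Nat.cast_nonneg i
    have hin : i + 1 ≤ n := by
      have : (i : ℝ) + 1 ≤ n := by nlinarith
      exact_mod_cast this
    rw [hil]
    refine le_trans (mul_le_mul_of_nonneg_left ?_ hp) (p3_down hn i hin)
    rw [le_sub_comm, div_le_iff₀ (by positivity)]
    nlinarith

end Pool.Agent.Lib.MP_d0d59f_nt.ND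

end
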