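import Mathlib

namespace Pool.Agent.Lib.MP_d0d59f_nt.AA
end Pool.Agent.Lib.MP_d0d59f_nt.AA

/-! Total variation distance of an invariant set to the uniform distribution modulo `q`. -/

namespace Pool.Agent.Lib.MP_d0d59f_nt.ND

open Finset AA Filter Topology

/-- The part of `S` in a residue class. -/
def cl (S : Set ℤ) (q : ℕ) (r : ℤ) : Set ℤ := {x | x ∈ S ∧ x ≡ r [ZMOD q]}

section
variable {q : ℕ} [NeZero q]

/-- Number of elements of `A` in the residue class `z`. -/
def nz (A : Finset ℤ) (z : ZMod q) : ℕ := (A.filter (fun x : ℤ => (x : ZMod q) = z)).card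

theorem nz_sum (A : Finset ℤ) : ∑ z : ZMod q, nz A z = A.card := by
  unfold nz
  rw [← Finset.card_eq_sum_card_fiberwise (f := fun x : ℤ => (x : ZMod q)) (t := Finset.univ)]
  intro x _
  simp

theorem nz_sum_add (A : Finset ℤ) (g : ZMod q) : ∑ z : ZMod q, nz A (z + g) = A.card := by
  rw [← nz_sum (q := q) A]
  exact Equiv.sum_comp (Equiv.addRight g) (fun z => nz A z)

theorem nz_diff (A B : Finset ℤ) (z : ZMod q) :
    |(nz A z : ℝ) - nz B z| ≤ nz (symmDiff A B) z := by
  have h1 : ∀ A B : Finset ℤ, nz A z ≤ nz B z + nz (symmDiff A B) z := by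
    intro A B
    unfold nz
    refine (Finset.card_le_card ?_).trans (Finset.card_union_le _ _)
    intro x hx
    rw [Finset.mem_filter] at hx
    rw [Finset.mem_union, Finset.mem_filter, Finset.mem_filter, Finset.mem_symmDiff]
    by_cases h : x ∈ B
    · exact Or.inl ⟨h, hx.2⟩
    · exact Or.inr ⟨Or.inl ⟨hx.1, h⟩, hx.2⟩
  have h2 := h1 A B
  have h3 := h1 B A
  rw [symmDiff_comm B A] at h3
  have h2' : (nz A z : ℝ) ≤ nz B z + nz (symmDiff A B) z := by exact_mod_cast h2
  have h3' : (nz B z : ℝ) ≤ nz A z + nz (symmDiff A B) z := by exact_mod_cast h3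
  rw [abs_le]
  constructor <;> linarith

theorem nz_shift (B : Finset ℤ) (g : ℤ) (z : ZMod q) :
    nz (B.image (fun x => x + g)) (z + (g : ZMod q)) = nz B z := by
  unfold nz
  rw [Finset.filter_image, Finset.card_image_of_injective _ (add_left_injective g)]
  congr 1
  ext x
  simp

/-- Sum over the residue classes of the effect of a shift. -/
theorem nz_shift_sum (A B : Finset ℤ) (g : ℤ) :
    ∑ z : ZMod q, |(nz A z : ℝ) - nz A (z + (g : ZMod q))| ≤
      (symmDiff A B).card + (symmDiff (B.image (fun x => x + g)) A).card := by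
  have h1 : ∀ z : ZMod q, |(nz A z : ℝ) - nz A (z + (g : ZMod q))| ≤
      nz (symmDiff A B) z + nz (symmDiff (B.image (fun x => x + g)) A) (z + (g : ZMod q)) := by
    intro z
    have e1 := nz_diff A B z
    have e2 := nz_diff (B.image (fun x => x + g)) A (z + (g : ZMod q))
    rw [nz_shift] at e2
    calc |(nz A z : ℝ) - nz A (z + (g : ZMod q))| =
        |((nz A z : ℝ) - nz B z) + ((nz B z : ℝ) - nz A (z + (g : ZMod q)))| := by congr 1; ring
      _ ≤ _ := (abs_add_le _ _).trans (add_le_add e1 e2)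
  refine (Finset.sum_le_sum fun z _ => h1 z).trans (le_of_eq ?_)
  rw [Finset.sum_add_distrib]
  congr 1
  · exact_mod_cast nz_sum (q := q) (symmDiff A B)
  · exact_mod_cast nz_sum_add (q := q) (symmDiff (B.image (fun x => x + g)) A) (g : ZMod q)

/-- Averaging over the shifts by multiples of `d`. -/
theorem nz_tv (A : Finset ℤ) {d : ℤ} (hqd : IsCoprime (q : ℤ) d) (K : ℕ → ℝ)
    (hK : ∀ h : ℕ, h < q → ∑ z : ZMod q, |(nz A z : ℝ) - nz A (z + ((d * h : ℤ) : ZMod q))| ≤ K h) :
    ∑ z : ZMod q, |(nz A z : ℝ) - (A.card : ℝ) / q| ≤ (∑ h ∈ range q, K h) / q := by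
  have hq : 0 < q := Nat.pos_of_ne_zero (NeZero.ne q)
  have hqR : (0 : ℝ) < q := by exact_mod_cast hq
  -- the bijection `h ↦ z + d h`
  have hunit : IsUnit ((d : ℤ) : ZMod q) := by
    obtain ⟨u, v, huv⟩ := hqd
    have h1 : ((u * q + v * d : ℤ) : ZMod q) = 1 := by rw [huv]; simp
    push_cast at h1
    rw [ZMod.natCast_self, mul_zero, zero_add] at h1
    exact IsUnit.of_mul_eq_one _ (by rw [mul_comm]; exact h1)
  obtain ⟨w, hw⟩ := hunit
  have hbij : ∀ z : ZMod q, ∑ y : ZMod q, (nz A (z + (d : ZMod q) * y) : ℝ) = A.card := by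
    intro z
    have e1 : ∑ y : ZMod q, (nz A (z + (d : ZMod q) * y) : ℝ) = ∑ y : ZMod q, (nz A y : ℝ) := by
      have := Equiv.sum_comp ((Units.mulLeft w).trans (Equiv.addLeft z)) (fun y : ZMod q => (nz A y : ℝ))
      rw [← this]
      refine Finset.sum_congr rfl fun y _ => ?_
      simp [hw]
    rw [e1]
    exact_mod_cast nz_sum (q := q) A
  have hsum : ∀ z : ZMod q, |(nz A z : ℝ) - (A.card : ℝ) / q| ≤
      (∑ y : ZMod q, |(nz A z : ℝ) - nz A (z + (d : ZMod q) * y)|) / q := by
    intro z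
    rw [le_div_iff₀ hqR]
    have e1 : |(nz A z : ℝ) - (A.card : ℝ) / q| * q =
        |∑ y : ZMod q, ((nz A z : ℝ) - nz A (z + (d : ZMod q) * y))| := by
      rw [Finset.sum_sub_distrib, hbij z, Finset.sum_const, Finset.card_univ, ZMod.card,
        nsmul_eq_mul]
      have : (q : ℝ) * nz A z - A.card = ((nz A z : ℝ) - (A.card : ℝ) / q) * q := by
        field_simp
      rw [this, abs_mul, abs_of_pos hqR]
    rw [e1]
    exact Finset.abs_sum_le_sum_abs _ _
  refine (Finset.sum_le_sum fun z _ => hsum z).trans ?_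
  rw [← Finset.sum_div]
  refine div_le_div_of_nonneg_right ?_ hqR.le
  rw [Finset.sum_comm]
  have hval : ∑ y : ZMod q, ∑ z : ZMod q, |(nz A z : ℝ) - nz A (z + (d : ZMod q) * y)| ≤
      ∑ y : ZMod q, K y.val := by
    refine Finset.sum_le_sum fun y _ => ?_
    have := hK y.val (ZMod.val_lt y)
    refine le_trans (le_of_eq ?_) this
    refine Finset.sum_congr rfl fun z _ => ?_
    push_cast
    rw [ZMod.natCast_zmod_val]
  refine hval.trans (le_of_eq ?_)
  obtain ⟨k, rfl⟩ : ∃ k, q = k + 1 := ⟨q - 1, by omega⟩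
  exact Fin.sum_univ_eq_sum_range K (k + 1)

end

end Pool.Agent.Lib.MP_d0d59f_nt.ND
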