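import Mathlib
import Pool.Agent.Lib.MP_d0d59f_nt.ND.F0
import Pool.Agent.Lib.MP_d0d59f_nt.NK.K008
import Pool.Agent.Lib.MP_d0d59f_nt.NK.K014
import Pool.Agent.Lib.MP_d0d59f_nt.NK.K018
import Pool.Agent.Lib.MP_d0d59f_nt.NK.K019

namespace Pool.Agent.Lib.MP_d0d59f_nt.AA
end Pool.Agent.Lib.MP_d0d59f_nt.AA

section

/-! Row B2 (about 200 lines): the exceptional integers. -/

namespace Pool.Agent.Lib.MP_d0d59f_nt.AA

open Finset

/-- For `e ∈ comps n l` the odd `N ≡ r mod 3^m` having a path coded by `e` contain (in fact are) a residue class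
modulo `2^{l+1} 3^m`: choose `N₀` with `N₀ ≡ r mod 3^m` and `3^n N₀ + d cc e ≡ 2^l mod 2^{l+1}` (`3^n` is
invertible modulo `2^{l+1}`, Chinese remainder theorem); for `N ≡ N₀` modulo `2^{l+1} 3^m`,
`3^n N + d cc e = 2^l M` with `M` odd, so `isPath d e N M` by `isPath_of_identity`. -/
theorem class_of_comp {d : ℤ} (hd : Odd d) {n l : ℕ} {e : List ℕ} (he : e ∈ comps n l)
    (m : ℕ) (r : ℤ) : ∃ N₀ : ℤ, ∀ N : ℤ, N ≡ N₀ [ZMOD ((2 ^ (l + 1) * 3 ^ m : ℕ) : ℤ)] →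
      N ≡ r [ZMOD 3 ^ m] ∧ ∃ M, isPath d e N M := by
  obtain ⟨hlen, hsum, hpos⟩ := mem_comps.1 he
  have hc1 : IsCoprime ((3 : ℤ) ^ n) (2 ^ (l + 1)) :=
    (IsCoprime.pow (by norm_num : IsCoprime (3 : ℤ) 2))
  have hc2 : IsCoprime ((2 : ℤ) ^ (l + 1)) (3 ^ m) :=
    (IsCoprime.pow (by norm_num : IsCoprime (2 : ℤ) 3))
  obtain ⟨u, v, huv⟩ := hc1
  obtain ⟨a, b, hab⟩ := hc2
  set c : ℤ := (cc e : ℤ) with hc
  set N₁ : ℤ := u * (2 ^ l - d * c) with hN₁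
  refine ⟨N₁ * (b * 3 ^ m) + r * (a * 2 ^ (l + 1)), fun N hN => ?_⟩
  have hN' : ((2 ^ (l + 1) * 3 ^ m : ℕ) : ℤ) ∣ N - (N₁ * (b * 3 ^ m) + r * (a * 2 ^ (l + 1))) :=
    (Int.modEq_iff_dvd.1 hN.symm)
  obtain ⟨t, ht⟩ := hN'
  push_cast at ht
  have hNeq : N = N₁ * (b * 3 ^ m) + r * (a * 2 ^ (l + 1)) + 2 ^ (l + 1) * 3 ^ m * t := by
    linarith
  constructor
  · refine (Int.modEq_iff_dvd.2 ⟨(N₁ * b - r * b) + 2 ^ (l + 1) * t, ?_⟩).symm
    have h1 : a * 2 ^ (l + 1) = 1 - b * 3 ^ m := by linarith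
    rw [hNeq, h1]
    ring
  · refine ⟨1 + 2 * (3 ^ n * ((r * a - a * N₁) + 3 ^ m * t) - v * (2 ^ l - d * c)), ?_⟩
    refine isPath_of_identity hd hpos ?_ ?_
    · exact ⟨3 ^ n * ((r * a - a * N₁) + 3 ^ m * t) - v * (2 ^ l - d * c), by ring⟩
    · rw [hlen, hsum, hNeq]
      have h1 : b * 3 ^ m = 1 - a * 2 ^ (l + 1) := by linarith
      have h2 : u * 3 ^ n = 1 - v * 2 ^ (l + 1) := by linarith
      rw [h1]
      have h3 : (3 : ℤ) ^ n * N₁ = (1 - v * 2 ^ (l + 1)) * (2 ^ l - d * c) := by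
        rw [hN₁, ← h2]; ring
      have h4 : (3 : ℤ) ^ n * (N₁ * (1 - a * 2 ^ (l + 1)) + r * (a * 2 ^ (l + 1))
          + 2 ^ (l + 1) * 3 ^ m * t) + d * c =
          3 ^ n * N₁ + d * c + 2 ^ (l + 1) * (3 ^ n * ((r * a - a * N₁) + 3 ^ m * t)) := by
        ring
      rw [h4, h3]
      ring

open Classical in
/-- The lower bound for the number of integers of the window with the path `e`. -/
theorem b2_path_count {d : ℤ} (hd : Odd d) {n l : ℕ} {e : List ℕ} (he : e ∈ comps n l)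
    (m : ℕ) (r : ℤ) (y : ℝ) (hy : 0 < y) :
    y / (2 * 3 ^ m) * (1 / 2) ^ l - 1 ≤
      ((((itv y (2 * y)).filter fun N => Odd N ∧ N ≡ r [ZMOD 3 ^ m]).filter
        fun N => ∃ M, isPath d e N M).card : ℝ) := by
  obtain ⟨N₀, hN₀⟩ := class_of_comp hd he m r
  have hq : 0 < 2 ^ (l + 1) * 3 ^ m := by positivity
  have h1 := le_card_class y (2 * y) (by linarith) (2 ^ (l + 1) * 3 ^ m) hq N₀
  have h2 : (2 * y - y) / ((2 ^ (l + 1) * 3 ^ m : ℕ) : ℝ) = y / (2 * 3 ^ m) * (1 / 2) ^ l := by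
    push_cast
    rw [pow_succ, one_div, inv_pow]
    field_simp
    ring
  rw [h2] at h1
  refine h1.trans ?_
  refine Nat.cast_le.2 (Finset.card_le_card ?_)
  intro N hN
  rw [Finset.mem_filter] at hN
  obtain ⟨hN1, hN2⟩ := hN
  obtain ⟨h3, M, hM⟩ := hN₀ N hN2
  rw [Finset.mem_filter, Finset.mem_filter]
  exact ⟨⟨hN1, isPath_odd_left hM, h3⟩, M, hM⟩

/-- The set of odd `N ∈ [y,2y)`, `N ≡ r mod 3^m`, has at most `y/(2·3^m) + 1` elements (`card_odd_class_le`).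
It contains the exceptional set and, for every `l ∈ [l1, L]` and `e ∈ comps n l`, the (pairwise disjoint by
`isPath_unique`, and disjoint from the exceptional set) residue classes of `class_of_comp`, each with at least
`y/(2^{l+1} 3^m) - 1` elements in `[y, 2y)` (`le_card_class`). So the exceptional set has at most
`y/(2·3^m) + 1 - ∑_l card(comps n l) (y/(2^{l+1}3^m) - 1) = y/(2·3^m)(1 - ∑ nb n l) + 1 + ∑_l card (comps n l)`
elements, and `∑_{l ≤ L} card (comps n l) ≤ 2^L` (`sum_card_comps_le`), `1 + 2^L ≤ 2^{L+1}`. -/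
theorem exc_count {d : ℤ} (hd : Odd d) (n l1 L m : ℕ) (r : ℤ) (y : ℝ) (hy : 0 < y) :
    (Set.ncard {N : ℤ | N ∈ itv y (2 * y) ∧ Odd N ∧ N ≡ r [ZMOD 3 ^ m] ∧
        ¬ ∃ (e : List ℕ) (M : ℤ), e.length = n ∧ l1 ≤ e.sum ∧ e.sum ≤ L ∧ isPath d e N M} : ℝ) ≤
      y / (2 * 3 ^ m) * (1 - ∑ l ∈ Icc l1 L, nb n l) + 2 ^ (L + 1) := by
  classical
  set S : Finset ℤ := (itv y (2 * y)).filter fun N => Odd N ∧ N ≡ r [ZMOD 3 ^ m] with hS
  set Q : ℤ → Prop := fun N => ∃ (e : List ℕ) (M : ℤ), e.length = n ∧ l1 ≤ e.sum ∧ e.sum ≤ L ∧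
    isPath d e N M with hQ
  have hset : {N : ℤ | N ∈ itv y (2 * y) ∧ Odd N ∧ N ≡ r [ZMOD 3 ^ m] ∧
        ¬ ∃ (e : List ℕ) (M : ℤ), e.length = n ∧ l1 ≤ e.sum ∧ e.sum ≤ L ∧ isPath d e N M} =
      ((S.filter fun N => ¬ Q N : Finset ℤ) : Set ℤ) := by
    ext N
    simp only [Set.mem_ofPred_eq, Finset.coe_filter, hS, hQ, Finset.mem_filter, and_assoc]
  rw [hset, Set.ncard_coe_finset]
  have hsplit := Finset.card_filter_add_card_filter_not (s := S) Q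
  have hSle : (S.card : ℝ) ≤ y / (2 * 3 ^ m) + 1 := by
    have := card_odd_class_le y (2 * y) (by linarith) m r
    have h2 : (2 * y - y) = y := by ring
    rw [h2] at this
    exact this
  -- the union of the path classes
  set I : Finset (Σ _ : ℕ, List ℕ) := (Icc l1 L).sigma fun l => comps n l with hI
  have hdisj : (I : Set (Σ _ : ℕ, List ℕ)).PairwiseDisjoint
      fun p => S.filter fun N => ∃ M, isPath d p.2 N M := by
    intro p hp q hq hpq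
    rw [Function.onFun, Finset.disjoint_left]
    intro N hN1 hN2
    rw [Finset.mem_filter] at hN1 hN2
    obtain ⟨_, M1, h1⟩ := hN1
    obtain ⟨_, M2, h2⟩ := hN2
    rw [Finset.mem_coe, hI, Finset.mem_sigma] at hp hq
    obtain ⟨hpl, hps, _⟩ := mem_comps.1 hp.2
    obtain ⟨hql, hqs, _⟩ := mem_comps.1 hq.2
    have h3 := (isPath_unique h1 h2 (by rw [hpl, hql])).1
    apply hpq
    obtain ⟨p1, p2⟩ := p
    obtain ⟨q1, q2⟩ := q
    simp only at h3 hps hqs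
    subst h3
    rw [← hps, ← hqs]
  have hsub : (I.biUnion fun p => S.filter fun N => ∃ M, isPath d p.2 N M) ⊆ S.filter Q := by
    intro N hN
    rw [Finset.mem_biUnion] at hN
    obtain ⟨p, hp, hN⟩ := hN
    rw [Finset.mem_filter] at hN
    obtain ⟨hNS, M, hM⟩ := hN
    rw [hI, Finset.mem_sigma, Finset.mem_Icc] at hp
    obtain ⟨hpl, hps, _⟩ := mem_comps.1 hp.2
    rw [Finset.mem_filter]
    refine ⟨hNS, p.2, M, hpl, ?_, ?_, hM⟩
    · rw [hps]; exact hp.1.1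
    · rw [hps]; exact hp.1.2
  have hcard : ∑ l ∈ Icc l1 L, ∑ e ∈ comps n l, (y / (2 * 3 ^ m) * (1 / 2) ^ l - 1) ≤
      ((S.filter Q).card : ℝ) := by
    have h1 : ((I.biUnion fun p => S.filter fun N => ∃ M, isPath d p.2 N M).card : ℝ) ≤
        ((S.filter Q).card : ℝ) := Nat.cast_le.2 (Finset.card_le_card hsub)
    rw [Finset.card_biUnion hdisj, hI, Finset.sum_sigma] at h1
    push_cast at h1
    refine le_trans ?_ h1
    refine Finset.sum_le_sum fun l _ => Finset.sum_le_sum fun e he => ?_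
    exact b2_path_count hd he m r y hy
  have hsum : ∑ l ∈ Icc l1 L, ∑ e ∈ comps n l, (y / (2 * 3 ^ m) * (1 / 2) ^ l - 1) =
      y / (2 * 3 ^ m) * (∑ l ∈ Icc l1 L, nb n l) - ∑ l ∈ Icc l1 L, ((comps n l).card : ℝ) := by
    rw [Finset.mul_sum, ← Finset.sum_sub_distrib]
    refine Finset.sum_congr rfl fun l _ => ?_
    rw [Finset.sum_const, nsmul_eq_mul, nb]
    ring
  have hcomps : ∑ l ∈ Icc l1 L, ((comps n l).card : ℝ) ≤ 2 ^ L := by
    have h1 := sum_card_comps_le n L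
    have h2 : ∑ l ∈ Icc l1 L, (comps n l).card ≤ ∑ l ∈ range (L + 1), (comps n l).card := by
      refine Finset.sum_le_sum_of_subset ?_
      intro l hl
      rw [Finset.mem_Icc] at hl
      rw [Finset.mem_range]
      omega
    have h3 : ((∑ l ∈ Icc l1 L, (comps n l).card : ℕ) : ℝ) ≤ ((2 ^ L : ℕ) : ℝ) :=
      Nat.cast_le.2 (h2.trans h1)
    push_cast at h3
    exact h3
  have hsplit' : ((S.filter Q).card : ℝ) + ((S.filter fun N => ¬ Q N).card : ℝ) = (S.card : ℝ) := by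
    exact_mod_cast hsplit
  have hpow : (1 : ℝ) + 2 ^ L ≤ 2 ^ (L + 1) := by
    have : (1 : ℝ) ≤ 2 ^ L := one_le_pow₀ (by norm_num)
    rw [pow_succ]
    linarith
  rw [hsum] at hcard
  have hexp : y / (2 * 3 ^ m) * (1 - ∑ l ∈ Icc l1 L, nb n l) =
      y / (2 * 3 ^ m) - y / (2 * 3 ^ m) * (∑ l ∈ Icc l1 L, nb n l) := by ring
  rw [hexp]
  linarith

end Pool.Agent.Lib.MP_d0d59f_nt.AA

end

section

/-! Row B6 (about 250 lines): the base of the recursion. -/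

namespace Pool.Agent.Lib.MP_d0d59f_nt.AA

open Finset

/-- the end point of a path with `n = 10 k`, `l ≥ 19 k` -/
theorem b6_end {d : ℤ} {k : ℕ} {e : List ℕ} {N M : ℤ} {z : ℝ} (hz : 0 < z)
    (hN1 : z ≤ (N : ℝ)) (hN2 : (N : ℝ) < 2 * z) (hl : e.length = 10 * k) (hs : 19 * k ≤ e.sum)
    (h : isPath d e N M) :
    |(M : ℝ)| ≤ 2 * z * (3 ^ 10 / 2 ^ 19 : ℝ) ^ k + |(d : ℝ)| * (3 / 2 : ℝ) ^ (10 * k) := by
  have hid := isPath_identity h
  have hid' : (2 : ℝ) ^ e.sum * (M : ℝ) = 3 ^ (10 * k) * (N : ℝ) + (d : ℝ) * (cc e : ℝ) := by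
    rw [← hl]
    exact_mod_cast hid
  have hcc := cc_le (isPath_pos h)
  rw [hl] at hcc
  have h2 : (0 : ℝ) < 2 ^ e.sum := by positivity
  have hN : |(N : ℝ)| ≤ 2 * z := by
    rw [abs_of_pos (by linarith)]
    exact hN2.le
  have hcc0 : (0 : ℝ) ≤ (cc e : ℝ) := Nat.cast_nonneg _
  have h3 : (2 : ℝ) ^ e.sum * |(M : ℝ)| ≤ 3 ^ (10 * k) * (2 * z)
      + |(d : ℝ)| * (2 ^ e.sum * (3 / 2 : ℝ) ^ (10 * k)) := by
    calc (2 : ℝ) ^ e.sum * |(M : ℝ)| = |(2 : ℝ) ^ e.sum * (M : ℝ)| := by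
          rw [abs_mul, abs_of_pos h2]
      _ = |3 ^ (10 * k) * (N : ℝ) + (d : ℝ) * (cc e : ℝ)| := by rw [hid']
      _ ≤ |3 ^ (10 * k) * (N : ℝ)| + |(d : ℝ) * (cc e : ℝ)| := abs_add_le _ _
      _ = 3 ^ (10 * k) * |(N : ℝ)| + |(d : ℝ)| * (cc e : ℝ) := by
          rw [abs_mul, abs_mul, abs_of_pos (by positivity : (0 : ℝ) < 3 ^ (10 * k)),
            abs_of_nonneg hcc0]
      _ ≤ 3 ^ (10 * k) * (2 * z) + |(d : ℝ)| * (2 ^ e.sum * (3 / 2 : ℝ) ^ (10 * k)) := by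
          gcongr
          refine hcc.trans ?_
          gcongr
          linarith
  have h4 : (3 : ℝ) ^ (10 * k) / 2 ^ e.sum ≤ (3 ^ 10 / 2 ^ 19 : ℝ) ^ k := by
    rw [div_pow, ← pow_mul, ← pow_mul]
    gcongr
    · norm_num
  have h5 : |(M : ℝ)| = (2 : ℝ) ^ e.sum * |(M : ℝ)| / 2 ^ e.sum := by
    field_simp
  rw [h5]
  calc (2 : ℝ) ^ e.sum * |(M : ℝ)| / 2 ^ e.sum
      ≤ (3 ^ (10 * k) * (2 * z) + |(d : ℝ)| * (2 ^ e.sum * (3 / 2 : ℝ) ^ (10 * k))) / 2 ^ e.sum := by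
        gcongr
    _ = 2 * z * ((3 : ℝ) ^ (10 * k) / 2 ^ e.sum) + |(d : ℝ)| * (3 / 2 : ℝ) ^ (10 * k) := by
        field_simp
    _ ≤ _ := by
        gcongr

theorem b6_ratio {k : ℕ} {x : ℝ} (hk : x / 50 ≤ k) :
    (3 ^ 10 / 2 ^ 19 : ℝ) ^ k ≤ (2 : ℝ) ^ (-(0.063 * x)) := by
  have h1 : (3 ^ 10 / 2 ^ 19 : ℝ) ≤ (2 : ℝ) ^ (-3.15 : ℝ) := by
    have h2 : ((3 ^ 10 / 2 ^ 19 : ℝ)) ^ 20 ≤ ((2 : ℝ) ^ (-3.15 : ℝ)) ^ 20 := by
      rw [← Real.rpow_natCast ((2 : ℝ) ^ (-3.15 : ℝ)) 20, ← Real.rpow_mul (by norm_num)]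
      have h3 : (-3.15 : ℝ) * ((20 : ℕ) : ℝ) = -((63 : ℕ) : ℝ) := by norm_num
      rw [h3, Real.rpow_neg (by norm_num), Real.rpow_natCast]
      norm_num
    exact le_of_pow_le_pow_left₀ (by norm_num) (by positivity) h2
  calc (3 ^ 10 / 2 ^ 19 : ℝ) ^ k ≤ ((2 : ℝ) ^ (-3.15 : ℝ)) ^ k := by
        gcongr
    _ = (2 : ℝ) ^ (-3.15 * (k : ℝ)) := by
        rw [← Real.rpow_natCast, ← Real.rpow_mul (by norm_num)]
    _ ≤ (2 : ℝ) ^ (-(0.063 * x)) := by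
        apply Real.rpow_le_rpow_of_exponent_le (by norm_num)
        nlinarith

theorem b6_growth {k : ℕ} {x : ℝ} (hx : 0 ≤ x) (hk : (k : ℝ) ≤ x / 50 + 1) :
    (3 / 2 : ℝ) ^ (10 * k) ≤ 58 * (2 : ℝ) ^ (0.12 * x) := by
  have h1 : (3 / 2 : ℝ) ^ 10 ≤ (2 : ℝ) ^ (5.85 : ℝ) := by
    have h2 : ((3 / 2 : ℝ) ^ 10) ^ 20 ≤ ((2 : ℝ) ^ (5.85 : ℝ)) ^ 20 := by
      rw [← Real.rpow_natCast ((2 : ℝ) ^ (5.85 : ℝ)) 20, ← Real.rpow_mul (by norm_num)]
      have h3 : (5.85 : ℝ) * ((20 : ℕ) : ℝ) = ((117 : ℕ) : ℝ) := by norm_num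
      rw [h3, Real.rpow_natCast]
      norm_num
    exact le_of_pow_le_pow_left₀ (by norm_num) (by positivity) h2
  have h58 : (2 : ℝ) ^ (5.85 : ℝ) ≤ 58 := by
    have h2 : ((2 : ℝ) ^ (5.85 : ℝ)) ^ 20 ≤ (58 : ℝ) ^ 20 := by
      rw [← Real.rpow_natCast ((2 : ℝ) ^ (5.85 : ℝ)) 20, ← Real.rpow_mul (by norm_num)]
      have h3 : (5.85 : ℝ) * ((20 : ℕ) : ℝ) = ((117 : ℕ) : ℝ) := by norm_num
      rw [h3, Real.rpow_natCast]
      norm_num
    exact le_of_pow_le_pow_left₀ (by norm_num) (by positivity) h2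
  calc (3 / 2 : ℝ) ^ (10 * k) = ((3 / 2 : ℝ) ^ 10) ^ k := by rw [pow_mul]
    _ ≤ ((2 : ℝ) ^ (5.85 : ℝ)) ^ k := by gcongr
    _ = (2 : ℝ) ^ (5.85 * (k : ℝ)) := by
        rw [← Real.rpow_natCast, ← Real.rpow_mul (by norm_num)]
    _ ≤ (2 : ℝ) ^ (5.85 + 0.117 * x) := by
        apply Real.rpow_le_rpow_of_exponent_le (by norm_num)
        nlinarith
    _ = (2 : ℝ) ^ (5.85 : ℝ) * (2 : ℝ) ^ (0.117 * x) := by
        rw [Real.rpow_add (by norm_num)]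
    _ ≤ 58 * (2 : ℝ) ^ (0.12 * x) := by
        apply mul_le_mul h58 _ (by positivity) (by norm_num)
        apply Real.rpow_le_rpow_of_exponent_le (by norm_num)
        nlinarith

/-- `x ^ A ≤ A! / c ^ A * exp (c x)` -/
theorem b6_pow_le {x c : ℝ} (hx : 0 ≤ x) (hc : 0 < c) (A : ℕ) :
    x ^ A ≤ (A.factorial : ℝ) / c ^ A * Real.exp (c * x) := by
  have h := Real.pow_div_factorial_le_exp (c * x) (by positivity) A
  have hf : (0 : ℝ) < A.factorial := by exact_mod_cast A.factorial_pos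
  rw [div_le_iff₀ hf, mul_pow] at h
  rw [div_mul_eq_mul_div, le_div_iff₀ (by positivity)]
  linarith

theorem b6_exp_le {x c : ℝ} (hx : 0 < x) (hc : 0 < c) (A : ℕ) :
    Real.exp (-(c * x)) ≤ (A.factorial : ℝ) / c ^ A / x ^ A := by
  have h := b6_pow_le hx.le hc A
  rw [le_div_iff₀ (by positivity)]
  calc Real.exp (-(c * x)) * x ^ A
      ≤ Real.exp (-(c * x)) * ((A.factorial : ℝ) / c ^ A * Real.exp (c * x)) := by gcongr
    _ = (A.factorial : ℝ) / c ^ A * (Real.exp (-(c * x)) * Real.exp (c * x)) := by ring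
    _ = (A.factorial : ℝ) / c ^ A := by
        rw [← Real.exp_add, neg_add_cancel, Real.exp_zero, mul_one]

/-- the two error terms -/
theorem b6_err {k : ℕ} {x y : ℝ} (hy : 0 < y) (hyx : y ≤ x) (hk : x / 50 ≤ k) (A : ℕ) :
    2 * (0.98 : ℝ) ^ k + 2 ^ 23 * (2 : ℝ) ^ (-(0.57 * x)) ≤
      (2 * ((A.factorial : ℝ) / (0.0004 : ℝ) ^ A) + 2 ^ 23 * ((A.factorial : ℝ) / (0.3 : ℝ) ^ A))
        / y ^ A := by
  have h1 : (0.98 : ℝ) ^ k ≤ Real.exp (-(0.0004 * y)) := by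
    have h2 : (0.98 : ℝ) ≤ Real.exp (-0.02) := by
      have := Real.add_one_le_exp (-0.02 : ℝ)
      linarith
    calc (0.98 : ℝ) ^ k ≤ (Real.exp (-0.02)) ^ k := by gcongr
      _ = Real.exp (k * (-0.02)) := by rw [← Real.exp_nat_mul]
      _ ≤ Real.exp (-(0.0004 * y)) := by
          apply Real.exp_le_exp.2
          nlinarith
  have h3 : (2 : ℝ) ^ (-(0.57 * x)) ≤ Real.exp (-(0.3 * y)) := by
    rw [Real.rpow_def_of_pos (by norm_num)]
    apply Real.exp_le_exp.2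
    have := Real.log_two_gt_d9
    nlinarith
  have h4 := b6_exp_le hy (by norm_num : (0 : ℝ) < 0.0004) A
  have h5 := b6_exp_le hy (by norm_num : (0 : ℝ) < 0.3) A
  rw [add_div, mul_div_assoc, mul_div_assoc]
  have h6 := h1.trans h4
  have h7 := h3.trans h5
  gcongr

/-- for large `B` the end point is below `B` -/
theorem b6_final {B D x y : ℝ} (hy : y = Real.logb 2 B) (hB : (2 : ℝ) ^ 200 ≤ B)
    (hD0 : 0 ≤ D) (hD : (116 * D) ^ 2 ≤ B) (hyx : y ≤ x) (hxy : x ≤ 1.05 * y) :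
    2 * (2 : ℝ) ^ x * (2 : ℝ) ^ (-(0.063 * x)) + D * (58 * (2 : ℝ) ^ (0.12 * x)) ≤ B := by
  have hB0 : 0 < B := lt_of_lt_of_le (by positivity) hB
  have hB2 : B = (2 : ℝ) ^ y := by
    rw [hy, Real.rpow_logb (by norm_num) (by norm_num) hB0]
  have hy200 : 200 ≤ y := by
    rw [hy, Real.le_logb_iff_rpow_le (by norm_num) hB0]
    exact_mod_cast hB
  have h1 : 2 * (2 : ℝ) ^ x * (2 : ℝ) ^ (-(0.063 * x)) ≤ B / 2 := by
    rw [mul_assoc, ← Real.rpow_add (by norm_num)]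
    have h2 : (2 : ℝ) ^ (x + -(0.063 * x)) ≤ (2 : ℝ) ^ (y + -2) := by
      apply Real.rpow_le_rpow_of_exponent_le (by norm_num)
      nlinarith
    rw [Real.rpow_add (by norm_num) y, ← hB2] at h2
    have h3 : (2 : ℝ) ^ (-2 : ℝ) = 1 / 4 := by
      rw [Real.rpow_neg (by norm_num)]
      norm_num
    rw [h3] at h2
    linarith
  have h4 : D * (58 * (2 : ℝ) ^ (0.12 * x)) ≤ B / 2 := by
    have h5 : (2 : ℝ) ^ (0.12 * x) ≤ (2 : ℝ) ^ (y / 2) := by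
      apply Real.rpow_le_rpow_of_exponent_le (by norm_num)
      nlinarith
    have h6 : ((2 : ℝ) ^ (y / 2)) ^ 2 = B := by
      rw [← Real.rpow_natCast, ← Real.rpow_mul (by norm_num), hB2]
      congr 1
      push_cast
      ring
    have h7 : 116 * D ≤ (2 : ℝ) ^ (y / 2) := by
      refine le_of_pow_le_pow_left₀ (n := 2) (by norm_num) (by positivity) ?_
      rw [h6]
      exact hD
    have h8 : (0 : ℝ) < (2 : ℝ) ^ (y / 2) := by positivity
    calc D * (58 * (2 : ℝ) ^ (0.12 * x)) ≤ D * (58 * (2 : ℝ) ^ (y / 2)) := by gcongr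
      _ = (116 * D) * (2 : ℝ) ^ (y / 2) / 2 := by ring
      _ ≤ (2 : ℝ) ^ (y / 2) * (2 : ℝ) ^ (y / 2) / 2 := by gcongr
      _ = B / 2 := by rw [← pow_two, h6]
  linarith

/-- the counting error -/
theorem b6_small {k m : ℕ} {z x : ℝ} (hz : z = (2 : ℝ) ^ x) (hx : 0 ≤ x)
    (hk : (k : ℝ) ≤ x / 50 + 1) (hm : (m : ℝ) ≤ x / 250) :
    (2 : ℝ) ^ (21 * k + 1) ≤ 2 ^ 23 * (2 : ℝ) ^ (-(0.57 * x)) * (z / (2 * 3 ^ m)) := by
  have h3 : (3 : ℝ) ^ m ≤ (2 : ℝ) ^ (0.0064 * x) := by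
    have h4 : (3 : ℝ) ≤ (2 : ℝ) ^ (1.6 : ℝ) := by
      have h2 : (3 : ℝ) ^ 5 ≤ ((2 : ℝ) ^ (1.6 : ℝ)) ^ 5 := by
        rw [← Real.rpow_natCast ((2 : ℝ) ^ (1.6 : ℝ)) 5, ← Real.rpow_mul (by norm_num)]
        have h3 : (1.6 : ℝ) * ((5 : ℕ) : ℝ) = ((8 : ℕ) : ℝ) := by norm_num
        rw [h3, Real.rpow_natCast]
        norm_num
      exact le_of_pow_le_pow_left₀ (by norm_num) (by positivity) h2
    calc (3 : ℝ) ^ m ≤ ((2 : ℝ) ^ (1.6 : ℝ)) ^ m := by gcongr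
      _ = (2 : ℝ) ^ (1.6 * (m : ℝ)) := by
          rw [← Real.rpow_natCast, ← Real.rpow_mul (by norm_num)]
      _ ≤ (2 : ℝ) ^ (0.0064 * x) := by
          apply Real.rpow_le_rpow_of_exponent_le (by norm_num)
          nlinarith
  have h5 : (2 : ℝ) ^ (21 * k + 1) ≤ (2 : ℝ) ^ (22 + 0.42 * x) := by
    rw [← Real.rpow_natCast]
    apply Real.rpow_le_rpow_of_exponent_le (by norm_num)
    push_cast
    nlinarith
  have h6 : (2 : ℝ) ^ (22 + 0.42 * x) * (2 : ℝ) ^ (0.0064 * x) ≤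
      2 ^ 22 * (2 : ℝ) ^ (-(0.57 * x)) * (2 : ℝ) ^ x := by
    have h7 : (2 : ℝ) ^ 22 = (2 : ℝ) ^ (22 : ℝ) := by
      rw [← Real.rpow_natCast]; norm_num
    rw [h7, ← Real.rpow_add (by norm_num), ← Real.rpow_add (by norm_num),
      ← Real.rpow_add (by norm_num)]
    apply Real.rpow_le_rpow_of_exponent_le (by norm_num)
    nlinarith
  have h8 : (0 : ℝ) < 3 ^ m := by positivity
  have h9 : 2 ^ 23 * (2 : ℝ) ^ (-(0.57 * x)) * (z / (2 * 3 ^ m)) =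
      2 ^ 22 * (2 : ℝ) ^ (-(0.57 * x)) * (2 : ℝ) ^ x / 3 ^ m := by
    rw [hz]
    field_simp
  rw [h9, le_div_iff₀ h8]
  refine le_trans ?_ h6
  gcongr

/-- `lz = logb 2 z`, `lB = logb 2 B`, `kb = ⌈lz/50⌉₊` (so `lz/50 ≤ kb ≤ lz/50 + 1`), `n = 10 kb`, `l1 = 19 kb`, `L = 21 kb`. Given `m, r, t`
with `m² ≤ kk z`, `8 lz ≤ t`. Every `N` counted by `cnt d B t m r z` is in the exceptional set of `exc_count`: otherwise it has a path
`e, M`, `l = |e| ∈ [19kb, 21kb]`, `l ≤ 21(lz/50+1) ≤ 8 lz ≤ t`, so `B < |M|` (`isPath_iterate`, `bad`); but by `isPath_identity` and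
`cc_le`, `|M| ≤ 3^n·2z/2^l + |d| (3/2)^n ≤ 2z (3^10/2^19)^kb + |d| (3/2)^{10 kb}`; `3^10/2^19 ≤ 2^{-3.15}` (`3^200 ≤ 2^317`), so the first
term is `≤ 2·2^{lz(1-0.063)} ≤ 2·2^{0.984 lB} = 2 B^{0.984}` (`lz ≤ 1.05 lB`); `(3/2)^{10kb} ≤ 58·(3/2)^{lz/5} ≤ 58·2^{0.13 lB}`. For
`B ≥ B0(d)` the sum is `≤ B`, contradiction.
By `exc_count` and `tail_bound`, `cnt ≤ z/(2·3^m)·2·0.98^kb + 2^{21kb+1}`, `2^{21kb+1} ≤ 2^{22}·2^{0.42 lz}`,
`3^m ≤ 3^{kk z} ≤ 2^{0.0064 lz}` (`m ≤ m² ≤ kk z ≤ lz/250`), so the second term is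
`≤ z/(2·3^m) · 2^{23}·2^{-0.57 lz}`; `lz ≥ lB`. -/
theorem dens_base {d : ℤ} (hd : Odd d) (A : ℕ) : ∃ C : ℝ, 0 ≤ C ∧
    ∃ B0 : ℝ, 2 ≤ B0 ∧ ∀ B z : ℝ, B0 ≤ B → B ≤ z →
      Real.logb 2 z ≤ 1.05 * Real.logb 2 B → dens d B (C / (Real.logb 2 B) ^ A) z := by
  refine ⟨2 * ((A.factorial : ℝ) / (0.0004 : ℝ) ^ A) + 2 ^ 23 * ((A.factorial : ℝ) / (0.3 : ℝ) ^ A),
    by positivity, max ((2 : ℝ) ^ 200) ((116 * |(d : ℝ)|) ^ 2), ?_, ?_⟩
  · refine le_trans ?_ (le_max_left _ _)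
    norm_num
  intro B z hB hBz hlog m r t hm ht
  have hB1 : (2 : ℝ) ^ 200 ≤ B := (le_max_left _ _).trans hB
  have hB2 : (116 * |(d : ℝ)|) ^ 2 ≤ B := (le_max_right _ _).trans hB
  have hB0 : 0 < B := lt_of_lt_of_le (by positivity) hB1
  have hz0 : 0 < z := hB0.trans_le hBz
  set x := Real.logb 2 z with hx
  set y := Real.logb 2 B with hy
  have hzx : z = (2 : ℝ) ^ x := by
    rw [hx, Real.rpow_logb (by norm_num) (by norm_num) hz0]
  have hyx : y ≤ x := Real.logb_le_logb_of_le (by norm_num) hB0 hBz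
  have hy200 : 200 ≤ y := by
    rw [hy, Real.le_logb_iff_rpow_le (by norm_num) hB0]
    exact_mod_cast hB1
  have hx0 : 0 ≤ x := by linarith
  set k := ⌈x / 50⌉₊ with hk
  have hk1 : x / 50 ≤ k := Nat.le_ceil _
  have hk2 : (k : ℝ) ≤ x / 50 + 1 := (Nat.ceil_lt_add_one (by positivity)).le
  have hm' : (m : ℝ) ≤ x / 250 := by
    have h1 : m ≤ m * m := Nat.le_mul_self m
    have h2 : ((kk z : ℕ) : ℝ) ≤ x / 250 := Nat.floor_le (by positivity)
    have h3 : ((m : ℕ) : ℝ) ≤ ((kk z : ℕ) : ℝ) := by exact_mod_cast h1.trans hm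
    exact h3.trans h2
  have hsub : {N : ℤ | N ∈ itv z (2 * z) ∧ Odd N ∧ N ≡ r [ZMOD 3 ^ m] ∧ bad d B t N} ⊆
      {N : ℤ | N ∈ itv z (2 * z) ∧ Odd N ∧ N ≡ r [ZMOD 3 ^ m] ∧
        ¬ ∃ (e : List ℕ) (M : ℤ), e.length = 10 * k ∧ 19 * k ≤ e.sum ∧ e.sum ≤ 21 * k ∧
          isPath d e N M} := by
    rintro N ⟨hN1, hN2, hN3, hN4⟩
    refine ⟨hN1, hN2, hN3, ?_⟩
    rintro ⟨e, M, hl, hs1, hs2, hp⟩
    have hst : e.sum ≤ t := by
      have h1 : ((e.sum : ℕ) : ℝ) ≤ ((21 * k : ℕ) : ℝ) := by exact_mod_cast hs2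
      have h2 : ((e.sum : ℕ) : ℝ) ≤ (t : ℝ) := by
        refine h1.trans (le_trans ?_ ht)
        push_cast
        nlinarith
      exact_mod_cast h2
    have hbad := hN4 e.sum hst
    rw [isPath_iterate hd hp] at hbad
    obtain ⟨hNz1, hNz2⟩ := mem_itv.1 hN1
    have h1 := b6_end hz0 hNz1 hNz2 hl hs1 hp
    have h2 := b6_final (D := |(d : ℝ)|) hy hB1 (abs_nonneg _) hB2 hyx hlog
    have h3 := b6_ratio (x := x) hk1
    have h4 := b6_growth hx0 hk2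
    have h5 : 2 * z * (3 ^ 10 / 2 ^ 19 : ℝ) ^ k + |(d : ℝ)| * (3 / 2 : ℝ) ^ (10 * k) ≤
        2 * (2 : ℝ) ^ x * (2 : ℝ) ^ (-(0.063 * x)) + |(d : ℝ)| * (58 * (2 : ℝ) ^ (0.12 * x)) := by
      rw [← hzx]
      gcongr
    linarith
  have hfin : {N : ℤ | N ∈ itv z (2 * z) ∧ Odd N ∧ N ≡ r [ZMOD 3 ^ m] ∧
        ¬ ∃ (e : List ℕ) (M : ℤ), e.length = 10 * k ∧ 19 * k ≤ e.sum ∧ e.sum ≤ 21 * k ∧
          isPath d e N M}.Finite :=
    (itv z (2 * z)).finite_toSet.subset fun N hN => hN.1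
  have hcnt : (cnt d B t m r z : ℝ) ≤ z / (2 * 3 ^ m) * (1 - ∑ l ∈ Icc (19 * k) (21 * k),
      nb (10 * k) l) + 2 ^ (21 * k + 1) := by
    refine le_trans ?_ (exc_count hd (10 * k) (19 * k) (21 * k) m r z hz0)
    unfold cnt
    exact_mod_cast Set.ncard_le_ncard hsub hfin
  have ht := tail_bound k
  have hq0 : 0 < z / (2 * 3 ^ m) := by positivity
  calc (cnt d B t m r z : ℝ)
      ≤ z / (2 * 3 ^ m) * (1 - ∑ l ∈ Icc (19 * k) (21 * k), nb (10 * k) l) + 2 ^ (21 * k + 1) := hcnt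
    _ ≤ z / (2 * 3 ^ m) * (2 * (0.98 : ℝ) ^ k)
        + 2 ^ 23 * (2 : ℝ) ^ (-(0.57 * x)) * (z / (2 * 3 ^ m)) := by
        have h1 := b6_small hzx hx0 hk2 hm'
        have h2 := mul_le_mul_of_nonneg_left ht hq0.le
        linarith
    _ = (2 * (0.98 : ℝ) ^ k + 2 ^ 23 * (2 : ℝ) ^ (-(0.57 * x))) * (z / (2 * 3 ^ m)) := by ring
    _ ≤ _ := by
        apply mul_le_mul_of_nonneg_right _ hq0.le
        exact b6_err (by linarith) hyx hk1 A

end Pool.Agent.Lib.MP_d0d59f_nt.AA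

end

section

/-! Row B3 (about 250 lines): the counting inequality. -/

namespace Pool.Agent.Lib.MP_d0d59f_nt.AA

open Finset

/-- One word. Let `e ∈ comps n l`, `l ≤ t`, `z = 3^n y/2^l`. The map `N ↦ M = T^l N` from
`{N ∈ [y,2y) : N ≡ r mod 3^m, N has path e, N bad (t)}` is injective (`2^l M = 3^n N + d cc e`), `M` is odd,
`bad d B (t-l) M` (`T^k M = T^{k+l} N`, `isPath_iterate`), `hz d r (n+m) e = M` (as `3^n N ≡ 3^n r mod 3^{n+m}`,
multiply `2^l M = 3^n N + d cc e` by `i2^l`), and `M ∈ [z+δ, 2z+δ)`, `δ = d cc e/2^l`, `|δ| ≤ |d| (3/2)^n` (`cc_le`).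
So `M ∈ [z,2z)`, or `M` lies in an interval of length `|δ|` (`[2z, 2z+δ)` or `[z+δ, z)`) and in a given residue class
modulo `3^{n+m}`: at most `|δ|/3^{n+m} + 1 ≤ |d| + 1` such `M` (`card_class_le`). -/
theorem count_word {d : ℤ} (hd : Odd d) (B : ℝ) (n m l t : ℕ) (r : ℤ) (y : ℝ) (hy : 0 < y)
    (ht : l ≤ t) {e : List ℕ} (he : e ∈ comps n l) :
    (Set.ncard {N : ℤ | N ∈ itv y (2 * y) ∧ N ≡ r [ZMOD 3 ^ m] ∧ bad d B t N ∧
        ∃ M, isPath d e N M} : ℝ) ≤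
      (Set.ncard {M : ℤ | M ∈ itv (3 ^ n * y / 2 ^ l) (2 * (3 ^ n * y / 2 ^ l)) ∧ Odd M ∧
          hz d r (n + m) e = (M : ZMod (3 ^ (n + m))) ∧ bad d B (t - l) M} : ℝ) + (|(d : ℝ)| + 1) := by
  obtain ⟨hlen, hsum, hpos⟩ := mem_comps.1 he
  set S : Set ℤ := {N : ℤ | N ∈ itv y (2 * y) ∧ N ≡ r [ZMOD 3 ^ m] ∧ bad d B t N ∧
        ∃ M, isPath d e N M} with hS
  set A : Set ℤ := {M : ℤ | M ∈ itv (3 ^ n * y / 2 ^ l) (2 * (3 ^ n * y / 2 ^ l)) ∧ Odd M ∧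
          hz d r (n + m) e = (M : ZMod (3 ^ (n + m))) ∧ bad d B (t - l) M} with hA
  set z : ℝ := 3 ^ n * y / 2 ^ l with hz0
  set δ : ℝ := (d : ℝ) * (cc e : ℝ) / 2 ^ l with hδ
  have h2l : (0 : ℝ) < 2 ^ l := by positivity
  have hzpos : 0 < z := by rw [hz0]; positivity
  -- the bound of the offset
  have hδle : |δ| ≤ |(d : ℝ)| * (3 / 2 : ℝ) ^ n := by
    have h1 := cc_le hpos
    rw [hlen, hsum] at h1
    rw [hδ, abs_div, abs_mul, abs_of_pos h2l, Nat.abs_cast, div_le_iff₀ h2l, mul_assoc]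
    refine mul_le_mul_of_nonneg_left ?_ (abs_nonneg _)
    nlinarith
  obtain ⟨c, hc⟩ := ZMod.intCast_surjective (hz d r (n + m) e)
  set α : ℝ := if 0 ≤ δ then 2 * z else z + δ with hα
  set β : ℝ := if 0 ≤ δ then 2 * z + δ else z with hβ
  have hαβ : α ≤ β := by
    rw [hα, hβ]
    split_ifs with h
    · linarith
    · linarith
  have hαβ' : β - α = |δ| := by
    rw [hα, hβ]
    split_ifs with h
    · rw [abs_of_nonneg h]; ring
    · rw [abs_of_neg (not_le.1 h)]; ring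
  set F : Finset ℤ := (itv α β).filter fun N => N ≡ c [ZMOD ((3 ^ (n + m) : ℕ) : ℤ)] with hF
  have hFcard : (F.card : ℝ) ≤ |(d : ℝ)| + 1 := by
    have h1 := card_class_le α β hαβ (3 ^ (n + m)) (by positivity) c
    refine h1.trans ?_
    rw [hαβ']
    have h3 : (0 : ℝ) < ((3 ^ (n + m) : ℕ) : ℝ) := by positivity
    have h4 : |δ| / ((3 ^ (n + m) : ℕ) : ℝ) ≤ |(d : ℝ)| := by
      rw [div_le_iff₀ h3]
      refine hδle.trans (mul_le_mul_of_nonneg_left ?_ (abs_nonneg _))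
      push_cast
      calc (3 / 2 : ℝ) ^ n ≤ 3 ^ n := by
            apply pow_le_pow_left₀ (by norm_num) (by norm_num)
        _ ≤ 3 ^ (n + m) := pow_le_pow_right₀ (by norm_num) (by omega)
    linarith
  -- the map
  have hg : ∀ N ∈ S, (2 : ℤ) ^ l * ((T d)^[l] N) = 3 ^ n * N + d * (cc e : ℤ) ∧
      Odd ((T d)^[l] N) := by
    rintro N ⟨-, -, -, M, hM⟩
    have h1 := isPath_iterate hd hM
    have h2 := isPath_identity hM
    have h3 := isPath_odd_right hM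
    rw [hsum] at h1 h2
    rw [hlen] at h2
    rw [h1]
    exact ⟨h2, h3⟩
  have hinj : Set.InjOn (fun N => (T d)^[l] N) S := by
    intro N hN N' hN' h
    have h1 := (hg N hN).1
    have h2 := (hg N' hN').1
    have h' : (T d)^[l] N = (T d)^[l] N' := h
    rw [h'] at h1
    have h3 : (3 : ℤ) ^ n * N = 3 ^ n * N' := by linarith
    exact mul_left_cancel₀ (by positivity) h3
  have hsub : (fun N => (T d)^[l] N) '' S ⊆ A ∪ (F : Set ℤ) := by
    rintro _ ⟨N, hN, rfl⟩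
    obtain ⟨h1, hodd⟩ := hg N hN
    obtain ⟨hNy, hNr, hbad, -⟩ := hN
    simp only
    set M := (T d)^[l] N with hMdef
    have hhz : hz d r (n + m) e = (M : ZMod (3 ^ (n + m))) := by
      rw [hz_eq_iff, hsum, hlen, h1]
      refine Int.ModEq.add_right _ ?_
      have := Int.ModEq.mul_left' (c := 3 ^ n) hNr
      rwa [← pow_add] at this
    have hMr : (M : ℝ) = 3 ^ n * N / 2 ^ l + δ := by
      have h2 : (2 : ℝ) ^ l * (M : ℝ) = 3 ^ n * (N : ℝ) + (d : ℝ) * (cc e : ℝ) := by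
        exact_mod_cast h1
      rw [hδ]
      field_simp
      linarith
    rw [mem_itv] at hNy
    have hlow : z + δ ≤ M := by
      rw [hMr, hz0]
      have : (3 : ℝ) ^ n * y / 2 ^ l ≤ 3 ^ n * N / 2 ^ l := by
        apply div_le_div_of_nonneg_right _ h2l.le
        exact mul_le_mul_of_nonneg_left hNy.1 (by positivity)
      linarith
    have hupp : (M : ℝ) < 2 * z + δ := by
      rw [hMr, hz0]
      have : (3 : ℝ) ^ n * N / 2 ^ l < 2 * (3 ^ n * y / 2 ^ l) := by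
        rw [← mul_div_assoc]
        apply div_lt_div_of_pos_right _ h2l
        have := mul_lt_mul_of_pos_left hNy.2 (show (0 : ℝ) < 3 ^ n by positivity)
        linarith
      linarith
    by_cases hin : z ≤ M ∧ (M : ℝ) < 2 * z
    · left
      refine ⟨mem_itv.2 hin, hodd, hhz, ?_⟩
      intro k hk
      rw [hMdef, ← Function.iterate_add_apply]
      exact hbad (k + l) (by omega)
    · right
      rw [hF, Finset.coe_filter]
      refine ⟨?_, ?_⟩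
      · rw [mem_itv, hα, hβ]
        split_ifs with h0
        · constructor
          · by_contra h
            exact hin ⟨by linarith, not_le.1 h⟩
          · exact hupp
        · constructor
          · exact hlow
          · by_contra h
            exact hin ⟨not_lt.1 h, by linarith⟩
      · rw [← hc] at hhz
        exact (ZMod.intCast_eq_intCast_iff _ _ _).1 hhz.symm
  have hAfin : A.Finite := by
    refine (Finset.finite_toSet (itv z (2 * z))).subset ?_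
    rintro M ⟨hM, -⟩
    exact hM
  have h1 : S.ncard ≤ A.ncard + F.card := by
    calc S.ncard = ((fun N => (T d)^[l] N) '' S).ncard := hinj.ncard_image.symm
      _ ≤ (A ∪ (F : Set ℤ)).ncard :=
        Set.ncard_le_ncard hsub (hAfin.union (Finset.finite_toSet F))
      _ ≤ A.ncard + (F : Set ℤ).ncard := Set.ncard_union_le _ _
      _ = A.ncard + F.card := by rw [Set.ncard_coe_finset]
  have h2 : (S.ncard : ℝ) ≤ (A.ncard : ℝ) + (F.card : ℝ) := by exact_mod_cast h1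
  linarith

end Pool.Agent.Lib.MP_d0d59f_nt.AA

end

section

/-! Row B3 (about 250 lines): the counting inequality. -/

namespace Pool.Agent.Lib.MP_d0d59f_nt.AA

open Finset

/-- Every `N` counted by `cnt d B t m r y` is either exceptional (`exc_count`) or has a path coded by some
`e ∈ comps n l`, `l ∈ [l1, L]` (`count_word`). Sum over `e`, using `∑_{l≤L} card (comps n l) ≤ 2^L`; the total error
is `(|d|+1) 2^L + 2^{L+1}`. -/
theorem count_main {d : ℤ} (hd : Odd d) (h3 : ¬ (3 : ℤ) ∣ d) (B : ℝ) (n m l1 L t : ℕ) (r : ℤ)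
    (y : ℝ) (hy : 0 < y) (ht : L ≤ t) :
    (cnt d B t m r y : ℝ) ≤
      ∑ l ∈ Icc l1 L, ∑ e ∈ comps n l,
        (Set.ncard {M : ℤ | M ∈ itv (3 ^ n * y / 2 ^ l) (2 * (3 ^ n * y / 2 ^ l)) ∧ Odd M ∧
          hz d r (n + m) e = (M : ZMod (3 ^ (n + m))) ∧ bad d B (t - l) M} : ℝ)
      + y / (2 * 3 ^ m) * (1 - ∑ l ∈ Icc l1 L, nb n l) + (|(d : ℝ)| + 3) * 2 ^ L := by
  classical
  set S : Set ℤ := {N : ℤ | N ∈ itv y (2 * y) ∧ Odd N ∧ N ≡ r [ZMOD 3 ^ m] ∧ bad d B t N} with hS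
  set E : Set ℤ := {N : ℤ | N ∈ itv y (2 * y) ∧ Odd N ∧ N ≡ r [ZMOD 3 ^ m] ∧
        ¬ ∃ (e : List ℕ) (M : ℤ), e.length = n ∧ l1 ≤ e.sum ∧ e.sum ≤ L ∧ isPath d e N M} with hE
  set W : List ℕ → Set ℤ := fun e => {N : ℤ | N ∈ itv y (2 * y) ∧ N ≡ r [ZMOD 3 ^ m] ∧
    bad d B t N ∧ ∃ M, isPath d e N M} with hW
  have hfin : ∀ V : Set ℤ, (∀ N ∈ V, N ∈ itv y (2 * y)) → V.Finite := fun V hV =>
    (itv y (2 * y)).finite_toSet.subset fun N hN => hV N hN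
  have hEf : E.Finite := hfin _ fun N hN => hN.1
  have hWf : ∀ e, (W e).Finite := fun e => hfin _ fun N hN => hN.1
  have hUf : (⋃ l ∈ Icc l1 L, ⋃ e ∈ comps n l, W e).Finite := by
    apply hfin
    intro N hN
    simp only [Set.mem_iUnion] at hN
    obtain ⟨l, _, e, _, h⟩ := hN
    exact h.1
  have hsub : S ⊆ E ∪ ⋃ l ∈ Icc l1 L, ⋃ e ∈ comps n l, W e := by
    intro N hN
    by_cases h : N ∈ E
    · exact Or.inl h
    · right
      have h1 : ∃ (e : List ℕ) (M : ℤ), e.length = n ∧ l1 ≤ e.sum ∧ e.sum ≤ L ∧ isPath d e N M := by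
        by_contra h2
        exact h ⟨hN.1, hN.2.1, hN.2.2.1, h2⟩
      obtain ⟨e, M, he1, he2, he3, he4⟩ := h1
      simp only [Set.mem_iUnion]
      exact ⟨e.sum, Finset.mem_Icc.2 ⟨he2, he3⟩, e, mem_comps.2 ⟨he1, rfl, isPath_pos he4⟩,
        hN.1, hN.2.2.1, hN.2.2.2, M, he4⟩
  have h1 : S.ncard ≤ E.ncard + ∑ l ∈ Icc l1 L, ∑ e ∈ comps n l, (W e).ncard := by
    calc S.ncard ≤ (E ∪ ⋃ l ∈ Icc l1 L, ⋃ e ∈ comps n l, W e).ncard :=
          Set.ncard_le_ncard hsub (hEf.union hUf)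
      _ ≤ E.ncard + (⋃ l ∈ Icc l1 L, ⋃ e ∈ comps n l, W e).ncard := Set.ncard_union_le _ _
      _ ≤ E.ncard + ∑ l ∈ Icc l1 L, ∑ e ∈ comps n l, (W e).ncard := by
          apply Nat.add_le_add_left
          refine (Finset.set_ncard_biUnion_le _ _).trans ?_
          apply Finset.sum_le_sum
          intro l _
          exact Finset.set_ncard_biUnion_le _ _
  have h2 : (cnt d B t m r y : ℝ) ≤ (E.ncard : ℝ) +
      ∑ l ∈ Icc l1 L, ∑ e ∈ comps n l, ((W e).ncard : ℝ) := by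
    have : cnt d B t m r y = S.ncard := rfl
    rw [this]
    exact_mod_cast h1
  have h3' := exc_count hd n l1 L m r y hy
  have h4 : ∑ l ∈ Icc l1 L, ∑ e ∈ comps n l, ((W e).ncard : ℝ) ≤
      ∑ l ∈ Icc l1 L, ∑ e ∈ comps n l,
        ((Set.ncard {M : ℤ | M ∈ itv (3 ^ n * y / 2 ^ l) (2 * (3 ^ n * y / 2 ^ l)) ∧ Odd M ∧
          hz d r (n + m) e = (M : ZMod (3 ^ (n + m))) ∧ bad d B (t - l) M} : ℝ) +
          (|(d : ℝ)| + 1)) := by
    apply Finset.sum_le_sum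
    intro l hl
    apply Finset.sum_le_sum
    intro e he
    exact count_word hd B n m l t r y hy ((Finset.mem_Icc.1 hl).2.trans ht) he
  have h5 : ∑ l ∈ Icc l1 L, ∑ e ∈ comps n l,
        ((Set.ncard {M : ℤ | M ∈ itv (3 ^ n * y / 2 ^ l) (2 * (3 ^ n * y / 2 ^ l)) ∧ Odd M ∧
          hz d r (n + m) e = (M : ZMod (3 ^ (n + m))) ∧ bad d B (t - l) M} : ℝ) +
          (|(d : ℝ)| + 1)) =
      ∑ l ∈ Icc l1 L, ∑ e ∈ comps n l,
        (Set.ncard {M : ℤ | M ∈ itv (3 ^ n * y / 2 ^ l) (2 * (3 ^ n * y / 2 ^ l)) ∧ Odd M ∧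
          hz d r (n + m) e = (M : ZMod (3 ^ (n + m))) ∧ bad d B (t - l) M} : ℝ) +
      (∑ l ∈ Icc l1 L, ((comps n l).card : ℝ)) * (|(d : ℝ)| + 1) := by
    rw [Finset.sum_mul, ← Finset.sum_add_distrib]
    apply Finset.sum_congr rfl
    intro l _
    rw [Finset.sum_add_distrib, Finset.sum_const, nsmul_eq_mul]
  have h6 : ∑ l ∈ Icc l1 L, ((comps n l).card : ℝ) ≤ 2 ^ L := by
    have h7 : ∑ l ∈ Icc l1 L, (comps n l).card ≤ 2 ^ L := by
      refine le_trans ?_ (sum_card_comps_le n L)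
      apply Finset.sum_le_sum_of_subset
      intro l hl
      rw [Finset.mem_Icc] at hl
      exact Finset.mem_range.2 (by omega)
    exact_mod_cast h7
  have h8 : (∑ l ∈ Icc l1 L, ((comps n l).card : ℝ)) * (|(d : ℝ)| + 1) ≤
      2 ^ L * (|(d : ℝ)| + 1) := mul_le_mul_of_nonneg_right h6 (by positivity)
  have h9 : (2 : ℝ) ^ (L + 1) = 2 * 2 ^ L := by rw [pow_succ]; ring
  rw [h9] at h3'
  rw [h5] at h4
  linarith

end Pool.Agent.Lib.MP_d0d59f_nt.AA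

end

section

/-! Row B4 (about 250 lines): the maximum principle. -/

namespace Pool.Agent.Lib.MP_d0d59f_nt.AA

open Finset

open Classical in
/-- Grouping a sum over a finite set of integers by the residue modulo `q`. -/
private theorem b4_group (S : Finset ℤ) (q : ℕ) (hq : 0 < q) (f : ℤ → ℝ) (g : ℕ → ℝ)
    (hfg : ∀ (M : ℤ) (x : ℕ), M ≡ x [ZMOD q] → f M = g x) :
    ∑ M ∈ S, f M = ∑ x ∈ range q, g x * ((S.filter fun M => M ≡ x [ZMOD q]).card : ℝ) := by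
  have hq' : (0 : ℤ) < q := by exact_mod_cast hq
  have hmap : ∀ M ∈ S, (M % (q : ℤ)).toNat ∈ range q := by
    intro M _
    rw [mem_range]
    have h1 := Int.emod_nonneg M hq'.ne'
    have h2 := Int.emod_lt_of_pos M hq'
    omega
  rw [← Finset.sum_fiberwise_of_maps_to hmap]
  refine Finset.sum_congr rfl fun x hx => ?_
  rw [mem_range] at hx
  have hfil : (S.filter fun M => (M % (q : ℤ)).toNat = x) = S.filter fun M => M ≡ x [ZMOD q] := by
    refine Finset.filter_congr fun M _ => ?_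
    have h1 := Int.emod_nonneg M hq'.ne'
    have h2 := Int.emod_lt_of_pos M hq'
    have hx2 : ((x : ℤ) % q) = x := Int.emod_eq_of_lt (by positivity) (by exact_mod_cast hx)
    unfold Int.ModEq
    rw [hx2]
    omega
  rw [hfil]
  rw [Finset.sum_congr rfl (g := fun _ => g x)]
  · rw [Finset.sum_const, nsmul_eq_mul, mul_comm]
  · intro M hM
    rw [Finset.mem_filter] at hM
    exact hfg M x hM.2

private theorem b4_modEq_cast {K : ℕ} {M : ℤ} {x : ℕ} (h : M ≡ x [ZMOD ((3 ^ K : ℕ) : ℤ)]) :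
    (M : ZMod (3 ^ K)) = (x : ZMod (3 ^ K)) := by
  have := (ZMod.intCast_eq_intCast_iff M (x : ℤ) (3 ^ K)).2 h
  simpa using this

/-- Fixed `l`. Put `K = n + m`, `z = 3^n y/2^l`, `S = {M ∈ [z,2z) : M odd, bad d B (t-l) M}` (finite). Exchanging sums,
`∑_{e ∈ comps n l} #{M ∈ S : hz d r K e = M} = ∑_{M ∈ S} 2^l pz d r K n l M
 ≤ ∑_{M ∈ S} 2^l [3^{m'-K} pz d r m' n l M + |pz d r K n l M - 3^{m'-K} pz d r m' n l M|]`.
First part: group `M` by its residue `x < 3^{m'}` modulo `3^{m'}`: `2^l 3^{m'-K} ∑_x pz d r m' n l x · cnt d B (t-l) m' x z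
≤ 2^l 3^{m'-K} β (z/(2·3^{m'})) ∑_x pz d r m' n l x = nb n l · β · y/(2·3^m)` (`sum_pz`, `2^l z = 3^n y`).
Second part: group by the residue `x < 3^K`: the number of `M ∈ S` with `M ≡ x mod 3^K` is at most
`z/(2·3^K) + 1` (`card_odd_class_le`), so the part is at most
`(y/(2·3^m)) osc_l + 2^l osc_l`, `osc_l = ∑_{x<3^K} |...| ≤ 2 nb n l` (`osc_inner_le`). -/
theorem dens_word {d : ℤ} (B : ℝ) (n m m' l t : ℕ) (hm' : m' ≤ n + m) (r : ℤ)
    (y : ℝ) (hy : 0 < y) (β : ℝ) (hβ0 : 0 ≤ β)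
    (hβ : ∀ r' : ℤ, (cnt d B (t - l) m' r' (3 ^ n * y / 2 ^ l) : ℝ) ≤
      β * ((3 ^ n * y / 2 ^ l) / (2 * 3 ^ m'))) :
    ∑ e ∈ comps n l,
        (Set.ncard {M : ℤ | M ∈ itv (3 ^ n * y / 2 ^ l) (2 * (3 ^ n * y / 2 ^ l)) ∧ Odd M ∧
          hz d r (n + m) e = (M : ZMod (3 ^ (n + m))) ∧ bad d B (t - l) M} : ℝ) ≤
      y / (2 * 3 ^ m) * (β * nb n l) +
      y / (2 * 3 ^ m) * ∑ x ∈ range (3 ^ (n + m)),
        |pz d r (n + m) n l (x : ZMod (3 ^ (n + m)))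
          - (3 : ℝ) ^ m' / 3 ^ (n + m) * pz d r m' n l (x : ZMod (3 ^ m'))|
      + 2 ^ (l + 1) * nb n l := by
  classical
  set z : ℝ := 3 ^ n * y / 2 ^ l with hz_def
  have hzpos : 0 < z := by positivity
  set K : ℕ := n + m with hK
  set c : ℝ := (3 : ℝ) ^ m' / 3 ^ K with hc
  have hcpos : 0 < c := by positivity
  set S : Finset ℤ := (itv z (2 * z)).filter fun M => Odd M ∧ bad d B (t - l) M with hS
  -- the counts as finset cardinalities
  have h1 : ∀ e ∈ comps n l,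
      (Set.ncard {M : ℤ | M ∈ itv z (2 * z) ∧ Odd M ∧
          hz d r K e = (M : ZMod (3 ^ K)) ∧ bad d B (t - l) M} : ℝ)
        = ∑ M ∈ S, (if hz d r K e = (M : ZMod (3 ^ K)) then (1 : ℝ) else 0) := by
    intro e _
    have hset : {M : ℤ | M ∈ itv z (2 * z) ∧ Odd M ∧
          hz d r K e = (M : ZMod (3 ^ K)) ∧ bad d B (t - l) M}
        = ((S.filter fun M : ℤ => hz d r K e = (M : ZMod (3 ^ K)) : Finset ℤ) : Set ℤ) := by
      ext M
      simp only [Set.mem_ofPred_eq, Finset.coe_filter, hS, Finset.mem_filter]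
      tauto
    rw [hset, Set.ncard_coe_finset, Finset.card_filter]
    push_cast
    rfl
  rw [Finset.sum_congr rfl h1, Finset.sum_comm]
  -- exchange: the inner sum is `2^l pz`
  have h2 : ∀ M ∈ S, ∑ e ∈ comps n l, (if hz d r K e = (M : ZMod (3 ^ K)) then (1 : ℝ) else 0)
      = 2 ^ l * pz d r K n l (M : ZMod (3 ^ K)) := by
    intro M _
    unfold pz
    rw [← mul_assoc, ← mul_pow, Finset.card_filter]
    norm_num
  rw [Finset.sum_congr rfl h2]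
  -- split
  have h3 : ∀ M ∈ S, 2 ^ l * pz d r K n l (M : ZMod (3 ^ K)) ≤
      2 ^ l * c * pz d r m' n l (M : ZMod (3 ^ m')) +
      2 ^ l * |pz d r K n l (M : ZMod (3 ^ K)) - c * pz d r m' n l (M : ZMod (3 ^ m'))| := by
    intro M _
    have := le_abs_self (pz d r K n l (M : ZMod (3 ^ K)) - c * pz d r m' n l (M : ZMod (3 ^ m')))
    have h2l : (0 : ℝ) < 2 ^ l := by positivity
    nlinarith
  refine (Finset.sum_le_sum h3).trans ?_
  rw [Finset.sum_add_distrib, ← Finset.mul_sum, ← Finset.mul_sum]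
  -- first part
  have hA : ∑ M ∈ S, pz d r m' n l (M : ZMod (3 ^ m')) ≤ β * (z / (2 * 3 ^ m')) * nb n l := by
    rw [b4_group S (3 ^ m') (by positivity) (fun M => pz d r m' n l (M : ZMod (3 ^ m')))
      (fun x => pz d r m' n l (x : ZMod (3 ^ m')))
      (fun M x h => by simp only [b4_modEq_cast h])]
    have hb : ∀ x ∈ range (3 ^ m'), pz d r m' n l (x : ZMod (3 ^ m')) *
        ((S.filter fun M => M ≡ (x : ℕ) [ZMOD ((3 ^ m' : ℕ) : ℤ)]).card : ℝ)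
        ≤ pz d r m' n l (x : ZMod (3 ^ m')) * (β * (z / (2 * 3 ^ m'))) := by
      intro x _
      refine mul_le_mul_of_nonneg_left ?_ (pz_nonneg _ _ _ _ _ _)
      refine le_trans (le_of_eq ?_) (hβ (x : ℤ))
      unfold cnt
      have hset : {N : ℤ | N ∈ itv z (2 * z) ∧ Odd N ∧ N ≡ (x : ℤ) [ZMOD 3 ^ m'] ∧
            bad d B (t - l) N}
          = ((S.filter fun M : ℤ => M ≡ (x : ℕ) [ZMOD ((3 ^ m' : ℕ) : ℤ)] : Finset ℤ) : Set ℤ) := by
        ext M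
        simp only [Set.mem_ofPred_eq, Finset.coe_filter, hS, Finset.mem_filter, Nat.cast_pow,
          Nat.cast_ofNat]
        tauto
      rw [hset, Set.ncard_coe_finset]
    refine (Finset.sum_le_sum hb).trans (le_of_eq ?_)
    rw [← Finset.sum_mul, sum_range_eq_sum_zmod m' (pz d r m' n l), sum_pz]
    ring
  -- second part
  have hB : ∑ M ∈ S, |pz d r K n l (M : ZMod (3 ^ K)) - c * pz d r m' n l (M : ZMod (3 ^ m'))| ≤
      (z / (2 * 3 ^ K) + 1) * ∑ x ∈ range (3 ^ K), |pz d r K n l (x : ZMod (3 ^ K))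
          - c * pz d r m' n l (x : ZMod (3 ^ m'))| := by
    rw [b4_group S (3 ^ K) (by positivity)
      (fun M => |pz d r K n l (M : ZMod (3 ^ K)) - c * pz d r m' n l (M : ZMod (3 ^ m'))|)
      (fun x => |pz d r K n l (x : ZMod (3 ^ K)) - c * pz d r m' n l (x : ZMod (3 ^ m'))|)
      (fun M x h => by
        have h' : M ≡ x [ZMOD ((3 ^ m' : ℕ) : ℤ)] := by
          refine h.of_dvd ?_
          exact_mod_cast pow_dvd_pow 3 hm'
        simp only [b4_modEq_cast h, b4_modEq_cast h'])]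
    rw [Finset.mul_sum]
    refine Finset.sum_le_sum fun x _ => ?_
    rw [mul_comm]
    refine mul_le_mul_of_nonneg_right ?_ (abs_nonneg _)
    have hcard := card_odd_class_le z (2 * z) (by linarith) K (x : ℤ)
    have hle : ((S.filter fun M => M ≡ (x : ℕ) [ZMOD ((3 ^ K : ℕ) : ℤ)]).card : ℝ) ≤
        (((itv z (2 * z)).filter fun N => Odd N ∧ N ≡ (x : ℤ) [ZMOD 3 ^ K]).card : ℝ) := by
      norm_cast
      refine Finset.card_le_card ?_
      intro M hM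
      simp only [hS, Finset.mem_filter, Nat.cast_pow, Nat.cast_ofNat] at hM ⊢
      tauto
    refine hle.trans (hcard.trans (le_of_eq ?_))
    ring
  have hC := osc_inner_le d r K m' n l hm'
  have e1 : 2 ^ l * c * (β * (z / (2 * 3 ^ m')) * nb n l) = y / (2 * 3 ^ m) * (β * nb n l) := by
    rw [hc, hz_def, hK, pow_add]
    field_simp
  have e2 : 2 ^ l * (z / (2 * 3 ^ K)) = y / (2 * 3 ^ m) := by
    rw [hz_def, hK, pow_add]
    field_simp
  have h2l : (0 : ℝ) < 2 ^ l := by positivity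
  set O : ℝ := ∑ x ∈ range (3 ^ K), |pz d r K n l (x : ZMod (3 ^ K))
          - c * pz d r m' n l (x : ZMod (3 ^ m'))| with hO
  calc 2 ^ l * c * ∑ M ∈ S, pz d r m' n l (M : ZMod (3 ^ m')) +
        2 ^ l * ∑ M ∈ S, |pz d r K n l (M : ZMod (3 ^ K)) - c * pz d r m' n l (M : ZMod (3 ^ m'))|
      ≤ 2 ^ l * c * (β * (z / (2 * 3 ^ m')) * nb n l) + 2 ^ l * ((z / (2 * 3 ^ K) + 1) * O) := by
        gcongr
    _ = y / (2 * 3 ^ m) * (β * nb n l) + (y / (2 * 3 ^ m) * O + 2 ^ l * O) := by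
        rw [e1, ← e2]; ring
    _ ≤ y / (2 * 3 ^ m) * (β * nb n l) + (y / (2 * 3 ^ m) * O + 2 ^ l * (2 * nb n l)) := by
        gcongr
    _ = y / (2 * 3 ^ m) * (β * nb n l) + y / (2 * 3 ^ m) * O + 2 ^ (l + 1) * nb n l := by
        rw [pow_succ]; ring

end Pool.Agent.Lib.MP_d0d59f_nt.AA

end

section

/-! Row B4 (about 250 lines): the maximum principle. -/

namespace Pool.Agent.Lib.MP_d0d59f_nt.AA

open Finset

/-- Sum of `dens_word` over `l ∈ [l1, L]` (`∑ nb n l ≤ 1`, `β ≥ 0`, `∑_l 2^{l+1} nb n l ≤ 2^{L+1}`,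
and `∑_{l∈[l1,L]} ≤ ∑_{l ≤ L}` for the oscillations), and `count_main`. -/
theorem dens_count {d : ℤ} (hd : Odd d) (h3 : ¬ (3 : ℤ) ∣ d) (B : ℝ) (n m m' l1 L t : ℕ)
    (hm' : m' ≤ n + m) (r : ℤ) (y : ℝ) (hy : 0 < y) (ht : L ≤ t) (β : ℝ) (hβ0 : 0 ≤ β)
    (hβ : ∀ l ∈ Icc l1 L, ∀ r' : ℤ, (cnt d B (t - l) m' r' (3 ^ n * y / 2 ^ l) : ℝ) ≤
      β * ((3 ^ n * y / 2 ^ l) / (2 * 3 ^ m'))) :
    (cnt d B t m r y : ℝ) ≤
      y / (2 * 3 ^ m) * (β + osc d r (n + m) m' n L + (1 - ∑ l ∈ Icc l1 L, nb n l))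
        + (|(d : ℝ)| + 5) * 2 ^ L := by
  have hmain := count_main hd h3 B n m l1 L t r y hy ht
  have hsub : Icc l1 L ⊆ range (L + 1) := by
    intro l hl
    rw [mem_Icc] at hl
    rw [mem_range]
    omega
  have hY : (0 : ℝ) ≤ y / (2 * 3 ^ m) := by positivity
  set O : ℕ → ℝ := fun l => ∑ x ∈ range (3 ^ (n + m)),
        |pz d r (n + m) n l (x : ZMod (3 ^ (n + m)))
          - (3 : ℝ) ^ m' / 3 ^ (n + m) * pz d r m' n l (x : ZMod (3 ^ m'))| with hO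
  have hO0 : ∀ l, 0 ≤ O l := fun l => Finset.sum_nonneg fun _ _ => abs_nonneg _
  have hsum : ∑ l ∈ Icc l1 L, ∑ e ∈ comps n l,
        (Set.ncard {M : ℤ | M ∈ itv (3 ^ n * y / 2 ^ l) (2 * (3 ^ n * y / 2 ^ l)) ∧ Odd M ∧
          hz d r (n + m) e = (M : ZMod (3 ^ (n + m))) ∧ bad d B (t - l) M} : ℝ) ≤
      ∑ l ∈ Icc l1 L, (y / (2 * 3 ^ m) * β * nb n l + y / (2 * 3 ^ m) * O l
        + 2 ^ (L + 1) * nb n l) := by
    refine Finset.sum_le_sum fun l hl => ?_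
    refine (dens_word B n m m' l t hm' r y hy β hβ0 (hβ l hl)).trans ?_
    have hlL : l ≤ L := (mem_Icc.1 hl).2
    have hpow : (2 : ℝ) ^ (l + 1) ≤ 2 ^ (L + 1) :=
      pow_le_pow_right₀ (by norm_num) (by omega)
    have := mul_le_mul_of_nonneg_right hpow (nb_nonneg n l)
    simp only [hO]
    linarith
  rw [Finset.sum_add_distrib, Finset.sum_add_distrib, ← Finset.mul_sum, ← Finset.mul_sum,
    ← Finset.mul_sum] at hsum
  have hnb : ∑ l ∈ Icc l1 L, nb n l ≤ 1 :=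
    (Finset.sum_le_sum_of_subset_of_nonneg hsub fun l _ _ => nb_nonneg n l).trans
      (sum_nb_le_one n L)
  have hosc : ∑ l ∈ Icc l1 L, O l ≤ osc d r (n + m) m' n L := by
    refine (Finset.sum_le_sum_of_subset_of_nonneg hsub fun l _ _ => hO0 l).trans (le_of_eq ?_)
    rfl
  have h1 : y / (2 * 3 ^ m) * β * ∑ l ∈ Icc l1 L, nb n l ≤ y / (2 * 3 ^ m) * β * 1 :=
    mul_le_mul_of_nonneg_left hnb (mul_nonneg hY hβ0)
  have h2 : y / (2 * 3 ^ m) * ∑ l ∈ Icc l1 L, O l ≤ y / (2 * 3 ^ m) * osc d r (n + m) m' n L :=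
    mul_le_mul_of_nonneg_left hosc hY
  have h3 : (2 : ℝ) ^ (L + 1) * ∑ l ∈ Icc l1 L, nb n l ≤ 2 ^ (L + 1) * 1 :=
    mul_le_mul_of_nonneg_left hnb (by positivity)
  have h4 : (2 : ℝ) ^ (L + 1) = 2 * 2 ^ L := by rw [pow_succ]; ring
  rw [h4] at h3 hsum
  have e : y / (2 * 3 ^ m) * (β + osc d r (n + m) m' n L + (1 - ∑ l ∈ Icc l1 L, nb n l))
        + (|(d : ℝ)| + 5) * 2 ^ L
      = y / (2 * 3 ^ m) * β + y / (2 * 3 ^ m) * osc d r (n + m) m' n L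
        + y / (2 * 3 ^ m) * (1 - ∑ l ∈ Icc l1 L, nb n l) + (|(d : ℝ)| + 3) * 2 ^ L
        + 2 * 2 ^ L := by ring
  rw [e]
  linarith

end Pool.Agent.Lib.MP_d0d59f_nt.AA

end

section

/-! Row nd-G6 (about 70 lines): tails of `nb`. -/

namespace Pool.Agent.Lib.MP_d0d59f_nt.ND

open Finset AA

private theorem g6_pow {k n : ℕ} (h2 : n ≤ 10 * k) (q : ℝ) (hq : 0 ≤ q)
    (h : (400 / 399 : ℝ) ^ 10 * q ≤ 0.98) : (400 / 399 : ℝ) ^ n * q ^ k ≤ (0.98 : ℝ) ^ k := by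
  calc (400 / 399 : ℝ) ^ n * q ^ k ≤ (400 / 399 : ℝ) ^ (10 * k) * q ^ k :=
        mul_le_mul_of_nonneg_right (pow_le_pow_right₀ (by norm_num) h2) (by positivity)
    _ = ((400 / 399 : ℝ) ^ 10 * q) ^ k := by rw [pow_mul, mul_pow]
    _ ≤ (0.98 : ℝ) ^ k := pow_le_pow_left₀ (by positivity) h k

/-- PROOF: as `AA.tail_bound` (AA/A5Tails.lean), which is the case `n = 10 k`: `one_sub_sum_nb_le` and `a5_low` with
`x = 21/20`, `x = 19/20`: the tails are at most `((1 - 1/400)⁻¹)^n (20/21)^k`, `((1-1/400)⁻¹)^n (19/20)^k`, up to the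
details of the two lemmas, and `n ≤ 10 k`, `(400/399)^10 * (20/21) ≤ 0.98`. -/
theorem gtail {k n : ℕ} (h1 : k ≤ n) (h2 : n ≤ 10 * k) :
    1 - ∑ l ∈ Icc (2 * n - k) (2 * n + k), nb n l ≤ 2 * (0.98 : ℝ) ^ k := by
  have e1 : ∑ l ∈ range (2 * n + k + 1), nb n l =
      ∑ l ∈ range (2 * n - k), nb n l + ∑ l ∈ Icc (2 * n - k) (2 * n + k), nb n l := by
    have h := Finset.sum_range_add_sum_Ico (fun l => nb n l)
      (show 2 * n - k ≤ 2 * n + k + 1 by omega)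
    rw [← h]
    congr 1
  have e2 : ∑ l ∈ range (2 * n - k), nb n l ≤ (0.98 : ℝ) ^ k := by
    calc ∑ l ∈ range (2 * n - k), nb n l ≤ ∑ l ∈ range (2 * n - k + 1), nb n l := by
          rw [Finset.sum_range_succ]
          have := nb_nonneg n (2 * n - k)
          linarith
      _ ≤ ((19 / 20 : ℝ)⁻¹) ^ (2 * n - k) * ((19 / 20 : ℝ) / (2 - 19 / 20)) ^ n :=
          a5_low n (2 * n - k) (19 / 20) (by norm_num) (by norm_num)
      _ = (400 / 399 : ℝ) ^ n * (19 / 20) ^ k := by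
          have a1 : ((19 / 20 : ℝ)⁻¹) ^ (2 * n - k) = ((19 / 20 : ℝ)⁻¹) ^ (2 * n) * (19 / 20) ^ k := by
            have a2 : ((19 / 20 : ℝ)⁻¹) ^ (2 * n) =
                ((19 / 20 : ℝ)⁻¹) ^ (2 * n - k) * ((19 / 20 : ℝ)⁻¹) ^ k := by
              rw [← pow_add]
              congr 1
              omega
            rw [a2, mul_assoc, ← mul_pow, inv_mul_cancel₀ (by norm_num), one_pow, mul_one]
          rw [a1, pow_mul, mul_right_comm, ← mul_pow]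
          norm_num
      _ ≤ (0.98 : ℝ) ^ k := g6_pow h2 _ (by norm_num) (by norm_num)
  have e3 : 1 - ∑ l ∈ range (2 * n + k + 1), nb n l ≤ (0.98 : ℝ) ^ k := by
    calc 1 - ∑ l ∈ range (2 * n + k + 1), nb n l
        ≤ ((21 / 20 : ℝ)⁻¹) ^ (2 * n + k + 1) * ((21 / 20 : ℝ) / (2 - 21 / 20)) ^ n :=
          one_sub_sum_nb_le n (2 * n + k) (21 / 20) (by norm_num) (by norm_num)
      _ ≤ ((21 / 20 : ℝ)⁻¹) ^ (2 * n + k) * ((21 / 20 : ℝ) / (2 - 21 / 20)) ^ n := by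
          refine mul_le_mul_of_nonneg_right ?_ (by positivity)
          exact pow_le_pow_of_le_one (by norm_num) (by norm_num) (Nat.le_succ _)
      _ = (400 / 399 : ℝ) ^ n * (20 / 21) ^ k := by
          rw [pow_add, pow_mul, mul_right_comm, ← mul_pow]
          norm_num
      _ ≤ (0.98 : ℝ) ^ k := g6_pow h2 _ (by norm_num) (by norm_num)
  linarith

end Pool.Agent.Lib.MP_d0d59f_nt.ND

end

section

/-! Row nd-F1 (about 130 lines): from windows to `[1, Z)`, odd integers. -/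

namespace Pool.Agent.Lib.MP_d0d59f_nt.ND

open Finset AA Filter Topology

private theorem f1_fin (S : Set ℤ) (Z : ℝ) :
    {N : ℤ | 1 ≤ N ∧ (N : ℝ) < Z ∧ Odd N ∧ N ∈ S}.Finite := by
  refine (Set.finite_Ico (1 : ℤ) ⌈Z⌉).subset ?_
  rintro N ⟨h1, h2, _, _⟩
  exact ⟨h1, Int.lt_ceil.mpr h2⟩

private theorem f1_step (S : Set ℤ) {y : ℝ} (hy : 1 ≤ y) :
    oc S (2 * y) = oc S y + cS S 0 0 y := by
  unfold oc cS
  have h1 : {N : ℤ | 1 ≤ N ∧ (N : ℝ) < 2 * y ∧ Odd N ∧ N ∈ S} =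
      {N : ℤ | 1 ≤ N ∧ (N : ℝ) < y ∧ Odd N ∧ N ∈ S} ∪
        {N : ℤ | N ∈ itv y (2 * y) ∧ Odd N ∧ N ≡ 0 [ZMOD 3 ^ 0] ∧ N ∈ S} := by
    ext N
    simp only [Set.mem_setOf_eq, Set.mem_union, mem_itv]
    have hm : N ≡ 0 [ZMOD 3 ^ 0] := by
      rw [pow_zero]
      exact Int.modEq_one
    constructor
    · rintro ⟨h1, h2, h3, h4⟩
      by_cases h : (N : ℝ) < y
      · exact Or.inl ⟨h1, h, h3, h4⟩
      · exact Or.inr ⟨⟨not_lt.mp h, h2⟩, h3, hm, h4⟩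
    · rintro (⟨h1, h2, h3, h4⟩ | ⟨⟨h1, h2⟩, h3, _, h4⟩)
      · exact ⟨h1, by linarith, h3, h4⟩
      · refine ⟨?_, h2, h3, h4⟩
        have : (1 : ℝ) ≤ N := hy.trans h1
        exact_mod_cast this
  rw [h1]
  refine Set.ncard_union_eq ?_ (f1_fin S y) ?_
  · rw [Set.disjoint_left]
    rintro N ⟨_, h2, _, _⟩ ⟨h3, _⟩
    rw [mem_itv] at h3
    linarith [h3.1]
  · refine (itv y (2 * y)).finite_toSet.subset ?_
    rintro N ⟨h, _⟩
    exact h

private theorem f1_ro (S : Set ℤ) {y : ℝ} (hy : 0 < y) : ro S 0 0 y * (y / 2) = cS S 0 0 y := by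
  unfold ro
  rw [pow_zero, mul_one]
  field_simp

/-- `[1, Z) ⊆ [1, Z/2^J) ∪ ⋃_{1 ≤ j ≤ J} [Z/2^j, 2 Z/2^j)`, disjoint; `cS S 0 0 y = ro S 0 0 y * (y/2)`. -/
theorem oc_windows (S : Set ℤ) {Z : ℝ} (hZ : 0 < Z) (J : ℕ) (hJ : 1 ≤ Z / 2 ^ J) :
    (oc S Z : ℝ) = oc S (Z / 2 ^ J) + ∑ j ∈ Icc 1 J, ro S 0 0 (Z / 2 ^ j) * (Z / 2 ^ j / 2) := by
  induction J with
  | zero => simp
  | succ J ih =>
    have h2 : (0 : ℝ) < 2 ^ (J + 1) := by positivity
    have h3 : Z / 2 ^ J = 2 * (Z / 2 ^ (J + 1)) := by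
      rw [pow_succ]
      field_simp
    have h4 : 1 ≤ Z / 2 ^ J := by
      rw [h3]
      linarith
    rw [ih h4, Finset.sum_Icc_succ_top (by omega), h3, f1_step S hJ, f1_ro S (by positivity)]
    push_cast
    ring

theorem oc_le (S : Set ℤ) {Z : ℝ} (hZ : 1 ≤ Z) : (oc S Z : ℝ) ≤ Z := by
  have h1 : oc S Z ≤ (⌈Z⌉ - 1).toNat := by
    unfold oc
    have h2 : {N : ℤ | 1 ≤ N ∧ (N : ℝ) < Z ∧ Odd N ∧ N ∈ S} ⊆ ((Finset.Ico (1 : ℤ) ⌈Z⌉ : Finset ℤ) : Set ℤ) := by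
      rintro N ⟨h1, h2, _, _⟩
      rw [Finset.coe_Ico]
      exact ⟨h1, Int.lt_ceil.mpr h2⟩
    have h3 := Set.ncard_le_ncard h2 (Finset.finite_toSet _)
    rwa [Set.ncard_coe_finset, Int.card_Ico] at h3
  have h2 : ((⌈Z⌉ - 1).toNat : ℝ) ≤ Z := by
    have h3 : (1 : ℤ) ≤ ⌈Z⌉ := Int.one_le_ceil_iff.mpr (by linarith)
    have h4 : (((⌈Z⌉ - 1).toNat : ℤ) : ℝ) = ((⌈Z⌉ - 1 : ℤ) : ℝ) := by
      rw [Int.toNat_of_nonneg (by omega)]
    rw [Int.cast_natCast] at h4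
    rw [h4]
    push_cast
    linarith [Int.ceil_lt_add_one Z]
  exact (Nat.cast_le.mpr h1).trans h2

theorem ac_le (S : Set ℤ) {Z : ℝ} (hZ : 1 ≤ Z) : (ac S Z : ℝ) ≤ Z := by
  have h1 : ac S Z ≤ (⌈Z⌉ - 1).toNat := by
    unfold ac
    have h2 : {N : ℤ | 1 ≤ N ∧ (N : ℝ) < Z ∧ N ∈ S} ⊆ ((Finset.Ico (1 : ℤ) ⌈Z⌉ : Finset ℤ) : Set ℤ) := by
      rintro N ⟨h1, h2, _⟩
      rw [Finset.coe_Ico]
      exact ⟨h1, Int.lt_ceil.mpr h2⟩
    have h3 := Set.ncard_le_ncard h2 (Finset.finite_toSet _)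
    rwa [Set.ncard_coe_finset, Int.card_Ico] at h3
  have h2 : ((⌈Z⌉ - 1).toNat : ℝ) ≤ Z := by
    have h3 : (1 : ℤ) ≤ ⌈Z⌉ := Int.one_le_ceil_iff.mpr (by linarith)
    have h4 : (((⌈Z⌉ - 1).toNat : ℤ) : ℝ) = ((⌈Z⌉ - 1 : ℤ) : ℝ) := by
      rw [Int.toNat_of_nonneg (by omega)]
    rw [Int.cast_natCast] at h4
    rw [h4]
    push_cast
    linarith [Int.ceil_lt_add_one Z]
  exact (Nat.cast_le.mpr h1).trans h2

private theorem f1_geom (Z : ℝ) (J : ℕ) :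
    ∑ j ∈ Icc 1 J, (Z / 2 ^ j / 2) = (Z - Z / 2 ^ J) / 2 := by
  induction J with
  | zero => simp
  | succ J ih =>
    rw [Finset.sum_Icc_succ_top (by omega), ih, pow_succ]
    field_simp
    ring

/-- PROOF: for `ε > 0` let `|ro S 0 0 y - α| ≤ ε` for `y ≥ Y0 ≥ 1`. For `Z ≥ 2 Y0` let `J` be maximal with `Z/2^J ≥ Y0` (`Z/2^J < 2 Y0`). By `oc_windows`,
`|oc S Z - α Z/2| ≤ 2 Y0 + ε Z/2 + (α/2) Z/2^J ≤ 2 Y0 + ε Z/2 + α Y0`. (`∑_{j=1}^J Z/2^j/2 = (Z - Z/2^J)/2`.) -/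
theorem oc_tendsto {S : Set ℤ} {α : ℝ}
    (h : Tendsto (fun t : ℝ => ro S 0 0 (2 ^ t)) atTop (𝓝 α)) :
    Tendsto (fun Z : ℝ => (oc S Z : ℝ) / Z) atTop (𝓝 (α / 2)) := by
  rw [Metric.tendsto_atTop] at h ⊢
  intro ε hε
  obtain ⟨T, hT⟩ := h ε hε
  set Y : ℝ := max 1 ((2 : ℝ) ^ T) with hY
  have hY1 : 1 ≤ Y := le_max_left _ _
  have hro : ∀ y, Y ≤ y → |ro S 0 0 y - α| ≤ ε := by
    intro y hy
    have hy0 : 0 < y := by linarith
    have h1 : T ≤ Real.logb 2 y := by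
      rw [Real.le_logb_iff_rpow_le (by norm_num) hy0]
      exact (le_max_right _ _).trans hy
    have h2 := hT _ h1
    rw [Real.rpow_logb (by norm_num) (by norm_num) hy0, Real.dist_eq] at h2
    exact h2.le
  refine ⟨max Y (2 * (2 + |α|) * Y / ε + 1), fun Z hZ => ?_⟩
  have hZY : Y ≤ Z := (le_max_left _ _).trans hZ
  have hZ0 : 0 < Z := by linarith
  have hZ2 : 2 * (2 + |α|) * Y / ε + 1 ≤ Z := (le_max_right _ _).trans hZ
  obtain ⟨J, hJ1, hJ2⟩ := exists_nat_pow_near (x := Z / Y) (y := 2)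
    (by rw [le_div_iff₀ (by linarith)]; linarith) (by norm_num)
  have hp : (0 : ℝ) < 2 ^ J := by positivity
  have hJ3 : Y ≤ Z / 2 ^ J := by
    rw [le_div_iff₀ (by linarith)] at hJ1
    rw [le_div_iff₀ hp]
    linarith
  have hJ4 : Z / 2 ^ J ≤ 2 * Y := by
    rw [div_lt_iff₀ (by linarith), pow_succ] at hJ2
    rw [div_le_iff₀ hp]
    linarith
  have hw := oc_windows S hZ0 J (hY1.trans hJ3)
  have h5 : (oc S Z : ℝ) - α * Z / 2 = oc S (Z / 2 ^ J) +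
      ∑ j ∈ Icc 1 J, (ro S 0 0 (Z / 2 ^ j) - α) * (Z / 2 ^ j / 2) - α * (Z / 2 ^ J) / 2 := by
    have h6 : ∑ j ∈ Icc 1 J, (ro S 0 0 (Z / 2 ^ j) - α) * (Z / 2 ^ j / 2) =
        ∑ j ∈ Icc 1 J, ro S 0 0 (Z / 2 ^ j) * (Z / 2 ^ j / 2) - α * ((Z - Z / 2 ^ J) / 2) := by
      rw [← f1_geom Z J, Finset.mul_sum, ← Finset.sum_sub_distrib]
      refine Finset.sum_congr rfl fun j _ => ?_
      ring
    rw [hw, h6]
    ring
  have h7 : |∑ j ∈ Icc 1 J, (ro S 0 0 (Z / 2 ^ j) - α) * (Z / 2 ^ j / 2)| ≤ ε * (Z / 2) := by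
    calc |∑ j ∈ Icc 1 J, (ro S 0 0 (Z / 2 ^ j) - α) * (Z / 2 ^ j / 2)|
        ≤ ∑ j ∈ Icc 1 J, |(ro S 0 0 (Z / 2 ^ j) - α) * (Z / 2 ^ j / 2)| := Finset.abs_sum_le_sum_abs _ _
      _ ≤ ∑ j ∈ Icc 1 J, ε * (Z / 2 ^ j / 2) := by
          refine Finset.sum_le_sum fun j hj => ?_
          have hjJ : j ≤ J := (Finset.mem_Icc.mp hj).2
          have hpos : 0 ≤ Z / 2 ^ j / 2 := by positivity
          rw [abs_mul, abs_of_nonneg hpos]
          refine mul_le_mul_of_nonneg_right (hro _ (hJ3.trans ?_)) hpos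
          exact div_le_div_of_nonneg_left hZ0.le (by positivity)
            (pow_le_pow_right₀ (by norm_num) hjJ)
      _ = ε * ((Z - Z / 2 ^ J) / 2) := by rw [← Finset.mul_sum, f1_geom]
      _ ≤ ε * (Z / 2) := by
          refine mul_le_mul_of_nonneg_left ?_ hε.le
          have : 0 ≤ Z / 2 ^ J := by positivity
          linarith
  have h8 : (oc S (Z / 2 ^ J) : ℝ) ≤ 2 * Y := (oc_le S (hY1.trans hJ3)).trans hJ4
  have h9 : |α * (Z / 2 ^ J) / 2| ≤ |α| * Y := by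
    rw [abs_div, abs_mul, abs_of_pos (by positivity : (0 : ℝ) < Z / 2 ^ J), abs_two]
    have := mul_le_mul_of_nonneg_left hJ4 (abs_nonneg α)
    linarith
  have h10 : |(oc S Z : ℝ) - α * Z / 2| ≤ (2 + |α|) * Y + ε * (Z / 2) := by
    rw [h5]
    have h11 : |(oc S (Z / 2 ^ J) : ℝ)| ≤ 2 * Y := by
      rw [abs_of_nonneg (Nat.cast_nonneg _)]
      exact h8
    have h12 := abs_sub ((oc S (Z / 2 ^ J) : ℝ) +
      ∑ j ∈ Icc 1 J, (ro S 0 0 (Z / 2 ^ j) - α) * (Z / 2 ^ j / 2)) (α * (Z / 2 ^ J) / 2)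
    have h13 := abs_add_le (oc S (Z / 2 ^ J) : ℝ)
      (∑ j ∈ Icc 1 J, (ro S 0 0 (Z / 2 ^ j) - α) * (Z / 2 ^ j / 2))
    linarith
  rw [Real.dist_eq]
  have h14 : (oc S Z : ℝ) / Z - α / 2 = ((oc S Z : ℝ) - α * Z / 2) / Z := by
    field_simp
  rw [h14, abs_div, abs_of_pos hZ0, div_lt_iff₀ hZ0]
  have h15 : 2 * (2 + |α|) * Y < ε * Z := by
    have h16 : 2 * (2 + |α|) * Y / ε < Z := by linarith
    rw [div_lt_iff₀ hε] at h16
    linarith
  linarith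

end Pool.Agent.Lib.MP_d0d59f_nt.ND

end

section

/-! Row nd-P4 (about 150 lines): total variation distance of shifts. -/

namespace Pool.Agent.Lib.MP_d0d59f_nt.ND

open Finset AA

private theorem nb_nonneg_P4 (n l : ℕ) : 0 ≤ nb n l := by
  unfold nb
  positivity

theorem nbz_nonneg (n : ℕ) (z : ℤ) : 0 ≤ nbz n z := by
  unfold nbz
  split_ifs
  · exact nb_nonneg_P4 n _
  · exact le_refl 0

private theorem nbz_nat_P4 (n l : ℕ) : nbz n (l : ℤ) = nb n l := by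
  unfold nbz
  rw [if_pos (Int.natCast_nonneg l), Int.toNat_natCast]

private theorem nbz_neg_P4 (n : ℕ) {z : ℤ} (hz : z < 0) : nbz n z = 0 := by
  unfold nbz
  rw [if_neg (not_le.mpr hz)]

/-- `hasSum_nb` transported by the injection `ℕ → ℤ` (`Function.Injective.hasSum_iff`; outside the range `nbz` is zero). -/
theorem hasSum_nbz (n : ℕ) : HasSum (fun z : ℤ => nbz n z) 1 := by
  have hinj : Function.Injective (fun l : ℕ => (l : ℤ)) := Nat.cast_injective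
  have h0 : ∀ z : ℤ, z ∉ Set.range (fun l : ℕ => (l : ℤ)) → nbz n z = 0 := by
    intro z hz
    apply nbz_neg_P4
    by_contra hcon
    exact hz ⟨z.toNat, Int.toNat_of_nonneg (not_lt.mp hcon)⟩
  rw [← hinj.hasSum_iff h0]
  have h1 : (fun z : ℤ => nbz n z) ∘ (fun l : ℕ => (l : ℤ)) = fun l : ℕ => nb n l := by
    funext l
    exact nbz_nat_P4 n l
  rw [h1]
  exact hasSum_nb n

private theorem nbz_mono_P4 {n : ℕ} (hn : 1 ≤ n) {z : ℤ} (hz : z ≤ 2 * (n : ℤ) - 1) :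
    nbz n (z - 1) ≤ nbz n z := by
  rcases lt_or_ge (z - 1) 0 with h | h
  · rw [nbz_neg_P4 n h]
    exact nbz_nonneg n z
  · obtain ⟨l, hl⟩ := Int.eq_ofNat_of_zero_le h
    have h2 : z = ((l + 1 : ℕ) : ℤ) := by push_cast; omega
    rw [hl, h2, nbz_nat_P4, nbz_nat_P4]
    exact nb_incr (n := n) (l := l) hn (by omega)

private theorem nbz_anti_P4 {n : ℕ} (hn : 1 ≤ n) {z : ℤ} (hz : 2 * (n : ℤ) ≤ z) :
    nbz n z ≤ nbz n (z - 1) := by
  have h : 0 ≤ z - 1 := by omega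
  obtain ⟨l, hl⟩ := Int.eq_ofNat_of_zero_le h
  have h2 : z = ((l + 1 : ℕ) : ℤ) := by push_cast; omega
  rw [hl, h2, nbz_nat_P4, nbz_nat_P4]
  exact nb_decr (n := n) (l := l) hn (by omega) (by omega)

private theorem nbz_max_P4 {n : ℕ} (hn : 1 ≤ n) (z : ℤ) : nbz n z ≤ 2 / Real.sqrt n := by
  rcases lt_or_ge z 0 with h | h
  · rw [nbz_neg_P4 n h]
    positivity
  · obtain ⟨l, hl⟩ := Int.eq_ofNat_of_zero_le h
    rw [hl, nbz_nat_P4]
    exact nb_max hn l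

private theorem sum_tel_P4 (F : ℤ → ℝ) (a : ℤ) (k : ℕ) :
    ∑ z ∈ Ioc a (a + k), (F z - F (z - 1)) = F (a + k) - F a := by
  induction k with
  | zero => simp
  | succ k ih =>
    have h1 : Ioc a (a + ((k + 1 : ℕ) : ℤ)) = insert (a + ((k + 1 : ℕ) : ℤ)) (Ioc a (a + (k : ℤ))) := by
      ext z
      simp only [mem_Ioc, mem_insert]
      push_cast
      omega
    have h2 : a + ((k + 1 : ℕ) : ℤ) ∉ Ioc a (a + (k : ℤ)) := by
      simp only [mem_Ioc]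
      push_cast
      omega
    rw [h1, sum_insert h2, ih]
    have h3 : a + ((k + 1 : ℕ) : ℤ) - 1 = a + (k : ℤ) := by push_cast; ring
    rw [h3]
    ring

/-- The mode of `nbz n` is `2n-1`; this is the monotone primitive of the variation. -/
private noncomputable def prim_P4 (n : ℕ) (z : ℤ) : ℝ :=
  if z ≤ 2 * (n : ℤ) - 1 then nbz n z else 2 * nbz n (2 * (n : ℤ) - 1) - nbz n z

private theorem prim_sub_P4 {n : ℕ} (hn : 1 ≤ n) (z : ℤ) :
    prim_P4 n z - prim_P4 n (z - 1) = |nbz n z - nbz n (z - 1)| := by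
  unfold prim_P4
  rcases lt_trichotomy z (2 * (n : ℤ)) with h | h | h
  · have h1 : z ≤ 2 * (n : ℤ) - 1 := by omega
    have h2 : z - 1 ≤ 2 * (n : ℤ) - 1 := by omega
    rw [if_pos h1, if_pos h2, abs_of_nonneg (sub_nonneg.mpr (nbz_mono_P4 hn h1))]
  · have h1 : ¬ z ≤ 2 * (n : ℤ) - 1 := by omega
    have h2 : z - 1 ≤ 2 * (n : ℤ) - 1 := by omega
    rw [if_neg h1, if_pos h2,
      abs_of_nonpos (sub_nonpos.mpr (nbz_anti_P4 hn (by omega : 2 * (n : ℤ) ≤ z)))]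
    have h3 : z - 1 = 2 * (n : ℤ) - 1 := by omega
    rw [h3]
    ring
  · have h1 : ¬ z ≤ 2 * (n : ℤ) - 1 := by omega
    have h2 : ¬ z - 1 ≤ 2 * (n : ℤ) - 1 := by omega
    rw [if_neg h1, if_neg h2,
      abs_of_nonpos (sub_nonpos.mpr (nbz_anti_P4 hn (by omega : 2 * (n : ℤ) ≤ z)))]
    ring

private theorem prim_le_P4 {n : ℕ} (hn : 1 ≤ n) (z : ℤ) : prim_P4 n z ≤ 4 / Real.sqrt n := by
  have h1 := nbz_max_P4 hn z
  have h2 := nbz_max_P4 hn (2 * (n : ℤ) - 1)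
  have h3 := nbz_nonneg n z
  have h4 : (0 : ℝ) ≤ 2 / Real.sqrt n := by positivity
  have h5 : 4 / Real.sqrt n = 2 * (2 / Real.sqrt n) := by ring
  unfold prim_P4
  split_ifs
  · rw [h5]
    linarith
  · rw [h5]
    linarith

private theorem summable_nbz_P4 (n : ℕ) : Summable (fun z : ℤ => nbz n z) := (hasSum_nbz n).summable

private theorem summable_shift_P4 (n : ℕ) (i : ℤ) : Summable (fun z : ℤ => nbz n (z - i)) := by
  have h := (Equiv.subRight i).summable_iff (f := fun z : ℤ => nbz n z)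
  exact h.mpr (summable_nbz_P4 n)

private theorem summable_abs_P4 (n : ℕ) (i : ℤ) :
    Summable (fun z : ℤ => |nbz n z - nbz n (z - i)|) :=
  ((summable_nbz_P4 n).sub (summable_shift_P4 n i)).abs

/-- `∑_z |nbz n z - nbz n (z - 1)| = 2 max` for a unimodal sequence: for every finite range the sum of the positive parts is at most
`max nb n ≤ 2/√n` (telescoping up to the mode `2n-1`, `nb_incr`, `nb_decr`), the same for the negative parts. -/
theorem tv_one {n : ℕ} (hn : 1 ≤ n) :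
    ∑' z : ℤ, |nbz n z - nbz n (z - 1)| ≤ 4 / Real.sqrt n := by
  refine (summable_abs_P4 n 1).tsum_le_of_sum_le ?_
  intro s
  set k : ℕ := s.sup (fun z => z.natAbs) + 1 with hk
  have hsub : s ⊆ Ioc (-(k : ℤ)) (-(k : ℤ) + ((2 * k : ℕ) : ℤ)) := by
    intro z hz
    have h1 : z.natAbs ≤ s.sup (fun z => z.natAbs) := Finset.le_sup (f := fun z : ℤ => z.natAbs) hz
    have h2 : z.natAbs < k := by omega
    rw [mem_Ioc]
    push_cast
    omega
  calc ∑ z ∈ s, |nbz n z - nbz n (z - 1)|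
      ≤ ∑ z ∈ Ioc (-(k : ℤ)) (-(k : ℤ) + ((2 * k : ℕ) : ℤ)), |nbz n z - nbz n (z - 1)| :=
        sum_le_sum_of_subset_of_nonneg hsub (fun _ _ _ => abs_nonneg _)
    _ = ∑ z ∈ Ioc (-(k : ℤ)) (-(k : ℤ) + ((2 * k : ℕ) : ℤ)), (prim_P4 n z - prim_P4 n (z - 1)) :=
        sum_congr rfl (fun z _ => (prim_sub_P4 hn z).symm)
    _ = prim_P4 n (-(k : ℤ) + ((2 * k : ℕ) : ℤ)) - prim_P4 n (-(k : ℤ)) := sum_tel_P4 _ _ _
    _ ≤ 4 / Real.sqrt n := by
        have h1 := prim_le_P4 hn (-(k : ℤ) + ((2 * k : ℕ) : ℤ))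
        have h2 : 0 ≤ prim_P4 n (-(k : ℤ)) := by
          unfold prim_P4
          rw [if_pos (by omega)]
          exact nbz_nonneg n _
        linarith

private theorem tv_nat_P4 {n : ℕ} (hn : 1 ≤ n) (i : ℕ) :
    ∑' z : ℤ, |nbz n z - nbz n (z - (i : ℤ))| ≤ 4 * (i : ℝ) / Real.sqrt n := by
  induction i with
  | zero => simp
  | succ i ih =>
    have hs1 := summable_abs_P4 n (i : ℤ)
    have hs2 : Summable (fun z : ℤ => |nbz n (z - (i : ℤ)) - nbz n (z - (i : ℤ) - 1)|) := by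
      have h := (Equiv.subRight (i : ℤ)).summable_iff (f := fun z : ℤ => |nbz n z - nbz n (z - 1)|)
      exact h.mpr (summable_abs_P4 n 1)
    have he : ∑' z : ℤ, |nbz n (z - (i : ℤ)) - nbz n (z - (i : ℤ) - 1)| =
        ∑' z : ℤ, |nbz n z - nbz n (z - 1)| :=
      (Equiv.subRight (i : ℤ)).tsum_eq (fun z : ℤ => |nbz n z - nbz n (z - 1)|)
    have hle : ∑' z : ℤ, |nbz n z - nbz n (z - ((i + 1 : ℕ) : ℤ))| ≤
        ∑' z : ℤ, (|nbz n z - nbz n (z - (i : ℤ))| +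
          |nbz n (z - (i : ℤ)) - nbz n (z - (i : ℤ) - 1)|) := by
      refine Summable.tsum_le_tsum ?_ (summable_abs_P4 n _) (hs1.add hs2)
      intro z
      have h1 : z - ((i + 1 : ℕ) : ℤ) = z - (i : ℤ) - 1 := by push_cast; ring
      rw [h1]
      exact abs_sub_le _ _ _
    rw [hs1.tsum_add hs2, he] at hle
    have h1 := tv_one hn
    have h2 : 4 * ((i + 1 : ℕ) : ℝ) / Real.sqrt n = 4 * (i : ℝ) / Real.sqrt n + 4 / Real.sqrt n := by
      push_cast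
      ring
    rw [h2]
    linarith

/-- Triangle inequality and translation invariance (`Equiv.addRight`), for `i ≥ 0` and `i < 0`. -/
theorem tv_shift {n : ℕ} (hn : 1 ≤ n) (i : ℤ) :
    ∑' z : ℤ, |nbz n z - nbz n (z - i)| ≤ 4 * |(i : ℝ)| / Real.sqrt n := by
  rcases le_total 0 i with h | h
  · obtain ⟨j, hj⟩ := Int.eq_ofNat_of_zero_le h
    have h1 := tv_nat_P4 hn j
    rw [hj]
    have h2 : |(((j : ℕ) : ℤ) : ℝ)| = (j : ℝ) := by
      rw [Int.cast_natCast]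
      exact abs_of_nonneg (Nat.cast_nonneg j)
    rw [h2]
    exact h1
  · obtain ⟨j, hj⟩ := Int.eq_ofNat_of_zero_le (by omega : 0 ≤ -i)
    have hi : i = -(j : ℤ) := by omega
    have h1 := tv_nat_P4 hn j
    have he : ∑' z : ℤ, |nbz n z - nbz n (z - i)| =
        ∑' z : ℤ, |nbz n z - nbz n (z - (j : ℤ))| := by
      rw [← (Equiv.subRight (j : ℤ)).tsum_eq (fun z : ℤ => |nbz n z - nbz n (z - i)|)]
      apply tsum_congr
      intro z
      have h3 : z - (j : ℤ) - i = z := by omega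
      change |nbz n (z - (j : ℤ)) - nbz n (z - (j : ℤ) - i)| = _
      rw [h3, abs_sub_comm]
    rw [he]
    have h2 : |(i : ℝ)| = (j : ℝ) := by
      rw [hi]
      push_cast
      rw [abs_neg]
      exact abs_of_nonneg (Nat.cast_nonneg j)
    rw [h2]
    exact h1

end Pool.Agent.Lib.MP_d0d59f_nt.ND

end

section

/-! Row nd-F2 (about 130 lines): all integers. -/

namespace Pool.Agent.Lib.MP_d0d59f_nt.ND

open Finset AA Filter Topology

private theorem ac_fin_aux (S : Set ℤ) (Z : ℝ) :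
    {x : ℤ | 1 ≤ x ∧ (x : ℝ) < Z ∧ x ∈ S}.Finite :=
  (Set.finite_Icc (1 : ℤ) ⌈Z⌉).subset fun x hx =>
    ⟨hx.1, by exact_mod_cast hx.2.1.le.trans (Int.le_ceil Z)⟩

private theorem ac_mono_aux2 (S : Set ℤ) {Z Z' : ℝ} (h : Z ≤ Z') : ac S Z ≤ ac S Z' :=
  Set.ncard_le_ncard (fun _ hx => ⟨hx.1, lt_of_lt_of_le hx.2.1 h, hx.2.2⟩) (ac_fin_aux S Z')

/-- The even elements of `S` in `[1, Z)` are the `2x`, `1 ≤ x < Z/2`, `2x ∈ S`, and for `2x > b`: `2x ∈ S ↔ T d (2x) = x ∈ S`. So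
`ac S Z` and `oc S Z + ac S (Z/2)` differ by at most the number of `x` with `1 ≤ x ≤ b/2`. -/
theorem ac_step {d : ℤ} {b : ℝ} (hb : 0 ≤ b) {S : Set ℤ} (hS : Inv d b S) (Z : ℝ) :
    |(ac S Z : ℝ) - (oc S Z + ac S (Z / 2))| ≤ b + 1 := by
  classical
  have hT : ∀ x : ℤ, T d (2 * x) = x := by
    intro x
    simp [T]
  -- the even part
  have hE : ac S Z = oc S Z + ac {x | 2 * x ∈ S} (Z / 2) := by
    have hun : {x : ℤ | 1 ≤ x ∧ (x : ℝ) < Z ∧ x ∈ S} =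
        {N : ℤ | 1 ≤ N ∧ (N : ℝ) < Z ∧ Odd N ∧ N ∈ S} ∪
          (fun x : ℤ => 2 * x) '' {x : ℤ | 1 ≤ x ∧ (x : ℝ) < Z / 2 ∧ x ∈ {x | 2 * x ∈ S}} := by
      ext x
      constructor
      · rintro ⟨h1, h2, h3⟩
        rcases Int.even_or_odd' x with ⟨k, hk | hk⟩
        · right
          refine ⟨k, ⟨by omega, ?_, ?_⟩, hk.symm⟩
          · have : ((2 * k : ℤ) : ℝ) < Z := by rw [← hk]; exact h2
            push_cast at this
            linarith
          · rw [Set.mem_ofPred_eq, ← hk]; exact h3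
        · left
          exact ⟨h1, h2, ⟨k, hk⟩, h3⟩
      · rintro (⟨h1, h2, -, h4⟩ | ⟨k, ⟨h1, h2, h3⟩, rfl⟩)
        · exact ⟨h1, h2, h4⟩
        · refine ⟨?_, ?_, h3⟩
          · show (1 : ℤ) ≤ 2 * k
            omega
          · show ((2 * k : ℤ) : ℝ) < Z
            push_cast
            linarith
    have hdis : Disjoint {N : ℤ | 1 ≤ N ∧ (N : ℝ) < Z ∧ Odd N ∧ N ∈ S}
        ((fun x : ℤ => 2 * x) '' {x : ℤ | 1 ≤ x ∧ (x : ℝ) < Z / 2 ∧ x ∈ {x | 2 * x ∈ S}}) := by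
      rw [Set.disjoint_left]
      rintro _ ⟨-, -, ho, -⟩ ⟨k, -, rfl⟩
      exact (Int.not_even_iff_odd.mpr ho) ⟨k, by ring⟩
    have h1 : {N : ℤ | 1 ≤ N ∧ (N : ℝ) < Z ∧ Odd N ∧ N ∈ S}.Finite :=
      (ac_fin_aux S Z).subset fun x hx => ⟨hx.1, hx.2.1, hx.2.2.2⟩
    have h2 := (ac_fin_aux {x | 2 * x ∈ S} (Z / 2)).image fun x : ℤ => 2 * x
    unfold ac oc
    rw [hun, Set.ncard_union_eq hdis h1 h2, Set.ncard_image_of_injective _ (fun x y h => by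
      have h' : 2 * x = 2 * y := h
      omega)]
  -- comparison
  have hB : ((Finset.Icc (1 : ℤ) ⌊b / 2⌋).card : ℝ) ≤ b / 2 := by
    rw [Int.card_Icc]
    have h0 : 0 ≤ ⌊b / 2⌋ := Int.floor_nonneg.mpr (by linarith)
    have : (((⌊b / 2⌋ + 1 - 1).toNat : ℕ) : ℤ) = ⌊b / 2⌋ := by
      rw [Int.toNat_of_nonneg (by omega)]; ring
    have h2 : (((⌊b / 2⌋ + 1 - 1).toNat : ℕ) : ℝ) = (⌊b / 2⌋ : ℝ) := by exact_mod_cast this
    rw [h2]
    exact Int.floor_le _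
  have hiff : ∀ x : ℤ, 1 ≤ x → x ∉ Finset.Icc (1 : ℤ) ⌊b / 2⌋ → (2 * x ∈ S ↔ x ∈ S) := by
    intro x hx hx'
    have h1 : b / 2 < (x : ℝ) := by
      by_contra hle
      push Not at hle
      exact hx' (Finset.mem_Icc.mpr ⟨hx, Int.le_floor.mpr hle⟩)
    have h2 : b < |((2 * x : ℤ) : ℝ)| := by
      push_cast
      have := le_abs_self (2 * (x : ℝ))
      linarith
    have := hS (2 * x) h2
    rwa [hT] at this
  have hcmp : ∀ S₁ S₂ : Set ℤ, (∀ x : ℤ, 1 ≤ x → x ∉ Finset.Icc (1 : ℤ) ⌊b / 2⌋ → x ∈ S₁ → x ∈ S₂) →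
      (ac S₁ (Z / 2) : ℝ) ≤ ac S₂ (Z / 2) + b / 2 := by
    intro S₁ S₂ h
    have h1 : ac S₁ (Z / 2) ≤ ac S₂ (Z / 2) + (Finset.Icc (1 : ℤ) ⌊b / 2⌋).card := by
      unfold ac
      rw [← Set.ncard_coe_finset (Finset.Icc (1 : ℤ) ⌊b / 2⌋)]
      refine le_trans (Set.ncard_le_ncard ?_ ((ac_fin_aux S₂ (Z / 2)).union
        (Finset.finite_toSet _))) (Set.ncard_union_le _ _)
      intro x hx
      by_cases hx' : x ∈ Finset.Icc (1 : ℤ) ⌊b / 2⌋
      · exact Or.inr hx'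
      · exact Or.inl ⟨hx.1, hx.2.1, h x hx.1 hx' hx.2.2⟩
    have h2 : (ac S₁ (Z / 2) : ℝ) ≤ ac S₂ (Z / 2) + (Finset.Icc (1 : ℤ) ⌊b / 2⌋).card := by
      exact_mod_cast h1
    linarith
  have c1 := hcmp {x | 2 * x ∈ S} S fun x h1 h2 h3 => (hiff x h1 h2).mp h3
  have c2 := hcmp S {x | 2 * x ∈ S} fun x h1 h2 h3 => (hiff x h1 h2).mpr h3
  rw [hE]
  push_cast
  rw [abs_le]
  constructor <;> linarith

/-- PROOF: `u Z = |ac S Z - α Z|` satisfies `u Z ≤ |oc S Z - α Z/2| + u (Z/2) + b + 1`. Given `ε`, `|oc S Z - α Z/2| ≤ ε Z` for `Z ≥ Z0 ≥ 2`, so by induction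
`u Z ≤ 2 ε Z + (b + 1)(log₂ Z + 1) + K`, `K = sup_{Z ≤ Z0} u ≤ (1 + α) Z0`. Divide by `Z`. -/
theorem ac_tendsto {d : ℤ} {b : ℝ} (hb : 0 ≤ b) {S : Set ℤ} (hS : Inv d b S) {α : ℝ}
    (h : Tendsto (fun Z : ℝ => (oc S Z : ℝ) / Z) atTop (𝓝 (α / 2))) :
    Tendsto (fun Z : ℝ => (ac S Z : ℝ) / Z) atTop (𝓝 α) := by
  rw [Metric.tendsto_atTop]
  intro ε' hε'
  obtain ⟨ε, hε, hεε⟩ : ∃ ε : ℝ, 0 < ε ∧ 5 * ε < ε' := ⟨ε' / 6, by linarith, by linarith⟩
  obtain ⟨Z1, hZ1⟩ := Metric.tendsto_atTop.mp h ε hε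
  set Z0 : ℝ := max (max Z1 1) ((b + 1) / ε) with hZ0
  have hZ01 : Z1 ≤ Z0 := (le_max_left _ _).trans (le_max_left _ _)
  have hZ0one : 1 ≤ Z0 := (le_max_right Z1 1).trans (le_max_left _ _)
  have hZ0b : b + 1 ≤ ε * Z0 := by
    have := (le_max_right (max Z1 1) ((b + 1) / ε))
    rw [← hZ0, div_le_iff₀ hε] at this
    linarith
  set K : ℝ := (1 + |α|) * Z0 with hK
  have hK0 : 0 ≤ K := by positivity
  have hrec : ∀ n : ℕ, ∀ Z : ℝ, 0 < Z → Z ≤ 2 ^ n * Z0 → |(ac S Z : ℝ) - α * Z| ≤ 4 * ε * Z + K := by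
    intro n
    have hbase : ∀ Z : ℝ, 0 < Z → Z ≤ Z0 → |(ac S Z : ℝ) - α * Z| ≤ 4 * ε * Z + K := by
      intro Z hZ hle
      have h1 : (ac S Z : ℝ) ≤ Z0 := by
        have h2 : (ac S Z : ℝ) ≤ ac S Z0 := by exact_mod_cast ac_mono_aux2 S hle
        exact h2.trans (ac_le S hZ0one)
      have h3 : |(ac S Z : ℝ) - α * Z| ≤ |(ac S Z : ℝ)| + |α * Z| := abs_sub _ _
      have h4 : |(ac S Z : ℝ)| = ac S Z := abs_of_nonneg (by positivity)
      have h5 : |α * Z| ≤ |α| * Z0 := by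
        rw [abs_mul, abs_of_pos hZ]
        exact mul_le_mul_of_nonneg_left hle (abs_nonneg _)
      have h6 : 0 ≤ 4 * ε * Z := by positivity
      rw [hK]
      linarith
    induction n with
    | zero =>
      intro Z hZ hle
      rw [pow_zero, one_mul] at hle
      exact hbase Z hZ hle
    | succ n ih =>
      intro Z hZ hle
      by_cases hle' : Z ≤ Z0
      · exact hbase Z hZ hle'
      · push Not at hle'
        have h1 := ih (Z / 2) (by linarith) (by rw [pow_succ] at hle; linarith)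
        have h2 := ac_step hb hS Z
        have h3 := hZ1 Z (hZ01.trans hle'.le)
        rw [Real.dist_eq] at h3
        have h4 : |(oc S Z : ℝ) - α * Z / 2| ≤ ε * Z := by
          have e : (oc S Z : ℝ) - α * Z / 2 = ((oc S Z : ℝ) / Z - α / 2) * Z := by
            field_simp
          rw [e, abs_mul, abs_of_pos hZ]
          exact mul_le_mul_of_nonneg_right h3.le hZ.le
        have h5 : b + 1 ≤ ε * Z := hZ0b.trans (mul_le_mul_of_nonneg_left hle'.le hε.le)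
        rw [abs_le] at h1 h2 h4 ⊢
        constructor <;> linarith [h1.1, h1.2, h2.1, h2.2, h4.1, h4.2]
  refine ⟨max 1 (K / ε), fun Z hZ => ?_⟩
  have hZ1' : 1 ≤ Z := (le_max_left _ _).trans hZ
  have hZpos : 0 < Z := by linarith
  have hZK : K ≤ ε * Z := by
    have := (le_max_right 1 (K / ε)).trans hZ
    rw [div_le_iff₀ hε] at this
    linarith
  obtain ⟨n, hn⟩ := pow_unbounded_of_one_lt Z (by norm_num : (1 : ℝ) < 2)
  have hn' : Z ≤ 2 ^ n * Z0 := by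
    have : (2 : ℝ) ^ n * 1 ≤ 2 ^ n * Z0 := mul_le_mul_of_nonneg_left hZ0one (by positivity)
    linarith
  have hfin := hrec n Z hZpos hn'
  rw [Real.dist_eq]
  have e : (ac S Z : ℝ) / Z - α = ((ac S Z : ℝ) - α * Z) / Z := by
    field_simp
  rw [e, abs_div, abs_of_pos hZpos, div_lt_iff₀ hZpos]
  have : 5 * ε * Z < ε' * Z := mul_lt_mul_of_pos_right hεε hZpos
  linarith

end Pool.Agent.Lib.MP_d0d59f_nt.ND

end

section

/-! Row nd-P5 (about 150 lines): total variation distance, general case. -/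

namespace Pool.Agent.Lib.MP_d0d59f_nt.ND

open Finset AA

private theorem P5_nat (n l : ℕ) : nbz n (l : ℤ) = nb n l := by
  unfold nbz
  rw [if_pos (Int.natCast_nonneg l), Int.toNat_natCast]

private theorem P5_neg (n : ℕ) {z : ℤ} (hz : z < 0) : nbz n z = 0 := by
  unfold nbz
  rw [if_neg (not_le.mpr hz)]

private theorem P5_rec (n l : ℕ) : nb (n + 1) (l + 1) = (nb (n + 1) l + nb n l) / 2 := by
  rw [nb_succ, nb_succ, ← Finset.add_sum_Ioc_eq_sum_Icc (by omega : 1 ≤ l + 1)]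
  have h : ∑ x ∈ Ioc 1 (l + 1), (1 / 2 : ℝ) ^ x * nb n (l + 1 - x) =
      ∑ x ∈ Icc 1 l, (1 / 2 : ℝ) ^ (x + 1) * nb n (l - x) := by
    symm
    refine Finset.sum_bij (fun x _ => x + 1) ?_ ?_ ?_ ?_
    · intro x hx
      rw [Finset.mem_Icc] at hx
      rw [Finset.mem_Ioc]
      omega
    · intro x _ y _ h
      omega
    · intro y hy
      rw [Finset.mem_Ioc] at hy
      exact ⟨y - 1, by rw [Finset.mem_Icc]; omega, by omega⟩
    · intro x hx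
      rw [Finset.mem_Icc] at hx
      congr 2
      omega
  rw [h, add_comm, add_div, Finset.sum_div]
  congr 1
  · refine Finset.sum_congr rfl fun x _ => ?_
    rw [pow_succ]
    ring
  · simp
    ring

private theorem P5_recz (n : ℕ) (z : ℤ) :
    2 * nbz (n + 1) z = nbz (n + 1) (z - 1) + nbz n (z - 1) := by
  rcases lt_trichotomy z 0 with h | h | h
  · rw [P5_neg _ h, P5_neg _ (by omega : z - 1 < 0), P5_neg _ (by omega : z - 1 < 0)]
    norm_num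
  · subst h
    rw [P5_neg (n + 1) (by omega : (0 : ℤ) - 1 < 0), P5_neg n (by omega : (0 : ℤ) - 1 < 0)]
    have h1 : nbz (n + 1) 0 = 0 := by
      have h2 := P5_nat (n + 1) 0
      rw [nb_succ_zero] at h2
      exact h2
    rw [h1]
    norm_num
  · obtain ⟨l, hl⟩ := Int.eq_ofNat_of_zero_le (by omega : 0 ≤ z - 1)
    have h2 : z = ((l + 1 : ℕ) : ℤ) := by push_cast; omega
    rw [hl, h2, P5_nat, P5_nat, P5_nat, P5_rec]
    ring

private theorem P5_summable (n : ℕ) : Summable (fun z : ℤ => nbz n z) := (hasSum_nbz n).summable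

private theorem P5_summable_shift (n : ℕ) (i : ℤ) : Summable (fun z : ℤ => nbz n (z - i)) := by
  have h := (Equiv.subRight i).summable_iff (f := fun z : ℤ => nbz n z)
  exact h.mpr (P5_summable n)

private theorem P5_summable_abs (m n : ℕ) (i : ℤ) :
    Summable (fun z : ℤ => |nbz m z - nbz n (z - i)|) :=
  ((P5_summable m).sub (P5_summable_shift n i)).abs

private theorem P5_summable_abs0 (m n : ℕ) :
    Summable (fun z : ℤ => |nbz m z - nbz n z|) :=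
  ((P5_summable m).sub (P5_summable n)).abs

/-- `nbz (n+1) z = ∑_{a ≥ 1} 2^{-a} nbz n (z - a)` (`AA.nb_succ`; the terms `a > z` vanish), so
`∑_z |nbz (n+1) z - nbz n z| ≤ ∑_a 2^{-a} ∑_z |nbz n (z-a) - nbz n z| ≤ ∑_a 2^{-a} 4a/√n = 8/√n`.
Another way, without series in `a`: `2 nbz (n+1) z = nbz (n+1) (z-1) + nbz n (z-1)` for all `z`, so with `D z = nbz (n+1) z - nbz n z`:
`2 D z = D (z-1) + 2 (nbz n (z-1) - nbz n z)`, and `2 ‖D‖ ≤ ‖D‖ + 2·4/√n` in the `ℓ¹` norm. -/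
theorem tv_succ {n : ℕ} (hn : 1 ≤ n) :
    ∑' z : ℤ, |nbz (n + 1) z - nbz n z| ≤ 8 / Real.sqrt n := by
  have hD := P5_summable_abs0 (n + 1) n
  have hD1 : Summable (fun z : ℤ => |nbz (n + 1) (z - 1) - nbz n (z - 1)|) := by
    have h := (Equiv.subRight (1 : ℤ)).summable_iff (f := fun z : ℤ => |nbz (n + 1) z - nbz n z|)
    exact h.mpr hD
  have hT := P5_summable_abs n n 1
  have he : ∑' z : ℤ, |nbz (n + 1) (z - 1) - nbz n (z - 1)| =
      ∑' z : ℤ, |nbz (n + 1) z - nbz n z| :=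
    (Equiv.subRight (1 : ℤ)).tsum_eq (fun z : ℤ => |nbz (n + 1) z - nbz n z|)
  have hle : ∑' z : ℤ, 2 * |nbz (n + 1) z - nbz n z| ≤
      ∑' z : ℤ, (|nbz (n + 1) (z - 1) - nbz n (z - 1)| + 2 * |nbz n z - nbz n (z - 1)|) := by
    refine Summable.tsum_le_tsum ?_ (hD.mul_left 2) (hD1.add (hT.mul_left 2))
    intro z
    have h1 := P5_recz n z
    have h2 : 2 * |nbz (n + 1) z - nbz n z| = |2 * nbz (n + 1) z - 2 * nbz n z| := by
      rw [← mul_sub, abs_mul, abs_of_pos (by norm_num : (0 : ℝ) < 2)]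
    have h3 : 2 * |nbz n z - nbz n (z - 1)| = |2 * nbz n z - 2 * nbz n (z - 1)| := by
      rw [← mul_sub, abs_mul, abs_of_pos (by norm_num : (0 : ℝ) < 2)]
    rw [h2, h3, h1]
    have h4 : nbz (n + 1) (z - 1) + nbz n (z - 1) - 2 * nbz n z =
        (nbz (n + 1) (z - 1) - nbz n (z - 1)) - (2 * nbz n z - 2 * nbz n (z - 1)) := by ring
    rw [h4]
    exact abs_sub _ _
  rw [tsum_mul_left, hD1.tsum_add (hT.mul_left 2), he, tsum_mul_left] at hle
  have h5 := tv_one hn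
  have h6 : 8 / Real.sqrt n = 2 * (4 / Real.sqrt n) := by ring
  rw [h6]
  linarith

/-- Triangle inequality: `tv_succ` for `n, ..., n+j-1` and `tv_shift`. -/
theorem tv_main {n : ℕ} (hn : 1 ≤ n) (j : ℕ) (i : ℤ) :
    ∑' z : ℤ, |nbz (n + j) z - nbz n (z - i)| ≤ (4 * |(i : ℝ)| + 8 * j) / Real.sqrt n := by
  induction j with
  | zero =>
    have h := tv_shift hn i
    simpa using h
  | succ j ih =>
    have hle : ∑' z : ℤ, |nbz (n + (j + 1)) z - nbz n (z - i)| ≤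
        ∑' z : ℤ, (|nbz (n + j + 1) z - nbz (n + j) z| + |nbz (n + j) z - nbz n (z - i)|) := by
      refine Summable.tsum_le_tsum ?_ (P5_summable_abs _ _ _)
        ((P5_summable_abs0 _ _).add (P5_summable_abs _ _ _))
      intro z
      exact abs_sub_le _ _ _
    rw [(P5_summable_abs0 _ _).tsum_add (P5_summable_abs _ _ _)] at hle
    have h1 := tv_succ (show 1 ≤ n + j by omega)
    have hn0 : (0 : ℝ) < Real.sqrt n := Real.sqrt_pos.mpr (by exact_mod_cast hn)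
    have h2 : 8 / Real.sqrt ((n + j : ℕ) : ℝ) ≤ 8 / Real.sqrt n := by
      apply div_le_div_of_nonneg_left (by norm_num) hn0
      apply Real.sqrt_le_sqrt
      exact_mod_cast Nat.le_add_right n j
    have h3 : (4 * |(i : ℝ)| + 8 * ((j + 1 : ℕ) : ℝ)) / Real.sqrt n =
        (4 * |(i : ℝ)| + 8 * (j : ℝ)) / Real.sqrt n + 8 / Real.sqrt n := by
      push_cast
      ring
    rw [h3]
    linarith

end Pool.Agent.Lib.MP_d0d59f_nt.ND

end

section

/-! Row nd-F3 (about 130 lines): the upper bound in the case of density zero. -/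

namespace Pool.Agent.Lib.MP_d0d59f_nt.ND

open Finset AA Filter Topology

/-- `(log Z)^A ≤ 2^A A! √Z`. -/
private theorem f3_log {Z : ℝ} (hZ : 1 ≤ Z) (A : ℕ) :
    (Real.log Z) ^ A ≤ 2 ^ A * (A.factorial : ℝ) * Real.sqrt Z := by
  have hl : 0 ≤ Real.log Z := Real.log_nonneg hZ
  have h1 := Real.pow_div_factorial_le_exp (Real.log Z / 2) (by positivity) A
  have h2 : Real.exp (Real.log Z / 2) = Real.sqrt Z := by
    rw [Real.exp_half, Real.exp_log (by linarith)]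
  rw [h2, div_pow, div_div, div_le_iff₀ (by positivity)] at h1
  linarith

/-- `√Z ≤ 2^A A! Z/(log Z)^A`. -/
private theorem f3_sqrt {Z : ℝ} (hZ : 2 ≤ Z) (A : ℕ) :
    Real.sqrt Z ≤ 2 ^ A * (A.factorial : ℝ) * Z / (Real.log Z) ^ A := by
  have hl : 0 < Real.log Z := Real.log_pos (by linarith)
  rw [le_div_iff₀ (by positivity)]
  have h1 := f3_log (by linarith : 1 ≤ Z) A
  have h2 : Real.sqrt Z * Real.sqrt Z = Z := Real.mul_self_sqrt (by linarith)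
  calc Real.sqrt Z * Real.log Z ^ A ≤ Real.sqrt Z * (2 ^ A * (A.factorial : ℝ) * Real.sqrt Z) :=
        mul_le_mul_of_nonneg_left h1 (Real.sqrt_nonneg _)
    _ = 2 ^ A * (A.factorial : ℝ) * (Real.sqrt Z * Real.sqrt Z) := by ring
    _ = 2 ^ A * (A.factorial : ℝ) * Z := by rw [h2]

private theorem f3_geom (Z : ℝ) (J : ℕ) :
    ∑ j ∈ Icc 1 J, (Z / 2 ^ j / 2) = (Z - Z / 2 ^ J) / 2 := by
  induction J with
  | zero => simp
  | succ J ih =>
    rw [Finset.sum_Icc_succ_top (by omega), ih, pow_succ]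
    field_simp
    ring

private theorem f3_geom' (Z : ℝ) (J : ℕ) :
    ∑ j ∈ range J, Z / 2 ^ j = 2 * (Z - Z / 2 ^ J) := by
  induction J with
  | zero => simp
  | succ J ih =>
    rw [Finset.sum_range_succ, ih, pow_succ]
    field_simp
    ring

/-- the cut at `√Z` -/
private theorem f3_cut {Z : ℝ} (hZ : 2 ≤ Z) : ∃ J : ℕ, (2 : ℝ) ^ J ≤ Real.sqrt Z ∧
    Real.sqrt Z ≤ Z / 2 ^ J ∧ Z / 2 ^ J ≤ 2 * Real.sqrt Z := by
  have hZ0 : 0 < Z := by linarith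
  have hs : 1 ≤ Real.sqrt Z := by
    rw [Real.one_le_sqrt]
    linarith
  have hss : Real.sqrt Z * Real.sqrt Z = Z := Real.mul_self_sqrt hZ0.le
  obtain ⟨J, hJ1, hJ2⟩ := exists_nat_pow_near hs (by norm_num : (1 : ℝ) < 2)
  have hp : (0 : ℝ) < 2 ^ J := by positivity
  refine ⟨J, hJ1, ?_, ?_⟩
  · rw [le_div_iff₀ hp]
    nlinarith
  · rw [div_le_iff₀ hp]
    rw [pow_succ] at hJ2
    nlinarith

/-- PROOF: `oc_windows` with `J` such that `√Z/2 < Z/2^J.. ≤ √Z` (`J ≈ (log₂ Z)/2`): for `j ≤ J`, `Z/2^j ≥ √Z/2` and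
`ro S 0 0 (Z/2^j) ≤ 1/(log₂ (Z/2^j))^A ≤ (3/log₂ Z)^A` for `Z` large; `∑ Z/2^j ≤ Z`; `oc S (Z/2^J) ≤ √Z ≤ C Z/(log Z)^A`. For bounded `Z` use `oc ≤ Z`. -/
theorem oc_small {S : Set ℤ} (A : ℕ) {T6 : ℝ} (h : ∀ t, T6 ≤ t → ro S 0 0 (2 ^ t) ≤ 1 / t ^ A) :
    ∃ C : ℝ, 0 ≤ C ∧ ∀ Z : ℝ, 2 ≤ Z → (oc S Z : ℝ) ≤ C * Z / (Real.log Z) ^ A := by
  set t0 : ℝ := max T6 1 with ht0
  have ht1 : 1 ≤ t0 := le_max_right _ _
  set B : ℝ := (2 * t0) ^ A with hB
  have hB0 : 0 ≤ B := by positivity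
  refine ⟨B + 2 * (2 ^ A * (A.factorial : ℝ)) + 2 ^ A, by positivity, fun Z hZ => ?_⟩
  have hZ0 : 0 < Z := by linarith
  have hl : 0 < Real.log Z := Real.log_pos (by linarith)
  have hlA : 0 < Real.log Z ^ A := by positivity
  have hlog2 : 0 < Real.log 2 := Real.log_pos (by norm_num)
  have hlog2' : Real.log 2 ≤ 1 := by
    have := Real.log_two_lt_d9
    linarith
  have hlb : Real.log Z ≤ Real.logb 2 Z := by
    unfold Real.logb
    rw [le_div_iff₀ hlog2]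
    nlinarith
  by_cases hc : Real.logb 2 Z < 2 * t0
  · have h1 : (oc S Z : ℝ) ≤ Z := oc_le S (by linarith)
    have h2 : Real.log Z ^ A ≤ B := pow_le_pow_left₀ hl.le (hlb.trans hc.le) A
    rw [le_div_iff₀ hlA]
    have h3 : (oc S Z : ℝ) * Real.log Z ^ A ≤ Z * B := mul_le_mul h1 h2 hlA.le hZ0.le
    have h4 : 0 ≤ (2 * (2 ^ A * (A.factorial : ℝ)) + 2 ^ A) * Z := by positivity
    nlinarith
  · rw [not_lt] at hc
    obtain ⟨J, hJ1, hJ2, hJ3⟩ := f3_cut hZ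
    have hs1 : 1 ≤ Real.sqrt Z := by
      rw [Real.one_le_sqrt]
      linarith
    have hs0 : 0 < Real.sqrt Z := by linarith
    have hlogs : Real.logb 2 (Real.sqrt Z) = Real.logb 2 Z / 2 := by
      unfold Real.logb
      rw [Real.log_sqrt hZ0.le]
      ring
    have hro : ∀ j ∈ Icc 1 J, ro S 0 0 (Z / 2 ^ j) ≤ 2 ^ A / Real.log Z ^ A := by
      intro j hj
      have hjJ : j ≤ J := (Finset.mem_Icc.mp hj).2
      have hy : Real.sqrt Z ≤ Z / 2 ^ j := hJ2.trans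
        (div_le_div_of_nonneg_left hZ0.le (by positivity) (pow_le_pow_right₀ (by norm_num) hjJ))
      have hy0 : 0 < Z / 2 ^ j := by positivity
      have h1 : Real.logb 2 Z / 2 ≤ Real.logb 2 (Z / 2 ^ j) := by
        rw [← hlogs]
        exact Real.logb_le_logb_of_le (by norm_num) hs0 hy
      have h2 := h (Real.logb 2 (Z / 2 ^ j)) (by
        have : T6 ≤ t0 := le_max_left _ _
        linarith)
      rw [Real.rpow_logb (by norm_num) (by norm_num) hy0] at h2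
      refine h2.trans ?_
      have h3 : Real.log Z / 2 ≤ Real.logb 2 (Z / 2 ^ j) := by linarith
      have h4 : (Real.log Z / 2) ^ A ≤ Real.logb 2 (Z / 2 ^ j) ^ A :=
        pow_le_pow_left₀ (by positivity) h3 A
      calc 1 / Real.logb 2 (Z / 2 ^ j) ^ A ≤ 1 / (Real.log Z / 2) ^ A :=
            one_div_le_one_div_of_le (by positivity) h4
        _ = 2 ^ A / Real.log Z ^ A := by
            rw [div_pow]
            field_simp
    have hw := oc_windows S hZ0 J (hs1.trans hJ2)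
    have h5 : ∑ j ∈ Icc 1 J, ro S 0 0 (Z / 2 ^ j) * (Z / 2 ^ j / 2) ≤ 2 ^ A * Z / Real.log Z ^ A := by
      calc ∑ j ∈ Icc 1 J, ro S 0 0 (Z / 2 ^ j) * (Z / 2 ^ j / 2)
          ≤ ∑ j ∈ Icc 1 J, 2 ^ A / Real.log Z ^ A * (Z / 2 ^ j / 2) :=
            Finset.sum_le_sum fun j hj => mul_le_mul_of_nonneg_right (hro j hj) (by positivity)
        _ = 2 ^ A / Real.log Z ^ A * ((Z - Z / 2 ^ J) / 2) := by
            rw [← Finset.mul_sum, f3_geom]
        _ ≤ 2 ^ A / Real.log Z ^ A * Z := by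
            refine mul_le_mul_of_nonneg_left ?_ (by positivity)
            have : 0 ≤ Z / 2 ^ J := by positivity
            linarith
        _ = 2 ^ A * Z / Real.log Z ^ A := by ring
    have h6 : (oc S (Z / 2 ^ J) : ℝ) ≤ 2 * Real.sqrt Z := (oc_le S (hs1.trans hJ2)).trans hJ3
    have h7 := f3_sqrt hZ A
    have h8 : (oc S Z : ℝ) ≤ 2 * (2 ^ A * (A.factorial : ℝ) * Z / Real.log Z ^ A) +
        2 ^ A * Z / Real.log Z ^ A := by
      rw [hw]
      linarith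
    have h9 : (B + 2 * (2 ^ A * (A.factorial : ℝ)) + 2 ^ A) * Z / Real.log Z ^ A =
        B * Z / Real.log Z ^ A + (2 * (2 ^ A * (A.factorial : ℝ) * Z / Real.log Z ^ A) +
        2 ^ A * Z / Real.log Z ^ A) := by ring
    have h10 : 0 ≤ B * Z / Real.log Z ^ A := by positivity
    rw [h9]
    linarith

private theorem f3_iter {d : ℤ} {b : ℝ} (hb : 0 ≤ b) {S : Set ℤ} (hS : Inv d b S) (Z : ℝ) (V : ℕ) :
    (ac S Z : ℝ) ≤ ∑ v ∈ range V, ((oc S (Z / 2 ^ v) : ℝ) + (b + 1)) + ac S (Z / 2 ^ V) := by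
  induction V with
  | zero => simp
  | succ V ih =>
    have h1 := ac_step hb hS (Z / 2 ^ V)
    rw [abs_le] at h1
    have h2 : Z / 2 ^ V / 2 = Z / 2 ^ (V + 1) := by
      rw [pow_succ, div_div]
    rw [h2] at h1
    rw [Finset.sum_range_succ]
    linarith [h1.2]

/-- PROOF: `ac_step` and induction: `ac S Z ≤ ∑_{v ≤ V} (oc S (Z/2^v) + b + 1) + ac S (Z/2^(V+1))`, with `V` such that `Z/2^V ≥ √Z > Z/2^(V+1)`
(`V ≤ log₂ Z`); `log (Z/2^v) ≥ (log Z)/2`. -/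
theorem ac_small {d : ℤ} {b : ℝ} (hb : 0 ≤ b) {S : Set ℤ} (hS : Inv d b S) (A : ℕ)
    (h : ∃ C : ℝ, 0 ≤ C ∧ ∀ Z : ℝ, 2 ≤ Z → (oc S Z : ℝ) ≤ C * Z / (Real.log Z) ^ A) :
    ∃ C : ℝ, 0 ≤ C ∧ ∀ Z : ℝ, 2 ≤ Z → (ac S Z : ℝ) ≤ C * Z / (Real.log Z) ^ A := by
  obtain ⟨C, hC, h⟩ := h
  refine ⟨2 * C * 2 ^ A + (b + 3) * (2 ^ A * (A.factorial : ℝ)), by positivity, fun Z hZ => ?_⟩
  have hZ0 : 0 < Z := by linarith
  have hl : 0 < Real.log Z := Real.log_pos (by linarith)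
  have hlA : 0 < Real.log Z ^ A := by positivity
  obtain ⟨V, hV1, hV2, hV3⟩ := f3_cut hZ
  have hs1 : 1 ≤ Real.sqrt Z := by
    rw [Real.one_le_sqrt]
    linarith
  have hs0 : 0 < Real.sqrt Z := by linarith
  have h1 := f3_iter hb hS Z V
  have h2 : ∀ v ∈ range V, ((oc S (Z / 2 ^ v) : ℝ) + (b + 1)) ≤
      C * 2 ^ A / Real.log Z ^ A * (Z / 2 ^ v) + (b + 1) := by
    intro v hv
    have hvV : v + 1 ≤ V := Finset.mem_range.mp hv
    have hy : 2 * Real.sqrt Z ≤ Z / 2 ^ v := by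
      have h3 : Z / 2 ^ V ≤ Z / 2 ^ (v + 1) :=
        div_le_div_of_nonneg_left hZ0.le (by positivity) (pow_le_pow_right₀ (by norm_num) hvV)
      have h4 : Z / 2 ^ v = 2 * (Z / 2 ^ (v + 1)) := by
        rw [pow_succ]
        field_simp
      rw [h4]
      linarith
    have hy0 : 0 < Z / 2 ^ v := by positivity
    have h3 := h (Z / 2 ^ v) (by linarith)
    have h4 : Real.log Z / 2 ≤ Real.log (Z / 2 ^ v) := by
      rw [← Real.log_sqrt hZ0.le]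
      exact Real.log_le_log hs0 (by linarith)
    have h5 : (Real.log Z / 2) ^ A ≤ Real.log (Z / 2 ^ v) ^ A :=
      pow_le_pow_left₀ (by positivity) h4 A
    have h6 : C * (Z / 2 ^ v) / Real.log (Z / 2 ^ v) ^ A ≤ C * (Z / 2 ^ v) / (Real.log Z / 2) ^ A :=
      div_le_div_of_nonneg_left (by positivity) (by positivity) h5
    have h7 : C * (Z / 2 ^ v) / (Real.log Z / 2) ^ A = C * 2 ^ A / Real.log Z ^ A * (Z / 2 ^ v) := by
      rw [div_pow]
      field_simp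
    linarith
  have h3 : ∑ v ∈ range V, ((oc S (Z / 2 ^ v) : ℝ) + (b + 1)) ≤
      C * 2 ^ A / Real.log Z ^ A * (2 * (Z - Z / 2 ^ V)) + V * (b + 1) := by
    refine (Finset.sum_le_sum h2).trans ?_
    rw [Finset.sum_add_distrib, ← Finset.mul_sum, f3_geom', Finset.sum_const, Finset.card_range,
      nsmul_eq_mul]
  have hV : (V : ℝ) ≤ Real.sqrt Z := by
    have h4 : (V : ℝ) ≤ 2 ^ V := by
      exact_mod_cast (Nat.lt_two_pow_self (n := V)).le
    linarith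
  have h4 : (V : ℝ) * (b + 1) ≤ Real.sqrt Z * (b + 1) := mul_le_mul_of_nonneg_right hV (by linarith)
  have h5 : (ac S (Z / 2 ^ V) : ℝ) ≤ 2 * Real.sqrt Z := (ac_le S (hs1.trans hV2)).trans hV3
  have h6 : C * 2 ^ A / Real.log Z ^ A * (2 * (Z - Z / 2 ^ V)) ≤
      C * 2 ^ A / Real.log Z ^ A * (2 * Z) := by
    refine mul_le_mul_of_nonneg_left ?_ (by positivity)
    have : 0 ≤ Z / 2 ^ V := by positivity
    linarith
  have h7 := mul_le_mul_of_nonneg_left (f3_sqrt hZ A) (by linarith : 0 ≤ b + 3)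
  have h8 : (2 * C * 2 ^ A + (b + 3) * (2 ^ A * (A.factorial : ℝ))) * Z / Real.log Z ^ A =
      C * 2 ^ A / Real.log Z ^ A * (2 * Z) +
        (b + 3) * (2 ^ A * (A.factorial : ℝ) * Z / Real.log Z ^ A) := by ring
  rw [h8]
  have h9 : (b + 3) * Real.sqrt Z = Real.sqrt Z * (b + 1) + 2 * Real.sqrt Z := by ring
  linarith

end Pool.Agent.Lib.MP_d0d59f_nt.ND

end

section

/-! Number of integers of which exactly one translate is in an invariant set. -/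

namespace Pool.Agent.Lib.MP_d0d59f_nt.ND

open Finset AA Filter Topology

/-- Number of `x ∈ [1, Z)` with exactly one of `x`, `x + g` in `S`. -/
noncomputable def xc (S : Set ℤ) (g : ℤ) (Z : ℝ) : ℕ :=
  Set.ncard {x : ℤ | 1 ≤ x ∧ (x : ℝ) < Z ∧ ¬ (x ∈ S ↔ x + g ∈ S)}

theorem fin_one (Z : ℝ) (P : ℤ → Prop) : {x : ℤ | 1 ≤ x ∧ (x : ℝ) < Z ∧ P x}.Finite := by
  refine (Set.finite_Icc (1 : ℤ) ⌈Z⌉).subset ?_
  rintro x ⟨hx1, hx2, _⟩
  exact ⟨hx1, by exact_mod_cast hx2.le.trans (Int.le_ceil Z)⟩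

/-- An orbit stays above `b` for `m` steps if it starts high. -/
theorem iter_inv {d : ℤ} (hd : Odd d) {b : ℝ} (hb : 0 ≤ b) {S : Set ℤ} (hS : Inv d b S) {N : ℤ} {m : ℕ}
    (hN : (b + |(d : ℝ)|) * 2 ^ m < N) (j : ℕ) : j ≤ m → (N ∈ S ↔ (T d)^[j] N ∈ S) := by
  have hd0 : 0 ≤ |(d : ℝ)| := abs_nonneg _
  induction j with
  | zero => simp
  | succ j ih =>
    intro hj
    rw [ih (by omega), Function.iterate_succ_apply']
    refine (hS _ ?_)
    have h2j : (0 : ℝ) < 2 ^ j := by positivity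
    have hpow : (2 : ℝ) ^ j ≤ 2 ^ m := pow_le_pow_right₀ (by norm_num) (by omega)
    have h1 : (b + |(d : ℝ)|) * 2 ^ j < N :=
      lt_of_le_of_lt (mul_le_mul_of_nonneg_left hpow (by linarith)) hN
    have h2 : |(d : ℝ)| * 2 ^ j ≤ N := by
      have : 0 ≤ b * 2 ^ j := mul_nonneg hb h2j.le
      linarith
    have h3 := iter_lower hd N j h2
    have h4 : b + |(d : ℝ)| < (N : ℝ) / 2 ^ j := by
      rw [lt_div_iff₀ h2j]
      exact h1
    exact lt_of_lt_of_le (by linarith) (le_abs_self _)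

end Pool.Agent.Lib.MP_d0d59f_nt.ND

end

section

/-! Total variation distance of an invariant set to the uniform distribution modulo `q`: counting
functions. -/

namespace Pool.Agent.Lib.MP_d0d59f_nt.ND

open Finset AA Filter Topology

theorem ac_eq_nz (S : Set ℤ) {q : ℕ} (Z : ℝ) (A : Finset ℤ)
    (hA : ∀ x, x ∈ A ↔ 1 ≤ x ∧ (x : ℝ) < Z ∧ x ∈ S) (c : ℤ) :
    ac (cl S q c) Z = nz (q := q) A (c : ZMod q) := by
  classical
  unfold ac nz cl
  rw [← Set.ncard_coe_finset]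
  congr 1
  ext x
  simp only [Finset.coe_filter, Set.mem_ofPred_eq, hA]
  rw [ZMod.intCast_eq_intCast_iff]
  tauto

theorem tv_ac (S : Set ℤ) {d : ℤ} {q : ℕ} (hq : 0 < q) (hqd : IsCoprime (q : ℤ) d) (Z : ℝ) :
    ∑ c ∈ range q, |(ac (cl S q c) Z : ℝ) - (ac S Z : ℝ) / q| ≤
      (∑ h ∈ range q, ((xc S (d * h) Z : ℝ) + 4 * |(d : ℝ)| * h)) / q := by
  classical
  have : NeZero q := ⟨hq.ne'⟩
  obtain ⟨A, hA⟩ : ∃ A : Finset ℤ, ∀ x, x ∈ A ↔ 1 ≤ x ∧ (x : ℝ) < Z ∧ x ∈ S :=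
    ⟨(fin_one Z (fun x => x ∈ S)).toFinset, fun x => by simp⟩
  have hAc : ac S Z = A.card := by
    unfold ac
    rw [← Set.ncard_coe_finset]
    congr 1
    ext x
    simp only [Set.mem_ofPred_eq, Finset.mem_coe, hA]
  have key := nz_tv (q := q) A hqd (fun h => (xc S (d * h) Z : ℝ) + 4 * |(d : ℝ)| * h) ?_
  · refine le_trans (le_of_eq ?_) key
    have e1 : ∀ c : ℕ, |(ac (cl S q c) Z : ℝ) - (ac S Z : ℝ) / q| =
        |(nz (q := q) A (c : ZMod q) : ℝ) - (A.card : ℝ) / q| := by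
      intro c
      rw [ac_eq_nz S Z A hA c, hAc]
      simp
    rw [Finset.sum_congr rfl fun c _ => e1 c]
    obtain ⟨k, rfl⟩ : ∃ k, q = k + 1 := ⟨q - 1, by omega⟩
    rw [← Fin.sum_univ_eq_sum_range
      (fun c => |(nz (q := k + 1) A (c : ZMod (k + 1)) : ℝ) - (A.card : ℝ) / ((k + 1 : ℕ) : ℝ)|) (k + 1)]
    refine Finset.sum_congr rfl fun i _ => ?_
    have : ((i : ℕ) : ZMod (k + 1)) = i := Fin.cast_val_eq_self i
    rw [this]
  · intro h _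
    obtain ⟨g, hg⟩ : ∃ g : ℤ, g = d * h := ⟨_, rfl⟩
    obtain ⟨B, hB⟩ : ∃ B : Finset ℤ, ∀ x, x ∈ B ↔ 1 ≤ x ∧ (x : ℝ) < Z ∧ x + g ∈ S :=
      ⟨(fin_one Z (fun x => x + g ∈ S)).toFinset, fun x => by simp⟩
    have h1 := nz_shift_sum (q := q) A B g
    rw [← hg]
    refine h1.trans (add_le_add ?_ ?_)
    · have : (symmDiff A B).card = xc S g Z := by
        unfold xc
        rw [← Set.ncard_coe_finset]
        congr 1
        ext x
        simp only [Set.mem_ofPred_eq, Finset.mem_coe, Finset.mem_symmDiff, hA, hB]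
        tauto
      rw [this]
    · have hsub : symmDiff (B.image (fun x => x + g)) A ⊆
          Finset.Ico (1 - |g|) (1 + |g|) ∪ Finset.Ico (⌈Z⌉ - |g|) (⌈Z⌉ + |g|) := by
        intro y hy
        rw [Finset.mem_symmDiff, Finset.mem_image, hA] at hy
        rw [Finset.mem_union, Finset.mem_Ico, Finset.mem_Ico]
        have g1 := le_abs_self g
        have g2 := neg_abs_le g
        rcases hy with ⟨⟨x, hx, rfl⟩, hy2⟩ | ⟨⟨y1, y2, y3⟩, hy2⟩
        · rw [hB] at hx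
          obtain ⟨x1, x2, x3⟩ := hx
          have x2' : x < ⌈Z⌉ := Int.lt_ceil.2 x2
          by_cases h2 : 1 ≤ x + g
          · right
            have h3 : ⌈Z⌉ ≤ x + g := by
              by_contra hcon
              push Not at hcon
              exact hy2 ⟨h2, Int.lt_ceil.1 hcon, x3⟩
            omega
          · left
            omega
        · have y2' : y < ⌈Z⌉ := Int.lt_ceil.2 y2
          by_cases h2 : 1 ≤ y - g
          · right
            have h3 : ⌈Z⌉ ≤ y - g := by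
              by_contra hcon
              push Not at hcon
              exact hy2 ⟨y - g, (hB _).2 ⟨h2, Int.lt_ceil.1 hcon, by simpa using y3⟩, by ring⟩
            omega
          · left
            omega
      have h2 := (Finset.card_le_card hsub).trans (Finset.card_union_le _ _)
      rw [Int.card_Ico, Int.card_Ico] at h2
      have h3 : ((symmDiff (B.image (fun x => x + g)) A).card : ℤ) ≤ 4 * |g| := by
        have := abs_nonneg g
        omega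
      have h4 : ((symmDiff (B.image (fun x => x + g)) A).card : ℝ) ≤ ((4 * |g| : ℤ) : ℝ) := by
        exact_mod_cast h3
      refine h4.trans (le_of_eq ?_)
      rw [hg]
      push_cast
      rw [abs_mul]
      have : |((h : ℕ) : ℝ)| = h := abs_of_nonneg (Nat.cast_nonneg _)
      rw [this]
      ring

theorem log_three_ge : (1 : ℝ) ≤ Real.log 3 := by
  rw [Real.le_log_iff_exp_le (by norm_num)]
  exact Real.exp_one_lt_three.le

theorem log_h_ge {h : ℤ} (hh : h ≠ 0) : (1 : ℝ) ≤ Real.log (2 + |(h : ℝ)|) := by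
  refine log_three_ge.trans (Real.log_le_log (by norm_num) ?_)
  have : (1 : ℤ) ≤ |h| := Int.one_le_abs hh
  have : (1 : ℝ) ≤ |(h : ℝ)| := by exact_mod_cast this
  linarith

theorem xc_le (S : Set ℤ) (g : ℤ) {Z : ℝ} (hZ : 1 ≤ Z) : (xc S g Z : ℝ) ≤ Z := by
  have h1 : xc S g Z ≤ ac Set.univ Z := by
    unfold xc ac
    refine Set.ncard_le_ncard ?_ (fin_one Z _)
    rintro x ⟨h1, h2, _⟩
    exact ⟨h1, h2, trivial⟩
  have h2 := ac_le Set.univ hZ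
  exact le_trans (by exact_mod_cast h1) h2

/-- The exceptional set for a block length `2^m`. -/
theorem xc_block {d : ℤ} (hd : Odd d) {b : ℝ} (hb : 0 ≤ b)
    {S : Set ℤ} (hS : Inv d b S) {h : ℤ} {m : ℕ} {M : ℝ}
    (hLC : ∀ a : ℤ, (Set.ncard {z : ℤ | a ≤ z ∧ z < a + 2 ^ m ∧
      ∀ j ≤ m, (T d)^[j] z ≠ (T d)^[j] (z + d * h)} : ℝ) ≤ M * 2 ^ m) {Z Y : ℝ} (hZ : 2 ^ m ≤ Z)
    (hY1 : 1 ≤ Y) (hY : (b + |(d : ℝ)| + 1 + |((d * h : ℤ) : ℝ)|) * 2 ^ m ≤ Y) :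
    (xc S (d * h) Z : ℝ) ≤ Y + 2 * Z * M := by
  have hd0 : 0 ≤ |(d : ℝ)| := abs_nonneg _
  obtain ⟨g, hg⟩ : ∃ g : ℝ, g = |((d * h : ℤ) : ℝ)| := ⟨_, rfl⟩
  rw [← hg] at hY
  have hg0 : 0 ≤ g := hg ▸ abs_nonneg _
  have h2m : (0 : ℝ) < 2 ^ m := by positivity
  have h2m1 : (1 : ℝ) ≤ 2 ^ m := one_le_pow₀ (by norm_num)
  have hZ1 : 1 ≤ Z := h2m1.trans hZ
  have hZ0 : 0 < Z := by linarith
  -- the exceptional set is covered
  obtain ⟨J, hJ⟩ : ∃ J : ℕ, J = ⌈Z / 2 ^ m⌉₊ := ⟨_, rfl⟩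
  have hJ1 : (J : ℝ) ≤ 2 * (Z / 2 ^ m) := by
    have h1 := Nat.ceil_lt_add_one (by positivity : 0 ≤ Z / 2 ^ m)
    have h2 : 1 ≤ Z / 2 ^ m := by rwa [le_div_iff₀ h2m, one_mul]
    rw [hJ]
    linarith
  have hJ2 : Z / 2 ^ m ≤ J := by rw [hJ]; exact Nat.le_ceil _
  obtain ⟨E, hE⟩ : ∃ E : ℕ → Set ℤ, E = fun (i : ℕ) => {z : ℤ | (1 + (i : ℤ) * 2 ^ m) ≤ z ∧
      z < (1 + (i : ℤ) * 2 ^ m) + 2 ^ m ∧ ∀ j ≤ m, (T d)^[j] z ≠ (T d)^[j] (z + d * h)} := ⟨_, rfl⟩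
  have hEfin : ∀ i, (E i).Finite := by
    intro i
    rw [hE]
    refine (Set.finite_Icc (1 + (i : ℤ) * 2 ^ m) (1 + (i : ℤ) * 2 ^ m + 2 ^ m)).subset ?_
    rintro z ⟨h1, h2, _⟩
    exact ⟨h1, h2.le⟩
  have hEcard : ∀ i, ((E i).ncard : ℝ) ≤ M * 2 ^ m := by
    intro i
    rw [hE]
    exact hLC _
  have hM0 : 0 ≤ M := by
    have h1 := (Nat.cast_nonneg (α := ℝ) _).trans (hEcard 0)
    by_contra hcon
    push Not at hcon
    have := mul_neg_of_neg_of_pos hcon h2m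
    linarith
  have hcover : {x : ℤ | 1 ≤ x ∧ (x : ℝ) < Z ∧ ¬ (x ∈ S ↔ x + d * h ∈ S)} ⊆
      {x : ℤ | 1 ≤ x ∧ (x : ℝ) < Y ∧ True} ∪ ⋃ i ∈ Finset.range J, E i := by
    rintro x ⟨hx1, hx2, hx3⟩
    rcases lt_or_ge (x : ℝ) Y with hlt | hge
    · exact Or.inl ⟨hx1, hlt, trivial⟩
    · right
      -- index
      have hx0 : (0 : ℝ) < x := by exact_mod_cast (by omega : 0 < x)
      have hxne : ((1 : ℤ) : ℝ) ≤ x := by exact_mod_cast hx1
      obtain ⟨i, hi⟩ : ∃ i : ℕ, i = ((x - 1) / 2 ^ m).toNat := ⟨_, rfl⟩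
      have hdiv0 : 0 ≤ (x - 1) / 2 ^ m := Int.ediv_nonneg (by omega) (by positivity)
      have hiZ : (i : ℤ) = (x - 1) / 2 ^ m := by rw [hi, Int.toNat_of_nonneg hdiv0]
      have h2mZ : (0 : ℤ) < 2 ^ m := by positivity
      have e1 := Int.emod_add_mul_ediv (x - 1) (2 ^ m)
      have e2 := Int.emod_nonneg (x - 1) h2mZ.ne'
      have e3 := Int.emod_lt_of_pos (x - 1) h2mZ
      have hlow : 1 + (i : ℤ) * 2 ^ m ≤ x := by
        rw [hiZ]
        nlinarith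
      have hup : x < 1 + (i : ℤ) * 2 ^ m + 2 ^ m := by
        rw [hiZ]
        nlinarith
      have hiJ : i < J := by
        have h5 : (i : ℝ) * 2 ^ m < Z := by
          have : (1 : ℝ) + (i : ℝ) * 2 ^ m ≤ x := by exact_mod_cast hlow
          linarith
        have h6 : (i : ℝ) < Z / 2 ^ m := by rwa [lt_div_iff₀ h2m]
        exact_mod_cast h6.trans_le hJ2
      simp only [Set.mem_iUnion]
      refine ⟨i, Finset.mem_range.2 hiJ, ?_⟩
      rw [hE]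
      refine ⟨hlow, hup, fun j hj heq => hx3 ?_⟩
      -- both orbits stay above `b`
      have hbig : (b + |(d : ℝ)| + 1 + g) * 2 ^ m ≤ x := hY.trans hge
      have hgg : g ≤ g * 2 ^ m := le_mul_of_one_le_right hg0 h2m1
      have hx4 : (b + |(d : ℝ)|) * 2 ^ m < x := by
        have : 0 < (1 + g) * 2 ^ m := by positivity
        nlinarith
      have hx5 : (b + |(d : ℝ)|) * 2 ^ m < ((x + d * h : ℤ) : ℝ) := by
        have h11 : -g ≤ ((d * h : ℤ) : ℝ) := by rw [hg]; exact neg_abs_le _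
        push_cast at h11 ⊢
        nlinarith
      rw [iter_inv hd hb hS hx4 j hj, iter_inv hd hb hS hx5 j hj, heq]
  have hfinU : ({x : ℤ | 1 ≤ x ∧ (x : ℝ) < Y ∧ True} ∪ ⋃ i ∈ Finset.range J, E i).Finite :=
    (fin_one _ _).union (Set.Finite.biUnion (Finset.finite_toSet _) fun i _ => hEfin i)
  have hc1 : (xc S (d * h) Z : ℝ) ≤
      Set.ncard {x : ℤ | 1 ≤ x ∧ (x : ℝ) < Y ∧ True} + ∑ i ∈ Finset.range J, ((E i).ncard : ℝ) := by
    have h1 : xc S (d * h) Z ≤ _ := Set.ncard_le_ncard hcover hfinU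
    have h2 := Set.ncard_union_le {x : ℤ | 1 ≤ x ∧ (x : ℝ) < Y ∧ True}
      (⋃ i ∈ Finset.range J, E i)
    have h3 : (⋃ i ∈ Finset.range J, E i).ncard ≤ ∑ i ∈ Finset.range J, (E i).ncard :=
      Finset.set_ncard_biUnion_le _ _
    have h4 := h1.trans (h2.trans (Nat.add_le_add_left h3 _))
    exact_mod_cast h4
  have hc2 : (Set.ncard {x : ℤ | 1 ≤ x ∧ (x : ℝ) < Y ∧ True} : ℝ) ≤ Y := by
    have := ac_le Set.univ hY1
    simpa [ac] using this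
  have hc3 : ∑ i ∈ Finset.range J, ((E i).ncard : ℝ) ≤ 2 * Z * M := by
    refine (Finset.sum_le_sum fun i _ => hEcard i).trans ?_
    rw [Finset.sum_const, Finset.card_range, nsmul_eq_mul]
    calc (J : ℝ) * (M * 2 ^ m) ≤ 2 * (Z / 2 ^ m) * (M * 2 ^ m) :=
          mul_le_mul_of_nonneg_right hJ1 (by positivity)
      _ = 2 * Z * M := by field_simp
  linarith

end Pool.Agent.Lib.MP_d0d59f_nt.ND

end
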