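import Mathlib
import Pool.Agent.Lib.MP_d0d59f_nt.NK.K016
import Pool.Agent.Lib.MP_d0d59f_nt.NK.K020

namespace Pool.Agent.Lib.MP_d0d59f_nt.AA
end Pool.Agent.Lib.MP_d0d59f_nt.AA

section

/-! Row B5 (about 300 lines): one step of the recursion over the scales. -/

namespace Pool.Agent.Lib.MP_d0d59f_nt.AA

open Finset

/-- `1.58 ≤ log₂ 3 ≤ 1.585` (`2^79 ≤ 3^50`, `3^200 ≤ 2^317`). -/
theorem logb_three : (1.58 : ℝ) ≤ Real.logb 2 3 ∧ Real.logb 2 3 ≤ 1.585 := by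
  constructor
  · have h1 : Real.logb 2 ((2 : ℝ) ^ 79) ≤ Real.logb 2 ((3 : ℝ) ^ 50) :=
      Real.logb_le_logb_of_le (by norm_num) (by positivity) (by norm_num)
    rw [Real.logb_pow, Real.logb_pow, Real.logb_self_eq_one (by norm_num)] at h1
    push_cast at h1
    linarith
  · have h0 : (3 : ℝ) ^ 200 ≤ (2 : ℝ) ^ 317 := by
      have e1 : (3 : ℝ) ^ 200 = 3 ^ 100 * 3 ^ 100 := by rw [← pow_add]
      have e2 : (2 : ℝ) ^ 317 = 2 * (2 ^ 158 * 2 ^ 158) := by rw [← pow_add, ← pow_succ']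
      rw [e1, e2]
      norm_num
    have h1 : Real.logb 2 ((3 : ℝ) ^ 200) ≤ Real.logb 2 ((2 : ℝ) ^ 317) :=
      Real.logb_le_logb_of_le (by norm_num) (by positivity) h0
    rw [Real.logb_pow, Real.logb_pow, Real.logb_self_eq_one (by norm_num)] at h1
    push_cast at h1
    linarith

/-- the position of the new scale -/
theorem b5_logz {y : ℝ} (hy : 0 < y) (n l : ℕ) :
    Real.logb 2 (3 ^ n * y / 2 ^ l) = n * Real.logb 2 3 + Real.logb 2 y - l := by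
  rw [Real.logb_div (by positivity) (by positivity), Real.logb_mul (by positivity) hy.ne',
    Real.logb_pow, Real.logb_pow, Real.logb_self_eq_one (by norm_num), mul_one]

/-- the scale index -/
theorem b5_kk {y : ℝ} (h : 500 ≤ Real.logb 2 y) :
    (250 * (kk y : ℝ) ≤ Real.logb 2 y) ∧ (Real.logb 2 y < 250 * ((kk y : ℝ) + 1)) ∧
      Real.logb 2 y ≤ 500 * (kk y : ℝ) := by
  have h0 : 0 ≤ Real.logb 2 y / 250 := by linarith
  have h1 : (kk y : ℝ) ≤ Real.logb 2 y / 250 := Nat.floor_le h0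
  have h2 : Real.logb 2 y / 250 < (kk y : ℝ) + 1 := Nat.lt_floor_add_one _
  refine ⟨by linarith, by linarith, ?_⟩
  have h3 : (2 : ℝ) ≤ kk y := by
    have : 2 ≤ kk y := Nat.le_floor (by push_cast; linarith)
    exact_mod_cast this
  linarith

/-- exponential against polynomial -/
theorem b5_exp (A : ℕ) : ∃ C : ℝ, 0 ≤ C ∧ ∀ k : ℕ, (k : ℝ) ^ A * (0.98 : ℝ) ^ k ≤ C := by
  have h := tendsto_pow_const_mul_const_pow_of_abs_lt_one A (r := (0.98 : ℝ))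
    (by rw [abs_of_pos] <;> norm_num)
  obtain ⟨C, hC⟩ := h.bddAbove_range
  refine ⟨max C 0, le_max_right _ _, fun k => (hC ⟨k, rfl⟩).trans (le_max_left _ _)⟩

/-- the trivial error -/
theorem b5_triv {y : ℝ} (hy : 0 < y) {k m : ℕ} (hk : 250 * (k : ℝ) ≤ Real.logb 2 y) (hm : m ≤ k) :
    (2 : ℝ) ^ (21 * k) ≤ y / (2 * 3 ^ m) * (2 * (0.98 : ℝ) ^ k) := by
  have h1 : (2 : ℝ) ^ (250 * k) ≤ y := by
    have h2 : (2 : ℝ) ^ ((250 * k : ℕ) : ℝ) ≤ (2 : ℝ) ^ (Real.logb 2 y) :=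
      Real.rpow_le_rpow_of_exponent_le (by norm_num) (by push_cast; linarith)
    rw [Real.rpow_natCast, Real.rpow_logb (by norm_num) (by norm_num) hy] at h2
    exact h2
  have h3 : (3 : ℝ) ^ m ≤ 2 ^ (2 * k) := by
    calc (3 : ℝ) ^ m ≤ 3 ^ k := pow_le_pow_right₀ (by norm_num) hm
      _ ≤ 4 ^ k := pow_le_pow_left₀ (by norm_num) (by norm_num) k
      _ = 2 ^ (2 * k) := by rw [pow_mul]; norm_num
  have h4 : (1 / 2 : ℝ) ^ k ≤ (0.98 : ℝ) ^ k := pow_le_pow_left₀ (by norm_num) (by norm_num) k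
  have h5 : (2 : ℝ) ^ (21 * k) * 3 ^ m ≤ y * (0.98 : ℝ) ^ k := by
    calc (2 : ℝ) ^ (21 * k) * 3 ^ m ≤ 2 ^ (21 * k) * 2 ^ (2 * k) :=
          mul_le_mul_of_nonneg_left h3 (by positivity)
      _ = 2 ^ (23 * k) := by rw [← pow_add]; congr 1; ring
      _ ≤ 2 ^ (249 * k) := pow_le_pow_right₀ (by norm_num) (by nlinarith)
      _ = 2 ^ (250 * k) * (1 / 2) ^ k := by
          have : (2 : ℝ) ^ (250 * k) = 2 ^ (249 * k) * 2 ^ k := by
            rw [← pow_add]; congr 1; ring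
          rw [this, mul_assoc, ← mul_pow]
          norm_num
      _ ≤ y * (0.98 : ℝ) ^ k := mul_le_mul h1 h4 (by positivity) hy.le
  have h6 : (0 : ℝ) < 3 ^ m := by positivity
  have e : y / (2 * 3 ^ m) * (2 * (0.98 : ℝ) ^ k) = y * (0.98 : ℝ) ^ k / 3 ^ m := by
    field_simp
  rw [e, le_div_iff₀ h6]
  exact h5

/-- Write `ly = logb 2 y`, `k = kk y`: `250 k ≤ ly < 250 (k+1)`. Given `m, r, t` (`m² ≤ k`, `8 ly ≤ t`), use `dens_count` with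
`n = 10k`, `m' = Nat.sqrt (k/2)` (`≤ n+m`), `l1 = 19k`, `L = 21k ≤ 2000 k ≤ 8 ly ≤ t`. For `l ∈ [19k,21k]` and `z = 3^n y/2^l`,
`lz = ly + 10k·log₂3 - l`, so by `logb_three`: `lz ≥ ly - 5.2k ≥ 0.979 ly`; `lz ≤ ly - 3.15k ≤ 0.9874 ly + 3.15 ≤ 0.988 ly`
(`ly ≥ 5250`). `dens d B β z` applies: `m'^2 ≤ k/2 ≤ kk z` (`lz/250 ≥ 0.979k`), and `8 lz ≤ t - l` since
`8(10k·log₂3 - l) ≤ 126.8k - 8l ≤ -l` (`7l ≥ 133k`). So
`cnt ≤ y/(2·3^m) (β + C_o/k^A + 2·0.98^k) + (|d|+5) 2^{21k}` (`osc_bound`, `tail_bound`), and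
`2^{21k}/(y/(2·3^m)) ≤ 2·2^{21k}3^k/2^{250k} ≤ 2·0.98^k` (`m ≤ m² ≤ k`, `y ≥ 2^{250k}`); `k ≥ ly/500`, `0.98^k ≤ C/k^A`. -/
theorem dens_step {d : ℤ} (hd : Odd d) (h3 : ¬ (3 : ℤ) ∣ d) (A : ℕ) : ∃ C : ℝ, 0 ≤ C ∧
    ∃ y0 : ℝ, 2 ≤ y0 ∧ ∀ (B β y : ℝ), y0 ≤ y → 0 ≤ β →
      (∀ z : ℝ, 0 < z → 0.979 * Real.logb 2 y ≤ Real.logb 2 z →
        Real.logb 2 z ≤ 0.988 * Real.logb 2 y → dens d B β z) →
      dens d B (β + C / (Real.logb 2 y) ^ A) y := by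
  obtain ⟨C1, hC1, hosc⟩ := osc_bound h3 A
  obtain ⟨C2, hC2, hexp⟩ := b5_exp A
  have hlt := logb_three
  obtain ⟨y0, hy0⟩ : ∃ y0 : ℝ, y0 = max 2 ((2 : ℝ) ^ (5250 : ℝ)) := ⟨_, rfl⟩
  have hy02 : 2 ≤ y0 := hy0 ▸ le_max_left _ _
  have hy0' : (2 : ℝ) ^ (5250 : ℝ) ≤ y0 := hy0 ▸ le_max_right _ _
  refine ⟨(C1 + (2 * |(d : ℝ)| + 12) * C2) * 500 ^ A, by positivity, y0, hy02, ?_⟩
  intro B β y hy hβ hz m r t hm ht
  have hy1 : 0 < y := lt_of_lt_of_le (by norm_num) (hy02.trans hy)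
  have hly : 5250 ≤ Real.logb 2 y := by
    rw [Real.le_logb_iff_rpow_le (by norm_num) hy1]
    exact hy0'.trans hy
  clear hy0 hy0'
  obtain ⟨k1, k2, k3⟩ := b5_kk (y := y) (by linarith)
  obtain ⟨k, hk⟩ : ∃ k, k = kk y := ⟨_, rfl⟩
  rw [← hk] at k1 k2 k3 hm
  obtain ⟨ly, hl⟩ : ∃ ly, ly = Real.logb 2 y := ⟨_, rfl⟩
  have k4 : (20 : ℝ) < k := by linarith
  have k5 : 1 ≤ k := by
    have : (1 : ℝ) ≤ k := by linarith
    exact_mod_cast this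
  have hmk : m ≤ k := by
    rcases Nat.eq_zero_or_pos m with h | h
    · omega
    · exact (Nat.le_mul_self m).trans hm
  have hLt : 21 * k ≤ t := by
    have : (21 * (k : ℝ)) ≤ t := by linarith
    exact_mod_cast this
  have hm' : Nat.sqrt (k / 2) ≤ 10 * k + m := by
    have := Nat.sqrt_le_self (k / 2)
    omega
  have hβ' : ∀ l ∈ Icc (19 * k) (21 * k), ∀ r' : ℤ,
      (cnt d B (t - l) (Nat.sqrt (k / 2)) r' (3 ^ (10 * k) * y / 2 ^ l) : ℝ) ≤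
      β * ((3 ^ (10 * k) * y / 2 ^ l) / (2 * 3 ^ (Nat.sqrt (k / 2)))) := by
    intro l hl' r'
    rw [Finset.mem_Icc] at hl'
    obtain ⟨l1, l2⟩ := hl'
    have l1' : 19 * (k : ℝ) ≤ l := by exact_mod_cast l1
    have l2' : (l : ℝ) ≤ 21 * k := by exact_mod_cast l2
    have hzl := b5_logz hy1 (10 * k) l
    push_cast at hzl
    have hz0 : (0 : ℝ) < 3 ^ (10 * k) * y / 2 ^ l := by positivity
    have hklo : 1.58 * (k : ℝ) ≤ k * Real.logb 2 3 := by nlinarith [hlt.1]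
    have hkhi : k * Real.logb 2 3 ≤ 1.585 * (k : ℝ) := by nlinarith [hlt.2]
    have hlo : 0.979 * Real.logb 2 y ≤ Real.logb 2 (3 ^ (10 * k) * y / 2 ^ l) := by
      rw [hzl]
      nlinarith
    have hhi : Real.logb 2 (3 ^ (10 * k) * y / 2 ^ l) ≤ 0.988 * Real.logb 2 y := by
      rw [hzl]
      nlinarith
    refine hz _ hz0 hlo hhi _ r' _ ?_ ?_
    · have e1 : Nat.sqrt (k / 2) * Nat.sqrt (k / 2) ≤ k / 2 := Nat.sqrt_le (k / 2)
      refine e1.trans ?_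
      unfold kk
      refine Nat.le_floor ?_
      have e2 : ((k / 2 : ℕ) : ℝ) ≤ (k : ℝ) / 2 := Nat.cast_div_le
      rw [le_div_iff₀ (by norm_num)]
      linarith
    · have e3 : ((t - l : ℕ) : ℝ) = (t : ℝ) - l := Nat.cast_sub (l2.trans hLt)
      rw [e3, hzl]
      nlinarith
  have hmain := dens_count hd h3 B (10 * k) m (Nat.sqrt (k / 2)) (19 * k) (21 * k) t hm' r y hy1
    hLt β hβ hβ'
  have ho := hosc k m r k5 hm
  have htl := tail_bound k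
  have htr := b5_triv hy1 k1 hmk
  have hY : 0 < y / (2 * 3 ^ m) := by positivity
  have hd5 : (0 : ℝ) ≤ |(d : ℝ)| + 5 := by positivity
  have s1 : (cnt d B t m r y : ℝ) ≤ y / (2 * 3 ^ m) *
      (β + (C1 / (k : ℝ) ^ A + (2 * |(d : ℝ)| + 12) * (0.98 : ℝ) ^ k)) := by
    have s2 : y / (2 * 3 ^ m) * (β + osc d r (10 * k + m) (Nat.sqrt (k / 2)) (10 * k) (21 * k)
        + (1 - ∑ l ∈ Icc (19 * k) (21 * k), nb (10 * k) l)) ≤
        y / (2 * 3 ^ m) * (β + C1 / (k : ℝ) ^ A + 2 * (0.98 : ℝ) ^ k) :=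
      mul_le_mul_of_nonneg_left (by linarith) hY.le
    have s3 : (|(d : ℝ)| + 5) * 2 ^ (21 * k) ≤
        (|(d : ℝ)| + 5) * (y / (2 * 3 ^ m) * (2 * (0.98 : ℝ) ^ k)) :=
      mul_le_mul_of_nonneg_left htr hd5
    calc (cnt d B t m r y : ℝ) ≤ _ := hmain
      _ ≤ y / (2 * 3 ^ m) * (β + C1 / (k : ℝ) ^ A + 2 * (0.98 : ℝ) ^ k) +
          (|(d : ℝ)| + 5) * (y / (2 * 3 ^ m) * (2 * (0.98 : ℝ) ^ k)) := add_le_add s2 s3
      _ = _ := by ring
  have hk0 : (0 : ℝ) < k := by linarith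
  have hly0 : 0 < Real.logb 2 y := by linarith
  have s4 : C1 / (k : ℝ) ^ A + (2 * |(d : ℝ)| + 12) * (0.98 : ℝ) ^ k ≤
      (C1 + (2 * |(d : ℝ)| + 12) * C2) * 500 ^ A / Real.logb 2 y ^ A := by
    have s5 : (0.98 : ℝ) ^ k ≤ C2 / (k : ℝ) ^ A := by
      rw [le_div_iff₀ (by positivity), mul_comm]
      exact hexp k
    have s6 : C1 / (k : ℝ) ^ A + (2 * |(d : ℝ)| + 12) * (0.98 : ℝ) ^ k ≤
        (C1 + (2 * |(d : ℝ)| + 12) * C2) / (k : ℝ) ^ A := by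
      have := mul_le_mul_of_nonneg_left s5 (show (0 : ℝ) ≤ 2 * |(d : ℝ)| + 12 by positivity)
      calc _ ≤ C1 / (k : ℝ) ^ A + (2 * |(d : ℝ)| + 12) * (C2 / (k : ℝ) ^ A) := by linarith
        _ = _ := by ring
    refine s6.trans ?_
    have s7 : Real.logb 2 y ^ A ≤ 500 ^ A * (k : ℝ) ^ A := by
      rw [← mul_pow]
      exact pow_le_pow_left₀ hly0.le k3 A
    rw [div_le_div_iff₀ (by positivity) (by positivity)]
    calc (C1 + (2 * |(d : ℝ)| + 12) * C2) * Real.logb 2 y ^ A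
        ≤ (C1 + (2 * |(d : ℝ)| + 12) * C2) * (500 ^ A * (k : ℝ) ^ A) :=
          mul_le_mul_of_nonneg_left s7 (by positivity)
      _ = _ := by ring
  calc (cnt d B t m r y : ℝ) ≤ y / (2 * 3 ^ m) *
      (β + (C1 / (k : ℝ) ^ A + (2 * |(d : ℝ)| + 12) * (0.98 : ℝ) ^ k)) := s1
    _ ≤ y / (2 * 3 ^ m) * (β + (C1 + (2 * |(d : ℝ)| + 12) * C2) * 500 ^ A
        / Real.logb 2 y ^ A) := mul_le_mul_of_nonneg_left (by linarith) hY.le
    _ = _ := by ring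

end Pool.Agent.Lib.MP_d0d59f_nt.AA

end

section

/-! Row nd-A1 (about 70 lines): the numbers `j log₂ 3 - i`. -/

namespace Pool.Agent.Lib.MP_d0d59f_nt.ND

open Finset AA

private theorem lam_pos : 0 < lam := by
  unfold lam
  exact Real.logb_pos (by norm_num) (by norm_num)

private theorem two_rpow_lam : (2 : ℝ) ^ lam = 3 := by
  unfold lam
  exact Real.rpow_logb (by norm_num) (by norm_num) (by norm_num)

/-- `3^q = 2^p` is impossible for `q ≥ 1` (parity). -/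
theorem lam_irrational : Irrational lam := by
  rintro ⟨q, hq⟩
  have hl := lam_pos
  rw [← hq] at hl
  have hq0 : 0 < q := by exact_mod_cast hl
  have hnum : 0 < q.num := Rat.num_pos.2 hq0
  obtain ⟨p, hp⟩ := Int.eq_ofNat_of_zero_le hnum.le
  have hp0 : 0 < p := by
    rw [hp] at hnum
    exact_mod_cast hnum
  have hden : (q.den : ℝ) ≠ 0 := by exact_mod_cast q.den_nz
  have e1 : lam * (q.den : ℝ) = (p : ℝ) := by
    rw [← hq]
    have h := Rat.mul_den_eq_num q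
    have h' : (q : ℝ) * (q.den : ℝ) = (q.num : ℝ) := by exact_mod_cast h
    rw [h', hp]
    simp
  have e2 : (3 : ℝ) ^ q.den = 2 ^ p := by
    rw [← two_rpow_lam, ← Real.rpow_natCast, ← Real.rpow_mul (by norm_num), e1,
      Real.rpow_natCast]
  have e3 : 3 ^ q.den = 2 ^ p := by exact_mod_cast e2
  have h3 : Odd (3 ^ q.den) := Odd.pow (by decide)
  have h2 : Even (2 ^ p) := by
    rw [Nat.even_pow]
    exact ⟨by decide, hp0.ne'⟩
  rw [e3] at h3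
  exact (Nat.not_odd_iff_even.2 h2) h3

theorem lam_bounds : 1.58 ≤ lam ∧ lam ≤ 1.585 := AA.logb_three

private theorem steps (e : ℝ) (he : 0 < e) (t : ℝ) (h0 : 0 ≤ t) (h1 : t < 1) :
    ∃ u : ℕ, u ≤ ⌈1 / e⌉₊ ∧ |(u : ℝ) * e - t| ≤ e := by
  refine ⟨⌊t / e⌋₊, ?_, ?_⟩
  · have h : t / e ≤ 1 / e := div_le_div_of_nonneg_right h1.le he.le
    exact (Nat.floor_le_floor h).trans (Nat.floor_le_ceil _)
  · have h2 : (⌊t / e⌋₊ : ℝ) ≤ t / e := Nat.floor_le (div_nonneg h0 he.le)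
    have h3 : t / e < (⌊t / e⌋₊ : ℝ) + 1 := Nat.lt_floor_add_one _
    rw [le_div_iff₀ he] at h2
    rw [div_lt_iff₀ he] at h3
    rw [abs_le]
    constructor
    · nlinarith
    · nlinarith

/-- PROOF: by Dirichlet there are `q ≥ 1`, `p` with `0 < |q λ - p| ≤ η` (`Real.exists_int_int_abs_mul_sub_le`; nonzero by irrationality).
Let `δ = |q λ - p|`, `M = ⌈1/δ⌉`, `J = q M`: for a given `θ`, the multiples `u (q λ - p)`, `0 ≤ u ≤ M`, cover an interval of length `≥ 1` with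
steps `δ ≤ η`, hence one of them is within `η` of `θ` up to an integer. -/
theorem dens_lam (η : ℝ) (hη : 0 < η) : ∃ J : ℕ, ∀ θ : ℝ, ∃ j : ℕ, j ≤ J ∧ ∃ i : ℤ,
    |(j : ℝ) * lam - i - θ| ≤ η := by
  obtain ⟨n, hn⟩ := exists_nat_gt (1 / η)
  have hn0 : 0 < n := by
    have : (0 : ℝ) < n := lt_trans (by positivity) hn
    exact_mod_cast this
  obtain ⟨p, k, hk0, hkn, hk⟩ := Real.exists_int_int_abs_mul_sub_le lam hn0
  obtain ⟨q, rfl⟩ := Int.eq_ofNat_of_zero_le hk0.le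
  have hq0 : 0 < q := by exact_mod_cast hk0
  have hd : |(q : ℝ) * lam - p| ≤ η := by
    have h1 : |(q : ℝ) * lam - p| ≤ 1 / ((n : ℝ) + 1) := by exact_mod_cast hk
    refine h1.trans ?_
    rw [div_lt_iff₀ hη] at hn
    rw [div_le_iff₀ (by positivity)]
    nlinarith
  have hne : (q : ℝ) * lam - p ≠ 0 := by
    have h := (lam_irrational.natCast_mul hq0.ne').sub_intCast p
    exact h.ne_zero
  set δ : ℝ := (q : ℝ) * lam - p with hδ
  have hδ0 : 0 < |δ| := abs_pos.2 hne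
  refine ⟨⌈1 / |δ|⌉₊ * q, fun θ => ?_⟩
  rcases lt_or_gt_of_ne hne with hneg | hpos
  · obtain ⟨u, hu, hu'⟩ := steps |δ| hδ0 (Int.fract (-θ)) (Int.fract_nonneg _) (Int.fract_lt_one _)
    refine ⟨u * q, Nat.mul_le_mul_right q hu, u * p + ⌊-θ⌋, ?_⟩
    have e : ((u * q : ℕ) : ℝ) * lam - ((u * p + ⌊-θ⌋ : ℤ) : ℝ) - θ =
        -((u : ℝ) * |δ| - Int.fract (-θ)) := by
      rw [abs_of_neg hneg, Int.fract, hδ]
      push_cast
      ring
    rw [e, abs_neg]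
    exact hu'.trans hd
  · obtain ⟨u, hu, hu'⟩ := steps |δ| hδ0 (Int.fract θ) (Int.fract_nonneg _) (Int.fract_lt_one _)
    refine ⟨u * q, Nat.mul_le_mul_right q hu, u * p - ⌊θ⌋, ?_⟩
    have e : ((u * q : ℕ) : ℝ) * lam - ((u * p - ⌊θ⌋ : ℤ) : ℝ) - θ =
        (u : ℝ) * |δ| - Int.fract θ := by
      rw [abs_of_pos hpos, Int.fract, hδ]
      push_cast
      ring
    rw [e]
    exact hu'.trans hd

end Pool.Agent.Lib.MP_d0d59f_nt.ND

end
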