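import Mathlib
import Pool.Agent.Lib.MP_d0d59f_nt.NK.K021

section

/-! Row B7 (about 150 lines): recursion over the scales. -/

namespace Pool.Agent.Lib.MP_d0d59f_nt.AA

open Finset

theorem b7_mono {d : ℤ} {B β β' y : ℝ} (hy : 0 ≤ y) (h : dens d B β y) (hβ : β ≤ β') :
    dens d B β' y := by
  intro m r t hm ht
  refine (h m r t hm ht).trans (mul_le_mul_of_nonneg_right hβ (by positivity))

theorem b7_main {d : ℤ} (hd : Odd d) (h3 : ¬ (3 : ℤ) ∣ d) (A : ℕ) (hA : 1 ≤ A) :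
    ∃ C : ℝ, 0 ≤ C ∧ ∃ B0 : ℝ, 2 ≤ B0 ∧ ∀ B y : ℝ, B0 ≤ B → B ≤ y →
      dens d B (C / (Real.logb 2 B) ^ A) y := by
  obtain ⟨Cs, hCs, y0, hy0, hstep⟩ := dens_step hd h3 A
  obtain ⟨Cb, hCb, B1, hB1, hbase⟩ := dens_base hd A
  set C2 : ℝ := Cs / 0.012 with hC2
  have hC2n : 0 ≤ C2 := by positivity
  refine ⟨Cb + C2, by positivity, max y0 B1, hy0.trans (le_max_left _ _), fun B y hB hBy => ?_⟩
  have hB2 : (2 : ℝ) ≤ B := (hy0.trans (le_max_left _ _)).trans hB
  have hlog : ∀ u : ℝ, B ≤ u → Real.logb 2 B ≤ Real.logb 2 u := fun u hu =>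
    Real.logb_le_logb_of_le (by norm_num) (by linarith) hu
  set lB := Real.logb 2 B with hlB
  have hlB1 : 1 ≤ lB := by
    have : Real.logb 2 2 ≤ Real.logb 2 B := Real.logb_le_logb_of_le (by norm_num) (by norm_num) hB2
    rwa [Real.logb_self_eq_one (by norm_num)] at this
  have hlB0 : 0 < lB := by linarith
  have hinv : ∀ a b : ℝ, 0 < a → a ≤ b → 1 / b ^ A ≤ 1 / a ^ A := fun a b ha hab =>
    one_div_le_one_div_of_le (by positivity) (pow_le_pow_left₀ ha.le hab A)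
  -- the claim
  have key : ∀ j : ℕ, ∀ y : ℝ, B ≤ y → Real.logb 2 y ≤ 1.05 * lB * (1 / 0.988) ^ j →
      dens d B (Cb / lB ^ A + C2 * (1 / lB ^ A - 1 / (Real.logb 2 y) ^ A)) y := by
    have hb : ∀ y : ℝ, B ≤ y → Real.logb 2 y ≤ 1.05 * lB →
        dens d B (Cb / lB ^ A + C2 * (1 / lB ^ A - 1 / (Real.logb 2 y) ^ A)) y := by
      intro y hy hly
      refine b7_mono (by linarith) (hbase B y ((le_max_right _ _).trans hB) hy hly) ?_
      have := hinv lB (Real.logb 2 y) hlB0 (hlog y hy)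
      have h2 : 0 ≤ C2 * (1 / lB ^ A - 1 / (Real.logb 2 y) ^ A) :=
        mul_nonneg hC2n (by linarith)
      linarith
    intro j
    induction j with
    | zero =>
      intro y hy hly
      exact hb y hy (by simpa using hly)
    | succ j ih =>
      intro y hy hly
      by_cases hc : Real.logb 2 y ≤ 1.05 * lB
      · exact hb y hy hc
      push Not at hc
      set ly := Real.logb 2 y with hly_def
      have hly0 : 0 < ly := by linarith
      have h988 : 0 < 0.988 * ly := by linarith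
      set β : ℝ := Cb / lB ^ A + C2 * (1 / lB ^ A - 1 / (0.988 * ly) ^ A) with hβ
      have hβ0 : 0 ≤ β := by
        have h1 := hinv lB (0.988 * ly) hlB0 (by linarith)
        have h2 : 0 ≤ C2 * (1 / lB ^ A - 1 / (0.988 * ly) ^ A) :=
          mul_nonneg hC2n (by linarith)
        positivity
      have hst := hstep B β y ((le_max_left _ _).trans (hB.trans hy)) hβ0 (by
        intro z hz hz1 hz2
        have hlz : lB < Real.logb 2 z := by linarith
        have hBz : B ≤ z := by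
          by_contra hcon
          push Not at hcon
          have : Real.logb 2 z ≤ Real.logb 2 B := Real.logb_le_logb_of_le (by norm_num) hz hcon.le
          linarith
        have hle : Real.logb 2 z ≤ 1.05 * lB * (1 / 0.988) ^ j := by
          refine hz2.trans ?_
          have h1 : (0.988 : ℝ) * ly ≤ 0.988 * (1.05 * lB * (1 / 0.988) ^ (j + 1)) :=
            mul_le_mul_of_nonneg_left hly (by norm_num)
          refine h1.trans (le_of_eq ?_)
          rw [pow_succ]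
          ring
        refine b7_mono hz.le (ih z hBz hle) ?_
        have h1 := hinv (Real.logb 2 z) (0.988 * ly) (by linarith) hz2
        have h2 : C2 * (1 / lB ^ A - 1 / (Real.logb 2 z) ^ A) ≤
            C2 * (1 / lB ^ A - 1 / (0.988 * ly) ^ A) :=
          mul_le_mul_of_nonneg_left (by linarith) hC2n
        linarith)
      refine b7_mono (by linarith) hst ?_
      have hpow : (0.988 : ℝ) ^ A ≤ 0.988 := by
        calc (0.988 : ℝ) ^ A ≤ 0.988 ^ 1 :=
              pow_le_pow_of_le_one (by norm_num) (by norm_num) hA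
          _ = 0.988 := pow_one _
      have hpow0 : (0 : ℝ) < 0.988 ^ A := by positivity
      have h1 : Cs ≤ C2 * (1 / 0.988 ^ A - 1) := by
        have h2 : (0.012 : ℝ) ≤ 1 / 0.988 ^ A - 1 := by
          have : (1.012 : ℝ) ≤ 1 / 0.988 ^ A := by
            rw [le_div_iff₀ hpow0]
            nlinarith
          linarith
        calc Cs = C2 * 0.012 := by rw [hC2]; field_simp
          _ ≤ _ := mul_le_mul_of_nonneg_left h2 hC2n
      have h3' : Cs / ly ^ A ≤ C2 * (1 / (0.988 * ly) ^ A - 1 / ly ^ A) := by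
        have h4 : C2 * (1 / (0.988 * ly) ^ A - 1 / ly ^ A) =
            (C2 * (1 / 0.988 ^ A - 1)) / ly ^ A := by
          rw [mul_pow]; field_simp
        rw [h4]
        exact div_le_div_of_nonneg_right h1 (by positivity)
      have h5 : C2 * (1 / lB ^ A - 1 / (0.988 * ly) ^ A) + C2 * (1 / (0.988 * ly) ^ A - 1 / ly ^ A)
          = C2 * (1 / lB ^ A - 1 / ly ^ A) := by ring
      linarith
  obtain ⟨j, hj⟩ : ∃ j : ℕ, Real.logb 2 y / (1.05 * lB) < (1 / 0.988 : ℝ) ^ j :=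
    pow_unbounded_of_one_lt _ (by norm_num)
  have hj' : Real.logb 2 y ≤ 1.05 * lB * (1 / 0.988) ^ j := by
    rw [div_lt_iff₀ (by positivity)] at hj
    linarith
  refine b7_mono (by linarith) (key j y hBy hj') ?_
  have hly : lB ≤ Real.logb 2 y := hlog y hBy
  have h1 : (0 : ℝ) ≤ 1 / (Real.logb 2 y) ^ A := by
    have : 0 ≤ Real.logb 2 y := by linarith
    positivity
  have h2 : C2 * (1 / lB ^ A - 1 / (Real.logb 2 y) ^ A) ≤ C2 * (1 / lB ^ A) :=
    mul_le_mul_of_nonneg_left (by linarith) hC2n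
  have h3' : (Cb + C2) / lB ^ A = Cb / lB ^ A + C2 * (1 / lB ^ A) := by ring
  rw [h3']
  linarith

/-- May assume `A ≥ 1` (`logb 2 B ≥ 1`). `C_s, y0` from `dens_step`, `C_b, B1` from `dens_base`, `B0 = max y0 B1`, `lB = logb 2 B`. `C₂ = C_s/0.012`, so
`C₂ (0.988^{-A} - 1) ≥ C_s`. Claim, by induction on `j`: for all `y` with `B ≤ y`, `ly ≤ 1.05 lB (1/0.988)^j`,
`dens d B (C_b/lB^A + C₂ (1/lB^A - 1/ly^A)) y` (`ly = logb 2 y`). `j = 0`: `dens_base` (`dens` is monotone in `β`, `ly ≥ lB`). Step: if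
`ly ≤ 1.05 lB` again `dens_base`; otherwise every `z` with `0.979 ly ≤ lz ≤ 0.988 ly` has `lz ≥ 1.027 lB`, so `z ≥ B`, and
`lz ≤ 1.05 lB (1/0.988)^j`, so by induction and monotonicity `dens d B β z` with
`β = C_b/lB^A + C₂(1/lB^A - 1/(0.988 ly)^A) ≥ 0`; `dens_step` gives
`β + C_s/ly^A ≤ C_b/lB^A + C₂(1/lB^A - 1/ly^A)`. Finally `C = C_b + C₂`. -/
theorem dens_all {d : ℤ} (hd : Odd d) (h3 : ¬ (3 : ℤ) ∣ d) (A : ℕ) : ∃ C : ℝ, 0 ≤ C ∧
    ∃ B0 : ℝ, 2 ≤ B0 ∧ ∀ B y : ℝ, B0 ≤ B → B ≤ y →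
      dens d B (C / (Real.logb 2 B) ^ A) y := by
  rcases Nat.eq_zero_or_pos A with h0 | h0
  · obtain ⟨C, hC, B0, hB0, h⟩ := b7_main hd h3 1 le_rfl
    refine ⟨C, hC, B0, hB0, fun B y hB hy => b7_mono (by linarith) (h B y hB hy) ?_⟩
    have hl : 1 ≤ Real.logb 2 B := by
      have : Real.logb 2 2 ≤ Real.logb 2 B :=
        Real.logb_le_logb_of_le (by norm_num) (by norm_num) (hB0.trans hB)
      rwa [Real.logb_self_eq_one (by norm_num)] at this
    rw [h0, pow_zero, pow_one, div_one]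
    exact div_le_self hC hl
  · exact b7_main hd h3 A h0

end Pool.Agent.Lib.MP_d0d59f_nt.AA

end

section

/-! Row B8 (about 250 lines): the count up to `X`, positive integers. -/

namespace Pool.Agent.Lib.MP_d0d59f_nt.AA

open Finset

theorem b8_iter (d : ℤ) (v : ℕ) (N : ℤ) : (T d)^[v] (2 ^ v * N) = N := by
  induction v with
  | zero => simp
  | succ v ih =>
    rw [Function.iterate_succ_apply]
    have h1 : T d (2 ^ (v + 1) * N) = 2 ^ v * N := by
      have h2 : (2 ^ (v + 1) * N) % 2 = 0 := by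
        rw [pow_succ, mul_assoc, mul_comm, mul_assoc]
        exact Int.mul_emod_right _ _
      have h3 := T_even (d := d) h2
      have h4 : (2 : ℤ) ^ (v + 1) * N = 2 * (2 ^ v * N) := by ring
      rw [h4] at h3 ⊢
      linarith
    rw [h1, ih]

/-- `x = 2^v N`, `N` odd, `v ≤ t`: `T^v x = N` and `bad d B t x → bad d B (t-v) N`. -/
theorem bad_odd_part {d : ℤ} (B : ℝ) (t v : ℕ) (N : ℤ) (hv : v ≤ t)
    (h : bad d B t (2 ^ v * N)) : bad d B (t - v) N := by
  intro k hk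
  have h1 := h (k + v) (by omega)
  rw [Function.iterate_add_apply, b8_iter] at h1
  exact h1

theorem b8_ncard_le_sum {ι α : Type*} [DecidableEq ι] (I : Finset ι) (F : ι → Set α) :
    (⋃ i ∈ I, F i).ncard ≤ ∑ i ∈ I, (F i).ncard := by
  induction I using Finset.induction_on with
  | empty => simp
  | insert a I ha ih =>
    rw [Finset.sum_insert ha, Finset.set_biUnion_insert]
    exact (Set.ncard_union_le _ _).trans (Nat.add_le_add_left ih _)

theorem b8_geom {B Y : ℝ} (hB : 0 < B) (hY : 0 ≤ Y) (M : ℕ) :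
    ∑ i ∈ (range M).filter (fun i => B * 2 ^ i ≤ Y), B * 2 ^ i ≤ 2 * Y := by
  induction M with
  | zero => simpa using hY
  | succ M ih =>
    by_cases h : B * 2 ^ M ≤ Y
    · have h1 : ∑ i ∈ (range (M + 1)).filter (fun i => B * 2 ^ i ≤ Y), B * 2 ^ i ≤
          ∑ i ∈ range (M + 1), B * (2 : ℝ) ^ i :=
        Finset.sum_le_sum_of_subset_of_nonneg (Finset.filter_subset _ _)
          (fun i _ _ => by positivity)
      have h2 : ∑ i ∈ range (M + 1), B * (2 : ℝ) ^ i = B * (2 ^ (M + 1) - 1) := by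
        rw [← Finset.mul_sum, geom_sum_eq (by norm_num)]
        norm_num
      rw [h2] at h1
      refine h1.trans ?_
      have : B * ((2 : ℝ) ^ (M + 1) - 1) = 2 * (B * 2 ^ M) - B := by ring
      rw [this]
      linarith
    · rw [Finset.range_add_one, Finset.filter_insert, if_neg h]
      exact ih

theorem b8_half (X : ℝ) (hX : 0 ≤ X) (M : ℕ) :
    ∑ v ∈ range M, X / 2 ^ v ≤ 2 * X := by
  have h1 : ∀ M : ℕ, ∑ v ∈ range M, X / 2 ^ v = 2 * X - 2 * X / 2 ^ M := by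
    intro M
    induction M with
    | zero => simp
    | succ M ih =>
      rw [Finset.sum_range_succ, ih, pow_succ]
      field_simp
      ring
  rw [h1]
  have : 0 ≤ 2 * X / 2 ^ M := by positivity
  linarith

/-- the numerical inequality on the time budget -/
theorem b8_time {B X : ℝ} (hB : 2 ≤ B) {v i : ℕ} (h : B * 2 ^ i ≤ X / 2 ^ v)
    (hv : v ≤ ⌊20 * Real.log X⌋₊) :
    8 * Real.logb 2 (B * 2 ^ i) ≤ ((⌊20 * Real.log X⌋₊ - v : ℕ) : ℝ) := by
  have h2v : (1 : ℝ) ≤ 2 ^ v := one_le_pow₀ (by norm_num)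
  have h2i : (1 : ℝ) ≤ 2 ^ i := one_le_pow₀ (by norm_num)
  have hBi : 2 ≤ B * 2 ^ i := by nlinarith
  have hX : 2 ≤ X / 2 ^ v := hBi.trans h
  have hXX : 2 ≤ X := by
    rw [le_div_iff₀ (by positivity)] at hX
    nlinarith
  have hlog2 : 0 < Real.log 2 := Real.log_pos (by norm_num)
  have e1 : Real.logb 2 (B * 2 ^ i) ≤ Real.logb 2 X - v := by
    have : Real.logb 2 (X / 2 ^ v) = Real.logb 2 X - v := by
      rw [Real.logb_div (by positivity) (by positivity), Real.logb_pow, Real.logb_self_eq_one (by norm_num)]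
      ring
    rw [← this]
    exact Real.logb_le_logb_of_le (by norm_num) (by positivity) h
  rw [Nat.cast_sub hv]
  have e2 : 20 * Real.log X - 1 < (⌊20 * Real.log X⌋₊ : ℝ) := Nat.sub_one_lt_floor _
  have e3 : Real.logb 2 X = Real.log X / Real.log 2 := rfl
  have e4 : Real.log 2 ≤ Real.log X := Real.log_le_log (by norm_num) hXX
  have e5 : 0.6931471803 < Real.log 2 := Real.log_two_gt_d9
  have e6 : Real.log X / Real.log 2 ≤ Real.log X * 1.45 := by
    rw [div_le_iff₀ hlog2]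
    nlinarith
  have hv0 : (0 : ℝ) ≤ v := Nat.cast_nonneg _
  rw [e3] at e1
  linarith

/-- `C, B0` from `dens_all`; `β = C/(logb 2 B)^A`, `t = ⌊20 log X⌋`. Let `x` be in the set, `x = 2^v N`, `N > 0` odd. `k = 0` gives
`x > B ≥ 2`, so `X > 2`; `v ≤ log₂ x ≤ t`; the hypothesis says `bad d B t x`, so `bad d B (t-v) N` and `N > B` and `N ≤ X/2^v`. `N` lies in a window
`[B 2^i, B 2^{i+1})` with `B 2^i ≤ N ≤ X/2^v`, and `8 logb 2 (B 2^i) ≤ 8 (log₂ X - v) ≤ t - v`, because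
`20 log X - 1 - v ≥ 8 log X/log 2 - 8 v` (`8/log 2 ≤ 11.55`, `log X ≥ log 2`). So `N` is counted by `cnt d B (t-v) 0 0 (B 2^i) ≤ β B 2^i/2`
(`dens` with `m = 0`). Sum over `i` with `B 2^i ≤ X/2^v`: `≤ β·X/2^v` (geometric), and over `v`: `≤ 2 β X`. -/
theorem count_pos {d : ℤ} (hd : Odd d) (h3 : ¬ (3 : ℤ) ∣ d) (A : ℕ) : ∃ C : ℝ, 0 ≤ C ∧
    ∃ B0 : ℝ, 2 ≤ B0 ∧ ∀ B X : ℝ, B0 ≤ B → 1 ≤ X →
      (Set.ncard {x : ℤ | 0 < x ∧ (x : ℝ) ≤ X ∧
        ∀ k : ℕ, (k : ℝ) ≤ 20 * Real.log X → B < |(((T d)^[k] x : ℤ) : ℝ)|} : ℝ) ≤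
      C * X / (Real.logb 2 B) ^ A := by
  obtain ⟨C, hC, B0, hB0, hdens⟩ := dens_all hd h3 A
  refine ⟨2 * C, by positivity, B0, hB0, ?_⟩
  intro B X hB hX
  have hB2 : 2 ≤ B := hB0.trans hB
  have hBpos : 0 < B := by linarith
  obtain ⟨t, ht⟩ : ∃ t, t = ⌊20 * Real.log X⌋₊ := ⟨_, rfl⟩
  set β : ℝ := C / (Real.logb 2 B) ^ A with hβ
  have hlB : 0 < Real.logb 2 B := Real.logb_pos (by norm_num) (by linarith)
  have hβ0 : 0 ≤ β := by positivity
  obtain ⟨M, hM⟩ : ∃ M : ℕ, X < 2 ^ M := pow_unbounded_of_one_lt X (by norm_num)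
  -- the pieces
  obtain ⟨W, hW⟩ : ∃ W : ℕ → ℕ → Set ℤ, W = fun v i =>
    {N : ℤ | N ∈ itv (B * 2 ^ i) (2 * (B * 2 ^ i)) ∧ Odd N ∧ N ≡ 0 [ZMOD 3 ^ 0] ∧
      bad d B (t - v) N} := ⟨_, rfl⟩
  have hWfin : ∀ v i, (W v i).Finite := by
    intro v i
    rw [hW]
    exact (itv (B * 2 ^ i) (2 * (B * 2 ^ i))).finite_toSet.subset (fun N hN => hN.1)
  obtain ⟨I, hI⟩ : ∃ I : ℕ → Finset ℕ, I = fun v =>
    (range M).filter (fun i => B * 2 ^ i ≤ X / 2 ^ v) := ⟨_, rfl⟩
  have hsub : {x : ℤ | 0 < x ∧ (x : ℝ) ≤ X ∧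
        ∀ k : ℕ, (k : ℝ) ≤ 20 * Real.log X → B < |(((T d)^[k] x : ℤ) : ℝ)|} ⊆
      ⋃ v ∈ range (t + 1), (fun N : ℤ => 2 ^ v * N) '' (⋃ i ∈ I v, W v i) := by
    rintro x ⟨hx0, hxX, hxb⟩
    have hlogX : 0 ≤ Real.log X := Real.log_nonneg hX
    have hbad : bad d B t x := by
      intro k hk
      refine hxb k ?_
      have h1 : (k : ℝ) ≤ (t : ℝ) := by exact_mod_cast hk
      refine h1.trans ?_
      rw [ht]
      exact Nat.floor_le (by positivity)
    obtain ⟨v, N, hNodd, hxN⟩ : ∃ (v : ℕ) (N : ℤ), Odd N ∧ x = 2 ^ v * N := by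
      obtain ⟨k, m, hm, hkm⟩ := Nat.exists_eq_two_pow_mul_odd (n := x.toNat) (by omega)
      refine ⟨k, m, by exact_mod_cast hm, ?_⟩
      have : x = ((x.toNat : ℕ) : ℤ) := by omega
      rw [this, hkm]
      push_cast
      ring
    have hN0 : 0 < N := by
      by_contra hcon
      push Not at hcon
      have : 2 ^ v * N ≤ 0 := mul_nonpos_of_nonneg_of_nonpos (by positivity) hcon
      omega
    have h2v : (0 : ℝ) < 2 ^ v := by positivity
    have hxr : (x : ℝ) = 2 ^ v * (N : ℝ) := by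
      rw [hxN]; push_cast; ring
    have hNX : (N : ℝ) ≤ X / 2 ^ v := by
      rw [le_div_iff₀ h2v, mul_comm, ← hxr]
      exact hxX
    have hN1 : (1 : ℝ) ≤ N := by exact_mod_cast hN0
    have hxB : B < x := by
      have := hbad 0 (Nat.zero_le _)
      simp only [Function.iterate_zero, id] at this
      rwa [abs_of_pos (by exact_mod_cast hx0)] at this
    have hX2 : 2 < X := by linarith
    have hvt : v ≤ t := by
      have h1 : (2 : ℝ) ^ v ≤ X := by
        have : (2 : ℝ) ^ v ≤ 2 ^ v * (N : ℝ) := by nlinarith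
        linarith
      have h2 : (v : ℝ) * Real.log 2 ≤ Real.log X := by
        rw [← Real.log_pow]
        exact Real.log_le_log (by positivity) h1
      have h3 : 0.6931471803 < Real.log 2 := Real.log_two_gt_d9
      have h4 : Real.log 2 ≤ Real.log X := Real.log_le_log (by norm_num) hX2.le
      rw [ht]
      refine Nat.le_floor ?_
      have hv0 : (0 : ℝ) ≤ v := Nat.cast_nonneg _
      nlinarith
    rw [hxN] at hbad
    have hbN := bad_odd_part B t v N hvt hbad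
    have hNB : B < N := by
      have := hbN 0 (Nat.zero_le _)
      simp only [Function.iterate_zero, id] at this
      rwa [abs_of_pos (by exact_mod_cast hN0)] at this
    -- the window
    obtain ⟨i, hi1, hi2⟩ : ∃ i : ℕ, B * 2 ^ i ≤ N ∧ (N : ℝ) < B * 2 ^ (i + 1) := by
      obtain ⟨n, hn1, hn2⟩ := exists_nat_pow_near (x := (N : ℝ) / B) (y := 2)
        (by rw [le_div_iff₀ hBpos]; linarith) (by norm_num)
      refine ⟨n, ?_, ?_⟩
      · rw [le_div_iff₀ hBpos] at hn1; linarith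
      · rw [div_lt_iff₀ hBpos] at hn2; linarith
    refine Set.mem_iUnion₂.2 ⟨v, Finset.mem_range.2 (by omega), N, ?_, hxN.symm⟩
    refine Set.mem_iUnion₂.2 ⟨i, ?_, ?_⟩
    · rw [hI]
      refine Finset.mem_filter.2 ⟨Finset.mem_range.2 ?_, hi1.trans hNX⟩
      by_contra hcon
      push Not at hcon
      have h1 : (2 : ℝ) ^ M ≤ 2 ^ i := pow_le_pow_right₀ (by norm_num) hcon
      have h2 : (2 : ℝ) ^ i ≤ B * 2 ^ i := by
        have : (0 : ℝ) < 2 ^ i := by positivity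
        nlinarith
      have h3 : X / 2 ^ v ≤ X := div_le_self (by linarith) (one_le_pow₀ (by norm_num))
      linarith
    · rw [hW]
      refine ⟨?_, hNodd, ?_, hbN⟩
      · unfold itv
        rw [Finset.mem_Ico]
        refine ⟨Int.ceil_le.2 hi1, Int.lt_ceil.2 ?_⟩
        rw [pow_succ] at hi2
        linarith
      · simp [Int.modEq_one]
  have hfin : (⋃ v ∈ range (t + 1), (fun N : ℤ => 2 ^ v * N) '' (⋃ i ∈ I v, W v i)).Finite := by
    refine Set.Finite.biUnion (Finset.finite_toSet _) fun v _ => Set.Finite.image _ ?_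
    exact Set.Finite.biUnion (Finset.finite_toSet _) fun i _ => hWfin v i
  have h1 := (Set.ncard_le_ncard hsub hfin).trans (b8_ncard_le_sum _ _)
  have h2 : ∀ v ∈ range (t + 1), (((fun N : ℤ => 2 ^ v * N) '' (⋃ i ∈ I v, W v i)).ncard : ℝ) ≤
      β * (X / 2 ^ v) := by
    intro v hv
    have hvt : v ≤ t := by
      have := Finset.mem_range.1 hv
      omega
    have g1 : ((fun N : ℤ => 2 ^ v * N) '' (⋃ i ∈ I v, W v i)).ncard ≤ ∑ i ∈ I v, (W v i).ncard :=
      (Set.ncard_image_le (Set.Finite.biUnion (Finset.finite_toSet _) fun i _ => hWfin v i)).trans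
        (b8_ncard_le_sum _ _)
    have g2 : ∀ i ∈ I v, ((W v i).ncard : ℝ) ≤ β / 2 * (B * 2 ^ i) := by
      intro i hi
      rw [hI] at hi
      have hi' := (Finset.mem_filter.1 hi).2
      have h2i : (1 : ℝ) ≤ 2 ^ i := one_le_pow₀ (by norm_num)
      have g3 := hdens B (B * 2 ^ i) hB (by nlinarith) 0 0 (t - v) (by simp) (by
        rw [ht]
        rw [ht] at hvt
        exact b8_time hB2 hi' hvt)
      have g4 : (cnt d B (t - v) 0 0 (B * 2 ^ i) : ℝ) = ((W v i).ncard : ℝ) := by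
        rw [hW]; rfl
      rw [g4] at g3
      refine g3.trans (le_of_eq ?_)
      rw [hβ]
      ring
    calc (((fun N : ℤ => 2 ^ v * N) '' (⋃ i ∈ I v, W v i)).ncard : ℝ)
        ≤ ((∑ i ∈ I v, (W v i).ncard : ℕ) : ℝ) := by exact_mod_cast g1
      _ = ∑ i ∈ I v, ((W v i).ncard : ℝ) := by push_cast; rfl
      _ ≤ ∑ i ∈ I v, β / 2 * (B * 2 ^ i) := Finset.sum_le_sum g2
      _ = β / 2 * ∑ i ∈ I v, B * 2 ^ i := by rw [Finset.mul_sum]
      _ ≤ β / 2 * (2 * (X / 2 ^ v)) := by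
          refine mul_le_mul_of_nonneg_left ?_ (by positivity)
          rw [hI]
          exact b8_geom hBpos (by positivity) M
      _ = β * (X / 2 ^ v) := by ring
  calc _ ≤ ((∑ v ∈ range (t + 1), ((fun N : ℤ => 2 ^ v * N) '' (⋃ i ∈ I v, W v i)).ncard : ℕ) : ℝ) := by
        exact_mod_cast h1
    _ = ∑ v ∈ range (t + 1), (((fun N : ℤ => 2 ^ v * N) '' (⋃ i ∈ I v, W v i)).ncard : ℝ) := by
        push_cast; rfl
    _ ≤ ∑ v ∈ range (t + 1), β * (X / 2 ^ v) := Finset.sum_le_sum h2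
    _ = β * ∑ v ∈ range (t + 1), X / 2 ^ v := by rw [Finset.mul_sum]
    _ ≤ β * (2 * X) := mul_le_mul_of_nonneg_left (b8_half X (by linarith) _) hβ0
    _ = 2 * C * X / (Real.logb 2 B) ^ A := by rw [hβ]; ring

end Pool.Agent.Lib.MP_d0d59f_nt.AA

end

section

/-! Row B9 (about 150 lines): final theorem. -/

namespace Pool.Agent.Lib.MP_d0d59f_nt.AA

open Finset

theorem b9_T_neg {d : ℤ} (hd : Odd d) (x : ℤ) : T (-d) (-x) = -(T d x) := by
  obtain ⟨c, rfl⟩ := hd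
  unfold T
  by_cases h : x % 2 = 0
  · rw [if_pos h, if_pos (by omega)]
    omega
  · rw [if_neg h, if_neg (by omega)]
    omega

/-- `T_{-d}(-x) = -T_d(x)`, for odd `d`. -/
theorem T_neg_iterate {d : ℤ} (hd : Odd d) (k : ℕ) (x : ℤ) :
    (T (-d))^[k] (-x) = -(T d)^[k] x := by
  induction k with
  | zero => simp
  | succ k ih =>
    rw [Function.iterate_succ_apply', Function.iterate_succ_apply', ih, b9_T_neg hd]

theorem b9_abs_subset (X : ℝ) : {x : ℤ | |(x : ℝ)| ≤ X} ⊆ (Finset.Icc (-⌊X⌋) ⌊X⌋ : Finset ℤ) := by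
  intro x hx
  simp only [Set.mem_setOf_eq] at hx
  rw [abs_le] at hx
  simp only [Finset.coe_Icc, Set.mem_Icc]
  constructor
  · have : (-x : ℤ) ≤ ⌊X⌋ := by
      rw [Int.le_floor]; push_cast; linarith
    omega
  · rw [Int.le_floor]; exact hx.2

theorem b9_finite (X : ℝ) : {x : ℤ | |(x : ℝ)| ≤ X}.Finite :=
  (Finset.finite_toSet _).subset (b9_abs_subset X)

theorem b9_ncard_le (X : ℝ) (hX : 1 ≤ X) (S : Set ℤ) (hS : S ⊆ {x : ℤ | |(x : ℝ)| ≤ X}) :
    (S.ncard : ℝ) ≤ 3 * X := by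
  have h1 : S.ncard ≤ (Finset.Icc (-⌊X⌋) ⌊X⌋ : Finset ℤ).card := by
    rw [← Set.ncard_coe_finset]
    exact Set.ncard_le_ncard (hS.trans (b9_abs_subset X)) (Finset.finite_toSet _)
  have hfl : (0 : ℤ) ≤ ⌊X⌋ := Int.floor_nonneg.mpr (by linarith)
  have h2 : ((Finset.Icc (-⌊X⌋) ⌊X⌋ : Finset ℤ).card : ℝ) = 2 * (⌊X⌋ : ℝ) + 1 := by
    rw [Int.card_Icc]
    have : ((⌊X⌋ + 1 - -⌊X⌋).toNat : ℤ) = ⌊X⌋ + 1 - -⌊X⌋ := Int.toNat_of_nonneg (by omega)
    have h3 : (((⌊X⌋ + 1 - -⌊X⌋).toNat : ℤ) : ℝ) = ((⌊X⌋ + 1 - -⌊X⌋ : ℤ) : ℝ) := by rw [this]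
    push_cast at h3
    push_cast
    rw [h3]; ring
  have h4 : ((⌊X⌋ : ℤ) : ℝ) ≤ X := Int.floor_le X
  calc (S.ncard : ℝ) ≤ ((Finset.Icc (-⌊X⌋) ⌊X⌋ : Finset ℤ).card : ℝ) := by exact_mod_cast h1
    _ = 2 * (⌊X⌋ : ℝ) + 1 := h2
    _ ≤ 3 * X := by linarith

/-- `count_pos` for `d` (positive `x`) and for `-d` (negative `x`, `T_neg_iterate`); `x = 0` is not in the set (`k = 0`). For `B < B0`
use that there are at most `2X+1 ≤ 3X` integers with `|x| ≤ X` and `log B ≤ log B0`. `log ≤ logb 2`. -/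
theorem almost_all {d : ℤ} (hd : Odd d) (h3 : ¬ (3 : ℤ) ∣ d) (A : ℕ) : ∃ C : ℝ, 0 ≤ C ∧
    ∀ B X : ℝ, 2 ≤ B → 1 ≤ X →
      (Set.ncard {x : ℤ | |(x : ℝ)| ≤ X ∧
        ∀ k : ℕ, (k : ℝ) ≤ 20 * Real.log X → B < |(((T d)^[k] x : ℤ) : ℝ)|} : ℝ) ≤
      C * X / (Real.log B) ^ A := by
  obtain ⟨C1, hC1, B1, hB1, H1⟩ := count_pos hd h3 A
  obtain ⟨C2, hC2, B2, hB2, H2⟩ := count_pos (d := -d) hd.neg (by rwa [dvd_neg]) A
  set B0 : ℝ := max B1 B2 with hB0
  have hB02 : 2 ≤ B0 := le_trans hB1 (le_max_left _ _)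
  have hlogB0 : 0 ≤ Real.log B0 := Real.log_nonneg (by linarith)
  refine ⟨C1 + C2 + 3 * Real.log B0 ^ A, by positivity, ?_⟩
  intro B X hB hX
  have hlogB : 0 < Real.log B := Real.log_pos (by linarith)
  have hpow : 0 < Real.log B ^ A := by positivity
  set S : Set ℤ := {x : ℤ | |(x : ℝ)| ≤ X ∧
        ∀ k : ℕ, (k : ℝ) ≤ 20 * Real.log X → B < |(((T d)^[k] x : ℤ) : ℝ)|} with hS
  have hX0 : 0 ≤ X := by linarith
  by_cases hBB : B0 ≤ B
  · set S1 : Set ℤ := {x : ℤ | 0 < x ∧ (x : ℝ) ≤ X ∧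
        ∀ k : ℕ, (k : ℝ) ≤ 20 * Real.log X → B < |(((T d)^[k] x : ℤ) : ℝ)|} with hS1
    set S2 : Set ℤ := {x : ℤ | 0 < x ∧ (x : ℝ) ≤ X ∧
        ∀ k : ℕ, (k : ℝ) ≤ 20 * Real.log X → B < |(((T (-d))^[k] x : ℤ) : ℝ)|} with hS2
    have hf1 : S1.Finite := by
      refine (b9_finite X).subset ?_
      rintro x ⟨hx1, hx2, -⟩
      have : (0 : ℝ) < x := by exact_mod_cast hx1
      simp only [Set.mem_setOf_eq]
      rw [abs_of_pos this]; exact hx2
    have hf2 : S2.Finite := by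
      refine (b9_finite X).subset ?_
      rintro x ⟨hx1, hx2, -⟩
      have : (0 : ℝ) < x := by exact_mod_cast hx1
      simp only [Set.mem_setOf_eq]
      rw [abs_of_pos this]; exact hx2
    have hsub : S ⊆ S1 ∪ (Neg.neg '' S2) := by
      rintro x ⟨hx1, hx2⟩
      have h0 := hx2 0 (by
        have := Real.log_nonneg hX
        push_cast; positivity)
      simp only [Function.iterate_zero, id_eq] at h0
      rcases lt_trichotomy x 0 with h | h | h
      · right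
        refine ⟨-x, ⟨by omega, ?_, ?_⟩, by simp⟩
        · push_cast
          have : (x : ℝ) < 0 := by exact_mod_cast h
          rw [abs_of_neg this] at hx1
          exact hx1
        · intro k hk
          rw [T_neg_iterate hd]
          push_cast
          rw [abs_neg]
          exact hx2 k hk
      · exfalso
        rw [h] at h0
        simp at h0
        linarith
      · left
        refine ⟨h, ?_, hx2⟩
        have : (0 : ℝ) < x := by exact_mod_cast h
        rw [abs_of_pos this] at hx1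
        exact hx1
    have hc : S.ncard ≤ S1.ncard + S2.ncard := by
      calc S.ncard ≤ (S1 ∪ (Neg.neg '' S2)).ncard :=
            Set.ncard_le_ncard hsub (hf1.union (hf2.image _))
        _ ≤ S1.ncard + (Neg.neg '' S2).ncard := Set.ncard_union_le _ _
        _ ≤ S1.ncard + S2.ncard := Nat.add_le_add_left (Set.ncard_image_le hf2) _
    have e1 := H1 B X (le_trans (le_max_left _ _) hBB) hX
    have e2 := H2 B X (le_trans (le_max_right _ _) hBB) hX
    have hlb : Real.log B ≤ Real.logb 2 B := by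
      rw [Real.logb, le_div_iff₀ (Real.log_pos (by norm_num))]
      have : Real.log 2 ≤ 1 := by
        have := Real.log_two_lt_d9
        linarith
      nlinarith
    have hlb2 : Real.log B ^ A ≤ Real.logb 2 B ^ A := pow_le_pow_left₀ hlogB.le hlb A
    have f1 : C1 * X / Real.logb 2 B ^ A ≤ C1 * X / Real.log B ^ A :=
      div_le_div_of_nonneg_left (by positivity) hpow hlb2
    have f2 : C2 * X / Real.logb 2 B ^ A ≤ C2 * X / Real.log B ^ A :=
      div_le_div_of_nonneg_left (by positivity) hpow hlb2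
    have hcr : (S.ncard : ℝ) ≤ (S1.ncard : ℝ) + (S2.ncard : ℝ) := by exact_mod_cast hc
    have f3 : 0 ≤ 3 * Real.log B0 ^ A * X / Real.log B ^ A := by positivity
    have : (C1 + C2 + 3 * Real.log B0 ^ A) * X / Real.log B ^ A =
        C1 * X / Real.log B ^ A + C2 * X / Real.log B ^ A + 3 * Real.log B0 ^ A * X / Real.log B ^ A := by
      ring
    rw [this]
    linarith
  · push Not at hBB
    have hle : (S.ncard : ℝ) ≤ 3 * X := b9_ncard_le X hX S (fun x hx => hx.1)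
    have hl : Real.log B ≤ Real.log B0 := Real.log_le_log (by linarith) hBB.le
    have hl2 : Real.log B ^ A ≤ Real.log B0 ^ A := pow_le_pow_left₀ hlogB.le hl A
    rw [le_div_iff₀ hpow]
    have g1 : (S.ncard : ℝ) * Real.log B ^ A ≤ 3 * X * Real.log B0 ^ A :=
      mul_le_mul hle hl2 hpow.le (by positivity)
    have g2 : 0 ≤ (C1 + C2) * X := by positivity
    nlinarith

/-- `F = [-⌊B⌋, ⌊B⌋]` with `C/log B ≤ ε` (`almost_all` with `A = 1`). -/
theorem finite_hitting {d : ℤ} (hd : Odd d) (h3 : ¬ (3 : ℤ) ∣ d) (ε : ℝ) (hε : 0 < ε) :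
    ∃ F : Finset ℤ, ∀ X : ℝ, 1 ≤ X →
      (Set.ncard {x : ℤ | |(x : ℝ)| ≤ X ∧ ∀ k : ℕ, (k : ℝ) ≤ 20 * Real.log X → (T d)^[k] x ∉ F} : ℝ)
        ≤ ε * X := by
  obtain ⟨C, hC, H⟩ := almost_all hd h3 1
  set B : ℝ := max 2 (Real.exp (C / ε)) with hB
  have hB2 : 2 ≤ B := le_max_left _ _
  have hlogB : 0 < Real.log B := Real.log_pos (by linarith)
  have hCl : C / ε ≤ Real.log B := by
    rw [Real.le_log_iff_exp_le (by linarith)]
    exact le_max_right _ _
  refine ⟨Finset.Icc (-⌊B⌋) ⌊B⌋, ?_⟩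
  intro X hX
  have h := H B X hB2 hX
  have hX0 : 0 ≤ X := by linarith
  have h1 : C * X / Real.log B ^ 1 ≤ ε * X := by
    rw [pow_one, div_le_iff₀ hlogB]
    rw [div_le_iff₀ hε] at hCl
    nlinarith
  refine le_trans ?_ (le_trans h h1)
  have hfin : {x : ℤ | |(x : ℝ)| ≤ X ∧
        ∀ k : ℕ, (k : ℝ) ≤ 20 * Real.log X → B < |(((T d)^[k] x : ℤ) : ℝ)|}.Finite :=
    (b9_finite X).subset (fun x hx => hx.1)
  have := Set.ncard_le_ncard (s := {x : ℤ | |(x : ℝ)| ≤ X ∧ ∀ k : ℕ, (k : ℝ) ≤ 20 * Real.log X →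
      (T d)^[k] x ∉ (Finset.Icc (-⌊B⌋) ⌊B⌋ : Finset ℤ)}) ?_ hfin
  · exact_mod_cast this
  · rintro x ⟨hx1, hx2⟩
    refine ⟨hx1, fun k hk => ?_⟩
    by_contra hcon
    push Not at hcon
    exact hx2 k hk (by exact_mod_cast b9_abs_subset B hcon)

end Pool.Agent.Lib.MP_d0d59f_nt.AA

end
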