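import Mathlib
import Pool.Agent.Lib.MP_d0d59f_nt.NK.K016

namespace Pool.Agent.Lib.MP_d0d59f_nt.AA
end Pool.Agent.Lib.MP_d0d59f_nt.AA

section

/-! The mixing estimate with constants that do not depend on `d`. -/

namespace Pool.Agent.Lib.MP_d0d59f_nt.AA

open Finset

theorem back_boundU (E : ℕ) : ∃ C : ℝ, 1 ≤ C ∧
    ∀ (d : ℤ), ¬ (3 : ℤ) ∣ d → ∀ (r : ℤ) (K n t s l L : ℕ) (ξ : ZMod (3 ^ (K + 1))), n ≤ K + 1 → (K + 1 - n) ^ 2 ≤ K + 1 →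
      10 * t ≤ 9 * (K + 1) → t ≤ n → s ≤ l → l ≤ L → (3 : ZMod (3 ^ (K + 1))) ^ K * ξ ≠ 0 →
      ‖bh d r (K + 1) (n - t) (l - s) (3 ^ t * i2 (K + 1) ^ s * ξ)‖ ≤
        C / ((K : ℝ) + 1) ^ E := by
  obtain ⟨C, hC1, hC⟩ := decay (2 * E)
  refine ⟨C * 900 ^ E, ?_, ?_⟩
  · have : (1 : ℝ) ≤ 900 ^ E := one_le_pow₀ (by norm_num)
    nlinarith
  intro d h3 r K n t s l L ξ hn hsq ht htn hsl hlL hξ
  set J : ℕ := (n - t) / 2 with hJ
  obtain ⟨R1, hR1⟩ : ∃ R1 : ℕ, R1 + 2 * J = K + 1 - t := ⟨K + 1 - t - 2 * J, by omega⟩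
  set y : ZMod (3 ^ (K + 1)) := 2 * (d : ZMod (3 ^ (K + 1))) * (3 ^ t * i2 (K + 1) ^ s * ξ)
    with hy
  have hb := norm_bh_le d r (K + 1) L J (n - t) (l - s) (by omega) (by omega)
    (3 ^ t * i2 (K + 1) ^ s * ξ)
  have hz0 : (3 : ZMod (3 ^ (K + 1))) ^ (R1 + 2 * J) * y = 0 := by
    have e1 : (3 : ZMod (3 ^ (K + 1))) ^ (R1 + 2 * J) * 3 ^ t = 0 := by
      rw [← pow_add, hR1, Nat.sub_add_cancel (by omega)]
      exact c7a_three_pow_self (K + 1)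
    calc (3 : ZMod (3 ^ (K + 1))) ^ (R1 + 2 * J) * y
        = ((3 : ZMod (3 ^ (K + 1))) ^ (R1 + 2 * J) * 3 ^ t)
            * (2 * (d : ZMod (3 ^ (K + 1))) * (i2 (K + 1) ^ s * ξ)) := by rw [hy]; ring
      _ = 0 := by rw [e1, zero_mul]
  have hz1 : 1 ≤ J → (3 : ZMod (3 ^ (K + 1))) ^ (R1 + 2 * J - 1) * y ≠ 0 := by
    intro hJ1 h0
    apply hξ
    have e1 : (3 : ZMod (3 ^ (K + 1))) ^ (R1 + 2 * J - 1) * 3 ^ t = 3 ^ K := by
      rw [← pow_add]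
      congr 1
      omega
    have e2 : (d : ZMod (3 ^ (K + 1))) * (3 ^ K * ξ) = 0 := by
      have e3 : (3 : ZMod (3 ^ (K + 1))) ^ (R1 + 2 * J - 1) * y
          = 2 * (d : ZMod (3 ^ (K + 1))) * (i2 (K + 1) ^ s * (3 ^ K * ξ)) := by
        rw [hy, ← e1]; ring
      rw [e3] at h0
      have e4 : i2 (K + 1) * 2 ^ s * (2 * (d : ZMod (3 ^ (K + 1)))
          * (i2 (K + 1) ^ s * (3 ^ K * ξ))) = 0 := by rw [h0, mul_zero]
      have e5 : i2 (K + 1) * 2 ^ s * (2 * (d : ZMod (3 ^ (K + 1)))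
          * (i2 (K + 1) ^ s * (3 ^ K * ξ)))
          = (2 * i2 (K + 1)) * ((2 : ZMod (3 ^ (K + 1))) ^ s * i2 (K + 1) ^ s)
            * ((d : ZMod (3 ^ (K + 1))) * (3 ^ K * ξ)) := by ring
      rw [e5, two_mul_i2, two_pow_mul_i2_pow, one_mul, one_mul] at e4
      exact e4
    exact (c7a_unit h3 (K + 1)).mul_right_eq_zero.mp e2
  have hd := hC (K + 1) L R1 J y hz0 hz1
  refine hb.trans (hd.trans ?_)
  have hr := c7a_ratio (K := K) (q := K + 1 - n) (t := t) (J := J) (R1 := R1) hsq (by omega) ht hR1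
    (by omega) E
  calc C * (((R1 : ℝ) + 1) / ((R1 : ℝ) + 1 + 2 * J)) ^ (2 * E)
      ≤ C * (900 ^ E / ((K : ℝ) + 1) ^ E) := mul_le_mul_of_nonneg_left hr (by linarith)
    _ = C * 900 ^ E / ((K : ℝ) + 1) ^ E := by ring

theorem single_stepU (A : ℕ) : ∃ C : ℝ, 1 ≤ C ∧
    ∀ (d : ℤ), ¬ (3 : ℤ) ∣ d → ∀ (r : ℤ) (K n L : ℕ), n ≤ K + 1 → (K + 1 - n) ^ 2 ≤ K + 1 →
      osc d r (K + 1) K n L ≤ C * ((L : ℝ) + 1) / ((K : ℝ) + 1) ^ A := by
  obtain ⟨B, hB⟩ : ∃ B, B = A + 2 := ⟨_, rfl⟩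
  obtain ⟨E, hE⟩ : ∃ E, E = A + 2 * B + 1 := ⟨_, rfl⟩
  obtain ⟨C1, hC1, hback⟩ := back_boundU E
  obtain ⟨C5, hC5, hexp⟩ := c7b_exp A
  -- the threshold
  obtain ⟨K1, hK1⟩ : ∃ K1 : ℕ, ∀ n ≥ K1, 2 * n ^ (2 * B) ≤ 3 ^ n := by
    have h := tendsto_pow_const_mul_const_pow_of_abs_lt_one (2 * B) (r := (1 / 3 : ℝ))
      (by rw [abs_of_pos (by norm_num)]; norm_num)
    obtain ⟨K1, hK1⟩ := Filter.eventually_atTop.1 (h.eventually (gt_mem_nhds (show (0 : ℝ) < 1 / 2 by norm_num)))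
    refine ⟨K1, fun n hn => ?_⟩
    have h1 := hK1 n hn
    rw [one_div, inv_pow, mul_inv_lt_iff₀ (by positivity)] at h1
    have h2 : 2 * (n : ℝ) ^ (2 * B) ≤ 3 ^ n := by linarith
    exact_mod_cast h2
  obtain ⟨K0, hK0⟩ : ∃ K0, K0 = max K1 100 := ⟨_, rfl⟩
  refine ⟨2 * (K0 : ℝ) ^ A + (4 * C1 + 2 * (C5 + 2)), ?_, ?_⟩
  · have : 0 ≤ 2 * (K0 : ℝ) ^ A := by positivity
    linarith
  intro d h3 r K n L hn hn2
  obtain ⟨K', hK'⟩ : ∃ K', K' = K + 1 := ⟨_, rfl⟩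
  have hcast : (K : ℝ) + 1 = (K' : ℝ) := by rw [hK']; push_cast; ring
  rw [hcast]
  have hK'1 : 1 ≤ K' := by omega
  have hK'r : (1 : ℝ) ≤ K' := by exact_mod_cast hK'1
  have hL0 : (0 : ℝ) ≤ L := Nat.cast_nonneg _
  have hLA : 0 < (K' : ℝ) ^ A := by positivity
  rw [le_div_iff₀ hLA]
  by_cases hsmall : K' < K0
  · have h1 := c7b_osc_le_two d r K n L
    have h2 : (K' : ℝ) ^ A ≤ (K0 : ℝ) ^ A :=
      pow_le_pow_left₀ (by positivity) (by exact_mod_cast hsmall.le) _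
    calc osc d r (K + 1) K n L * (K' : ℝ) ^ A ≤ 2 * (K0 : ℝ) ^ A :=
          mul_le_mul h1 h2 (by positivity) (by norm_num)
      _ ≤ (2 * (K0 : ℝ) ^ A + (4 * C1 + 2 * (C5 + 2))) * 1 := by linarith
      _ ≤ (2 * (K0 : ℝ) ^ A + (4 * C1 + 2 * (C5 + 2))) * ((L : ℝ) + 1) := by
          refine mul_le_mul_of_nonneg_left (by linarith) ?_
          have : 0 ≤ 2 * (K0 : ℝ) ^ A := by positivity
          linarith
  · push Not at hsmall
    have hKK1 : K1 ≤ K' := (le_max_left _ _).trans (hK0 ▸ hsmall)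
    have hK100 : 100 ≤ K' := (le_max_right _ _).trans (hK0 ▸ hsmall)
    obtain ⟨h, L0, p1, p2, p3, p4, p5⟩ := c7b_params B K' hK'1 (hK1 K' hKK1)
    obtain ⟨τ, hτ⟩ : ∃ τ, τ = 9 * K' / 10 := ⟨_, rfl⟩
    have hτ1 : 10 * τ ≤ 9 * K' := by omega
    have hτ2 : 9 * K' ≤ 10 * τ + 9 := by omega
    have hτn : τ ≤ n := by
      by_contra hcon
      push Not at hcon
      rw [← hK'] at hn2
      have g1 : K' ≤ 10 * (K' - n) := by omega
      have g2 : K' * K' ≤ (10 * (K' - n)) * (10 * (K' - n)) := Nat.mul_le_mul g1 g1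
      have g3 : (10 * (K' - n)) * (10 * (K' - n)) = 100 * (K' - n) ^ 2 := by ring
      have g4 : K' * K' ≤ 100 * K' := by
        rw [g3] at g2
        exact g2.trans (Nat.mul_le_mul_left _ hn2)
      have g5 : K' ≤ 100 := Nat.le_of_mul_le_mul_right g4 (by omega)
      have g6 : K' = 100 := le_antisymm g5 hK100
      rw [g6] at hn2 hτ
      have g7 : 100 - n ≤ 10 := by
        by_contra hc
        push Not at hc
        have : 11 ^ 2 ≤ (100 - n) ^ 2 := Nat.pow_le_pow_left hc 2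
        omega
      omega
    have hbE : 0 ≤ C1 / (K' : ℝ) ^ E := by positivity
    have hfront := osc_front h3 r K n τ L0 h L hτn (C1 / (K' : ℝ) ^ E) hbE (by
      intro t ht s hs l hl hsl ξ hξ
      have ht' := (Finset.mem_Icc.1 ht).2
      have := hback d h3 r K n t s l L ξ hn hn2 (by omega) (ht'.trans hτn) hsl hl hξ
      rwa [hcast] at this)
    have hbad := bad_mass n K τ L0 h L (K' ^ B) hτn (Nat.one_le_pow _ _ hK'1) (by rw [← hK']; exact p1)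
    rw [← hK'] at hfront
    -- estimates
    have hsqrt : Real.sqrt (3 ^ K' / 2 ^ L0) ≤ 2 * (K' : ℝ) ^ B := by
      rw [Real.sqrt_le_left (by positivity)]
      refine p2.trans (le_of_eq ?_)
      rw [mul_pow, ← pow_mul, mul_comm B 2]
      norm_num
    have hτr : (τ : ℝ) ≤ K' := by
      have : τ ≤ K' := by omega
      exact_mod_cast this
    have hhr : (h : ℝ) ≤ 2 * (K' : ℝ) ^ B := by exact_mod_cast p5
    have hτ0 : (0 : ℝ) ≤ τ := Nat.cast_nonneg _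
    have hh0 : (0 : ℝ) ≤ h := Nat.cast_nonneg _
    have t1 : ((L : ℝ) + 1) * τ * h * (C1 / (K' : ℝ) ^ E * Real.sqrt (3 ^ K' / 2 ^ L0)) * (K' : ℝ) ^ A
        ≤ 4 * C1 * ((L : ℝ) + 1) := by
      calc ((L : ℝ) + 1) * τ * h * (C1 / (K' : ℝ) ^ E * Real.sqrt (3 ^ K' / 2 ^ L0)) * (K' : ℝ) ^ A
          ≤ ((L : ℝ) + 1) * K' * (2 * (K' : ℝ) ^ B) * (C1 / (K' : ℝ) ^ E * (2 * (K' : ℝ) ^ B)) *
            (K' : ℝ) ^ A := by
            gcongr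
        _ = 4 * C1 * ((L : ℝ) + 1) * ((K' : ℝ) ^ (A + 2 * B + 1) / (K' : ℝ) ^ E) := by
            have g0 : (K' : ℝ) ^ (A + 2 * B + 1) =
                (K' : ℝ) ^ A * (K' : ℝ) ^ B * (K' : ℝ) ^ B * K' := by
              rw [two_mul, pow_succ, pow_add, pow_add]
              ring
            rw [g0]
            ring
        _ = 4 * C1 * ((L : ℝ) + 1) := by
            rw [hE, div_self (by positivity), mul_one]
    have t2 : (7 / 6 : ℝ) ^ L0 * (3 / 4) ^ τ * (K' : ℝ) ^ A ≤ C5 := hexp K' L0 τ p3 hτ2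
    have t3 : (τ : ℝ) / 2 ^ h * (K' : ℝ) ^ A ≤ 1 := by
      have g1 : (K' : ℝ) ^ B ≤ 2 ^ h := by exact_mod_cast p4
      rw [div_mul_eq_mul_div, div_le_one (by positivity)]
      calc (τ : ℝ) * (K' : ℝ) ^ A ≤ K' * (K' : ℝ) ^ A := mul_le_mul_of_nonneg_right hτr (by positivity)
        _ = (K' : ℝ) ^ (A + 1) := by ring
        _ ≤ (K' : ℝ) ^ B := pow_le_pow_right₀ hK'r (by omega)
        _ ≤ 2 ^ h := g1
    have t4 : (τ : ℝ) ^ 2 / ((K' ^ B : ℕ) : ℝ) * (K' : ℝ) ^ A ≤ 1 := by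
      push_cast
      rw [div_mul_eq_mul_div, div_le_one (by positivity)]
      calc (τ : ℝ) ^ 2 * (K' : ℝ) ^ A ≤ (K' : ℝ) ^ 2 * (K' : ℝ) ^ A := by gcongr
        _ = (K' : ℝ) ^ B := by rw [hB]; ring
    have t5 : (∑ l ∈ range (L + 1), (1 / 2 : ℝ) ^ l *
          (((comps n l).filter fun e => ¬ good K τ L0 h e).card : ℝ)) * (K' : ℝ) ^ A ≤ C5 + 2 := by
      calc _ ≤ ((7 / 6 : ℝ) ^ L0 * (3 / 4) ^ τ + τ / 2 ^ h + (τ : ℝ) ^ 2 / ((K' ^ B : ℕ) : ℝ)) *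
            (K' : ℝ) ^ A := mul_le_mul_of_nonneg_right hbad (by positivity)
        _ = (7 / 6 : ℝ) ^ L0 * (3 / 4) ^ τ * (K' : ℝ) ^ A + τ / 2 ^ h * (K' : ℝ) ^ A +
            (τ : ℝ) ^ 2 / ((K' ^ B : ℕ) : ℝ) * (K' : ℝ) ^ A := by ring
        _ ≤ C5 + 1 + 1 := add_le_add (add_le_add t2 t3) t4
        _ = C5 + 2 := by ring
    calc osc d r (K + 1) K n L * (K' : ℝ) ^ A
        ≤ (((L : ℝ) + 1) * τ * h * (C1 / (K' : ℝ) ^ E * Real.sqrt (3 ^ K' / 2 ^ L0))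
          + 2 * ∑ l ∈ range (L + 1), (1 / 2 : ℝ) ^ l *
          (((comps n l).filter fun e => ¬ good K τ L0 h e).card : ℝ)) * (K' : ℝ) ^ A := by
          refine mul_le_mul_of_nonneg_right ?_ (by positivity)
          rw [← hK']
          exact hfront
      _ = ((L : ℝ) + 1) * τ * h * (C1 / (K' : ℝ) ^ E * Real.sqrt (3 ^ K' / 2 ^ L0)) * (K' : ℝ) ^ A
          + 2 * ((∑ l ∈ range (L + 1), (1 / 2 : ℝ) ^ l *
          (((comps n l).filter fun e => ¬ good K τ L0 h e).card : ℝ)) * (K' : ℝ) ^ A) := by ring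
      _ ≤ 4 * C1 * ((L : ℝ) + 1) + 2 * (C5 + 2) * 1 := by linarith
      _ ≤ 4 * C1 * ((L : ℝ) + 1) + 2 * (C5 + 2) * ((L : ℝ) + 1) := by
          gcongr
          linarith
      _ ≤ (2 * (K0 : ℝ) ^ A + (4 * C1 + 2 * (C5 + 2))) * ((L : ℝ) + 1) := by
          have : 0 ≤ 2 * (K0 : ℝ) ^ A * ((L : ℝ) + 1) := by positivity
          linarith

theorem osc_boundU (A : ℕ) : ∃ C : ℝ, 0 ≤ C ∧
    ∀ (d : ℤ), ¬ (3 : ℤ) ∣ d → ∀ (k m : ℕ) (r : ℤ), 1 ≤ k → m * m ≤ k →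
      osc d r (10 * k + m) (Nat.sqrt (k / 2)) (10 * k) (21 * k) ≤ C / (k : ℝ) ^ A := by
  obtain ⟨C₁, hC1, hs⟩ := single_stepU (2 * (A + 2))
  refine ⟨242 * C₁ * 2 ^ (A + 2), by positivity, fun d h3 k m r hk hm => ?_⟩
  have hk0 : (0 : ℝ) < k := by exact_mod_cast hk
  have hm' : Nat.sqrt (k / 2) ≤ k := (Nat.sqrt_le_self _).trans (Nat.div_le_self _ _)
  have hmk : m ≤ k := by
    rcases Nat.eq_zero_or_pos m with h0 | h0
    · omega
    · exact (Nat.le_mul_of_pos_left m h0).trans hm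
  refine (osc_telescope d r (10 * k + m) (Nat.sqrt (k / 2)) (10 * k) (21 * k)
    (by omega)).trans ?_
  have h1 : ∀ j ∈ Ico (Nat.sqrt (k / 2)) (10 * k + m), osc d r (j + 1) j (10 * k) (21 * k) ≤
      22 * C₁ * 2 ^ (A + 2) * k / (k : ℝ) ^ (A + 2) := fun j hj => by
    rw [mem_Ico] at hj
    exact c9_term hC1 (hs d h3) r hk hm hj.1 hj.2
  refine (sum_le_card_nsmul _ _ _ h1).trans ?_
  rw [Nat.card_Ico, nsmul_eq_mul]
  have h2 : ((10 * k + m - Nat.sqrt (k / 2) : ℕ) : ℝ) ≤ 11 * k := by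
    have : 10 * k + m - Nat.sqrt (k / 2) ≤ 11 * k := by omega
    exact_mod_cast this
  have h4 : (0 : ℝ) ≤ 22 * C₁ * 2 ^ (A + 2) * k / (k : ℝ) ^ (A + 2) := by positivity
  refine (mul_le_mul_of_nonneg_right h2 h4).trans (le_of_eq ?_)
  rw [pow_add (k : ℝ) A 2]
  field_simp
  ring

end Pool.Agent.Lib.MP_d0d59f_nt.AA

end

section

/-! Row nd-G7 (about 50 lines): simple facts on `pz`. -/

namespace Pool.Agent.Lib.MP_d0d59f_nt.ND

open Finset AA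

/-- For words of length `n ≥ m'` the residue modulo `3^m'` does not depend on `r`: `3^n = 0` in
`ZMod (3^m')` and the words of `comps n l` have length `n` (`mem_comps`). -/
theorem pz_indep {m' n : ℕ} (h : m' ≤ n) (d r : ℤ) (l : ℕ) (c : ZMod (3 ^ m')) :
    pz d r m' n l c = pz d 0 m' n l c := by
  unfold pz
  congr 2
  congr 1
  apply Finset.filter_congr
  intro e he
  have h1 : e.length = n := (mem_comps.1 he).1
  have h3 : (3 : ZMod (3 ^ m')) ^ e.length = 0 := by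
    have h4 : ((3 ^ m' : ℕ) : ZMod (3 ^ m')) = 0 := ZMod.natCast_self _
    push_cast at h4
    rw [h1, ← Nat.sub_add_cancel h, pow_add, h4, mul_zero]
  unfold hz
  rw [h3, zero_mul, zero_mul]

/-- `AA.sum_pz` and `AA.c2b_sum_range_zmod`. -/
theorem sum_pz_range (d r : ℤ) (m' n l : ℕ) :
    ∑ c ∈ range (3 ^ m'), pz d r m' n l ((c : ℕ) : ZMod (3 ^ m')) = nb n l := by
  rw [← sum_pz d r m' n l]
  exact sum_range_eq_sum_zmod m' (pz d r m' n l)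

end Pool.Agent.Lib.MP_d0d59f_nt.ND

end
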