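import Mathlib
import Pool.Agent.Lib.MP_d0d59f_nt.NK.K021
import Pool.Agent.Lib.MP_d0d59f_nt.NK.K023

section

/-! One step of the recursion over the scales, with constants that do not depend on `d`. All scales
are measured in units of `|d|`. -/

namespace Pool.Agent.Lib.MP_d0d59f_nt.AA

open Finset

/-- Normalised density of integers that stay above `|d| B`, at scale `|d| y`. -/
def densU (d : ℤ) (B β y : ℝ) : Prop :=
  ∀ (m : ℕ) (r : ℤ) (t : ℕ), m * m ≤ kk y → 8 * Real.logb 2 y ≤ t →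
    (cnt d (|(d : ℝ)| * B) t m r (|(d : ℝ)| * y) : ℝ) ≤ β * (|(d : ℝ)| * y / (2 * 3 ^ m))

theorem u2_abs {d : ℤ} (hd : Odd d) : (1 : ℝ) ≤ |(d : ℝ)| := by
  have h : d ≠ 0 := by
    rintro rfl
    simp at hd
  have h1 : (1 : ℤ) ≤ |d| := Int.one_le_abs h
  have h2 : ((1 : ℤ) : ℝ) ≤ ((|d| : ℤ) : ℝ) := by exact_mod_cast h1
  rw [Int.cast_abs, Int.cast_one] at h2
  exact h2

theorem dens_stepU (A : ℕ) : ∃ C : ℝ, 0 ≤ C ∧
    ∃ y0 : ℝ, 2 ≤ y0 ∧ ∀ (d : ℤ), Odd d → ¬ (3 : ℤ) ∣ d → ∀ (B β y : ℝ), y0 ≤ y → 0 ≤ β →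
      (∀ z : ℝ, 0 < z → 0.979 * Real.logb 2 y ≤ Real.logb 2 z →
        Real.logb 2 z ≤ 0.988 * Real.logb 2 y → densU d B β z) →
      densU d B (β + C / (Real.logb 2 y) ^ A) y := by
  obtain ⟨C1, hC1, hosc⟩ := osc_boundU A
  obtain ⟨C2, hC2, hexp⟩ := b5_exp A
  have hlt := logb_three
  obtain ⟨y0, hy0⟩ : ∃ y0 : ℝ, y0 = max 2 ((2 : ℝ) ^ (5250 : ℝ)) := ⟨_, rfl⟩
  have hy02 : 2 ≤ y0 := hy0 ▸ le_max_left _ _
  have hy0' : (2 : ℝ) ^ (5250 : ℝ) ≤ y0 := hy0 ▸ le_max_right _ _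
  refine ⟨(C1 + 14 * C2) * 500 ^ A, by positivity, y0, hy02, ?_⟩
  intro d hd h3 B β y hy hβ hz m r t hm ht
  have hD := u2_abs hd
  have hy1 : 0 < y := lt_of_lt_of_le (by norm_num) (hy02.trans hy)
  have hly : 5250 ≤ Real.logb 2 y := by
    rw [Real.le_logb_iff_rpow_le (by norm_num) hy1]
    exact hy0'.trans hy
  clear hy0 hy0'
  obtain ⟨k1, k2, k3⟩ := b5_kk (y := y) (by linarith)
  obtain ⟨k, hk⟩ : ∃ k, k = kk y := ⟨_, rfl⟩
  rw [← hk] at k1 k2 k3 hm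
  have k4 : (20 : ℝ) < k := by linarith
  have k5 : 1 ≤ k := by
    have : (1 : ℝ) ≤ k := by linarith
    exact_mod_cast this
  have hmk : m ≤ k := by
    rcases Nat.eq_zero_or_pos m with h | h
    · omega
    · exact (Nat.le_mul_self m).trans hm
  have hLt : 21 * k ≤ t := by
    have : (21 * (k : ℝ)) ≤ t := by linarith
    exact_mod_cast this
  have hm' : Nat.sqrt (k / 2) ≤ 10 * k + m := by
    have := Nat.sqrt_le_self (k / 2)
    omega
  obtain ⟨D, hDdef⟩ : ∃ D : ℝ, D = |(d : ℝ)| := ⟨_, rfl⟩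
  rw [← hDdef] at hD
  have hD0 : 0 < D := by linarith
  have hDy : 0 < D * y := by positivity
  have hβ' : ∀ l ∈ Icc (19 * k) (21 * k), ∀ r' : ℤ,
      (cnt d (D * B) (t - l) (Nat.sqrt (k / 2)) r' (3 ^ (10 * k) * (D * y) / 2 ^ l) : ℝ) ≤
      β * ((3 ^ (10 * k) * (D * y) / 2 ^ l) / (2 * 3 ^ (Nat.sqrt (k / 2)))) := by
    intro l hl' r'
    rw [Finset.mem_Icc] at hl'
    obtain ⟨l1, l2⟩ := hl'
    have l1' : 19 * (k : ℝ) ≤ l := by exact_mod_cast l1
    have l2' : (l : ℝ) ≤ 21 * k := by exact_mod_cast l2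
    have hzl := b5_logz hy1 (10 * k) l
    push_cast at hzl
    have hz0 : (0 : ℝ) < 3 ^ (10 * k) * y / 2 ^ l := by positivity
    have hklo : 1.58 * (k : ℝ) ≤ k * Real.logb 2 3 := by nlinarith [hlt.1]
    have hkhi : k * Real.logb 2 3 ≤ 1.585 * (k : ℝ) := by nlinarith [hlt.2]
    have hlo : 0.979 * Real.logb 2 y ≤ Real.logb 2 (3 ^ (10 * k) * y / 2 ^ l) := by
      rw [hzl]
      nlinarith
    have hhi : Real.logb 2 (3 ^ (10 * k) * y / 2 ^ l) ≤ 0.988 * Real.logb 2 y := by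
      rw [hzl]
      nlinarith
    have e0 : (3 : ℝ) ^ (10 * k) * (D * y) / 2 ^ l = D * (3 ^ (10 * k) * y / 2 ^ l) := by ring
    rw [e0]
    have hmain := hz _ hz0 hlo hhi (Nat.sqrt (k / 2)) r' (t - l) ?_ ?_
    · rw [← hDdef] at hmain
      exact hmain
    · have e1 : Nat.sqrt (k / 2) * Nat.sqrt (k / 2) ≤ k / 2 := Nat.sqrt_le (k / 2)
      refine e1.trans ?_
      unfold kk
      refine Nat.le_floor ?_
      have e2 : ((k / 2 : ℕ) : ℝ) ≤ (k : ℝ) / 2 := Nat.cast_div_le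
      rw [le_div_iff₀ (by norm_num)]
      linarith
    · have e3 : ((t - l : ℕ) : ℝ) = (t : ℝ) - l := Nat.cast_sub (l2.trans hLt)
      rw [e3, hzl]
      nlinarith
  have hmain := dens_count hd h3 (D * B) (10 * k) m (Nat.sqrt (k / 2)) (19 * k) (21 * k) t hm' r
    (D * y) hDy hLt β hβ hβ'
  rw [← hDdef] at hmain ⊢
  have ho := hosc d h3 k m r k5 hm
  have htl := tail_bound k
  have htr := b5_triv hy1 k1 hmk
  have hY : 0 < D * y / (2 * 3 ^ m) := by positivity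
  have htr' : (D + 5) * (2 : ℝ) ^ (21 * k) ≤ D * y / (2 * 3 ^ m) * (12 * (0.98 : ℝ) ^ k) := by
    calc (D + 5) * (2 : ℝ) ^ (21 * k) ≤ (6 * D) * 2 ^ (21 * k) :=
          mul_le_mul_of_nonneg_right (by linarith) (by positivity)
      _ ≤ (6 * D) * (y / (2 * 3 ^ m) * (2 * (0.98 : ℝ) ^ k)) :=
          mul_le_mul_of_nonneg_left htr (by positivity)
      _ = _ := by ring
  have s1 : (cnt d (D * B) t m r (D * y) : ℝ) ≤ D * y / (2 * 3 ^ m) *
      (β + (C1 / (k : ℝ) ^ A + 14 * (0.98 : ℝ) ^ k)) := by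
    have s2 : D * y / (2 * 3 ^ m) * (β + osc d r (10 * k + m) (Nat.sqrt (k / 2)) (10 * k) (21 * k)
        + (1 - ∑ l ∈ Icc (19 * k) (21 * k), nb (10 * k) l)) ≤
        D * y / (2 * 3 ^ m) * (β + C1 / (k : ℝ) ^ A + 2 * (0.98 : ℝ) ^ k) :=
      mul_le_mul_of_nonneg_left (by linarith) hY.le
    calc (cnt d (D * B) t m r (D * y) : ℝ) ≤ _ := hmain
      _ ≤ D * y / (2 * 3 ^ m) * (β + C1 / (k : ℝ) ^ A + 2 * (0.98 : ℝ) ^ k) +
          D * y / (2 * 3 ^ m) * (12 * (0.98 : ℝ) ^ k) := add_le_add s2 htr'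
      _ = _ := by ring
  have hk0 : (0 : ℝ) < k := by linarith
  have hly0 : 0 < Real.logb 2 y := by linarith
  have s4 : C1 / (k : ℝ) ^ A + 14 * (0.98 : ℝ) ^ k ≤
      (C1 + 14 * C2) * 500 ^ A / Real.logb 2 y ^ A := by
    have s5 : (0.98 : ℝ) ^ k ≤ C2 / (k : ℝ) ^ A := by
      rw [le_div_iff₀ (by positivity), mul_comm]
      exact hexp k
    have s6 : C1 / (k : ℝ) ^ A + 14 * (0.98 : ℝ) ^ k ≤
        (C1 + 14 * C2) / (k : ℝ) ^ A := by
      calc _ ≤ C1 / (k : ℝ) ^ A + 14 * (C2 / (k : ℝ) ^ A) := by linarith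
        _ = _ := by ring
    refine s6.trans ?_
    have s7 : Real.logb 2 y ^ A ≤ 500 ^ A * (k : ℝ) ^ A := by
      rw [← mul_pow]
      exact pow_le_pow_left₀ hly0.le k3 A
    rw [div_le_div_iff₀ (by positivity) (by positivity)]
    calc (C1 + 14 * C2) * Real.logb 2 y ^ A
        ≤ (C1 + 14 * C2) * (500 ^ A * (k : ℝ) ^ A) :=
          mul_le_mul_of_nonneg_left s7 (by positivity)
      _ = _ := by ring
  calc (cnt d (D * B) t m r (D * y) : ℝ) ≤ D * y / (2 * 3 ^ m) *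
      (β + (C1 / (k : ℝ) ^ A + 14 * (0.98 : ℝ) ^ k)) := s1
    _ ≤ D * y / (2 * 3 ^ m) * (β + (C1 + 14 * C2) * 500 ^ A
        / Real.logb 2 y ^ A) := mul_le_mul_of_nonneg_left (by linarith) hY.le
    _ = _ := by ring

end Pool.Agent.Lib.MP_d0d59f_nt.AA

end

section

/-! The base of the recursion, with constants that do not depend on `d`. -/

namespace Pool.Agent.Lib.MP_d0d59f_nt.AA

open Finset

theorem dens_baseU (A : ℕ) : ∃ C : ℝ, 0 ≤ C ∧
    ∃ B0 : ℝ, 2 ≤ B0 ∧ ∀ (d : ℤ), Odd d → ∀ B z : ℝ, B0 ≤ B → B ≤ z →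
      Real.logb 2 z ≤ 1.05 * Real.logb 2 B → densU d B (C / (Real.logb 2 B) ^ A) z := by
  refine ⟨2 * ((A.factorial : ℝ) / (0.0004 : ℝ) ^ A) + 2 ^ 23 * ((A.factorial : ℝ) / (0.3 : ℝ) ^ A),
    by positivity, (2 : ℝ) ^ 200, by norm_num, ?_⟩
  intro d hd B z hB1 hBz hlog m r t hm ht
  have hD := u2_abs hd
  obtain ⟨D, hDdef⟩ : ∃ D : ℝ, D = |(d : ℝ)| := ⟨_, rfl⟩
  rw [← hDdef] at hD ⊢
  have hD0 : 0 < D := by linarith
  have hB0 : 0 < B := lt_of_lt_of_le (by positivity) hB1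
  have hz0 : 0 < z := hB0.trans_le hBz
  have hDz : 0 < D * z := by positivity
  set x := Real.logb 2 z with hx
  set y := Real.logb 2 B with hy
  have hzx : z = (2 : ℝ) ^ x := by
    rw [hx, Real.rpow_logb (by norm_num) (by norm_num) hz0]
  have hyx : y ≤ x := Real.logb_le_logb_of_le (by norm_num) hB0 hBz
  have hy200 : 200 ≤ y := by
    rw [hy, Real.le_logb_iff_rpow_le (by norm_num) hB0]
    exact_mod_cast hB1
  have hx0 : 0 ≤ x := by linarith
  set k := ⌈x / 50⌉₊ with hk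
  have hk1 : x / 50 ≤ k := Nat.le_ceil _
  have hk2 : (k : ℝ) ≤ x / 50 + 1 := (Nat.ceil_lt_add_one (by positivity)).le
  have hm' : (m : ℝ) ≤ x / 250 := by
    have h1 : m ≤ m * m := Nat.le_mul_self m
    have h2 : ((kk z : ℕ) : ℝ) ≤ x / 250 := Nat.floor_le (by positivity)
    have h3 : ((m : ℕ) : ℝ) ≤ ((kk z : ℕ) : ℝ) := by exact_mod_cast h1.trans hm
    exact h3.trans h2
  have hsub : {N : ℤ | N ∈ itv (D * z) (2 * (D * z)) ∧ Odd N ∧ N ≡ r [ZMOD 3 ^ m] ∧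
      bad d (D * B) t N} ⊆
      {N : ℤ | N ∈ itv (D * z) (2 * (D * z)) ∧ Odd N ∧ N ≡ r [ZMOD 3 ^ m] ∧
        ¬ ∃ (e : List ℕ) (M : ℤ), e.length = 10 * k ∧ 19 * k ≤ e.sum ∧ e.sum ≤ 21 * k ∧
          isPath d e N M} := by
    rintro N ⟨hN1, hN2, hN3, hN4⟩
    refine ⟨hN1, hN2, hN3, ?_⟩
    rintro ⟨e, M, hl, hs1, hs2, hp⟩
    have hst : e.sum ≤ t := by
      have h1 : ((e.sum : ℕ) : ℝ) ≤ ((21 * k : ℕ) : ℝ) := by exact_mod_cast hs2
      have h2 : ((e.sum : ℕ) : ℝ) ≤ (t : ℝ) := by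
        refine h1.trans (le_trans ?_ ht)
        push_cast
        nlinarith
      exact_mod_cast h2
    have hbad := hN4 e.sum hst
    rw [isPath_iterate hd hp] at hbad
    obtain ⟨hNz1, hNz2⟩ := mem_itv.1 hN1
    have h1 := b6_end hDz hNz1 hNz2 hl hs1 hp
    rw [← hDdef] at h1
    have h2 := b6_final (D := 1) hy hB1 zero_le_one (by
      refine le_trans ?_ hB1
      norm_num) hyx hlog
    have h3 := b6_ratio (x := x) hk1
    have h4 := b6_growth hx0 hk2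
    have h5 : 2 * (D * z) * (3 ^ 10 / 2 ^ 19 : ℝ) ^ k + D * (3 / 2 : ℝ) ^ (10 * k) ≤
        D * (2 * (2 : ℝ) ^ x * (2 : ℝ) ^ (-(0.063 * x)) + 1 * (58 * (2 : ℝ) ^ (0.12 * x))) := by
      rw [← hzx]
      have e1 : 2 * (D * z) * (3 ^ 10 / 2 ^ 19 : ℝ) ^ k + D * (3 / 2 : ℝ) ^ (10 * k) =
          D * (2 * z * (3 ^ 10 / 2 ^ 19 : ℝ) ^ k + 1 * (3 / 2 : ℝ) ^ (10 * k)) := by ring
      rw [e1]
      gcongr
    have h6 := mul_le_mul_of_nonneg_left h2 hD0.le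
    linarith
  have hfin : {N : ℤ | N ∈ itv (D * z) (2 * (D * z)) ∧ Odd N ∧ N ≡ r [ZMOD 3 ^ m] ∧
        ¬ ∃ (e : List ℕ) (M : ℤ), e.length = 10 * k ∧ 19 * k ≤ e.sum ∧ e.sum ≤ 21 * k ∧
          isPath d e N M}.Finite :=
    (itv (D * z) (2 * (D * z))).finite_toSet.subset fun N hN => hN.1
  have hcnt : (cnt d (D * B) t m r (D * z) : ℝ) ≤ D * z / (2 * 3 ^ m) *
      (1 - ∑ l ∈ Icc (19 * k) (21 * k), nb (10 * k) l) + 2 ^ (21 * k + 1) := by
    refine le_trans ?_ (exc_count hd (10 * k) (19 * k) (21 * k) m r (D * z) hDz)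
    unfold cnt
    exact_mod_cast Set.ncard_le_ncard hsub hfin
  have ht := tail_bound k
  have hq0 : 0 < z / (2 * 3 ^ m) := by positivity
  have hq1 : 0 < D * z / (2 * 3 ^ m) := by positivity
  have h1 := b6_small hzx hx0 hk2 hm'
  have h1' : (2 : ℝ) ^ (21 * k + 1) ≤ 2 ^ 23 * (2 : ℝ) ^ (-(0.57 * x)) * (D * z / (2 * 3 ^ m)) := by
    refine h1.trans ?_
    have e1 : D * z / (2 * 3 ^ m) = D * (z / (2 * 3 ^ m)) := by ring
    rw [e1]
    refine mul_le_mul_of_nonneg_left ?_ (by positivity)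
    exact le_mul_of_one_le_left hq0.le hD
  calc (cnt d (D * B) t m r (D * z) : ℝ)
      ≤ D * z / (2 * 3 ^ m) * (1 - ∑ l ∈ Icc (19 * k) (21 * k), nb (10 * k) l)
        + 2 ^ (21 * k + 1) := hcnt
    _ ≤ D * z / (2 * 3 ^ m) * (2 * (0.98 : ℝ) ^ k)
        + 2 ^ 23 * (2 : ℝ) ^ (-(0.57 * x)) * (D * z / (2 * 3 ^ m)) := by
        have h2 := mul_le_mul_of_nonneg_left ht hq1.le
        linarith
    _ = (2 * (0.98 : ℝ) ^ k + 2 ^ 23 * (2 : ℝ) ^ (-(0.57 * x))) * (D * z / (2 * 3 ^ m)) := by ring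
    _ ≤ _ := by
        apply mul_le_mul_of_nonneg_right _ hq1.le
        exact b6_err (by linarith) hyx hk1 A

end Pool.Agent.Lib.MP_d0d59f_nt.AA

end

section

/-! Recursion over the scales, with constants that do not depend on `d`. -/

namespace Pool.Agent.Lib.MP_d0d59f_nt.AA

open Finset

theorem u4_mono {d : ℤ} {B β β' y : ℝ} (hy : 0 ≤ y) (h : densU d B β y) (hβ : β ≤ β') :
    densU d B β' y := by
  intro m r t hm ht
  refine (h m r t hm ht).trans (mul_le_mul_of_nonneg_right hβ (by positivity))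

theorem u4_main (A : ℕ) (hA : 1 ≤ A) :
    ∃ C : ℝ, 0 ≤ C ∧ ∃ B0 : ℝ, 2 ≤ B0 ∧ ∀ (d : ℤ), Odd d → ¬ (3 : ℤ) ∣ d →
      ∀ B y : ℝ, B0 ≤ B → B ≤ y → densU d B (C / (Real.logb 2 B) ^ A) y := by
  obtain ⟨Cs, hCs, y0, hy0, hstep⟩ := dens_stepU A
  obtain ⟨Cb, hCb, B1, hB1, hbase⟩ := dens_baseU A
  set C2 : ℝ := Cs / 0.012 with hC2
  have hC2n : 0 ≤ C2 := by positivity
  refine ⟨Cb + C2, by positivity, max y0 B1, hy0.trans (le_max_left _ _), fun d hd h3 B y hB hBy => ?_⟩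
  have hB2 : (2 : ℝ) ≤ B := (hy0.trans (le_max_left _ _)).trans hB
  have hlog : ∀ u : ℝ, B ≤ u → Real.logb 2 B ≤ Real.logb 2 u := fun u hu =>
    Real.logb_le_logb_of_le (by norm_num) (by linarith) hu
  set lB := Real.logb 2 B with hlB
  have hlB1 : 1 ≤ lB := by
    have : Real.logb 2 2 ≤ Real.logb 2 B := Real.logb_le_logb_of_le (by norm_num) (by norm_num) hB2
    rwa [Real.logb_self_eq_one (by norm_num)] at this
  have hlB0 : 0 < lB := by linarith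
  have hinv : ∀ a b : ℝ, 0 < a → a ≤ b → 1 / b ^ A ≤ 1 / a ^ A := fun a b ha hab =>
    one_div_le_one_div_of_le (by positivity) (pow_le_pow_left₀ ha.le hab A)
  -- the claim
  have key : ∀ j : ℕ, ∀ y : ℝ, B ≤ y → Real.logb 2 y ≤ 1.05 * lB * (1 / 0.988) ^ j →
      densU d B (Cb / lB ^ A + C2 * (1 / lB ^ A - 1 / (Real.logb 2 y) ^ A)) y := by
    have hb : ∀ y : ℝ, B ≤ y → Real.logb 2 y ≤ 1.05 * lB →
        densU d B (Cb / lB ^ A + C2 * (1 / lB ^ A - 1 / (Real.logb 2 y) ^ A)) y := by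
      intro y hy hly
      refine u4_mono (by linarith) (hbase d hd B y ((le_max_right _ _).trans hB) hy hly) ?_
      have := hinv lB (Real.logb 2 y) hlB0 (hlog y hy)
      have h2 : 0 ≤ C2 * (1 / lB ^ A - 1 / (Real.logb 2 y) ^ A) :=
        mul_nonneg hC2n (by linarith)
      linarith
    intro j
    induction j with
    | zero =>
      intro y hy hly
      exact hb y hy (by simpa using hly)
    | succ j ih =>
      intro y hy hly
      by_cases hc : Real.logb 2 y ≤ 1.05 * lB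
      · exact hb y hy hc
      push Not at hc
      set ly := Real.logb 2 y with hly_def
      have hly0 : 0 < ly := by linarith
      have h988 : 0 < 0.988 * ly := by linarith
      set β : ℝ := Cb / lB ^ A + C2 * (1 / lB ^ A - 1 / (0.988 * ly) ^ A) with hβ
      have hβ0 : 0 ≤ β := by
        have h1 := hinv lB (0.988 * ly) hlB0 (by linarith)
        have h2 : 0 ≤ C2 * (1 / lB ^ A - 1 / (0.988 * ly) ^ A) :=
          mul_nonneg hC2n (by linarith)
        positivity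
      have hst := hstep d hd h3 B β y ((le_max_left _ _).trans (hB.trans hy)) hβ0 (by
        intro z hz hz1 hz2
        have hlz : lB < Real.logb 2 z := by linarith
        have hBz : B ≤ z := by
          by_contra hcon
          push Not at hcon
          have : Real.logb 2 z ≤ Real.logb 2 B := Real.logb_le_logb_of_le (by norm_num) hz hcon.le
          linarith
        have hle : Real.logb 2 z ≤ 1.05 * lB * (1 / 0.988) ^ j := by
          refine hz2.trans ?_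
          have h1 : (0.988 : ℝ) * ly ≤ 0.988 * (1.05 * lB * (1 / 0.988) ^ (j + 1)) :=
            mul_le_mul_of_nonneg_left hly (by norm_num)
          refine h1.trans (le_of_eq ?_)
          rw [pow_succ]
          ring
        refine u4_mono hz.le (ih z hBz hle) ?_
        have h1 := hinv (Real.logb 2 z) (0.988 * ly) (by linarith) hz2
        have h2 : C2 * (1 / lB ^ A - 1 / (Real.logb 2 z) ^ A) ≤
            C2 * (1 / lB ^ A - 1 / (0.988 * ly) ^ A) :=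
          mul_le_mul_of_nonneg_left (by linarith) hC2n
        linarith)
      refine u4_mono (by linarith) hst ?_
      have hpow : (0.988 : ℝ) ^ A ≤ 0.988 := by
        calc (0.988 : ℝ) ^ A ≤ 0.988 ^ 1 :=
              pow_le_pow_of_le_one (by norm_num) (by norm_num) hA
          _ = 0.988 := pow_one _
      have hpow0 : (0 : ℝ) < 0.988 ^ A := by positivity
      have h1 : Cs ≤ C2 * (1 / 0.988 ^ A - 1) := by
        have h2 : (0.012 : ℝ) ≤ 1 / 0.988 ^ A - 1 := by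
          have : (1.012 : ℝ) ≤ 1 / 0.988 ^ A := by
            rw [le_div_iff₀ hpow0]
            nlinarith
          linarith
        calc Cs = C2 * 0.012 := by rw [hC2]; field_simp
          _ ≤ _ := mul_le_mul_of_nonneg_left h2 hC2n
      have h3' : Cs / ly ^ A ≤ C2 * (1 / (0.988 * ly) ^ A - 1 / ly ^ A) := by
        have h4 : C2 * (1 / (0.988 * ly) ^ A - 1 / ly ^ A) =
            (C2 * (1 / 0.988 ^ A - 1)) / ly ^ A := by
          rw [mul_pow]; field_simp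
        rw [h4]
        exact div_le_div_of_nonneg_right h1 (by positivity)
      have h5 : C2 * (1 / lB ^ A - 1 / (0.988 * ly) ^ A) + C2 * (1 / (0.988 * ly) ^ A - 1 / ly ^ A)
          = C2 * (1 / lB ^ A - 1 / ly ^ A) := by ring
      linarith
  obtain ⟨j, hj⟩ : ∃ j : ℕ, Real.logb 2 y / (1.05 * lB) < (1 / 0.988 : ℝ) ^ j :=
    pow_unbounded_of_one_lt _ (by norm_num)
  have hj' : Real.logb 2 y ≤ 1.05 * lB * (1 / 0.988) ^ j := by
    rw [div_lt_iff₀ (by positivity)] at hj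
    linarith
  refine u4_mono (by linarith) (key j y hBy hj') ?_
  have hly : lB ≤ Real.logb 2 y := hlog y hBy
  have h1 : (0 : ℝ) ≤ 1 / (Real.logb 2 y) ^ A := by
    have : 0 ≤ Real.logb 2 y := by linarith
    positivity
  have h2 : C2 * (1 / lB ^ A - 1 / (Real.logb 2 y) ^ A) ≤ C2 * (1 / lB ^ A) :=
    mul_le_mul_of_nonneg_left (by linarith) hC2n
  have h3' : (Cb + C2) / lB ^ A = Cb / lB ^ A + C2 * (1 / lB ^ A) := by ring
  rw [h3']
  linarith

/-- May assume `A ≥ 1` (`logb 2 B ≥ 1`). `C_s, y0` from `dens_step`, `C_b, B1` from `dens_base`, `B0 = max y0 B1`, `lB = logb 2 B`. `C₂ = C_s/0.012`, so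
`C₂ (0.988^{-A} - 1) ≥ C_s`. Claim, by induction on `j`: for all `y` with `B ≤ y`, `ly ≤ 1.05 lB (1/0.988)^j`,
`dens d B (C_b/lB^A + C₂ (1/lB^A - 1/ly^A)) y` (`ly = logb 2 y`). `j = 0`: `dens_base` (`dens` is monotone in `β`, `ly ≥ lB`). Step: if
`ly ≤ 1.05 lB` again `dens_base`; otherwise every `z` with `0.979 ly ≤ lz ≤ 0.988 ly` has `lz ≥ 1.027 lB`, so `z ≥ B`, and
`lz ≤ 1.05 lB (1/0.988)^j`, so by induction and monotonicity `dens d B β z` with
`β = C_b/lB^A + C₂(1/lB^A - 1/(0.988 ly)^A) ≥ 0`; `dens_step` gives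
`β + C_s/ly^A ≤ C_b/lB^A + C₂(1/lB^A - 1/ly^A)`. Finally `C = C_b + C₂`. -/
theorem dens_allU (A : ℕ) : ∃ C : ℝ, 0 ≤ C ∧
    ∃ B0 : ℝ, 2 ≤ B0 ∧ ∀ (d : ℤ), Odd d → ¬ (3 : ℤ) ∣ d → ∀ B y : ℝ, B0 ≤ B → B ≤ y →
      densU d B (C / (Real.logb 2 B) ^ A) y := by
  rcases Nat.eq_zero_or_pos A with h0 | h0
  · obtain ⟨C, hC, B0, hB0, h⟩ := u4_main 1 le_rfl
    refine ⟨C, hC, B0, hB0, fun d hd h3 B y hB hy => u4_mono (by linarith) (h d hd h3 B y hB hy) ?_⟩
    have hl : 1 ≤ Real.logb 2 B := by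
      have : Real.logb 2 2 ≤ Real.logb 2 B :=
        Real.logb_le_logb_of_le (by norm_num) (by norm_num) (hB0.trans hB)
      rwa [Real.logb_self_eq_one (by norm_num)] at this
    rw [h0, pow_zero, pow_one, div_one]
    exact div_le_self hC hl
  · exact u4_main A h0

end Pool.Agent.Lib.MP_d0d59f_nt.AA

end
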