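import Mathlib
import Pool.Agent.Lib.MP_d0d59f_nt.NK.K020

namespace Pool.Agent.Lib.MP_d0d59f_nt.AA
end Pool.Agent.Lib.MP_d0d59f_nt.AA

section

/-! Row nd-G1 (about 150 lines): one word. -/

namespace Pool.Agent.Lib.MP_d0d59f_nt.ND

open Finset AA

/-- PROOF: copy `AA.count_word` (AA/B3aWord.lean) and replace `bad d B t N` by `N ∈ S` and
`bad d B (t - l) M` by `M ∈ Q`; the only place where `bad` was used is replaced by `hP`. -/
theorem gword1 {d : ℤ} (hd : Odd d) (S Q : Set ℤ) (n m l : ℕ) (r : ℤ) (y : ℝ) (hy : 0 < y)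
    {e : List ℕ} (he : e ∈ comps n l)
    (hP : ∀ N M : ℤ, N ∈ itv y (2 * y) → N ∈ S → isPath d e N M → M ∈ Q) :
    (Set.ncard {N : ℤ | N ∈ itv y (2 * y) ∧ N ≡ r [ZMOD 3 ^ m] ∧ N ∈ S ∧
        ∃ M, isPath d e N M} : ℝ) ≤
      (Set.ncard {M : ℤ | M ∈ itv (3 ^ n * y / 2 ^ l) (2 * (3 ^ n * y / 2 ^ l)) ∧ Odd M ∧
          hz d r (n + m) e = (M : ZMod (3 ^ (n + m))) ∧ M ∈ Q} : ℝ) + (|(d : ℝ)| + 1) := by
  obtain ⟨hlen, hsum, hpos⟩ := mem_comps.1 he
  set S' : Set ℤ := {N : ℤ | N ∈ itv y (2 * y) ∧ N ≡ r [ZMOD 3 ^ m] ∧ N ∈ S ∧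
        ∃ M, isPath d e N M} with hS
  set A : Set ℤ := {M : ℤ | M ∈ itv (3 ^ n * y / 2 ^ l) (2 * (3 ^ n * y / 2 ^ l)) ∧ Odd M ∧
          hz d r (n + m) e = (M : ZMod (3 ^ (n + m))) ∧ M ∈ Q} with hA
  set z : ℝ := 3 ^ n * y / 2 ^ l with hz0
  set δ : ℝ := (d : ℝ) * (cc e : ℝ) / 2 ^ l with hδ
  have h2l : (0 : ℝ) < 2 ^ l := by positivity
  have hzpos : 0 < z := by rw [hz0]; positivity
  -- the bound of the offset
  have hδle : |δ| ≤ |(d : ℝ)| * (3 / 2 : ℝ) ^ n := by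
    have h1 := cc_le hpos
    rw [hlen, hsum] at h1
    rw [hδ, abs_div, abs_mul, abs_of_pos h2l, Nat.abs_cast, div_le_iff₀ h2l, mul_assoc]
    refine mul_le_mul_of_nonneg_left ?_ (abs_nonneg _)
    nlinarith
  obtain ⟨c, hc⟩ := ZMod.intCast_surjective (hz d r (n + m) e)
  set α : ℝ := if 0 ≤ δ then 2 * z else z + δ with hα
  set β : ℝ := if 0 ≤ δ then 2 * z + δ else z with hβ
  have hαβ : α ≤ β := by
    rw [hα, hβ]
    split_ifs with h
    · linarith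
    · linarith
  have hαβ' : β - α = |δ| := by
    rw [hα, hβ]
    split_ifs with h
    · rw [abs_of_nonneg h]; ring
    · rw [abs_of_neg (not_le.1 h)]; ring
  set F : Finset ℤ := (itv α β).filter fun N => N ≡ c [ZMOD ((3 ^ (n + m) : ℕ) : ℤ)] with hF
  have hFcard : (F.card : ℝ) ≤ |(d : ℝ)| + 1 := by
    have h1 := card_class_le α β hαβ (3 ^ (n + m)) (by positivity) c
    refine h1.trans ?_
    rw [hαβ']
    have h3 : (0 : ℝ) < ((3 ^ (n + m) : ℕ) : ℝ) := by positivity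
    have h4 : |δ| / ((3 ^ (n + m) : ℕ) : ℝ) ≤ |(d : ℝ)| := by
      rw [div_le_iff₀ h3]
      refine hδle.trans (mul_le_mul_of_nonneg_left ?_ (abs_nonneg _))
      push_cast
      calc (3 / 2 : ℝ) ^ n ≤ 3 ^ n := by
            apply pow_le_pow_left₀ (by norm_num) (by norm_num)
        _ ≤ 3 ^ (n + m) := pow_le_pow_right₀ (by norm_num) (by omega)
    linarith
  -- the map
  have hg : ∀ N ∈ S', (2 : ℤ) ^ l * ((T d)^[l] N) = 3 ^ n * N + d * (cc e : ℤ) ∧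
      Odd ((T d)^[l] N) := by
    rintro N ⟨-, -, -, M, hM⟩
    have h1 := isPath_iterate hd hM
    have h2 := isPath_identity hM
    have h3 := isPath_odd_right hM
    rw [hsum] at h1 h2
    rw [hlen] at h2
    rw [h1]
    exact ⟨h2, h3⟩
  have hinj : Set.InjOn (fun N => (T d)^[l] N) S' := by
    intro N hN N' hN' h
    have h1 := (hg N hN).1
    have h2 := (hg N' hN').1
    have h' : (T d)^[l] N = (T d)^[l] N' := h
    rw [h'] at h1
    have h3 : (3 : ℤ) ^ n * N = 3 ^ n * N' := by linarith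
    exact mul_left_cancel₀ (by positivity) h3
  have hsub : (fun N => (T d)^[l] N) '' S' ⊆ A ∪ (F : Set ℤ) := by
    rintro _ ⟨N, hN, rfl⟩
    obtain ⟨h1, hodd⟩ := hg N hN
    obtain ⟨hNy, hNr, hbad, M₀, hM₀⟩ := hN
    have hit : (T d)^[l] N = M₀ := by
      have h0 := isPath_iterate hd hM₀
      rwa [hsum] at h0
    have hNy0 := hNy
    simp only
    set M := (T d)^[l] N with hMdef
    have hhz : hz d r (n + m) e = (M : ZMod (3 ^ (n + m))) := by
      rw [hz_eq_iff, hsum, hlen, h1]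
      refine Int.ModEq.add_right _ ?_
      have := Int.ModEq.mul_left' (c := 3 ^ n) hNr
      rwa [← pow_add] at this
    have hMr : (M : ℝ) = 3 ^ n * N / 2 ^ l + δ := by
      have h2 : (2 : ℝ) ^ l * (M : ℝ) = 3 ^ n * (N : ℝ) + (d : ℝ) * (cc e : ℝ) := by
        exact_mod_cast h1
      rw [hδ]
      field_simp
      linarith
    rw [mem_itv] at hNy
    have hlow : z + δ ≤ M := by
      rw [hMr, hz0]
      have : (3 : ℝ) ^ n * y / 2 ^ l ≤ 3 ^ n * N / 2 ^ l := by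
        apply div_le_div_of_nonneg_right _ h2l.le
        exact mul_le_mul_of_nonneg_left hNy.1 (by positivity)
      linarith
    have hupp : (M : ℝ) < 2 * z + δ := by
      rw [hMr, hz0]
      have : (3 : ℝ) ^ n * N / 2 ^ l < 2 * (3 ^ n * y / 2 ^ l) := by
        rw [← mul_div_assoc]
        apply div_lt_div_of_pos_right _ h2l
        have := mul_lt_mul_of_pos_left hNy.2 (show (0 : ℝ) < 3 ^ n by positivity)
        linarith
      linarith
    by_cases hin : z ≤ M ∧ (M : ℝ) < 2 * z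
    · left
      refine ⟨mem_itv.2 hin, hodd, hhz, ?_⟩
      exact hP N M hNy0 hbad (by rw [hit]; exact hM₀)
    · right
      rw [hF, Finset.coe_filter]
      refine ⟨?_, ?_⟩
      · rw [mem_itv, hα, hβ]
        split_ifs with h0
        · constructor
          · by_contra h
            exact hin ⟨by linarith, not_le.1 h⟩
          · exact hupp
        · constructor
          · exact hlow
          · by_contra h
            exact hin ⟨not_lt.1 h, by linarith⟩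
      · rw [← hc] at hhz
        exact (ZMod.intCast_eq_intCast_iff _ _ _).1 hhz.symm
  have hAfin : A.Finite := by
    refine (Finset.finite_toSet (itv z (2 * z))).subset ?_
    rintro M ⟨hM, -⟩
    exact hM
  have h1 : S'.ncard ≤ A.ncard + F.card := by
    calc S'.ncard = ((fun N => (T d)^[l] N) '' S').ncard := hinj.ncard_image.symm
      _ ≤ (A ∪ (F : Set ℤ)).ncard :=
        Set.ncard_le_ncard hsub (hAfin.union (Finset.finite_toSet F))
      _ ≤ A.ncard + (F : Set ℤ).ncard := Set.ncard_union_le _ _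
      _ = A.ncard + F.card := by rw [Set.ncard_coe_finset]
  have h2 : (S'.ncard : ℝ) ≤ (A.ncard : ℝ) + (F.card : ℝ) := by exact_mod_cast h1
  linarith


end Pool.Agent.Lib.MP_d0d59f_nt.ND

end

section

/-! Row nd-G2 (about 100 lines): the counting inequality. -/

namespace Pool.Agent.Lib.MP_d0d59f_nt.ND

open Finset AA

/-- PROOF: copy `AA.count_main` (AA/B3bCount.lean), with `gword1` in the place of `count_word`. -/
theorem gcount {d : ℤ} (hd : Odd d) (h3 : ¬ (3 : ℤ) ∣ d) (S Q : Set ℤ) (n m l1 L : ℕ) (r : ℤ)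
    (y : ℝ) (hy : 0 < y)
    (hP : ∀ (e : List ℕ) (N M : ℤ), e.length = n → l1 ≤ e.sum → e.sum ≤ L →
      N ∈ itv y (2 * y) → N ∈ S → isPath d e N M → M ∈ Q) :
    (cS S m r y : ℝ) ≤
      ∑ l ∈ Icc l1 L, ∑ e ∈ comps n l,
        (Set.ncard {M : ℤ | M ∈ itv (3 ^ n * y / 2 ^ l) (2 * (3 ^ n * y / 2 ^ l)) ∧ Odd M ∧
          hz d r (n + m) e = (M : ZMod (3 ^ (n + m))) ∧ M ∈ Q} : ℝ)
      + y / (2 * 3 ^ m) * (1 - ∑ l ∈ Icc l1 L, nb n l) + (|(d : ℝ)| + 3) * 2 ^ L := by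
  classical
  set S' : Set ℤ := {N : ℤ | N ∈ itv y (2 * y) ∧ Odd N ∧ N ≡ r [ZMOD 3 ^ m] ∧ N ∈ S} with hS
  set E : Set ℤ := {N : ℤ | N ∈ itv y (2 * y) ∧ Odd N ∧ N ≡ r [ZMOD 3 ^ m] ∧
        ¬ ∃ (e : List ℕ) (M : ℤ), e.length = n ∧ l1 ≤ e.sum ∧ e.sum ≤ L ∧ isPath d e N M} with hE
  set W : List ℕ → Set ℤ := fun e => {N : ℤ | N ∈ itv y (2 * y) ∧ N ≡ r [ZMOD 3 ^ m] ∧
    N ∈ S ∧ ∃ M, isPath d e N M} with hW
  have hfin : ∀ V : Set ℤ, (∀ N ∈ V, N ∈ itv y (2 * y)) → V.Finite := fun V hV =>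
    (itv y (2 * y)).finite_toSet.subset fun N hN => hV N hN
  have hEf : E.Finite := hfin _ fun N hN => hN.1
  have hUf : (⋃ l ∈ Icc l1 L, ⋃ e ∈ comps n l, W e).Finite := by
    apply hfin
    intro N hN
    simp only [Set.mem_iUnion] at hN
    obtain ⟨l, _, e, _, h⟩ := hN
    exact h.1
  have hsub : S' ⊆ E ∪ ⋃ l ∈ Icc l1 L, ⋃ e ∈ comps n l, W e := by
    intro N hN
    by_cases h : N ∈ E
    · exact Or.inl h
    · right
      have h1 : ∃ (e : List ℕ) (M : ℤ), e.length = n ∧ l1 ≤ e.sum ∧ e.sum ≤ L ∧ isPath d e N M := by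
        by_contra h2
        exact h ⟨hN.1, hN.2.1, hN.2.2.1, h2⟩
      obtain ⟨e, M, he1, he2, he3, he4⟩ := h1
      simp only [Set.mem_iUnion]
      exact ⟨e.sum, Finset.mem_Icc.2 ⟨he2, he3⟩, e, mem_comps.2 ⟨he1, rfl, isPath_pos he4⟩,
        hN.1, hN.2.2.1, hN.2.2.2, M, he4⟩
  have h1 : S'.ncard ≤ E.ncard + ∑ l ∈ Icc l1 L, ∑ e ∈ comps n l, (W e).ncard := by
    calc S'.ncard ≤ (E ∪ ⋃ l ∈ Icc l1 L, ⋃ e ∈ comps n l, W e).ncard :=
          Set.ncard_le_ncard hsub (hEf.union hUf)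
      _ ≤ E.ncard + (⋃ l ∈ Icc l1 L, ⋃ e ∈ comps n l, W e).ncard := Set.ncard_union_le _ _
      _ ≤ E.ncard + ∑ l ∈ Icc l1 L, ∑ e ∈ comps n l, (W e).ncard := by
          apply Nat.add_le_add_left
          refine (Finset.set_ncard_biUnion_le _ _).trans ?_
          apply Finset.sum_le_sum
          intro l _
          exact Finset.set_ncard_biUnion_le _ _
  have h2 : (cS S m r y : ℝ) ≤ (E.ncard : ℝ) +
      ∑ l ∈ Icc l1 L, ∑ e ∈ comps n l, ((W e).ncard : ℝ) := by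
    have : cS S m r y = S'.ncard := rfl
    rw [this]
    exact_mod_cast h1
  have h3' := exc_count hd n l1 L m r y hy
  have h4 : ∑ l ∈ Icc l1 L, ∑ e ∈ comps n l, ((W e).ncard : ℝ) ≤
      ∑ l ∈ Icc l1 L, ∑ e ∈ comps n l,
        ((Set.ncard {M : ℤ | M ∈ itv (3 ^ n * y / 2 ^ l) (2 * (3 ^ n * y / 2 ^ l)) ∧ Odd M ∧
          hz d r (n + m) e = (M : ZMod (3 ^ (n + m))) ∧ M ∈ Q} : ℝ) +
          (|(d : ℝ)| + 1)) := by
    apply Finset.sum_le_sum
    intro l hl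
    apply Finset.sum_le_sum
    intro e he
    have he' := mem_comps.1 he
    exact gword1 hd S Q n m l r y hy he fun N M hN hNS hp =>
      hP e N M he'.1 (by rw [he'.2.1]; exact (Finset.mem_Icc.1 hl).1)
        (by rw [he'.2.1]; exact (Finset.mem_Icc.1 hl).2) hN hNS hp
  have h5 : ∑ l ∈ Icc l1 L, ∑ e ∈ comps n l,
        ((Set.ncard {M : ℤ | M ∈ itv (3 ^ n * y / 2 ^ l) (2 * (3 ^ n * y / 2 ^ l)) ∧ Odd M ∧
          hz d r (n + m) e = (M : ZMod (3 ^ (n + m))) ∧ M ∈ Q} : ℝ) +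
          (|(d : ℝ)| + 1)) =
      ∑ l ∈ Icc l1 L, ∑ e ∈ comps n l,
        (Set.ncard {M : ℤ | M ∈ itv (3 ^ n * y / 2 ^ l) (2 * (3 ^ n * y / 2 ^ l)) ∧ Odd M ∧
          hz d r (n + m) e = (M : ZMod (3 ^ (n + m))) ∧ M ∈ Q} : ℝ) +
      (∑ l ∈ Icc l1 L, ((comps n l).card : ℝ)) * (|(d : ℝ)| + 1) := by
    rw [Finset.sum_mul, ← Finset.sum_add_distrib]
    apply Finset.sum_congr rfl
    intro l _
    rw [Finset.sum_add_distrib, Finset.sum_const, nsmul_eq_mul]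
  have h6 : ∑ l ∈ Icc l1 L, ((comps n l).card : ℝ) ≤ 2 ^ L := by
    have h7 : ∑ l ∈ Icc l1 L, (comps n l).card ≤ 2 ^ L := by
      refine le_trans ?_ (sum_card_comps_le n L)
      apply Finset.sum_le_sum_of_subset
      intro l hl
      rw [Finset.mem_Icc] at hl
      exact Finset.mem_range.2 (by omega)
    exact_mod_cast h7
  have h8 : (∑ l ∈ Icc l1 L, ((comps n l).card : ℝ)) * (|(d : ℝ)| + 1) ≤
      2 ^ L * (|(d : ℝ)| + 1) := mul_le_mul_of_nonneg_right h6 (by positivity)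
  have h9 : (2 : ℝ) ^ (L + 1) = 2 * 2 ^ L := by rw [pow_succ]; ring
  rw [h9] at h3'
  rw [h5] at h4
  linarith

end Pool.Agent.Lib.MP_d0d59f_nt.ND

end

section

/-! Row nd-G4 (about 70 lines): the one-sided estimate. -/

namespace Pool.Agent.Lib.MP_d0d59f_nt.ND

open Finset AA

/-- PROOF: as `AA.dens_count` (AA/B4bCount.lean): sum `gword` over `l ∈ [l1, L]`, use `gcount`
(`∑ nb n l ≤ 1`, `∑_l 2^(l+1) nb n l ≤ 2^(L+1)`). -/
theorem gdens {d : ℤ} (hd : Odd d) (h3 : ¬ (3 : ℤ) ∣ d) (S Q : Set ℤ) (n m m' l1 L : ℕ)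
    (hm' : m' ≤ n + m) (r : ℤ) (y : ℝ) (hy : 0 < y)
    (hP : ∀ (e : List ℕ) (N M : ℤ), e.length = n → l1 ≤ e.sum → e.sum ≤ L →
      N ∈ itv y (2 * y) → N ∈ S → isPath d e N M → M ∈ Q) :
    (cS S m r y : ℝ) ≤
      y / (2 * 3 ^ m) * (∑ l ∈ Icc l1 L, ∑ c ∈ range (3 ^ m'),
          pz d r m' n l ((c : ℕ) : ZMod (3 ^ m')) * ro Q m' c (3 ^ n * y / 2 ^ l)
        + osc d r (n + m) m' n L + (1 - ∑ l ∈ Icc l1 L, nb n l))
        + (|(d : ℝ)| + 5) * 2 ^ L := by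
  have hmain := gcount hd h3 S Q n m l1 L r y hy hP
  have hsub : Icc l1 L ⊆ range (L + 1) := by
    intro l hl
    rw [mem_Icc] at hl
    rw [mem_range]
    omega
  have hY : (0 : ℝ) ≤ y / (2 * 3 ^ m) := by positivity
  set O : ℕ → ℝ := fun l => ∑ x ∈ range (3 ^ (n + m)),
        |pz d r (n + m) n l (x : ZMod (3 ^ (n + m)))
          - (3 : ℝ) ^ m' / 3 ^ (n + m) * pz d r m' n l (x : ZMod (3 ^ m'))| with hO
  set P : ℕ → ℝ := fun l => ∑ c ∈ range (3 ^ m'), pz d r m' n l ((c : ℕ) : ZMod (3 ^ m')) *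
        ro Q m' c (3 ^ n * y / 2 ^ l) with hPdef
  have hO0 : ∀ l, 0 ≤ O l := fun l => Finset.sum_nonneg fun _ _ => abs_nonneg _
  have hsum : ∑ l ∈ Icc l1 L, ∑ e ∈ comps n l,
        (Set.ncard {M : ℤ | M ∈ itv (3 ^ n * y / 2 ^ l) (2 * (3 ^ n * y / 2 ^ l)) ∧ Odd M ∧
          hz d r (n + m) e = (M : ZMod (3 ^ (n + m))) ∧ M ∈ Q} : ℝ) ≤
      ∑ l ∈ Icc l1 L, (y / (2 * 3 ^ m) * P l + y / (2 * 3 ^ m) * O l
        + 2 ^ (L + 1) * nb n l) := by
    refine Finset.sum_le_sum fun l hl => ?_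
    refine (gword Q n m m' l hm' r y hy).trans ?_
    have hlL : l ≤ L := (mem_Icc.1 hl).2
    have hpow : (2 : ℝ) ^ (l + 1) ≤ 2 ^ (L + 1) :=
      pow_le_pow_right₀ (by norm_num) (by omega)
    have := mul_le_mul_of_nonneg_right hpow (nb_nonneg n l)
    simp only [hO, hPdef]
    linarith
  rw [Finset.sum_add_distrib, Finset.sum_add_distrib, ← Finset.mul_sum, ← Finset.mul_sum,
    ← Finset.mul_sum] at hsum
  have hnb : ∑ l ∈ Icc l1 L, nb n l ≤ 1 :=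
    (Finset.sum_le_sum_of_subset_of_nonneg hsub fun l _ _ => nb_nonneg n l).trans
      (sum_nb_le_one n L)
  have hosc : ∑ l ∈ Icc l1 L, O l ≤ osc d r (n + m) m' n L := by
    refine (Finset.sum_le_sum_of_subset_of_nonneg hsub fun l _ _ => hO0 l).trans (le_of_eq ?_)
    rfl
  have h2 : y / (2 * 3 ^ m) * ∑ l ∈ Icc l1 L, O l ≤ y / (2 * 3 ^ m) * osc d r (n + m) m' n L :=
    mul_le_mul_of_nonneg_left hosc hY
  have h3' : (2 : ℝ) ^ (L + 1) * ∑ l ∈ Icc l1 L, nb n l ≤ 2 ^ (L + 1) * 1 :=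
    mul_le_mul_of_nonneg_left hnb (by positivity)
  have h4 : (2 : ℝ) ^ (L + 1) = 2 * 2 ^ L := by rw [pow_succ]; ring
  rw [h4] at h3' hsum
  have e : y / (2 * 3 ^ m) * (∑ l ∈ Icc l1 L, P l + osc d r (n + m) m' n L
        + (1 - ∑ l ∈ Icc l1 L, nb n l)) + (|(d : ℝ)| + 5) * 2 ^ L
      = y / (2 * 3 ^ m) * ∑ l ∈ Icc l1 L, P l + y / (2 * 3 ^ m) * osc d r (n + m) m' n L
        + y / (2 * 3 ^ m) * (1 - ∑ l ∈ Icc l1 L, nb n l) + (|(d : ℝ)| + 3) * 2 ^ L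
        + 2 * 2 ^ L := by ring
  show (cS S m r y : ℝ) ≤ y / (2 * 3 ^ m) * (∑ l ∈ Icc l1 L, P l + osc d r (n + m) m' n L
        + (1 - ∑ l ∈ Icc l1 L, nb n l)) + (|(d : ℝ)| + 5) * 2 ^ L
  rw [e]
  linarith

end Pool.Agent.Lib.MP_d0d59f_nt.ND

end

section

/-! Row nd-A2 (about 130 lines): comparison of two points. -/

namespace Pool.Agent.Lib.MP_d0d59f_nt.ND

open Finset AA

/-- The series of `Avg.step` written over `ℤ`. (`∑'_l nb n l h(x - l) = ∑'_z nbz n z h(x - z)`; `Function.Injective.tsum_eq`.) -/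
theorem series_int (h : ℝ → ℝ) (n : ℕ) (x : ℝ) :
    ∑' l : ℕ, nb n l * h (x - l) = ∑' z : ℤ, nbz n z * h (x - z) := by
  have hinj : Function.Injective (fun l : ℕ => (l : ℤ)) := Nat.cast_injective
  have hsup : Function.support (fun z : ℤ => nbz n z * h (x - z)) ⊆
      Set.range (fun l : ℕ => (l : ℤ)) := by
    intro z hz
    rcases le_or_gt 0 z with h0 | h0
    · exact ⟨z.toNat, Int.toNat_of_nonneg h0⟩
    · exfalso
      apply hz
      change nbz n z * h (x - z) = 0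
      unfold nbz
      rw [if_neg (not_le.2 h0), zero_mul]
  rw [← hinj.tsum_eq hsup]
  refine tsum_congr fun l => ?_
  unfold nbz
  rw [if_pos (Int.natCast_nonneg l), Int.toNat_natCast, Int.cast_natCast]

private theorem a2_shift (n : ℕ) (i : ℤ) : Summable (fun z : ℤ => nbz n (z - i)) := by
  have h := ((Equiv.subRight i).summable_iff (f := fun z : ℤ => nbz n z)).2 (hasSum_nbz n).summable
  exact h

private theorem a2_summable {h : ℝ → ℝ} (h0 : ∀ t, 0 ≤ h t) (h5 : ∀ t, h t ≤ 5) (n : ℕ) (x : ℝ)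
    (i : ℤ) : Summable (fun z : ℤ => nbz n (z - i) * h (x - z)) := by
  have h1 : Summable (fun z : ℤ => nbz n (z - i)) := a2_shift n i
  refine Summable.of_nonneg_of_le (fun z => mul_nonneg (nbz_nonneg _ _) (h0 _)) (fun z => ?_)
    (h1.mul_right 5)
  exact mul_le_mul_of_nonneg_left (h5 _) (nbz_nonneg _ _)

private theorem a2_diff {h : ℝ → ℝ} (h0 : ∀ t, 0 ≤ h t) (h5 : ∀ t, h t ≤ 5) {n : ℕ} (hn : 1 ≤ n)
    (x : ℝ) (j : ℕ) (i : ℤ) :
    |∑' z : ℤ, nbz (n + j) z * h (x - z) - ∑' z : ℤ, nbz n (z - i) * h (x - z)| ≤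
      5 * ((4 * |(i : ℝ)| + 8 * j) / Real.sqrt n) := by
  have s1 : Summable (fun z : ℤ => nbz (n + j) z * h (x - z)) := by
    simpa using a2_summable h0 h5 (n + j) x 0
  have s2 := a2_summable h0 h5 n x i
  have t1 : Summable (fun z : ℤ => nbz (n + j) z) := (hasSum_nbz _).summable
  have t2 : Summable (fun z : ℤ => nbz n (z - i)) := a2_shift n i
  have t3 : Summable (fun z : ℤ => |nbz (n + j) z - nbz n (z - i)|) := (t1.sub t2).abs
  rw [← s1.tsum_sub s2]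
  have hb : ∀ z : ℤ, |nbz (n + j) z * h (x - z) - nbz n (z - i) * h (x - z)| ≤
      |nbz (n + j) z - nbz n (z - i)| * 5 := by
    intro z
    rw [← sub_mul, abs_mul]
    refine mul_le_mul_of_nonneg_left ?_ (abs_nonneg _)
    rw [abs_of_nonneg (h0 _)]
    exact h5 _
  have hs : Summable (fun z : ℤ => |nbz (n + j) z * h (x - z) - nbz n (z - i) * h (x - z)|) :=
    (s1.sub s2).abs
  have h1 : |∑' z : ℤ, (nbz (n + j) z * h (x - z) - nbz n (z - i) * h (x - z))| ≤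
      ∑' z : ℤ, |nbz (n + j) z * h (x - z) - nbz n (z - i) * h (x - z)| := by
    have := norm_tsum_le_tsum_norm (f := fun z : ℤ =>
      nbz (n + j) z * h (x - z) - nbz n (z - i) * h (x - z)) (by simpa [Real.norm_eq_abs] using hs)
    simpa [Real.norm_eq_abs] using this
  refine h1.trans ((hs.tsum_le_tsum hb (t3.mul_right 5)).trans ?_)
  rw [tsum_mul_right, mul_comm]
  exact mul_le_mul_of_nonneg_left (tv_main hn j i) (by norm_num)

/-- PROOF: put `k = ⌊t/250⌋₊`, `n = 2k`; for `t ≥ T1` (depending on `J`, `T0`) and `|s - t| ≤ t/100`, both `n + j` for `t` and `n` for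
`s = t + j λ - i` are in the allowed ranges of `Avg.step` (`k' = ⌊s/250⌋₊ ≤ 2k ≤ 10 k'`, `k ≤ 2k + j ≤ 10 k`). The two series are
`∑_z nbz (n+j) z h(t + (n+j)λ - z)` and `∑_z nbz n z h(t + (n+j)λ - (z+i)) = ∑_z nbz n (z-i) h(t + (n+j)λ - z)`
(`series_int`, translation by `i`), so they differ by at most `5 (4|i| + 8j)/√n` (`tv_main`, `h ≤ 5`). `√n ≥ √t/12` and
`s^A ≥ (t/2)^A`. -/
theorem two_points {h : ℝ → ℝ} {A : ℕ} {C T0 : ℝ} (H : Avg h A C T0) (J : ℕ) :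
    ∃ T1 : ℝ, T0 ≤ T1 ∧ ∀ t, T1 ≤ t → ∀ (j : ℕ) (i : ℤ), j ≤ J → |(j : ℝ) * lam - i| ≤ t / 100 →
      |h (t + j * lam - i) - h t| ≤ 60 * (4 * |(i : ℝ)| + 8 * j) / Real.sqrt t +
        (1 + 2 ^ A) * C / t ^ A := by
  have hT0 := H.T0_ge
  have hJ : (0 : ℝ) ≤ J := Nat.cast_nonneg J
  refine ⟨2 * T0 + 250 * (J + 1), by linarith, ?_⟩
  intro t ht j i hj hij
  have hjJ : (j : ℝ) ≤ J := by exact_mod_cast hj
  have hj0 : (0 : ℝ) ≤ j := Nat.cast_nonneg j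
  set k := ⌊t / 250⌋₊ with hk
  have ht0 : 0 < t := by linarith
  have hk1 : (k : ℝ) ≤ t / 250 := Nat.floor_le (by positivity)
  have hk2 : t / 250 < k + 1 := Nat.lt_floor_add_one _
  have hkJ : J ≤ k := by
    have : (J : ℝ) < k := by linarith
    exact_mod_cast this.le
  have hk0 : 1 ≤ k := by
    have : (1 : ℝ) < k := by linarith
    exact_mod_cast this.le
  set s := t + j * lam - i with hs
  obtain ⟨hij1, hij2⟩ := abs_le.1 hij
  have hs1 : 0.99 * t ≤ s := by rw [hs]; linarith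
  have hs2 : s ≤ 1.01 * t := by rw [hs]; linarith
  set k' := ⌊s / 250⌋₊ with hk'
  have hk1' : (k' : ℝ) ≤ s / 250 := Nat.floor_le (by linarith)
  have hk2' : s / 250 < k' + 1 := Nat.lt_floor_add_one _
  have hr1 : k' ≤ 2 * k := by
    have : (k' : ℝ) ≤ 2 * k := by linarith
    exact_mod_cast this
  have hr2 : 2 * k ≤ 10 * k' := by
    have : (2 : ℝ) * k ≤ 10 * k' := by linarith
    exact_mod_cast this
  have e1 := H.step t (by linarith) (2 * k + j) (by omega) (by omega)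
  have e2 := H.step s (by linarith) (2 * k) hr1 hr2
  rw [series_int] at e1 e2
  set x := t + ((2 * k + j : ℕ) : ℝ) * lam with hx
  have e3 : ∑' z : ℤ, nbz (2 * k) z * h (s + ((2 * k : ℕ) : ℝ) * lam - z) =
      ∑' z : ℤ, nbz (2 * k) (z - i) * h (x - z) := by
    rw [← (Equiv.subRight i).tsum_eq (fun z : ℤ => nbz (2 * k) z *
      h (s + ((2 * k : ℕ) : ℝ) * lam - z))]
    refine tsum_congr fun z => ?_
    have e4 : s + ((2 * k : ℕ) : ℝ) * lam - ((z - i : ℤ) : ℝ) = x - z := by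
      rw [hs, hx]; push_cast; ring
    change nbz (2 * k) (z - i) * h (s + ((2 * k : ℕ) : ℝ) * lam - ((z - i : ℤ) : ℝ)) = _
    rw [e4]
  rw [e3] at e2
  have e5 := a2_diff H.nonneg H.le (n := 2 * k) (by omega) x j i
  have hsq : Real.sqrt t / 12 ≤ Real.sqrt ((2 * k : ℕ) : ℝ) := by
    apply Real.le_sqrt_of_sq_le
    rw [div_pow, Real.sq_sqrt ht0.le]
    push_cast
    linarith
  have hst : 0 < Real.sqrt t := Real.sqrt_pos.2 ht0
  have hM : 0 ≤ 4 * |(i : ℝ)| + 8 * (j : ℝ) := by positivity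
  have e6 : 5 * ((4 * |(i : ℝ)| + 8 * j) / Real.sqrt ((2 * k : ℕ) : ℝ)) ≤
      60 * (4 * |(i : ℝ)| + 8 * j) / Real.sqrt t := by
    have h1 : (4 * |(i : ℝ)| + 8 * j) / Real.sqrt ((2 * k : ℕ) : ℝ) ≤
        (4 * |(i : ℝ)| + 8 * j) / (Real.sqrt t / 12) :=
      div_le_div_of_nonneg_left hM (by positivity) hsq
    calc 5 * ((4 * |(i : ℝ)| + 8 * j) / Real.sqrt ((2 * k : ℕ) : ℝ))
        ≤ 5 * ((4 * |(i : ℝ)| + 8 * j) / (Real.sqrt t / 12)) := by linarith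
      _ = 60 * (4 * |(i : ℝ)| + 8 * j) / Real.sqrt t := by
          field_simp
          ring
  have hs0 : 0 < s := by linarith
  have e7 : C / s ^ A ≤ 2 ^ A * C / t ^ A := by
    have h1 : (t / 2) ^ A ≤ s ^ A := pow_le_pow_left₀ (by positivity) (by linarith) A
    calc C / s ^ A ≤ C / (t / 2) ^ A :=
          div_le_div_of_nonneg_left H.C_nonneg (by positivity) h1
      _ = 2 ^ A * C / t ^ A := by
          rw [div_pow]
          field_simp
  have e8 : (1 + 2 ^ A) * C / t ^ A = C / t ^ A + 2 ^ A * C / t ^ A := by ring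
  rw [e8]
  rw [abs_le] at e1 e2 e5 ⊢
  constructor <;> linarith [e1.1, e1.2, e2.1, e2.2, e5.1, e5.2]

end Pool.Agent.Lib.MP_d0d59f_nt.ND

end
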