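import Mathlib
import Pool.Agent.Lib.MP_d0d59f_nt.NK.K021
import Pool.Agent.Lib.MP_d0d59f_nt.NK.K023
import Pool.Agent.Lib.MP_d0d59f_nt.NK.K025
import Pool.Agent.Lib.MP_d0d59f_nt.NK.K026

namespace Pool.Agent.Lib.MP_d0d59f_nt.AA
end Pool.Agent.Lib.MP_d0d59f_nt.AA

section

/-! Row nd-G8 (about 110 lines): simple facts on the densities. -/

namespace Pool.Agent.Lib.MP_d0d59f_nt.ND

open Finset AA

open Classical in
private theorem cS_eq (S : Set ℤ) (m : ℕ) (r : ℤ) (y : ℝ) :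
    cS S m r y = (((itv y (2 * y)).filter fun N => Odd N ∧ N ≡ r [ZMOD 3 ^ m]).filter
      fun N => N ∈ S).card := by
  unfold cS
  rw [← Set.ncard_coe_finset]
  congr 1
  ext N
  simp only [Set.mem_ofPred_eq, Finset.coe_filter, Finset.mem_filter]
  tauto

theorem cS_mono {S S' : Set ℤ} (h : S ⊆ S') (m : ℕ) (r : ℤ) (y : ℝ) : cS S m r y ≤ cS S' m r y := by
  classical
  rw [cS_eq, cS_eq]
  refine Finset.card_le_card fun N hN => ?_
  rw [Finset.mem_filter] at hN ⊢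
  exact ⟨hN.1, h hN.2⟩

theorem ro_nonneg (S : Set ℤ) (m : ℕ) (r : ℤ) {y : ℝ} (hy : 0 < y) : 0 ≤ ro S m r y := by
  unfold ro
  positivity

/-- `AA.card_odd_class_le` -/
theorem ro_le (S : Set ℤ) (m : ℕ) (r : ℤ) {y : ℝ} (hy : 0 < y) :
    ro S m r y ≤ 1 + 2 * 3 ^ m / y := by
  classical
  unfold ro
  have hp : (0 : ℝ) < y / (2 * 3 ^ m) := by positivity
  rw [div_le_iff₀ hp]
  have h1 : (cS S m r y : ℝ) ≤ (((itv y (2 * y)).filter fun N => Odd N ∧ N ≡ r [ZMOD 3 ^ m]).card : ℝ) := by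
    rw [cS_eq]
    exact_mod_cast Finset.card_le_card (Finset.filter_subset _ _)
  have h2 := card_odd_class_le y (2 * y) (by linarith) m r
  have h3 : (2 * y - y) / (2 * 3 ^ m) + 1 = (1 + 2 * 3 ^ m / y) * (y / (2 * 3 ^ m)) := by
    field_simp
    ring
  linarith

/-- The number of odd integers `≡ r mod 3^m` in `[y, 2y)` differs from `y/(2·3^m)` by at most one
(`AA.b0_card`, `AA.le_card_class`, `AA.card_class_le` with `q = 2·3^m` and a representative `s` of the two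
conditions as in `AA.card_odd_class_le`); it is `cS S + cS Sᶜ`. -/
theorem ro_compl (S : Set ℤ) (m : ℕ) (r : ℤ) {y : ℝ} (hy : 0 < y) :
    |ro S m r y + ro Sᶜ m r y - 1| ≤ 2 * 3 ^ m / y := by
  classical
  have hp : (0 : ℝ) < y / (2 * 3 ^ m) := by positivity
  set D : Finset ℤ := (itv y (2 * y)).filter fun N => Odd N ∧ N ≡ r [ZMOD 3 ^ m] with hD
  have hsum : cS S m r y + cS Sᶜ m r y = D.card := by
    rw [cS_eq, cS_eq, ← hD]
    simp only [Set.mem_compl_iff]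
    exact Finset.card_filter_add_card_filter_not (s := D) (fun N => N ∈ S)
  have hup := card_odd_class_le y (2 * y) (by linarith) m r
  obtain ⟨s, hs, hsr⟩ : ∃ s : ℤ, Odd s ∧ s ≡ r [ZMOD 3 ^ m] := by
    rcases Int.even_or_odd r with hr | hr
    · refine ⟨r + 3 ^ m, hr.add_odd ((by decide : Odd (3 : ℤ)).pow), ?_⟩
      rw [Int.modEq_iff_dvd]
      exact ⟨-1, by ring⟩
    · exact ⟨r, hr, Int.ModEq.refl r⟩
  have hq : 0 < 2 * 3 ^ m := by positivity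
  have hlo := le_card_class y (2 * y) (by linarith) (2 * 3 ^ m) hq s
  have hsub : ((itv y (2 * y)).filter fun N => N ≡ s [ZMOD (2 * 3 ^ m : ℕ)]) ⊆ D := by
    intro N hN
    rw [hD]
    rw [Finset.mem_filter] at hN ⊢
    refine ⟨hN.1, ?_, ?_⟩
    · have h1 : N ≡ s [ZMOD 2] := by
        have := hN.2
        push_cast at this
        exact Int.ModEq.of_mul_right _ this
      obtain ⟨k, hk⟩ := hs
      have h2 := Int.ModEq.dvd h1
      obtain ⟨j, hj⟩ := h2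
      exact ⟨k - j, by omega⟩
    · have h1 : N ≡ s [ZMOD 3 ^ m] := by
        have := hN.2
        push_cast at this
        exact Int.ModEq.of_mul_left _ this
      exact h1.trans hsr
  have hcard : (((itv y (2 * y)).filter fun N => N ≡ s [ZMOD (2 * 3 ^ m : ℕ)]).card : ℝ) ≤ D.card := by
    exact_mod_cast Finset.card_le_card hsub
  have hsum' : (cS S m r y : ℝ) + cS Sᶜ m r y = D.card := by exact_mod_cast hsum
  have he : ro S m r y + ro Sᶜ m r y - 1 = ((D.card : ℝ) - y / (2 * 3 ^ m)) / (y / (2 * 3 ^ m)) := by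
    unfold ro
    rw [← add_div, hsum', sub_div, div_self hp.ne']
  have hr : 2 * 3 ^ m / y = 1 / (y / (2 * 3 ^ m)) := by
    field_simp
  rw [he, abs_div, abs_of_pos hp, hr]
  refine div_le_div_of_nonneg_right ?_ hp.le
  have h6 : (2 * y - y) / (2 * 3 ^ m) = y / (2 * 3 ^ m) := by ring
  have h7 : (2 * y - y) / ((2 * 3 ^ m : ℕ) : ℝ) = y / (2 * 3 ^ m) := by
    push_cast
    ring
  rw [← hD, h6] at hup
  rw [h7] at hlo
  rw [abs_le]
  constructor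
  · linarith
  · linarith

end Pool.Agent.Lib.MP_d0d59f_nt.ND

end

section

/-! Row nd-G11 (about 120 lines): the predicted densities of `S` and of its complement add up to
one. -/

namespace Pool.Agent.Lib.MP_d0d59f_nt.ND

open Finset AA

/-- PROOF: `k = kk y`, `m' = sqrt (k/2) ≤ k`. By `ro_compl` at `z = 3^n y/2^l`, `GG S + GG Sᶜ = ∑_l ∑_c pz (1 + θ)`,
`|θ| ≤ 2·3^m'/z`. `∑_l ∑_c pz = ∑_l nb n l` (`sum_pz_range`) is between `1 - 2·0.98^k` (`gtail`) and `1` (`AA.sum_nb_le_one`).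
`z ≥ y/2^(21k) ≥ 2^(229 k)` (`AA.b5_kk`), `3^m' ≤ 4^k`, so `|θ| ≤ 2·2^(2k)/2^(229k) ≤ 2·0.98^k`. Total error `≤ 4·0.98^k ≤ C/k^A`
(`AA.b5_exp`), `k ≥ log₂ y/500`. -/
theorem gg_compl (A : ℕ) : ∃ C : ℝ, 0 ≤ C ∧ ∀ (d : ℤ) (S : Set ℤ) (y : ℝ), (2 : ℝ) ^ (5250 : ℝ) ≤ y →
      ∀ n : ℕ, kk y ≤ n → n ≤ 10 * kk y →
      |GG S d y n + GG Sᶜ d y n - 1| ≤ C / (Real.logb 2 y) ^ A := by
  obtain ⟨C2, hC2, hexp⟩ := b5_exp A
  refine ⟨4 * C2 * 500 ^ A, by positivity, ?_⟩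
  intro d S y hy n hn1 hn2
  have hy1 : 0 < y := lt_of_lt_of_le (Real.rpow_pos_of_pos (by norm_num) _) hy
  have hly : 5250 ≤ Real.logb 2 y := by
    rw [Real.le_logb_iff_rpow_le (by norm_num) hy1]
    exact hy
  clear hy
  obtain ⟨k1, k2, k3⟩ := b5_kk (y := y) (by linarith)
  unfold GG
  generalize kk y = k at *
  obtain ⟨m, hm⟩ : ∃ m, m = Nat.sqrt (k / 2) := ⟨_, rfl⟩
  rw [← hm]
  have hmk : m ≤ k := hm ▸ (Nat.sqrt_le_self _).trans (Nat.div_le_self _ _)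
  clear hm
  have htr := b5_triv hy1 k1 hmk
  have h3m : (0 : ℝ) < 3 ^ m := by positivity
  have htr2 : (2 : ℝ) ^ (21 * k) * 3 ^ m ≤ y * (0.98 : ℝ) ^ k := by
    have e : y / (2 * 3 ^ m) * (2 * (0.98 : ℝ) ^ k) = y * (0.98 : ℝ) ^ k / 3 ^ m := by
      field_simp
    rw [e, le_div_iff₀ h3m] at htr
    exact htr
  have hth : ∀ l ∈ Icc (2 * n - k) (2 * n + k),
      2 * 3 ^ m / (3 ^ n * y / 2 ^ l) ≤ 2 * (0.98 : ℝ) ^ k := by
    intro l hl
    rw [Finset.mem_Icc] at hl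
    have hz0 : (0 : ℝ) < 3 ^ n * y / 2 ^ l := by positivity
    rw [div_le_iff₀ hz0]
    have h2l : (2 : ℝ) ^ l ≤ 2 ^ (21 * k) := pow_le_pow_right₀ (by norm_num) (by omega)
    have h1 : (2 : ℝ) ^ l * 3 ^ m ≤ y * (0.98 : ℝ) ^ k :=
      (mul_le_mul_of_nonneg_right h2l h3m.le).trans htr2
    have h3n : (1 : ℝ) ≤ 3 ^ n := one_le_pow₀ (by norm_num)
    have h2 : y * (0.98 : ℝ) ^ k ≤ 3 ^ n * (y * (0.98 : ℝ) ^ k) :=
      le_mul_of_one_le_left (by positivity) h3n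
    have e2 : 2 * (0.98 : ℝ) ^ k * (3 ^ n * y / 2 ^ l) =
        2 * (3 ^ n * (y * (0.98 : ℝ) ^ k)) / 2 ^ l := by ring
    rw [e2, le_div_iff₀ (by positivity)]
    calc 2 * 3 ^ m * 2 ^ l = 2 * ((2 : ℝ) ^ l * 3 ^ m) := by ring
      _ ≤ 2 * (3 ^ n * (y * (0.98 : ℝ) ^ k)) := by linarith
  obtain ⟨s, hs⟩ : ∃ s, s = ∑ l ∈ Icc (2 * n - k) (2 * n + k), nb n l := ⟨_, rfl⟩
  have hs1 : s ≤ 1 := by
    rw [hs]
    refine le_trans (Finset.sum_le_sum_of_subset_of_nonneg ?_ ?_) (sum_nb_le_one n (2 * n + k))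
    · intro l hl
      rw [Finset.mem_Icc] at hl
      rw [Finset.mem_range]
      omega
    · intro l _ _
      exact nb_nonneg n l
  have hs2 : 1 - s ≤ 2 * (0.98 : ℝ) ^ k := by
    rw [hs]
    exact gtail hn1 hn2
  have hmain : |(∑ l ∈ Icc (2 * n - k) (2 * n + k), ∑ c ∈ range (3 ^ m),
        pz d 0 m n l ((c : ℕ) : ZMod (3 ^ m)) * ro S m c (3 ^ n * y / 2 ^ l)) +
      (∑ l ∈ Icc (2 * n - k) (2 * n + k), ∑ c ∈ range (3 ^ m),
        pz d 0 m n l ((c : ℕ) : ZMod (3 ^ m)) * ro Sᶜ m c (3 ^ n * y / 2 ^ l)) - s| ≤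
      2 * (0.98 : ℝ) ^ k * s := by
    have e3 : (∑ l ∈ Icc (2 * n - k) (2 * n + k), ∑ c ∈ range (3 ^ m),
        pz d 0 m n l ((c : ℕ) : ZMod (3 ^ m)) * ro S m c (3 ^ n * y / 2 ^ l)) +
      (∑ l ∈ Icc (2 * n - k) (2 * n + k), ∑ c ∈ range (3 ^ m),
        pz d 0 m n l ((c : ℕ) : ZMod (3 ^ m)) * ro Sᶜ m c (3 ^ n * y / 2 ^ l)) - s =
      ∑ l ∈ Icc (2 * n - k) (2 * n + k), ∑ c ∈ range (3 ^ m),
        pz d 0 m n l ((c : ℕ) : ZMod (3 ^ m)) *
          (ro S m c (3 ^ n * y / 2 ^ l) + ro Sᶜ m c (3 ^ n * y / 2 ^ l) - 1) := by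
      rw [hs, ← Finset.sum_add_distrib, ← Finset.sum_sub_distrib]
      refine Finset.sum_congr rfl fun l _ => ?_
      rw [← sum_pz_range d 0 m n l, ← Finset.sum_add_distrib, ← Finset.sum_sub_distrib]
      refine Finset.sum_congr rfl fun c _ => ?_
      ring
    rw [e3, hs, Finset.mul_sum]
    refine (Finset.abs_sum_le_sum_abs _ _).trans (Finset.sum_le_sum fun l hl => ?_)
    rw [← sum_pz_range d 0 m n l, Finset.mul_sum]
    refine (Finset.abs_sum_le_sum_abs _ _).trans (Finset.sum_le_sum fun c _ => ?_)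
    have hp := pz_nonneg d 0 m n l ((c : ℕ) : ZMod (3 ^ m))
    rw [abs_mul, abs_of_nonneg hp, mul_comm]
    refine mul_le_mul_of_nonneg_right ?_ hp
    have hz0 : (0 : ℝ) < 3 ^ n * y / 2 ^ l := by positivity
    exact (ro_compl S m c hz0).trans (hth l hl)
  have hpk : (0 : ℝ) ≤ 2 * (0.98 : ℝ) ^ k := by positivity
  have hmain2 : 2 * (0.98 : ℝ) ^ k * s ≤ 2 * (0.98 : ℝ) ^ k := by nlinarith
  have hk0 : (0 : ℝ) < k := by linarith
  have hly0 : 0 < Real.logb 2 y := by linarith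
  have hfin : 4 * (0.98 : ℝ) ^ k ≤ 4 * C2 * 500 ^ A / Real.logb 2 y ^ A := by
    have s5 : (0.98 : ℝ) ^ k ≤ C2 / (k : ℝ) ^ A := by
      rw [le_div_iff₀ (by positivity), mul_comm]
      exact hexp k
    have s6 : 4 * (0.98 : ℝ) ^ k ≤ 4 * C2 / (k : ℝ) ^ A := by
      calc 4 * (0.98 : ℝ) ^ k ≤ 4 * (C2 / (k : ℝ) ^ A) := by linarith
        _ = _ := by ring
    refine s6.trans ?_
    have s7 : Real.logb 2 y ^ A ≤ 500 ^ A * (k : ℝ) ^ A := by
      rw [← mul_pow]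
      exact pow_le_pow_left₀ hly0.le k3 A
    rw [div_le_div_iff₀ (by positivity) (by positivity)]
    calc 4 * C2 * Real.logb 2 y ^ A
        ≤ 4 * C2 * (500 ^ A * (k : ℝ) ^ A) :=
          mul_le_mul_of_nonneg_left s7 (by positivity)
      _ = _ := by ring
  refine le_trans ?_ hfin
  rw [abs_le] at hmain ⊢
  constructor <;> linarith [hmain.1, hmain.2]

end Pool.Agent.Lib.MP_d0d59f_nt.ND

end

section

/-! Row nd-G10 (about 150 lines): the upper estimate. -/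

namespace Pool.Agent.Lib.MP_d0d59f_nt.ND

open Finset AA

/-- PROOF: `gdens` with `S = Q`, `l1 = 2n - k`, `L = 2n + k ≤ 21 k`, `m' = sqrt (k/2) ≤ n`, `k = kk y`; `hP` is `inv_path`:
`(b + |d|) 2^L ≤ √y 2^(21 k) < y ≤ N` since `250 k ≤ log₂ y` (`AA.b5_kk`). Divide by `y/(2·3^m)`:
`ro S m r y ≤ GG + C1/k^A + 2·0.98^k + (|d|+5) 2^(21k) (2·3^m)/y`; the last term is at most
`(|d|+5)·2·0.98^k` (`AA.b5_triv`), `0.98^k ≤ C/k^A` (`AA.b5_exp`), `k ≥ log₂ y/500`. See the end of the proof of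
`AA.dens_step` (AA/B5Scale.lean) for exactly the same computation. -/
theorem gup {d : ℤ} (hd : Odd d) (h3 : ¬ (3 : ℤ) ∣ d) (A : ℕ) : ∃ C : ℝ, 0 ≤ C ∧
    ∃ y0 : ℝ, 2 ≤ y0 ∧ ∀ (b : ℝ) (S : Set ℤ), 0 ≤ b → Inv d b S → ∀ y : ℝ, y0 ≤ y →
      (b + |(d : ℝ)| + 1) ^ 2 ≤ y → ∀ n : ℕ, kk y ≤ n → n ≤ 10 * kk y →
      ∀ (m : ℕ) (r : ℤ), m * m ≤ kk y →
      ro S m r y ≤ GG S d y n + C / (Real.logb 2 y) ^ A := by
  obtain ⟨C1, hC1, hosc⟩ := gosc h3 A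
  obtain ⟨C2, hC2, hexp⟩ := b5_exp A
  obtain ⟨y0, hy0⟩ : ∃ y0 : ℝ, y0 = max 2 ((2 : ℝ) ^ (5250 : ℝ)) := ⟨_, rfl⟩
  have hy02 : 2 ≤ y0 := hy0 ▸ le_max_left _ _
  have hy0' : (2 : ℝ) ^ (5250 : ℝ) ≤ y0 := hy0 ▸ le_max_right _ _
  refine ⟨(C1 + (2 * |(d : ℝ)| + 12) * C2) * 500 ^ A, by positivity, y0, hy02, ?_⟩
  intro b S hb hS y hy hby n hn1 hn2 m r hm
  have hy1 : 0 < y := lt_of_lt_of_le (by norm_num) (hy02.trans hy)
  have hly : 5250 ≤ Real.logb 2 y := by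
    rw [Real.le_logb_iff_rpow_le (by norm_num) hy1]
    exact hy0'.trans hy
  clear hy0 hy0'
  obtain ⟨k1, k2, k3⟩ := b5_kk (y := y) (by linarith)
  unfold GG
  obtain ⟨k, hk⟩ : ∃ k, k = kk y := ⟨_, rfl⟩
  rw [← hk] at k1 k2 k3 hm hn1 hn2 ⊢
  have k4 : (20 : ℝ) < k := by linarith
  have k5 : 1 ≤ k := by
    have : (1 : ℝ) ≤ k := by linarith
    exact_mod_cast this
  have hmk : m ≤ k := by
    rcases Nat.eq_zero_or_pos m with h | h
    · omega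
    · exact (Nat.le_mul_self m).trans hm
  have hsq : Nat.sqrt (k / 2) ≤ n := by
    have := Nat.sqrt_le_self (k / 2)
    omega
  have hm' : Nat.sqrt (k / 2) ≤ n + m := by omega
  have hL : 2 * n + k ≤ 21 * k := by omega
  -- `2 ^ (250 k) ≤ y`
  have hyk : (2 : ℝ) ^ (250 * k) ≤ y := by
    have h2 : (2 : ℝ) ^ ((250 * k : ℕ) : ℝ) ≤ (2 : ℝ) ^ (Real.logb 2 y) :=
      Real.rpow_le_rpow_of_exponent_le (by norm_num) (by push_cast; linarith)
    rw [Real.rpow_natCast, Real.rpow_logb (by norm_num) (by norm_num) hy1] at h2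
    exact h2
  have hbd : (b + |(d : ℝ)|) * 2 ^ (21 * k) < y := by
    have e0 : 0 ≤ b + |(d : ℝ)| := by positivity
    have e1 : (b + |(d : ℝ)|) ^ 2 < y := by nlinarith
    have e2 : ((2 : ℝ) ^ (21 * k)) ^ 2 ≤ y := by
      rw [← pow_mul]
      exact (pow_le_pow_right₀ (by norm_num) (by omega)).trans hyk
    have e3 : ((b + |(d : ℝ)|) * 2 ^ (21 * k)) ^ 2 < y ^ 2 := by
      rw [mul_pow, sq y]
      exact mul_lt_mul e1 e2 (by positivity) hy1.le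
    exact lt_of_pow_lt_pow_left₀ 2 hy1.le e3
  have hmain := gdens hd h3 S S n m (Nat.sqrt (k / 2)) (2 * n - k) (2 * n + k) hm' r y hy1
    (by
      intro e N M _ _ he2 hN hNS hp
      have hN2 : y ≤ (N : ℝ) := by
        unfold itv at hN
        rw [Finset.mem_Ico] at hN
        exact Int.ceil_le.mp hN.1
      have hle : (2 : ℝ) ^ e.sum ≤ 2 ^ (21 * k) :=
        pow_le_pow_right₀ (by norm_num) (he2.trans hL)
      have : (b + |(d : ℝ)|) * 2 ^ e.sum < N := by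
        have e0 : 0 ≤ b + |(d : ℝ)| := by positivity
        have := mul_le_mul_of_nonneg_left hle e0
        linarith
      exact (inv_path hd hb hS hp this).mp hNS)
  have hsum : (∑ l ∈ Icc (2 * n - k) (2 * n + k), ∑ c ∈ range (3 ^ Nat.sqrt (k / 2)),
      pz d r (Nat.sqrt (k / 2)) n l ((c : ℕ) : ZMod (3 ^ Nat.sqrt (k / 2))) *
        ro S (Nat.sqrt (k / 2)) c (3 ^ n * y / 2 ^ l)) =
      ∑ l ∈ Icc (2 * n - k) (2 * n + k), ∑ c ∈ range (3 ^ Nat.sqrt (k / 2)),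
      pz d 0 (Nat.sqrt (k / 2)) n l ((c : ℕ) : ZMod (3 ^ Nat.sqrt (k / 2))) *
        ro S (Nat.sqrt (k / 2)) c (3 ^ n * y / 2 ^ l) := by
    refine Finset.sum_congr rfl fun l _ => Finset.sum_congr rfl fun c _ => ?_
    rw [pz_indep hsq d r l]
  rw [hsum] at hmain
  obtain ⟨G, hG⟩ : ∃ G : ℝ, G = ∑ l ∈ Icc (2 * n - k) (2 * n + k),
      ∑ c ∈ range (3 ^ Nat.sqrt (k / 2)),
      pz d 0 (Nat.sqrt (k / 2)) n l ((c : ℕ) : ZMod (3 ^ Nat.sqrt (k / 2))) *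
        ro S (Nat.sqrt (k / 2)) c (3 ^ n * y / 2 ^ l) := ⟨_, rfl⟩
  rw [← hG] at hmain ⊢
  have ho := hosc k m n r k5 hm hn1 hn2
  have htl := gtail hn1 hn2
  have htr := b5_triv hy1 k1 hmk
  have hY : 0 < y / (2 * 3 ^ m) := by positivity
  have hd5 : (0 : ℝ) ≤ |(d : ℝ)| + 5 := by positivity
  have s1 : (cS S m r y : ℝ) ≤ y / (2 * 3 ^ m) *
      (G + (C1 / (k : ℝ) ^ A + (2 * |(d : ℝ)| + 12) * (0.98 : ℝ) ^ k)) := by
    have s2 : y / (2 * 3 ^ m) * (G + osc d r (n + m) (Nat.sqrt (k / 2)) n (2 * n + k)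
        + (1 - ∑ l ∈ Icc (2 * n - k) (2 * n + k), nb n l)) ≤
        y / (2 * 3 ^ m) * (G + C1 / (k : ℝ) ^ A + 2 * (0.98 : ℝ) ^ k) :=
      mul_le_mul_of_nonneg_left (by linarith) hY.le
    have s3 : (|(d : ℝ)| + 5) * 2 ^ (2 * n + k) ≤
        (|(d : ℝ)| + 5) * (y / (2 * 3 ^ m) * (2 * (0.98 : ℝ) ^ k)) :=
      mul_le_mul_of_nonneg_left ((pow_le_pow_right₀ (by norm_num) hL).trans htr) hd5
    calc (cS S m r y : ℝ) ≤ _ := hmain
      _ ≤ y / (2 * 3 ^ m) * (G + C1 / (k : ℝ) ^ A + 2 * (0.98 : ℝ) ^ k) +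
          (|(d : ℝ)| + 5) * (y / (2 * 3 ^ m) * (2 * (0.98 : ℝ) ^ k)) := add_le_add s2 s3
      _ = _ := by ring
  have hk0 : (0 : ℝ) < k := by linarith
  have hly0 : 0 < Real.logb 2 y := by linarith
  have s4 : C1 / (k : ℝ) ^ A + (2 * |(d : ℝ)| + 12) * (0.98 : ℝ) ^ k ≤
      (C1 + (2 * |(d : ℝ)| + 12) * C2) * 500 ^ A / Real.logb 2 y ^ A := by
    have s5 : (0.98 : ℝ) ^ k ≤ C2 / (k : ℝ) ^ A := by
      rw [le_div_iff₀ (by positivity), mul_comm]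
      exact hexp k
    have s6 : C1 / (k : ℝ) ^ A + (2 * |(d : ℝ)| + 12) * (0.98 : ℝ) ^ k ≤
        (C1 + (2 * |(d : ℝ)| + 12) * C2) / (k : ℝ) ^ A := by
      have := mul_le_mul_of_nonneg_left s5 (show (0 : ℝ) ≤ 2 * |(d : ℝ)| + 12 by positivity)
      calc _ ≤ C1 / (k : ℝ) ^ A + (2 * |(d : ℝ)| + 12) * (C2 / (k : ℝ) ^ A) := by linarith
        _ = _ := by ring
    refine s6.trans ?_
    have s7 : Real.logb 2 y ^ A ≤ 500 ^ A * (k : ℝ) ^ A := by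
      rw [← mul_pow]
      exact pow_le_pow_left₀ hly0.le k3 A
    rw [div_le_div_iff₀ (by positivity) (by positivity)]
    calc (C1 + (2 * |(d : ℝ)| + 12) * C2) * Real.logb 2 y ^ A
        ≤ (C1 + (2 * |(d : ℝ)| + 12) * C2) * (500 ^ A * (k : ℝ) ^ A) :=
          mul_le_mul_of_nonneg_left s7 (by positivity)
      _ = _ := by ring
  unfold ro
  rw [div_le_iff₀ hY, mul_comm]
  exact s1.trans (mul_le_mul_of_nonneg_left (by linarith) hY.le)

end Pool.Agent.Lib.MP_d0d59f_nt.ND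

end

section

/-! Row nd-G12 (about 90 lines): the two-sided step. -/

namespace Pool.Agent.Lib.MP_d0d59f_nt.ND

open Finset AA

/-- PROOF: `gup` for `S` is the upper estimate; `gup` for `Sᶜ` (`Inv.compl`), `gg_compl` and `ro_compl` give the lower one:
`ro S ≥ 1 - 2·3^m/y - ro Sᶜ ≥ 1 - 2·3^m/y - GG Sᶜ - C/log^A ≥ GG S - 2 C/log^A - 2·3^m/y`, and `2·3^m/y ≤ C/(log₂ y)^A`
(`m ≤ k`, `y ≥ 2^(250 k)`, `AA.b5_exp`). -/
theorem gstep {d : ℤ} (hd : Odd d) (h3 : ¬ (3 : ℤ) ∣ d) (A : ℕ) : ∃ C : ℝ, 0 ≤ C ∧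
    ∃ y0 : ℝ, 2 ≤ y0 ∧ ∀ (b : ℝ) (S : Set ℤ), 0 ≤ b → Inv d b S → ∀ y : ℝ, y0 ≤ y →
      (b + |(d : ℝ)| + 1) ^ 2 ≤ y → ∀ n : ℕ, kk y ≤ n → n ≤ 10 * kk y →
      ∀ (m : ℕ) (r : ℤ), m * m ≤ kk y →
      |ro S m r y - GG S d y n| ≤ C / (Real.logb 2 y) ^ A := by
  obtain ⟨C1, hC1, y1, hy1, hup⟩ := gup hd h3 A
  obtain ⟨C2, hC2, hcompl⟩ := gg_compl A
  obtain ⟨C3, hC3, hexp⟩ := b5_exp A
  refine ⟨C1 + C2 + 2 * C3 * 500 ^ A, by positivity, max y1 ((2 : ℝ) ^ (5250 : ℝ)),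
    hy1.trans (le_max_left _ _), ?_⟩
  intro b S hb hS y hy hby n hn1 hn2 m r hm
  have hyy1 : y1 ≤ y := (le_max_left _ _).trans hy
  have hyy2 : (2 : ℝ) ^ (5250 : ℝ) ≤ y := (le_max_right _ _).trans hy
  have hy0 : 0 < y := lt_of_lt_of_le (by norm_num) (hy1.trans hyy1)
  have hly : 5250 ≤ Real.logb 2 y := by
    rw [Real.le_logb_iff_rpow_le (by norm_num) hy0]
    exact hyy2
  have h1 := hup b S hb hS y hyy1 hby n hn1 hn2 m r hm
  have h2 := hup b Sᶜ hb hS.compl y hyy1 hby n hn1 hn2 m r hm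
  have h4 := abs_le.1 (hcompl d S y hyy2 n hn1 hn2)
  have h5 := abs_le.1 (ro_compl S m r hy0)
  have hmk : m ≤ kk y := by nlinarith
  obtain ⟨k1, k2, k3⟩ := b5_kk (y := y) (by linarith)
  have htr := b5_triv hy0 k1 hmk
  have h3m : (0 : ℝ) < 3 ^ m := by positivity
  have hly0 : 0 < Real.logb 2 y := by linarith
  have hkpos : (0 : ℝ) < (kk y : ℕ) := by
    by_contra hcon
    push Not at hcon
    nlinarith
  have h6 : 2 * 3 ^ m / y ≤ 2 * (0.98 : ℝ) ^ (kk y) := by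
    rw [div_le_iff₀ hy0]
    have e : y / (2 * 3 ^ m) * (2 * (0.98 : ℝ) ^ (kk y)) = y * (0.98 : ℝ) ^ (kk y) / 3 ^ m := by
      field_simp
    rw [e, le_div_iff₀ h3m] at htr
    have h7 : (1 : ℝ) ≤ 2 ^ (21 * kk y) := one_le_pow₀ (by norm_num)
    nlinarith
  have h8 : 2 * (0.98 : ℝ) ^ (kk y) ≤ 2 * C3 * 500 ^ A / Real.logb 2 y ^ A := by
    have s5 : (0.98 : ℝ) ^ (kk y) ≤ C3 / ((kk y : ℕ) : ℝ) ^ A := by
      rw [le_div_iff₀ (by positivity), mul_comm]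
      exact hexp (kk y)
    have s6 : 2 * (0.98 : ℝ) ^ (kk y) ≤ 2 * C3 / ((kk y : ℕ) : ℝ) ^ A := by
      calc 2 * (0.98 : ℝ) ^ (kk y) ≤ 2 * (C3 / ((kk y : ℕ) : ℝ) ^ A) := by linarith
        _ = _ := by ring
    refine s6.trans ?_
    have s7 : Real.logb 2 y ^ A ≤ 500 ^ A * ((kk y : ℕ) : ℝ) ^ A := by
      rw [← mul_pow]
      exact pow_le_pow_left₀ hly0.le k3 A
    rw [div_le_div_iff₀ (by positivity) (by positivity)]
    calc 2 * C3 * Real.logb 2 y ^ A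
        ≤ 2 * C3 * (500 ^ A * ((kk y : ℕ) : ℝ) ^ A) :=
          mul_le_mul_of_nonneg_left s7 (by positivity)
      _ = _ := by ring
  have hpA : 0 < Real.logb 2 y ^ A := by positivity
  have hA1 : 0 ≤ C1 / Real.logb 2 y ^ A := by positivity
  have hA2 : 0 ≤ C2 / Real.logb 2 y ^ A := by positivity
  have hA3 : 0 ≤ 2 * C3 * 500 ^ A / Real.logb 2 y ^ A := by positivity
  rw [add_div, add_div, abs_le]
  constructor
  · linarith [h4.1, h4.2, h5.1, h5.2]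
  · linarith [h4.1, h4.2, h5.1, h5.2]

end Pool.Agent.Lib.MP_d0d59f_nt.ND

end

section

/-! Row nd-G13 (about 150 lines): the residue classes disappear. -/

namespace Pool.Agent.Lib.MP_d0d59f_nt.ND

open Finset AA

/-- The sum of `nb` over an interval of natural numbers is at most `1`. -/
theorem g13_sum_nb (n a b : ℕ) : ∑ l ∈ Icc a b, nb n l ≤ 1 := by
  refine le_trans ?_ (sum_nb_le_one n b)
  refine Finset.sum_le_sum_of_subset_of_nonneg ?_ (fun i _ _ => nb_nonneg n i)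
  intro l hl
  rw [Finset.mem_Icc] at hl
  rw [Finset.mem_range]
  omega

/-- `log₂` of the new scale is at least `0.97 log₂ y`. -/
theorem g13_log {y : ℝ} (hy : 0 < y) (hL : 500 ≤ Real.logb 2 y) {n l : ℕ}
    (hn : n ≤ 10 * kk y) (hl : l ≤ 2 * n + kk y) :
    0.97 * Real.logb 2 y ≤ Real.logb 2 (3 ^ n * y / 2 ^ l) := by
  obtain ⟨k1, k2, k3⟩ := b5_kk hL
  have hlt := logb_three
  rw [b5_logz hy]
  have h1 : (n : ℝ) ≤ 10 * (kk y : ℝ) := by exact_mod_cast hn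
  have h2 : (l : ℝ) ≤ 2 * (n : ℝ) + (kk y : ℝ) := by exact_mod_cast hl
  have h3 : 1.58 * (n : ℝ) ≤ n * Real.logb 2 3 := by
    have := mul_le_mul_of_nonneg_left hlt.1 (Nat.cast_nonneg n : (0 : ℝ) ≤ n)
    linarith
  linarith

/-- The lower bound `(b+|d|+1)^2 ≤ z` and `y0 ≤ z`. -/
theorem g13_sq {y z w : ℝ} (hy : 0 < y) (hz : 0 < z) (hw : 0 ≤ w) (hwy : w ^ 2 ≤ y)
    (hL : 500 ≤ Real.logb 2 y) (h : 0.97 * Real.logb 2 y ≤ Real.logb 2 z) : w ≤ z := by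
  have h1 : y ≤ z ^ 2 := by
    rw [← Real.logb_le_logb (b := 2) (by norm_num) hy (by positivity), Real.logb_pow]
    push_cast
    linarith
  have h2 : w ^ 2 ≤ z ^ 2 := hwy.trans h1
  exact (sq_le_sq₀ hw hz.le).1 h2

/-- PROOF: `gstep` at `y` with `m = 0`. For `l ∈ [2n-k, 2n+k]`, `z = 3^n y/2^l`: `log₂ z = log₂ y + n λ - l` (`AA.b5_logz`) is between
`0.97 log₂ y` and `log₂ y` (`n ≤ 10 k`, `k ≤ log₂ y/250`, `1.58 ≤ λ ≤ 1.585`: `log₂ z ≥ log₂ y - 0.42 n - k ≥ log₂ y - 5.2 k`), so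
`kk z ≥ k/2 ≥ m'^2`, `z ≥ y0`, `(b+|d|+1)^2 ≤ z` (for `y` large: `z ≥ y^(1/2)`). `gstep` at `z` with its `n' = kk z`, for
`(m', c)` and for `(0, 0)`: `|ro S m' c z - ro S 0 0 z| ≤ 2C/(log₂ z)^A ≤ 2C (1.04)^A.../(log₂ y)^A`. Insert in `GG`
(`sum_pz_range`, `∑ nb ≤ 1`). -/
theorem hstep {d : ℤ} (hd : Odd d) (h3 : ¬ (3 : ℤ) ∣ d) (A : ℕ) : ∃ C : ℝ, 0 ≤ C ∧
    ∃ y0 : ℝ, 2 ≤ y0 ∧ ∀ (b : ℝ) (S : Set ℤ), 0 ≤ b → Inv d b S → ∀ y : ℝ, y0 ≤ y →
      (b + |(d : ℝ)| + 1) ^ 4 ≤ y → ∀ n : ℕ, kk y ≤ n → n ≤ 10 * kk y →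
      |ro S 0 0 y - ∑ l ∈ Icc (2 * n - kk y) (2 * n + kk y), nb n l * ro S 0 0 (3 ^ n * y / 2 ^ l)| ≤
        C / (Real.logb 2 y) ^ A := by
  obtain ⟨C0, hC0, y1, hy1, hG⟩ := gstep hd h3 A
  have hy1sq : (2 : ℝ) ≤ y1 ^ 2 := by nlinarith
  obtain ⟨y0, hy0⟩ : ∃ y0 : ℝ, y0 = max (y1 ^ 2) ((2 : ℝ) ^ (500 : ℝ)) := ⟨_, rfl⟩
  have hy0a : y1 ^ 2 ≤ y0 := hy0 ▸ le_max_left _ _
  have hy0b : (2 : ℝ) ^ (500 : ℝ) ≤ y0 := hy0 ▸ le_max_right _ _
  have hy02 : 2 ≤ y0 := hy1sq.trans hy0a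
  refine ⟨C0 + 2 * C0 / 0.97 ^ A, by positivity, y0, hy02, ?_⟩
  intro b S hb hS y hy hby n hn1 hn2
  have hypos : 0 < y := lt_of_lt_of_le (by norm_num) (hy02.trans hy)
  have hL : 500 ≤ Real.logb 2 y := by
    rw [Real.le_logb_iff_rpow_le (by norm_num) hypos]
    exact hy0b.trans hy
  clear hy0 hy0b
  have hW1 : 1 ≤ b + |(d : ℝ)| + 1 := by
    have := abs_nonneg (d : ℝ)
    linarith
  have hW2 : ((b + |(d : ℝ)| + 1) ^ 2) ^ 2 ≤ y := by
    rw [← pow_mul]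
    exact hby
  have hW3 : (b + |(d : ℝ)| + 1) ^ 2 ≤ y := by
    have h1 : (1 : ℝ) ≤ (b + |(d : ℝ)| + 1) ^ 2 := one_le_pow₀ hW1
    nlinarith
  have hy1y : y1 ≤ y := by nlinarith
  obtain ⟨k1, k2, k3⟩ := b5_kk hL
  have hmain := hG b S hb hS y hy1y hW3 n hn1 hn2 0 0 (by simp)
  obtain ⟨m', hm'⟩ : ∃ m', m' = Nat.sqrt (kk y / 2) := ⟨_, rfl⟩
  have hmm : m' * m' ≤ kk y / 2 := by
    rw [hm']
    exact Nat.sqrt_le _
  -- the comparison of the classes at the new scales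
  have hcls : ∀ l ∈ Icc (2 * n - kk y) (2 * n + kk y), ∀ c : ℕ,
      |ro S m' (c : ℤ) (3 ^ n * y / 2 ^ l) - ro S 0 0 (3 ^ n * y / 2 ^ l)| ≤
        2 * C0 / 0.97 ^ A / (Real.logb 2 y) ^ A := by
    intro l hl c
    rw [Finset.mem_Icc] at hl
    have hz0 : (0 : ℝ) < 3 ^ n * y / 2 ^ l := by positivity
    have hlog := g13_log hypos hL hn2 hl.2
    obtain ⟨z, hz⟩ : ∃ z, z = (3 : ℝ) ^ n * y / 2 ^ l := ⟨_, rfl⟩
    rw [← hz] at hz0 hlog ⊢
    have hz1 : y1 ≤ z := g13_sq hypos hz0 (by linarith) (hy0a.trans hy) hL hlog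
    have hz2 : (b + |(d : ℝ)| + 1) ^ 2 ≤ z := g13_sq hypos hz0 (by positivity) hW2 hL hlog
    have hkz : m' * m' ≤ kk z := by
      refine hmm.trans ?_
      refine Nat.le_floor ?_
      have h1 : ((kk y / 2 : ℕ) : ℝ) ≤ (kk y : ℝ) / 2 := Nat.cast_div_le
      have h2 : (0 : ℝ) ≤ kk y := Nat.cast_nonneg _
      rw [le_div_iff₀ (by norm_num)]
      nlinarith
    have e1 := hG b S hb hS z hz1 hz2 (kk z) le_rfl (by omega) m' c hkz
    have e2 := hG b S hb hS z hz1 hz2 (kk z) le_rfl (by omega) 0 0 (by simp)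
    have e3 : C0 / (Real.logb 2 z) ^ A ≤ C0 / 0.97 ^ A / (Real.logb 2 y) ^ A := by
      rw [div_div, ← mul_pow]
      apply div_le_div_of_nonneg_left hC0 (by positivity)
      exact pow_le_pow_left₀ (by positivity) hlog A
    have e4 : |ro S m' (c : ℤ) z - ro S 0 0 z| ≤
        |ro S m' (c : ℤ) z - GG S d z (kk z)| + |ro S 0 0 z - GG S d z (kk z)| := by
      rw [abs_sub_comm (ro S 0 0 z) (GG S d z (kk z))]
      exact abs_sub_le _ _ _
    calc |ro S m' (c : ℤ) z - ro S 0 0 z| ≤ C0 / (Real.logb 2 z) ^ A + C0 / (Real.logb 2 z) ^ A :=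
          e4.trans (add_le_add e1 e2)
      _ ≤ C0 / 0.97 ^ A / (Real.logb 2 y) ^ A + C0 / 0.97 ^ A / (Real.logb 2 y) ^ A :=
          add_le_add e3 e3
      _ = 2 * C0 / 0.97 ^ A / (Real.logb 2 y) ^ A := by ring
  -- the difference of the two sums
  have hdiff : |GG S d y n -
      ∑ l ∈ Icc (2 * n - kk y) (2 * n + kk y), nb n l * ro S 0 0 (3 ^ n * y / 2 ^ l)| ≤
      2 * C0 / 0.97 ^ A / (Real.logb 2 y) ^ A := by
    have h1 : GG S d y n -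
        ∑ l ∈ Icc (2 * n - kk y) (2 * n + kk y), nb n l * ro S 0 0 (3 ^ n * y / 2 ^ l) =
        ∑ l ∈ Icc (2 * n - kk y) (2 * n + kk y), ∑ c ∈ range (3 ^ m'),
          pz d 0 m' n l ((c : ℕ) : ZMod (3 ^ m')) *
            (ro S m' c (3 ^ n * y / 2 ^ l) - ro S 0 0 (3 ^ n * y / 2 ^ l)) := by
      unfold GG
      rw [← hm', ← Finset.sum_sub_distrib]
      refine Finset.sum_congr rfl fun l _ => ?_
      rw [← sum_pz_range d 0 m' n l, Finset.sum_mul, ← Finset.sum_sub_distrib]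
      refine Finset.sum_congr rfl fun c _ => ?_
      ring
    rw [h1]
    obtain ⟨E, hE⟩ : ∃ E, E = 2 * C0 / 0.97 ^ A / (Real.logb 2 y) ^ A := ⟨_, rfl⟩
    rw [← hE] at hcls ⊢
    have hE0 : 0 ≤ E := by
      rw [hE]
      have : 0 ≤ (Real.logb 2 y) ^ A := by positivity
      positivity
    calc |∑ l ∈ Icc (2 * n - kk y) (2 * n + kk y), ∑ c ∈ range (3 ^ m'),
          pz d 0 m' n l ((c : ℕ) : ZMod (3 ^ m')) *
            (ro S m' c (3 ^ n * y / 2 ^ l) - ro S 0 0 (3 ^ n * y / 2 ^ l))|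
        ≤ ∑ l ∈ Icc (2 * n - kk y) (2 * n + kk y), ∑ c ∈ range (3 ^ m'),
          pz d 0 m' n l ((c : ℕ) : ZMod (3 ^ m')) * E := by
          refine (Finset.abs_sum_le_sum_abs _ _).trans (Finset.sum_le_sum fun l hl => ?_)
          refine (Finset.abs_sum_le_sum_abs _ _).trans (Finset.sum_le_sum fun c _ => ?_)
          rw [abs_mul, abs_of_nonneg (pz_nonneg d 0 m' n l _)]
          exact mul_le_mul_of_nonneg_left (hcls l hl c) (pz_nonneg d 0 m' n l _)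
      _ = (∑ l ∈ Icc (2 * n - kk y) (2 * n + kk y), nb n l) * E := by
          rw [Finset.sum_mul]
          refine Finset.sum_congr rfl fun l _ => ?_
          rw [← Finset.sum_mul, sum_pz_range]
      _ ≤ 1 * E := mul_le_mul_of_nonneg_right (g13_sum_nb n _ _) hE0
      _ = E := one_mul E
  calc |ro S 0 0 y - ∑ l ∈ Icc (2 * n - kk y) (2 * n + kk y),
          nb n l * ro S 0 0 (3 ^ n * y / 2 ^ l)|
      ≤ |ro S 0 0 y - GG S d y n| + |GG S d y n -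
          ∑ l ∈ Icc (2 * n - kk y) (2 * n + kk y), nb n l * ro S 0 0 (3 ^ n * y / 2 ^ l)| :=
        abs_sub_le _ _ _
    _ ≤ C0 / (Real.logb 2 y) ^ A + 2 * C0 / 0.97 ^ A / (Real.logb 2 y) ^ A :=
        add_le_add hmain hdiff
    _ = (C0 + 2 * C0 / 0.97 ^ A) / (Real.logb 2 y) ^ A := by ring

end Pool.Agent.Lib.MP_d0d59f_nt.ND

end

section

/-! Row nd-G14 (about 150 lines): the function `h`. -/

namespace Pool.Agent.Lib.MP_d0d59f_nt.ND

open Finset AA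

/-- Odd elements of `S` in `[α, β)`. -/
def g14W (S : Set ℤ) (α β : ℝ) : Set ℤ := {N : ℤ | N ∈ itv α β ∧ Odd N ∧ N ∈ S}

theorem g14_fin (S : Set ℤ) (α β : ℝ) : (g14W S α β).Finite :=
  (itv α β).finite_toSet.subset fun _ h => h.1

theorem g14_cS (S : Set ℤ) (y : ℝ) : cS S 0 0 y = (g14W S y (2 * y)).ncard := by
  unfold cS g14W
  congr 1
  ext N
  simp only [Set.mem_ofPred_eq]
  constructor
  · rintro ⟨h1, h2, -, h4⟩
    exact ⟨h1, h2, h4⟩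
  · rintro ⟨h1, h2, h4⟩
    refine ⟨h1, h2, ?_, h4⟩
    rw [Int.modEq_iff_dvd]
    simp

theorem g14_card_le (S : Set ℤ) {α β : ℝ} (h : α ≤ β) :
    ((g14W S α β).ncard : ℝ) ≤ (β - α) / 2 + 1 := by
  have h1 := card_odd_class_le α β h 0 0
  have h2 : (g14W S α β).ncard ≤
      ((itv α β).filter fun N => Odd N ∧ N ≡ 0 [ZMOD 3 ^ 0]).card := by
    rw [← Set.ncard_coe_finset]
    refine Set.ncard_le_ncard ?_ (Finset.finite_toSet _)
    intro N hN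
    rw [Finset.coe_filter]
    refine ⟨hN.1, hN.2.1, ?_⟩
    rw [Int.modEq_iff_dvd]
    simp
  have h3 : ((g14W S α β).ncard : ℝ) ≤
      (((itv α β).filter fun N => Odd N ∧ N ≡ 0 [ZMOD 3 ^ 0]).card : ℝ) := by exact_mod_cast h2
  refine h3.trans (h1.trans (le_of_eq ?_))
  norm_num

theorem g14_union (S : Set ℤ) {α β γ : ℝ} (h1 : α ≤ β) (h2 : β ≤ γ) :
    (g14W S α γ).ncard = (g14W S α β).ncard + (g14W S β γ).ncard := by
  rw [← Set.ncard_union_eq ?_ (g14_fin S α β) (g14_fin S β γ)]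
  · congr 1
    ext N
    simp only [g14W, Set.mem_union, Set.mem_ofPred_eq, mem_itv]
    constructor
    · rintro ⟨⟨h3, h4⟩, h5⟩
      by_cases h6 : (N : ℝ) < β
      · exact Or.inl ⟨⟨h3, h6⟩, h5⟩
      · exact Or.inr ⟨⟨not_lt.1 h6, h4⟩, h5⟩
    · rintro (⟨⟨h3, h4⟩, h5⟩ | ⟨⟨h3, h4⟩, h5⟩)
      · exact ⟨⟨h3, h4.trans_le h2⟩, h5⟩
      · exact ⟨⟨h1.trans h3, h4⟩, h5⟩
  · rw [Set.disjoint_left]
    rintro N ⟨h3, -⟩ ⟨h4, -⟩
    rw [mem_itv] at h3 h4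
    exact absurd h3.2 (not_lt.2 h4.1)

theorem g14_ro (S : Set ℤ) (y : ℝ) :
    ro S 0 0 y = ((g14W S y (2 * y)).ncard : ℝ) / (y / 2) := by
  unfold ro
  rw [g14_cS]
  norm_num

/-- `ro S 0 0 y ≤ 5` for all `y > 0`: for `y ≤ 1/2` there is no odd `N` in `[y, 2y)`; for `y > 1/2` use `ro_le`. -/
theorem ro_le_five (S : Set ℤ) {y : ℝ} (hy : 0 < y) : ro S 0 0 y ≤ 5 := by
  rw [g14_ro, div_le_iff₀ (by positivity)]
  by_cases h : y ≤ 1 / 2
  · have h1 : g14W S y (2 * y) = ∅ := by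
      rw [Set.eq_empty_iff_forall_notMem]
      rintro N ⟨h2, -⟩
      rw [mem_itv] at h2
      have h3 : (0 : ℝ) < N := hy.trans_le h2.1
      have h4 : (N : ℝ) < 1 := by linarith
      have h5 : 0 < N := by exact_mod_cast h3
      have h6 : N < 1 := by exact_mod_cast h4
      omega
    rw [h1, Set.ncard_empty]
    push_cast
    positivity
  · push Not at h
    have h1 := g14_card_le S (show y ≤ 2 * y by linarith)
    linarith

/-- Windows: `[2^t, 2^(t+1)) ⊆ [2^x, 2^(x+1)) ∪ [2^(x+1), 2^(x+2))`, so `cS S 0 0 (2^t) ≤ cS (2^x) + cS (2^(x+1))`; divide by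
`2^t/2 ≥ 2^x/2`. -/
theorem ro_tile (S : Set ℤ) {x t : ℝ} (h1 : x ≤ t) (h2 : t ≤ x + 1) :
    ro S 0 0 (2 ^ t) ≤ ro S 0 0 (2 ^ x) + 2 * ro S 0 0 (2 ^ (x + 1)) := by
  have hx : (0 : ℝ) < 2 ^ x := by positivity
  have ht : (0 : ℝ) < 2 ^ t := by positivity
  have h3 : (2 : ℝ) ^ (x + 1) = 2 * 2 ^ x := by
    rw [Real.rpow_add (by norm_num), Real.rpow_one]; ring
  have h4 : (2 : ℝ) ^ x ≤ 2 ^ t := Real.rpow_le_rpow_of_exponent_le (by norm_num) h1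
  have h5 : (2 : ℝ) ^ t ≤ 2 * 2 ^ x := by
    rw [← h3]; exact Real.rpow_le_rpow_of_exponent_le (by norm_num) h2
  rw [g14_ro, g14_ro, g14_ro, h3]
  have h6 : (g14W S (2 ^ t) (2 * 2 ^ t)).ncard ≤
      (g14W S (2 ^ x) (2 * 2 ^ x)).ncard + (g14W S (2 * 2 ^ x) (2 * (2 * 2 ^ x))).ncard := by
    rw [← g14_union S (by linarith) (by linarith)]
    refine Set.ncard_le_ncard ?_ (g14_fin S _ _)
    rintro N ⟨h7, h8⟩
    refine ⟨?_, h8⟩
    rw [mem_itv] at h7 ⊢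
    exact ⟨h4.trans h7.1, by linarith [h7.2]⟩
  have h7 : ((g14W S (2 ^ t) (2 * 2 ^ t)).ncard : ℝ) ≤
      ((g14W S (2 ^ x) (2 * 2 ^ x)).ncard : ℝ) +
        ((g14W S (2 * 2 ^ x) (2 * (2 * 2 ^ x))).ncard : ℝ) := by exact_mod_cast h6
  calc ((g14W S (2 ^ t) (2 * 2 ^ t)).ncard : ℝ) / (2 ^ t / 2)
      ≤ (((g14W S (2 ^ x) (2 * 2 ^ x)).ncard : ℝ) +
        ((g14W S (2 * 2 ^ x) (2 * (2 * 2 ^ x))).ncard : ℝ)) / (2 ^ x / 2) :=
        div_le_div₀ (by positivity) h7 (by positivity) (by linarith)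
    _ = ((g14W S (2 ^ x) (2 * 2 ^ x)).ncard : ℝ) / (2 ^ x / 2) +
        2 * (((g14W S (2 * 2 ^ x) (2 * (2 * 2 ^ x))).ncard : ℝ) / (2 * 2 ^ x / 2)) := by
        field_simp

/-- The windows of `t` and of `s ∈ [t, t+1]` differ by `[2^t, 2^s)` and `[2^(t+1), 2^(s+1))`, which contain at most
`(2^s - 2^t)/2 + 1` and `2^s - 2^t + 1` odd integers; `2^s - 2^t ≤ 2^t (s - t)` (convexity) and `1/2^t ≤ 1/t`. -/
theorem ro_cont (S : Set ℤ) {t s : ℝ} (ht : 1 ≤ t) (h1 : t ≤ s) (h2 : s ≤ t + 1) :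
    |ro S 0 0 (2 ^ s) - ro S 0 0 (2 ^ t)| ≤ 20 * (s - t) + 20 / t := by
  obtain ⟨u, hu⟩ : ∃ u : ℝ, u = 2 ^ t := ⟨_, rfl⟩
  obtain ⟨v, hv⟩ : ∃ v : ℝ, v = 2 ^ s := ⟨_, rfl⟩
  have hu0 : 0 < u := by rw [hu]; positivity
  have hut : 1 + t ≤ u := by
    have h := one_add_mul_self_le_rpow_one_add (s := 1) (by norm_num) ht
    rw [hu]
    norm_num at h
    exact h
  have huv : u ≤ v := by
    rw [hu, hv]; exact Real.rpow_le_rpow_of_exponent_le (by norm_num) h1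
  have hvu : v ≤ 2 * u := by
    have h3 : (2 : ℝ) ^ (t + 1) = 2 * 2 ^ t := by
      rw [Real.rpow_add (by norm_num), Real.rpow_one]; ring
    rw [hu, hv, ← h3]; exact Real.rpow_le_rpow_of_exponent_le (by norm_num) h2
  have hδ : v - u ≤ u * (s - t) := by
    have h := rpow_one_add_le_one_add_mul_self (s := 1) (by norm_num) (p := s - t)
      (by linarith) (by linarith)
    have h3 : v = u * (1 + 1) ^ (s - t) := by
      rw [hu, hv]
      norm_num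
      rw [← Real.rpow_add (by norm_num)]
      congr 1
      ring
    rw [h3]
    nlinarith
  rw [← hu, ← hv, g14_ro, g14_ro]
  have e1 := g14_union S huv hvu
  have e2 := g14_union S (show v ≤ 2 * u by linarith) (show 2 * u ≤ 2 * v by linarith)
  obtain ⟨a, ha⟩ : ∃ a : ℝ, a = ((g14W S u v).ncard : ℝ) := ⟨_, rfl⟩
  obtain ⟨c, hc⟩ : ∃ c : ℝ, c = ((g14W S v (2 * u)).ncard : ℝ) := ⟨_, rfl⟩
  obtain ⟨b, hb⟩ : ∃ b : ℝ, b = ((g14W S (2 * u) (2 * v)).ncard : ℝ) := ⟨_, rfl⟩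
  have f1 : ((g14W S u (2 * u)).ncard : ℝ) = a + c := by
    rw [e1, ha, hc]; push_cast; ring
  have f2 : ((g14W S v (2 * v)).ncard : ℝ) = c + b := by
    rw [e2, hb, hc]; push_cast; ring
  have a0 : 0 ≤ a := by rw [ha]; positivity
  have b0 : 0 ≤ b := by rw [hb]; positivity
  have c0 : 0 ≤ c := by rw [hc]; positivity
  have a1 : a ≤ (v - u) / 2 + 1 := by rw [ha]; exact g14_card_le S huv
  have b1 : b ≤ (2 * v - 2 * u) / 2 + 1 := by rw [hb]; exact g14_card_le S (by linarith)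
  have c1 : c ≤ (2 * u - v) / 2 + 1 := by rw [hc]; exact g14_card_le S hvu
  rw [f1, f2]
  have hv0 : 0 < v := by linarith
  have key : |(c + b) / (v / 2) - (a + c) / (u / 2)| ≤ (5 * (v - u) + 4) / u := by
    have g1 : (c + b) / (v / 2) - (a + c) / (u / 2) =
        2 * b / v - (2 * a / u + 2 * c * (v - u) / (u * v)) := by
      field_simp
      ring
    have g2 : 2 * b / v ≤ (2 * (v - u) + 2) / u := by
      refine div_le_div₀ (by linarith) (by linarith) hu0 huv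
    have g3 : 2 * a / u ≤ ((v - u) + 2) / u := by
      refine div_le_div₀ (by linarith) (by linarith) hu0 le_rfl
    have g4 : 2 * c * (v - u) / (u * v) ≤ 2 * (v - u) / u := by
      rw [div_le_div_iff₀ (by positivity) hu0]
      have h3 : c ≤ v := by linarith
      have h4 : 0 ≤ (v - u) * u := mul_nonneg (by linarith) hu0.le
      nlinarith
    have g5 : 0 ≤ 2 * b / v := by positivity
    have g6 : 0 ≤ 2 * a / u := by positivity
    have g7 : 0 ≤ 2 * c * (v - u) / (u * v) := by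
      refine div_nonneg (mul_nonneg (by linarith) (by linarith)) (by positivity)
    have g8 : (5 * (v - u) + 4) / u =
        (2 * (v - u) + 2) / u + ((v - u) + 2) / u + 2 * (v - u) / u := by
      rw [← add_div, ← add_div]; congr 1; ring
    rw [g1, abs_le, g8]
    have g9 : 0 ≤ (2 * (v - u) + 2) / u := div_nonneg (by linarith) hu0.le
    have g10 : 0 ≤ ((v - u) + 2) / u := div_nonneg (by linarith) hu0.le
    have g11 : 0 ≤ 2 * (v - u) / u := div_nonneg (by linarith) hu0.le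
    constructor
    · linarith
    · linarith
  refine key.trans ?_
  have k1 : (5 * (v - u) + 4) / u ≤ 5 * (s - t) + 4 / u := by
    rw [add_div]
    have : 5 * (v - u) / u ≤ 5 * (s - t) := by
      rw [div_le_iff₀ hu0]; nlinarith
    linarith
  have k2 : 4 / u ≤ 4 / t := div_le_div_of_nonneg_left (by norm_num) (by linarith) (by linarith)
  have k3 : 4 / t ≤ 20 / t := div_le_div_of_nonneg_right (by norm_num) (by linarith)
  linarith

theorem g14_pow {t : ℝ} (n l : ℕ) :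
    (3 : ℝ) ^ n * 2 ^ t / 2 ^ l = 2 ^ (t + n * lam - l) := by
  have h1 : (3 : ℝ) ^ n = 2 ^ ((n : ℝ) * lam) := by
    rw [mul_comm, Real.rpow_mul (by norm_num), lam,
      Real.rpow_logb (by norm_num) (by norm_num) (by norm_num), Real.rpow_natCast]
  rw [h1, Real.rpow_sub (by norm_num), Real.rpow_add (by norm_num), Real.rpow_natCast]
  ring

/-- PROOF: `hstep` with `y = 2^t`, `kk (2^t) = ⌊t/250⌋₊`, `3^n 2^t/2^l = 2^(t + n λ - l)`. The terms of the series outside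
`[2n-k, 2n+k]` contribute at most `5 (1 - ∑_{l in the interval} nb n l) ≤ 10·0.98^k` (`gtail`, `hasSum_nb` in P1,
`AA.b5_exp`, `k ≥ t/500`). `ro_le_five`, `ro_tile`, `ro_cont`, `ro_nonneg`. -/
theorem avg_of_inv {d : ℤ} (hd : Odd d) (h3 : ¬ (3 : ℤ) ∣ d) {b : ℝ} (hb : 0 ≤ b) {S : Set ℤ}
    (hS : Inv d b S) (A : ℕ) : ∃ C T0 : ℝ, Avg (fun t => ro S 0 0 (2 ^ t)) A C T0 := by
  obtain ⟨C, hC, y0, hy0, H⟩ := hstep hd h3 A
  obtain ⟨C', hC', hexp⟩ := b5_exp A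
  have hD : (0 : ℝ) ≤ (b + |(d : ℝ)| + 1) ^ 4 := by positivity
  have hr0 : ∀ t : ℝ, 0 ≤ ro S 0 0 (2 ^ t) := fun t => ro_nonneg S 0 0 (by positivity)
  have hr5 : ∀ t : ℝ, ro S 0 0 (2 ^ t) ≤ 5 := fun t => ro_le_five S (by positivity)
  have hnb0 : ∀ n l, 0 ≤ nb n l := fun n l => by unfold nb; positivity
  refine ⟨C + 10 * C' * 500 ^ A + 20, 1000 + y0 + (b + |(d : ℝ)| + 1) ^ 4, ?_⟩
  refine ⟨by positivity, by linarith, hr0, hr5, ?_, ?_, ?_⟩
  · intro t ht n hn1 hn2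
    have ht1 : 1000 ≤ t := by linarith
    have hut : 1 + t ≤ (2 : ℝ) ^ t := by
      have h := one_add_mul_self_le_rpow_one_add (s := 1) (by norm_num)
        (show (1 : ℝ) ≤ t by linarith)
      norm_num at h
      exact h
    have hlog : Real.logb 2 ((2 : ℝ) ^ t) = t := Real.logb_rpow (by norm_num) (by norm_num)
    have hkk : kk ((2 : ℝ) ^ t) = ⌊t / 250⌋₊ := by
      unfold kk; rw [hlog]
    have h := H b S hb hS (2 ^ t) (by linarith) (by linarith) n (by rw [hkk]; exact hn1)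
      (by rw [hkk]; exact hn2)
    rw [hlog, hkk] at h
    obtain ⟨k, hk⟩ : ∃ k, k = ⌊t / 250⌋₊ := ⟨_, rfl⟩
    rw [← hk] at h hn1 hn2
    simp only [g14_pow] at h
    have hk5 : t ≤ 500 * (k : ℝ) := by
      have := (b5_kk (y := (2 : ℝ) ^ t) (by rw [hlog]; linarith)).2.2
      rw [hlog, hkk, ← hk] at this
      exact this
    have hsum := hasSum_nb n
    have hs1 : Summable (fun l : ℕ => nb n l * ro S 0 0 (2 ^ (t + n * lam - l))) := by
      refine Summable.of_nonneg_of_le (fun l => mul_nonneg (hnb0 n l) (hr0 _))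
        (fun l => ?_) (hsum.summable.mul_right 5)
      exact mul_le_mul_of_nonneg_left (hr5 _) (hnb0 n l)
    have hlow : ∑ l ∈ Icc (2 * n - k) (2 * n + k), nb n l * ro S 0 0 (2 ^ (t + n * lam - l)) ≤
        ∑' l : ℕ, nb n l * ro S 0 0 (2 ^ (t + n * lam - l)) :=
      hs1.sum_le_tsum _ (fun l _ => mul_nonneg (hnb0 n l) (hr0 _))
    have hup : ∑' l : ℕ, nb n l * ro S 0 0 (2 ^ (t + n * lam - l)) -
        ∑ l ∈ Icc (2 * n - k) (2 * n + k), nb n l * ro S 0 0 (2 ^ (t + n * lam - l)) ≤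
        5 * (1 - ∑ l ∈ Icc (2 * n - k) (2 * n + k), nb n l) := by
      have hs2 : Summable (fun l : ℕ => nb n l * (5 - ro S 0 0 (2 ^ (t + n * lam - l)))) := by
        have := (hsum.summable.mul_right 5).sub hs1
        refine this.congr (fun l => ?_)
        ring
      have h7 := hs2.sum_le_tsum (Icc (2 * n - k) (2 * n + k))
        (fun l _ => mul_nonneg (hnb0 n l) (by linarith [hr5 (t + n * lam - l)]))
      have h8 : ∑' l : ℕ, nb n l * (5 - ro S 0 0 (2 ^ (t + n * lam - l))) =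
          5 - ∑' l : ℕ, nb n l * ro S 0 0 (2 ^ (t + n * lam - l)) := by
        have h9 : ∑' l : ℕ, nb n l * 5 = 5 := by
          rw [tsum_mul_right, hsum.tsum_eq, one_mul]
        conv_rhs => rw [← h9]
        rw [← (hsum.summable.mul_right 5).tsum_sub hs1]
        refine tsum_congr fun l => ?_
        ring
      have h10 : ∑ l ∈ Icc (2 * n - k) (2 * n + k),
          nb n l * (5 - ro S 0 0 (2 ^ (t + n * lam - l))) =
          5 * ∑ l ∈ Icc (2 * n - k) (2 * n + k), nb n l -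
          ∑ l ∈ Icc (2 * n - k) (2 * n + k), nb n l * ro S 0 0 (2 ^ (t + n * lam - l)) := by
        rw [mul_sum, ← sum_sub_distrib]
        refine sum_congr rfl fun l _ => ?_
        ring
      rw [h8, h10] at h7
      linarith
    have htail := gtail hn1 hn2
    have ht0 : 0 < t := by linarith
    have hk0 : 0 < (k : ℝ) := by nlinarith
    have hpow : (0.98 : ℝ) ^ k ≤ C' * 500 ^ A / t ^ A := by
      rw [le_div_iff₀ (by positivity)]
      calc (0.98 : ℝ) ^ k * t ^ A ≤ (0.98 : ℝ) ^ k * (500 * (k : ℝ)) ^ A := by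
            refine mul_le_mul_of_nonneg_left ?_ (by positivity)
            exact pow_le_pow_left₀ ht0.le hk5 A
        _ = ((k : ℝ) ^ A * (0.98 : ℝ) ^ k) * 500 ^ A := by rw [mul_pow]; ring
        _ ≤ C' * 500 ^ A := mul_le_mul_of_nonneg_right (hexp k) (by positivity)
    have hfin : (C + 10 * C' * 500 ^ A + 20) / t ^ A =
        C / t ^ A + 10 * (C' * 500 ^ A / t ^ A) + 20 / t ^ A := by
      field_simp
    have h20 : 0 ≤ 20 / t ^ A := by positivity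
    rw [hfin]
    rw [abs_le] at h ⊢
    constructor
    · linarith [h.1]
    · linarith [h.2]
  · intro t ht s h1 h2
    have ht1 : 1000 ≤ t := by linarith
    refine (ro_cont S (by linarith) h1 h2).trans ?_
    have hc20 : 20 ≤ C + 10 * C' * 500 ^ A + 20 := by
      have : 0 ≤ C + 10 * C' * 500 ^ A := by positivity
      linarith
    have e1 : 20 * (s - t) ≤ (C + 10 * C' * 500 ^ A + 20) * (s - t) :=
      mul_le_mul_of_nonneg_right hc20 (by linarith)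
    have e2 : 20 / t ≤ (C + 10 * C' * 500 ^ A + 20) / t :=
      div_le_div_of_nonneg_right hc20 (by linarith)
    linarith
  · intro x t h1 h2
    exact ro_tile S h1 h2

end Pool.Agent.Lib.MP_d0d59f_nt.ND

end
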