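import Mathlib
import Pool.Agent.Lib.MP_d0d59f_nt.NK.K021

namespace Pool.Agent.Lib.MP_d0d59f_nt.AA
end Pool.Agent.Lib.MP_d0d59f_nt.AA

/-! Row nd-A5 (about 170 lines): propagation upwards. -/

namespace Pool.Agent.Lib.MP_d0d59f_nt.ND

open Finset AA

/-- One step down, as a lower bound: if `h ≥ β` on `[s - 2.26 k, s - 0.2 k]`, `k = ⌊s/250⌋₊`, then `h s ≥ β - (C + C')/s^A`. -/
theorem prop_one {h : ℝ → ℝ} {A : ℕ} {C T0 : ℝ} (H : Avg h A C T0) : ∃ C' : ℝ, 0 ≤ C' ∧
    ∀ s, T0 ≤ s → ∀ β : ℝ,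
      (∀ x, s - 2.26 * ⌊s / 250⌋₊ ≤ x → x ≤ s - 0.2 * ⌊s / 250⌋₊ → β ≤ h x) →
      β - C' / s ^ A ≤ h s := by
  obtain ⟨C1, hC1, hexp⟩ := b5_exp A
  refine ⟨C + 10 * (500 ^ A * C1), by have := H.C_nonneg; positivity, ?_⟩
  intro s hs β hβ
  have hs1000 : (1000 : ℝ) ≤ s := H.T0_ge.trans hs
  have hs0 : (0 : ℝ) < s := by linarith
  have hC0 := H.C_nonneg
  have hsA : (0 : ℝ) < s ^ A := by positivity
  by_cases hb : β < 0
  · have h1 : 0 ≤ (C + 10 * (500 ^ A * C1)) / s ^ A := by positivity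
    have h2 := H.nonneg s
    linarith
  push Not at hb
  set k : ℕ := ⌊s / 250⌋₊ with hk
  have hk1 : (k : ℝ) ≤ s / 250 := Nat.floor_le (by positivity)
  have hk2 : s / 250 < k + 1 := Nat.lt_floor_add_one _
  have hk500 : s / 500 ≤ k := by linarith
  have hk0 : (0 : ℝ) ≤ k := by positivity
  have hβ5 : β ≤ 5 := (hβ (s - k) (by linarith) (by linarith)).trans (H.le _)
  have hstep := H.step s hs (3 * k) (by omega) (by omega)
  have hlam := lam_bounds
  -- the series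
  have hnb0 : ∀ l, 0 ≤ nb (3 * k) l := fun l => by unfold nb; positivity
  have hterm0 : ∀ l : ℕ, 0 ≤ nb (3 * k) l * h (s + ((3 * k : ℕ) : ℝ) * lam - l) := fun l =>
    mul_nonneg (hnb0 l) (H.nonneg _)
  have hsum : Summable fun l : ℕ => nb (3 * k) l * h (s + ((3 * k : ℕ) : ℝ) * lam - l) := by
    refine Summable.of_nonneg_of_le hterm0 (fun l => ?_)
      ((hasSum_nb (3 * k)).summable.mul_right 5)
    exact mul_le_mul_of_nonneg_left (H.le _) (hnb0 l)
  have h1 : ∑ l ∈ Icc (2 * (3 * k) - k) (2 * (3 * k) + k),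
      nb (3 * k) l * h (s + ((3 * k : ℕ) : ℝ) * lam - l) ≤
      ∑' l : ℕ, nb (3 * k) l * h (s + ((3 * k : ℕ) : ℝ) * lam - l) :=
    hsum.sum_le_tsum _ (fun l _ => hterm0 l)
  have h2 : ∑ l ∈ Icc (2 * (3 * k) - k) (2 * (3 * k) + k), nb (3 * k) l * β ≤
      ∑ l ∈ Icc (2 * (3 * k) - k) (2 * (3 * k) + k),
        nb (3 * k) l * h (s + ((3 * k : ℕ) : ℝ) * lam - l) := by
    refine Finset.sum_le_sum fun l hl => mul_le_mul_of_nonneg_left (hβ _ ?_ ?_) (hnb0 l)
    · rw [Finset.mem_Icc] at hl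
      have h3 : l ≤ 7 * k := by omega
      have h4 : (l : ℝ) ≤ 7 * k := by exact_mod_cast h3
      push_cast
      nlinarith
    · rw [Finset.mem_Icc] at hl
      have h3 : 5 * k ≤ l := by omega
      have h4 : 5 * (k : ℝ) ≤ l := by exact_mod_cast h3
      push_cast
      nlinarith
  rw [← Finset.sum_mul] at h2
  have h3 := gtail (k := k) (n := 3 * k) (by omega) (by omega)
  have h4 : (1 - 2 * (0.98 : ℝ) ^ k) * β ≤
      (∑ l ∈ Icc (2 * (3 * k) - k) (2 * (3 * k) + k), nb (3 * k) l) * β :=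
    mul_le_mul_of_nonneg_right (by linarith) hb
  have h98 : (0 : ℝ) ≤ (0.98 : ℝ) ^ k := by positivity
  have h5 : β - 10 * (0.98 : ℝ) ^ k ≤ (1 - 2 * (0.98 : ℝ) ^ k) * β := by nlinarith
  have h6 : (0.98 : ℝ) ^ k ≤ 500 ^ A * C1 / s ^ A := by
    rw [le_div_iff₀ hsA]
    have h7 : s ^ A ≤ 500 ^ A * (k : ℝ) ^ A := by
      rw [← mul_pow]
      exact pow_le_pow_left₀ hs0.le (by linarith) A
    calc (0.98 : ℝ) ^ k * s ^ A ≤ (0.98 : ℝ) ^ k * (500 ^ A * (k : ℝ) ^ A) :=
          mul_le_mul_of_nonneg_left h7 h98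
      _ = 500 ^ A * ((k : ℝ) ^ A * (0.98 : ℝ) ^ k) := by ring
      _ ≤ 500 ^ A * C1 := mul_le_mul_of_nonneg_left (hexp k) (by positivity)
  have h8 := (abs_le.1 hstep).1
  have h9 : (C + 10 * (500 ^ A * C1)) / s ^ A = C / s ^ A + 10 * (500 ^ A * C1 / s ^ A) := by
    ring
  rw [h9]
  linarith

/-- Propagation upwards. -/
theorem propagate {h : ℝ → ℝ} {A : ℕ} {C T0 : ℝ} (H : Avg h A C T0) (hA : 1 ≤ A) : ∃ C' : ℝ, 0 ≤ C' ∧
    ∃ T3 : ℝ, T0 ≤ T3 ∧ ∀ t, T3 ≤ t → ∀ β : ℝ,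
      (∀ s, 0.985 * t ≤ s → s ≤ 0.998 * t → β ≤ h s) →
      ∀ s, 0.985 * t ≤ s → β - C' / t ^ A ≤ h s := by
  obtain ⟨C1, hC1, hone⟩ := prop_one H
  have hT0 := H.T0_ge
  set q : ℝ := 0.9995 with hq
  have hq0 : 0 < q := by rw [hq]; norm_num
  have hq1 : 1 < 1 / q := by rw [hq]; norm_num
  set D : ℝ := (1 / q) ^ A - 1 with hD
  have hD0 : 0 < D := by
    have h1 : 1 < (1 / q) ^ A := one_lt_pow₀ hq1 (by omega)
    rw [hD]
    linarith
  set C2 : ℝ := C1 / D with hC2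
  have hC20 : 0 ≤ C2 := by positivity
  have hC2D : C2 * D = C1 := div_mul_cancel₀ _ hD0.ne'
  refine ⟨C2 / 0.985 ^ A, by positivity, T0 / 0.985, ?_, ?_⟩
  · rw [le_div_iff₀ (by norm_num)]
    nlinarith
  intro t ht β hβ
  have ht1 : T0 ≤ 0.985 * t := by
    rw [div_le_iff₀ (by norm_num)] at ht
    linarith
  have ht0 : 0 < t := by linarith
  have h985 : 0 < (0.985 * t) := by linarith
  -- the claim
  have claim : ∀ j : ℕ, ∀ s, 0.985 * t ≤ s → s ≤ 0.998 * t * (1 / q) ^ j →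
      β - C2 * (1 / (0.985 * t) ^ A - 1 / s ^ A) ≤ h s := by
    have base : ∀ s, 0.985 * t ≤ s → s ≤ 0.998 * t →
        β - C2 * (1 / (0.985 * t) ^ A - 1 / s ^ A) ≤ h s := by
      intro s h1 h2
      have h3 : 1 / s ^ A ≤ 1 / (0.985 * t) ^ A :=
        one_div_le_one_div_of_le (by positivity) (pow_le_pow_left₀ h985.le h1 A)
      have h4 : 0 ≤ C2 * (1 / (0.985 * t) ^ A - 1 / s ^ A) :=
        mul_nonneg hC20 (by linarith)
      have h5 := hβ s h1 h2
      linarith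
    intro j
    induction j with
    | zero =>
      intro s h1 h2
      rw [pow_zero, mul_one] at h2
      exact base s h1 h2
    | succ j ih =>
      intro s h1 h2
      by_cases h3 : s ≤ 0.998 * t
      · exact base s h1 h3
      push Not at h3
      have hs0 : 0 < s := by linarith
      have hs1000 : 1000 ≤ s := by linarith
      set k : ℕ := ⌊s / 250⌋₊ with hk
      have hk1 : (k : ℝ) ≤ s / 250 := Nat.floor_le (by positivity)
      have hk2 : s / 250 < k + 1 := Nat.lt_floor_add_one _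
      have h4 := hone s (by linarith) (β - C2 * (1 / (0.985 * t) ^ A - 1 / (q * s) ^ A)) (by
        intro x hx1 hx2
        have hxl : 0.985 * t ≤ x := by linarith
        have hxu : x ≤ q * s := by
          rw [hq]
          linarith
        have hx0 : 0 < x := by linarith
        have hxj : x ≤ 0.998 * t * (1 / q) ^ j := by
          refine hxu.trans ?_
          have h5 : q * s ≤ q * (0.998 * t * (1 / q) ^ (j + 1)) :=
            mul_le_mul_of_nonneg_left h2 hq0.le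
          have h6 : q * (0.998 * t * (1 / q) ^ (j + 1)) = 0.998 * t * (1 / q) ^ j := by
            rw [pow_succ]
            field_simp
          rwa [h6] at h5
        have h7 := ih x hxl hxj
        have h8 : 1 / (q * s) ^ A ≤ 1 / x ^ A :=
          one_div_le_one_div_of_le (by positivity) (pow_le_pow_left₀ hx0.le hxu A)
        have h9 := mul_le_mul_of_nonneg_left h8 hC20
        rw [mul_sub] at h7 ⊢
        linarith)
      have h5 : C2 * (1 / (q * s) ^ A) = (C2 + C1) / s ^ A := by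
        have h6 : (1 / q) ^ A = D + 1 := by
          rw [hD]
          ring
        have h7 : C2 * (1 / (q * s) ^ A) = C2 * (1 / q) ^ A / s ^ A := by
          rw [mul_pow, one_div_pow]
          field_simp
        rw [h7, h6, mul_add, hC2D, mul_one, add_comm C1]
      have h6 : (C2 + C1) / s ^ A = C2 * (1 / s ^ A) + C1 / s ^ A := by ring
      rw [mul_sub, h5, h6] at h4
      rw [mul_sub]
      linarith
  intro s hs
  have hs0 : 0 < s := by linarith
  obtain ⟨j, hj⟩ := pow_unbounded_of_one_lt (s / (0.998 * t)) hq1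
  have h1 : s ≤ 0.998 * t * (1 / q) ^ j := by
    rw [div_lt_iff₀ (by positivity)] at hj
    linarith
  have h2 := claim j s hs h1
  have h3 : 0 ≤ C2 * (1 / s ^ A) := by positivity
  have h4 : C2 / 0.985 ^ A / t ^ A = C2 * (1 / (0.985 * t) ^ A) := by
    rw [mul_pow]
    field_simp
  rw [h4]
  rw [mul_sub] at h2
  linarith

end Pool.Agent.Lib.MP_d0d59f_nt.ND
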