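import Mathlib
import Pool.Agent.Lib.MP_d0d59f_nt.NK.K025
import Pool.Agent.Lib.MP_d0d59f_nt.NK.K028

namespace Pool.Agent.Lib.MP_d0d59f_nt.AA
end Pool.Agent.Lib.MP_d0d59f_nt.AA

section

/-! Row nd-A3 (about 100 lines): slow variation. -/

namespace Pool.Agent.Lib.MP_d0d59f_nt.ND

open Finset AA

/-- PROOF: given `η`, let `η' = min (1/2) (η / (8 (C + 1)))`, `J` from `dens_lam η'`. For `|s - t| ≤ c √t` take `j ≤ J`, `i` with
`|j λ - i - (s - t)| ≤ η'`, `s' = t + j λ - i`; `|i| ≤ c √t + 2 J + 1`. By `two_points` (for `t ≥ T1`, `c ≤ 1/1000`, `t ≥ ...`)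
`|h s' - h t| ≤ 60 (4 c √t + 16 J + 4)/√t + (1+2^A) C/t^A ≤ 240 c + η/4` for `t` large (`A ≥ 1`), and `|h s - h s'| ≤ C η' + C/(min s s') ≤ η/4` by
`Avg.cont`. Take `c = min (1/1000) (η/1000)`. -/
theorem slow {h : ℝ → ℝ} {A : ℕ} {C T0 : ℝ} (H : Avg h A C T0) (hA : 1 ≤ A) (η : ℝ) (hη : 0 < η) :
    ∃ c : ℝ, 0 < c ∧ ∃ T1 : ℝ, T0 ≤ T1 ∧ ∀ t, T1 ≤ t → ∀ s, |s - t| ≤ c * Real.sqrt t →
      |h s - h t| ≤ η := by
  have hC := H.C_nonneg
  have hT0 := H.T0_ge
  set η' : ℝ := min (1 / 2) (η / (8 * (C + 1))) with hη'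
  have hη'0 : 0 < η' := lt_min (by norm_num) (by positivity)
  have hη'1 : η' ≤ 1 / 2 := min_le_left _ _
  have hη'2 : C * η' ≤ η / 8 := by
    have h1 : η' ≤ η / (8 * (C + 1)) := min_le_right _ _
    rw [le_div_iff₀ (by positivity)] at h1
    have h2 : C * η' = (η' * (8 * (C + 1))) / 8 - η' := by ring
    rw [h2]
    linarith
  obtain ⟨J, hJ⟩ := dens_lam η' hη'0
  obtain ⟨T1, hT1, htwo⟩ := two_points H J
  set c : ℝ := min (1 / 1000) (η / 1000) with hc
  have hc0 : 0 < c := lt_min (by norm_num) (by positivity)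
  have hc1 : c ≤ 1 / 1000 := min_le_left _ _
  have hc2 : c ≤ η / 1000 := min_le_right _ _
  have E1 : ∀ᶠ t : ℝ in Filter.atTop, (960 * (J : ℝ) + 120) / Real.sqrt t ≤ η / 8 := by
    have : Filter.Tendsto (fun t : ℝ => (960 * (J : ℝ) + 120) / Real.sqrt t) Filter.atTop (nhds 0) :=
      tendsto_const_nhds.div_atTop Real.tendsto_sqrt_atTop
    exact (this.eventually (gt_mem_nhds (show (0 : ℝ) < η / 8 by positivity))).mono fun t ht => ht.le
  have E2 : ∀ᶠ t : ℝ in Filter.atTop, (1 + 2 ^ A) * C / t ≤ η / 8 := by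
    have : Filter.Tendsto (fun t : ℝ => (1 + 2 ^ A) * C / t) Filter.atTop (nhds 0) :=
      tendsto_const_nhds.div_atTop Filter.tendsto_id
    exact (this.eventually (gt_mem_nhds (show (0 : ℝ) < η / 8 by positivity))).mono fun t ht => ht.le
  have E3 : ∀ᶠ t : ℝ in Filter.atTop, 2 * C / t ≤ η / 8 := by
    have : Filter.Tendsto (fun t : ℝ => 2 * C / t) Filter.atTop (nhds 0) :=
      tendsto_const_nhds.div_atTop Filter.tendsto_id
    exact (this.eventually (gt_mem_nhds (show (0 : ℝ) < η / 8 by positivity))).mono fun t ht => ht.le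
  obtain ⟨T2, hT2⟩ := Filter.eventually_atTop.1 (((E1.and E2).and E3).and
    (Filter.eventually_ge_atTop (2 * T0)))
  refine ⟨c, hc0, max T1 T2, hT1.trans (le_max_left _ _), ?_⟩
  intro t ht s hs
  obtain ⟨⟨⟨e1, e2⟩, e3⟩, e4⟩ := hT2 t ((le_max_right _ _).trans ht)
  have htT : T1 ≤ t := (le_max_left _ _).trans ht
  have ht1 : 2000 ≤ t := by linarith
  have ht0 : 0 < t := by linarith
  have hsq0 : 0 < Real.sqrt t := Real.sqrt_pos.2 ht0
  have hsqt : Real.sqrt t ≤ t := by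
    rw [Real.sqrt_le_left ht0.le]
    calc t = t * 1 := (mul_one t).symm
      _ ≤ t * t := mul_le_mul_of_nonneg_left (by linarith) ht0.le
      _ = t ^ 2 := (sq t).symm
  have hct : c * Real.sqrt t ≤ t / 1000 := by
    calc c * Real.sqrt t ≤ (1 / 1000) * Real.sqrt t := mul_le_mul_of_nonneg_right hc1 hsq0.le
      _ ≤ (1 / 1000) * t := mul_le_mul_of_nonneg_left hsqt (by norm_num)
      _ = t / 1000 := by ring
  obtain ⟨j, hjJ, i, hji⟩ := hJ (s - t)
  have hjJ' : (j : ℝ) ≤ J := by exact_mod_cast hjJ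
  have hj0 : (0 : ℝ) ≤ j := Nat.cast_nonneg j
  have hlam := lam_bounds
  have hjl : (j : ℝ) * lam ≤ 2 * J := by
    calc (j : ℝ) * lam ≤ j * 2 := mul_le_mul_of_nonneg_left (by linarith [hlam.2]) hj0
      _ ≤ 2 * J := by linarith
  have hjl0 : 0 ≤ (j : ℝ) * lam := mul_nonneg hj0 (by linarith [hlam.1])
  rw [abs_le] at hji hs
  have hi : |(i : ℝ)| ≤ 2 * J + c * Real.sqrt t + 1 / 2 := by
    have hJ0 : (0 : ℝ) ≤ J := Nat.cast_nonneg J
    rw [abs_le]
    constructor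
    · linarith [hji.1, hji.2, hs.1, hs.2]
    · linarith [hji.1, hji.2, hs.1, hs.2]
  have h1 := htwo t htT j i hjJ (by
    rw [abs_le]
    constructor
    · linarith [hji.1, hji.2, hs.1, hs.2]
    · linarith [hji.1, hji.2, hs.1, hs.2])
  have h2 : 60 * (4 * |(i : ℝ)| + 8 * j) / Real.sqrt t ≤ 240 * c + η / 8 := by
    have h3 : 60 * (4 * |(i : ℝ)| + 8 * j) ≤ 240 * c * Real.sqrt t + (960 * (J : ℝ) + 120) := by
      have : 240 * c * Real.sqrt t = 240 * (c * Real.sqrt t) := by ring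
      rw [this]
      linarith
    calc 60 * (4 * |(i : ℝ)| + 8 * j) / Real.sqrt t
        ≤ (240 * c * Real.sqrt t + (960 * (J : ℝ) + 120)) / Real.sqrt t :=
          div_le_div_of_nonneg_right h3 hsq0.le
      _ = 240 * c + (960 * (J : ℝ) + 120) / Real.sqrt t := by
          rw [add_div, mul_div_assoc, div_self hsq0.ne', mul_one]
      _ ≤ 240 * c + η / 8 := by linarith
  have h3 : (1 + 2 ^ A) * C / t ^ A ≤ η / 8 := by
    refine le_trans (div_le_div_of_nonneg_left (by positivity) ht0 ?_) e2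
    calc t = t ^ 1 := (pow_one t).symm
      _ ≤ t ^ A := pow_le_pow_right₀ (by linarith) hA
  set s' : ℝ := t + j * lam - i with hs'
  have hss : |s - s'| ≤ η' := by
    rw [abs_le, hs']
    constructor
    · linarith [hji.1, hji.2]
    · linarith [hji.1, hji.2]
  rw [abs_le] at hss
  have hcont : ∀ x y : ℝ, t / 2 ≤ x → x ≤ y → y ≤ x + η' → |h y - h x| ≤ η / 4 := by
    intro x y hx hxy hyx
    have h4 := H.cont x (by linarith) y hxy (by linarith)
    have h5 : C * (y - x) ≤ C * η' := mul_le_mul_of_nonneg_left (by linarith) hC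
    have h6 : C / x ≤ 2 * C / t := by
      rw [div_le_div_iff₀ (by linarith) ht0]
      calc C * t = C * (t / 2) * 2 := by ring
        _ ≤ C * x * 2 := by
            refine mul_le_mul_of_nonneg_right (mul_le_mul_of_nonneg_left hx hC) (by norm_num)
        _ = 2 * C * x := by ring
    linarith
  have h7 : |h s - h s'| ≤ η / 4 := by
    rcases le_total s s' with hle | hle
    · rw [abs_sub_comm]
      exact hcont s s' (by linarith [hs.1]) hle (by linarith [hss.1])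
    · exact hcont s' s (by linarith [hs.1, hss.2]) hle (by linarith [hss.2])
  rw [abs_le] at h1 h7 ⊢
  constructor
  · linarith [h1.1, h7.1]
  · linarith [h1.2, h7.2]

end Pool.Agent.Lib.MP_d0d59f_nt.ND

end

section

/-! Row nd-A4 (about 170 lines): Harnack at the maximum. -/

namespace Pool.Agent.Lib.MP_d0d59f_nt.ND

open Finset AA

private lemma a4_lam_lt : lam < 8 / 5 := by
  have h1 : 5 * lam = Real.logb 2 (3 ^ 5) := by
    rw [Real.logb_pow]; rfl
  have h2 : Real.logb 2 (3 ^ 5) < Real.logb 2 (2 ^ 8) :=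
    Real.logb_lt_logb (by norm_num) (by norm_num) (by norm_num)
  have h3 : Real.logb 2 (2 ^ 8) = 8 := by
    rw [Real.logb_pow, Real.logb_self_eq_one (by norm_num)]; norm_num
  linarith

private lemma a4_lt_lam : 19 / 12 < lam := by
  have h1 : 12 * lam = Real.logb 2 (3 ^ 12) := by
    rw [Real.logb_pow]; rfl
  have h2 : Real.logb 2 (2 ^ 19) < Real.logb 2 (3 ^ 12) :=
    Real.logb_lt_logb (by norm_num) (by norm_num) (by norm_num)
  have h3 : Real.logb 2 (2 ^ 19) = 19 := by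
    rw [Real.logb_pow, Real.logb_self_eq_one (by norm_num)]; norm_num
  linarith

private lemma a4_nb_nonneg (n l : ℕ) : 0 ≤ nb n l := by
  unfold nb; positivity

/-- The averaging argument. -/
private lemma a4_core (n k j : ℕ) (g : ℕ → ℝ) (a ε e0 p v : ℝ) (ha : 0 ≤ a) (hε : 0 ≤ ε)
    (hg0 : ∀ l, 0 ≤ g l) (hg5 : ∀ l, g l ≤ 5) (hg : ∀ l ∈ Icc (2 * n - k) (2 * n + k), g l ≤ a + ε)
    (hk : k ≤ n) (hkn : n ≤ 10 * k) (hj : j ≤ k) (hv : 0 ≤ v)
    (hp : ∀ l ∈ Icc (2 * n) (2 * n + j), p ≤ nb n l)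
    (hsum : a - ε - e0 ≤ ∑' l : ℕ, nb n l * g l)
    (hbig : 2 * ε + e0 + 10 * (0.98 : ℝ) ^ k < (j + 1) * p * v) :
    ∃ l ∈ Icc (2 * n) (2 * n + j), a + ε - g l ≤ v := by
  by_contra hcon
  have hcon' : ∀ l ∈ Icc (2 * n) (2 * n + j), v < a + ε - g l := by
    intro l hl
    by_contra h
    exact hcon ⟨l, hl, not_lt.1 h⟩
  have hs1 := hasSum_nb n
  have hsg : Summable (fun l => nb n l * g l) := by
    refine Summable.of_nonneg_of_le (fun l => mul_nonneg (a4_nb_nonneg n l) (hg0 l)) (fun l => ?_)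
      (hs1.summable.mul_right 5)
    exact mul_le_mul_of_nonneg_left (hg5 l) (a4_nb_nonneg n l)
  have hf : HasSum (fun l => nb n l * (a + ε + 5 - g l)) (a + ε + 5 - ∑' l : ℕ, nb n l * g l) := by
    have h := (hs1.mul_right (a + ε + 5)).sub hsg.hasSum
    rw [one_mul] at h
    refine h.congr_fun ?_ |> fun h => h
    intro l
    ring
  have h1 : ∑ l ∈ Icc (2 * n - k) (2 * n + k), nb n l * (a + ε + 5 - g l) ≤
      a + ε + 5 - ∑' l : ℕ, nb n l * g l := by
    rw [← hf.tsum_eq]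
    refine hf.summable.sum_le_tsum _ (fun l _ => mul_nonneg (a4_nb_nonneg n l) ?_)
    have := hg5 l
    linarith
  have h2 : ∑ l ∈ Icc (2 * n - k) (2 * n + k), nb n l * (a + ε + 5 - g l) =
      (∑ l ∈ Icc (2 * n - k) (2 * n + k), nb n l * (a + ε - g l)) +
        5 * ∑ l ∈ Icc (2 * n - k) (2 * n + k), nb n l := by
    rw [Finset.mul_sum, ← Finset.sum_add_distrib]
    refine Finset.sum_congr rfl fun l _ => ?_
    ring
  have h3 : ∑ l ∈ Icc (2 * n) (2 * n + j), nb n l * (a + ε - g l) ≤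
      ∑ l ∈ Icc (2 * n - k) (2 * n + k), nb n l * (a + ε - g l) := by
    refine Finset.sum_le_sum_of_subset_of_nonneg ?_ ?_
    · intro l hl
      rw [Finset.mem_Icc] at hl ⊢
      omega
    · intro l hl _
      exact mul_nonneg (a4_nb_nonneg n l) (sub_nonneg.2 (hg l hl))
  have h4 : (j + 1) * p * v ≤ ∑ l ∈ Icc (2 * n) (2 * n + j), nb n l * (a + ε - g l) := by
    have h5 : ∑ l ∈ Icc (2 * n) (2 * n + j), p * v ≤
        ∑ l ∈ Icc (2 * n) (2 * n + j), nb n l * (a + ε - g l) := by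
      refine Finset.sum_le_sum fun l hl => ?_
      calc p * v ≤ nb n l * v := mul_le_mul_of_nonneg_right (hp l hl) hv
        _ ≤ nb n l * (a + ε - g l) := mul_le_mul_of_nonneg_left (hcon' l hl).le (a4_nb_nonneg n l)
    rw [Finset.sum_const, Nat.card_Icc, nsmul_eq_mul] at h5
    have h6 : ((2 * n + j + 1 - 2 * n : ℕ) : ℝ) = j + 1 := by
      rw [show 2 * n + j + 1 - 2 * n = j + 1 by omega]; push_cast; ring
    rw [h6] at h5
    linarith
  have h7 := gtail hk hkn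
  linarith

/-- PROOF. Let `c1` be the constant of `nb_low`, `c2` and `T1` those of `slow` for `η/2`. Let `δ = min (1/3) (c2/4)` and `ε = c1 δ η/100` (small).
Let `t` be large, `s ∈ [.985t, .998t]`. Take `n = ⌊(t - s)/(2 - λ)⌋₊`; `0.415 ≤ 2 - λ ≤ 0.42`, so `n` is between `.0047 t` and `.0362 t`, in
the allowed range of `Avg.step` (`k = ⌊t/250⌋₊ ≤ .004 t`, `10 k ≥ .04 t - 10`) and `|t + n λ - 2n - s| ≤ 1`.
`∑_l nb n l (a + ε - h(t + n λ - l)) ≤ (a + ε) - h t + C/t^A ≤ 2 ε + C/t^A ≤ 3 ε` (`hasSum_nb`). For `l ≤ 2n + (t/2 - ...)`, in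
particular for all `l` with `t + nλ - l ≥ t/2`, the terms are `≥ 0`; the other terms (`l > t/2 + nλ ≥ 2n + k`) are at least `-(5 + |a|) nb n l` and their total is
`≥ -(5+|a|) 2·0.98^k ≥ -ε` (`gtail`; we may assume `0 ≤ a ≤ 6`, otherwise the statement is trivial or the hypotheses are contradictory).
The `l` with `|l - 2n| ≤ δ √n` are at least `δ √n - 1 ≥ δ √n/2` many, each with `nb n l ≥ c1/√n` (`nb_low`), so one of them has
`a + ε - h(x_l) ≤ 4 ε / (c1 δ/2) ≤ η/2`, where `x_l = t + n λ - l`, `|x_l - s| ≤ δ √n + 1 ≤ c2 √s`. By `slow`,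
`h s ≥ h x_l - η/2 ≥ a + ε - η/2 - η/2`. -/
theorem harnack {h : ℝ → ℝ} {A : ℕ} {C T0 : ℝ} (H : Avg h A C T0) (hA : 1 ≤ A) (η : ℝ)
    (hη : 0 < η) : ∃ ε : ℝ, 0 < ε ∧ ε ≤ η ∧ ∃ T2 : ℝ, T0 ≤ T2 ∧ ∀ t, T2 ≤ t → ∀ a : ℝ, 0 ≤ a → a ≤ 6 →
      (∀ s, t / 2 ≤ s → h s ≤ a + ε) → a - ε ≤ h t →
      ∀ s, 0.985 * t ≤ s → s ≤ 0.998 * t → a - η ≤ h s := by
  obtain ⟨c1, hc1, hlow⟩ := nb_low
  obtain ⟨c2, hc2, T1, hT1, hslow⟩ := slow H hA (η / 2) (by positivity)
  set δ : ℝ := min (1 / 3) c2 with hδ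
  have hδ0 : 0 < δ := lt_min (by norm_num) hc2
  have hδ3 : δ ≤ 1 / 3 := min_le_left _ _
  have hδc : δ ≤ c2 := min_le_right _ _
  set κ : ℝ := δ * c1 * η with hκ
  have hκ0 : 0 < κ := by positivity
  refine ⟨min η (κ / 16), lt_min hη (by positivity), min_le_left _ _, ?_⟩
  set ε : ℝ := min η (κ / 16) with hε
  have hε0 : 0 < ε := lt_min hη (by positivity)
  have hεκ : ε ≤ κ / 16 := min_le_right _ _
  have E1 : ∀ᶠ t : ℝ in Filter.atTop, C / t ≤ κ / 16 := by
    have : Filter.Tendsto (fun t : ℝ => C / t) Filter.atTop (nhds 0) :=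
      tendsto_const_nhds.div_atTop Filter.tendsto_id
    exact (this.eventually (gt_mem_nhds (show (0 : ℝ) < κ / 16 by positivity))).mono fun t ht => ht.le
  have E2 : ∀ᶠ t : ℝ in Filter.atTop, 10 * (0.98 : ℝ) ^ ⌊t / 250⌋₊ ≤ κ / 16 := by
    have h1 : Filter.Tendsto (fun t : ℝ => ⌊t / 250⌋₊) Filter.atTop Filter.atTop :=
      tendsto_nat_floor_atTop.comp (Filter.tendsto_id.atTop_div_const (by norm_num))
    have h2 : Filter.Tendsto (fun k : ℕ => 10 * (0.98 : ℝ) ^ k) Filter.atTop (nhds (10 * 0)) :=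
      (tendsto_pow_atTop_nhds_zero_of_lt_one (by norm_num) (by norm_num)).const_mul 10
    rw [mul_zero] at h2
    exact ((h2.comp h1).eventually (gt_mem_nhds (show (0 : ℝ) < κ / 16 by positivity))).mono
      fun t ht => ht.le
  have E3 : ∀ᶠ t : ℝ in Filter.atTop, 2 / c2 ≤ Real.sqrt (t / 2) :=
    (Real.tendsto_sqrt_atTop.comp (Filter.tendsto_id.atTop_div_const (by norm_num))).eventually_ge_atTop _
  obtain ⟨T2, hT2⟩ := Filter.eventually_atTop.1 (((E1.and E2).and E3).and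
    (((Filter.eventually_ge_atTop (8000 : ℝ)).and (Filter.eventually_ge_atTop T0)).and
      (Filter.eventually_ge_atTop (2 * T1))))
  refine ⟨max T0 T2, le_max_left _ _, ?_⟩
  intro t ht a ha0 ha6 hup hlowt s hs1 hs2
  obtain ⟨⟨⟨e1, e2⟩, e3⟩, ⟨⟨e4, e5⟩, e6⟩⟩ := hT2 t ((le_max_right _ _).trans ht)
  have hlam1 := a4_lam_lt
  have hlam2 := a4_lt_lam
  have ht0 : 0 < t := by linarith
  set k : ℕ := ⌊t / 250⌋₊ with hk
  have hk1 : (k : ℝ) ≤ t / 250 := Nat.floor_le (by positivity)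
  have hk2 : t / 250 < k + 1 := Nat.lt_floor_add_one _
  set n : ℕ := ⌊(t - s) / (2 - lam)⌋₊ with hn
  have hden : 0 < 2 - lam := by linarith
  have hts : 0 ≤ t - s := by linarith
  have hn1 : (n : ℝ) ≤ (t - s) / (2 - lam) := Nat.floor_le (by positivity)
  have hn2 : (t - s) / (2 - lam) < n + 1 := Nat.lt_floor_add_one _
  rw [le_div_iff₀ hden] at hn1
  rw [div_lt_iff₀ hden] at hn2
  have hnn : (0 : ℝ) ≤ n := Nat.cast_nonneg n
  have hn3 : (n : ℝ) * (2 / 5) ≤ t - s :=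
    (mul_le_mul_of_nonneg_left (by linarith) hnn).trans hn1
  have hn4 : t - s < ((n : ℝ) + 1) * (5 / 12) :=
    hn2.trans_le (mul_le_mul_of_nonneg_left (by linarith) (by linarith))
  have hkn : k ≤ n := by
    have : (k : ℝ) ≤ n := by linarith
    exact_mod_cast this
  have hnk : n ≤ 10 * k := by
    have : (n : ℝ) ≤ 10 * k := by linarith
    exact_mod_cast this
  have hk20 : (20 : ℝ) ≤ k := by linarith
  have hnpos : (1 : ℝ) ≤ n := by
    have : (k : ℝ) ≤ n := by exact_mod_cast hkn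
    linarith
  have hn1' : 1 ≤ n := by exact_mod_cast hnpos
  have hsn0 : 0 ≤ Real.sqrt n := Real.sqrt_nonneg _
  have hsn1 : 1 ≤ Real.sqrt n := by
    rw [Real.one_le_sqrt]; exact hnpos
  have hsq : Real.sqrt n * Real.sqrt n = n := Real.mul_self_sqrt hnn
  set j : ℕ := ⌊δ * Real.sqrt n⌋₊ with hj
  have hj1 : (j : ℝ) ≤ δ * Real.sqrt n := Nat.floor_le (by positivity)
  have hj2 : δ * Real.sqrt n < j + 1 := Nat.lt_floor_add_one _
  have hj3 : (j : ℝ) ≤ Real.sqrt n / 3 := by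
    have := mul_le_mul_of_nonneg_right hδ3 hsn0
    linarith
  have hjk : j ≤ k := by
    have h10 : (n : ℝ) ≤ 10 * k := by exact_mod_cast hnk
    have h11 : Real.sqrt n ≤ k := by
      rw [Real.sqrt_le_left (by positivity)]
      have h12 : (10 : ℝ) * k ≤ k * k := mul_le_mul_of_nonneg_right (by linarith) (by linarith)
      calc (n : ℝ) ≤ 10 * k := h10
        _ ≤ k * k := h12
        _ = (k : ℝ) ^ 2 := (sq _).symm
    have : (j : ℝ) ≤ k := by linarith
    exact_mod_cast this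
  have hstep := H.step t e5 n hkn hnk
  rw [abs_le] at hstep
  have hCt : C / t ^ A ≤ κ / 16 := by
    refine le_trans ?_ e1
    refine div_le_div_of_nonneg_left H.C_nonneg ht0 ?_
    calc t = t ^ 1 := (pow_one t).symm
      _ ≤ t ^ A := pow_le_pow_right₀ (by linarith) hA
  have hcore : ∃ l ∈ Icc (2 * n) (2 * n + j), a + ε - h (t + n * lam - l) ≤ η / 2 := by
    refine a4_core n k j (fun l => h (t + n * lam - l)) a ε (C / t ^ A)
      (c1 / Real.sqrt n) (η / 2) ha0 hε0.le (fun l => H.nonneg _) (fun l => H.le _) ?_ hkn hnk hjk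
      (by positivity) ?_ ?_ ?_
    · intro l hl
      rw [Finset.mem_Icc] at hl
      have hl2 : (l : ℝ) ≤ 2 * n + k := by exact_mod_cast hl.2
      refine hup _ ?_
      have h60 : (n : ℝ) * lam = n * 2 - n * (2 - lam) := by ring
      rw [h60]
      linarith
    · intro l hl
      rw [Finset.mem_Icc] at hl
      have hl1 : (2 * n : ℝ) ≤ l := by exact_mod_cast hl.1
      have hl2 : (l : ℝ) ≤ 2 * n + j := by exact_mod_cast hl.2
      refine hlow n l hn1' ?_
      rw [abs_le]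
      constructor <;> linarith
    · linarith [hstep.2]
    · have h50 : κ / 2 ≤ ((j : ℝ) + 1) * (c1 / Real.sqrt n) * (η / 2) := by
        have h51 : δ * Real.sqrt n * (c1 / Real.sqrt n) * (η / 2) = κ / 2 := by
          rw [hκ]; field_simp
        rw [← h51]
        have h52 : 0 ≤ c1 / Real.sqrt n * (η / 2) := by positivity
        have h53 := mul_le_mul_of_nonneg_right hj2.le h52
        calc δ * Real.sqrt n * (c1 / Real.sqrt n) * (η / 2)
            = δ * Real.sqrt n * (c1 / Real.sqrt n * (η / 2)) := by ring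
          _ ≤ ((j : ℝ) + 1) * (c1 / Real.sqrt n * (η / 2)) := h53
          _ = ((j : ℝ) + 1) * (c1 / Real.sqrt n) * (η / 2) := by ring
      linarith
  obtain ⟨l, hl, hlv⟩ := hcore
  rw [Finset.mem_Icc] at hl
  have hl1 : (2 * n : ℝ) ≤ l := by exact_mod_cast hl.1
  have hl2 : (l : ℝ) ≤ 2 * n + j := by exact_mod_cast hl.2
  have hs0 : t / 2 ≤ s := by linarith
  have hsqs : Real.sqrt (t / 2) ≤ Real.sqrt s := Real.sqrt_le_sqrt hs0
  have hc2s : 2 ≤ c2 * Real.sqrt s := by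
    have h20 := e3.trans hsqs
    rw [div_le_iff₀ hc2] at h20
    linarith
  have hsn4 : Real.sqrt n ≤ Real.sqrt s / 4 := by
    have : Real.sqrt n ≤ Real.sqrt (s / 16) := Real.sqrt_le_sqrt (by linarith)
    have h16 : Real.sqrt (s / 16) = Real.sqrt s / 4 := by
      rw [Real.sqrt_div' _ (by norm_num)]
      congr 1
      rw [show (16 : ℝ) = 4 ^ 2 by norm_num]
      exact Real.sqrt_sq (by norm_num)
    linarith
  have hdist : |(t + n * lam - l) - s| ≤ c2 * Real.sqrt s := by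
    have h30 : (j : ℝ) ≤ c2 * Real.sqrt s / 4 := by
      calc (j : ℝ) ≤ δ * Real.sqrt n := hj1
        _ ≤ c2 * Real.sqrt n := mul_le_mul_of_nonneg_right hδc hsn0
        _ ≤ c2 * (Real.sqrt s / 4) := mul_le_mul_of_nonneg_left hsn4 hc2.le
        _ = c2 * Real.sqrt s / 4 := by ring
    have h60 : (n : ℝ) * lam = n * 2 - n * (2 - lam) := by ring
    have h61 : ((n : ℝ) + 1) * (2 - lam) = n * (2 - lam) + (2 - lam) := by ring
    rw [h61] at hn2
    rw [abs_le, h60]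
    constructor <;> linarith
  have h40 := hslow s (by linarith) (t + n * lam - l) hdist
  rw [abs_le] at h40
  have h41 : a + ε - h (t + n * lam - l) ≤ η / 2 := hlv
  linarith [h40.1, h40.2]

end Pool.Agent.Lib.MP_d0d59f_nt.ND

end

section

/-! Row nd-A6 (about 80 lines): convergence. -/

namespace Pool.Agent.Lib.MP_d0d59f_nt.ND

open Finset AA Filter Topology

/-- PROOF: `a = limsup h`, which is in `[0, 5]`. Let `η > 0`, `ε`, `T2` from `harnack`, `C'`, `T3` from `propagate`. There is `T` with `h s ≤ a + ε` for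
all `s ≥ T`, and there are arbitrarily large `t` with `h t ≥ a - ε` (`frequently_lt_of_lt_limsup`). For such a `t ≥ 2T, T2, T3, ..`:
`h ≥ a - η` on `[.985t, .998t]`, hence `h s ≥ a - η - C'/t^A ≥ a - 2η` for all `s ≥ .985 t`. So `h` is eventually in `[a - 2η, a + ε]`, `ε ≤ η`. -/
theorem converge {h : ℝ → ℝ} {A : ℕ} {C T0 : ℝ} (H : Avg h A C T0) (hA : 1 ≤ A) :
    ∃ α : ℝ, 0 ≤ α ∧ Tendsto h atTop (𝓝 α) := by
  have hb1 : IsBoundedUnder (· ≤ ·) atTop h := isBoundedUnder_of ⟨5, fun t => H.le t⟩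
  have hb2 : IsBoundedUnder (· ≥ ·) atTop h := isBoundedUnder_of ⟨0, fun t => H.nonneg t⟩
  have hc1 : IsCoboundedUnder (· ≤ ·) atTop h := hb2.isCoboundedUnder_le
  set α : ℝ := limsup h atTop with hα
  have hα0 : 0 ≤ α :=
    le_limsup_of_frequently_le (Eventually.of_forall fun t => H.nonneg t).frequently hb1
  have hα5 : α ≤ 5 := limsup_le_of_le hc1 (Eventually.of_forall fun t => H.le t)
  refine ⟨α, hα0, ?_⟩
  rw [Metric.tendsto_atTop]
  intro e he
  obtain ⟨ε, hε0, hεη, T2, hT2, harn⟩ := harnack H hA (e / 3) (by positivity)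
  obtain ⟨C', hC', T3, hT3, hprop⟩ := propagate H hA
  have E1 : ∀ᶠ t : ℝ in atTop, C' / t < e / 3 := by
    have : Tendsto (fun t : ℝ => C' / t) atTop (𝓝 0) := tendsto_const_nhds.div_atTop tendsto_id
    exact this.eventually (gt_mem_nhds (show (0 : ℝ) < e / 3 by positivity))
  have E2 : ∀ᶠ t : ℝ in atTop, h t < α + ε :=
    eventually_lt_of_limsup_lt (by rw [← hα]; linarith) hb1
  have E3 : ∃ᶠ t : ℝ in atTop, α - ε < h t :=
    frequently_lt_of_lt_limsup hc1 (by rw [← hα]; linarith)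
  obtain ⟨T, hT⟩ := eventually_atTop.1 E2
  obtain ⟨t, ht, hte⟩ := (E3.and_eventually (((E1.and (eventually_ge_atTop (2 * T))).and
    (eventually_ge_atTop T2)).and (eventually_ge_atTop T3))).exists
  obtain ⟨⟨⟨e1, e2⟩, e3⟩, e4⟩ := hte
  have hT0 := H.T0_ge
  have ht0 : 1 ≤ t := by linarith
  have h1 := harn t e3 α hα0 (by linarith) (fun s hs => (hT s (by linarith)).le) ht.le
  have h2 := hprop t e4 (α - e / 3) h1
  have h3 : C' / t ^ A ≤ C' / t := by
    refine div_le_div_of_nonneg_left hC' (by linarith) ?_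
    calc t = t ^ 1 := (pow_one t).symm
      _ ≤ t ^ A := pow_le_pow_right₀ ht0 hA
  refine ⟨max T (0.985 * t), fun s hs => ?_⟩
  have h4 := h2 s ((le_max_right _ _).trans hs)
  have h5 := hT s ((le_max_left _ _).trans hs)
  rw [Real.dist_eq, abs_lt]
  constructor <;> linarith

end Pool.Agent.Lib.MP_d0d59f_nt.ND

end
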