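import Mathlib
import Pool.Agent.Lib.MP_d0d59f_nt.NK.K028

namespace Pool.Agent.Lib.MP_d0d59f_nt.AA
end Pool.Agent.Lib.MP_d0d59f_nt.AA

/-! Row nd-A7 (about 150 lines): the gap. -/

namespace Pool.Agent.Lib.MP_d0d59f_nt.ND

open Finset AA Filter Topology

private theorem summable_nb_mul {h : ℝ → ℝ} {A : ℕ} {C T0 : ℝ} (H : Avg h A C T0) (n : ℕ) (x : ℝ) :
    Summable (fun l : ℕ => nb n l * h (x - l)) := by
  refine Summable.of_nonneg_of_le (fun l => mul_nonneg (nb_nonneg n l) (H.nonneg _))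
    (fun l => mul_le_mul_of_nonneg_left (H.le _) (nb_nonneg n l)) ?_
  exact (hasSum_nb n).summable.mul_right 5

/-- PROOF. Let `t` be large and `s ∈ [1.003t, 1.0165t]`. Take `n = ⌊(s - t)/(2 - λ)⌋₊` (between `.0071 t` and `.0398 t`; `k = ⌊s/250⌋₊` is between
`.004 t` and `.00407 t`, so `k ≤ n ≤ 10 k` for `t` large), so `s + nλ - 2n ∈ [t, t + 1]`. Let `l0` be the natural number with
`s + nλ - l0 ≤ t < s + nλ - l0 + 1`; `|l0 - 2n| ≤ 2`, so `nb n l0`, `nb n (l0 - 1) ≥ c/√n` (`nb_low`; `3 ≤ √n/3`). By `Avg.tile` with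
`x = s + nλ - l0`: `h t ≤ h x + 2 h (x+1)`, `x + 1 = s + nλ - (l0 - 1)`. So the series of `Avg.step` at `s` is at least
`(c/√n)(h x + h (x+1)) ≥ (c/(2 √n)) h t`, and `h s ≥ (c/(2√n)) h t - C/s^A`, with `√n ≤ √t`. -/
theorem spread {h : ℝ → ℝ} {A : ℕ} {C T0 : ℝ} (H : Avg h A C T0) : ∃ c : ℝ, 0 < c ∧ ∃ T5 : ℝ, T0 ≤ T5 ∧
    ∀ t, T5 ≤ t → ∀ s, 1.003 * t ≤ s → s ≤ 1.0165 * t → c / Real.sqrt t * h t - C / s ^ A ≤ h s := by
  obtain ⟨c, hc, hlow⟩ := nb_low
  refine ⟨c / 2, by positivity, max T0 100000, le_max_left _ _, ?_⟩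
  intro t ht s hs1 hs2
  have hT0 : T0 ≤ t := (le_max_left _ _).trans ht
  have ht5 : (100000 : ℝ) ≤ t := (le_max_right _ _).trans ht
  obtain ⟨hl1, hl2⟩ := lam_bounds
  have hpos : 0 < 2 - lam := by linarith
  set q : ℝ := (s - t) / (2 - lam) with hq
  have hq1 : 0.00714 * t ≤ q := by
    rw [hq, le_div_iff₀ hpos]
    nlinarith
  have hq2 : q ≤ 0.0398 * t := by
    rw [hq, div_le_iff₀ hpos]
    nlinarith
  set n : ℕ := ⌊q⌋₊ with hn
  have hq0 : 0 ≤ q := by linarith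
  have hn1 : (n : ℝ) ≤ q := Nat.floor_le hq0
  have hn2 : q < n + 1 := Nat.lt_floor_add_one q
  have hs0 : 0 ≤ s / 250 := by linarith
  have hk1 : ((⌊s / 250⌋₊ : ℕ) : ℝ) ≤ s / 250 := Nat.floor_le hs0
  have hk2 : s / 250 < (⌊s / 250⌋₊ : ℕ) + 1 := Nat.lt_floor_add_one _
  have hkn : ⌊s / 250⌋₊ ≤ n := by
    have : ((⌊s / 250⌋₊ : ℕ) : ℝ) ≤ n := by linarith
    exact_mod_cast this
  have hnk : n ≤ 10 * ⌊s / 250⌋₊ := by
    have : (n : ℝ) ≤ 10 * (⌊s / 250⌋₊ : ℕ) := by linarith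
    exact_mod_cast this
  have hstep := H.step s (by linarith) n hkn hnk
  have hn10 : (100 : ℝ) ≤ n := by linarith
  have hn1' : 1 ≤ n := by
    have : (1 : ℝ) ≤ n := by linarith
    exact_mod_cast this
  -- the number l0
  have hqm : q * (2 - lam) = s - t := by
    rw [hq]
    exact div_mul_cancel₀ _ hpos.ne'
  have hz1 : (2 * n : ℝ) ≤ s + n * lam - t := by nlinarith
  have hz2 : s + n * lam - t ≤ 2 * n + 0.42 := by nlinarith
  set l0 : ℕ := ⌈s + n * lam - t⌉₊ with hl0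
  have hl0a : s + n * lam - t ≤ l0 := Nat.le_ceil _
  have hl0b : (l0 : ℝ) < s + n * lam - t + 1 := Nat.ceil_lt_add_one (by linarith)
  have hl0c : 1 ≤ l0 := by
    have : (1 : ℝ) ≤ l0 := by linarith
    exact_mod_cast this
  obtain ⟨l1, hl1'⟩ : ∃ l1, l0 = l1 + 1 := ⟨l0 - 1, by omega⟩
  have hl1c : (l0 : ℝ) = l1 + 1 := by exact_mod_cast hl1'
  have hsq : (10 : ℝ) ≤ Real.sqrt n := by
    rw [show (10 : ℝ) = Real.sqrt 100 by rw [show (100 : ℝ) = 10 ^ 2 by norm_num, Real.sqrt_sq (by norm_num)]]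
    exact Real.sqrt_le_sqrt hn10
  have hb0 : c / Real.sqrt n ≤ nb n l0 := by
    refine hlow n l0 hn1' ?_
    rw [abs_le]
    constructor <;> linarith
  have hb1 : c / Real.sqrt n ≤ nb n l1 := by
    refine hlow n l1 hn1' ?_
    rw [abs_le]
    constructor <;> linarith
  -- the series
  have hsum := (summable_nb_mul H n (s + n * lam)).sum_le_tsum {l1, l0}
    (fun l _ => mul_nonneg (nb_nonneg n l) (H.nonneg _))
  rw [Finset.sum_pair (by omega)] at hsum
  have htile := H.tile (s + n * lam - l0) t (by linarith) (by linarith)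
  have he : s + n * lam - (l0 : ℝ) + 1 = s + n * lam - l1 := by rw [hl1c]; ring
  rw [he] at htile
  have hp0 := H.nonneg (s + n * lam - l0)
  have hp1 := H.nonneg (s + n * lam - l1)
  have hcn : 0 < c / Real.sqrt n := by
    have : 0 < Real.sqrt n := by linarith
    positivity
  have h1 : c / Real.sqrt n * (h t / 2) ≤ ∑' l : ℕ, nb n l * h (s + n * lam - l) := by
    refine le_trans ?_ hsum
    have a1 := mul_le_mul_of_nonneg_right hb0 hp0
    have a2 := mul_le_mul_of_nonneg_right hb1 hp1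
    have a3 : h t / 2 ≤ h (s + n * lam - l1) + h (s + n * lam - l0) := by linarith
    have a4 := mul_le_mul_of_nonneg_left a3 hcn.le
    linarith
  have hst : Real.sqrt n ≤ Real.sqrt t := Real.sqrt_le_sqrt (by linarith)
  have h2 : c / 2 / Real.sqrt t * h t ≤ c / Real.sqrt n * (h t / 2) := by
    have hht := H.nonneg t
    have : c / Real.sqrt t ≤ c / Real.sqrt n :=
      div_le_div_of_nonneg_left hc.le (by linarith) hst
    calc c / 2 / Real.sqrt t * h t = c / Real.sqrt t * (h t / 2) := by ring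
      _ ≤ c / Real.sqrt n * (h t / 2) := mul_le_mul_of_nonneg_right this (by linarith)
  have h3 := (abs_le.1 hstep).1
  linarith

/-- PROOF: `spread` and `propagate` with `t' = 1.0184 t` (`.985 t' ≥ 1.003 t`, `.998 t' ≤ 1.0165 t`): if `h t ≥ K/t^(A-1)` then on
`[1.003t, 1.0165t]`: `h ≥ c K/t^(A-1+1/2) - C/t^A =: β`, and `h ≥ β - C'/t'^A ≥ (c K √t - C - C')/t^A > 0` from `.985 t'` on, for `K = 1` and `t` large
(or `K` large). -/
theorem gap {h : ℝ → ℝ} {A : ℕ} {C T0 : ℝ} (H : Avg h A C T0) (hA : 1 ≤ A) : ∃ T6 : ℝ, T0 ≤ T6 ∧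
    ∀ t, T6 ≤ t → 1 / t ^ (A - 1) ≤ h t → ∃ β : ℝ, 0 < β ∧ ∀ s, 2 * t ≤ s → β ≤ h s := by
  obtain ⟨c, hc, T5, hT5, hspread⟩ := spread H
  obtain ⟨C', hC', T3, hT3, hprop⟩ := propagate H hA
  set M : ℝ := ((C + C' + 1) / c) ^ 2 with hM
  refine ⟨max (max T5 T3) (max M 1000), hT5.trans ((le_max_left _ _).trans (le_max_left _ _)), ?_⟩
  intro t ht hht
  have h5 : T5 ≤ t := ((le_max_left _ _).trans (le_max_left _ _)).trans ht
  have h3 : T3 ≤ t := ((le_max_right _ _).trans (le_max_left _ _)).trans ht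
  have hMt : M ≤ t := ((le_max_left _ _).trans (le_max_right _ _)).trans ht
  have ht1 : (1000 : ℝ) ≤ t := ((le_max_right _ _).trans (le_max_right _ _)).trans ht
  have hC := H.C_nonneg
  have hsqrt : C + C' + 1 ≤ c * Real.sqrt t := by
    have h0 : (C + C' + 1) / c ≤ Real.sqrt t := by
      refine Real.le_sqrt_of_sq_le ?_
      rw [← hM]
      exact hMt
    rw [div_le_iff₀ hc] at h0
    linarith
  have htA : 0 < t ^ A := by positivity
  have hss : Real.sqrt t * Real.sqrt t = t := Real.mul_self_sqrt (by linarith)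
  have hs0 : 0 < Real.sqrt t := Real.sqrt_pos.2 (by linarith)
  have key : c / Real.sqrt t * (1 / t ^ (A - 1)) = c * Real.sqrt t / t ^ A := by
    have e : t ^ A = t ^ (A - 1) * (Real.sqrt t * Real.sqrt t) := by
      rw [hss, ← pow_succ]
      congr 1
      omega
    have hne : t ^ (A - 1) ≠ 0 := by positivity
    rw [e]
    field_simp
  refine ⟨1 / t ^ A, by positivity, fun s hs => ?_⟩
  have hcore : ∀ s, 0.985 * (1.0184 * t) ≤ s → s ≤ 0.998 * (1.0184 * t) →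
      (c * Real.sqrt t - C) / t ^ A ≤ h s := by
    intro s hs1 hs2
    have h1 := hspread t h5 s (by linarith) (by linarith)
    have h2 : c / Real.sqrt t * (1 / t ^ (A - 1)) ≤ c / Real.sqrt t * h t :=
      mul_le_mul_of_nonneg_left hht (by positivity)
    rw [key] at h2
    have h3' : C / s ^ A ≤ C / t ^ A := by
      refine div_le_div_of_nonneg_left hC htA ?_
      exact pow_le_pow_left₀ (by linarith) (by linarith) A
    rw [sub_div]
    linarith
  have h7 := hprop (1.0184 * t) (by linarith) _ hcore s (by linarith)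
  have h8 : C' / (1.0184 * t) ^ A ≤ C' / t ^ A := by
    refine div_le_div_of_nonneg_left hC' htA ?_
    exact pow_le_pow_left₀ (by linarith) (by linarith) A
  have h9 : 1 / t ^ A ≤ (c * Real.sqrt t - C) / t ^ A - C' / t ^ A := by
    rw [← sub_div]
    exact div_le_div_of_nonneg_right (by linarith) htA.le
  linarith

/-- If `h → 0` then `h t ≤ 1/t^(A-1)` for all large `t`. -/
theorem gap_zero {h : ℝ → ℝ} {A : ℕ} {C T0 : ℝ} (H : Avg h A C T0) (hA : 1 ≤ A)
    (h0 : Tendsto h atTop (𝓝 0)) : ∃ T6 : ℝ, ∀ t, T6 ≤ t → h t ≤ 1 / t ^ (A - 1) := by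
  obtain ⟨T6, _, hT6⟩ := gap H hA
  refine ⟨T6, fun t ht => ?_⟩
  by_contra hcon
  push Not at hcon
  obtain ⟨β, hβ, hs⟩ := hT6 t ht hcon.le
  have h1 : ∀ᶠ s in atTop, h s < β := h0.eventually_lt_const hβ
  obtain ⟨s, hs1, hs2⟩ := (h1.and (eventually_ge_atTop (2 * t))).exists
  exact absurd (hs s hs2) (not_le.2 hs1)

end Pool.Agent.Lib.MP_d0d59f_nt.ND
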