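import Mathlib
import Pool.Agent.Lib.MP_d0d59f_nt.NK.K027
import Pool.Agent.Lib.MP_d0d59f_nt.NK.K029
import Pool.Agent.Lib.MP_d0d59f_nt.NK.K030

namespace Pool.Agent.Lib.MP_d0d59f_nt.AA
end Pool.Agent.Lib.MP_d0d59f_nt.AA

/-! Row nd-F4 (about 60 lines): the main theorem on the positive side. -/

namespace Pool.Agent.Lib.MP_d0d59f_nt.ND

open Finset AA Filter Topology

/-- PROOF: `avg_of_inv` with exponent `1` and `converge` give `α`; `oc_tendsto`, `ac_tendsto`. If `α = 0`: for every `A` take `avg_of_inv` with exponent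
`A + 1`, `gap_zero`, `oc_small`, `ac_small`. `α ≤ 1` from `ac_le`. -/
theorem main_pos {d : ℤ} (hd : Odd d) (h3 : ¬ (3 : ℤ) ∣ d) {b : ℝ} {S : Set ℤ}
    (hS : Inv d b S) : ∃ α : ℝ, 0 ≤ α ∧ α ≤ 1 ∧
      Tendsto (fun Z : ℝ => (ac S Z : ℝ) / Z) atTop (𝓝 α) ∧
      (α = 0 → ∀ A : ℕ, ∃ C : ℝ, 0 ≤ C ∧ ∀ Z : ℝ, 2 ≤ Z → (ac S Z : ℝ) ≤ C * Z / (Real.log Z) ^ A) := by
  have hb0 : 0 ≤ max b 0 := le_max_right _ _
  have hS0 : Inv d (max b 0) S := hS.mono (le_max_left _ _)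
  obtain ⟨C, T0, H⟩ := avg_of_inv hd h3 hb0 hS0 1
  obtain ⟨α, hα, hlim⟩ := converge H le_rfl
  have hoc := oc_tendsto hlim
  have hac := ac_tendsto hb0 hS0 hoc
  refine ⟨α, hα, ?_, hac, ?_⟩
  · refine le_of_tendsto hac ?_
    filter_upwards [eventually_ge_atTop (1 : ℝ)] with Z hZ
    rw [div_le_one (by linarith)]
    exact ac_le S hZ
  · intro h0 A
    subst h0
    obtain ⟨C', T0', H'⟩ := avg_of_inv hd h3 hb0 hS0 (A + 1)
    obtain ⟨T6, h6⟩ := gap_zero H' (by omega) hlim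
    exact ac_small hb0 hS0 A (oc_small A (T6 := T6) h6)

end Pool.Agent.Lib.MP_d0d59f_nt.ND
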