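import Mathlib
import Pool.Agent.Lib.MP_d0d59f_nt.NK.K022
import Pool.Agent.Lib.MP_d0d59f_nt.NK.K024

namespace Pool.Agent.Lib.MP_d0d59f_nt.AA
end Pool.Agent.Lib.MP_d0d59f_nt.AA

section

/-! The count up to `X`, positive integers, with constants that do not depend on `d`. -/

namespace Pool.Agent.Lib.MP_d0d59f_nt.AA

open Finset

/-- The windows are `[|d| B 2^i, |d| B 2^(i+1))`; otherwise as `count_pos`. -/
theorem count_posU (A : ℕ) : ∃ C : ℝ, 0 ≤ C ∧
    ∃ B0 : ℝ, 2 ≤ B0 ∧ ∀ (d : ℤ), Odd d → ¬ (3 : ℤ) ∣ d → ∀ B X : ℝ, B0 ≤ B → |(d : ℝ)| ≤ X →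
      (Set.ncard {x : ℤ | 0 < x ∧ (x : ℝ) ≤ X ∧ ∀ k : ℕ, (k : ℝ) ≤ 20 * Real.log (X / |(d : ℝ)|) →
        |(d : ℝ)| * B < |(((T d)^[k] x : ℤ) : ℝ)|} : ℝ) ≤
      C * X / (Real.logb 2 B) ^ A := by
  obtain ⟨C, hC, B0, hB0, hdens⟩ := dens_allU A
  refine ⟨2 * C, by positivity, B0, hB0, ?_⟩
  intro d hd h3 B X hB hX
  have hB2 : 2 ≤ B := hB0.trans hB
  have hD := u2_abs hd
  obtain ⟨D, hDdef⟩ : ∃ D : ℝ, D = |(d : ℝ)| := ⟨_, rfl⟩
  rw [← hDdef] at hD hX ⊢
  have hD0 : 0 < D := by linarith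
  have hX1 : 1 ≤ X := hD.trans hX
  have hq1 : 1 ≤ X / D := by rwa [one_le_div hD0]
  obtain ⟨G, hG⟩ : ∃ G : ℝ, G = D * B := ⟨_, rfl⟩
  rw [← hG]
  have hBG : B ≤ G := by rw [hG]; nlinarith
  have hGpos : 0 < G := by linarith
  obtain ⟨t, ht⟩ : ∃ t, t = ⌊20 * Real.log (X / D)⌋₊ := ⟨_, rfl⟩
  set β : ℝ := C / (Real.logb 2 B) ^ A with hβ
  have hlB : 0 < Real.logb 2 B := Real.logb_pos (by norm_num) (by linarith)
  have hβ0 : 0 ≤ β := by positivity
  obtain ⟨M, hM⟩ : ∃ M : ℕ, X < 2 ^ M := pow_unbounded_of_one_lt X (by norm_num)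
  -- the pieces
  obtain ⟨W, hW⟩ : ∃ W : ℕ → ℕ → Set ℤ, W = fun v i =>
    {N : ℤ | N ∈ itv (G * 2 ^ i) (2 * (G * 2 ^ i)) ∧ Odd N ∧ N ≡ 0 [ZMOD 3 ^ 0] ∧
      bad d G (t - v) N} := ⟨_, rfl⟩
  have hWfin : ∀ v i, (W v i).Finite := by
    intro v i
    rw [hW]
    exact (itv (G * 2 ^ i) (2 * (G * 2 ^ i))).finite_toSet.subset (fun N hN => hN.1)
  obtain ⟨I, hI⟩ : ∃ I : ℕ → Finset ℕ, I = fun v =>
    (range M).filter (fun i => G * 2 ^ i ≤ X / 2 ^ v) := ⟨_, rfl⟩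
  have hsub : {x : ℤ | 0 < x ∧ (x : ℝ) ≤ X ∧
        ∀ k : ℕ, (k : ℝ) ≤ 20 * Real.log (X / D) → G < |(((T d)^[k] x : ℤ) : ℝ)|} ⊆
      ⋃ v ∈ range (t + 1), (fun N : ℤ => 2 ^ v * N) '' (⋃ i ∈ I v, W v i) := by
    rintro x ⟨hx0, hxX, hxb⟩
    have hlogX : 0 ≤ Real.log (X / D) := Real.log_nonneg hq1
    have hbad : bad d G t x := by
      intro k hk
      refine hxb k ?_
      have h1 : (k : ℝ) ≤ (t : ℝ) := by exact_mod_cast hk
      refine h1.trans ?_
      rw [ht]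
      exact Nat.floor_le (by positivity)
    obtain ⟨v, N, hNodd, hxN⟩ : ∃ (v : ℕ) (N : ℤ), Odd N ∧ x = 2 ^ v * N := by
      obtain ⟨k, m, hm, hkm⟩ := Nat.exists_eq_two_pow_mul_odd (n := x.toNat) (by omega)
      refine ⟨k, m, by exact_mod_cast hm, ?_⟩
      have : x = ((x.toNat : ℕ) : ℤ) := by omega
      rw [this, hkm]
      push_cast
      ring
    have hN0 : 0 < N := by
      by_contra hcon
      push Not at hcon
      have : 2 ^ v * N ≤ 0 := mul_nonpos_of_nonneg_of_nonpos (by positivity) hcon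
      omega
    have h2v : (0 : ℝ) < 2 ^ v := by positivity
    have hxr : (x : ℝ) = 2 ^ v * (N : ℝ) := by
      rw [hxN]; push_cast; ring
    have hNX : (N : ℝ) ≤ X / 2 ^ v := by
      rw [le_div_iff₀ h2v, mul_comm, ← hxr]
      exact hxX
    have hN1 : (1 : ℝ) ≤ N := by exact_mod_cast hN0
    have hxB : G < x := by
      have := hbad 0 (Nat.zero_le _)
      simp only [Function.iterate_zero, id] at this
      rwa [abs_of_pos (by exact_mod_cast hx0)] at this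
    have hvt : v ≤ t := by
      by_contra hcon
      push Not at hcon
      have h1 := hbad t le_rfl
      have h2 : x = 2 ^ t * (2 ^ (v - t) * N) := by
        rw [hxN, ← mul_assoc, ← pow_add, Nat.add_sub_cancel' hcon.le]
      rw [h2, b8_iter] at h1
      have h3 : (0 : ℝ) < ((2 ^ (v - t) * N : ℤ) : ℝ) := by
        exact_mod_cast mul_pos (by positivity) hN0
      rw [abs_of_pos h3] at h1
      have h4 : (x : ℝ) = 2 ^ t * ((2 ^ (v - t) * N : ℤ) : ℝ) := by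
        rw [h2]; push_cast; ring
      have h5 : (2 : ℝ) ^ t * G < X := by
        have : (2 : ℝ) ^ t * G < 2 ^ t * ((2 ^ (v - t) * N : ℤ) : ℝ) :=
          mul_lt_mul_of_pos_left h1 (by positivity)
        linarith
      have h6 : (2 : ℝ) ^ (t + 1) < X / D := by
        rw [lt_div_iff₀ hD0]
        have h7 : (2 : ℝ) ^ (t + 1) * D ≤ 2 ^ t * G := by
          rw [hG, pow_succ]
          have : (2 : ℝ) ^ t * D * 2 ≤ 2 ^ t * D * B :=
            mul_le_mul_of_nonneg_left hB2 (by positivity)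
          linarith
        linarith
      have h8 : ((t + 1 : ℕ) : ℝ) * Real.log 2 < Real.log (X / D) := by
        rw [← Real.log_pow]
        exact Real.log_lt_log (by positivity) h6
      have h9 : 20 * Real.log (X / D) < (t : ℝ) + 1 := by
        rw [ht]
        exact Nat.lt_floor_add_one _
      have h10 : 0.6931471803 < Real.log 2 := Real.log_two_gt_d9
      push_cast at h8
      nlinarith
    rw [hxN] at hbad
    have hbN := bad_odd_part G t v N hvt hbad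
    have hNB : G < N := by
      have := hbN 0 (Nat.zero_le _)
      simp only [Function.iterate_zero, id] at this
      rwa [abs_of_pos (by exact_mod_cast hN0)] at this
    -- the window
    obtain ⟨i, hi1, hi2⟩ : ∃ i : ℕ, G * 2 ^ i ≤ N ∧ (N : ℝ) < G * 2 ^ (i + 1) := by
      obtain ⟨n, hn1, hn2⟩ := exists_nat_pow_near (x := (N : ℝ) / G) (y := 2)
        (by rw [le_div_iff₀ hGpos]; linarith) (by norm_num)
      refine ⟨n, ?_, ?_⟩
      · rw [le_div_iff₀ hGpos] at hn1; linarith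
      · rw [div_lt_iff₀ hGpos] at hn2; linarith
    refine Set.mem_iUnion₂.2 ⟨v, Finset.mem_range.2 (by omega), N, ?_, hxN.symm⟩
    refine Set.mem_iUnion₂.2 ⟨i, ?_, ?_⟩
    · rw [hI]
      refine Finset.mem_filter.2 ⟨Finset.mem_range.2 ?_, hi1.trans hNX⟩
      by_contra hcon
      push Not at hcon
      have h1 : (2 : ℝ) ^ M ≤ 2 ^ i := pow_le_pow_right₀ (by norm_num) hcon
      have h2 : (2 : ℝ) ^ i ≤ G * 2 ^ i := by
        have : (0 : ℝ) < 2 ^ i := by positivity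
        nlinarith
      have h3 : X / 2 ^ v ≤ X := div_le_self (by linarith) (one_le_pow₀ (by norm_num))
      linarith
    · rw [hW]
      refine ⟨?_, hNodd, ?_, hbN⟩
      · unfold itv
        rw [Finset.mem_Ico]
        refine ⟨Int.ceil_le.2 hi1, Int.lt_ceil.2 ?_⟩
        rw [pow_succ] at hi2
        linarith
      · simp [Int.modEq_one]
  have hfin : (⋃ v ∈ range (t + 1), (fun N : ℤ => 2 ^ v * N) '' (⋃ i ∈ I v, W v i)).Finite := by
    refine Set.Finite.biUnion (Finset.finite_toSet _) fun v _ => Set.Finite.image _ ?_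
    exact Set.Finite.biUnion (Finset.finite_toSet _) fun i _ => hWfin v i
  have h1 := (Set.ncard_le_ncard hsub hfin).trans (b8_ncard_le_sum _ _)
  have h2 : ∀ v ∈ range (t + 1), (((fun N : ℤ => 2 ^ v * N) '' (⋃ i ∈ I v, W v i)).ncard : ℝ) ≤
      β * (X / 2 ^ v) := by
    intro v hv
    have hvt : v ≤ t := by
      have := Finset.mem_range.1 hv
      omega
    have g1 : ((fun N : ℤ => 2 ^ v * N) '' (⋃ i ∈ I v, W v i)).ncard ≤ ∑ i ∈ I v, (W v i).ncard :=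
      (Set.ncard_image_le (Set.Finite.biUnion (Finset.finite_toSet _) fun i _ => hWfin v i)).trans
        (b8_ncard_le_sum _ _)
    have g2 : ∀ i ∈ I v, ((W v i).ncard : ℝ) ≤ β / 2 * (G * 2 ^ i) := by
      intro i hi
      rw [hI] at hi
      have hi' := (Finset.mem_filter.1 hi).2
      have h2i : (1 : ℝ) ≤ 2 ^ i := one_le_pow₀ (by norm_num)
      have hi'' : B * 2 ^ i ≤ (X / D) / 2 ^ v := by
        rw [div_right_comm, le_div_iff₀ hD0]
        refine le_trans (le_of_eq ?_) hi'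
        rw [hG]
        ring
      have g3 := hdens d hd h3 B (B * 2 ^ i) hB (by nlinarith) 0 0 (t - v) (by simp) (by
        rw [ht]
        rw [ht] at hvt
        exact b8_time hB2 hi'' hvt)
      rw [← hDdef, ← mul_assoc, ← hG] at g3
      have g4 : (cnt d G (t - v) 0 0 (G * 2 ^ i) : ℝ) = ((W v i).ncard : ℝ) := by
        rw [hW]; rfl
      rw [g4] at g3
      refine g3.trans (le_of_eq ?_)
      rw [hβ]
      ring
    calc (((fun N : ℤ => 2 ^ v * N) '' (⋃ i ∈ I v, W v i)).ncard : ℝ)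
        ≤ ((∑ i ∈ I v, (W v i).ncard : ℕ) : ℝ) := by exact_mod_cast g1
      _ = ∑ i ∈ I v, ((W v i).ncard : ℝ) := by push_cast; rfl
      _ ≤ ∑ i ∈ I v, β / 2 * (G * 2 ^ i) := Finset.sum_le_sum g2
      _ = β / 2 * ∑ i ∈ I v, G * 2 ^ i := by rw [Finset.mul_sum]
      _ ≤ β / 2 * (2 * (X / 2 ^ v)) := by
          refine mul_le_mul_of_nonneg_left ?_ (by positivity)
          rw [hI]
          exact b8_geom hGpos (by positivity) M
      _ = β * (X / 2 ^ v) := by ring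
  calc _ ≤ ((∑ v ∈ range (t + 1), ((fun N : ℤ => 2 ^ v * N) '' (⋃ i ∈ I v, W v i)).ncard : ℕ) : ℝ) := by
        exact_mod_cast h1
    _ = ∑ v ∈ range (t + 1), (((fun N : ℤ => 2 ^ v * N) '' (⋃ i ∈ I v, W v i)).ncard : ℝ) := by
        push_cast; rfl
    _ ≤ ∑ v ∈ range (t + 1), β * (X / 2 ^ v) := Finset.sum_le_sum h2
    _ = β * ∑ v ∈ range (t + 1), X / 2 ^ v := by rw [Finset.mul_sum]
    _ ≤ β * (2 * X) := mul_le_mul_of_nonneg_left (b8_half X (by linarith) _) hβ0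
    _ = 2 * C * X / (Real.logb 2 B) ^ A := by rw [hβ]; ring

end Pool.Agent.Lib.MP_d0d59f_nt.AA

end

section

/-! The final theorem, with constants that do not depend on `d`. -/

namespace Pool.Agent.Lib.MP_d0d59f_nt.AA

open Finset

/-- `count_posU` for `d` (positive `x`) and for `-d` (negative `x`). -/
theorem almost_allU (A : ℕ) : ∃ C : ℝ, 0 ≤ C ∧ ∀ (d : ℤ), Odd d → ¬ (3 : ℤ) ∣ d →
    ∀ B X : ℝ, 2 ≤ B → |(d : ℝ)| ≤ X →
      (Set.ncard {x : ℤ | |(x : ℝ)| ≤ X ∧ ∀ k : ℕ, (k : ℝ) ≤ 20 * Real.log (X / |(d : ℝ)|) →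
        |(d : ℝ)| * B < |(((T d)^[k] x : ℤ) : ℝ)|} : ℝ) ≤
      C * X / (Real.log B) ^ A := by
  obtain ⟨C1, hC1, B0, hB02, H1⟩ := count_posU A
  have hlogB0 : 0 ≤ Real.log B0 := Real.log_nonneg (by linarith)
  refine ⟨2 * C1 + 3 * Real.log B0 ^ A, by positivity, ?_⟩
  intro d hd h3 B X hB hX
  have hD := u2_abs hd
  have hX1 : 1 ≤ X := hD.trans hX
  have hlogB : 0 < Real.log B := Real.log_pos (by linarith)
  have hpow : 0 < Real.log B ^ A := by positivity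
  set S : Set ℤ := {x : ℤ | |(x : ℝ)| ≤ X ∧
        ∀ k : ℕ, (k : ℝ) ≤ 20 * Real.log (X / |(d : ℝ)|) →
        |(d : ℝ)| * B < |(((T d)^[k] x : ℤ) : ℝ)|} with hS
  have hX0 : 0 ≤ X := by linarith
  by_cases hBB : B0 ≤ B
  · set S1 : Set ℤ := {x : ℤ | 0 < x ∧ (x : ℝ) ≤ X ∧
        ∀ k : ℕ, (k : ℝ) ≤ 20 * Real.log (X / |(d : ℝ)|) →
        |(d : ℝ)| * B < |(((T d)^[k] x : ℤ) : ℝ)|} with hS1
    set S2 : Set ℤ := {x : ℤ | 0 < x ∧ (x : ℝ) ≤ X ∧
        ∀ k : ℕ, (k : ℝ) ≤ 20 * Real.log (X / |(d : ℝ)|) →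
        |(d : ℝ)| * B < |(((T (-d))^[k] x : ℤ) : ℝ)|} with hS2
    have hf1 : S1.Finite := by
      refine (b9_finite X).subset ?_
      rintro x ⟨hx1, hx2, -⟩
      have : (0 : ℝ) < x := by exact_mod_cast hx1
      simp only [Set.mem_setOf_eq]
      rw [abs_of_pos this]; exact hx2
    have hf2 : S2.Finite := by
      refine (b9_finite X).subset ?_
      rintro x ⟨hx1, hx2, -⟩
      have : (0 : ℝ) < x := by exact_mod_cast hx1
      simp only [Set.mem_setOf_eq]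
      rw [abs_of_pos this]; exact hx2
    have hsub : S ⊆ S1 ∪ (Neg.neg '' S2) := by
      rintro x ⟨hx1, hx2⟩
      have h0 := hx2 0 (by
        have : 0 ≤ Real.log (X / |(d : ℝ)|) :=
          Real.log_nonneg (by rwa [one_le_div (by linarith)])
        push_cast; positivity)
      simp only [Function.iterate_zero, id_eq] at h0
      rcases lt_trichotomy x 0 with h | h | h
      · right
        refine ⟨-x, ⟨by omega, ?_, ?_⟩, by simp⟩
        · push_cast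
          have : (x : ℝ) < 0 := by exact_mod_cast h
          rw [abs_of_neg this] at hx1
          exact hx1
        · intro k hk
          rw [T_neg_iterate hd]
          push_cast
          rw [abs_neg]
          exact hx2 k hk
      · exfalso
        rw [h] at h0
        simp at h0
        nlinarith
      · left
        refine ⟨h, ?_, hx2⟩
        have : (0 : ℝ) < x := by exact_mod_cast h
        rw [abs_of_pos this] at hx1
        exact hx1
    have hc : S.ncard ≤ S1.ncard + S2.ncard := by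
      calc S.ncard ≤ (S1 ∪ (Neg.neg '' S2)).ncard :=
            Set.ncard_le_ncard hsub (hf1.union (hf2.image _))
        _ ≤ S1.ncard + (Neg.neg '' S2).ncard := Set.ncard_union_le _ _
        _ ≤ S1.ncard + S2.ncard := Nat.add_le_add_left (Set.ncard_image_le hf2) _
    have e1 := H1 d hd h3 B X hBB hX
    have e2 := H1 (-d) hd.neg (by rwa [dvd_neg]) B X hBB (by
      push_cast
      rwa [abs_neg])
    have hneg : |((-d : ℤ) : ℝ)| = |(d : ℝ)| := by
      push_cast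
      rw [abs_neg]
    rw [hneg] at e2
    have hlb : Real.log B ≤ Real.logb 2 B := by
      rw [Real.logb, le_div_iff₀ (Real.log_pos (by norm_num))]
      have : Real.log 2 ≤ 1 := by
        have := Real.log_two_lt_d9
        linarith
      nlinarith
    have hlb2 : Real.log B ^ A ≤ Real.logb 2 B ^ A := pow_le_pow_left₀ hlogB.le hlb A
    have f1 : C1 * X / Real.logb 2 B ^ A ≤ C1 * X / Real.log B ^ A :=
      div_le_div_of_nonneg_left (by positivity) hpow hlb2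
    have hcr : (S.ncard : ℝ) ≤ (S1.ncard : ℝ) + (S2.ncard : ℝ) := by exact_mod_cast hc
    have f3 : 0 ≤ 3 * Real.log B0 ^ A * X / Real.log B ^ A := by positivity
    have : (2 * C1 + 3 * Real.log B0 ^ A) * X / Real.log B ^ A =
        C1 * X / Real.log B ^ A + C1 * X / Real.log B ^ A + 3 * Real.log B0 ^ A * X / Real.log B ^ A := by
      ring
    rw [this]
    linarith
  · push Not at hBB
    have hle : (S.ncard : ℝ) ≤ 3 * X := b9_ncard_le X hX1 S (fun x hx => hx.1)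
    have hl : Real.log B ≤ Real.log B0 := Real.log_le_log (by linarith) hBB.le
    have hl2 : Real.log B ^ A ≤ Real.log B0 ^ A := pow_le_pow_left₀ hlogB.le hl A
    rw [le_div_iff₀ hpow]
    have g1 : (S.ncard : ℝ) * Real.log B ^ A ≤ 3 * X * Real.log B0 ^ A :=
      mul_le_mul hle hl2 hpow.le (by positivity)
    have g2 : 0 ≤ (2 * C1) * X := by positivity
    nlinarith

end Pool.Agent.Lib.MP_d0d59f_nt.AA

end

section

/-! Row nd-F5 (about 100 lines): tightness. -/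

namespace Pool.Agent.Lib.MP_d0d59f_nt.ND

open Finset AA Filter Topology

/-- `T (-d) (-x) = - T d x`. -/
theorem T_neg {d : ℤ} (hd : Odd d) (x : ℤ) : T (-d) (-x) = -T d x := by
  obtain ⟨k, rfl⟩ := hd
  unfold T
  split_ifs with h1 h2 h2 <;> omega

theorem Inv.neg {d : ℤ} (hd : Odd d) {b : ℝ} {S : Set ℤ} (h : Inv d b S) :
    Inv (-d) b {x | -x ∈ S} := by
  intro x hx
  have h1 : b < |((-x : ℤ) : ℝ)| := by
    rw [Int.cast_neg, abs_neg]; exact hx
  have h2 : T (-d) x = -T d (-x) := by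
    have := T_neg hd (-x)
    rwa [neg_neg] at this
  simp only [Set.mem_setOf_eq]
  rw [h2, neg_neg]
  exact h (-x) h1

/-- The set of the integers whose orbit meets the finite set `F` is invariant above `max |F|`. -/
theorem inv_pred (d : ℤ) (F : Finset ℤ) :
    ∃ b : ℝ, 0 ≤ b ∧ Inv d b {x | ∃ k : ℕ, (T d)^[k] x ∈ F} := by
  refine ⟨∑ y ∈ F, |(y : ℝ)|, Finset.sum_nonneg fun _ _ => abs_nonneg _, ?_⟩
  intro x hx
  simp only [Set.mem_setOf_eq]
  constructor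
  · rintro ⟨k, hk⟩
    rcases Nat.eq_zero_or_pos k with rfl | hk0
    · exfalso
      have hk' : x ∈ F := by simpa using hk
      have := Finset.single_le_sum (f := fun y : ℤ => |(y : ℝ)|) (fun _ _ => abs_nonneg _) hk'
      exact absurd hx (not_lt.mpr this)
    · obtain ⟨m, rfl⟩ : ∃ m, k = m + 1 := ⟨k - 1, by omega⟩
      exact ⟨m, by simpa [Function.iterate_succ_apply] using hk⟩
  · rintro ⟨k, hk⟩
    exact ⟨k + 1, by simpa [Function.iterate_succ_apply] using hk⟩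

/-- Common part of the two halves of `tight`. -/
theorem f5_count {d : ℤ} (hd : Odd d) (h3 : ¬ (3 : ℤ) ∣ d) {C : ℝ} (hC : 0 ≤ C)
    (H : ∀ B X : ℝ, 2 ≤ B → |(d : ℝ)| ≤ X →
      (Set.ncard {x : ℤ | |(x : ℝ)| ≤ X ∧ ∀ k : ℕ, (k : ℝ) ≤ 20 * Real.log (X / |(d : ℝ)|) →
        |(d : ℝ)| * B < |(((T d)^[k] x : ℤ) : ℝ)|} : ℝ) ≤ C * X / (Real.log B) ^ 1)
    {ε : ℝ} (hε : 0 < ε) {B : ℝ} (hB : 2 ≤ B) (hBC : C / Real.log B ≤ ε / 2)
    (e : ℤ → ℤ) (he : Function.Injective e) (hea : ∀ x, |((e x : ℤ) : ℝ)| = |(x : ℝ)|)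
    {Z : ℝ} (hZd : |(d : ℝ)| ≤ Z) (hZ1 : 1 ≤ Z) (hZε : 2 / ε ≤ Z) :
    1 - ε ≤ (ac {x | ∃ k : ℕ, (T d)^[k] (e x) ∈
      Finset.Icc (-⌈B * |(d : ℝ)|⌉) ⌈B * |(d : ℝ)|⌉} Z : ℝ) / Z := by
  set F : Finset ℤ := Finset.Icc (-⌈B * |(d : ℝ)|⌉) ⌈B * |(d : ℝ)|⌉ with hF
  have hZ0 : 0 < Z := by linarith
  set W : Set ℤ := {x : ℤ | |(x : ℝ)| ≤ Z ∧ ∀ k : ℕ, (k : ℝ) ≤ 20 * Real.log (Z / |(d : ℝ)|) →
        |(d : ℝ)| * B < |(((T d)^[k] x : ℤ) : ℝ)|} with hW
  have hWfin : W.Finite := by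
    refine (Set.finite_Icc (-⌈Z⌉) ⌈Z⌉).subset ?_
    rintro x ⟨hx, -⟩
    have h1 := abs_le.mp hx
    have h2 : Z ≤ (⌈Z⌉ : ℝ) := Int.le_ceil Z
    constructor
    · have : (-(⌈Z⌉ : ℝ)) ≤ x := by linarith
      exact_mod_cast this
    · have : (x : ℝ) ≤ ⌈Z⌉ := by linarith
      exact_mod_cast this
  have hWcard : (W.ncard : ℝ) ≤ ε / 2 * Z := by
    have h1 := H B Z hB hZd
    rw [pow_one] at h1
    calc (W.ncard : ℝ) ≤ C * Z / Real.log B := h1
      _ = C / Real.log B * Z := by ring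
      _ ≤ ε / 2 * Z := mul_le_mul_of_nonneg_right hBC hZ0.le
  set A : Set ℤ := {x : ℤ | 1 ≤ x ∧ (x : ℝ) < Z ∧ x ∈ {x | ∃ k : ℕ, (T d)^[k] (e x) ∈ F}} with hA
  have hAfin : A.Finite := by
    refine (Set.finite_Icc 1 ⌈Z⌉).subset ?_
    rintro x ⟨hx1, hx2, -⟩
    refine ⟨hx1, ?_⟩
    have h2 : Z ≤ (⌈Z⌉ : ℝ) := Int.le_ceil Z
    have : (x : ℝ) ≤ ⌈Z⌉ := by linarith
    exact_mod_cast this
  have hpre : (e ⁻¹' W).Finite := hWfin.preimage he.injOn
  have hpc : (e ⁻¹' W).ncard ≤ W.ncard := by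
    have := Set.ncard_image_of_injective (e ⁻¹' W) he
    rw [← this]
    exact Set.ncard_le_ncard (Set.image_preimage_subset _ _) hWfin
  have hsub : (↑(Finset.Ico (1 : ℤ) ⌈Z⌉) : Set ℤ) ⊆ A ∪ e ⁻¹' W := by
    intro x hx
    rw [Finset.coe_Ico, Set.mem_Ico] at hx
    obtain ⟨hx1, hx2⟩ := hx
    have hxZ : (x : ℝ) < Z := Int.lt_ceil.mp hx2
    by_cases hxe : ∃ k : ℕ, (T d)^[k] (e x) ∈ F
    · left
      exact ⟨hx1, hxZ, hxe⟩
    · right
      refine ⟨?_, ?_⟩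
      · rw [hea]
        have : (0 : ℝ) ≤ x := by exact_mod_cast (by omega : (0 : ℤ) ≤ x)
        rw [abs_of_nonneg this]
        exact hxZ.le
      · intro k _
        have h1 : (T d)^[k] (e x) ∉ F := fun h => hxe ⟨k, h⟩
        by_contra hcon
        rw [not_lt] at hcon
        apply h1
        rw [hF, Finset.mem_Icc]
        have h2 := abs_le.mp hcon
        have h3 : B * |(d : ℝ)| ≤ (⌈B * |(d : ℝ)|⌉ : ℝ) := Int.le_ceil _
        have h4 : |(d : ℝ)| * B = B * |(d : ℝ)| := mul_comm _ _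
        rw [h4] at h2
        constructor
        · have : (-(⌈B * |(d : ℝ)|⌉ : ℝ)) ≤ (((T d)^[k] (e x) : ℤ) : ℝ) := by linarith [h2.1]
          exact_mod_cast this
        · have : (((T d)^[k] (e x) : ℤ) : ℝ) ≤ (⌈B * |(d : ℝ)|⌉ : ℝ) := by linarith [h2.2]
          exact_mod_cast this
  have hcard : ((Finset.Ico (1 : ℤ) ⌈Z⌉).card : ℝ) ≤ A.ncard + W.ncard := by
    have h1 := Set.ncard_le_ncard hsub (hAfin.union hpre)
    rw [Set.ncard_coe_finset] at h1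
    have h2 := Set.ncard_union_le A (e ⁻¹' W)
    have h3 : (Finset.Ico (1 : ℤ) ⌈Z⌉).card ≤ A.ncard + W.ncard := by omega
    exact_mod_cast h3
  have hico : Z - 1 ≤ ((Finset.Ico (1 : ℤ) ⌈Z⌉).card : ℝ) := by
    rw [Int.card_Ico]
    have h1 : Z ≤ (⌈Z⌉ : ℝ) := Int.le_ceil Z
    have h2 : (⌈Z⌉ - 1 : ℤ) ≤ ((⌈Z⌉ - 1).toNat : ℤ) := Int.self_le_toNat _
    have h3 : ((⌈Z⌉ - 1 : ℤ) : ℝ) ≤ (((⌈Z⌉ - 1).toNat : ℤ) : ℝ) := by exact_mod_cast h2
    rw [Int.cast_natCast] at h3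
    push_cast at h3
    linarith
  have hacA : (ac {x | ∃ k : ℕ, (T d)^[k] (e x) ∈ F} Z : ℝ) = A.ncard := rfl
  rw [hacA, le_div_iff₀ hZ0]
  have h1 : 1 ≤ ε / 2 * Z := by
    have := mul_le_mul_of_nonneg_left hZε (by positivity : (0 : ℝ) ≤ ε / 2)
    have h2 : ε / 2 * (2 / ε) = 1 := by field_simp
    linarith
  nlinarith

/-- PROOF: `AA.almost_allU 1`: choose `B` with `C/log B ≤ ε/2`, `F = Icc (-⌈B|d|⌉) ⌈B|d|⌉`: the number of `x` with `|x| ≤ Z` whose orbit avoids `F` is at most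
`ε Z/2` for `Z ≥ |d|`. So `ac {x | orbit meets F} Z ≥ (number of integers in [1, Z)) - ε Z/2 ≥ Z - 1 - ε Z/2`, and
the limit `α` of `ac/Z` satisfies `α ≥ 1 - ε`; the same for the negative side (`x ↦ -x`). -/
theorem tight {d : ℤ} (hd : Odd d) (h3 : ¬ (3 : ℤ) ∣ d) (ε : ℝ) (hε : 0 < ε) : ∃ F : Finset ℤ,
    (∀ᶠ Z : ℝ in atTop, 1 - ε ≤ (ac {x | ∃ k : ℕ, (T d)^[k] x ∈ F} Z : ℝ) / Z) ∧
    (∀ᶠ Z : ℝ in atTop, 1 - ε ≤ (ac {x | ∃ k : ℕ, (T d)^[k] (-x) ∈ F} Z : ℝ) / Z) := by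
  obtain ⟨C, hC, H⟩ := almost_allU 1
  have H' := H d hd h3
  set B : ℝ := Real.exp (2 * C / ε + 1) with hB
  have hlog : Real.log B = 2 * C / ε + 1 := Real.log_exp _
  have hB2 : 2 ≤ B := by
    have h1 : (1 : ℝ) ≤ 2 * C / ε + 1 := by
      have : 0 ≤ 2 * C / ε := by positivity
      linarith
    have h2 := Real.add_one_le_exp (2 * C / ε + 1)
    rw [← hB] at h2
    linarith
  have hBC : C / Real.log B ≤ ε / 2 := by
    rw [hlog, div_le_iff₀ (by positivity)]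
    have : ε / 2 * (2 * C / ε + 1) = C + ε / 2 := by field_simp
    rw [this]
    linarith
  refine ⟨Finset.Icc (-⌈B * |(d : ℝ)|⌉) ⌈B * |(d : ℝ)|⌉, ?_, ?_⟩
  · filter_upwards [eventually_ge_atTop |(d : ℝ)|, eventually_ge_atTop (1 : ℝ),
      eventually_ge_atTop (2 / ε)] with Z h1 h2 h4
    exact f5_count hd h3 hC H' hε hB2 hBC (fun x => x) (fun _ _ h => h) (fun _ => rfl) h1 h2 h4
  · filter_upwards [eventually_ge_atTop |(d : ℝ)|, eventually_ge_atTop (1 : ℝ),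
      eventually_ge_atTop (2 / ε)] with Z h1 h2 h4
    exact f5_count hd h3 hC H' hε hB2 hBC (fun x => -x) neg_injective
      (fun x => by push_cast; exact abs_neg _) h1 h2 h4

end Pool.Agent.Lib.MP_d0d59f_nt.ND

end
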