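import Mathlib
import Pool.Agent.Lib.MP_d0d59f_nt.NK.K034

section

/-! Row pd-P03b. -/

namespace Pool.Agent.Lib.MP_d0d59f_nt.PD

open Finset

theorem EE_mono {n : ℕ} {f g : List ℕ → ℤ → ℝ} (h : ∀ α ∈ Rn n, ∀ z, f α z ≤ g α z) (x : ℤ) :
    EE n f x ≤ EE n g x := by
  unfold EE
  refine Finset.sum_le_sum fun α hα => ?_
  split_ifs with hv
  · exact mul_le_mul_of_nonneg_left (h α hα _) (wt_pos α).le
  · exact le_rfl

theorem EE_nonneg {n : ℕ} {f : List ℕ → ℤ → ℝ} (h : ∀ α ∈ Rn n, ∀ z, 0 ≤ f α z) (x : ℤ) :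
    0 ≤ EE n f x := by
  unfold EE
  refine Finset.sum_nonneg fun α hα => ?_
  split_ifs with hv
  · exact mul_nonneg (wt_pos α).le (h α hα _)
  · exact le_rfl

theorem EE_add (n : ℕ) (f g : List ℕ → ℤ → ℝ) (x : ℤ) :
    EE n (fun α z => f α z + g α z) x = EE n f x + EE n g x := by
  unfold EE
  rw [← Finset.sum_add_distrib]
  refine Finset.sum_congr rfl fun α _ => ?_
  split_ifs with hv
  · exact mul_add _ _ _
  · exact (add_zero 0).symm

theorem EE_sub (n : ℕ) (f g : List ℕ → ℤ → ℝ) (x : ℤ) :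
    EE n (fun α z => f α z - g α z) x = EE n f x - EE n g x := by
  unfold EE
  rw [← Finset.sum_sub_distrib]
  refine Finset.sum_congr rfl fun α _ => ?_
  split_ifs with hv
  · exact mul_sub _ _ _
  · exact (sub_zero 0).symm

theorem EE_smul (n : ℕ) (c : ℝ) (f : List ℕ → ℤ → ℝ) (x : ℤ) :
    EE n (fun α z => c * f α z) x = c * EE n f x := by
  unfold EE
  rw [Finset.mul_sum]
  refine Finset.sum_congr rfl fun α _ => ?_
  split_ifs with hv
  · ring
  · exact (mul_zero c).symm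

theorem EE_abs (n : ℕ) (f : List ℕ → ℤ → ℝ) (x : ℤ) :
    |EE n f x| ≤ EE n (fun α z => |f α z|) x := by
  unfold EE
  refine (Finset.abs_sum_le_sum_abs _ _).trans (Finset.sum_le_sum fun α _ => ?_)
  split_ifs with hv
  · rw [abs_mul, abs_of_pos (wt_pos α)]
  · rw [abs_zero]

/-- If `f` depends on the node modulo `3^k` then `EE n f x` depends on `x` modulo `3^(n+k)`. -/
theorem EE_congr {n k : ℕ} {f : List ℕ → ℤ → ℝ}
    (hf : ∀ α, ∀ z z' : ℤ, z ≡ z' [ZMOD 3 ^ k] → f α z = f α z') {x y : ℤ}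
    (h : x ≡ y [ZMOD 3 ^ (n + k)]) : EE n f x = EE n f y := by
  unfold EE
  refine Finset.sum_congr rfl fun α hα => ?_
  have hn : α.length = n := (mem_Rn.1 hα).1
  have h1 : x ≡ y [ZMOD 3 ^ α.length] := by
    rw [hn]
    exact Int.ModEq.of_dvd (pow_dvd_pow 3 (Nat.le_add_right n k)) h
  have h2 : vd α x ↔ vd α y := vd_congr h1
  by_cases hv : vd α x
  · rw [if_pos hv, if_pos (h2.1 hv)]
    congr 1
    refine hf α _ _ (nd_congr hv ?_)
    rw [hn]
    exact h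
  · rw [if_neg hv, if_neg fun h' => hv (h2.2 h')]

end Pool.Agent.Lib.MP_d0d59f_nt.PD

end

section

/-! Row pd-P13a. -/

namespace Pool.Agent.Lib.MP_d0d59f_nt.PD

open Finset

/-- If `α` and `α ++ γ` are in the barrier and `α ++ γ ++ β` is not, then `γ ++ β` is bad: the violated time is
`α.length + j` with `j > γ.length`, `j ≤ γ.length + β.length` (`bar_append_iff`), and
`5 α.length ≤ 3 |α| + 100`, `|α| ≤ 3 α.length + 100` (`bar α` at the full length). -/
theorem bad_of_exit {α γ β : List ℕ} (h1 : bar (α ++ γ)) (h2 : ¬ bar (α ++ γ ++ β)) :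
    bad γ.length (γ.length + β.length) (γ ++ β) := by
  unfold bar at h2
  push Not at h2
  obtain ⟨i, hi, hv⟩ := h2
  have hlen : (α ++ γ ++ β).length = α.length + γ.length + β.length := by
    rw [List.length_append, List.length_append]
  rw [hlen] at hi
  by_cases hc : i ≤ α.length + γ.length
  · exfalso
    have h3 := h1 i (by rw [List.length_append]; exact hc)
    have h4 : (α ++ γ ++ β).take i = (α ++ γ).take i :=
      List.take_append_of_le_length (by rw [List.length_append]; exact hc)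
    rw [h4] at hv
    have h5 := hv h3.1
    omega
  · have hα := h1 α.length (by rw [List.length_append]; omega)
    have h3 : (α ++ γ).take α.length = α := List.take_left
    rw [h3] at hα
    obtain ⟨j, rfl⟩ : ∃ j, i = α.length + j := ⟨i - α.length, by omega⟩
    have h4 : ((α ++ γ ++ β).take (α.length + j)).sum = α.sum + ((γ ++ β).take j).sum := by
      rw [List.append_assoc, List.take_length_add_append, List.sum_append]
    rw [h4] at hv
    refine ⟨j, by omega, by omega, ?_⟩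
    by_cases h5 : 5 * (α.length + j) ≤ 3 * (α.sum + ((γ ++ β).take j).sum) + 100
    · right
      have h6 := hv h5
      omega
    · left
      omega

end Pool.Agent.Lib.MP_d0d59f_nt.PD

end

section

/-! Row pd-P13b. -/

namespace Pool.Agent.Lib.MP_d0d59f_nt.PD

open Finset

theorem p13b_pairs (s t L0 L : ℕ) (P : List ℕ → Prop) [DecidablePred P] :
    ∑ γ ∈ Wd s L0, ∑ β ∈ Wd t L, (if P (γ ++ β) then wt (γ ++ β) else 0) ≤
      ∑ δ ∈ Wd (s + t) (L0 + L), (if P δ then wt δ else 0) := by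
  rw [← Finset.sum_product']
  have hinj : Set.InjOn (fun p : List ℕ × List ℕ => p.1 ++ p.2) ((Wd s L0 ×ˢ Wd t L : Finset (List ℕ × List ℕ)) : Set (List ℕ × List ℕ)) := by
    rintro ⟨γ, β⟩ h1 ⟨γ', β'⟩ h2 h
    rw [Finset.mem_coe, Finset.mem_product] at h1 h2
    have l1 := (mem_Wd.1 h1.1).1
    have l2 := (mem_Wd.1 h2.1).1
    simp only at h l1 l2
    have h3 := List.append_inj h (by rw [l1, l2])
    rw [h3.1, h3.2]
  rw [← Finset.sum_image (f := fun δ => if P δ then wt δ else 0) hinj]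
  refine Finset.sum_le_sum_of_subset_of_nonneg ?_ ?_
  · intro δ hδ
    obtain ⟨⟨γ, β⟩, hp, rfl⟩ := Finset.mem_image.1 hδ
    rw [Finset.mem_product] at hp
    have h1 := mem_Wd.1 hp.1
    have h2 := mem_Wd.1 hp.2
    simp only at h1 h2 ⊢
    rw [mem_Wd]
    refine ⟨?_, ?_, ?_⟩
    · rw [List.length_append, h1.1, h2.1]
    · rw [List.sum_append]
      omega
    · intro a ha
      rcases List.mem_append.1 ha with h | h
      · exact h1.2.2 a h
      · exact h2.2.2 a h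
  · intro δ _ _
    split_ifs
    · exact (wt_pos δ).le
    · exact le_refl _

open Classical in
/-- `EE_split` with `p = q`, `m = s`; for `α ∈ Rn q` and every `z` the pairs `(γ, β)` give different words
`γ ++ β ∈ Wd (s+t) L'`, with `vd (γ ++ β) z` (`vd_append`) and `bad s (s+t)` (`bad_of_exit`),
`wt (γ ++ β) = wt γ * wt β`. -/
theorem exit_le (q s t L : ℕ) (x : ℤ) :
    EE (q + s) (fun α z => ∑ β ∈ Wd t L, if vd β z ∧ ¬ bar (α ++ β) then wt β else 0) x ≤
      EE q (fun _ z => Vb s (s + t) (3 * (q + s) + 100 + L) z) x := by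
  rw [EE_split (p := q) (m := s) (L := 3 * (q + s) + 100) le_rfl]
  refine EE_mono (fun α hα z => ?_) x
  unfold Vb
  refine le_trans ?_ (p13b_pairs s t (3 * (q + s) + 100) L (fun δ => vd δ z ∧ bad s (s + t) δ))
  refine Finset.sum_le_sum fun γ hγ => ?_
  have hlγ := (mem_Wd.1 hγ).1
  split_ifs with hc
  · rw [Finset.mul_sum]
    refine Finset.sum_le_sum fun β hβ => ?_
    have hlβ := (mem_Wd.1 hβ).1
    by_cases hd : vd β (nd γ z) ∧ ¬ bar (α ++ γ ++ β)
    · rw [if_pos hd]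
      have h1 : vd (γ ++ β) z := vd_append.2 ⟨hc.1, hd.1⟩
      have h2 := bad_of_exit hc.2 hd.2
      rw [hlγ, hlβ] at h2
      rw [if_pos ⟨h1, h2⟩, wt_append]
    · rw [if_neg hd, mul_zero]
      split_ifs
      · exact (wt_pos _).le
      · exact le_refl _
  · refine Finset.sum_nonneg fun β _ => ?_
    split_ifs
    · exact (wt_pos _).le
    · exact le_refl _

end Pool.Agent.Lib.MP_d0d59f_nt.PD

end

section

/-! Row pd-P07: the density bound. -/

namespace Pool.Agent.Lib.MP_d0d59f_nt.PD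

open Finset

open Classical in
theorem p07_fix {n k : ℕ} (hk : 20 * k ≤ n) {h : ℤ → ℝ} (h0 : ∀ z, 0 ≤ h z)
    (hper : ∀ z z' : ℤ, z ≡ z' [ZMOD 3 ^ k] → h z = h z') (x : ℤ) (l : ℕ) :
    ∑ α ∈ (Rn n).filter (fun α => α.sum = l), (if vd α x then wt α * h (nd α x) else 0) ≤
      2 ^ 41 * ((∑ c ∈ range (3 ^ k), h (c : ℤ)) / 3 ^ k) := by
  have hH : 0 ≤ ∑ c ∈ range (3 ^ k), h (c : ℤ) := Finset.sum_nonneg fun c _ => h0 _
  set H : ℝ := ∑ c ∈ range (3 ^ k), h (c : ℤ) with hHdef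
  have h3k : (1 : ℝ) ≤ 3 ^ k := one_le_pow₀ (by norm_num)
  have h3k0 : (0 : ℝ) < 3 ^ k := by positivity
  have h3n0 : (0 : ℝ) < 3 ^ n := by positivity
  have h2l0 : (0 : ℝ) < 2 ^ l := by positivity
  by_cases hemp : (Rn n).filter (fun α => α.sum = l) = ∅
  · rw [hemp, Finset.sum_empty]
    positivity
  · obtain ⟨α₀, hα₀⟩ := Finset.nonempty_iff_ne_empty.2 hemp
    have hα₀' := Finset.mem_filter.1 hα₀
    have hpow := pow_le hk hα₀'.1
    rw [hα₀'.2, pow_add] at hpow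
    rw [← Finset.sum_filter]
    set F := ((Rn n).filter (fun α => α.sum = l)).filter (fun α => vd α x) with hF
    have hmem : ∀ α ∈ F, α ∈ Rn n ∧ α.sum = l ∧ vd α x ∧ α.length = n := by
      intro α hα
      have h1 := Finset.mem_filter.1 hα
      have h2 := Finset.mem_filter.1 h1.1
      exact ⟨h2.1, h2.2, h1.2, (mem_Rn.1 h2.1).1⟩
    have hnd : ∀ α ∈ F, (3 : ℤ) ^ n * nd α x = 2 ^ l * x - (AA.cc α : ℤ) := by
      intro α hα
      obtain ⟨h1, h2, h3, h4⟩ := hmem α hα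
      have h5 := nd_mul h3
      rw [h4, h2] at h5
      exact h5
    have hwt : ∀ α ∈ F, wt α = 3 ^ n / 2 ^ l := by
      intro α hα
      obtain ⟨h1, h2, h3, h4⟩ := hmem α hα
      unfold wt
      rw [h2, h4]
    have hinj : Set.InjOn (fun α => nd α x) (F : Set (List ℕ)) := by
      intro α hα β hβ hab
      have h1 := hnd α hα
      have h2 := hnd β hβ
      simp only at hab
      rw [hab, h2] at h1
      have h3 : AA.cc α = AA.cc β := by
        have : (AA.cc α : ℤ) = AA.cc β := by linarith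
        exact_mod_cast this
      have ma : ∀ γ ∈ F, γ ∈ AA.comps n l := by
        intro γ hγ
        obtain ⟨g1, g2, g3, g4⟩ := hmem γ hγ
        exact AA.mem_comps.2 ⟨g4, g2, (mem_Rn.1 g1).2.1⟩
      exact AA.cc_inj (ma α hα) (ma β hβ) h3
    set u : ℝ := (2 ^ l * (x : ℝ) - 2 ^ 40 * 2 ^ l) / 3 ^ n with hu
    set v : ℝ := 2 ^ l * (x : ℝ) / 3 ^ n with hv
    have huv : v - u = 2 ^ 40 * 2 ^ l / 3 ^ n := by
      rw [hu, hv]
      ring
    have huv' : u ≤ v := by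
      have : 0 ≤ 2 ^ 40 * (2 : ℝ) ^ l / 3 ^ n := by positivity
      linarith
    have himg : F.image (fun α => nd α x) ⊆ Finset.Icc ⌈u⌉ ⌊v⌋ := by
      intro z hz
      obtain ⟨α, hα, rfl⟩ := Finset.mem_image.1 hz
      have h1 : (3 : ℝ) ^ n * (nd α x : ℝ) = 2 ^ l * x - (AA.cc α : ℝ) := by
        exact_mod_cast hnd α hα
      have h2 : (AA.cc α : ℝ) ≤ 2 ^ 40 * 2 ^ l := by
        have := cc_le_Rn (hmem α hα).1
        rwa [(hmem α hα).2.1] at this
      have h3 : (0 : ℝ) ≤ AA.cc α := Nat.cast_nonneg _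
      rw [Finset.mem_Icc, Int.ceil_le, Int.le_floor]
      constructor
      · rw [hu, div_le_iff₀ h3n0]
        linarith
      · rw [hv, le_div_iff₀ h3n0]
        linarith
    have hAB : ⌈u⌉ ≤ ⌊v⌋ + 1 := (Int.ceil_le_ceil huv').trans (Int.ceil_le_floor_add_one v)
    have hsum1 : ∑ α ∈ F, h (nd α x) ≤ ∑ z ∈ Finset.Icc ⌈u⌉ ⌊v⌋, h z := by
      rw [← Finset.sum_image (f := fun z => h z) hinj]
      exact Finset.sum_le_sum_of_subset_of_nonneg himg fun z _ _ => h0 z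
    have hsum2 := sum_interval_le (P := 3 ^ k) (by positivity) h h0
      (by
        intro z z' hz
        apply hper
        simpa using hz) ⌈u⌉ ⌊v⌋ hAB
    rw [← hHdef] at hsum2
    have hlen : ((⌊v⌋ : ℝ) - ⌈u⌉ + 1) ≤ 2 ^ 40 * 2 ^ l / 3 ^ n + 1 := by
      have h1 := Int.floor_le v
      have h2 := Int.le_ceil u
      linarith
    have hsum3 : ∑ α ∈ F, h (nd α x) ≤ ((2 ^ 40 * 2 ^ l / 3 ^ n + 1) / 3 ^ k + 1) * H := by
      refine (hsum1.trans hsum2).trans ?_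
      refine mul_le_mul_of_nonneg_right ?_ hH
      push_cast
      have := div_le_div_of_nonneg_right hlen h3k0.le
      linarith
    have hgoal : ∑ α ∈ F, wt α * h (nd α x) = 3 ^ n / 2 ^ l * ∑ α ∈ F, h (nd α x) := by
      rw [Finset.mul_sum]
      refine Finset.sum_congr rfl fun α hα => ?_
      rw [hwt α hα]
    rw [hgoal]
    refine (mul_le_mul_of_nonneg_left hsum3 (by positivity)).trans ?_
    have hratio : (3 : ℝ) ^ n / 2 ^ l ≤ 2 ^ 34 / 3 ^ k := by
      rw [div_le_div_iff₀ h2l0 h3k0]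
      linarith
    have e1 : (3 : ℝ) ^ n / 2 ^ l * (((2 ^ 40 * 2 ^ l / 3 ^ n + 1) / 3 ^ k + 1) * H) =
        (2 ^ 40 / 3 ^ k + (3 ^ n / 2 ^ l) / 3 ^ k + 3 ^ n / 2 ^ l) * H := by
      field_simp
    rw [e1]
    have e2 : (2 : ℝ) ^ 41 * (H / 3 ^ k) = 2 ^ 41 / 3 ^ k * H := by ring
    rw [e2]
    refine mul_le_mul_of_nonneg_right ?_ hH
    have h4 : (3 : ℝ) ^ n / 2 ^ l / 3 ^ k ≤ 3 ^ n / 2 ^ l := div_le_self (by positivity) h3k
    have h5 : (2 : ℝ) ^ 40 / 3 ^ k + 2 ^ 34 / 3 ^ k + 2 ^ 34 / 3 ^ k ≤ 2 ^ 41 / 3 ^ k := by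
      rw [← add_div, ← add_div]
      exact div_le_div_of_nonneg_right (by norm_num) h3k0.le
    linarith

/-- **Density bound.** Split `EE n` according to `l = α.sum ≤ 3 n + 100` (at most `101 (n + 1)` values, `sum_Wd`).
For fixed `l` the map `α ↦ nd α x` is injective on `{α ∈ Rn n : α.sum = l, vd α x}` (`nd_mul`, `AA.cc_inj`), and
`nd α x ∈ Icc A B` with `A = ⌈(2^l x - 2^40 2^l)/3^n⌉`, `B = ⌊2^l x/3^n⌋` (`nd_mul`, `cc_le_Rn`, `cc ≥ 0`), so
`∑ h (nd α x) ≤ ∑_{z ∈ Icc A B} h z ≤ ((2^40 2^l/3^n + 1)/3^k + 1) ∑_{c<3^k} h c` (`sum_interval_le`).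
Times `wt α = 3^n/2^l`, and `3^n/2^l ≤ 2^34/3^k` (`pow_le`): at most `(2^40 + 2 * 2^34)/3^k * ∑ h c`. -/
theorem density_bound {n k : ℕ} (hk : 20 * k ≤ n) {h : ℤ → ℝ} (h0 : ∀ z, 0 ≤ h z)
    (hper : ∀ z z' : ℤ, z ≡ z' [ZMOD 3 ^ k] → h z = h z') (x : ℤ) :
    EE n (fun _ z => h z) x ≤ 2 ^ 60 * (n + 1) * ((∑ c ∈ range (3 ^ k), h (c : ℤ)) / 3 ^ k) := by
  classical
  have hH : 0 ≤ ∑ c ∈ range (3 ^ k), h (c : ℤ) := Finset.sum_nonneg fun c _ => h0 _
  have hS : 0 ≤ (∑ c ∈ range (3 ^ k), h (c : ℤ)) / 3 ^ k := by positivity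
  unfold EE
  have hmaps : ∀ α ∈ Rn n, α.sum ∈ range (3 * n + 101) := by
    intro α hα
    have h1 := mem_Rn.1 hα
    have h2 := (h1.2.2 n h1.1.ge).2
    rw [← h1.1, List.take_length, h1.1] at h2
    rw [Finset.mem_range]
    omega
  rw [← Finset.sum_fiberwise_of_maps_to hmaps]
  refine (Finset.sum_le_sum fun l _ => p07_fix hk h0 hper x l).trans ?_
  rw [Finset.sum_const, Finset.card_range, nsmul_eq_mul, ← mul_assoc]
  refine mul_le_mul_of_nonneg_right ?_ hS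
  push_cast
  have hn : (0 : ℝ) ≤ n := Nat.cast_nonneg n
  nlinarith

end Pool.Agent.Lib.MP_d0d59f_nt.PD

end

section

/-! Row pd-P14b. -/

namespace Pool.Agent.Lib.MP_d0d59f_nt.PD

open Finset

open Classical in
/-- `n = q + m`, `m = n/60`: `exit_le` (with `s = m`, `t = 1`), `density_bound` with `h = Vb m (m+1) L'`,
`k = m + 1`, `20 (m + 1) ≤ n - m` for `n ≥ 60`; `Vb_sum`; `exp_bound`. -/
theorem exit_one : ∃ K : ℝ, 0 ≤ K ∧ ∀ n : ℕ, 60 ≤ n → ∀ (L : ℕ) (x : ℤ),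
    EE n (fun α z => ∑ β ∈ Wd 1 L, if vd β z ∧ ¬ bar (α ++ β) then wt β else 0) x ≤
      K / ((n : ℝ) + 1) ^ 2 := by
  obtain ⟨K, hK, hexp⟩ := exp_bound
  refine ⟨K, hK, fun n hn L x => ?_⟩
  obtain ⟨m, hm⟩ : ∃ m, m = n / 60 := ⟨_, rfl⟩
  obtain ⟨q, hq⟩ : ∃ q, q + m = n := ⟨n - m, by omega⟩
  have h1 := exit_le q m 1 L x
  rw [hq] at h1
  refine h1.trans ?_
  have h2 := density_bound (n := q) (k := m + 1) (by omega)
    (h := fun z => Vb m (m + 1) (3 * n + 100 + L) z) (fun z => Vb_nonneg _ _ _ z)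
    (fun z z' h => Vb_congr h) x
  refine h2.trans ?_
  have h3 : (∑ c ∈ range (3 ^ (m + 1)), Vb m (m + 1) (3 * n + 100 + L) (c : ℤ)) / 3 ^ (m + 1) ≤
      70 * (97 / 100) ^ m := by
    have h6 := Vb_sum m (m + 1) (3 * n + 100 + L)
    have h7 : (0 : ℝ) < 3 ^ (m + 1) := by positivity
    rw [div_le_iff₀ h7]
    linarith
  have h4 := hexp n
  rw [← hm] at h4
  have h5 : (q : ℝ) + 1 ≤ (n : ℝ) + 1 := by
    have : q ≤ n := by omega
    have : (q : ℝ) ≤ n := by exact_mod_cast this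
    linarith
  refine le_trans ?_ h4
  refine mul_le_mul (mul_le_mul_of_nonneg_left h5 (by positivity)) h3 ?_ (by positivity)
  exact div_nonneg (Finset.sum_nonneg fun c _ => Vb_nonneg _ _ _ _) (by positivity)

end Pool.Agent.Lib.MP_d0d59f_nt.PD

end
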