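import Mathlib
import Pool.Agent.Lib.MP_d0d59f_nt.NK.K009

/-! Row pd-P16b. -/

namespace Pool.Agent.Lib.MP_d0d59f_nt.PD

open Finset

/-- `|3 - 1| ≤ 2`, `∑ 2^{-a} ≤ 1`. -/
theorem DD_abs (M A n j : ℕ) (z : ℤ) : |DD M A n j z| ≤ 2 := by
  unfold DD
  refine (abs_sum_le_sum_abs _ _).trans ?_
  have h1 : ∀ a ∈ Icc 1 A, |((if (3 : ℤ) ∣ 2 ^ a * z - 1 then 3 else 0) - 1) * (1 / 2 : ℝ) ^ a *
      VV M (n + 1) (j + a)| ≤ 2 * (1 / 2 : ℝ) ^ a := by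
    intro a _
    rw [abs_mul, abs_mul, abs_of_nonneg (by positivity : (0 : ℝ) ≤ (1 / 2) ^ a),
      abs_of_nonneg (VV_nonneg _ _ _)]
    have h2 : |((if (3 : ℤ) ∣ 2 ^ a * z - 1 then (3 : ℝ) else 0) - 1)| ≤ 2 := by
      split_ifs <;> norm_num
    have h3 := VV_le_one M (n + 1) (j + a)
    have h4 := VV_nonneg M (n + 1) (j + a)
    have h5 : (0 : ℝ) ≤ (1 / 2) ^ a := by positivity
    calc |((if (3 : ℤ) ∣ 2 ^ a * z - 1 then (3 : ℝ) else 0) - 1)| * (1 / 2) ^ a * VV M (n + 1) (j + a)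
        ≤ 2 * (1 / 2) ^ a * 1 := by
          refine mul_le_mul (mul_le_mul_of_nonneg_right h2 h5) h3 h4 (by positivity)
      _ = 2 * (1 / 2) ^ a := by ring
  refine (sum_le_sum h1).trans ?_
  rw [← mul_sum, p16_geom]
  have : (0 : ℝ) ≤ (1 / 2) ^ A := by positivity
  linarith

theorem DD_congr (M A n j : ℕ) {z z' : ℤ} (h : z ≡ z' [ZMOD 3]) : DD M A n j z = DD M A n j z' := by
  unfold DD
  refine sum_congr rfl fun a _ => ?_
  have h1 : (3 : ℤ) ∣ 2 ^ a * z - 1 ↔ (3 : ℤ) ∣ 2 ^ a * z' - 1 := by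
    have h2 : (3 : ℤ) ∣ (2 ^ a * z' - 1) - (2 ^ a * z - 1) := by
      have h3 := h.dvd
      have e : (2 ^ a * z' - 1) - (2 ^ a * z - 1) = 2 ^ a * (z' - z) := by ring
      rw [e]
      exact Dvd.dvd.mul_left h3 _
    constructor
    · intro h4
      have := dvd_add h2 h4
      rwa [sub_add_cancel] at this
    · intro h4
      have := dvd_sub h4 h2
      rwa [sub_sub_cancel] at this
  by_cases h4 : (3 : ℤ) ∣ 2 ^ a * z - 1
  · rw [if_pos h4, if_pos (h1.1 h4)]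
  · rw [if_neg h4, if_neg (fun h5 => h4 (h1.2 h5))]

theorem p16_mod (a : ℕ) : (2 : ℤ) ^ a % 3 = 1 ∨ (2 : ℤ) ^ a % 3 = 2 := by
  induction a with
  | zero => left; norm_num
  | succ a ih =>
    rw [pow_succ]
    omega

/-- For every `a` exactly one of `z = 0, 1, 2` has `3 ∣ 2^a z - 1`. -/
theorem DD_zero (M A n j : ℕ) : DD M A n j 0 + DD M A n j 1 + DD M A n j 2 = 0 := by
  unfold DD
  rw [← sum_add_distrib, ← sum_add_distrib]
  refine sum_eq_zero fun a _ => ?_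
  have h0 : ¬ (3 : ℤ) ∣ 2 ^ a * 0 - 1 := by norm_num
  rw [if_neg h0]
  rcases p16_mod a with h | h
  · have h1 : (3 : ℤ) ∣ 2 ^ a * 1 - 1 := by omega
    have h2 : ¬ (3 : ℤ) ∣ 2 ^ a * 2 - 1 := by omega
    rw [if_pos h1, if_neg h2]
    ring
  · have h1 : ¬ (3 : ℤ) ∣ 2 ^ a * 1 - 1 := by omega
    have h2 : (3 : ℤ) ∣ 2 ^ a * 2 - 1 := by omega
    rw [if_neg h1, if_pos h2]
    ring

end Pool.Agent.Lib.MP_d0d59f_nt.PD
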