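import Mathlib
import Pool.Agent.Lib.MP_d0d59f_nt.NK.K039

section

/-! Row pd-P22: positive lower density of predecessor sets. -/

namespace Pool.Agent.Lib.MP_d0d59f_nt.PD

open Finset

/-- `n1, x1, M0` from `count_class`, `K` from `exists_kid_class n1`, `y` the kid of `a` with `c = x1`. Put
`A = |a| + |d| ≥ 1`, `B = (K + 2^40) A ≥ |y| + 2^40 |d|`. If `X ≥ M0 B` let `M = ⌊X/B⌋ ≥ M0`, `M ≥ X/(2B)`: the
elements `m` of `pre d y` with `|m| ≤ M (|y| + 2^40 |d|) ≤ X` are in the set (`GE.pre_trans`), so the number is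
`≥ M/16 ≥ X/(32 B)`. If `X < M0 B` the set contains `a` (`k = 0`), and `X/A < M0 (K + 2^40)`.
`c = min (1/(32 (K + 2^40))) (1/(M0 (K + 2^40)))`. See `GE.c6_pos` for the same argument. -/
theorem density : ∃ c : ℝ, 0 < c ∧ ∀ d a : ℤ, Odd d → ¬ (3 : ℤ) ∣ d → ¬ (3 : ℤ) ∣ a →
    ∀ X : ℝ, |(a : ℝ)| + |(d : ℝ)| ≤ X → c * (X / (|(a : ℝ)| + |(d : ℝ)|)) ≤
      (Set.ncard {m : ℤ | |(m : ℝ)| ≤ X ∧ ∃ k : ℕ, (T d)^[k] m = a} : ℝ) := by
  obtain ⟨n1, x1, M0, hx1, hM0, hcount⟩ := count_class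
  obtain ⟨K, hK, hkid⟩ := exists_kid_class n1
  set Q : ℝ := K + 2 ^ 40 with hQ
  have hQ0 : 0 < Q := by positivity
  have hM0' : (1 : ℝ) ≤ M0 := by exact_mod_cast hM0
  refine ⟨min (1 / (32 * Q)) (1 / (M0 * Q)), lt_min (by positivity) (by positivity), ?_⟩
  intro d a hd h3 ha X hX
  have hd1 : 1 ≤ |(d : ℝ)| := by
    have h0 : d ≠ 0 := by
      rintro rfl
      exact h3 (dvd_zero _)
    have := Int.one_le_abs h0
    exact_mod_cast this
  have ha0 := abs_nonneg (a : ℝ)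
  set A : ℝ := |(a : ℝ)| + |(d : ℝ)| with hA
  have hA1 : 1 ≤ A := by linarith
  have hA0 : 0 < A := by linarith
  have hX0 : 0 < X := by linarith
  have hfin : {m : ℤ | |(m : ℝ)| ≤ X ∧ ∃ k : ℕ, (T d)^[k] m = a}.Finite := by
    refine (Set.finite_Icc (-⌈X⌉) ⌈X⌉).subset ?_
    rintro m ⟨hm, _⟩
    have h4 := abs_le.mp (hm.trans (Int.le_ceil X))
    constructor
    · have := h4.1
      exact_mod_cast this
    · have := h4.2
      exact_mod_cast this
  have hXA : 0 ≤ X / A := by positivity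
  rcases le_or_gt (M0 * (Q * A)) X with hbig | hsmall
  · obtain ⟨y, hy1, hy2, hy3, hy4, hy5⟩ := hkid d a x1 hd h3 ha
    have hB0 : 0 < Q * A := by positivity
    have hyB : |(y : ℝ)| + 2 ^ 40 * |(d : ℝ)| ≤ Q * A := by
      have h1 : (2 : ℝ) ^ 40 * |(d : ℝ)| ≤ 2 ^ 40 * A := by
        refine mul_le_mul_of_nonneg_left ?_ (by positivity)
        linarith
      rw [hQ, add_mul]
      linarith
    obtain ⟨M, hM⟩ : ∃ M : ℕ, M = ⌊X / (Q * A)⌋₊ := ⟨_, rfl⟩
    have hMge : M0 ≤ M := by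
      rw [hM]
      refine Nat.le_floor ?_
      rw [le_div_iff₀ hB0]
      exact hbig
    have hM1 : (1 : ℝ) ≤ M := by
      have : 1 ≤ M := hM0.trans hMge
      exact_mod_cast this
    have hMle : (M : ℝ) * (Q * A) ≤ X := by
      rw [← le_div_iff₀ hB0, hM]
      exact Nat.floor_le (by positivity)
    have hMlt : X / (Q * A) < M + 1 := by
      rw [hM]
      exact Nat.lt_floor_add_one _
    have h6 := hcount d hd h3 y hy1 hy2 hy3 M hMge
    have h7 : Set.ncard {m : ℤ | |(m : ℝ)| ≤ M * (|(y : ℝ)| + 2 ^ 40 * |(d : ℝ)|) ∧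
        m ∈ GE.pre d y} ≤ Set.ncard {m : ℤ | |(m : ℝ)| ≤ X ∧ ∃ k : ℕ, (T d)^[k] m = a} := by
      refine Set.ncard_le_ncard ?_ hfin
      rintro m ⟨hm1, hm2⟩
      refine ⟨hm1.trans (le_trans ?_ hMle), GE.pre_trans hy4 hm2⟩
      exact mul_le_mul_of_nonneg_left hyB (by positivity)
    have h7' : (Set.ncard {m : ℤ | |(m : ℝ)| ≤ M * (|(y : ℝ)| + 2 ^ 40 * |(d : ℝ)|) ∧
        m ∈ GE.pre d y} : ℝ) ≤
        (Set.ncard {m : ℤ | |(m : ℝ)| ≤ X ∧ ∃ k : ℕ, (T d)^[k] m = a} : ℝ) := by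
      exact_mod_cast h7
    refine le_trans ?_ (h6.trans h7')
    have h8 : X / A = Q * (X / (Q * A)) := by
      field_simp
    calc min (1 / (32 * Q)) (1 / (M0 * Q)) * (X / A)
        ≤ 1 / (32 * Q) * (X / A) := mul_le_mul_of_nonneg_right (min_le_left _ _) hXA
      _ = (X / (Q * A)) / 32 := by rw [h8]; field_simp
      _ ≤ (M + 1) / 32 := by linarith
      _ ≤ (M : ℝ) / 16 := by linarith
  · have hone : (1 : ℝ) ≤
        (Set.ncard {m : ℤ | |(m : ℝ)| ≤ X ∧ ∃ k : ℕ, (T d)^[k] m = a} : ℝ) := by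
      have h5 : 1 ≤ Set.ncard {m : ℤ | |(m : ℝ)| ≤ X ∧ ∃ k : ℕ, (T d)^[k] m = a} := by
        rw [Nat.one_le_iff_ne_zero]
        refine Set.ncard_ne_zero_of_mem (a := a) ⟨?_, 0, rfl⟩ hfin
        linarith
      exact_mod_cast h5
    refine le_trans ?_ hone
    have h8 : X / A ≤ M0 * Q := by
      rw [div_le_iff₀ hA0]
      linarith
    calc min (1 / (32 * Q)) (1 / (M0 * Q)) * (X / A)
        ≤ 1 / (M0 * Q) * (X / A) := mul_le_mul_of_nonneg_right (min_le_right _ _) hXA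
      _ ≤ 1 / (M0 * Q) * (M0 * Q) := mul_le_mul_of_nonneg_left h8 (by positivity)
      _ = 1 := by field_simp

end Pool.Agent.Lib.MP_d0d59f_nt.PD

end

section

/-! Row pd-P23b. -/

namespace Pool.Agent.Lib.MP_d0d59f_nt.PD

open Finset

/-- COPY of the proof of `GE.growth_cut` (`GE/Main.lean`) with `s = 1` and `density` instead of `growth s hs`. -/
theorem density_cut : ∃ c : ℝ, 0 < c ∧ ∀ d a : ℤ, Odd d →
    ¬ (3 : ℤ) ∣ d → ¬ (3 : ℤ) ∣ a → ∀ F : Finset ℤ, (∀ j : ℕ, 2 ^ j * a ∉ F) →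
    ∀ X : ℝ, |(a : ℝ)| + |(d : ℝ)| ≤ X →
      c * (X / (16 ^ F.card * (|(a : ℝ)| + |(d : ℝ)|))) ≤
        (Set.ncard {m : ℤ | |(m : ℝ)| ≤ X ∧
          ∃ k : ℕ, (T d)^[k] m = a ∧ ∀ i ≤ k, (T d)^[i] m ∉ F} : ℝ) := by
  obtain ⟨c, hc, hmain⟩ := density
  refine ⟨min (c / 257) (1 / 257), lt_min (by positivity) (by positivity), ?_⟩
  intro d a hd h3 ha F hF X hX
  have hd1 : 1 ≤ |(d : ℝ)| := by
    have h0 : d ≠ 0 := by
      rintro rfl
      exact h3 (dvd_zero _)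
    have := Int.one_le_abs h0
    exact_mod_cast this
  set A : ℝ := |(a : ℝ)| + |(d : ℝ)| with hA
  have hA1 : 1 ≤ A := by
    have := abs_nonneg (a : ℝ)
    linarith
  have hX0 : 0 < X := by linarith
  set B : ℝ := 16 ^ F.card * A with hB
  have hB0 : 0 < B := by positivity
  have hfin : {m : ℤ | |(m : ℝ)| ≤ X ∧
      ∃ k : ℕ, (T d)^[k] m = a ∧ ∀ i ≤ k, (T d)^[i] m ∉ F}.Finite := by
    refine (Set.finite_Icc (-⌈X⌉) ⌈X⌉).subset ?_
    rintro m ⟨hm, _⟩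
    have h4 := abs_le.mp (hm.trans (Int.le_ceil X))
    constructor
    · have := h4.1
      exact_mod_cast this
    · have := h4.2
      exact_mod_cast this
  have hpow : (0 : ℝ) ≤ X / B := by positivity
  rcases le_or_gt (257 * B) X with hbig | hsmall
  · obtain ⟨k, y, hk1, hk2, hy, hy3, hyF⟩ := exists_free_kid hd h3 ha F
    have hyodd := GE.c4_odd hd hk1 hy
    -- size of `y`
    have hysize : |(y : ℝ)| + |(d : ℝ)| ≤ 257 * B := by
      have h1 : 3 * (y : ℝ) + d = 2 ^ k * a := by exact_mod_cast hy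
      have h2 : (3 : ℝ) * |(y : ℝ)| ≤ 2 ^ k * |(a : ℝ)| + |(d : ℝ)| := by
        have h3 : |3 * (y : ℝ)| = |2 ^ k * (a : ℝ) - d| := by
          congr 1
          linarith
        rw [abs_mul, abs_of_pos (by norm_num : (0 : ℝ) < 3)] at h3
        rw [h3]
        refine (abs_sub _ _).trans ?_
        rw [abs_mul, abs_of_pos (by positivity : (0 : ℝ) < 2 ^ k)]
      have h4 : (2 : ℝ) ^ k ≤ 256 * 16 ^ F.card := by
        calc (2 : ℝ) ^ k ≤ 2 ^ (4 * F.card + 8) := pow_le_pow_right₀ (by norm_num) hk2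
          _ = 256 * 16 ^ F.card := by rw [pow_add, pow_mul]; norm_num; ring
      have h16 : (1 : ℝ) ≤ 16 ^ F.card := one_le_pow₀ (by norm_num)
      have h5 : (2 : ℝ) ^ k * |(a : ℝ)| ≤ 256 * 16 ^ F.card * |(a : ℝ)| :=
        mul_le_mul_of_nonneg_right h4 (abs_nonneg _)
      have h6 := abs_nonneg (a : ℝ)
      have h7 : |(d : ℝ)| ≤ 16 ^ F.card * |(d : ℝ)| := by nlinarith
      have h8 : B = 16 ^ F.card * |(a : ℝ)| + 16 ^ F.card * |(d : ℝ)| := by rw [hB, hA]; ring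
      have h9 : 0 ≤ 16 ^ F.card * |(a : ℝ)| := by positivity
      rw [h8]
      linarith
    have hR1 : 0 < |(y : ℝ)| + |(d : ℝ)| := by
      have := abs_nonneg (y : ℝ)
      linarith
    have h6 := hmain d y hd h3 hy3 X (hysize.trans hbig)
    have h7 : Set.ncard {m : ℤ | |(m : ℝ)| ≤ X ∧ ∃ k : ℕ, (T d)^[k] m = y} ≤
        Set.ncard {m : ℤ | |(m : ℝ)| ≤ X ∧
          ∃ k : ℕ, (T d)^[k] m = a ∧ ∀ i ≤ k, (T d)^[i] m ∉ F} := by
      refine Set.ncard_le_ncard ?_ hfin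
      rintro m ⟨hm1, l, hl⟩
      refine ⟨hm1, k + l, ?_, ?_⟩
      · rw [Function.iterate_add_apply, hl]
        have := GE.kid_iter hd hyodd (j := 0) (k := k) (by omega) hy
        simpa using this
      · intro i hi hiF
        rcases le_or_gt i l with hil | hil
        · refine hyF _ hiF ⟨l - i, ?_⟩
          rw [← Function.iterate_add_apply]
          have h8 : l - i + i = l := by omega
          rw [h8, hl]
        · have h8 : i = (k - (k - (i - l))) + l := by omega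
          rw [h8, Function.iterate_add_apply, hl, GE.kid_iter hd hyodd (by omega) hy] at hiF
          exact hF _ hiF
    have h7' : (Set.ncard {m : ℤ | |(m : ℝ)| ≤ X ∧ ∃ k : ℕ, (T d)^[k] m = y} : ℝ) ≤
        (Set.ncard {m : ℤ | |(m : ℝ)| ≤ X ∧
          ∃ k : ℕ, (T d)^[k] m = a ∧ ∀ i ≤ k, (T d)^[i] m ∉ F} : ℝ) := by
      exact_mod_cast h7
    refine le_trans ?_ (h6.trans h7')
    set R : ℝ := |(y : ℝ)| + |(d : ℝ)| with hR
    have h8 : X / B ≤ 257 * (X / R) := by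
      rw [div_le_iff₀ hB0]
      have h9 : X = X / R * R := (div_mul_cancel₀ X hR1.ne').symm
      calc X = X / R * R := h9
        _ ≤ X / R * (257 * B) := mul_le_mul_of_nonneg_left hysize (by positivity)
        _ = _ := by ring
    calc min (c / 257) (1 / 257) * (X / B)
        ≤ c / 257 * (X / B) :=
          mul_le_mul_of_nonneg_right (min_le_left _ _) hpow
      _ ≤ c / 257 * (257 * (X / R)) :=
          mul_le_mul_of_nonneg_left h8 (by positivity)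
      _ = c * (X / R) := by field_simp
  · have hone : (1 : ℝ) ≤
        (Set.ncard {m : ℤ | |(m : ℝ)| ≤ X ∧
          ∃ k : ℕ, (T d)^[k] m = a ∧ ∀ i ≤ k, (T d)^[i] m ∉ F} : ℝ) := by
      have h5 : 1 ≤ Set.ncard {m : ℤ | |(m : ℝ)| ≤ X ∧
          ∃ k : ℕ, (T d)^[k] m = a ∧ ∀ i ≤ k, (T d)^[i] m ∉ F} := by
        rw [Nat.one_le_iff_ne_zero]
        refine Set.ncard_ne_zero_of_mem (a := a) ⟨?_, 0, rfl, ?_⟩ hfin
        · have := abs_nonneg (d : ℝ)
          linarith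
        · intro i hi
          have h6 : i = 0 := by omega
          subst h6
          have := hF 0
          simpa using this
      exact_mod_cast h5
    refine le_trans ?_ hone
    have h8 : X / B ≤ 257 := by
      rw [div_le_iff₀ hB0]
      exact hsmall.le
    calc min (c / 257) (1 / 257) * (X / B)
        ≤ 1 / 257 * (X / B) :=
          mul_le_mul_of_nonneg_right (min_le_right _ _) hpow
      _ ≤ 1 / 257 * 257 := mul_le_mul_of_nonneg_left h8 (by positivity)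
      _ = 1 := by field_simp

end Pool.Agent.Lib.MP_d0d59f_nt.PD

end

section

/-! Row pd-P24: if almost all orbits meet one finite set then all orbits meet a finite set. -/

namespace Pool.Agent.Lib.MP_d0d59f_nt.PD

open Finset

lemma p24_pow (d : ℤ) (j : ℕ) (u : ℤ) : (T d)^[j] (2 ^ j * u) = u := by
  induction j with
  | zero => simp
  | succ j ih =>
    rw [Function.iterate_succ_apply]
    have h : T d (2 ^ (j + 1) * u) = 2 ^ j * u := by
      have h1 : (2 : ℤ) ^ (j + 1) * u = 2 * (2 ^ j * u) := by ring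
      rw [h1, T, if_pos (Int.mul_emod_right 2 _), Int.mul_ediv_cancel_left _ (by norm_num)]
    rw [h, ih]

lemma p24_odd (y : ℤ) (hy : y ≠ 0) : ∃ (j : ℕ) (u : ℤ), y = 2 ^ j * u ∧ Odd u := by
  induction hn : y.natAbs using Nat.strong_induction_on generalizing y with
  | _ n ih =>
    rcases Int.even_or_odd y with h | h
    · obtain ⟨z, hz⟩ := h
      have hz0 : z ≠ 0 := by
        rintro rfl
        exact hy (by simpa using hz)
      obtain ⟨j, u, hj, hu⟩ := ih z.natAbs (by omega) z hz0 rfl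
      refine ⟨j + 1, u, ?_, hu⟩
      rw [hz, hj]
      ring
    · exact ⟨0, y, by simp, h⟩

/-- An orbit which avoids `0` contains an odd element `a` prime to `3`: halve until odd, one more step gives
`(3y+d)/2`, prime to `3`, halve until odd. -/
theorem exists_odd_unit {d : ℤ} (hd : Odd d) (h3 : ¬ (3 : ℤ) ∣ d) {m : ℤ}
    (h : ∀ k, (T d)^[k] m ≠ 0) : ∃ k, Odd ((T d)^[k] m) ∧ ¬ (3 : ℤ) ∣ (T d)^[k] m := by
  obtain ⟨j, u, hj, hu⟩ := p24_odd m (h 0)
  have h1 : (T d)^[j] m = u := by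
    rw [hj, p24_pow]
  have h2 : (T d)^[j + 1] m = (3 * u + d) / 2 := by
    rw [Function.iterate_succ_apply', h1, T, if_neg]
    rw [Int.odd_iff.1 hu]
    norm_num
  have h3u : ¬ (3 : ℤ) ∣ (3 * u + d) / 2 := by
    intro hdv
    apply h3
    have heven : (3 * u + d) % 2 = 0 := by
      have := Int.odd_iff.1 hu
      have := Int.odd_iff.1 hd
      omega
    omega
  obtain ⟨i, v, hi, hv⟩ := p24_odd _ (h (j + 1))
  have h4 : (T d)^[i + (j + 1)] m = v := by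
    rw [Function.iterate_add_apply, hi, p24_pow]
  refine ⟨i + (j + 1), by rw [h4]; exact hv, ?_⟩
  rw [h4]
  intro hdv
  apply h3u
  rw [← h2, hi]
  exact hdv.mul_left _

/-- `F' = F ∪ {0} ∪ {f/2^j : f ∈ F, j ≤ |f|}`. If the orbit of `m` avoids `F'` take `a` on it from
`exists_odd_unit`; `2^j a ∉ F` for all `j` (else `a = f/2^j`, `j ≤ 2^j ≤ |f|`), and the orbit of `a` avoids `F`. By
`density_cut`, for `X ≥ |a| + |d|` at least `c₁ X` integers `|m'| ≤ X` reach `a` before meeting `F`, so their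
orbits avoid `F` forever; contradiction with `hF` for `ε = c₁/2`, `X₀ = |a| + |d|` (`X > 0`). -/
theorem all_of_almost_all {d : ℤ} (hd : Odd d) (h3 : ¬ (3 : ℤ) ∣ d) (F : Finset ℤ)
    (hF : ∀ ε : ℝ, 0 < ε → ∀ X₀ : ℝ, ∃ X : ℝ, X₀ ≤ X ∧
      (Set.ncard {m : ℤ | |(m : ℝ)| ≤ X ∧ ∀ k : ℕ, (T d)^[k] m ∉ F} : ℝ) ≤ ε * X) :
    ∃ F' : Finset ℤ, ∀ m : ℤ, ∃ k : ℕ, (T d)^[k] m ∈ F' := by
  classical
  refine ⟨F ∪ {0} ∪ F.biUnion (fun f => (range (f.natAbs + 1)).image fun j => f / 2 ^ j), fun m => ?_⟩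
  by_contra hcon
  push Not at hcon
  have hF' : ∀ k, (T d)^[k] m ∉ F ∧ (T d)^[k] m ≠ 0 ∧
      ∀ f ∈ F, ∀ j ≤ f.natAbs, f / 2 ^ j ≠ (T d)^[k] m := by
    intro k
    have hk := hcon k
    simp only [mem_union, mem_singleton, mem_biUnion, mem_image, mem_range, not_or] at hk
    refine ⟨hk.1.1, hk.1.2, ?_⟩
    intro f hf j hj he
    exact hk.2 ⟨f, hf, j, Nat.lt_succ_of_le hj, he⟩
  obtain ⟨k, hodd, hunit⟩ := exists_odd_unit hd h3 (fun k => (hF' k).2.1)
  set a := (T d)^[k] m with ha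
  have ha0 : a ≠ 0 := by
    rintro h0
    rw [h0] at hodd
    exact absurd hodd (by decide)
  have hcut : ∀ j : ℕ, 2 ^ j * a ∉ F := by
    intro j hj
    have h1 : j ≤ (2 ^ j * a).natAbs := by
      rw [Int.natAbs_mul, Int.natAbs_pow]
      have h2 : 1 ≤ a.natAbs := Int.natAbs_pos.2 ha0
      have h3 : j < 2 ^ j := Nat.lt_two_pow_self
      have h4 : (2 : ℤ).natAbs = 2 := rfl
      rw [h4]
      nlinarith
    refine (hF' k).2.2 _ hj j h1 ?_
    rw [Int.mul_ediv_cancel_left _ (pow_ne_zero _ (by norm_num))]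
  obtain ⟨c, hc, hdens⟩ := density_cut
  have hpos : (0 : ℝ) < |(a : ℝ)| + |(d : ℝ)| := by
    have : (0 : ℝ) < |(a : ℝ)| := abs_pos.2 (by exact_mod_cast ha0)
    have := abs_nonneg (d : ℝ)
    linarith
  set c₁ : ℝ := c / (16 ^ F.card * (|(a : ℝ)| + |(d : ℝ)|)) with hc₁
  have hc₁0 : 0 < c₁ := by positivity
  obtain ⟨X, hX, hXe⟩ := hF (c₁ / 2) (by positivity) (|(a : ℝ)| + |(d : ℝ)|)
  have h1 := hdens d a hd h3 hunit F hcut X hX
  have hfin : Set.Finite {m : ℤ | |(m : ℝ)| ≤ X ∧ ∀ k : ℕ, (T d)^[k] m ∉ F} := by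
    refine (Set.finite_Icc (-⌈X⌉) ⌈X⌉).subset ?_
    intro n hn
    have h2 : |(n : ℝ)| ≤ ⌈X⌉ := hn.1.trans (Int.le_ceil X)
    rw [abs_le] at h2
    exact ⟨by exact_mod_cast h2.1, by exact_mod_cast h2.2⟩
  have h2 : (Set.ncard {m : ℤ | |(m : ℝ)| ≤ X ∧
      ∃ k : ℕ, (T d)^[k] m = a ∧ ∀ i ≤ k, (T d)^[i] m ∉ F} : ℝ) ≤
      (Set.ncard {m : ℤ | |(m : ℝ)| ≤ X ∧ ∀ k : ℕ, (T d)^[k] m ∉ F} : ℝ) := by
    have : Set.ncard {m : ℤ | |(m : ℝ)| ≤ X ∧
        ∃ k : ℕ, (T d)^[k] m = a ∧ ∀ i ≤ k, (T d)^[i] m ∉ F} ≤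
        Set.ncard {m : ℤ | |(m : ℝ)| ≤ X ∧ ∀ k : ℕ, (T d)^[k] m ∉ F} := by
      refine Set.ncard_le_ncard ?_ hfin
      rintro n ⟨hn, k', hk', hni⟩
      refine ⟨hn, fun i => ?_⟩
      rcases le_total i k' with hi | hi
      · exact hni i hi
      · obtain ⟨e, rfl⟩ := Nat.exists_eq_add_of_le hi
        rw [add_comm k' e, Function.iterate_add_apply, hk', ha, ← Function.iterate_add_apply]
        exact (hF' (e + k)).1
    exact_mod_cast this
  have h3' : c * (X / (16 ^ F.card * (|(a : ℝ)| + |(d : ℝ)|))) = c₁ * X := by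
    rw [hc₁]
    ring
  rw [h3'] at h1
  have hX0 : 0 < X := lt_of_lt_of_le hpos hX
  have h4 : c₁ * X ≤ c₁ / 2 * X := h1.trans (h2.trans hXe)
  nlinarith [mul_pos hc₁0 hX0]

end Pool.Agent.Lib.MP_d0d59f_nt.PD

end
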