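import Mathlib
import Pool.Agent.Lib.MP_d0d59f_nt.NK.K031
import Pool.Agent.Lib.MP_d0d59f_nt.NK.K040

namespace Pool.Agent.Lib.MP_d0d59f_nt.AA
end Pool.Agent.Lib.MP_d0d59f_nt.AA

/-! Positive density or logarithmic growth, for invariant sets. -/

namespace Pool.Agent.Lib.MP_d0d59f_nt.ND

open Finset AA Filter Topology

private theorem back {d : ℤ} {b : ℝ} {S : Set ℤ} (hS : Inv d b S) {B : ℤ}
    (hbB : b ≤ B) (hdB : |d| ≤ B) {a : ℤ} (ha : B < a) (haS : a ∈ S) (k : ℕ) :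
    ∀ m : ℤ, (T d)^[k] m = a → (∀ i ≤ k, (T d)^[i] m ∉ Finset.Icc (-B) B) → B < m ∧ m ∈ S := by
  induction k with
  | zero =>
    intro m hm _
    have : m = a := hm
    subst this
    exact ⟨ha, haS⟩
  | succ k ih =>
    intro m hm hF
    obtain ⟨h1, h2⟩ := ih (T d m) (by rw [← Function.iterate_succ_apply]; exact hm)
      (fun i hi => by rw [← Function.iterate_succ_apply]; exact hF (i + 1) (by omega))
    have h0 := hF 0 (by omega)
    simp only [Function.iterate_zero, id_eq, Finset.mem_Icc, not_and, not_le] at h0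
    have hmB : B < m := by
      by_contra hcon
      push Not at hcon
      have h4 : m < -B := by
        by_contra h5
        push Not at h5
        exact absurd (h0 h5) (not_lt.2 hcon)
      have h5 := le_abs_self d
      have h7 := abs_nonneg d
      unfold T at h1
      split_ifs at h1 <;> omega
    refine ⟨hmB, (hS m ?_).2 h2⟩
    have h6 : (B : ℝ) < (m : ℝ) := by exact_mod_cast hmB
    exact lt_of_le_of_lt hbB (lt_of_lt_of_le h6 (le_abs_self _))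

theorem ac_lower {d : ℤ} (hd : Odd d) (h3 : ¬ (3 : ℤ) ∣ d) {b : ℝ} {S : Set ℤ} (hS : Inv d b S)
    {B : ℤ} (hbB : b ≤ B) (hdB : |d| ≤ B) {a : ℤ} (ha : B < a) (ha3 : ¬ (3 : ℤ) ∣ a)
    (haS : a ∈ S) :
    ∃ c : ℝ, 0 < c ∧ ∀ Z : ℝ, 2 * (|(a : ℝ)| + |(d : ℝ)|) ≤ Z → c * Z ≤ ac S Z := by
  obtain ⟨c0, hc0, hcut⟩ := PD.density_cut
  have hB0 : 0 ≤ B := (abs_nonneg d).trans hdB
  have ha0 : 0 < a := lt_of_le_of_lt hB0 ha
  have haR : (0 : ℝ) < a := by exact_mod_cast ha0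
  have hsum : 0 < |(a : ℝ)| + |(d : ℝ)| := by
    have := abs_nonneg (d : ℝ)
    have := abs_pos.2 haR.ne'
    linarith
  set F : Finset ℤ := Finset.Icc (-B) B with hF
  have hFa : ∀ j : ℕ, 2 ^ j * a ∉ F := by
    intro j hj
    rw [hF, Finset.mem_Icc] at hj
    have : (1 : ℤ) ≤ 2 ^ j := one_le_pow₀ (by norm_num)
    nlinarith
  refine ⟨c0 / (2 * (16 ^ F.card * (|(a : ℝ)| + |(d : ℝ)|))), by positivity, fun Z hZ => ?_⟩
  have h1 := hcut d a hd h3 ha3 F hFa (Z / 2) (by linarith)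
  have hZ0 : 0 < Z := by linarith
  have h2 : (Set.ncard {m : ℤ | |(m : ℝ)| ≤ Z / 2 ∧
      ∃ k : ℕ, (T d)^[k] m = a ∧ ∀ i ≤ k, (T d)^[i] m ∉ F} : ℝ) ≤ ac S Z := by
    have hfin : {x : ℤ | 1 ≤ x ∧ (x : ℝ) < Z ∧ x ∈ S}.Finite := by
      refine (Set.finite_Icc (1 : ℤ) ⌈Z⌉).subset ?_
      rintro x ⟨hx1, hx2, _⟩
      exact ⟨hx1, by exact_mod_cast hx2.le.trans (Int.le_ceil Z)⟩
    have hsub : {m : ℤ | |(m : ℝ)| ≤ Z / 2 ∧
        ∃ k : ℕ, (T d)^[k] m = a ∧ ∀ i ≤ k, (T d)^[i] m ∉ F} ⊆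
        {x : ℤ | 1 ≤ x ∧ (x : ℝ) < Z ∧ x ∈ S} := by
      rintro m ⟨hm1, k, hk, hi⟩
      obtain ⟨h4, h5⟩ := back hS hbB hdB ha haS k m hk hi
      refine ⟨by omega, ?_, h5⟩
      have := le_abs_self (m : ℝ)
      linarith
    exact_mod_cast Set.ncard_le_ncard hsub hfin
  refine le_trans (le_of_eq ?_) (h1.trans h2)
  field_simp

private theorem ac_log_aux {d : ℤ} (h3 : ¬ (3 : ℤ) ∣ d) {b : ℝ} {S : Set ℤ}
    (hS : Inv d b S) {B : ℤ} (hbB : b ≤ B) (hdB : |d| ≤ B) (hd : Odd d)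
    (h : ∀ a ∈ S, B < a → (3 : ℤ) ∣ a) (n : ℕ) :
    ∀ x : ℤ, 1 ≤ x → x ≤ n → x ∈ S → ∃ (j : ℕ) (y : ℤ), 1 ≤ y ∧ y ≤ 3 * B ∧ x = 2 ^ j * y := by
  have hd1 : 1 ≤ |d| := by
    obtain ⟨k, rfl⟩ := hd
    exact Int.one_le_abs (by omega)
  induction n with
  | zero => intro x h1 h2; omega
  | succ n ih =>
    intro x hx1 hx2 hxS
    rcases le_or_gt x (3 * B) with hx | hx
    · exact ⟨0, x, hx1, hx, by simp⟩
    · have hxB : B < x := by omega
      have hb : b < |(x : ℝ)| := by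
        have h6 : (B : ℝ) < (x : ℝ) := by exact_mod_cast hxB
        exact lt_of_le_of_lt hbB (lt_of_lt_of_le h6 (le_abs_self _))
      have hT := (hS x hb).1 hxS
      have hneg := neg_abs_le d
      rcases Int.even_or_odd x with he | ho
      · obtain ⟨y, hy⟩ := he
        have hTy : T d x = y := by
          unfold T
          rw [if_pos (by omega)]
          omega
        rw [hTy] at hT
        obtain ⟨j, z, hz1, hz2, hz⟩ := ih y (by omega) (by push_cast at hx2; omega) hT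
        refine ⟨j + 1, z, hz1, hz2, ?_⟩
        rw [hy, hz, pow_succ]
        ring
      · exfalso
        have h2T : 2 * T d x = 3 * x + d := by
          obtain ⟨u, hu⟩ := ho
          obtain ⟨v, hv⟩ := hd
          unfold T
          rw [if_neg (by omega)]
          omega
        have h5 : B < T d x := by omega
        obtain ⟨w, hw⟩ := h _ hT h5
        exact h3 ⟨2 * w - x, by omega⟩

theorem ac_log {d : ℤ} (hd : Odd d) (h3 : ¬ (3 : ℤ) ∣ d) {b : ℝ} {S : Set ℤ}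
    (hS : Inv d b S) {B : ℤ} (hbB : b ≤ B) (hdB : |d| ≤ B)
    (h : ∀ a ∈ S, B < a → (3 : ℤ) ∣ a) :
    ∃ C : ℝ, 0 ≤ C ∧ ∀ X : ℝ, 2 ≤ X → (ac S X : ℝ) ≤ C * Real.log X := by
  have hB0 : 0 ≤ B := (abs_nonneg d).trans hdB
  have hl2 : 0 < Real.log 2 := Real.log_pos (by norm_num)
  refine ⟨6 * B / Real.log 2, by positivity, fun X hX => ?_⟩
  have hX0 : 0 < X := by linarith
  have hlX : Real.log 2 ≤ Real.log X := Real.log_le_log (by norm_num) hX
  set J : ℕ := ⌊Real.log X / Real.log 2⌋₊ + 1 with hJ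
  have hsub : {x : ℤ | 1 ≤ x ∧ (x : ℝ) < X ∧ x ∈ S} ⊆
      ((((Finset.range J) ×ˢ (Finset.Icc (1 : ℤ) (3 * B))).image
        (fun p : ℕ × ℤ => 2 ^ p.1 * p.2) : Finset ℤ) : Set ℤ) := by
    rintro x ⟨hx1, hx2, hxS⟩
    obtain ⟨j, y, hy1, hy2, hxy⟩ := ac_log_aux h3 hS hbB hdB hd h x.toNat x hx1
      (by rw [Int.toNat_of_nonneg (by omega)]) hxS
    rw [Finset.coe_image, Set.mem_image]
    refine ⟨(j, y), ?_, hxy.symm⟩
    rw [Finset.mem_coe, Finset.mem_product, Finset.mem_range, Finset.mem_Icc]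
    refine ⟨?_, hy1, hy2⟩
    have h1 : (2 : ℝ) ^ j < X := by
      refine lt_of_le_of_lt ?_ hx2
      rw [hxy]
      push_cast
      have : (1 : ℝ) ≤ (y : ℝ) := by exact_mod_cast hy1
      have h2 : (0 : ℝ) < 2 ^ j := by positivity
      nlinarith
    have h2 : (j : ℝ) ≤ Real.log X / Real.log 2 := by
      rw [le_div_iff₀ hl2, ← Real.log_pow]
      exact Real.log_le_log (by positivity) h1.le
    have h4 : j ≤ ⌊Real.log X / Real.log 2⌋₊ := Nat.le_floor h2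
    change j < J
    omega
  have h1 : ac S X ≤ J * (3 * B).toNat := by
    unfold ac
    refine (Set.ncard_le_ncard hsub (Finset.finite_toSet _)).trans ?_
    rw [Set.ncard_coe_finset]
    refine Finset.card_image_le.trans ?_
    rw [Finset.card_product, Finset.card_range, Int.card_Icc]
    apply le_of_eq
    congr 2
    ring
  have h2 : (J : ℝ) ≤ 2 * (Real.log X / Real.log 2) := by
    have h5 : (1 : ℝ) ≤ Real.log X / Real.log 2 := by
      rw [le_div_iff₀ hl2]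
      linarith
    have h6 := Nat.floor_le (by linarith : (0 : ℝ) ≤ Real.log X / Real.log 2)
    rw [hJ]
    push_cast
    linarith
  have h4 : (((3 * B).toNat : ℕ) : ℝ) = 3 * B := by
    have : (((3 * B).toNat : ℕ) : ℤ) = 3 * B := Int.toNat_of_nonneg (by omega)
    exact_mod_cast this
  have hBR : (0 : ℝ) ≤ B := by exact_mod_cast hB0
  calc (ac S X : ℝ) ≤ (J : ℝ) * (3 * B) := by
        rw [← h4]
        exact_mod_cast h1
    _ ≤ 2 * (Real.log X / Real.log 2) * (3 * B) :=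
        mul_le_mul_of_nonneg_right h2 (by positivity)
    _ = 6 * B / Real.log 2 * Real.log X := by ring

/-- Natural density; if it is zero the set grows at most logarithmically. -/
theorem main_log {d : ℤ} (hd : Odd d) (h3 : ¬ (3 : ℤ) ∣ d) {b : ℝ} {S : Set ℤ}
    (hS : Inv d b S) : ∃ α : ℝ, 0 ≤ α ∧
      Tendsto (fun Z : ℝ => (ac S Z : ℝ) / Z) atTop (𝓝 α) ∧
      (α = 0 → ∃ C : ℝ, 0 ≤ C ∧ ∀ Z : ℝ, 2 ≤ Z → (ac S Z : ℝ) ≤ C * Real.log Z) := by
  obtain ⟨α, hα0, _, hα, _⟩ := main_pos hd h3 hS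
  refine ⟨α, hα0, hα, fun h0 => ?_⟩
  set B : ℤ := max ⌈b⌉ |d| with hB
  have hbB : b ≤ (B : ℝ) := (Int.le_ceil b).trans (by exact_mod_cast le_max_left _ _)
  have hdB : |d| ≤ B := le_max_right _ _
  by_cases h : ∀ a ∈ S, B < a → (3 : ℤ) ∣ a
  · exact ac_log hd h3 hS hbB hdB h
  · exfalso
    push Not at h
    obtain ⟨a, haS, haB, ha3⟩ := h
    obtain ⟨c, hc, hlow⟩ := ac_lower hd h3 hS hbB hdB haB ha3 haS
    have h1 : c ≤ α := by
      refine ge_of_tendsto hα ?_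
      filter_upwards [eventually_ge_atTop (2 * (|(a : ℝ)| + |(d : ℝ)|)),
        eventually_gt_atTop (0 : ℝ)] with Z hZ hZ0
      rw [le_div_iff₀ hZ0]
      exact hlow Z hZ
    rw [h0] at h1
    linarith

end Pool.Agent.Lib.MP_d0d59f_nt.ND
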