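import Mathlib
import Pool.Agent.Lib.MP_d0d59f_nt.NK.K031
import Pool.Agent.Lib.MP_d0d59f_nt.NK.K032
import Pool.Agent.Lib.MP_d0d59f_nt.NK.K040

namespace Pool.Agent.Lib.MP_d0d59f_nt.AA
end Pool.Agent.Lib.MP_d0d59f_nt.AA

section

/-! Row nd-F6 (about 130 lines): the grand orbits. -/

namespace Pool.Agent.Lib.MP_d0d59f_nt.ND

open Finset AA Filter Topology

/-- A grand orbit (an equivalence class of `grand d`) is invariant, without exception. -/
theorem inv_grand (d : ℤ) (G : Quotient (grand d)) (b : ℝ) :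
    Inv d b {x | (Quotient.mk (grand d) x) = G} := by
  intro x _
  have h : Quotient.mk (grand d) (T d x) = Quotient.mk (grand d) x := by
    apply Quotient.sound
    exact ⟨0, 1, rfl⟩
  rw [Set.mem_ofPred_eq, Set.mem_ofPred_eq, h]

private theorem ac_eq_card_aux (S : Set ℤ) (Z : ℝ) [DecidablePred fun x : ℤ => (x : ℝ) < Z ∧ x ∈ S] :
    ac S Z = ((Finset.Icc (1 : ℤ) ⌈Z⌉).filter fun x : ℤ => (x : ℝ) < Z ∧ x ∈ S).card := by
  unfold ac
  rw [← Set.ncard_coe_finset]
  congr 1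
  ext x
  simp only [Set.mem_ofPred_eq, Finset.coe_filter, Finset.mem_Icc]
  constructor
  · rintro ⟨h1, h2, h3⟩
    exact ⟨⟨h1, by exact_mod_cast h2.le.trans (Int.le_ceil Z)⟩, h2, h3⟩
  · rintro ⟨⟨h1, -⟩, h2, h3⟩
    exact ⟨h1, h2, h3⟩

private theorem ac_mono_aux {S S' : Set ℤ} (h : S ⊆ S') (Z : ℝ) : ac S Z ≤ ac S' Z := by
  classical
  rw [ac_eq_card_aux, ac_eq_card_aux]
  apply Finset.card_le_card
  intro x hx
  rw [Finset.mem_filter] at hx ⊢
  exact ⟨hx.1, hx.2.1, h hx.2.2⟩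

private theorem ac_sum_aux (d : ℤ) (Γ : Finset (Quotient (grand d))) (Z : ℝ) :
    ∑ G ∈ Γ, ac {x | (Quotient.mk (grand d) x) = G} Z =
      ac {x | (Quotient.mk (grand d) x) ∈ Γ} Z := by
  classical
  rw [ac_eq_card_aux]
  rw [Finset.card_eq_sum_card_fiberwise (f := fun x => Quotient.mk (grand d) x) (t := Γ)]
  · apply Finset.sum_congr rfl
    intro G hG
    rw [ac_eq_card_aux, Finset.filter_filter]
    congr 1
    ext x
    simp only [Finset.mem_filter, Set.mem_ofPred_eq]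
    constructor
    · rintro ⟨h1, h2, h3⟩
      exact ⟨h1, ⟨h2, by rw [h3]; exact hG⟩, h3⟩
    · rintro ⟨h1, ⟨h2, -⟩, h3⟩
      exact ⟨h1, h2, h3⟩
  · intro x hx
    have := (Finset.mem_filter.mp hx).2.2
    exact this

/-- The natural densities of the grand orbits exist and have sum one. PROOF: `δ G` from `main_pos`. For a finite set `Γ` of classes the sets are disjoint,
so `∑_{G ∈ Γ} ac(G) ≤ ac(univ) ≤ Z` and `∑_{G ∈ Γ} δ G ≤ 1`; for `ε > 0` let `F` be as in `tight` and `Γ = image of F`: the set of `x` whose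
orbit meets `F` is contained in the union of the classes of `Γ`, so `∑_{G ∈ Γ} δ G ≥ 1 - ε`. Hence `HasSum δ 1` (nonnegative terms;
`hasSum_of_isLUB_of_nonneg`). -/
theorem grand_pos {d : ℤ} (hd : Odd d) (h3 : ¬ (3 : ℤ) ∣ d) :
    ∃ δ : Quotient (grand d) → ℝ,
      (∀ G, Tendsto (fun Z : ℝ => (ac {x | (Quotient.mk (grand d) x) = G} Z : ℝ) / Z) atTop (𝓝 (δ G))) ∧
      HasSum δ 1 := by
  classical
  choose δ hδ0 hδ1 hδ hδz using fun G : Quotient (grand d) => main_pos hd h3 (inv_grand d G 0)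
  refine ⟨δ, hδ, ?_⟩
  have hlim : ∀ Γ : Finset (Quotient (grand d)),
      Tendsto (fun Z : ℝ => (ac {x | (Quotient.mk (grand d) x) ∈ Γ} Z : ℝ) / Z) atTop
        (𝓝 (∑ G ∈ Γ, δ G)) := by
    intro Γ
    have h := tendsto_finsetSum Γ (fun G _ => hδ G)
    refine h.congr fun Z => ?_
    rw [← ac_sum_aux, Nat.cast_sum, Finset.sum_div]
  apply hasSum_of_isLUB_of_nonneg _ hδ0
  constructor
  · rintro _ ⟨Γ, rfl⟩
    refine le_of_tendsto (hlim Γ) ?_
    filter_upwards [eventually_ge_atTop (1 : ℝ)] with Z hZ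
    rw [div_le_one (by linarith)]
    exact ac_le _ hZ
  · intro c hc
    by_contra hlt
    push Not at hlt
    obtain ⟨F, hF, -⟩ := tight hd h3 ((1 - c) / 2) (by linarith)
    have h1 := hc ⟨F.image (fun x => Quotient.mk (grand d) x), rfl⟩
    have h2 : 1 - (1 - c) / 2 ≤ ∑ G ∈ F.image (fun x => Quotient.mk (grand d) x), δ G := by
      refine ge_of_tendsto (hlim _) ?_
      filter_upwards [hF, eventually_ge_atTop (1 : ℝ)] with Z h hZ
      refine h.trans ?_
      apply div_le_div_of_nonneg_right _ (by linarith)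
      have h4 : ac {x | ∃ k : ℕ, (T d)^[k] x ∈ F} Z ≤
          ac {x | (Quotient.mk (grand d) x) ∈ F.image (fun x => Quotient.mk (grand d) x)} Z := by
        apply ac_mono_aux
        rintro x ⟨k, hk⟩
        rw [Set.mem_ofPred_eq, Finset.mem_image]
        exact ⟨_, hk, Quotient.sound ⟨0, k, rfl⟩⟩
      exact_mod_cast h4
    linarith

end Pool.Agent.Lib.MP_d0d59f_nt.ND

end

section

/-! The grand orbits: positive natural densities with sum one. -/

namespace Pool.Agent.Lib.MP_d0d59f_nt.ND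

open Finset AA Filter Topology

theorem T_iter_neg {d : ℤ} (hd : Odd d) (m : ℕ) (x : ℤ) :
    (T (-d))^[m] (-x) = -(T d)^[m] x := by
  induction m generalizing x with
  | zero => rfl
  | succ m ih => rw [Function.iterate_succ_apply, Function.iterate_succ_apply, T_neg hd, ih]

theorem grand_neg {d : ℤ} (hd : Odd d) (x y : ℤ) :
    (grand (-d)).r x y ↔ (grand d).r (-x) (-y) := by
  constructor
  · rintro ⟨m, n, h⟩
    refine ⟨m, n, ?_⟩
    have h1 := T_iter_neg hd m (-x)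
    have h2 := T_iter_neg hd n (-y)
    rw [neg_neg] at h1 h2
    rw [h1, h2] at h
    exact neg_injective h
  · rintro ⟨m, n, h⟩
    refine ⟨m, n, ?_⟩
    have h1 := T_iter_neg hd m (-x)
    have h2 := T_iter_neg hd n (-y)
    rw [neg_neg] at h1 h2
    rw [h1, h2, h]

/-- The negative side of `grand_pos`. -/
theorem grand_pos_neg {d : ℤ} (hd : Odd d) (h3 : ¬ (3 : ℤ) ∣ d) :
    ∃ δ : Quotient (grand d) → ℝ,
      (∀ G, Tendsto (fun Z : ℝ => (ac {x | (Quotient.mk (grand d) (-x)) = G} Z : ℝ) / Z) atTop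
        (𝓝 (δ G))) ∧ HasSum δ 1 := by
  have h3' : ¬ (3 : ℤ) ∣ -d := fun h => h3 ((dvd_neg).1 h)
  obtain ⟨δ, h1, h2⟩ := grand_pos hd.neg h3'
  let e : Quotient (grand d) ≃ Quotient (grand (-d)) :=
    Quotient.congr (Equiv.neg ℤ) fun x y => by
      rw [show (Equiv.neg ℤ) x = -x from rfl, show (Equiv.neg ℤ) y = -y from rfl]
      have := grand_neg hd (-x) (-y)
      rw [neg_neg, neg_neg] at this
      exact this.symm
  refine ⟨δ ∘ e, fun G => ?_, e.hasSum_iff.2 h2⟩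
  have h4 := h1 (e G)
  refine h4.congr fun X => ?_
  congr 3
  ext x
  simp only [Set.mem_ofPred_eq]
  induction G using Quotient.inductionOn with
  | h g =>
    rw [show e (Quotient.mk (grand d) g) = Quotient.mk (grand (-d)) (-g) from rfl]
    constructor
    · intro h
      have h5 := Quotient.exact h
      have h6 := (grand_neg hd x (-g)).1 h5
      rw [neg_neg] at h6
      exact Quotient.sound h6
    · intro h
      have h5 := Quotient.exact h
      apply Quotient.sound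
      refine (grand_neg hd x (-g)).2 ?_
      rw [neg_neg]
      exact h5

/-- Number of elements of `S` in `(-X, X)`. -/
noncomputable def tc (S : Set ℤ) (X : ℝ) : ℕ := Set.ncard {x : ℤ | |(x : ℝ)| < X ∧ x ∈ S}

private theorem fin_abs (S : Set ℤ) (X : ℝ) : {x : ℤ | |(x : ℝ)| < X ∧ x ∈ S}.Finite := by
  refine (Set.finite_Icc (-⌈X⌉) ⌈X⌉).subset ?_
  rintro x ⟨hx, _⟩
  rw [abs_lt] at hx
  have h := Int.le_ceil X
  constructor
  · have : (-⌈X⌉ : ℝ) ≤ x := by linarith [hx.1]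
    exact_mod_cast this
  · have : (x : ℝ) ≤ ⌈X⌉ := by linarith [hx.2]
    exact_mod_cast this

theorem tc_split (S : Set ℤ) {X : ℝ} (hX : 0 < X) : ∃ e : ℕ, e ≤ 1 ∧
    tc S X = ac S X + ac {x | -x ∈ S} X + e := by
  classical
  have hP : {x : ℤ | 1 ≤ x ∧ (x : ℝ) < X ∧ x ∈ S}.Finite :=
    (fin_abs S X).subset fun x hx => ⟨by
      have : (1 : ℝ) ≤ x := by exact_mod_cast hx.1
      rw [abs_of_pos (by linarith)]; exact hx.2.1, hx.2.2⟩
  set N : Set ℤ := {x : ℤ | x ≤ -1 ∧ -X < (x : ℝ) ∧ x ∈ S} with hN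
  have hNf : N.Finite := (fin_abs S X).subset fun x hx => ⟨by
      have : (x : ℝ) ≤ -1 := by exact_mod_cast hx.1
      rw [abs_of_neg (by linarith)]; linarith [hx.2.1], hx.2.2⟩
  have hNc : N.ncard = ac {x | -x ∈ S} X := by
    unfold ac
    have : N = (fun x : ℤ => -x) '' {x : ℤ | 1 ≤ x ∧ (x : ℝ) < X ∧ x ∈ {x | -x ∈ S}} := by
      ext x
      simp only [hN, Set.mem_image, Set.mem_ofPred_eq]
      constructor
      · rintro ⟨h1, h2, h3⟩
        exact ⟨-x, ⟨by omega, by push_cast; linarith, by rw [neg_neg]; exact h3⟩, neg_neg x⟩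
      · rintro ⟨y, ⟨h1, h2, h3⟩, rfl⟩
        exact ⟨by omega, by push_cast; linarith, h3⟩
    rw [this, Set.ncard_image_of_injective _ neg_injective]
  set O : Set ℤ := {x : ℤ | x = 0 ∧ x ∈ S} with hO
  have hOf : O.Finite := (Set.finite_singleton (0 : ℤ)).subset fun x hx => hx.1
  have hOc : O.ncard ≤ 1 := by
    have := Set.ncard_le_ncard (s := O) (t := {0}) (fun x hx => hx.1) (Set.finite_singleton _)
    rwa [Set.ncard_singleton] at this
  refine ⟨O.ncard, hOc, ?_⟩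
  have hU : {x : ℤ | |(x : ℝ)| < X ∧ x ∈ S} =
      ({x : ℤ | 1 ≤ x ∧ (x : ℝ) < X ∧ x ∈ S} ∪ N) ∪ O := by
    ext x
    simp only [hN, hO, Set.mem_union, Set.mem_ofPred_eq]
    constructor
    · rintro ⟨h1, h2⟩
      rw [abs_lt] at h1
      rcases lt_trichotomy x 0 with h | h | h
      · exact Or.inl (Or.inr ⟨by omega, h1.1, h2⟩)
      · exact Or.inr ⟨h, h2⟩
      · exact Or.inl (Or.inl ⟨by omega, h1.2, h2⟩)
    · rintro ((⟨h1, h2, h3⟩ | ⟨h1, h2, h3⟩) | ⟨h1, h2⟩)
      · refine ⟨?_, h3⟩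
        have : (1 : ℝ) ≤ x := by exact_mod_cast h1
        rw [abs_of_pos (by linarith)]
        exact h2
      · refine ⟨?_, h3⟩
        have : (x : ℝ) ≤ -1 := by exact_mod_cast h1
        rw [abs_of_neg (by linarith)]
        linarith
      · subst h1
        exact ⟨by simpa using hX, h2⟩
  unfold tc
  rw [hU, Set.ncard_union_eq _ (hP.union hNf) hOf, Set.ncard_union_eq _ hP hNf, hNc]
  · rfl
  · rw [Set.disjoint_left]
    rintro x h1 h2
    have a1 : 1 ≤ x := h1.1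
    have a2 : x ≤ -1 := h2.1
    omega
  · rw [Set.disjoint_left]
    rintro x h1 h2
    have a3 : x = 0 := h2.1
    rcases h1 with h1 | h1
    · have a1 : 1 ≤ x := h1.1
      omega
    · have a2 : x ≤ -1 := h1.1
      omega

theorem tc_tendsto {S : Set ℤ} {α β : ℝ}
    (h1 : Tendsto (fun Z : ℝ => (ac S Z : ℝ) / Z) atTop (𝓝 α))
    (h2 : Tendsto (fun Z : ℝ => (ac {x | -x ∈ S} Z : ℝ) / Z) atTop (𝓝 β)) :
    Tendsto (fun Z : ℝ => (tc S Z : ℝ) / (2 * Z)) atTop (𝓝 ((α + β) / 2)) := by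
  have h3 := (h1.add h2).div_const 2
  have h4 : Tendsto (fun Z : ℝ => (1 : ℝ) / Z) atTop (𝓝 0) := by
    simpa using tendsto_inv_atTop_zero (𝕜 := ℝ)
  have h5 := h3.add h4
  rw [add_zero] at h5
  refine tendsto_of_tendsto_of_tendsto_of_le_of_le' h3 h5 ?_ ?_
  · filter_upwards [eventually_gt_atTop (0 : ℝ)] with Z hZ
    obtain ⟨e, he, hs⟩ := tc_split S hZ
    rw [hs]
    push_cast
    have he0 : (0 : ℝ) ≤ e := Nat.cast_nonneg e
    rw [← add_div, div_div, mul_comm Z 2]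
    exact div_le_div_of_nonneg_right (by linarith) (by linarith)
  · filter_upwards [eventually_gt_atTop (0 : ℝ)] with Z hZ
    obtain ⟨e, he, hs⟩ := tc_split S hZ
    rw [hs]
    push_cast
    have he1 : (e : ℝ) ≤ 1 := by exact_mod_cast he
    have he2 : (0 : ℝ) ≤ e := Nat.cast_nonneg e
    have e1 : ((ac S Z : ℝ) / Z + (ac {x | -x ∈ S} Z : ℝ) / Z) / 2 + 1 / Z =
        ((ac S Z : ℝ) + ac {x | -x ∈ S} Z + 2) / (2 * Z) := by
      field_simp
    rw [e1]
    exact div_le_div_of_nonneg_right (by linarith) (by linarith)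

/-- The grand orbits have natural densities, positive except for `{0}`, with sum one. -/
theorem grand_two {d : ℤ} (hd : Odd d) (h3 : ¬ (3 : ℤ) ∣ d) :
    ∃ δ : Quotient (grand d) → ℝ,
      (∀ G, Tendsto (fun X : ℝ => (tc {x | (Quotient.mk (grand d) x) = G} X : ℝ) / (2 * X)) atTop
        (𝓝 (δ G))) ∧
      (∀ G, G ≠ Quotient.mk (grand d) 0 → 0 < δ G) ∧ HasSum δ 1 := by
  obtain ⟨δ1, h1, h1'⟩ := grand_pos hd h3
  obtain ⟨δ2, h2, h2'⟩ := grand_pos_neg hd h3
  have hlim : ∀ G, Tendsto (fun X : ℝ => (tc {x | (Quotient.mk (grand d) x) = G} X : ℝ) / (2 * X))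
      atTop (𝓝 ((δ1 G + δ2 G) / 2)) := fun G => tc_tendsto (h1 G) (h2 G)
  refine ⟨fun G => (δ1 G + δ2 G) / 2, hlim, fun G hG => ?_, ?_⟩
  · obtain ⟨g, rfl⟩ := Quotient.exists_rep G
    have hg : ∀ k, (T d)^[k] g ≠ 0 := fun k hk => hG (Quotient.sound ⟨k, 0, hk⟩)
    obtain ⟨k, _, hk3⟩ := PD.exists_odd_unit hd h3 hg
    obtain ⟨c, hc, hdens⟩ := PD.density
    set a : ℤ := (T d)^[k] g with ha
    have hsum : 0 < |(a : ℝ)| + |(d : ℝ)| := by
      have : (a : ℝ) ≠ 0 := by exact_mod_cast hg k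
      have := abs_pos.2 this
      have := abs_nonneg (d : ℝ)
      linarith
    have hpos : 0 < c / (4 * (|(a : ℝ)| + |(d : ℝ)|)) := by positivity
    refine lt_of_lt_of_le hpos (ge_of_tendsto (hlim _) ?_)
    filter_upwards [eventually_ge_atTop (2 * (|(a : ℝ)| + |(d : ℝ)|)),
      eventually_gt_atTop (0 : ℝ)] with X hX hX0
    rw [le_div_iff₀ (by linarith)]
    have h5 := hdens d a hd h3 hk3 (X / 2) (by linarith)
    have h6 : (Set.ncard {m : ℤ | |(m : ℝ)| ≤ X / 2 ∧ ∃ k : ℕ, (T d)^[k] m = a} : ℝ) ≤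
        tc {x | (Quotient.mk (grand d) x) = Quotient.mk (grand d) g} X := by
      have hsub : {m : ℤ | |(m : ℝ)| ≤ X / 2 ∧ ∃ k : ℕ, (T d)^[k] m = a} ⊆
          {x : ℤ | |(x : ℝ)| < X ∧
            x ∈ {x | (Quotient.mk (grand d) x) = Quotient.mk (grand d) g}} := by
        rintro m ⟨hm1, j, hj⟩
        refine ⟨by linarith, ?_⟩
        exact Quotient.sound ⟨j, k, by rw [hj]⟩
      unfold tc
      exact_mod_cast Set.ncard_le_ncard hsub (fin_abs _ X)
    refine le_trans (le_of_eq ?_) (h5.trans h6)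
    field_simp
    ring
  · have := (h1'.add h2').div_const 2
    simpa using this

end Pool.Agent.Lib.MP_d0d59f_nt.ND

end
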