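import Mathlib
import Pool.Agent.Lib.MP_d0d59f_nt.NK.K020

namespace Pool.Agent.Lib.MP_d0d59f_nt.AA
end Pool.Agent.Lib.MP_d0d59f_nt.AA

/-! Quantitative translation invariance and equidistribution of invariant sets. -/

namespace Pool.Agent.Lib.MP_d0d59f_nt.ND

open Finset AA Filter Topology

/-- The rate `log (log X + 2) / sqrt (log X)`. -/
noncomputable def rr (X : ℝ) : ℝ := Real.log (Real.log X + 2) / Real.sqrt (Real.log X)

/-- Local coalescence. -/
def LCQ (d : ℤ) (C : ℝ) : Prop := ∀ (h : ℤ) (m : ℕ), 1 ≤ m → ∀ a : ℤ,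
  (Set.ncard {z : ℤ | a ≤ z ∧ z < a + 2 ^ m ∧ ∀ j ≤ m, (T d)^[j] z ≠ (T d)^[j] (z + d * h)} : ℝ) ≤
    C * Real.log (|(h : ℝ)| + 2) * Real.log (m + 2) / Real.sqrt m * 2 ^ m

theorem log_ge_half {X : ℝ} (hX : 2 ≤ X) : (1 / 2 : ℝ) ≤ Real.log X := by
  have h1 := Real.log_le_log (by norm_num) hX
  have h2 := Real.log_two_gt_d9
  linarith

theorem rr_ge {X : ℝ} (hX : 2 ≤ X) : 1 / 2 / Real.sqrt (Real.log X) ≤ rr X := by
  unfold rr
  have h1 := log_ge_half hX
  refine div_le_div_of_nonneg_right (log_ge_half (by linarith)) (Real.sqrt_nonneg _)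

theorem rr_pos {X : ℝ} (hX : 2 ≤ X) : 0 < rr X := by
  refine lt_of_lt_of_le ?_ (rr_ge hX)
  have h1 := log_ge_half hX
  have : 0 < Real.sqrt (Real.log X) := Real.sqrt_pos.2 (by linarith)
  positivity

theorem sqrt_log_le {X : ℝ} (hX : 2 ≤ X) : Real.sqrt (Real.log X) ≤ 2 * X ^ (1 / 4 : ℝ) := by
  have hX0 : 0 < X := by linarith
  have h1 : Real.log X ≤ 4 * X ^ (1 / 2 : ℝ) := by
    have h2 := Real.log_le_sub_one_of_pos (Real.rpow_pos_of_pos hX0 (1 / 2 : ℝ))
    rw [Real.log_rpow hX0] at h2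
    have h3 := Real.rpow_pos_of_pos hX0 (1 / 2 : ℝ)
    linarith
  have h4 : (2 * X ^ (1 / 4 : ℝ)) ^ 2 = 4 * X ^ (1 / 2 : ℝ) := by
    rw [mul_pow, ← Real.rpow_natCast (X ^ (1 / 4 : ℝ)) 2, ← Real.rpow_mul hX0.le]
    norm_num
  rw [← Real.sqrt_sq (by positivity : 0 ≤ 2 * X ^ (1 / 4 : ℝ)), h4]
  exact Real.sqrt_le_sqrt h1

theorem rpow_log_le {X : ℝ} (hX : 2 ≤ X) {a : ℝ} (ha : 1 / 4 ≤ a) : X ^ (-a) ≤ 4 * rr X := by
  have hX1 : 1 ≤ X := by linarith
  have hX0 : 0 < X := by linarith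
  have hlog := log_ge_half hX
  have hs : 0 < Real.sqrt (Real.log X) := Real.sqrt_pos.2 (by linarith)
  calc X ^ (-a) ≤ X ^ (-(1 / 4 : ℝ)) := Real.rpow_le_rpow_of_exponent_le hX1 (by linarith)
    _ ≤ 2 / Real.sqrt (Real.log X) := by
      rw [le_div_iff₀ hs]
      calc X ^ (-(1 / 4 : ℝ)) * Real.sqrt (Real.log X) ≤ X ^ (-(1 / 4 : ℝ)) * (2 * X ^ (1 / 4 : ℝ)) :=
            mul_le_mul_of_nonneg_left (sqrt_log_le hX) (by positivity)
        _ = 2 * (X ^ (-(1 / 4 : ℝ)) * X ^ (1 / 4 : ℝ)) := by ring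
        _ = 2 := by rw [← Real.rpow_add hX0]; norm_num
    _ = 4 * (1 / 2 / Real.sqrt (Real.log X)) := by ring
    _ ≤ 4 * rr X := by linarith [rr_ge hX]

/-- If `L ≥ c log X` then `L rr X` is bounded below. -/
theorem big_log {X L c : ℝ} (hX : 2 ≤ X) (hL : Real.log X ≤ c * L) :
    1 ≤ 4 * c * L * rr X := by
  have hlog := log_ge_half hX
  have hs : 0 < Real.sqrt (Real.log X) := Real.sqrt_pos.2 (by linarith)
  have h1 : (1 / 2 : ℝ) ≤ Real.sqrt (Real.log X) := by
    refine Real.le_sqrt_of_sq_le (by linarith)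
  have h2 := rr_ge hX
  have h3 : Real.log X * (1 / 2 / Real.sqrt (Real.log X)) = 1 / 2 * Real.sqrt (Real.log X) := by
    have : Real.log X = Real.sqrt (Real.log X) * Real.sqrt (Real.log X) :=
      (Real.mul_self_sqrt (by linarith)).symm
    nth_rewrite 1 [this]
    field_simp
  have h4 : Real.log X * (1 / 2 / Real.sqrt (Real.log X)) ≤ Real.log X * rr X :=
    mul_le_mul_of_nonneg_left h2 (by linarith)
  have h5 : Real.log X * rr X ≤ c * L * rr X := mul_le_mul_of_nonneg_right hL (rr_pos hX).le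
  linarith

/-- Quantitative invariance under the translation by `d h`. -/
theorem xc_quant {d : ℤ} (hd : Odd d) {C : ℝ} (hC : 0 ≤ C) (hLC : LCQ d C) {b : ℝ} (hb : 0 ≤ b) :
    ∃ C' : ℝ, 0 ≤ C' ∧ ∀ S : Set ℤ, Inv d b S → ∀ h : ℤ, h ≠ 0 → ∀ X : ℝ, 2 ≤ X →
      (xc S (d * h) X : ℝ) ≤ C' * Real.log (2 + |(h : ℝ)|) * rr X * X := by
  have hd0 : 0 ≤ |(d : ℝ)| := abs_nonneg _
  obtain ⟨D, hD⟩ : ∃ D : ℝ, D = b + |(d : ℝ)| + 1 := ⟨_, rfl⟩
  have hD1 : 1 ≤ D := by rw [hD]; linarith
  refine ⟨16 + 4 * D + 4 * C, by positivity, fun S hS h hh X hX => ?_⟩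
  obtain ⟨L, hL⟩ : ∃ L : ℝ, L = Real.log (2 + |(h : ℝ)|) := ⟨_, rfl⟩
  have hL1 : 1 ≤ L := hL ▸ log_h_ge hh
  have hX0 : 0 < X := by linarith
  have hlog : 0 < Real.log X := Real.log_pos (by linarith)
  obtain ⟨R, hR⟩ : ∃ R : ℝ, R = rr X := ⟨_, rfl⟩
  have hR0 : 0 < R := hR ▸ rr_pos hX
  have htriv := xc_le S (d * h) (by linarith : (1 : ℝ) ≤ X)
  have hh0 : 0 ≤ |(h : ℝ)| := abs_nonneg _
  rw [← hL, ← hR]
  rcases lt_or_ge X 4 with hX4 | hX4
  · -- small `X`
    have h1 : Real.log X ≤ 2 * L := by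
      have h2 : Real.log X ≤ Real.log (2 ^ 2) := Real.log_le_log hX0 (by linarith)
      rw [Real.log_pow] at h2
      have h3 := Real.log_two_lt_d9
      push_cast at h2
      linarith
    have h4 := big_log hX h1
    rw [← hR] at h4
    have h5 : 0 < L * R := by positivity
    calc (xc S (d * h) X : ℝ) ≤ 1 * X := by linarith
      _ ≤ (16 + 4 * D + 4 * C) * L * R * X := by
        refine mul_le_mul_of_nonneg_right ?_ hX0.le
        nlinarith
  rcases lt_or_ge (X ^ (1 / 4 : ℝ)) (1 + |(h : ℝ)|) with hbig | hsmall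
  · -- large `h`
    have h1 : Real.log X ≤ 4 * L := by
      have h2 : Real.log (X ^ (1 / 4 : ℝ)) ≤ L := by
        rw [hL]
        exact Real.log_le_log (by positivity) (by linarith)
      rw [Real.log_rpow hX0] at h2
      linarith
    have h4 := big_log hX h1
    rw [← hR] at h4
    have h5 : 0 < L * R := by positivity
    calc (xc S (d * h) X : ℝ) ≤ 1 * X := by linarith
      _ ≤ (16 + 4 * D + 4 * C) * L * R * X := by
        refine mul_le_mul_of_nonneg_right ?_ hX0.le
        nlinarith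
  · -- main case
    obtain ⟨s, hs⟩ : ∃ s : ℝ, s = Real.sqrt X := ⟨_, rfl⟩
    have hs2 : 2 ≤ s := by
      rw [hs]
      refine Real.le_sqrt_of_sq_le (by linarith)
    obtain ⟨m, hm1, hm2⟩ := exists_nat_pow_near (by linarith : (1 : ℝ) ≤ s) (by norm_num : (1 : ℝ) < 2)
    have hm : 1 ≤ m := by
      by_contra hcon
      have : m = 0 := by omega
      rw [this] at hm2
      norm_num at hm2
      linarith
    have hsX : s ≤ X := by
      rw [hs]
      have := Real.sqrt_le_sqrt (show X ≤ X ^ 2 by nlinarith)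
      rwa [Real.sqrt_sq hX0.le] at this
    have hlogm : Real.log X ≤ 4 * m := by
      have h1 : Real.log s ≤ Real.log (2 ^ (m + 1)) := Real.log_le_log (by linarith) hm2.le
      rw [Real.log_pow, hs, Real.log_sqrt hX0.le] at h1
      have h3 := Real.log_two_lt_d9
      have hm' : (1 : ℝ) ≤ m := by exact_mod_cast hm
      push_cast at h1
      nlinarith
    have hmX : (m : ℝ) ≤ Real.log X := by
      have h1 : Real.log (2 ^ m) ≤ Real.log s := Real.log_le_log (by positivity) hm1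
      rw [Real.log_pow, hs, Real.log_sqrt hX0.le] at h1
      have h3 := Real.log_two_gt_d9
      have hm' : (0 : ℝ) ≤ m := Nat.cast_nonneg _
      nlinarith
    have hmR : Real.log (m + 2) / Real.sqrt m ≤ 2 * R := by
      have h1 : Real.log (m + 2) ≤ Real.log (Real.log X + 2) :=
        Real.log_le_log (by positivity) (by linarith)
      have h2 : Real.sqrt (Real.log X) ≤ 2 * Real.sqrt m := by
        have h3 : Real.sqrt (4 * m) = 2 * Real.sqrt m := by
          rw [Real.sqrt_mul (by norm_num), show (4 : ℝ) = 2 ^ 2 by norm_num,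
            Real.sqrt_sq (by norm_num)]
        rw [← h3]
        exact Real.sqrt_le_sqrt hlogm
      have hm0 : (0 : ℝ) < Real.sqrt m := Real.sqrt_pos.2 (by exact_mod_cast hm)
      have hl0 : (0 : ℝ) < Real.sqrt (Real.log X) := Real.sqrt_pos.2 hlog
      have h5 : 0 ≤ Real.log (Real.log X + 2) := Real.log_nonneg (by linarith)
      rw [hR]
      unfold rr
      rw [div_le_iff₀ hm0]
      calc Real.log (m + 2) ≤ Real.log (Real.log X + 2) := h1
        _ = Real.log (Real.log X + 2) / Real.sqrt (Real.log X) * Real.sqrt (Real.log X) := by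
          field_simp
        _ ≤ Real.log (Real.log X + 2) / Real.sqrt (Real.log X) * (2 * Real.sqrt m) :=
          mul_le_mul_of_nonneg_left h2 (by positivity)
        _ = 2 * (Real.log (Real.log X + 2) / Real.sqrt (Real.log X)) * Real.sqrt m := by ring
    have hdh : |((d * h : ℤ) : ℝ)| ≤ D * |(h : ℝ)| := by
      push_cast
      rw [abs_mul]
      exact mul_le_mul_of_nonneg_right (by rw [hD]; linarith) hh0
    have hblock := xc_block hd hb hS (h := h) (m := m)
      (M := C * L * (Real.log (m + 2) / Real.sqrt m)) (fun a => by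
        have := hLC h m hm a
        rw [show |(h : ℝ)| + 2 = 2 + |(h : ℝ)| by ring, ← hL] at this
        rwa [← mul_div_assoc]) (Z := X) (Y := D * (1 + |(h : ℝ)|) * s)
      (hm1.trans hsX) (by nlinarith [mul_nonneg (by linarith : (0 : ℝ) ≤ D) hh0]) (by
        rw [← hD]
        refine mul_le_mul (by linarith) hm1 (by positivity) (by positivity))
    have hY : D * (1 + |(h : ℝ)|) * s ≤ 4 * D * L * R * X := by
      have h1 : (1 + |(h : ℝ)|) * s ≤ X ^ (3 / 4 : ℝ) := by
        have h2 : s = X ^ (1 / 2 : ℝ) := by rw [hs, Real.sqrt_eq_rpow]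
        calc (1 + |(h : ℝ)|) * s ≤ X ^ (1 / 4 : ℝ) * X ^ (1 / 2 : ℝ) := by
              rw [h2]
              exact mul_le_mul_of_nonneg_right hsmall (by positivity)
          _ = X ^ (3 / 4 : ℝ) := by rw [← Real.rpow_add hX0]; norm_num
      have h3 : X ^ (3 / 4 : ℝ) = X ^ (-(1 / 4 : ℝ)) * X := by
        nth_rewrite 3 [← Real.rpow_one X]
        rw [← Real.rpow_add hX0]
        norm_num
      have h4 : X ^ (-(1 / 4 : ℝ)) ≤ 4 * R := hR ▸ rpow_log_le hX le_rfl
      have h5 : (1 + |(h : ℝ)|) * s ≤ 4 * L * R * X := by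
        calc (1 + |(h : ℝ)|) * s ≤ X ^ (-(1 / 4 : ℝ)) * X := h3 ▸ h1
          _ ≤ 4 * R * X := mul_le_mul_of_nonneg_right h4 hX0.le
          _ ≤ 4 * L * R * X := by
            refine mul_le_mul_of_nonneg_right ?_ hX0.le
            nlinarith
      calc D * (1 + |(h : ℝ)|) * s = D * ((1 + |(h : ℝ)|) * s) := by ring
        _ ≤ D * (4 * L * R * X) := mul_le_mul_of_nonneg_left h5 (by linarith)
        _ = 4 * D * L * R * X := by ring
    have hM : 2 * X * (C * L * (Real.log (m + 2) / Real.sqrt m)) ≤ 4 * C * L * R * X := by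
      have h1 : C * L * (Real.log (m + 2) / Real.sqrt m) ≤ C * L * (2 * R) :=
        mul_le_mul_of_nonneg_left hmR (by positivity)
      nlinarith
    have h8 : 0 ≤ 16 * L * R * X := by positivity
    calc (xc S (d * h) X : ℝ) ≤ 4 * D * L * R * X + 4 * C * L * R * X := by linarith
      _ ≤ (16 + 4 * D + 4 * C) * L * R * X := by nlinarith

/-- Quantitative equidistribution modulo `q`, in total variation. -/
theorem tv_quant {d : ℤ} (hd : Odd d) {C : ℝ} (hC : 0 ≤ C) (hLC : LCQ d C) {b : ℝ} (hb : 0 ≤ b) :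
    ∃ C' : ℝ, 0 ≤ C' ∧ ∀ S : Set ℤ, Inv d b S → ∀ q : ℕ, 0 < q → IsCoprime (q : ℤ) d →
      ∀ X : ℝ, 2 ≤ X →
      ∑ c ∈ range q, |(ac (cl S q c) X : ℝ) - (ac S X : ℝ) / q| ≤
        C' * Real.log (q + 1) * rr X * X := by
  obtain ⟨C1, hC1, hxc⟩ := xc_quant hd hC hLC hb
  have hd0 : 0 ≤ |(d : ℝ)| := abs_nonneg _
  refine ⟨2 * C1 + 32 * |(d : ℝ)| + 16, by positivity, fun S hS q hq hqd X hX => ?_⟩
  have hqR : (0 : ℝ) < q := by exact_mod_cast hq
  have hq1 : (1 : ℝ) ≤ q := by exact_mod_cast hq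
  have hX0 : 0 < X := by linarith
  obtain ⟨L, hL⟩ : ∃ L : ℝ, L = Real.log (q + 1) := ⟨_, rfl⟩
  obtain ⟨R, hR⟩ : ∃ R : ℝ, R = rr X := ⟨_, rfl⟩
  have hR0 : 0 < R := hR ▸ rr_pos hX
  have hLhalf : (1 / 2 : ℝ) ≤ L := by
    have h1 : Real.log 2 ≤ L := by rw [hL]; exact Real.log_le_log (by norm_num) (by linarith)
    have h2 := Real.log_two_gt_d9
    linarith
  have hL2 : Real.log (2 + q) ≤ 2 * L := by
    have h1 : Real.log (2 + q) ≤ Real.log ((q + 1) ^ 2) :=
      Real.log_le_log (by positivity) (by nlinarith)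
    rw [Real.log_pow] at h1
    rw [hL]
    exact_mod_cast h1
  rw [← hL, ← hR]
  rcases lt_or_ge (Real.sqrt X) q with hbig | hsmall
  · -- large `q`: trivial bound
    have h1 : Real.log X ≤ 2 * L := by
      have h2 : Real.log (Real.sqrt X) ≤ L := by
        rw [hL]
        exact Real.log_le_log (Real.sqrt_pos.2 hX0) (by linarith)
      rw [Real.log_sqrt hX0.le] at h2
      linarith
    have h4 := big_log hX h1
    rw [← hR] at h4
    have h5 : 0 < L * R := by
      have : 0 < L := by linarith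
      positivity
    have h6 : ∑ c ∈ range q, |(ac (cl S q c) X : ℝ) - (ac S X : ℝ) / q| ≤ 2 * X := by
      have h7 : ∀ c ∈ range q, |(ac (cl S q c) X : ℝ) - (ac S X : ℝ) / q| ≤
          (ac (cl S q c) X : ℝ) + (ac S X : ℝ) / q := by
        intro c _
        have a1 : (0 : ℝ) ≤ (ac (cl S q c) X : ℝ) := Nat.cast_nonneg _
        have a2 : (0 : ℝ) ≤ (ac S X : ℝ) / q := by positivity
        rw [abs_le]
        constructor <;> linarith
      refine (Finset.sum_le_sum h7).trans ?_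
      rw [Finset.sum_add_distrib, Finset.sum_const, card_range, nsmul_eq_mul]
      have e1 : ∑ c ∈ range q, (ac (cl S q c) X : ℝ) = ac S X := by
        have hA : ∃ A : Finset ℤ, ∀ x, x ∈ A ↔ 1 ≤ x ∧ (x : ℝ) < X ∧ x ∈ S :=
          ⟨(fin_one X (fun x => x ∈ S)).toFinset, fun x => by simp⟩
        obtain ⟨A, hA⟩ := hA
        have : NeZero q := ⟨hq.ne'⟩
        have e2 : ∑ c ∈ range q, ac (cl S q c) X = ∑ z : ZMod q, nz A z := by
          rw [Finset.sum_congr rfl fun (c : ℕ) _ => ac_eq_nz S (q := q) X A hA (c : ℤ)]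
          obtain ⟨k, rfl⟩ : ∃ k, q = k + 1 := ⟨q - 1, by omega⟩
          have e3 := Fin.sum_univ_eq_sum_range
            (fun c : ℕ => nz (q := k + 1) A ((c : ℕ) : ZMod (k + 1))) (k + 1)
          have e4 : ∀ c : ℕ, (((c : ℤ)) : ZMod (k + 1)) = ((c : ℕ) : ZMod (k + 1)) := by
            intro c; simp
          rw [Finset.sum_congr rfl fun (c : ℕ) _ => by rw [e4 c], ← e3]
          refine Finset.sum_congr rfl fun i _ => ?_
          have : ((i : ℕ) : ZMod (k + 1)) = i := Fin.cast_val_eq_self i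
          rw [this]
        have e5 : ac S X = A.card := by
          unfold ac
          rw [← Set.ncard_coe_finset]
          congr 1
          ext x
          simp only [Set.mem_ofPred_eq, Finset.mem_coe, hA]
        have e6 := e2.trans (nz_sum (q := q) A)
        rw [e5]
        exact_mod_cast e6
      rw [e1]
      have e2 : (q : ℝ) * ((ac S X : ℝ) / q) = ac S X := by field_simp
      rw [e2]
      have := ac_le S (by linarith : (1 : ℝ) ≤ X)
      linarith
    calc ∑ c ∈ range q, |(ac (cl S q c) X : ℝ) - (ac S X : ℝ) / q| ≤ 2 * X := h6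
      _ ≤ (2 * C1 + 32 * |(d : ℝ)| + 16) * L * R * X := by
        refine mul_le_mul_of_nonneg_right ?_ hX0.le
        nlinarith [mul_nonneg hC1 h5.le, mul_nonneg hd0 h5.le]
  · -- small `q`
    have h1 := tv_ac S hq hqd X
    have h2 : ∀ h ∈ range q, ((xc S (d * h) X : ℝ) + 4 * |(d : ℝ)| * h) ≤
        C1 * (2 * L) * R * X + 4 * |(d : ℝ)| * q := by
      intro h hh
      rw [Finset.mem_range] at hh
      have hhq : (h : ℝ) ≤ q := by exact_mod_cast hh.le
      refine add_le_add ?_ (mul_le_mul_of_nonneg_left hhq (by positivity))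
      rcases Nat.eq_zero_or_pos h with h0 | h0
      · have : xc S (d * (h : ℤ)) X = 0 := by
          unfold xc
          rw [h0]
          simp
        rw [this]
        have : 0 ≤ L := by linarith
        simp only [Nat.cast_zero]
        positivity
      · have h3 := hxc S hS (h : ℤ) (by omega) X hX
        refine h3.trans ?_
        rw [← hR]
        refine mul_le_mul_of_nonneg_right (mul_le_mul_of_nonneg_right ?_ hR0.le) hX0.le
        refine mul_le_mul_of_nonneg_left ?_ hC1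
        refine le_trans (Real.log_le_log (by positivity) ?_) hL2
        have : |(((h : ℕ) : ℤ) : ℝ)| = h := by
          push_cast
          exact abs_of_nonneg (Nat.cast_nonneg _)
        rw [this]
        linarith
    have h3 : (∑ h ∈ range q, ((xc S (d * h) X : ℝ) + 4 * |(d : ℝ)| * h)) / q ≤
        C1 * (2 * L) * R * X + 4 * |(d : ℝ)| * q := by
      rw [div_le_iff₀ hqR]
      refine (Finset.sum_le_sum h2).trans ?_
      rw [Finset.sum_const, card_range, nsmul_eq_mul]
      linarith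
    have h4 : (q : ℝ) ≤ 8 * L * R * X := by
      have h5 : Real.sqrt X = X ^ (-(1 / 2 : ℝ)) * X := by
        rw [Real.sqrt_eq_rpow]
        nth_rewrite 3 [← Real.rpow_one X]
        rw [← Real.rpow_add hX0]
        norm_num
      have h6 : X ^ (-(1 / 2 : ℝ)) ≤ 4 * R := hR ▸ rpow_log_le hX (by norm_num)
      calc (q : ℝ) ≤ X ^ (-(1 / 2 : ℝ)) * X := h5 ▸ hsmall
        _ ≤ 4 * R * X := mul_le_mul_of_nonneg_right h6 hX0.le
        _ ≤ 8 * L * R * X := by
          refine mul_le_mul_of_nonneg_right ?_ hX0.le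
          nlinarith
    have h7 : 4 * |(d : ℝ)| * q ≤ 4 * |(d : ℝ)| * (8 * L * R * X) :=
      mul_le_mul_of_nonneg_left h4 (by positivity)
    have h8 : 0 ≤ 16 * L * R * X := by
      have : 0 ≤ L := by linarith
      positivity
    calc ∑ c ∈ range q, |(ac (cl S q c) X : ℝ) - (ac S X : ℝ) / q| ≤
        C1 * (2 * L) * R * X + 4 * |(d : ℝ)| * (8 * L * R * X) := by linarith
      _ ≤ (2 * C1 + 32 * |(d : ℝ)| + 16) * L * R * X := by nlinarith

end Pool.Agent.Lib.MP_d0d59f_nt.ND
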