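import Mathlib
import Pool.Agent.Lib.MP_d0d59f_nt.NK.K032
import Pool.Agent.Lib.MP_d0d59f_nt.NK.K043

namespace Pool.Agent.Lib.MP_d0d59f_nt.AA
end Pool.Agent.Lib.MP_d0d59f_nt.AA

/-! Both sides. -/

namespace Pool.Agent.Lib.MP_d0d59f_nt.ND

open Finset AA Filter Topology

theorem sum_range_zmod {q : ℕ} [NeZero q] (f : ZMod q → ℝ) :
    ∑ c ∈ range q, f ((c : ℕ) : ZMod q) = ∑ z : ZMod q, f z := by
  obtain ⟨k, rfl⟩ : ∃ k, q = k + 1 := ⟨q - 1, by have := NeZero.ne q; omega⟩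
  rw [← Fin.sum_univ_eq_sum_range (fun c : ℕ => f ((c : ℕ) : ZMod (k + 1))) (k + 1)]
  refine Finset.sum_congr rfl fun i _ => ?_
  have : ((i : ℕ) : ZMod (k + 1)) = i := Fin.cast_val_eq_self i
  rw [this]

theorem sum_cl_neg (S : Set ℤ) {q : ℕ} (hq : 0 < q) (Z w : ℝ) :
    ∑ c ∈ range q, |(ac (cl S q (-(c : ℤ))) Z : ℝ) - w| =
      ∑ c ∈ range q, |(ac (cl S q c) Z : ℝ) - w| := by
  have : NeZero q := ⟨hq.ne'⟩
  obtain ⟨A, hA⟩ : ∃ A : Finset ℤ, ∀ x, x ∈ A ↔ 1 ≤ x ∧ (x : ℝ) < Z ∧ x ∈ S :=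
    ⟨(fin_one Z (fun x => x ∈ S)).toFinset, fun x => by simp⟩
  have e1 : ∀ c : ℕ, |(ac (cl S q (-(c : ℤ))) Z : ℝ) - w| =
      (fun z : ZMod q => |(nz A (-z) : ℝ) - w|) ((c : ℕ) : ZMod q) := by
    intro c
    show _ = |(nz A (-((c : ℕ) : ZMod q)) : ℝ) - w|
    rw [ac_eq_nz S (q := q) Z A hA (-(c : ℤ))]
    simp
  have e2 : ∀ c : ℕ, |(ac (cl S q (c : ℤ)) Z : ℝ) - w| =
      (fun z : ZMod q => |(nz A z : ℝ) - w|) ((c : ℕ) : ZMod q) := by
    intro c
    show _ = |(nz A ((c : ℕ) : ZMod q) : ℝ) - w|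
    rw [ac_eq_nz S (q := q) Z A hA (c : ℤ)]
    simp
  rw [Finset.sum_congr rfl fun c _ => e1 c, Finset.sum_congr rfl fun c _ => e2 c,
    sum_range_zmod (fun z : ZMod q => |(nz A (-z) : ℝ) - w|), sum_range_zmod (fun z : ZMod q => |(nz A z : ℝ) - w|)]
  exact Equiv.sum_comp (Equiv.neg (ZMod q)) (fun z : ZMod q => |(nz A z : ℝ) - w|)

/-- Number of `x ∈ [1, X)` with `s x ∈ S`. -/
noncomputable def cs (S : Set ℤ) (s : ℤ) (X : ℝ) : ℕ :=
  Set.ncard {x : ℤ | 1 ≤ x ∧ (x : ℝ) < X ∧ s * x ∈ S}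

theorem Inv.max {d : ℤ} {b : ℝ} {S : Set ℤ} (h : Inv d b S) : Inv d (max b 0) S :=
  h.mono (le_max_left _ _)

/-- Both sides: translation invariance and equidistribution. -/
theorem both_sides {d : ℤ} (hd : Odd d) {C : ℝ} (hC : 0 ≤ C) (hLC : LCQ d C) (hLC' : LCQ (-d) C)
    (b : ℝ) : ∃ C' : ℝ, ∀ S : Set ℤ, Inv d b S → ∀ s : ℤ, s = 1 ∨ s = -1 → ∀ X : ℝ, 2 ≤ X →
      (∀ h : ℤ, h ≠ 0 →
        (Set.ncard {x : ℤ | 1 ≤ x ∧ (x : ℝ) < X ∧ ¬ (s * x ∈ S ↔ s * x + d * h ∈ S)} : ℝ) ≤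
          C' * Real.log (2 + |(h : ℝ)|) * X * (Real.log (Real.log X + 2) / Real.sqrt (Real.log X))) ∧
      (∀ q : ℕ, 0 < q → IsCoprime (q : ℤ) d →
        ∑ r ∈ range q, |(cs {x | x ∈ S ∧ x ≡ r [ZMOD q]} s X : ℝ) - (cs S s X : ℝ) / q| ≤
          C' * Real.log (q + 1) * X * (Real.log (Real.log X + 2) / Real.sqrt (Real.log X))) := by
  obtain ⟨C1, h10, h1⟩ := xc_quant hd hC hLC (le_max_right b 0)
  obtain ⟨C2, h20, h2⟩ := xc_quant hd.neg hC hLC' (le_max_right b 0)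
  obtain ⟨C3, h30, h3⟩ := tv_quant hd hC hLC (le_max_right b 0)
  obtain ⟨C4, h40, h4⟩ := tv_quant hd.neg hC hLC' (le_max_right b 0)
  refine ⟨C1 + C2 + C3 + C4, fun S hS s hs X hX => ?_⟩
  have hX0 : 0 < X := by linarith
  have hR : ∀ u : ℝ, u * X * (Real.log (Real.log X + 2) / Real.sqrt (Real.log X)) = u * rr X * X := by
    intro u
    unfold rr
    ring
  have hR0 : 0 < rr X := rr_pos hX
  have mono : ∀ u v w : ℝ, u ≤ v → 0 ≤ w →
      u * w * rr X * X ≤ v * w * rr X * X := by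
    intro u v w huv hw
    refine mul_le_mul_of_nonneg_right (mul_le_mul_of_nonneg_right
      (mul_le_mul_of_nonneg_right huv hw) hR0.le) hX0.le
  have hS1 := hS.max
  have hS2 : Inv (-d) (max b 0) {x | -x ∈ S} := ND.Inv.neg hd (b := max b 0) (S := S) hS1
  constructor
  · intro h hh
    have hL : 0 ≤ Real.log (2 + |(h : ℝ)|) := Real.log_nonneg (by linarith [abs_nonneg (h : ℝ)])
    rw [hR]
    rcases hs with rfl | rfl
    · have e1 := h1 S hS1 h hh X hX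
      have e2 : {x : ℤ | 1 ≤ x ∧ (x : ℝ) < X ∧ ¬ (1 * x ∈ S ↔ 1 * x + d * h ∈ S)}.ncard =
          xc S (d * h) X := by
        unfold xc
        simp
      rw [e2]
      exact e1.trans (mono _ _ _ (by linarith) hL)
    · have e1 := h2 _ hS2 h hh X hX
      have e2 : {x : ℤ | 1 ≤ x ∧ (x : ℝ) < X ∧ ¬ (-1 * x ∈ S ↔ -1 * x + d * h ∈ S)}.ncard =
          xc {x | -x ∈ S} (-d * h) X := by
        unfold xc
        congr 1
        ext x
        simp only [Set.mem_ofPred_eq]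
        rw [show -(x + -d * h) = -1 * x + d * h by ring, show -x = -1 * x by ring]
      rw [e2]
      exact e1.trans (mono _ _ _ (by linarith) hL)
  · intro q hq hqd
    have hq1 : (1 : ℝ) ≤ q := by exact_mod_cast hq
    have hL : 0 ≤ Real.log ((q : ℝ) + 1) := Real.log_nonneg (by linarith)
    rw [hR]
    rcases hs with rfl | rfl
    · have e1 := h3 S hS1 q hq hqd X hX
      have e2 : ∀ r : ℕ, cs {x | x ∈ S ∧ x ≡ r [ZMOD q]} 1 X = ac (cl S q r) X := by
        intro r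
        unfold cs ac cl
        simp
      have e3 : cs S 1 X = ac S X := by
        unfold cs ac
        simp
      rw [Finset.sum_congr rfl fun r _ => by rw [e2 r, e3]]
      exact e1.trans (mono _ _ _ (by linarith) hL)
    · have hqd' : IsCoprime (q : ℤ) (-d) := IsCoprime.neg_right hqd
      have e1 := h4 _ hS2 q hq hqd' X hX
      have e2 : ∀ r : ℕ, cs {x | x ∈ S ∧ x ≡ r [ZMOD q]} (-1) X =
          ac (cl {x | -x ∈ S} q (-(r : ℤ))) X := by
        intro r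
        unfold cs ac cl
        congr 1
        ext x
        simp only [Set.mem_ofPred_eq]
        rw [show -1 * x = -x by ring]
        have : -x ≡ r [ZMOD q] ↔ x ≡ -(r : ℤ) [ZMOD q] := by
          constructor
          · intro h5
            have := h5.neg
            rwa [neg_neg] at this
          · intro h5
            have := h5.neg
            rwa [neg_neg] at this
        rw [this]
      have e3 : cs S (-1) X = ac {x | -x ∈ S} X := by
        unfold cs ac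
        simp
      rw [Finset.sum_congr rfl fun r _ => by rw [e2 r, e3], sum_cl_neg _ hq]
      exact e1.trans (mono _ _ _ (by linarith) hL)

end Pool.Agent.Lib.MP_d0d59f_nt.ND
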