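import Mathlib

section

/-!
The chain of differences of a pair of orbits of `T_d`.

A state `(k, E)` stands for a pair `(Y, X)` with `X = 3^k Y + d E`. `s0`, `s1` are the states after one
step of `T_d` on both coordinates, for `Y` even and `Y` odd. `q m s` is the share of the bit strings of
length `m` which do not lead from `s` to `(0,0)`.
-/

namespace Pool.Agent.Lib.MP_d0d59f_nt.LC

/-- States of the chain. -/
abbrev St := ℕ × ℤ

/-- The new state if the smaller coordinate is even. -/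
def s0 (s : St) : St :=
  if s.2 % 2 = 0 then (s.1, s.2 / 2) else (s.1 + 1, (3 * s.2 + 1) / 2)

/-- The new state if the smaller coordinate is odd. -/
def s1 (s : St) : St :=
  if s.2 % 2 = 0 then (s.1, (3 * s.2 + 1 - 3 ^ s.1) / 2)
  else if s.1 = 0 then (1, (1 - 3 * s.2) / 2) else (s.1 - 1, (s.2 - 3 ^ (s.1 - 1)) / 2)

/-- The share of the bit strings of length `m` which do not lead from `s` to `(0,0)`. -/
noncomputable def q : ℕ → St → ℝ
  | 0, s => if s = (0, 0) then 0 else 1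
  | m + 1, s => if s = (0, 0) then 0 else (q m (s0 s) + q m (s1 s)) / 2

theorem q_absorbed (m : ℕ) : q m (0, 0) = 0 := by
  cases m <;> simp [q]

theorem q_succ (m : ℕ) {s : St} (hs : s ≠ (0, 0)) :
    q (m + 1) s = (q m (s0 s) + q m (s1 s)) / 2 := by
  simp [q, hs]

theorem q_zero {s : St} (hs : s ≠ (0, 0)) : q 0 s = 1 := by
  simp [q, hs]

theorem q_nonneg (m : ℕ) (s : St) : 0 ≤ q m s := by
  induction m generalizing s with
  | zero => unfold q; split_ifs <;> norm_num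
  | succ m ih =>
    unfold q
    split_ifs
    · exact le_rfl
    · have := ih (s0 s); have := ih (s1 s); linarith

theorem q_le_one (m : ℕ) (s : St) : q m s ≤ 1 := by
  induction m generalizing s with
  | zero => unfold q; split_ifs <;> norm_num
  | succ m ih =>
    unfold q
    split_ifs
    · exact zero_le_one
    · have := ih (s0 s); have := ih (s1 s); linarith

theorem q_anti (m : ℕ) (s : St) : q (m + 1) s ≤ q m s := by
  induction m generalizing s with
  | zero =>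
    by_cases hs : s = (0, 0)
    · subst hs; rw [q_absorbed, q_absorbed]
    · rw [q_zero hs]; exact q_le_one _ _
  | succ m ih =>
    by_cases hs : s = (0, 0)
    · subst hs; rw [q_absorbed, q_absorbed]
    · rw [q_succ _ hs, q_succ _ hs]
      have := ih (s0 s); have := ih (s1 s); linarith

theorem q_anti' {m n : ℕ} (h : m ≤ n) (s : St) : q n s ≤ q m s := by
  induction n, h using Nat.le_induction with
  | base => exact le_rfl
  | succ n _ ih => exact (q_anti n s).trans ih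

/-- Comparison principle. -/
theorem q_le_of_super (U Ψ : St → ℝ) (R : ℕ) (κ lam : ℝ) (hlam0 : 0 ≤ lam) (hlam1 : lam ≤ 1)
    (hκ : 0 ≤ κ)
    (hΨ1 : ∀ s, 1 ≤ Ψ s)
    (hU0 : ∀ s, 0 ≤ U s)
    (hbig : ∀ s : St, R ≤ s.1 → 1 ≤ κ * U s)
    (hU : ∀ s : St, s ≠ (0, 0) → (U (s0 s) + U (s1 s)) / 2 ≤ U s)
    (hstep : ∀ s : St, s ≠ (0, 0) → s.1 < R →
      (Ψ (s0 s) + Ψ (s1 s)) / 2 ≤ (1 - lam) * Ψ s ∨
      ((Ψ (s0 s) + Ψ (s1 s)) / 2 ≤ Ψ s ∧
        κ * ((U (s0 s) + U (s1 s)) / 2) + lam * Ψ s ≤ κ * U s)) (m : ℕ) (s : St) :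
    q m s ≤ κ * U s + (1 - lam) ^ m * Ψ s := by
  induction m generalizing s with
  | zero =>
    have h1 := q_le_one 0 s
    have h2 := hΨ1 s
    have h3 := mul_nonneg hκ (hU0 s)
    simp only [pow_zero, one_mul]
    linarith
  | succ m ih =>
    have hpow : 0 ≤ (1 - lam) ^ m := pow_nonneg (by linarith) m
    have hpow1 : (1 - lam) ^ m ≤ 1 := pow_le_one₀ (by linarith) (by linarith)
    by_cases hs : s = (0, 0)
    · subst hs
      rw [q_absorbed]
      have h2 := hΨ1 (0, 0)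
      have h3 := mul_nonneg hκ (hU0 (0, 0))
      have : 0 ≤ (1 - lam) ^ (m + 1) * Ψ (0, 0) :=
        mul_nonneg (pow_nonneg (by linarith) _) (by linarith)
      linarith
    · by_cases hR : R ≤ s.1
      · have h1 := q_le_one (m + 1) s
        have h2 := hbig s hR
        have : 0 ≤ (1 - lam) ^ (m + 1) * Ψ s :=
          mul_nonneg (pow_nonneg (by linarith) _) (by linarith [hΨ1 s])
        linarith
      · rw [q_succ _ hs]
        have h1 := ih (s0 s)
        have h2 := ih (s1 s)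
        have h3 := hU s hs
        have hsum : (q m (s0 s) + q m (s1 s)) / 2 ≤
            κ * ((U (s0 s) + U (s1 s)) / 2) + (1 - lam) ^ m * ((Ψ (s0 s) + Ψ (s1 s)) / 2) := by
          linarith
        refine hsum.trans ?_
        rw [pow_succ]
        rcases hstep s hs (not_le.mp hR) with h | ⟨ha, hb⟩
        · have h4 := mul_le_mul_of_nonneg_left h3 hκ
          have h5 := mul_le_mul_of_nonneg_left h hpow
          nlinarith
        · have h5 := mul_le_mul_of_nonneg_left ha hpow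
          have h6 : (1 - lam) ^ m * (lam * Ψ s) ≤ lam * Ψ s := by
            have : 0 ≤ lam * Ψ s := mul_nonneg hlam0 (by linarith [hΨ1 s])
            nlinarith
          nlinarith

/-- From every state `(0, E)` there is a path to `(0,0)`. -/
theorem exists_q_lt (E : ℤ) : ∃ n, q n (0, E) < 1 := by
  have key : ∀ (n : ℕ) (E : ℤ), E.natAbs ≤ n → ∃ m, q m (0, E) < 1 := by
    intro n
    induction n with
    | zero =>
      intro E hE
      have : E = 0 := by omega
      subst this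
      exact ⟨0, by rw [q_absorbed]; norm_num⟩
    | succ n ih =>
      intro E hE
      by_cases hE0 : E = 0
      · subst hE0; exact ⟨0, by rw [q_absorbed]; norm_num⟩
      have hs : ((0, E) : St) ≠ (0, 0) := by simp [hE0]
      have left : ∀ (m : ℕ) (s : St), s ≠ (0, 0) → q m (s0 s) < 1 → q (m + 1) s < 1 := by
        intro m s hs h
        rw [q_succ m hs]
        have := q_le_one m (s1 s)
        linarith
      have right : ∀ (m : ℕ) (s : St), s ≠ (0, 0) → q m (s1 s) < 1 → q (m + 1) s < 1 := by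
        intro m s hs h
        rw [q_succ m hs]
        have := q_le_one m (s0 s)
        linarith
      have h12 : ∃ m, q m (1, 2) < 1 := by
        refine ⟨2, left 1 _ (by decide) ?_⟩
        have e : s0 (1, 2) = (1, 1) := by decide
        rw [e]
        refine right 0 _ (by decide) ?_
        have e : s1 (1, 1) = (0, 0) := by decide
        rw [e, q_absorbed]
        norm_num
      rcases Int.emod_two_eq_zero_or_one E with h0 | h1
      · obtain ⟨m, hm⟩ := ih (E / 2) (by omega)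
        refine ⟨m + 1, left m _ hs ?_⟩
        have e : s0 (0, E) = (0, E / 2) := by simp [s0, h0]
        rw [e]; exact hm
      · by_cases hE1 : E = 1
        · subst hE1
          obtain ⟨m, hm⟩ := h12
          refine ⟨m + 1, left m _ (by decide) ?_⟩
          have e : s0 (0, 1) = (1, 2) := by decide
          rw [e]; exact hm
        by_cases hE2 : E = -1
        · subst hE2
          obtain ⟨m, hm⟩ := h12
          refine ⟨m + 1, right m _ (by decide) ?_⟩
          have e : s1 (0, -1) = (1, 2) := by decide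
          rw [e]; exact hm
        have e0 : s0 (0, E) = (1, (3 * E + 1) / 2) := by simp [s0, h1]
        have e1 : s1 (0, E) = (1, (1 - 3 * E) / 2) := by simp [s1, h1]
        rcases Int.emod_two_eq_zero_or_one ((3 * E + 1) / 2) with h3 | h3
        · obtain ⟨m, hm⟩ := ih (((1 - 3 * E) / 2 - 1) / 2) (by omega)
          refine ⟨m + 2, right (m + 1) _ hs ?_⟩
          rw [e1]
          refine right m _ (by simp) ?_
          have e2 : s1 (1, (1 - 3 * E) / 2) = (0, ((1 - 3 * E) / 2 - 1) / 2) := by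
            have : (1 - 3 * E) / 2 % 2 = 1 := by omega
            simp [s1, this]
          rw [e2]; exact hm
        · obtain ⟨m, hm⟩ := ih (((3 * E + 1) / 2 - 1) / 2) (by omega)
          refine ⟨m + 2, left (m + 1) _ hs ?_⟩
          rw [e0]
          refine right m _ (by simp) ?_
          have e2 : s1 (1, (3 * E + 1) / 2) = (0, ((3 * E + 1) / 2 - 1) / 2) := by
            simp [s1, h3]
          rw [e2]; exact hm
  exact key E.natAbs E le_rfl

/-- Uniform version on a finite range. -/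
theorem exists_unif (R0 : ℕ) : ∃ (N : ℕ) (δ : ℝ), 0 < δ ∧ ∀ E : ℤ, E.natAbs ≤ R0 →
    q N (0, E) ≤ 1 - δ := by
  classical
  choose f hf using exists_q_lt
  set S : Finset ℤ := Finset.Icc (-(R0 : ℤ)) R0 with hS
  set N := S.sup f with hN
  have hne : (S.image fun E => 1 - q N (0, E)).Nonempty := by
    refine Finset.Nonempty.image ⟨0, ?_⟩ _
    rw [hS, Finset.mem_Icc]; constructor <;> omega
  refine ⟨N, (S.image fun E => 1 - q N (0, E)).min' hne, ?_, ?_⟩
  · have hmem := Finset.min'_mem _ hne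
    obtain ⟨E, hE, hEe⟩ := Finset.mem_image.mp hmem
    rw [← hEe]
    have h1 : q N (0, E) ≤ q (f E) (0, E) := q_anti' (Finset.le_sup hE) _
    have := hf E
    linarith
  · intro E hE
    have hmem : E ∈ S := by rw [hS, Finset.mem_Icc]; constructor <;> omega
    have := Finset.min'_le _ _ (Finset.mem_image_of_mem (fun E => 1 - q N (0, E)) hmem)
    linarith

end Pool.Agent.Lib.MP_d0d59f_nt.LC

end

section

/-!
The valuation `ν_k = v_2(3^k - 1)` and the length function `L` of the even phases.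
-/

namespace Pool.Agent.Lib.MP_d0d59f_nt.LC

/-- `v_2(3^k - 1)`. -/
def nu (k : ℕ) : ℕ := padicValNat 2 (3 ^ k - 1)

theorem three_pow_sub_one_pos {k : ℕ} (hk : 1 ≤ k) : 0 < 3 ^ k - 1 := by
  have : 3 ^ 1 ≤ 3 ^ k := Nat.pow_le_pow_right (by norm_num) hk
  omega

theorem cast_three (k : ℕ) : ((3 ^ k - 1 : ℕ) : ℤ) = 3 ^ k - 1 := by
  have : 1 ≤ 3 ^ k := Nat.one_le_pow _ _ (by norm_num)
  push_cast [Nat.cast_sub this]
  ring

theorem nu_dvd (k : ℕ) : (2 : ℤ) ^ nu k ∣ 3 ^ k - 1 := by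
  rw [← cast_three]
  exact_mod_cast (pow_padicValNat_dvd (p := 2) (n := 3 ^ k - 1))

theorem nu_not_dvd {k : ℕ} (hk : 1 ≤ k) : ¬ (2 : ℤ) ^ (nu k + 1) ∣ 3 ^ k - 1 := by
  rw [← cast_three]
  intro h
  have h' : 2 ^ (nu k + 1) ∣ 3 ^ k - 1 := by exact_mod_cast h
  exact pow_succ_padicValNat_not_dvd (p := 2) (three_pow_sub_one_pos hk).ne' h'

theorem three_pow_odd (k : ℕ) : (3 : ℤ) ^ k % 2 = 1 := by
  have : Odd ((3 : ℤ) ^ k) := Odd.pow (by decide)
  exact Int.odd_iff.mp this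

theorem nu_pos {k : ℕ} (hk : 1 ≤ k) : 1 ≤ nu k := by
  by_contra h
  have h0 : nu k = 0 := by omega
  have := nu_not_dvd hk
  rw [h0] at this
  apply this
  have := three_pow_odd k
  simp only [zero_add, pow_one]
  omega

theorem two_pow_nu_le {k : ℕ} (hk : 1 ≤ k) : 2 ^ nu k ≤ 4 * k := by
  rcases Nat.even_or_odd k with he | ho
  · have h := padicValNat.pow_two_sub_pow (x := 3) (y := 1) (by norm_num) (by norm_num)
      (by norm_num) (n := k) (by omega) he
    rw [one_pow] at h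
    have h4 : padicValNat 2 (3 + 1) = 2 := by
      have : (3 + 1 : ℕ) = 2 ^ 2 := by norm_num
      rw [this, padicValNat.prime_pow]
    have h2 : padicValNat 2 (3 - 1) = 1 := by
      have : (3 - 1 : ℕ) = 2 ^ 1 := by norm_num
      rw [this, padicValNat.prime_pow]
    rw [h4, h2] at h
    have h5 : nu k = 2 + padicValNat 2 k := by unfold nu; omega
    rw [h5, pow_add]
    have : 2 ^ padicValNat 2 k ≤ k := Nat.le_of_dvd (by omega) pow_padicValNat_dvd
    omega
  · have h1 : nu k ≤ 1 := by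
      by_contra h
      have h2 : (2 : ℤ) ^ 2 ∣ 3 ^ k - 1 := (pow_dvd_pow 2 (by omega)).trans (nu_dvd k)
      obtain ⟨j, hj⟩ := ho
      have h3 : (3 : ℤ) ^ k % 4 = 3 := by
        rw [hj, pow_succ, pow_mul]
        norm_num
        rw [Int.mul_emod, ← Int.emod_emod_of_dvd ((9 : ℤ) ^ j) (by norm_num : (4 : ℤ) ∣ 8)]
        have : (9 : ℤ) ^ j % 8 = 1 := by
          have h9 : (9 : ℤ) ≡ 1 [ZMOD 8] := by decide
          have := h9.pow j
          rw [one_pow] at this
          exact this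
        rw [this]
        norm_num
      omega
    have h2 : 2 ^ nu k ≤ 2 ^ 1 := Nat.pow_le_pow_right (by norm_num) h1
    omega

theorem lin_le_two_pow (n : ℕ) : 64 * n ≤ 2 ^ n + 320 := by
  by_cases h : n < 7
  · interval_cases n <;> norm_num
  · push Not at h
    induction n, h using Nat.le_induction with
    | base => norm_num
    | succ n hn ih =>
      have : 2 ^ 7 ≤ 2 ^ n := Nat.pow_le_pow_right (by norm_num) hn
      rw [pow_succ]
      omega

theorem nu_le {k : ℕ} (hk : 1 ≤ k) : 64 * nu k ≤ 4 * k + 320 :=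
  (lin_le_two_pow _).trans (by have := two_pow_nu_le hk; omega)

/-- A bound for the length of the current even phase. -/
noncomputable def L (s : St) : ℝ :=
  if s.1 = 0 then 0 else
    (∑ j ∈ Finset.Icc 1 (nu s.1), if (2 : ℤ) ^ j ∣ s.2 then (1 : ℝ) else 0) +
      if (2 : ℤ) ^ nu s.1 ∣ s.2 then 1 else 0

theorem L_zero (E : ℤ) : L (0, E) = 0 := by simp [L]

theorem L_nonneg (s : St) : 0 ≤ L s := by
  unfold L
  split_ifs
  · exact le_rfl
  · refine add_nonneg (Finset.sum_nonneg fun j _ => ?_) zero_le_one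
    split_ifs <;> norm_num
  · refine add_nonneg (Finset.sum_nonneg fun j _ => ?_) le_rfl
    split_ifs <;> norm_num

theorem L_le (s : St) : L s ≤ nu s.1 + 1 := by
  unfold L
  split_ifs with h0 h1
  · positivity
  · have : (∑ j ∈ Finset.Icc 1 (nu s.1), if (2 : ℤ) ^ j ∣ s.2 then (1 : ℝ) else 0) ≤
        ∑ j ∈ Finset.Icc 1 (nu s.1), 1 := by
      refine Finset.sum_le_sum fun j _ => ?_
      split_ifs <;> norm_num
    simp only [Finset.sum_const, Nat.card_Icc, Nat.add_sub_cancel, nsmul_eq_mul, mul_one] at this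
    linarith
  · have : (∑ j ∈ Finset.Icc 1 (nu s.1), if (2 : ℤ) ^ j ∣ s.2 then (1 : ℝ) else 0) ≤
        ∑ j ∈ Finset.Icc 1 (nu s.1), 1 := by
      refine Finset.sum_le_sum fun j _ => ?_
      split_ifs <;> norm_num
    simp only [Finset.sum_const, Nat.card_Icc, Nat.add_sub_cancel, nsmul_eq_mul, mul_one] at this
    linarith

theorem L_odd {s : St} (h : s.2 % 2 = 1) : L s = 0 := by
  unfold L
  split_ifs with h0 h1
  · rfl
  · exfalso
    have h2 : (2 : ℤ) ^ 1 ∣ s.2 := (pow_dvd_pow 2 (nu_pos (by omega))).trans h1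
    rw [pow_one] at h2
    omega
  · rw [add_zero]
    refine Finset.sum_eq_zero fun j hj => ?_
    rw [if_neg]
    intro h1
    have h2 : (2 : ℤ) ^ 1 ∣ s.2 := (pow_dvd_pow 2 (Finset.mem_Icc.mp hj).1).trans h1
    rw [pow_one] at h2
    omega

theorem L_even {s : St} (hk : 1 ≤ s.1) (h : s.2 % 2 = 0) : L (s0 s) + L (s1 s) ≤ 2 * L s - 2 := by
  obtain ⟨k, E⟩ := s
  simp only at hk h
  have e0 : s0 (k, E) = (k, E / 2) := by simp [s0, h]
  have e1 : s1 (k, E) = (k, (3 * E + 1 - 3 ^ k) / 2) := by simp [s1, h]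
  have hk0 : ¬ k = 0 := by omega
  rw [e0, e1]
  unfold L
  simp only [if_neg hk0]
  have h3 := three_pow_odd k
  obtain ⟨F, hF⟩ : ∃ F, E = 2 * F := ⟨E / 2, by omega⟩
  obtain ⟨G, hG⟩ : ∃ G, 3 * E + 1 - 3 ^ k = 2 * G := ⟨(3 * E + 1 - 3 ^ k) / 2, by omega⟩
  have d0 : ∀ j, ((2 : ℤ) ^ j ∣ E / 2 ↔ (2 : ℤ) ^ (j + 1) ∣ E) := by
    intro j
    rw [hF, pow_succ, mul_comm ((2 : ℤ) ^ j) 2, Int.mul_ediv_cancel_left _ (by norm_num)]
    exact (mul_dvd_mul_iff_left (by norm_num)).symm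
  have d1 : ∀ j, ((2 : ℤ) ^ j ∣ (3 * E + 1 - 3 ^ k) / 2 ↔ (2 : ℤ) ^ (j + 1) ∣ 3 * E + 1 - 3 ^ k) := by
    intro j
    rw [hG, pow_succ, mul_comm ((2 : ℤ) ^ j) 2, Int.mul_ediv_cancel_left _ (by norm_num)]
    exact (mul_dvd_mul_iff_left (by norm_num)).symm
  have cop : ∀ j : ℕ, IsCoprime ((2 : ℤ) ^ j) 3 := fun j =>
    IsCoprime.pow_left (by norm_num : IsCoprime (2 : ℤ) 3)
  have d2 : ∀ j ≤ nu k, ((2 : ℤ) ^ j ∣ 3 * E + 1 - 3 ^ k ↔ (2 : ℤ) ^ j ∣ E) := by
    intro j hj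
    have hd : (2 : ℤ) ^ j ∣ 3 ^ k - 1 := (pow_dvd_pow 2 hj).trans (nu_dvd k)
    constructor
    · intro h
      have : (2 : ℤ) ^ j ∣ 3 * E := by
        have := dvd_add h hd
        have e : 3 * E + 1 - 3 ^ k + (3 ^ k - 1) = 3 * E := by ring
        rwa [e] at this
      exact (cop j).dvd_of_dvd_mul_left this
    · intro h
      have e : 3 * E + 1 - 3 ^ k = 3 * E - (3 ^ k - 1) := by ring
      rw [e]
      exact dvd_sub (h.mul_left 3) hd
  obtain ⟨n, hn⟩ : ∃ n, nu k = n + 1 := ⟨nu k - 1, by have := nu_pos hk; omega⟩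
  -- the sums
  have hA : ∀ f : ℕ → ℝ, (∑ j ∈ Finset.Icc 1 (n + 1), f j) =
      (∑ j ∈ Finset.Icc 1 n, f j) + f (n + 1) := by
    intro f
    rw [Finset.sum_Icc_succ_top (by omega)]
  have hB : ∀ f : ℕ → ℝ, (∑ j ∈ Finset.Icc 1 (n + 1), f j) =
      f 1 + ∑ j ∈ Finset.Icc 1 n, f (j + 1) := by
    intro f
    have e1 : Finset.Icc 1 (n + 1) = Finset.Ico 1 (n + 2) := by ext; simp; omega
    have e2 : Finset.Icc 1 n = Finset.Ico 1 (n + 1) := by ext; simp
    rw [e1, e2, Finset.sum_eq_sum_Ico_succ_bot (by omega), Finset.sum_Ico_add' f 1 (n + 1) 1]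
  rw [hn, hA (fun j => if (2 : ℤ) ^ j ∣ E / 2 then (1 : ℝ) else 0),
    hA (fun j => if (2 : ℤ) ^ j ∣ (3 * E + 1 - 3 ^ k) / 2 then (1 : ℝ) else 0),
    hB (fun j => if (2 : ℤ) ^ j ∣ E then (1 : ℝ) else 0)]
  have s1' : (∑ j ∈ Finset.Icc 1 n, if (2 : ℤ) ^ j ∣ E / 2 then (1 : ℝ) else 0) =
      ∑ j ∈ Finset.Icc 1 n, if (2 : ℤ) ^ (j + 1) ∣ E then (1 : ℝ) else 0 :=
    Finset.sum_congr rfl fun j _ => by simp only [d0]
  have s2' : (∑ j ∈ Finset.Icc 1 n, if (2 : ℤ) ^ j ∣ (3 * E + 1 - 3 ^ k) / 2 then (1 : ℝ) else 0) =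
      ∑ j ∈ Finset.Icc 1 n, if (2 : ℤ) ^ (j + 1) ∣ E then (1 : ℝ) else 0 :=
    Finset.sum_congr rfl fun j hj => by
      have hiff : (2 : ℤ) ^ j ∣ (3 * E + 1 - 3 ^ k) / 2 ↔ (2 : ℤ) ^ (j + 1) ∣ E :=
        (d1 j).trans (d2 (j + 1) (by rw [hn]; have := (Finset.mem_Icc.mp hj).2; omega))
      by_cases hc : (2 : ℤ) ^ (j + 1) ∣ E
      · rw [if_pos hc, if_pos (hiff.mpr hc)]
      · rw [if_neg hc, if_neg (fun hh => hc (hiff.mp hh))]
  rw [s1', s2']
  have hone : (2 : ℤ) ^ 1 ∣ E := by rw [pow_one]; omega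
  rw [if_pos hone]
  -- the top level
  have t0 := d0 (n + 1)
  have t1 := d1 (n + 1)
  have hex : ¬ ((2 : ℤ) ^ (n + 1) ∣ E / 2 ∧ (2 : ℤ) ^ (n + 1) ∣ (3 * E + 1 - 3 ^ k) / 2) := by
    rintro ⟨ha, hb⟩
    rw [t0] at ha
    rw [t1] at hb
    apply nu_not_dvd hk
    rw [hn]
    have := dvd_sub (ha.mul_left 3) hb
    have e : 3 * E - (3 * E + 1 - 3 ^ k) = 3 ^ k - 1 := by ring
    rwa [e] at this
  have himp0 : (2 : ℤ) ^ (n + 1) ∣ E / 2 → (2 : ℤ) ^ (n + 1) ∣ E := by
    intro h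
    rw [t0] at h
    exact (pow_dvd_pow 2 (by omega)).trans h
  have himp1 : (2 : ℤ) ^ (n + 1) ∣ (3 * E + 1 - 3 ^ k) / 2 → (2 : ℤ) ^ (n + 1) ∣ E := by
    intro h
    rw [t1] at h
    have h' : (2 : ℤ) ^ (n + 1) ∣ 3 * E + 1 - 3 ^ k := (pow_dvd_pow 2 (by omega)).trans h
    exact (d2 (n + 1) (by omega)).mp h'
  by_cases ha : (2 : ℤ) ^ (n + 1) ∣ E / 2
  · have hb : ¬ (2 : ℤ) ^ (n + 1) ∣ (3 * E + 1 - 3 ^ k) / 2 := fun hb => hex ⟨ha, hb⟩
    rw [if_pos ha, if_neg hb, if_pos (himp0 ha)]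
    linarith
  · by_cases hb : (2 : ℤ) ^ (n + 1) ∣ (3 * E + 1 - 3 ^ k) / 2
    · rw [if_neg ha, if_pos hb, if_pos (himp1 hb)]
      linarith
    · rw [if_neg ha, if_neg hb]
      split_ifs <;> linarith

end Pool.Agent.Lib.MP_d0d59f_nt.LC

end

section

/-!
The superharmonic function `U0`.
-/

namespace Pool.Agent.Lib.MP_d0d59f_nt.LC

/-- `√(|E|/3^k)`. -/
noncomputable def psi (s : St) : ℝ := Real.sqrt (|(s.2 : ℝ)| / 3 ^ s.1)

theorem psi_nonneg (s : St) : 0 ≤ psi s := Real.sqrt_nonneg _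

theorem psi_sq (s : St) : psi s ^ 2 = |(s.2 : ℝ)| / 3 ^ s.1 := Real.sq_sqrt (by positivity)

theorem psi_le_of {s t : St} {c1 c2 a b : ℝ} (ha : 0 ≤ a) (hb : 0 ≤ b) (h1 : c1 ≤ a ^ 2)
    (h2 : c2 ≤ b ^ 2)
    (h : |(t.2 : ℝ)| / 3 ^ t.1 ≤ c1 * (|(s.2 : ℝ)| / 3 ^ s.1) + c2) :
    psi t ≤ a * psi s + b := by
  have h0 := psi_nonneg s
  refine Real.sqrt_le_iff.mpr ⟨by positivity, ?_⟩
  have h3 := psi_sq s
  have h4 : 0 ≤ |(s.2 : ℝ)| / 3 ^ s.1 := by positivity
  have h5 : c1 * (|(s.2 : ℝ)| / 3 ^ s.1) ≤ a ^ 2 * psi s ^ 2 := by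
    rw [h3]; exact mul_le_mul_of_nonneg_right h1 h4
  have h6 : 0 ≤ a * b * psi s := by positivity
  nlinarith

theorem cast_half {a : ℤ} (h : a % 2 = 0) : ((a / 2 : ℤ) : ℝ) = (a : ℝ) / 2 := by
  obtain ⟨b, rfl⟩ : ∃ b, a = 2 * b := ⟨a / 2, by omega⟩
  rw [Int.mul_ediv_cancel_left _ (by norm_num)]
  push_cast; ring

theorem psi_s0_even {s : St} (h : s.2 % 2 = 0) : psi (s0 s) ≤ 0.7072 * psi s := by
  have e : s0 s = (s.1, s.2 / 2) := by simp [s0, h]
  have := psi_le_of (s := s) (t := s0 s) (c1 := 1/2) (c2 := 0) (a := 0.7072) (b := 0) (by norm_num)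
    le_rfl (by norm_num) (by norm_num) (by
      rw [e]; simp only
      rw [cast_half h, abs_div, abs_two]
      have : 0 < (3 : ℝ) ^ s.1 := by positivity
      apply le_of_eq; ring)
  linarith

theorem psi_s1_even {s : St} (h : s.2 % 2 = 0) : psi (s1 s) ≤ 1.2248 * psi s + 0.7072 := by
  have e : s1 s = (s.1, (3 * s.2 + 1 - 3 ^ s.1) / 2) := by simp [s1, h]
  have h3 := three_pow_odd s.1
  refine psi_le_of (s := s) (t := s1 s) (c1 := 3/2) (c2 := 1/2) (by norm_num)
    (by norm_num) (by norm_num) (by norm_num) ?_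
  rw [e]; simp only
  rw [cast_half (by omega)]
  push_cast
  have hp : 0 < (3 : ℝ) ^ s.1 := by positivity
  have hp1 : 1 ≤ (3 : ℝ) ^ s.1 := one_le_pow₀ (by norm_num)
  rw [div_le_iff₀ hp]
  have : (3 / 2 * (|(s.2 : ℝ)| / 3 ^ s.1) + 1 / 2) * 3 ^ s.1 = 3 / 2 * |(s.2 : ℝ)| + 1 / 2 * 3 ^ s.1 := by
    field_simp
  rw [this, abs_le]
  have h4 := abs_le.mp (le_refl |(s.2 : ℝ)|)
  constructor <;> linarith [h4.1, h4.2]

theorem psi_s1_even_zero {s : St} (hk : s.1 = 0) (h : s.2 % 2 = 0) : psi (s1 s) ≤ 1.2248 * psi s := by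
  have e : s1 s = (s.1, (3 * s.2 + 1 - 3 ^ s.1) / 2) := by simp [s1, h]
  have := psi_le_of (s := s) (t := s1 s) (c1 := 3/2) (c2 := 0) (a := 1.2248) (b := 0) (by norm_num)
    le_rfl (by norm_num) (by norm_num) (by
      rw [e]; simp only [hk, pow_zero]
      rw [cast_half (by omega)]
      push_cast
      have e2 : (3 * (s.2 : ℝ) + 1 - 1) / 2 = 3 / 2 * s.2 := by ring
      rw [e2, abs_mul]
      apply le_of_eq
      rw [abs_of_pos (by norm_num : (0 : ℝ) < 3 / 2)]
      ring)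
  linarith

theorem psi_s0_odd {s : St} (h : s.2 % 2 = 1) : psi (s0 s) ≤ 0.7072 * psi s + 0.41 := by
  have e : s0 s = (s.1 + 1, (3 * s.2 + 1) / 2) := by simp [s0, h]
  refine psi_le_of (s := s) (t := s0 s) (c1 := 1/2) (c2 := 1/6) (by norm_num)
    (by norm_num) (by norm_num) (by norm_num) ?_
  rw [e]; simp only
  rw [cast_half (by omega)]
  push_cast
  have hp : 0 < (3 : ℝ) ^ s.1 := by positivity
  have hp1 : 1 ≤ (3 : ℝ) ^ s.1 := one_le_pow₀ (by norm_num)
  rw [div_le_iff₀ (by positivity), pow_succ]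
  have : (1 / 2 * (|(s.2 : ℝ)| / 3 ^ s.1) + 1 / 6) * (3 ^ s.1 * 3) = 3 / 2 * |(s.2 : ℝ)| + 1 / 2 * 3 ^ s.1 := by
    field_simp
    ring
  rw [this, abs_le]
  have h4 := abs_le.mp (le_refl |(s.2 : ℝ)|)
  constructor <;> linarith [h4.1, h4.2]

theorem psi_s1_odd {s : St} (hk : 1 ≤ s.1) (h : s.2 % 2 = 1) : psi (s1 s) ≤ 1.2248 * psi s + 0.7072 := by
  obtain ⟨k, E⟩ := s
  obtain ⟨j, rfl⟩ : ∃ j, k = j + 1 := ⟨k - 1, by simp only at hk; omega⟩
  simp only at h
  have e : s1 (j + 1, E) = (j, (E - 3 ^ j) / 2) := by simp [s1, h]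
  have h3 := three_pow_odd j
  refine psi_le_of (s := (j + 1, E)) (t := s1 (j + 1, E)) (c1 := 3/2) (c2 := 1/2) (by norm_num)
    (by norm_num) (by norm_num) (by norm_num) ?_
  rw [e]; simp only
  rw [cast_half (by omega)]
  push_cast
  have hp : 0 < (3 : ℝ) ^ j := by positivity
  rw [div_le_iff₀ hp, pow_succ]
  have : (3 / 2 * (|(E : ℝ)| / (3 ^ j * 3)) + 1 / 2) * 3 ^ j = 1 / 2 * |(E : ℝ)| + 1 / 2 * 3 ^ j := by
    field_simp
  rw [this, abs_le]
  have h4 := abs_le.mp (le_refl |(E : ℝ)|)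
  constructor <;> linarith [h4.1, h4.2]

theorem psi_s1_odd_zero {s : St} (hk : s.1 = 0) (h : s.2 % 2 = 1) :
    psi (s1 s) ≤ 0.7072 * psi s + 0.41 := by
  obtain ⟨k, E⟩ := s
  simp only at hk h
  subst hk
  have e : s1 (0, E) = (1, (1 - 3 * E) / 2) := by simp [s1, h]
  refine psi_le_of (s := (0, E)) (t := s1 (0, E)) (c1 := 1/2) (c2 := 1/6) (by norm_num)
    (by norm_num) (by norm_num) (by norm_num) ?_
  rw [e]; simp only [pow_one, pow_zero]
  rw [cast_half (by omega)]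
  push_cast
  rw [div_le_iff₀ (by norm_num)]
  have : (1 / 2 * (|(E : ℝ)| / 1) + 1 / 6) * 3 = 3 / 2 * |(E : ℝ)| + 1 / 2 := by ring
  rw [this, abs_le]
  have h4 := abs_le.mp (le_refl |(E : ℝ)|)
  constructor <;> linarith [h4.1, h4.2]

/-- The weights. -/
noncomputable def w (k : ℕ) : ℝ := 1 / ((k : ℝ) + 512) ^ 3

theorem w_pos (k : ℕ) : 0 < w k := by unfold w; positivity

theorem w_succ_le (k : ℕ) : w (k + 1) ≤ w k := by
  unfold w
  apply one_div_le_one_div_of_le (by positivity)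
  push_cast
  gcongr
  linarith

theorem w_pred_le {k : ℕ} : w k ≤ 1.01 * w (k + 1) := by
  unfold w
  push_cast
  have hk : (0 : ℝ) ≤ k := Nat.cast_nonneg k
  set x : ℝ := (k : ℝ) + 512 with hx
  have hx512 : 512 ≤ x := by linarith
  have e : (k : ℝ) + 1 + 512 = x + 1 := by rw [hx]; ring
  rw [e, mul_one_div, div_le_div_iff₀ (by positivity) (by positivity)]
  have : x + 1 ≤ 1.002 * x := by linarith
  have h3 : (x + 1) ^ 3 ≤ (1.002 * x) ^ 3 := by gcongr
  have h4 : 0 < x ^ 3 := by positivity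
  nlinarith

/-- The perturbation. -/
noncomputable def Phi (s : St) : ℝ := w s.1 * (psi s + L s)

theorem Phi_nonneg (s : St) : 0 ≤ Phi s :=
  mul_nonneg (w_pos _).le (add_nonneg (psi_nonneg s) (L_nonneg s))

/-- The superharmonic function. -/
noncomputable def U0 (s : St) : ℝ := s.1 + Real.log (s.1 + 512) + 5 * Real.log (1 + Phi s)

theorem log_mid {x y z : ℝ} (hx : 0 ≤ x) (hy : 0 ≤ y) (hz : x + y ≤ 2 * z) :
    Real.log (1 + x) + Real.log (1 + y) ≤ 2 * Real.log (1 + z) := by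
  rw [← Real.log_mul (by positivity) (by positivity)]
  have hz0 : 0 ≤ z := by linarith
  have e : 2 * Real.log (1 + z) = Real.log ((1 + z) ^ 2) := by
    rw [Real.log_pow]; norm_num
  rw [e]
  apply Real.log_le_log (by positivity)
  have h1 : (1 + x) * (1 + y) ≤ ((2 + x + y) / 2) ^ 2 := by nlinarith [sq_nonneg (x - y)]
  have h2 : ((2 + x + y) / 2) ^ 2 ≤ (1 + z) ^ 2 := by
    apply pow_le_pow_left₀ (by positivity)
    linarith
  exact h1.trans h2

theorem log_add_le {x y : ℝ} (hx : 0 ≤ x) (hy : 0 ≤ y) :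
    Real.log (1 + (x + y)) ≤ Real.log (1 + x) + y := by
  have h : 1 + (x + y) ≤ (1 + x) * Real.exp y := by
    have := Real.add_one_le_exp y
    nlinarith
  calc Real.log (1 + (x + y)) ≤ Real.log ((1 + x) * Real.exp y) :=
        Real.log_le_log (by positivity) h
    _ = Real.log (1 + x) + y := by
        rw [Real.log_mul (by positivity) (Real.exp_pos y).ne', Real.log_exp]

/-- Even phase at `k ≥ 1`. -/
theorem U0_even_pos {s : St} (hk : 1 ≤ s.1) (h : s.2 % 2 = 0) :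
    U0 (s0 s) + U0 (s1 s) ≤ 2 * U0 s := by
  have e0 : (s0 s).1 = s.1 := by simp [s0, h]
  have e1 : (s1 s).1 = s.1 := by simp [s1, h]
  unfold U0
  rw [e0, e1]
  have key : Phi (s0 s) + Phi (s1 s) ≤ 2 * Phi s := by
    unfold Phi
    rw [e0, e1]
    have h1 := psi_s0_even h
    have h2 := psi_s1_even h
    have h3 := L_even hk h
    have h4 := psi_nonneg s
    have : psi (s0 s) + L (s0 s) + (psi (s1 s) + L (s1 s)) ≤ 2 * (psi s + L s) := by linarith
    have := mul_le_mul_of_nonneg_left this (w_pos s.1).le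
    linarith
  have := log_mid (Phi_nonneg _) (Phi_nonneg _) key
  linarith

/-- The constant of the drift at `k = 0`, `E` even. -/
noncomputable def c0 : ℝ := 5 * Real.log (1 + w 0 / 100)

theorem c0_pos : 0 < c0 := by
  unfold c0
  have := w_pos 0
  have : 0 < Real.log (1 + w 0 / 100) := Real.log_pos (by linarith)
  linarith

theorem one_le_psi {E : ℤ} (hE : E ≠ 0) : 1 ≤ psi (0, E) := by
  unfold psi
  simp only [pow_zero, div_one]
  rw [Real.one_le_sqrt]
  have : 1 ≤ |E| := Int.one_le_abs hE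
  exact_mod_cast this

/-- Even phase at `k = 0`. -/
theorem U0_even_zero {s : St} (hk : s.1 = 0) (h : s.2 % 2 = 0) (hs : s.2 ≠ 0) :
    (U0 (s0 s) + U0 (s1 s)) / 2 ≤ U0 s - c0 := by
  have e0 : (s0 s).1 = s.1 := by simp [s0, h]
  have e1 : (s1 s).1 = s.1 := by simp [s1, h]
  unfold U0
  rw [e0, e1]
  have hL : ∀ t : St, t.1 = 0 → L t = 0 := by
    intro t ht
    obtain ⟨a, b⟩ := t
    simp only at ht
    subst ht
    exact L_zero b
  have hw := w_pos 0
  have hw1 : w 0 ≤ 1 := by unfold w; norm_num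
  have h4 := psi_nonneg s
  have hpsi : 1 ≤ psi s := by
    obtain ⟨a, b⟩ := s
    simp only at hk
    subst hk
    exact one_le_psi hs
  have key : Phi (s0 s) + Phi (s1 s) ≤ 2 * (0.966 * Phi s) := by
    unfold Phi
    rw [e0, e1, hL _ (e0.trans hk), hL _ (e1.trans hk), hL _ hk]
    have h1 := psi_s0_even h
    have h2 := psi_s1_even_zero hk h
    have : psi (s0 s) + 0 + (psi (s1 s) + 0) ≤ 2 * (0.966 * (psi s + 0)) := by linarith
    have := mul_le_mul_of_nonneg_left this (w_pos s.1).le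
    linarith
  have h5 := log_mid (Phi_nonneg _) (Phi_nonneg _) key
  have hPhi : w 0 ≤ Phi s := by
    unfold Phi
    rw [hL _ hk, hk]
    nlinarith
  have h6 : (1 + w 0 / 100) * (1 + 0.966 * Phi s) ≤ 1 + Phi s := by nlinarith
  have h7 := Real.log_le_log (by have := Phi_nonneg s; positivity) h6
  rw [Real.log_mul (by positivity) (by have := Phi_nonneg s; positivity)] at h7
  unfold c0
  linarith

/-- Odd states at `k ≥ 1`. -/
theorem U0_odd_pos {s : St} (hk : 1 ≤ s.1) (h : s.2 % 2 = 1) :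
    U0 (s0 s) + U0 (s1 s) ≤ 2 * U0 s := by
  have h1 := psi_s0_odd h
  have h2 := psi_s1_odd hk h
  have hL0 := L_le (s0 s)
  have hL1 := L_le (s1 s)
  have hLs := L_odd h
  obtain ⟨k, E⟩ := s
  obtain ⟨j, rfl⟩ : ∃ j, k = j + 1 := ⟨k - 1, by simp only at hk; omega⟩
  simp only at h
  have e0 : (s0 (j + 1, E)).1 = j + 2 := by simp [s0, h]
  have e1 : (s1 (j + 1, E)).1 = j := by simp [s1, h]
  set s : St := (j + 1, E) with hsdef
  have es : s.1 = j + 1 := rfl
  have hj : (0 : ℝ) ≤ j := Nat.cast_nonneg j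
  -- nu bounds
  have hn0 : (64 : ℝ) * nu (j + 2) ≤ 4 * (j + 2) + 320 := by
    exact_mod_cast nu_le (k := j + 2) (by omega)
  have hn1 : (64 : ℝ) * nu j ≤ 4 * (j + 2) + 320 := by
    rcases Nat.eq_zero_or_pos j with h0 | h0
    · rw [h0]
      have : nu 0 = 0 := by simp [nu]
      rw [this]; norm_num
    · have : (64 : ℝ) * nu j ≤ 4 * j + 320 := by exact_mod_cast nu_le (k := j) h0
      linarith
  rw [e0] at hL0
  rw [e1] at hL1
  have hpn := psi_nonneg s
  set W := w (j + 1) with hW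
  have hWpos : 0 < W := w_pos _
  set B : ℝ := 1.6 + (4 * (j + 2) + 320) / 63 with hB
  have key : Phi (s0 s) + Phi (s1 s) ≤ 2 * (Phi s + W * B) := by
    unfold Phi
    rw [e0, e1, hLs, es]
    have hw2 : w (j + 2) ≤ W := w_succ_le (j + 1)
    have hw0 : w j ≤ 1.01 * W := w_pred_le
    have hA0 : 0 ≤ psi (s0 s) + L (s0 s) := add_nonneg (psi_nonneg _) (L_nonneg _)
    have hA1 : 0 ≤ psi (s1 s) + L (s1 s) := add_nonneg (psi_nonneg _) (L_nonneg _)
    have g0 : w (j + 2) * (psi (s0 s) + L (s0 s)) ≤ W * (psi (s0 s) + L (s0 s)) :=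
      mul_le_mul_of_nonneg_right hw2 hA0
    have g1 : w j * (psi (s1 s) + L (s1 s)) ≤ 1.01 * W * (psi (s1 s) + L (s1 s)) :=
      mul_le_mul_of_nonneg_right hw0 hA1
    have g2 : (psi (s0 s) + L (s0 s)) + 1.01 * (psi (s1 s) + L (s1 s)) ≤
        2 * (psi s + 0 + B) := by
      rw [hB]
      linarith
    have := mul_le_mul_of_nonneg_left g2 hWpos.le
    linarith
  have h5 := log_mid (Phi_nonneg _) (Phi_nonneg _) key
  have hBpos : 0 ≤ B := by rw [hB]; positivity
  have h6 := log_add_le (Phi_nonneg s) (mul_nonneg hWpos.le hBpos)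
  -- the logarithm of k
  have h7 : Real.log ((j : ℝ) + 2 + 512) + Real.log ((j : ℝ) + 512) ≤
      2 * Real.log ((j : ℝ) + 1 + 512) - 1 / ((j : ℝ) + 1 + 512) ^ 2 := by
    set x : ℝ := (j : ℝ) + 1 + 512 with hx
    have hx1 : 513 ≤ x := by linarith
    have e1 : (j : ℝ) + 2 + 512 = x + 1 := by rw [hx]; ring
    have e2 : (j : ℝ) + 512 = x - 1 := by rw [hx]; ring
    rw [e1, e2, ← Real.log_mul (by linarith) (by linarith)]
    have e3 : (x + 1) * (x - 1) = x ^ 2 * (1 - 1 / x ^ 2) := by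
      field_simp
      ring
    have hlt : 1 / x ^ 2 < 1 := by
      rw [div_lt_one (by positivity)]
      nlinarith
    rw [e3, Real.log_mul (by positivity) (by linarith), Real.log_pow]
    have := Real.log_le_sub_one_of_pos (x := 1 - 1 / x ^ 2) (by linarith)
    push_cast
    linarith
  have h8 : 10 * (W * B) ≤ 1 / ((j : ℝ) + 1 + 512) ^ 2 := by
    rw [hW]
    unfold w
    push_cast
    have e : 1 / ((j : ℝ) + 1 + 512) ^ 2 = 1 / ((j : ℝ) + 1 + 512) ^ 3 * ((j : ℝ) + 1 + 512) := by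
      field_simp
    rw [e]
    have hp : 0 < 1 / ((j : ℝ) + 1 + 512) ^ 3 := by positivity
    have hB2 : 10 * B ≤ (j : ℝ) + 1 + 512 := by
      rw [hB]; linarith
    have := mul_le_mul_of_nonneg_left hB2 hp.le
    linarith
  unfold U0
  rw [e0, e1, es]
  push_cast
  linarith

theorem nu_one : nu 1 = 1 := by
  have h1 := nu_pos (k := 1) le_rfl
  have h2 := two_pow_nu_le (k := 1) le_rfl
  have h3 : nu 1 ≤ 2 := by
    by_contra hc
    have : 2 ^ 3 ≤ 2 ^ nu 1 := Nat.pow_le_pow_right (by norm_num) (by omega)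
    omega
  have h4 : nu 1 ≠ 2 := by
    intro hc
    have := nu_dvd 1
    rw [hc] at this
    norm_num at this
  omega

/-- Odd states at `k = 0`, `|E|` large. -/
theorem U0_odd_zero_big {s : St} (hk : s.1 = 0) (h : s.2 % 2 = 1) (hs : (10 : ℝ) ^ 9 ≤ psi s) :
    U0 (s0 s) + U0 (s1 s) ≤ 2 * U0 s := by
  have h1 := psi_s0_odd h
  have h2 := psi_s1_odd_zero hk h
  have hL0 := L_le (s0 s)
  have hL1 := L_le (s1 s)
  have hLs := L_odd h
  have e0 : (s0 s).1 = 1 := by simp [s0, h, hk]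
  have e1 : (s1 s).1 = 1 := by simp [s1, h, hk]
  rw [e0, nu_one] at hL0
  rw [e1, nu_one] at hL1
  push_cast at hL0 hL1
  have hw0 : w 0 = 1 / 512 ^ 3 := by unfold w; norm_num
  have hPs : Phi s = w 0 * psi s := by unfold Phi; rw [hLs, hk, add_zero]
  have hw1 : w 1 ≤ w 0 := w_succ_le 0
  have bound : ∀ t : St, t.1 = 1 → psi t ≤ 0.7072 * psi s + 0.41 → L t ≤ 1 + 1 →
      Real.log (1 + Phi t) ≤ Real.log (1 + Phi s) - 0.2008 := by
    intro t ht hpt hLt
    have hPt : Phi t ≤ w 0 * (0.7072 * psi s + 2.41) := by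
      unfold Phi
      rw [ht]
      have : 0 ≤ psi t + L t := add_nonneg (psi_nonneg _) (L_nonneg _)
      calc w 1 * (psi t + L t) ≤ w 0 * (psi t + L t) := mul_le_mul_of_nonneg_right hw1 this
        _ ≤ _ := mul_le_mul_of_nonneg_left (by linarith) (w_pos 0).le
    have h3 : 1.29 * (1 + Phi t) ≤ 1 + Phi s := by
      rw [hPs]
      rw [hw0] at hPt ⊢
      nlinarith
    have hpos : 0 < 1 + Phi t := by have := Phi_nonneg t; linarith
    have h4 := Real.log_le_log (by positivity) h3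
    rw [Real.log_mul (by norm_num) hpos.ne'] at h4
    have h5 := Real.one_sub_inv_le_log_of_pos (x := 1.29) (by norm_num)
    have h6 : (0.2008 : ℝ) ≤ 1 - (1.29 : ℝ)⁻¹ := by norm_num
    linarith
  have b0 := bound _ e0 h1 hL0
  have b1 := bound _ e1 h2 hL1
  have h7 : Real.log 513 ≤ Real.log 512 + 1 / 512 := by
    have e : (513 : ℝ) = 512 * (1 + 1 / 512) := by norm_num
    rw [e, Real.log_mul (by norm_num) (by norm_num)]
    have := Real.log_le_sub_one_of_pos (x := 1 + 1 / 512) (by norm_num)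
    linarith
  unfold U0
  rw [e0, e1, hk]
  have c1 : (((1 : ℕ) : ℝ) + 512) = 513 := by norm_num
  have c2 : (((0 : ℕ) : ℝ) + 512) = 512 := by norm_num
  rw [c1, c2]
  push_cast
  linarith

/-- Odd states at `k = 0`, in general. -/
theorem U0_odd_zero {s : St} (hk : s.1 = 0) (h : s.2 % 2 = 1) :
    U0 (s0 s) + U0 (s1 s) ≤ 2 * U0 s + 4 := by
  have h1 := psi_s0_odd h
  have h2 := psi_s1_odd_zero hk h
  have hL0 := L_le (s0 s)
  have hL1 := L_le (s1 s)
  have hLs := L_odd h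
  have e0 : (s0 s).1 = 1 := by simp [s0, h, hk]
  have e1 : (s1 s).1 = 1 := by simp [s1, h, hk]
  rw [e0, nu_one] at hL0
  rw [e1, nu_one] at hL1
  push_cast at hL0 hL1
  have hw0 : w 0 = 1 / 512 ^ 3 := by unfold w; norm_num
  have hPs : Phi s = w 0 * psi s := by unfold Phi; rw [hLs, hk, add_zero]
  have hw1 : w 1 ≤ w 0 := w_succ_le 0
  have hpn := psi_nonneg s
  have bound : ∀ t : St, t.1 = 1 → psi t ≤ 0.7072 * psi s + 0.41 → L t ≤ 1 + 1 →
      Real.log (1 + Phi t) ≤ Real.log (1 + Phi s) + 0.01 := by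
    intro t ht hpt hLt
    have hPt : Phi t ≤ Phi s + 0.01 := by
      have h3 : Phi t ≤ w 0 * (0.7072 * psi s + 2.41) := by
        unfold Phi
        rw [ht]
        have : 0 ≤ psi t + L t := add_nonneg (psi_nonneg _) (L_nonneg _)
        calc w 1 * (psi t + L t) ≤ w 0 * (psi t + L t) := mul_le_mul_of_nonneg_right hw1 this
          _ ≤ _ := mul_le_mul_of_nonneg_left (by linarith) (w_pos 0).le
      rw [hPs]
      rw [hw0] at h3 ⊢
      nlinarith
    have hpos : 0 < 1 + Phi t := by have := Phi_nonneg t; linarith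
    refine (Real.log_le_log hpos (by linarith : 1 + Phi t ≤ 1 + (Phi s + 0.01))).trans ?_
    exact log_add_le (Phi_nonneg s) (by norm_num)
  have b0 := bound _ e0 h1 hL0
  have b1 := bound _ e1 h2 hL1
  have h7 : Real.log 513 ≤ Real.log 512 + 1 / 512 := by
    have e : (513 : ℝ) = 512 * (1 + 1 / 512) := by norm_num
    rw [e, Real.log_mul (by norm_num) (by norm_num)]
    have := Real.log_le_sub_one_of_pos (x := 1 + 1 / 512) (by norm_num)
    linarith
  unfold U0
  rw [e0, e1, hk]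
  have c1 : (((1 : ℕ) : ℝ) + 512) = 513 := by norm_num
  have c2 : (((0 : ℕ) : ℝ) + 512) = 512 := by norm_num
  rw [c1, c2]
  push_cast
  linarith

theorem U0_nonneg (s : St) : (s.1 : ℝ) ≤ U0 s := by
  unfold U0
  have h1 : 0 ≤ Real.log ((s.1 : ℝ) + 512) := Real.log_nonneg (by
    have : (0 : ℝ) ≤ s.1 := Nat.cast_nonneg _
    linarith)
  have h2 : 0 ≤ Real.log (1 + Phi s) := Real.log_nonneg (by have := Phi_nonneg s; linarith)
  linarith

end Pool.Agent.Lib.MP_d0d59f_nt.LC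

end
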