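import Mathlib
import Pool.Agent.Lib.MP_d0d59f_nt.NK.K045

/-!
The rate of absorption.
-/

namespace Pool.Agent.Lib.MP_d0d59f_nt.LC

/-- Truncated expected time. -/
noncomputable def theta (N : ℕ) (s : St) : ℝ := ∑ n ∈ Finset.range N, q n s

theorem theta_nonneg (N : ℕ) (s : St) : 0 ≤ theta N s := Finset.sum_nonneg fun _ _ => q_nonneg _ _

theorem theta_le (N : ℕ) (s : St) : theta N s ≤ N := by
  unfold theta
  calc _ ≤ ∑ n ∈ Finset.range N, (1 : ℝ) := Finset.sum_le_sum fun n _ => q_le_one n s
    _ = N := by simp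

theorem theta_mean (N : ℕ) {s : St} (hs : s ≠ (0, 0)) :
    (theta N (s0 s) + theta N (s1 s)) / 2 = theta N s - (1 - q N s) := by
  have h1 : (theta N (s0 s) + theta N (s1 s)) / 2 = ∑ n ∈ Finset.range N, q (n + 1) s := by
    unfold theta
    rw [← Finset.sum_add_distrib, Finset.sum_div]
    exact Finset.sum_congr rfl fun n _ => (q_succ n hs).symm
  have h2 : ∑ n ∈ Finset.range (N + 1), q n s = theta N s + q N s := by
    rw [Finset.sum_range_succ]; rfl
  have h3 : ∑ n ∈ Finset.range (N + 1), q n s = (∑ n ∈ Finset.range N, q (n + 1) s) + q 0 s :=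
    Finset.sum_range_succ' _ _
  rw [h1]
  have h4 := q_zero hs
  linarith

/-- The superharmonic function. -/
theorem exists_U : ∃ (U : St → ℝ) (C c : ℝ), 0 < C ∧ 0 < c ∧ (∀ s, (s.1 : ℝ) ≤ U s) ∧
    (∀ s : St, s ≠ (0, 0) → (U (s0 s) + U (s1 s)) / 2 ≤ U s) ∧
    (∀ s : St, s ≠ (0, 0) → s.1 = 0 → s.2 % 2 = 0 → (U (s0 s) + U (s1 s)) / 2 ≤ U s - c) ∧
    ∀ E : ℤ, U (0, E) ≤ C * Real.log (|(E : ℝ)| + 2) := by
  obtain ⟨N, δ, hδ, hN⟩ := exists_unif (10 ^ 18)
  set D : ℝ := 2 / δ with hD
  have hDpos : 0 < D := by positivity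
  have hmean : ∀ s : St, s ≠ (0, 0) →
      (D * theta N (s0 s) + D * theta N (s1 s)) / 2 = D * theta N s - D * (1 - q N s) := by
    intro s hs
    have := theta_mean N hs
    calc _ = D * ((theta N (s0 s) + theta N (s1 s)) / 2) := by ring
      _ = _ := by rw [this]; ring
  have hle : ∀ s : St, s ≠ (0, 0) →
      (D * theta N (s0 s) + D * theta N (s1 s)) / 2 ≤ D * theta N s := by
    intro s hs
    rw [hmean s hs]
    have := q_le_one N s
    nlinarith
  refine ⟨fun s => U0 s + D * theta N s, 20 + 2 * D * N, c0, by positivity, c0_pos, ?_, ?_, ?_, ?_⟩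
  · intro s
    have h1 := U0_nonneg s
    have h2 := mul_nonneg hDpos.le (theta_nonneg N s)
    simp only
    linarith
  · intro s hs
    have h1 := hle s hs
    simp only
    rcases Int.emod_two_eq_zero_or_one s.2 with h0 | h0
    · rcases Nat.eq_zero_or_pos s.1 with hk | hk
      · have hs2 : s.2 ≠ 0 := by
          intro h
          exact hs (Prod.ext hk h)
        have := U0_even_zero hk h0 hs2
        have := c0_pos
        linarith
      · have := U0_even_pos hk h0
        linarith
    · rcases Nat.eq_zero_or_pos s.1 with hk | hk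
      · by_cases hbig : (10 : ℝ) ^ 9 ≤ psi s
        · have := U0_odd_zero_big hk h0 hbig
          linarith
        · have h2 := U0_odd_zero hk h0
          have h3 := hmean s hs
          have hE : s.2.natAbs ≤ 10 ^ 18 := by
            push Not at hbig
            have h4 := psi_sq s
            rw [hk, pow_zero, div_one] at h4
            have h5 : |(s.2 : ℝ)| ≤ (10 : ℝ) ^ 18 := by
              rw [← h4]
              have h6 := psi_nonneg s
              have : psi s ^ 2 ≤ ((10 : ℝ) ^ 9) ^ 2 := pow_le_pow_left₀ h6 hbig.le 2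
              refine this.trans (le_of_eq ?_)
              rw [← pow_mul]
            have h7 : ((s.2.natAbs : ℕ) : ℝ) ≤ ((10 ^ 18 : ℕ) : ℝ) := by
              rw [Nat.cast_natAbs, Nat.cast_pow]
              push_cast
              exact_mod_cast h5
            exact_mod_cast h7
          have h8 : q N s ≤ 1 - δ := by
            have := hN s.2 hE
            have e : s = (0, s.2) := Prod.ext hk rfl
            rw [e]
            exact this
          have h9 : 2 ≤ D * (1 - q N s) := by
            have : D * δ = 2 := by rw [hD]; field_simp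
            nlinarith
          linarith
      · have := U0_odd_pos hk h0
        linarith
  · intro s hs hk h0
    have h1 := hle s hs
    simp only
    have hs2 : s.2 ≠ 0 := by
      intro h
      exact hs (Prod.ext hk h)
    have := U0_even_zero hk h0 hs2
    linarith
  · intro E
    simp only
    have h1 : U0 (0, E) ≤ 7 + 5 * Real.log (|(E : ℝ)| + 2) := by
      unfold U0
      simp only [Nat.cast_zero, zero_add]
      have h2 : Real.log 512 ≤ 7 := by
        have : (512 : ℝ) = 2 ^ 9 := by norm_num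
        rw [this, Real.log_pow]
        have := Real.log_two_lt_d9
        push_cast
        linarith
      have h3 : Real.log (1 + Phi (0, E)) ≤ Real.log (|(E : ℝ)| + 2) := by
        apply Real.log_le_log (by have := Phi_nonneg (0, E); linarith)
        unfold Phi psi
        rw [L_zero]
        simp only [pow_zero, div_one, add_zero]
        have hw : w 0 ≤ 1 := by unfold w; norm_num
        have hw0 := w_pos 0
        have h4 : Real.sqrt |(E : ℝ)| ≤ |(E : ℝ)| + 1 := by
          rw [Real.sqrt_le_left (by positivity)]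
          nlinarith [abs_nonneg (E : ℝ)]
        have h5 := Real.sqrt_nonneg |(E : ℝ)|
        nlinarith
      linarith
    have h2 := theta_le N (0, E)
    have h3 : (0.6 : ℝ) ≤ Real.log (|(E : ℝ)| + 2) := by
      have h4 : Real.log 2 ≤ Real.log (|(E : ℝ)| + 2) :=
        Real.log_le_log (by norm_num) (by linarith [abs_nonneg (E : ℝ)])
      have := Real.log_two_gt_d9
      linarith
    have hNn : (0 : ℝ) ≤ N := Nat.cast_nonneg N
    have h5 : D * theta N (0, E) ≤ D * N := mul_le_mul_of_nonneg_left h2 hDpos.le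
    have h6 : D * N ≤ 2 * D * N * Real.log (|(E : ℝ)| + 2) := by
      have : 0 ≤ D * N := by positivity
      nlinarith
    linarith

theorem nu_real_le {k R : ℕ} (hR : 1 ≤ R) (hk : k ≤ R) :
    (nu k : ℝ) + 2 ≤ 2 + 2 * Real.log (4 * R) := by
  have hRr : (1 : ℝ) ≤ R := by exact_mod_cast hR
  rcases Nat.eq_zero_or_pos k with h0 | h0
  · have : nu k = 0 := by rw [h0]; simp [nu]
    rw [this]
    have : 0 ≤ Real.log (4 * R) := Real.log_nonneg (by linarith)
    push_cast
    linarith
  · have h1 : (2 : ℝ) ^ nu k ≤ 4 * R := by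
      have := two_pow_nu_le h0
      have h2 : 2 ^ nu k ≤ 4 * R := this.trans (by omega)
      exact_mod_cast h2
    have h3 := Real.log_le_log (by positivity) h1
    rw [Real.log_pow] at h3
    have h4 := Real.log_two_gt_d9
    have h5 : (0 : ℝ) ≤ nu k := Nat.cast_nonneg _
    nlinarith

/-- The bound at a given scale `R`. -/
theorem q_le_scale : ∃ (U : St → ℝ) (A C : ℝ), 0 < A ∧ 0 < C ∧
    (∀ E : ℤ, U (0, E) ≤ C * Real.log (|(E : ℝ)| + 2)) ∧
    ∀ (m R : ℕ) (s : St), 1 ≤ R → q m s ≤ A / R * U s +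
      3 * Real.exp (-(m / (3 * (2 + 2 * Real.log (4 * R)) * R ^ 2))) := by
  obtain ⟨U, C, c, hC, hc, hUk, hUs, hUc, hU0⟩ := exists_U
  refine ⟨U, max 1 (1 / c), C, by positivity, hC, hU0, ?_⟩
  intro m R s hR
  set A := max 1 (1 / c) with hA
  have hA1 : 1 ≤ A := le_max_left _ _
  have hAc : 1 ≤ A * c := by
    have : 1 / c ≤ A := le_max_right _ _
    rw [div_le_iff₀ hc] at this
    exact this
  have hRr : (1 : ℝ) ≤ R := by exact_mod_cast hR
  set Λ : ℝ := 2 + 2 * Real.log (4 * R) with hΛ
  have hlog : 0 ≤ Real.log (4 * R) := Real.log_nonneg (by linarith)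
  have hΛ1 : 2 ≤ Λ := by rw [hΛ]; linarith
  have hnu : ∀ k ≤ R, (nu k : ℝ) + 2 ≤ Λ := fun k hk => nu_real_le hR hk
  set lam : ℝ := 1 / (3 * Λ * R ^ 2) with hlam
  have hR2 : (1 : ℝ) ≤ R ^ 2 := one_le_pow₀ hRr
  have hden : 0 < 3 * Λ * (R : ℝ) ^ 2 := by positivity
  have hlam0 : 0 ≤ lam := by rw [hlam]; positivity
  have hlam1 : lam ≤ 1 := by
    rw [hlam, div_le_one hden]
    nlinarith
  have hlam3 : 3 * lam = 1 / (Λ * R ^ 2) := by rw [hlam]; field_simp
  set Ψ : St → ℝ := fun s => 2 - ((min s.1 R : ℕ) : ℝ) ^ 2 / R ^ 2 + L s / (Λ * R ^ 2) with hΨ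
  have hmin1 : ∀ s : St, ((min s.1 R : ℕ) : ℝ) ^ 2 / R ^ 2 ≤ 1 := by
    intro s
    rw [div_le_one (by positivity)]
    have : ((min s.1 R : ℕ) : ℝ) ≤ R := by exact_mod_cast min_le_right _ _
    gcongr
  have hLd : ∀ s : St, 0 ≤ L s / (Λ * R ^ 2) := fun s => by
    have := L_nonneg s
    positivity
  have hΨ1 : ∀ s, 1 ≤ Ψ s := by
    intro s
    have := hmin1 s; have := hLd s
    simp only [hΨ]
    linarith
  have hΨ3 : ∀ s : St, s.1 ≤ R → Ψ s ≤ 3 := by
    intro s hs
    have h1 : L s / (Λ * R ^ 2) ≤ 1 := by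
      rw [div_le_one (by positivity)]
      have h2 := L_le s
      have h3 := hnu s.1 hs
      nlinarith
    have h4 : 0 ≤ ((min s.1 R : ℕ) : ℝ) ^ 2 / (R : ℝ) ^ 2 := by positivity
    simp only [hΨ]
    linarith
  have hU0' : ∀ s, 0 ≤ U s := fun s => (Nat.cast_nonneg s.1).trans (hUk s)
  have hbig : ∀ s : St, R ≤ s.1 → 1 ≤ A / R * U s := by
    intro s hs
    have h6 := hUk s
    have h7 : (R : ℝ) ≤ s.1 := by exact_mod_cast hs
    have h8 : (R : ℝ) ≤ U s := h7.trans h6
    calc (1 : ℝ) ≤ A := hA1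
      _ = A / R * R := by field_simp
      _ ≤ A / R * U s := mul_le_mul_of_nonneg_left h8 (by positivity)
  by_cases hs : s.1 ≤ R
  swap
  · have h1 := hbig s (not_le.mp hs).le
    have h2 := q_le_one m s
    have h3 : 0 ≤ 3 * Real.exp (-(m / (3 * Λ * (R : ℝ) ^ 2))) := by positivity
    linarith
  have main := q_le_of_super U Ψ R (A / R) lam hlam0 hlam1 (by positivity) hΨ1 hU0' hbig hUs ?_ m s
  · refine main.trans ?_
    have h1 : (1 - lam) ^ m ≤ Real.exp (-(m / (3 * Λ * R ^ 2))) := by
      have h2 : 1 - lam ≤ Real.exp (-lam) := by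
        have := Real.add_one_le_exp (-lam); linarith
      calc (1 - lam) ^ m ≤ (Real.exp (-lam)) ^ m := pow_le_pow_left₀ (by linarith) h2 m
        _ = Real.exp (-(m / (3 * Λ * R ^ 2))) := by
            rw [← Real.exp_nat_mul]
            congr 1
            rw [hlam]; ring
    have hpow0 : 0 ≤ (1 - lam) ^ m := pow_nonneg (by linarith) m
    have h3 := hΨ3 s hs
    have h4 : (1 - lam) ^ m * Ψ s ≤ (1 - lam) ^ m * 3 := mul_le_mul_of_nonneg_left h3 hpow0
    linarith
  · intro s hs hsR
    have hsub : ∀ x, x ≤ Ψ s - 1 / (Λ * R ^ 2) → x ≤ (1 - lam) * Ψ s := by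
      intro x hx
      have := hΨ3 s hsR.le
      nlinarith
    rcases Int.emod_two_eq_zero_or_one s.2 with h0 | h0
    · have e0 : (s0 s).1 = s.1 := by simp [s0, h0]
      have e1 : (s1 s).1 = s.1 := by simp [s1, h0]
      rcases Nat.eq_zero_or_pos s.1 with hk | hk
      · right
        have hL0 : ∀ t : St, t.1 = 0 → L t = 0 := by
          intro t ht
          obtain ⟨a, b⟩ := t
          simp only at ht
          subst ht
          exact L_zero b
        have hΨ2 : ∀ t : St, t.1 = 0 → Ψ t = 2 := by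
          intro t ht
          simp only [hΨ]
          rw [ht, hL0 t ht]
          simp
        rw [hΨ2 _ (e0.trans hk), hΨ2 _ (e1.trans hk), hΨ2 _ hk]
        refine ⟨by norm_num, ?_⟩
        have h2 := hUc s hs hk h0
        have h3 : A / R * ((U (s0 s) + U (s1 s)) / 2) ≤ A / R * (U s - c) :=
          mul_le_mul_of_nonneg_left h2 (by positivity)
        have h4 : lam * 2 ≤ A / R * c := by
          have h5 : lam * 2 ≤ 1 / R := by
            rw [hlam, div_mul_eq_mul_div, div_le_div_iff₀ hden (by positivity)]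
            have : (R : ℝ) ≤ R ^ 2 := by nlinarith
            nlinarith
          have h6 : 1 / (R : ℝ) ≤ A / R * c := by
            rw [div_mul_eq_mul_div]
            gcongr
          linarith
        linarith
      · left
        apply hsub
        simp only [hΨ]
        rw [e0, e1]
        have h2 := L_even hk h0
        have h3 : L (s0 s) / (Λ * R ^ 2) + L (s1 s) / (Λ * R ^ 2) ≤
            2 * (L s / (Λ * R ^ 2)) - 2 * (1 / (Λ * R ^ 2)) := by
          rw [← add_div, mul_div_assoc', mul_div_assoc', ← sub_div]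
          gcongr
          linarith
        linarith
    · left
      apply hsub
      have hk1 : (s0 s).1 = s.1 + 1 := by simp [s0, h0]
      have hLs := L_odd h0
      have hb0 : L (s0 s) ≤ Λ - 1 := by
        have h2 := L_le (s0 s)
        have h3 := hnu (s0 s).1 (by rw [hk1]; omega)
        linarith
      have hs1R : (s1 s).1 ≤ R := by
        rcases Nat.eq_zero_or_pos s.1 with hk | hk
        · have : (s1 s).1 = 1 := by simp [s1, h0, hk]
          rw [this]; exact hR
        · have : (s1 s).1 = s.1 - 1 := by simp [s1, h0, hk.ne']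
          rw [this]; omega
      have hb1 : L (s1 s) ≤ Λ - 1 := by
        have h2 := L_le (s1 s)
        have h3 := hnu (s1 s).1 hs1R
        linarith
      have hb0' : L (s0 s) / (Λ * R ^ 2) ≤ 1 / R ^ 2 - 1 / (Λ * R ^ 2) := by
        have : (1 : ℝ) / R ^ 2 - 1 / (Λ * R ^ 2) = (Λ - 1) / (Λ * R ^ 2) := by field_simp
        rw [this]
        gcongr
      have hb1' : L (s1 s) / (Λ * R ^ 2) ≤ 1 / R ^ 2 - 1 / (Λ * R ^ 2) := by
        have : (1 : ℝ) / R ^ 2 - 1 / (Λ * R ^ 2) = (Λ - 1) / (Λ * R ^ 2) := by field_simp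
        rw [this]
        gcongr
      have hsq : 2 * (((min s.1 R : ℕ) : ℝ) ^ 2 / R ^ 2) + 2 * (1 / R ^ 2) ≤
          ((min (s0 s).1 R : ℕ) : ℝ) ^ 2 / R ^ 2 + ((min (s1 s).1 R : ℕ) : ℝ) ^ 2 / R ^ 2 := by
        rw [← add_div, mul_div_assoc', mul_div_assoc', ← add_div]
        have m0 : min (s0 s).1 R = s.1 + 1 := by rw [hk1]; omega
        have m1 : min (s1 s).1 R = (s1 s).1 := min_eq_left hs1R
        have m2 : min s.1 R = s.1 := min_eq_left hsR.le
        rw [m0, m1, m2]
        refine div_le_div_of_nonneg_right ?_ (by positivity)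
        rcases Nat.eq_zero_or_pos s.1 with hk | hk
        · have : (s1 s).1 = 1 := by simp [s1, h0, hk]
          rw [this, hk]
          norm_num
        · have : (s1 s).1 = s.1 - 1 := by simp [s1, h0, hk.ne']
          rw [this]
          have e : ((s.1 - 1 : ℕ) : ℝ) = (s.1 : ℝ) - 1 := by
            rw [Nat.cast_sub hk]; simp
          rw [e]
          push_cast
          apply le_of_eq
          ring
      simp only [hΨ]
      rw [hLs]
      have : (0 : ℝ) / (Λ * R ^ 2) = 0 := by simp
      rw [this]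
      linarith

/-- The rate of absorption from `(0, E)`. -/
theorem q_rate : ∃ C : ℝ, 0 < C ∧ ∀ (m : ℕ) (E : ℤ), 1 ≤ m →
    q m (0, E) ≤ C * Real.log (|(E : ℝ)| + 2) * Real.log (m + 2) / Real.sqrt m := by
  obtain ⟨U, A, C, hA, hC, hU0, hq⟩ := q_le_scale
  refine ⟨8 * A * C + 20, by positivity, ?_⟩
  intro m E hm
  have hmr : (1 : ℝ) ≤ m := by exact_mod_cast hm
  set ℓ := Real.log (m + 2) with hℓ
  set e := Real.log (|(E : ℝ)| + 2) with he
  have hℓ1 : 1 ≤ ℓ := by
    rw [hℓ, Real.le_log_iff_exp_le (by positivity)]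
    have := Real.exp_one_lt_d9
    linarith
  have he1 : 0.69 ≤ e := by
    have h4 : Real.log 2 ≤ e := Real.log_le_log (by norm_num) (by linarith [abs_nonneg (E : ℝ)])
    have := Real.log_two_gt_d9
    linarith
  have hsq : 1 ≤ Real.sqrt m := Real.one_le_sqrt.mpr hmr
  have hsq0 : 0 < Real.sqrt m := by linarith
  have hsqsq : Real.sqrt m ^ 2 = m := Real.sq_sqrt (by positivity)
  rw [le_div_iff₀ hsq0]
  by_cases hcase : Real.sqrt m ≤ 8 * ℓ
  · have h1 := q_le_one m (0, E)
    have h0 := q_nonneg m (0, E)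
    have h2 : q m (0, E) * Real.sqrt m ≤ 8 * ℓ := by nlinarith
    have h3 : 0 ≤ A * C * e * ℓ := by positivity
    nlinarith
  · push Not at hcase
    set x : ℝ := Real.sqrt m / (8 * ℓ) with hx
    have hx1 : 1 < x := by rw [hx, one_lt_div (by positivity)]; exact hcase
    set R : ℕ := ⌈x⌉₊ with hR
    have hR1 : 1 ≤ R := by
      have : 0 < R := Nat.ceil_pos.mpr (by linarith)
      exact this
    have hRx : x ≤ R := Nat.le_ceil x
    have hRx2 : (R : ℝ) ≤ 2 * x := by
      have := Nat.ceil_lt_add_one (a := x) (by linarith)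
      rw [← hR] at this
      linarith
    have hRpos : (0 : ℝ) < R := by linarith
    have h1 := hq m R (0, E) hR1
    have h2 := hU0 E
    have hxle : 4 * ℓ * R ≤ Real.sqrt m := by
      have : 2 * x * (4 * ℓ) = Real.sqrt m := by rw [hx]; field_simp; ring
      nlinarith
    -- the logarithm
    have h3 : Real.log (4 * R) ≤ ℓ / 2 := by
      have h4 : 4 * (R : ℝ) ≤ Real.sqrt (m + 2) := by
        have h5 : Real.sqrt m ≤ Real.sqrt (m + 2) := Real.sqrt_le_sqrt (by linarith)
        nlinarith
      have h5 := Real.log_le_log (by positivity) h4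
      rw [Real.log_sqrt (by positivity)] at h5
      exact h5
    have h4 : Real.exp (-(m / (3 * (2 + 2 * Real.log (4 * R)) * R ^ 2))) ≤ 1 / Real.sqrt m := by
      have h5 : ℓ / 2 ≤ m / (3 * (2 + 2 * Real.log (4 * R)) * R ^ 2) := by
        have hlog : 0 ≤ Real.log (4 * R) := Real.log_nonneg (by
          have : (1 : ℝ) ≤ R := by exact_mod_cast hR1
          linarith)
        rw [le_div_iff₀ (by positivity)]
        have h6 : 2 + 2 * Real.log (4 * R) ≤ 3 * ℓ := by linarith
        have h7 : (4 * ℓ * R) ^ 2 ≤ m := by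
          rw [← hsqsq]
          exact pow_le_pow_left₀ (by positivity) hxle 2
        have h8 : ℓ / 2 * (3 * (2 + 2 * Real.log (4 * R)) * R ^ 2) ≤ ℓ / 2 * (3 * (3 * ℓ) * R ^ 2) := by
          gcongr
        have h9 : 0 ≤ ℓ ^ 2 * (R : ℝ) ^ 2 := by positivity
        nlinarith
      have h6 : Real.exp (-(ℓ / 2)) ≤ 1 / Real.sqrt m := by
        rw [Real.exp_neg, ← one_div]
        apply one_div_le_one_div_of_le hsq0
        have h7 : Real.sqrt (m + 2) = Real.exp (ℓ / 2) := by
          rw [hℓ, Real.sqrt_eq_rpow, Real.rpow_def_of_pos (by positivity)]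
          congr 1
          ring
        rw [← h7]
        exact Real.sqrt_le_sqrt (by linarith)
      refine le_trans (Real.exp_le_exp.mpr ?_) h6
      linarith
    have h5 : A / R * U (0, E) ≤ A / R * (C * e) := mul_le_mul_of_nonneg_left h2 (by positivity)
    have h6 : A / R * (C * e) * Real.sqrt m ≤ 8 * A * C * e * ℓ := by
      have h7 : Real.sqrt m ≤ 8 * ℓ * R := by
        have : x * (8 * ℓ) = Real.sqrt m := by rw [hx]; field_simp
        nlinarith
      calc A / R * (C * e) * Real.sqrt m ≤ A / R * (C * e) * (8 * ℓ * R) :=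
            mul_le_mul_of_nonneg_left h7 (by positivity)
        _ = 8 * A * C * e * ℓ := by field_simp
    have h7 : 3 * Real.exp (-(m / (3 * (2 + 2 * Real.log (4 * R)) * R ^ 2))) * Real.sqrt m ≤ 3 := by
      calc _ ≤ 3 * (1 / Real.sqrt m) * Real.sqrt m := by gcongr
        _ = 3 := by field_simp
    calc q m (0, E) * Real.sqrt m ≤ (A / R * (C * e) +
          3 * Real.exp (-(m / (3 * (2 + 2 * Real.log (4 * R)) * R ^ 2)))) * Real.sqrt m := by
            apply mul_le_mul_of_nonneg_right _ hsq0.le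
            linarith
      _ ≤ 8 * A * C * e * ℓ + 3 := by linarith
      _ ≤ (8 * A * C + 20) * e * ℓ := by nlinarith

end Pool.Agent.Lib.MP_d0d59f_nt.LC
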