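import Mathlib
import Pool.Agent.Lib.MP_d0d59f_nt.Basic
import Pool.Agent.Lib.MP_d0d59f_nt.NK.K046

section

/-!
From integers to the chain.
-/

namespace Pool.Agent.Lib.MP_d0d59f_nt.LC

/-- The smaller coordinate after one step, if it was odd. -/
def oddNext (d : ℤ) (s : St) (z : ℤ) : ℤ :=
  if s.1 = 0 ∧ s.2 % 2 = 1 then (z + d * s.2) / 2 else (3 * z + d) / 2

/-- The pair `(z, 3^k z + d E)` is not absorbed within `m` steps. -/
def nb (d : ℤ) : ℕ → St → ℤ → Prop
  | 0, s, _ => s ≠ (0, 0)
  | m + 1, s, z => s ≠ (0, 0) ∧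
      ((z % 2 = 0 ∧ nb d m (s0 s) (z / 2)) ∨ (z % 2 = 1 ∧ nb d m (s1 s) (oddNext d s z)))

theorem three_pow_odd' (k : ℕ) : (3 : ℤ) ^ k % 2 = 1 :=
  Int.odd_iff.mp (Odd.pow (by decide))

/-- Absorption implies coalescence. -/
theorem coal_of_not_nb {d : ℤ} (hd : Odd d) (m : ℕ) (s : St) (z : ℤ) (h : ¬ nb d m s z) :
    ∃ j ≤ m, (T d)^[j] z = (T d)^[j] (3 ^ s.1 * z + d * s.2) := by
  induction m generalizing s z with
  | zero =>
    have hs : s = (0, 0) := by by_contra hc; exact h hc
    exact ⟨0, le_rfl, by subst hs; simp⟩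
  | succ m ih =>
    by_cases hs : s = (0, 0)
    · exact ⟨0, by omega, by subst hs; simp⟩
    obtain ⟨k, E⟩ := s
    have hdo : d % 2 = 1 := Int.odd_iff.mp hd
    have h3 := three_pow_odd' k
    have h3d : (3 : ℤ) ^ k * d % 2 = 1 := by
      rw [Int.mul_emod, h3, hdo]; norm_num
    simp only [nb, not_and, not_or] at h
    have h' := h hs
    rcases Int.emod_two_eq_zero_or_one z with hz | hz
    · have h1 := h'.1 hz
      obtain ⟨j, hj, hje⟩ := ih _ _ h1
      refine ⟨j + 1, by omega, ?_⟩
      rw [Function.iterate_succ_apply, Function.iterate_succ_apply]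
      have hTz : T d z = z / 2 := by unfold T; rw [if_pos hz]
      obtain ⟨y, rfl⟩ : ∃ y, z = 2 * y := ⟨z / 2, by omega⟩
      rw [Int.mul_ediv_cancel_left _ (by norm_num)] at hTz hje
      rcases Int.emod_two_eq_zero_or_one E with hE | hE
      · obtain ⟨F, rfl⟩ : ∃ F, E = 2 * F := ⟨E / 2, by omega⟩
        have e : s0 (k, 2 * F) = (k, F) := by simp [s0]
        rw [e] at hje
        have hX : T d (3 ^ k * (2 * y) + d * (2 * F)) = 3 ^ k * y + d * F := by
          have e2 : 3 ^ k * (2 * y) + d * (2 * F) = 2 * (3 ^ k * y + d * F) := by ring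
          simp only [e2]
          unfold T
          rw [if_pos (by omega), Int.mul_ediv_cancel_left _ (by norm_num)]
        simp only
        rw [hTz, hX]
        exact hje
      · obtain ⟨F, rfl⟩ : ∃ F, E = 2 * F + 1 := ⟨E / 2, by omega⟩
        have e : s0 (k, 2 * F + 1) = (k + 1, 3 * F + 2) := by
          simp [s0]; omega
        rw [e] at hje
        have hX : T d (3 ^ k * (2 * y) + d * (2 * F + 1)) = 3 ^ (k + 1) * y + d * (3 * F + 2) := by
          obtain ⟨c, hc⟩ : ∃ c, d = 2 * c + 1 := ⟨d / 2, by omega⟩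
          have e2 : 3 ^ k * (2 * y) + d * (2 * F + 1) = 2 * (3 ^ k * y + d * F + c) + 1 := by
            rw [hc]; ring
          have e3 : 3 * (2 * (3 ^ k * y + d * F + c) + 1) + d = 2 * (3 ^ (k + 1) * y + d * (3 * F + 2)) := by
            rw [hc]; ring
          simp only [e2]
          unfold T
          rw [if_neg (by omega), e3, Int.mul_ediv_cancel_left _ (by norm_num)]
        simp only
        rw [hTz, hX]
        exact hje
    · have h1 := h'.2 hz
      obtain ⟨j, hj, hje⟩ := ih _ _ h1
      refine ⟨j + 1, by omega, ?_⟩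
      rw [Function.iterate_succ_apply, Function.iterate_succ_apply]
      have hTz : T d z = (3 * z + d) / 2 := by unfold T; rw [if_neg (by omega)]
      obtain ⟨y, rfl⟩ : ∃ y, z = 2 * y + 1 := ⟨z / 2, by omega⟩
      obtain ⟨c, hc⟩ : ∃ c, d = 2 * c + 1 := ⟨d / 2, by omega⟩
      obtain ⟨p, hp⟩ : ∃ p, (3 : ℤ) ^ k = 2 * p + 1 := ⟨3 ^ k / 2, by omega⟩
      have hTz2 : T d (2 * y + 1) = 3 * y + c + 2 := by
        rw [hTz, hc]
        omega
      rcases Int.emod_two_eq_zero_or_one E with hE | hE
      · obtain ⟨F, rfl⟩ : ∃ F, E = 2 * F := ⟨E / 2, by omega⟩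
        have e : s1 (k, 2 * F) = (k, 3 * F - p) := by
          simp [s1, hp]; omega
        have eo : oddNext d (k, 2 * F) (2 * y + 1) = 3 * y + c + 2 := by
          unfold oddNext
          rw [if_neg (by simp), hc]
          omega
        rw [e, eo] at hje
        have hX : T d (3 ^ k * (2 * y + 1) + d * (2 * F)) = 3 ^ k * (3 * y + c + 2) + d * (3 * F - p) := by
          have e2 : 3 ^ k * (2 * y + 1) + d * (2 * F) = 2 * (3 ^ k * y + p + d * F) + 1 := by
            rw [hp]; ring
          have e3 : 3 * (2 * (3 ^ k * y + p + d * F) + 1) + d =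
              2 * (3 ^ k * (3 * y + c + 2) + d * (3 * F - p)) := by
            rw [hp, hc]; ring
          simp only [e2]
          unfold T
          rw [if_neg (by omega), e3, Int.mul_ediv_cancel_left _ (by norm_num)]
        simp only
        rw [hTz2, hX]
        exact hje
      · obtain ⟨F, rfl⟩ : ∃ F, E = 2 * F + 1 := ⟨E / 2, by omega⟩
        rcases Nat.eq_zero_or_pos k with hk | hk
        · subst hk
          have e : s1 (0, 2 * F + 1) = (1, -3 * F - 1) := by
            simp [s1]; omega
          have eo : oddNext d (0, 2 * F + 1) (2 * y + 1) = y + d * F + c + 1 := by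
            unfold oddNext
            rw [if_pos (by constructor <;> simp <;> omega)]
            have : 2 * y + 1 + d * (2 * F + 1) = 2 * (y + d * F + c + 1) := by rw [hc]; ring
            simp only
            rw [this, Int.mul_ediv_cancel_left _ (by norm_num)]
          rw [e, eo] at hje
          have hX : T d (3 ^ 0 * (2 * y + 1) + d * (2 * F + 1)) = y + d * F + c + 1 := by
            have e2 : 3 ^ 0 * (2 * y + 1) + d * (2 * F + 1) = 2 * (y + d * F + c + 1) := by
              rw [hc]; ring
            simp only [e2]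
            unfold T
            rw [if_pos (by omega), Int.mul_ediv_cancel_left _ (by norm_num)]
          have hY : 3 ^ 1 * (y + d * F + c + 1) + d * (-3 * F - 1) = 3 * y + c + 2 := by
            rw [hc]; ring
          simp only at hje
          rw [hY] at hje
          simp only
          rw [hTz2, hX]
          exact hje.symm
        · obtain ⟨i, rfl⟩ : ∃ i, k = i + 1 := ⟨k - 1, by omega⟩
          obtain ⟨r, hr⟩ : ∃ r, (3 : ℤ) ^ i = 2 * r + 1 := ⟨3 ^ i / 2, by
            have := three_pow_odd' i; omega⟩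
          have e : s1 (i + 1, 2 * F + 1) = (i, F - r) := by
            simp [s1, hr]; omega
          have eo : oddNext d (i + 1, 2 * F + 1) (2 * y + 1) = 3 * y + c + 2 := by
            unfold oddNext
            rw [if_neg (by simp), hc]
            omega
          rw [e, eo] at hje
          have hX : T d (3 ^ (i + 1) * (2 * y + 1) + d * (2 * F + 1)) =
              3 ^ i * (3 * y + c + 2) + d * (F - r) := by
            have e2 : 3 ^ (i + 1) * (2 * y + 1) + d * (2 * F + 1) =
                2 * (3 ^ i * (3 * y + c + 2) + d * (F - r)) := by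
              rw [pow_succ, hr, hc]; ring
            simp only [e2]
            unfold T
            rw [if_pos (by omega), Int.mul_ediv_cancel_left _ (by norm_num)]
          simp only
          rw [hTz2, hX]
          exact hje

end Pool.Agent.Lib.MP_d0d59f_nt.LC

end

section

/-!
The count: local coalescence.
-/

namespace Pool.Agent.Lib.MP_d0d59f_nt.LC

open Classical in
/-- A periodic set has the same number of elements in `{α z + c : a ≤ z < a + N}` and in `[b, b+N)`. -/
theorem card_affine (N : ℕ) (hN : 0 < N) (P : ℤ → Prop) (hP : ∀ z, P (z + N) ↔ P z)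
    (α c a b : ℤ) (hα : IsCoprime α (N : ℤ)) :
    ((Finset.Ico a (a + N)).filter fun z => P (α * z + c)).card =
      ((Finset.Ico b (b + N)).filter P).card := by
  have hNz : (0 : ℤ) < N := by exact_mod_cast hN
  have hPm : ∀ (k : ℕ) (z : ℤ), P (z + N * k) ↔ P z := by
    intro k
    induction k with
    | zero => intro z; simp
    | succ k ih =>
      intro z
      have e : z + N * ((k + 1 : ℕ) : ℤ) = z + N * k + N := by push_cast; ring
      rw [e, hP, ih]
  have hPz : ∀ (k z : ℤ), P (z + N * k) ↔ P z := by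
    intro k z
    rcases Int.eq_nat_or_neg k with ⟨n, rfl | rfl⟩
    · exact hPm n z
    · have := hPm n (z + N * (-(n : ℤ)))
      rw [← this]
      have e : z + N * (-(n : ℤ)) + N * n = z := by ring
      rw [e]
  set f : ℤ → ℤ := fun z => b + (α * z + c - b) % N with hf
  have hfm : ∀ z, f z ∈ Finset.Ico b (b + N) := by
    intro z
    rw [Finset.mem_Ico]
    have h1 := Int.emod_nonneg (α * z + c - b) hNz.ne'
    have h2 := Int.emod_lt_of_pos (α * z + c - b) hNz
    constructor <;> simp only [hf] <;> omega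
  have hinj : Set.InjOn f (Finset.Ico a (a + N) : Finset ℤ) := by
    intro x hx y hy hxy
    rw [Finset.mem_coe, Finset.mem_Ico] at hx hy
    have h1 : (α * x + c - b) % N = (α * y + c - b) % N := by simp only [hf] at hxy; omega
    have h2 : (N : ℤ) ∣ α * (x - y) := by
      have h3 : α * y + c - b ≡ α * x + c - b [ZMOD N] := h1.symm
      have h4 := h3.dvd
      have e : α * x + c - b - (α * y + c - b) = α * (x - y) := by ring
      rwa [e] at h4
    have h3 : (N : ℤ) ∣ x - y := hα.symm.dvd_of_dvd_mul_left h2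
    have h4 : |x - y| < N := by rw [abs_lt]; constructor <;> omega
    have h5 := Int.eq_zero_of_abs_lt_dvd h3 h4
    omega
  have himg : (Finset.Ico a (a + N)).image f = Finset.Ico b (b + N) := by
    apply Finset.eq_of_subset_of_card_le
    · intro y hy
      obtain ⟨x, _, rfl⟩ := Finset.mem_image.mp hy
      exact hfm x
    · rw [Finset.card_image_of_injOn hinj]
      simp
  have hPf : ∀ z, P (f z) ↔ P (α * z + c) := by
    intro z
    have h1 := Int.emod_add_mul_ediv (α * z + c - b) N
    have e : α * z + c = f z + N * ((α * z + c - b) / N) := by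
      simp only [hf]; linarith
    rw [e, hPz]
  have h2 : (Finset.Ico b (b + N)).filter P =
      ((Finset.Ico a (a + N)).filter fun z => P (α * z + c)).image f := by
    rw [← himg]
    ext y
    simp only [Finset.mem_filter, Finset.mem_image]
    constructor
    · rintro ⟨⟨x, hx, rfl⟩, hy⟩
      exact ⟨x, ⟨hx, (hPf x).mp hy⟩, rfl⟩
    · rintro ⟨x, ⟨hx, hx2⟩, rfl⟩
      exact ⟨⟨x, hx, rfl⟩, (hPf x).mpr hx2⟩
  rw [h2, Finset.card_image_of_injOn (hinj.mono fun x hx => by
    rw [Finset.mem_coe] at hx ⊢
    exact (Finset.mem_filter.mp hx).1)]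

theorem nb_periodic {d : ℤ} (m : ℕ) (s : St) (z t : ℤ) :
    nb d m s (z + 2 ^ m * t) ↔ nb d m s z := by
  induction m generalizing s z t with
  | zero => simp [nb]
  | succ m ih =>
    have e : z + 2 ^ (m + 1) * t = z + 2 * (2 ^ m * t) := by rw [pow_succ]; ring
    rw [e]
    set u : ℤ := 2 ^ m * t with hu
    have h2 : (z + 2 * u) / 2 = z / 2 + u := by omega
    have hmod : (z + 2 * u) % 2 = z % 2 := by omega
    have hodd : nb d m (s1 s) (oddNext d s (z + 2 * u)) ↔ nb d m (s1 s) (oddNext d s z) := by
      unfold oddNext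
      split_ifs
      · have e1 : (z + 2 * u + d * s.2) / 2 = (z + d * s.2) / 2 + 2 ^ m * t := by
          rw [← hu]; omega
        rw [e1, ih]
      · have e1 : (3 * (z + 2 * u) + d) / 2 = (3 * z + d) / 2 + 2 ^ m * (3 * t) := by
          have : 2 ^ m * (3 * t) = 3 * u := by rw [hu]; ring
          rw [this]; omega
        rw [e1, ih]
    simp only [nb]
    rw [hmod, h2, hu, ih, ← hu, hodd]

open Classical in
/-- The number of non-absorbed `z` in an interval of length `2^m`. -/
theorem card_nb {d : ℤ} (hd : Odd d) (m : ℕ) (s : St) (a : ℤ) :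
    ((((Finset.Ico a (a + 2 ^ m)).filter fun z => nb d m s z).card : ℕ) : ℝ) = 2 ^ m * q m s := by
  induction m generalizing s a with
  | zero =>
    by_cases hs : s = (0, 0)
    · subst hs; rw [q_absorbed]; simp [nb]
    · rw [q_zero hs]
      have : ((Finset.Ico a (a + 2 ^ 0)).filter fun z => nb d 0 s z) = {a} := by
        ext z
        simp only [nb, Finset.mem_filter, Finset.mem_Ico, pow_zero, Finset.mem_singleton]
        constructor
        · rintro ⟨h1, _⟩; omega
        · rintro rfl; exact ⟨by omega, hs⟩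
      rw [this]; simp
  | succ m ih =>
    by_cases hs : s = (0, 0)
    · subst hs; rw [q_absorbed]; simp [nb]
    have hshift : ((Finset.Ico a (a + 2 ^ (m + 1))).filter fun z => nb d (m + 1) s z).card =
        ((Finset.Ico (0 : ℤ) (0 + 2 ^ (m + 1))).filter fun z => nb d (m + 1) s z).card := by
      have := card_affine (2 ^ (m + 1)) (by positivity) (fun z => nb d (m + 1) s z)
        (fun z => by
          have := nb_periodic (d := d) (m + 1) s z 1
          push_cast
          rwa [mul_one] at this) 1 0 a 0 isCoprime_one_left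
      push_cast at this
      simp only [one_mul, add_zero] at this
      exact this
    rw [hshift]
    have hsplit : ((Finset.Ico (0 : ℤ) (0 + 2 ^ (m + 1))).filter fun z => nb d (m + 1) s z) =
        (((Finset.Ico (0 : ℤ) (0 + 2 ^ m)).filter fun y => nb d m (s0 s) y).image fun y => 2 * y) ∪
        (((Finset.Ico (0 : ℤ) (0 + 2 ^ m)).filter fun y =>
          nb d m (s1 s) (oddNext d s (2 * y + 1))).image fun y => 2 * y + 1) := by
      ext z
      simp only [Finset.mem_filter, Finset.mem_Ico, Finset.mem_union, Finset.mem_image, nb, pow_succ,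
        zero_add]
      constructor
      · rintro ⟨⟨h1, h2⟩, _, h3⟩
        rcases h3 with ⟨h4, h5⟩ | ⟨h4, h5⟩
        · left
          refine ⟨z / 2, ⟨⟨by omega, by omega⟩, h5⟩, by omega⟩
        · right
          refine ⟨z / 2, ⟨⟨by omega, by omega⟩, ?_⟩, by omega⟩
          have : 2 * (z / 2) + 1 = z := by omega
          rw [this]; exact h5
      · rintro (⟨y, ⟨⟨h1, h2⟩, h3⟩, rfl⟩ | ⟨y, ⟨⟨h1, h2⟩, h3⟩, rfl⟩)
        · refine ⟨⟨by omega, by omega⟩, hs, Or.inl ⟨by omega, ?_⟩⟩
          rw [Int.mul_ediv_cancel_left _ (by norm_num)]; exact h3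
        · exact ⟨⟨by omega, by omega⟩, hs, Or.inr ⟨by omega, h3⟩⟩
    rw [hsplit, Finset.card_union_of_disjoint, Finset.card_image_of_injective,
      Finset.card_image_of_injective]
    · have h0 := ih (s0 s) 0
      -- odd part
      have h1 : ((Finset.Ico (0 : ℤ) (0 + 2 ^ m)).filter fun y =>
          nb d m (s1 s) (oddNext d s (2 * y + 1))).card =
          ((Finset.Ico (0 : ℤ) (0 + 2 ^ m)).filter fun y => nb d m (s1 s) y).card := by
        have hper : ∀ z, nb d m (s1 s) (z + ((2 ^ m : ℕ) : ℤ)) ↔ nb d m (s1 s) z := fun z => by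
          have := nb_periodic (d := d) m (s1 s) z 1
          push_cast
          rwa [mul_one] at this
        obtain ⟨c, hc⟩ : ∃ c, d = 2 * c + 1 := ⟨d / 2, by
          have := Int.odd_iff.mp hd; omega⟩
        by_cases hcase : s.1 = 0 ∧ s.2 % 2 = 1
        · obtain ⟨F, hF⟩ : ∃ F, s.2 = 2 * F + 1 := ⟨s.2 / 2, by omega⟩
          have := card_affine (2 ^ m) (by positivity) (fun z => nb d m (s1 s) z) hper 1
            (d * F + c + 1) 0 0 isCoprime_one_left
          push_cast at this
          rw [← this]
          congr 1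
          apply Finset.filter_congr
          intro y _
          have e : oddNext d s (2 * y + 1) = 1 * y + (d * F + c + 1) := by
            unfold oddNext
            rw [if_pos hcase, hF]
            have : 2 * y + 1 + d * (2 * F + 1) = 2 * (1 * y + (d * F + c + 1)) := by rw [hc]; ring
            rw [this, Int.mul_ediv_cancel_left _ (by norm_num)]
          rw [e]
        · have := card_affine (2 ^ m) (by positivity) (fun z => nb d m (s1 s) z) hper 3
            (c + 2) 0 0 (by
              push_cast
              exact (IsCoprime.pow_left (by norm_num : IsCoprime (2 : ℤ) 3)).symm)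
          push_cast at this
          rw [← this]
          congr 1
          apply Finset.filter_congr
          intro y _
          have e : oddNext d s (2 * y + 1) = 3 * y + (c + 2) := by
            unfold oddNext
            rw [if_neg hcase, hc]
            omega
          rw [e]
      rw [h1]
      push_cast
      have h2 := ih (s1 s) 0
      rw [h0, h2, q_succ m hs, pow_succ]
      ring
    · intro x y hxy
      simp only at hxy
      omega
    · intro x y hxy
      simp only at hxy
      omega
    · rw [Finset.disjoint_left]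
      intro z hz1 hz2
      obtain ⟨x, _, hx⟩ := Finset.mem_image.mp hz1
      obtain ⟨y, _, hy⟩ := Finset.mem_image.mp hz2
      omega

/-- **Local coalescence.** -/
theorem coalesce : ∃ C : ℝ, 0 < C ∧ ∀ d : ℤ, Odd d → ∀ (h : ℤ) (m : ℕ), 1 ≤ m → ∀ a : ℤ,
    (Set.ncard {z : ℤ | a ≤ z ∧ z < a + 2 ^ m ∧
      ∀ j ≤ m, (T d)^[j] z ≠ (T d)^[j] (z + d * h)} : ℝ) ≤
    C * Real.log (|(h : ℝ)| + 2) * Real.log (m + 2) / Real.sqrt m * 2 ^ m := by
  classical
  obtain ⟨C, hC, hq⟩ := q_rate
  refine ⟨C, hC, ?_⟩
  intro d hd h m hm a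
  have h1 : {z : ℤ | a ≤ z ∧ z < a + 2 ^ m ∧ ∀ j ≤ m, (T d)^[j] z ≠ (T d)^[j] (z + d * h)} ⊆
      (((Finset.Ico a (a + 2 ^ m)).filter fun z => nb d m (0, h) z : Finset ℤ) : Set ℤ) := by
    rintro z ⟨h1, h2, h3⟩
    rw [Finset.mem_coe, Finset.mem_filter, Finset.mem_Ico]
    refine ⟨⟨h1, h2⟩, ?_⟩
    by_contra hc
    obtain ⟨j, hj, hje⟩ := coal_of_not_nb hd m (0, h) z hc
    apply h3 j hj
    simpa using hje
  have h2 := Set.ncard_le_ncard h1 (Finset.finite_toSet _)
  rw [Set.ncard_coe_finset] at h2
  have h3 : (Set.ncard {z : ℤ | a ≤ z ∧ z < a + 2 ^ m ∧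
      ∀ j ≤ m, (T d)^[j] z ≠ (T d)^[j] (z + d * h)} : ℝ) ≤ 2 ^ m * q m (0, h) := by
    rw [← card_nb hd m (0, h) a]
    exact_mod_cast h2
  have h4 := hq m h hm
  calc _ ≤ 2 ^ m * q m (0, h) := h3
    _ ≤ 2 ^ m * (C * Real.log (|(h : ℝ)| + 2) * Real.log (m + 2) / Real.sqrt m) :=
      mul_le_mul_of_nonneg_left h4 (by positivity)
    _ = _ := by ring

end Pool.Agent.Lib.MP_d0d59f_nt.LC

end
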